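import Pool.Agent.Lib.MP_32d917_al.FDefs
import Pool.Agent.Lib.MP_32d917_al.RE
import Pool.Agent.Lib.MP_32d917_al.CODEB

/-!
# codes: surjectivity of the decoding, primitive recursiveness of the entries

`dec_surj`: first: for every `f : ℕ → ℕ` with `f j < B` (`B ≥ 2`) and every `K` there is `w < B ^ K` with `w / B ^ j % B = f j` for all `j < K` (induction on `K`; see `CODEB.lean`, where this is done for `dig`). The numbers `idx s k a b c d` with `k < 9`, `a, b, c, d < bse s` are pairwise different and `< 9 * bse s ^ 4`. Choose the digits from `X`: all values are `< bse s`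
(`mv`, `sq`: digit 1 or 0). `ent_p`: `idx`, `dg` are primitive recursive (`Nat.pow`, `div`, `mod`). `dig_surj`: see `ndecd_surj` in N/NCODE1.
-/

set_option autoImplicit false

namespace LatF

open LatIso LatN

section

theorem fm_surj (n : ℕ) (q : Fin (n + 1)) : fm n q = q :=
  Fin.ext (Nat.mod_eq_of_lt q.2)

open Classical in
/-- the digits of the code -/
noncomputable def ca_val (s : ℕ × ℕ × ℕ) (X : FD (Fin (s.1 + 1)) (Fin (s.2.1 + 1)) (Fin (s.2.2 + 1)))
    (k a b c d : ℕ) : ℕ :=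
  if k = 0 then ((X.o (fm s.2.2 a) : Fin _) : ℕ)
  else if k = 1 then ((X.t (fm s.2.2 a) : Fin _) : ℕ)
  else if k = 2 then ((X.e (fm s.2.1 a) : Fin _) : ℕ)
  else if k = 3 then ((X.i (fm s.2.2 a) : Fin _) : ℕ)
  else if k = 4 then (if X.mv (fm s.2.2 a) then 1 else 0)
  else if k = 5 then ((X.ty (fm s.2.2 a) : Fin _) : ℕ)
  else if k = 6 then ((X.pm (fm s.2.2 a) (fm s.1 b) : Fin _) : ℕ)
  else if k = 7 then ((X.ml (fm s.2.2 a) (fm s.2.2 b) : Fin _) : ℕ)
  else (if X.sq (fm s.2.2 a) (fm s.2.2 b) (fm s.2.2 c) (fm s.2.2 d) then 1 else 0)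

theorem ca_val_lt (s : ℕ × ℕ × ℕ) (X : FD (Fin (s.1 + 1)) (Fin (s.2.1 + 1)) (Fin (s.2.2 + 1)))
    (k a b c d : ℕ) : ca_val s X k a b c d < s.1 + s.2.1 + s.2.2 + 1 + 1 := by
  classical
  unfold ca_val
  have h1 : ∀ x : Fin (s.1 + 1), (x : ℕ) < s.1 + s.2.1 + s.2.2 + 1 + 1 := fun x => by
    have := x.2
    omega
  have h2 : ∀ x : Fin (s.2.1 + 1), (x : ℕ) < s.1 + s.2.1 + s.2.2 + 1 + 1 := fun x => by
    have := x.2
    omega
  have h3 : ∀ x : Fin (s.2.2 + 1), (x : ℕ) < s.1 + s.2.1 + s.2.2 + 1 + 1 := fun x => by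
    have := x.2
    omega
  split_ifs
  · exact h2 _
  · exact h2 _
  · exact h3 _
  · exact h3 _
  · omega
  · omega
  · exact h1 _
  · exact h1 _
  · exact h3 _
  · omega
  · omega

theorem ca_dec4 (B k a b c d : ℕ) (hk : k < 9) (hb : b < B) (hc : c < B) (hd : d < B) :
    (9 * (((a * B + b) * B + c) * B + d) + k) % 9 = k ∧
    (9 * (((a * B + b) * B + c) * B + d) + k) / 9 % B = d ∧
    (9 * (((a * B + b) * B + c) * B + d) + k) / 9 / B % B = c ∧
    (9 * (((a * B + b) * B + c) * B + d) + k) / 9 / B / B % B = b ∧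
    (9 * (((a * B + b) * B + c) * B + d) + k) / 9 / B / B / B = a := by
  have h0 : ∀ x y : ℕ, y < B → (x * B + y) / B = x ∧ (x * B + y) % B = y := by
    intro x y hy
    have hB : 0 < B := by omega
    constructor
    · rw [Nat.mul_comm, Nat.mul_add_div hB, Nat.div_eq_of_lt hy, Nat.add_zero]
    · rw [Nat.mul_comm, Nat.mul_add_mod]
      exact Nat.mod_eq_of_lt hy
  have h1 : (9 * (((a * B + b) * B + c) * B + d) + k) / 9 = ((a * B + b) * B + c) * B + d := by
    omega
  rw [h1, (h0 _ _ hd).1, (h0 _ _ hd).2, (h0 _ _ hc).1, (h0 _ _ hc).2, (h0 _ _ hb).1, (h0 _ _ hb).2]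
  refine ⟨by omega, rfl, rfl, rfl, rfl⟩

theorem ca_code (s : ℕ × ℕ × ℕ) (X : FD (Fin (s.1 + 1)) (Fin (s.2.1 + 1)) (Fin (s.2.2 + 1))) :
    ∃ w, InBox (s, w) ∧ ∀ k a b c d : ℕ, k < 9 → a < bse s → b < bse s → c < bse s → d < bse s →
      ent (s, w) k a b c d = ca_val s X k a b c d := by
  obtain ⟨w, hw, h⟩ := LatIso.CB.exists_dg (s.1 + s.2.1 + s.2.2 + 1)
    (fun j => ca_val s X (j % 9) (j / 9 / bse s / bse s / bse s) (j / 9 / bse s / bse s % bse s)
      (j / 9 / bse s % bse s) (j / 9 % bse s))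
    (fun j => ca_val_lt s X _ _ _ _ _) (9 * bse s ^ 4)
  refine ⟨w, hw, ?_⟩
  intro k a b c d hk ha hb hc hd
  have h1 : idx s k a b c d < 9 * bse s ^ 4 := by
    unfold idx
    have hs : ∀ x y M : ℕ, x < M → y < bse s → x * bse s + y < M * bse s := by
      intro x y M hx hy
      calc x * bse s + y < x * bse s + bse s := by omega
        _ = (x + 1) * bse s := by ring
        _ ≤ M * bse s := Nat.mul_le_mul_right _ hx
    have h2 := hs _ _ _ (hs _ _ _ (hs _ _ _ ha hb) hc) hd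
    have h3 : bse s ^ 4 = bse s * bse s * bse s * bse s := by ring
    rw [h3]
    omega
  have h2 := h _ h1
  obtain ⟨e1, e2, e3, e4, e5⟩ := ca_dec4 (bse s) k a b c d hk hb hc hd
  show LatIso.CB.dg (s.1 + s.2.1 + s.2.2 + 1) w (idx s k a b c d) = _
  rw [h2]
  show ca_val s X (idx s k a b c d % 9) _ _ _ _ = _
  unfold idx
  rw [e1, e2, e3, e4, e5]

theorem ca_ext {ι P A : Type} {X Y : FD ι P A} (h1 : X.o = Y.o) (h2 : X.t = Y.t) (h3 : X.e = Y.e)
    (h4 : X.i = Y.i) (h5 : X.mv = Y.mv) (h6 : X.ty = Y.ty) (h7 : X.pm = Y.pm) (h8 : X.ml = Y.ml)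
    (h9 : X.sq = Y.sq) : X = Y := by
  cases X
  cases Y
  simp only at h1 h2 h3 h4 h5 h6 h7 h8 h9
  subst h1 h2 h3 h4 h5 h6 h7 h8 h9
  rfl

theorem dec_surj (s : ℕ × ℕ × ℕ) (X : FD (Fin (s.1 + 1)) (Fin (s.2.1 + 1)) (Fin (s.2.2 + 1))) :
    ∃ w, InBox (s, w) ∧ dec (s, w) = X := by
  classical
  obtain ⟨w, hw, h⟩ := ca_code s X
  have hb : ∀ x : Fin (s.1 + 1), (x : ℕ) < bse s := fun x => by
    have := x.2
    unfold bse
    omega
  have hp : ∀ x : Fin (s.2.1 + 1), (x : ℕ) < bse s := fun x => by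
    have := x.2
    unfold bse
    omega
  have ha : ∀ x : Fin (s.2.2 + 1), (x : ℕ) < bse s := fun x => by
    have := x.2
    unfold bse
    omega
  have h0 : 0 < bse s := by unfold bse; omega
  refine ⟨w, hw, ca_ext ?_ ?_ ?_ ?_ ?_ ?_ ?_ ?_ ?_⟩
  · funext a
    show fm s.2.1 (ent (s, w) 0 a 0 0 0) = X.o a
    rw [h 0 a 0 0 0 (by norm_num) (ha a) h0 h0 h0]
    unfold ca_val
    rw [if_pos rfl, fm_surj, fm_surj]
  · funext a
    show fm s.2.1 (ent (s, w) 1 a 0 0 0) = X.t a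
    rw [h 1 a 0 0 0 (by norm_num) (ha a) h0 h0 h0]
    unfold ca_val
    rw [if_neg (by norm_num), if_pos rfl, fm_surj, fm_surj]
  · funext a
    show fm s.2.2 (ent (s, w) 2 a 0 0 0) = X.e a
    rw [h 2 a 0 0 0 (by norm_num) (hp a) h0 h0 h0]
    unfold ca_val
    rw [if_neg (by norm_num), if_neg (by norm_num), if_pos rfl, fm_surj, fm_surj]
  · funext a
    show fm s.2.2 (ent (s, w) 3 a 0 0 0) = X.i a
    rw [h 3 a 0 0 0 (by norm_num) (ha a) h0 h0 h0]
    unfold ca_val
    rw [if_neg (by norm_num), if_neg (by norm_num), if_neg (by norm_num), if_pos rfl, fm_surj,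
      fm_surj]
  · funext a
    show (ent (s, w) 4 a 0 0 0 = 1) = X.mv a
    rw [h 4 a 0 0 0 (by norm_num) (ha a) h0 h0 h0]
    unfold ca_val
    rw [if_neg (by norm_num), if_neg (by norm_num), if_neg (by norm_num), if_neg (by norm_num),
      if_pos rfl, fm_surj]
    apply propext
    by_cases hx : X.mv a
    · simp [hx]
    · simp [hx]
  · funext a
    show fm s.1 (ent (s, w) 5 a 0 0 0) = X.ty a
    rw [h 5 a 0 0 0 (by norm_num) (ha a) h0 h0 h0]
    unfold ca_val
    rw [if_neg (by norm_num), if_neg (by norm_num), if_neg (by norm_num), if_neg (by norm_num),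
      if_neg (by norm_num), if_pos rfl, fm_surj, fm_surj]
  · funext a k
    show fm s.1 (ent (s, w) 6 a k 0 0) = X.pm a k
    rw [h 6 a k 0 0 (by norm_num) (ha a) (hb k) h0 h0]
    unfold ca_val
    rw [if_neg (by norm_num), if_neg (by norm_num), if_neg (by norm_num), if_neg (by norm_num),
      if_neg (by norm_num), if_neg (by norm_num), if_pos rfl, fm_surj, fm_surj, fm_surj]
  · funext a b
    show fm s.2.2 (ent (s, w) 7 a b 0 0) = X.ml a b
    rw [h 7 a b 0 0 (by norm_num) (ha a) (ha b) h0 h0]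
    unfold ca_val
    rw [if_neg (by norm_num), if_neg (by norm_num), if_neg (by norm_num), if_neg (by norm_num),
      if_neg (by norm_num), if_neg (by norm_num), if_neg (by norm_num), if_pos rfl, fm_surj,
      fm_surj, fm_surj]
  · funext a b c d
    show (ent (s, w) 8 a b c d = 1) = X.sq a b c d
    rw [h 8 a b c d (by norm_num) (ha a) (ha b) (ha c) (ha d)]
    unfold ca_val
    rw [if_neg (by norm_num), if_neg (by norm_num), if_neg (by norm_num), if_neg (by norm_num),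
      if_neg (by norm_num), if_neg (by norm_num), if_neg (by norm_num), if_neg (by norm_num),
      fm_surj, fm_surj, fm_surj, fm_surj]
    apply propext
    by_cases hx : X.sq a b c d
    · simp [hx]
    · simp [hx]

theorem dig_surj (n m : ℕ) (δ : Fin (m + 1) → Fin (n + 1)) :
    ∃ d, (fun q : Fin (m + 1) => dig n d q) = δ := by
  obtain ⟨w, _, h⟩ := LatIso.CB.exists_dig n m δ
  exact ⟨w, funext h⟩

variable {α : Type} [Primcodable α]

theorem ent_p {f : α → Code} {k a b c d : α → ℕ} (hf : Primrec f) (hk : Primrec k)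
    (ha : Primrec a) (hb : Primrec b) (hc : Primrec c) (hd : Primrec d) :
    Primrec fun x => ent (f x) (k x) (a x) (b x) (c x) (d x) := by
  have h1 : Primrec fun x => bse (f x).1 := by
    unfold bse
    exact CB.p_add (CB.p_add (CB.p_add (CB.p_fst (CB.p_fst hf)) (CB.p_fst (CB.p_snd (CB.p_fst hf))))
      (CB.p_snd (CB.p_snd (CB.p_fst hf)))) (Primrec.const 2)
  unfold ent dg idx
  exact CB.p_mod (CB.p_div (CB.p_snd hf) (CB.p_pow h1 (CB.p_add (CB.p_mul (Primrec.const 9)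
    (CB.p_add (CB.p_mul (CB.p_add (CB.p_mul (CB.p_add (CB.p_mul ha h1) hb) h1) hc) h1) hd)) hk))) h1

/-- the value of `fm` -/
theorem fm_p {n k : α → ℕ} (hn : Primrec n) (hk : Primrec k) :
    Primrec fun x => ((fm (n x) (k x) : Fin (n x + 1)) : ℕ) :=
  CB.p_mod hk (CB.p_add hn (Primrec.const 1))

theorem dig_p {n w k : α → ℕ} (hn : Primrec n) (hw : Primrec w) (hk : Primrec k) :
    Primrec fun x => ((dig (n x) (w x) (k x) : Fin (n x + 1)) : ℕ) :=
  CB.p_dg hn hw hk

theorem fm_fm (n k : ℕ) : fm n (fm n k : Fin (n + 1)) = fm n k := fm_surj n _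

theorem fm_all {n : ℕ} (P : Fin (n + 1) → Prop) : (∀ a, P a) ↔ ∀ k < n + 1, P (fm n k) := by
  constructor
  · intro h k _
    exact h _
  · intro h a
    have := h a a.2
    rwa [fm_surj] at this

theorem fm_ex {n : ℕ} (P : Fin (n + 1) → Prop) : (∃ a, P a) ↔ ∃ k < n + 1, P (fm n k) := by
  constructor
  · rintro ⟨a, ha⟩
    exact ⟨a, a.2, by rwa [fm_surj]⟩
  · rintro ⟨k, _, hk⟩
    exact ⟨_, hk⟩

theorem fm_eq {n : ℕ} (a b : ℕ) : fm n a = fm n b ↔ a % (n + 1) = b % (n + 1) := by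
  constructor
  · intro h
    exact congrArg Fin.val h
  · intro h
    exact Fin.ext h

/-- bounded quantifiers -/
theorem ball_p {p : α × ℕ → Prop} {f : α → ℕ} (hf : Primrec f) (hp : PrimrecPred p) :
    PrimrecPred fun x => ∀ k < f x, p (x, k) :=
  CB.pp_all (p := fun x k => p (x, k)) hf hp

theorem bex_p {p : α × ℕ → Prop} {f : α → ℕ} (hf : Primrec f) (hp : PrimrecPred p) :
    PrimrecPred fun x => ∃ k < f x, p (x, k) :=
  CB.pp_ex (p := fun x k => p (x, k)) hf hp

theorem re_bex {p : α × ℕ → Prop} {f : α → ℕ} (hf : Primrec f) (hp : REPred p) :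
    REPred fun x => ∃ k < f x, p (x, k) := by
  refine REPred.of_eq (LatIso.re_exists (p := fun (x : α) (k : ℕ) => k < f x ∧ p (x, k)) ?_) ?_
  · exact LatIso.re_and (LatIso.re_of_prim (CB.pp_lt Primrec.snd (hf.comp Primrec.fst))) hp
  · intro x
    exact Iff.rfl

end

end LatF
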