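import Pool.Agent.Lib.MP_32d917_al.FDefs
import Pool.Agent.Lib.MP_32d917_al.F.CA
import Pool.Agent.Lib.MP_32d917_al.CODEB

/-!
# codes: the fields of dec as numerical functions

The fields of `dec x` applied to `fm _ a` etc. are primitive recursive: e.g. `((dec x).o (fm _ a) : ℕ) = ent x 0 (a % (nA + 1)) 0 0 0 % (nP + 1)` (rfl after unfolding). So for primitive recursive `f : α → Code`, `a : α → ℕ`: the value as a natural number is primitive recursive. The
statements below are formulated with `fm`, so that they can be composed: every arrow of `dec x` is `fm x.1.2.2 k`.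
-/

set_option autoImplicit false

namespace LatF

open LatIso LatN

section

variable {α : Type} [Primcodable α] {f : α → Code} {a b c d : α → ℕ}

private theorem cb_nI (hf : Primrec f) : Primrec fun x => (f x).1.1 :=
  Primrec.fst.comp (Primrec.fst.comp hf)

private theorem cb_nP (hf : Primrec f) : Primrec fun x => (f x).1.2.1 :=
  Primrec.fst.comp (Primrec.snd.comp (Primrec.fst.comp hf))

private theorem cb_nA (hf : Primrec f) : Primrec fun x => (f x).1.2.2 :=
  Primrec.snd.comp (Primrec.snd.comp (Primrec.fst.comp hf))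

private theorem cb_ent1 (hf : Primrec f) (k : ℕ) {n : α → ℕ} (hn : Primrec n) (ha : Primrec a) :
    Primrec fun x => ent (f x) k ((fm (n x) (a x) : Fin (n x + 1)) : ℕ) 0 0 0 :=
  ent_p hf (Primrec.const k) (fm_p hn ha) (Primrec.const 0) (Primrec.const 0) (Primrec.const 0)

private theorem cb_ent2 (hf : Primrec f) (k : ℕ) {n m : α → ℕ} (hn : Primrec n) (hm : Primrec m)
    (ha : Primrec a) (hb : Primrec b) :
    Primrec fun x => ent (f x) k ((fm (n x) (a x) : Fin (n x + 1)) : ℕ)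
      ((fm (m x) (b x) : Fin (m x + 1)) : ℕ) 0 0 :=
  ent_p hf (Primrec.const k) (fm_p hn ha) (fm_p hm hb) (Primrec.const 0) (Primrec.const 0)

theorem cb_o (hf : Primrec f) (ha : Primrec a) :
    Primrec fun x => ((dec (f x)).o (fm (f x).1.2.2 (a x)) : ℕ) :=
  fm_p (cb_nP hf) (cb_ent1 hf 0 (cb_nA hf) ha)

theorem cb_t (hf : Primrec f) (ha : Primrec a) :
    Primrec fun x => ((dec (f x)).t (fm (f x).1.2.2 (a x)) : ℕ) :=
  fm_p (cb_nP hf) (cb_ent1 hf 1 (cb_nA hf) ha)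

theorem cb_e (hf : Primrec f) (ha : Primrec a) :
    Primrec fun x => ((dec (f x)).e (fm (f x).1.2.1 (a x)) : ℕ) :=
  fm_p (cb_nA hf) (cb_ent1 hf 2 (cb_nP hf) ha)

theorem cb_i (hf : Primrec f) (ha : Primrec a) :
    Primrec fun x => ((dec (f x)).i (fm (f x).1.2.2 (a x)) : ℕ) :=
  fm_p (cb_nA hf) (cb_ent1 hf 3 (cb_nA hf) ha)

theorem cb_ty (hf : Primrec f) (ha : Primrec a) :
    Primrec fun x => ((dec (f x)).ty (fm (f x).1.2.2 (a x)) : ℕ) :=
  fm_p (cb_nI hf) (cb_ent1 hf 5 (cb_nA hf) ha)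

theorem cb_pm (hf : Primrec f) (ha : Primrec a) (hb : Primrec b) :
    Primrec fun x => ((dec (f x)).pm (fm (f x).1.2.2 (a x)) (fm (f x).1.1 (b x)) : ℕ) :=
  fm_p (cb_nI hf) (cb_ent2 hf 6 (cb_nA hf) (cb_nI hf) ha hb)

theorem cb_ml (hf : Primrec f) (ha : Primrec a) (hb : Primrec b) :
    Primrec fun x => ((dec (f x)).ml (fm (f x).1.2.2 (a x)) (fm (f x).1.2.2 (b x)) : ℕ) :=
  fm_p (cb_nA hf) (cb_ent2 hf 7 (cb_nA hf) (cb_nA hf) ha hb)

theorem cb_mr (hf : Primrec f) (ha : Primrec a) (hb : Primrec b) :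
    Primrec fun x => ((dec (f x)).mr (fm (f x).1.2.2 (a x)) (fm (f x).1.2.2 (b x)) : ℕ) := by
  have h1 := cb_i hf hb
  have h2 := cb_i hf ha
  have h3 := cb_ml hf h1 h2
  have h4 := cb_i hf h3
  refine h4.of_eq (fun x => ?_)
  rw [fm_surj, fm_surj, fm_surj]
  rfl

theorem cb_mv (hf : Primrec f) (ha : Primrec a) :
    PrimrecPred fun x => (dec (f x)).mv (fm (f x).1.2.2 (a x)) :=
  LatIso.CB.pp_eq (cb_ent1 hf 4 (cb_nA hf) ha) (Primrec.const 1)

theorem cb_sq (hf : Primrec f) (ha : Primrec a) (hb : Primrec b) (hc : Primrec c)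
    (hd : Primrec d) : PrimrecPred fun x => (dec (f x)).sq (fm (f x).1.2.2 (a x))
      (fm (f x).1.2.2 (b x)) (fm (f x).1.2.2 (c x)) (fm (f x).1.2.2 (d x)) :=
  LatIso.CB.pp_eq (ent_p hf (Primrec.const 8) (fm_p (cb_nA hf) ha) (fm_p (cb_nA hf) hb)
    (fm_p (cb_nA hf) hc) (fm_p (cb_nA hf) hd)) (Primrec.const 1)

theorem cb_lc (hf : Primrec f) (ha : Primrec a) (hb : Primrec b) :
    PrimrecPred fun x => (dec (f x)).lc (fm (f x).1.2.2 (a x)) (fm (f x).1.2.2 (b x)) :=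
  (LatIso.CB.pp_and (LatIso.CB.pp_not (cb_mv hf ha)) (LatIso.CB.pp_eq (cb_t hf ha) (cb_o hf hb))).of_eq
    (fun x => by unfold FD.lc; rw [Fin.ext_iff])

theorem cb_rc (hf : Primrec f) (ha : Primrec a) (hb : Primrec b) :
    PrimrecPred fun x => (dec (f x)).rc (fm (f x).1.2.2 (a x)) (fm (f x).1.2.2 (b x)) :=
  (LatIso.CB.pp_and (LatIso.CB.pp_not (cb_mv hf hb)) (LatIso.CB.pp_eq (cb_o hf hb) (cb_t hf ha))).of_eq
    (fun x => by unfold FD.rc; rw [Fin.ext_iff])

theorem cb_eqv (hf : Primrec f) (ha : Primrec a) (hb : Primrec b) :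
    PrimrecPred fun x => (dec (f x)).eqv (fm (f x).1.2.2 (a x)) (fm (f x).1.2.2 (b x)) := by
  have hf' : Primrec fun y : α × ℕ => f y.1 := hf.comp Primrec.fst
  have ha' : Primrec fun y : α × ℕ => a y.1 := ha.comp Primrec.fst
  have hb' : Primrec fun y : α × ℕ => b y.1 := hb.comp Primrec.fst
  have hk : Primrec fun y : α × ℕ => y.2 := Primrec.snd
  have h1 := LatIso.CB.pp_and (cb_rc hf' ha' hk) (LatIso.CB.pp_eq (fm_p (cb_nA hf') hb') (cb_mr hf' ha' hk))
  have h2 := bex_p (f := fun x => (f x).1.2.2 + 1) (Primrec.succ.comp (cb_nA hf)) h1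
  refine h2.of_eq (fun x => ?_)
  unfold FD.eqv
  rw [fm_ex]
  refine exists_congr fun k => and_congr_right fun _ => ?_
  rw [Fin.ext_iff]

end

end LatF
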