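import Pool.Agent.Lib.MP_32d917_al.FDefs
import Pool.Agent.Lib.MP_32d917_al.F.CB
import Pool.Agent.Lib.MP_32d917_al.GPRES
import Pool.Agent.Lib.MP_32d917_al.N.NGPRES

/-!
# codes: presentations of the universal and of the fundamental group

Adapt N/NGPRES.lean (`ngam_pres`) and GPRES.lean (`GPRES_iso`: a presented group on `A' ≃ Fin N` with finitely many relators given by lists): generators `0, ..., nA`, relators: for all `p`: `e p`; for all `a`: `a (i a)`; for all `s, a` with `lc s a`: `s a (ml s a)⁻¹`; for all `a b c d` with `sq a b c d`: `a b d⁻¹ c⁻¹`; for `cgam_pres` also `δ q`, `q ≠ p`. (If a condition fails, use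
the empty relator or filter.) Lists over ranges are primitive recursive (`List.range`, `flatMap`; see N/NGPRES).
-/

set_option autoImplicit false

namespace LatF

open LatIso LatN

section

open Classical in
/-- comparison of a presentation on an initial segment of `ℕ` with a presentation on another set of
generators (as `GPRES_iso`, with the values on the generators) -/
private theorem CPRES_iso {A' : Type} (N : ℕ) (e : A' ≃ Fin N) (R : Set (FreeGroup A'))
    (l : List (List (ℕ × Bool)))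
    (h1 : ∀ r ∈ R, ∃ w ∈ l, FreeGroup.mk w = FreeGroup.map (fun x => (e x : ℕ)) r)
    (h2 : ∀ w ∈ l, w = [] ∨ ∃ r ∈ R, FreeGroup.mk w = FreeGroup.map (fun x => (e x : ℕ)) r) :
    ∃ E : Pres.Grp (N, l) ≃* PresentedGroup R,
      ∀ x : A', E (PresentedGroup.of (e x : ℕ)) = PresentedGroup.of x := by
  let φ0 : A' → Pres.Grp (N, l) := fun x => PresentedGroup.of (e x : ℕ)
  let ψ0 : ℕ → PresentedGroup R := fun i => if h : i < N then PresentedGroup.of (e.symm ⟨i, h⟩) else 1
  have hφ : ∀ r ∈ R, FreeGroup.lift φ0 r = 1 := by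
    intro r hr
    obtain ⟨w, hw, hw2⟩ := h1 r hr
    have e1 : FreeGroup.lift φ0 r =
        PresentedGroup.mk (Pres.rels (N, l)) (FreeGroup.map (fun x => (e x : ℕ)) r) := by
      have : FreeGroup.lift φ0 =
        (PresentedGroup.mk (Pres.rels (N, l))).comp (FreeGroup.map (fun x => (e x : ℕ))) := by
        apply FreeGroup.ext_hom
        intro a
        simp [φ0, PresentedGroup.of]
      rw [this]
      rfl
    rw [e1, ← hw2]
    apply PresentedGroup.one_of_mem
    exact Or.inl ⟨w, hw, rfl⟩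
  have hψe : ∀ x : A', ψ0 (e x : ℕ) = PresentedGroup.of x := by
    intro x
    simp [ψ0]
  have hψ : ∀ r ∈ Pres.rels (N, l), FreeGroup.lift ψ0 r = 1 := by
    intro r hr
    rcases hr with ⟨w, hw, rfl⟩ | ⟨i, hi, rfl⟩
    · rcases h2 w hw with rfl | ⟨r, hr, hr2⟩
      · exact map_one _
      · rw [hr2]
        have : FreeGroup.lift ψ0 (FreeGroup.map (fun x => (e x : ℕ)) r) =
            PresentedGroup.mk R r := by
          have : (FreeGroup.lift ψ0).comp (FreeGroup.map (fun x => (e x : ℕ))) =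
              PresentedGroup.mk R := by
            apply FreeGroup.ext_hom
            intro a
            simp [hψe, PresentedGroup.of]
          rw [← this]
          rfl
        rw [this]
        exact PresentedGroup.one_of_mem hr
    · have hi' : ¬ i < N := not_lt.2 hi
      simp [ψ0, hi']
  refine ⟨MonoidHom.toMulEquiv (PresentedGroup.toGroup hψ) (PresentedGroup.toGroup hφ) ?_ ?_,
    fun x => ?_⟩
  · apply PresentedGroup.ext
    intro i
    simp only [MonoidHom.comp_apply, PresentedGroup.toGroup.of, MonoidHom.id_apply]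
    by_cases hi : i < N
    · have : ψ0 i = PresentedGroup.of (e.symm ⟨i, hi⟩) := by simp [ψ0, hi]
      rw [this, PresentedGroup.toGroup.of]
      simp [φ0]
    · have : ψ0 i = 1 := by simp [ψ0, hi]
      rw [this, map_one]
      symm
      apply PresentedGroup.one_of_mem
      exact Or.inr ⟨i, not_lt.1 hi, rfl⟩
  · apply PresentedGroup.ext
    intro x
    simp only [MonoidHom.comp_apply, PresentedGroup.toGroup.of, MonoidHom.id_apply, φ0]
    exact hψe x
  · show PresentedGroup.toGroup hψ (PresentedGroup.of (e x : ℕ)) = PresentedGroup.of x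
    rw [PresentedGroup.toGroup.of]
    exact hψe x

open Classical in
/-- the relators of the universal group -/
private noncomputable def CPRES_l (x : Code) : List (List (ℕ × Bool)) :=
  ((List.range (x.1.2.1 + 1)).map fun p => [(((dec x).e (fm x.1.2.1 p) : ℕ), true)]) ++
  (((List.range (x.1.2.2 + 1)).map fun a =>
    [((fm x.1.2.2 a : ℕ), true), (((dec x).i (fm x.1.2.2 a) : ℕ), true)]) ++
  (((List.range ((x.1.2.2 + 1) * (x.1.2.2 + 1))).map fun j =>
    if (dec x).lc (fm x.1.2.2 (j / (x.1.2.2 + 1))) (fm x.1.2.2 (j % (x.1.2.2 + 1))) then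
      [((fm x.1.2.2 (j / (x.1.2.2 + 1)) : ℕ), true), ((fm x.1.2.2 (j % (x.1.2.2 + 1)) : ℕ), true),
        (((dec x).ml (fm x.1.2.2 (j / (x.1.2.2 + 1))) (fm x.1.2.2 (j % (x.1.2.2 + 1))) : ℕ),
          false)]
    else []) ++
  ((List.range ((x.1.2.2 + 1) * (x.1.2.2 + 1) * (x.1.2.2 + 1) * (x.1.2.2 + 1))).map fun j =>
    if (dec x).sq (fm x.1.2.2 (j / (x.1.2.2 + 1) / (x.1.2.2 + 1) / (x.1.2.2 + 1)))
        (fm x.1.2.2 (j / (x.1.2.2 + 1) / (x.1.2.2 + 1) % (x.1.2.2 + 1)))
        (fm x.1.2.2 (j / (x.1.2.2 + 1) % (x.1.2.2 + 1))) (fm x.1.2.2 (j % (x.1.2.2 + 1))) then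
      [((fm x.1.2.2 (j / (x.1.2.2 + 1) / (x.1.2.2 + 1) / (x.1.2.2 + 1)) : ℕ), true),
        ((fm x.1.2.2 (j / (x.1.2.2 + 1) / (x.1.2.2 + 1) % (x.1.2.2 + 1)) : ℕ), true),
        ((fm x.1.2.2 (j % (x.1.2.2 + 1)) : ℕ), false),
        ((fm x.1.2.2 (j / (x.1.2.2 + 1) % (x.1.2.2 + 1)) : ℕ), false)]
    else [])))

open Classical in
private theorem CPRES_lp : Primrec CPRES_l := by
  have hnP : Primrec fun y : Code => y.1.2.1 := Primrec.fst.comp (Primrec.snd.comp Primrec.fst)
  have hnA : Primrec fun y : Code => y.1.2.2 := Primrec.snd.comp (Primrec.snd.comp Primrec.fst)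
  have hA1 : Primrec fun y : Code => y.1.2.2 + 1 := Primrec.succ.comp hnA
  have hP1 : Primrec fun y : Code => y.1.2.1 + 1 := Primrec.succ.comp hnP
  have hnil : ∀ {α : Type} [Primcodable α], Primrec fun _ : α => ([] : List (ℕ × Bool)) :=
    Primrec.const _
  have htr : ∀ {α : Type} [Primcodable α], Primrec fun _ : α => true := Primrec.const _
  have hfa : ∀ {α : Type} [Primcodable α], Primrec fun _ : α => false := Primrec.const _
  have hf : Primrec fun z : Code × ℕ => z.1 := Primrec.fst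
  have hj : Primrec fun z : Code × ℕ => z.2 := Primrec.snd
  have hnA' : Primrec fun z : Code × ℕ => z.1.1.2.2 := hnA.comp Primrec.fst
  have hA1' : Primrec fun z : Code × ℕ => z.1.1.2.2 + 1 := hA1.comp Primrec.fst
  have hd1 : Primrec fun z : Code × ℕ => z.2 / (z.1.1.2.2 + 1) := Primrec.nat_div.comp hj hA1'
  have hd2 : Primrec fun z : Code × ℕ => z.2 / (z.1.1.2.2 + 1) / (z.1.1.2.2 + 1) :=
    Primrec.nat_div.comp hd1 hA1'
  have hd3 : Primrec fun z : Code × ℕ =>
      z.2 / (z.1.1.2.2 + 1) / (z.1.1.2.2 + 1) / (z.1.1.2.2 + 1) := Primrec.nat_div.comp hd2 hA1'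
  have hm0 : Primrec fun z : Code × ℕ => z.2 % (z.1.1.2.2 + 1) := Primrec.nat_mod.comp hj hA1'
  have hm1 : Primrec fun z : Code × ℕ => z.2 / (z.1.1.2.2 + 1) % (z.1.1.2.2 + 1) :=
    Primrec.nat_mod.comp hd1 hA1'
  have hm2 : Primrec fun z : Code × ℕ =>
      z.2 / (z.1.1.2.2 + 1) / (z.1.1.2.2 + 1) % (z.1.1.2.2 + 1) := Primrec.nat_mod.comp hd2 hA1'
  unfold CPRES_l
  refine Primrec.list_append.comp ?_ (Primrec.list_append.comp ?_
    (Primrec.list_append.comp ?_ ?_))
  · refine Primrec.list_map (Primrec.list_range.comp hP1) ?_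
    exact Primrec.list_cons.comp (Primrec.pair (cb_e hf hj) htr) hnil
  · refine Primrec.list_map (Primrec.list_range.comp hA1) ?_
    exact Primrec.list_cons.comp (Primrec.pair (fm_p hnA' hj) htr)
      (Primrec.list_cons.comp (Primrec.pair (cb_i hf hj) htr) hnil)
  · refine Primrec.list_map (Primrec.list_range.comp (Primrec.nat_mul.comp hA1 hA1)) ?_
    refine Primrec.ite (cb_lc hf hd1 hm0) ?_ hnil
    exact Primrec.list_cons.comp (Primrec.pair (fm_p hnA' hd1) htr)
      (Primrec.list_cons.comp (Primrec.pair (fm_p hnA' hm0) htr)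
      (Primrec.list_cons.comp (Primrec.pair (cb_ml hf hd1 hm0) hfa) hnil))
  · refine Primrec.list_map (Primrec.list_range.comp (Primrec.nat_mul.comp (Primrec.nat_mul.comp
      (Primrec.nat_mul.comp hA1 hA1) hA1) hA1)) ?_
    refine Primrec.ite (cb_sq hf hd3 hm2 hm1 hm0) ?_ hnil
    exact Primrec.list_cons.comp (Primrec.pair (fm_p hnA' hd3) htr)
      (Primrec.list_cons.comp (Primrec.pair (fm_p hnA' hm2) htr)
      (Primrec.list_cons.comp (Primrec.pair (fm_p hnA' hm0) hfa)
      (Primrec.list_cons.comp (Primrec.pair (fm_p hnA' hm1) hfa) hnil)))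

private theorem CPRES_lt {M a b : ℕ} {K : ℕ} (ha : a < K) (hb : b < M) : a * M + b < K * M := by
  have h1 : (a + 1) * M ≤ K * M := Nat.mul_le_mul_right _ ha
  have h2 : (a + 1) * M = a * M + M := by ring
  omega

private theorem CPRES_div {M a b : ℕ} (hb : b < M) : (a * M + b) / M = a := by
  rw [mul_comm, Nat.mul_add_div (by omega), Nat.div_eq_of_lt hb, add_zero]

private theorem CPRES_mod {M a b : ℕ} (hb : b < M) : (a * M + b) % M = b := by
  rw [mul_comm, Nat.mul_add_mod, Nat.mod_eq_of_lt hb]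

private theorem CPRES_h1 (x : Code) (r : FreeGroup (Fin (x.1.2.2 + 1))) (hr : Rel0 (dec x) r) :
    ∃ w ∈ CPRES_l x, FreeGroup.mk w =
      FreeGroup.map (fun a => ((Equiv.refl (Fin (x.1.2.2 + 1)) a : Fin (x.1.2.2 + 1)) : ℕ)) r := by
  unfold CPRES_l
  cases hr with
  | one p =>
    refine ⟨_, List.mem_append_left _ (List.mem_map.2 ⟨(p : ℕ), List.mem_range.2 p.2, rfl⟩), ?_⟩
    rw [fm_surj]
    rfl
  | inv a =>
    refine ⟨_, List.mem_append_right _ (List.mem_append_left _
      (List.mem_map.2 ⟨(a : ℕ), List.mem_range.2 a.2, rfl⟩)), ?_⟩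
    rw [fm_surj]
    rfl
  | ml s a h =>
    refine ⟨_, List.mem_append_right _ (List.mem_append_right _ (List.mem_append_left _
      (List.mem_map.2 ⟨(s : ℕ) * (x.1.2.2 + 1) + (a : ℕ),
        List.mem_range.2 (CPRES_lt s.2 a.2), rfl⟩))), ?_⟩
    rw [CPRES_div a.2, CPRES_mod a.2, fm_surj, fm_surj, if_pos h]
    rfl
  | sq a b c d h =>
    refine ⟨_, List.mem_append_right _ (List.mem_append_right _ (List.mem_append_right _
      (List.mem_map.2 ⟨(((a : ℕ) * (x.1.2.2 + 1) + (b : ℕ)) * (x.1.2.2 + 1) + (c : ℕ)) *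
        (x.1.2.2 + 1) + (d : ℕ),
        List.mem_range.2 (CPRES_lt (CPRES_lt (CPRES_lt a.2 b.2) c.2) d.2), rfl⟩))), ?_⟩
    rw [CPRES_div d.2, CPRES_mod d.2, CPRES_div c.2, CPRES_mod c.2, CPRES_div b.2, CPRES_mod b.2,
      fm_surj, fm_surj, fm_surj, fm_surj, if_pos h]
    rfl

private theorem CPRES_h2 (x : Code) (w : List (ℕ × Bool)) (hw : w ∈ CPRES_l x) :
    w = [] ∨ ∃ r, Rel0 (dec x) r ∧ FreeGroup.mk w =
      FreeGroup.map (fun a => ((Equiv.refl (Fin (x.1.2.2 + 1)) a : Fin (x.1.2.2 + 1)) : ℕ)) r := by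
  unfold CPRES_l at hw
  rcases List.mem_append.1 hw with hw | hw
  · obtain ⟨p, -, rfl⟩ := List.mem_map.1 hw
    exact Or.inr ⟨_, Rel0.one (fm x.1.2.1 p), rfl⟩
  rcases List.mem_append.1 hw with hw | hw
  · obtain ⟨a, -, rfl⟩ := List.mem_map.1 hw
    exact Or.inr ⟨_, Rel0.inv (fm x.1.2.2 a), rfl⟩
  rcases List.mem_append.1 hw with hw | hw
  · obtain ⟨j, -, rfl⟩ := List.mem_map.1 hw
    split_ifs with h
    · exact Or.inr ⟨_, Rel0.ml _ _ h, rfl⟩
    · exact Or.inl rfl
  · obtain ⟨j, -, rfl⟩ := List.mem_map.1 hw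
    split_ifs with h
    · exact Or.inr ⟨_, Rel0.sq _ _ _ _ h, rfl⟩
    · exact Or.inl rfl

theorem cug_pres : ∃ f : Code → Pres, Primrec f ∧ ∀ x : Code, (f x).1 = x.1.2.2 + 1 ∧
    ∃ e : (f x).Grp ≃* UG (dec x), ∀ a : Fin (x.1.2.2 + 1),
      e (PresentedGroup.of (a : ℕ)) = ug (dec x) a := by
  refine ⟨fun x => (x.1.2.2 + 1, CPRES_l x), ?_, fun x => ⟨rfl, ?_⟩⟩
  · exact Primrec.pair (Primrec.succ.comp (Primrec.snd.comp (Primrec.snd.comp Primrec.fst)))
      CPRES_lp
  · exact CPRES_iso (x.1.2.2 + 1) (Equiv.refl _) {r | Rel0 (dec x) r} (CPRES_l x)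
      (CPRES_h1 x) (CPRES_h2 x)

theorem cgam_pres : ∃ f : Code × ℕ × ℕ → Pres, Primrec f ∧
    ∀ (x : Code) (p d : ℕ), Nonempty ((f (x, p, d)).Grp ≃*
      Gam (dec x) (fm x.1.2.1 p) (fun q => dig x.1.2.2 d q)) := by
  classical
  refine ⟨fun y => (y.1.1.2.2 + 1, CPRES_l y.1 ++ (List.range (y.1.1.2.1 + 1)).map fun q =>
    if (fm y.1.1.2.1 q : ℕ) = (fm y.1.1.2.1 y.2.1 : ℕ) then [] else
      [((dig y.1.1.2.2 y.2.2 (fm y.1.1.2.1 q : ℕ) : ℕ), true)]), ?_, fun x p d => ?_⟩
  · have hnP : Primrec fun y : Code × ℕ × ℕ => y.1.1.2.1 :=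
      Primrec.fst.comp (Primrec.snd.comp (Primrec.fst.comp Primrec.fst))
    have hnA : Primrec fun y : Code × ℕ × ℕ => y.1.1.2.2 :=
      Primrec.snd.comp (Primrec.snd.comp (Primrec.fst.comp Primrec.fst))
    have hp : Primrec fun y : Code × ℕ × ℕ => y.2.1 := Primrec.fst.comp Primrec.snd
    have hd : Primrec fun y : Code × ℕ × ℕ => y.2.2 := Primrec.snd.comp Primrec.snd
    refine Primrec.pair (Primrec.succ.comp hnA) (Primrec.list_append.comp
      (CPRES_lp.comp Primrec.fst) (Primrec.list_map (Primrec.list_range.comp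
        (Primrec.succ.comp hnP)) ?_))
    have h1 : Primrec fun z : (Code × ℕ × ℕ) × ℕ => (fm z.1.1.1.2.1 z.2 : ℕ) :=
      fm_p (hnP.comp Primrec.fst) Primrec.snd
    have h2 : Primrec fun z : (Code × ℕ × ℕ) × ℕ => (fm z.1.1.1.2.1 z.1.2.1 : ℕ) :=
      fm_p (hnP.comp Primrec.fst) (hp.comp Primrec.fst)
    have h3 : Primrec fun z : (Code × ℕ × ℕ) × ℕ =>
        (dig z.1.1.1.2.2 z.1.2.2 (fm z.1.1.1.2.1 z.2 : ℕ) : ℕ) :=
      dig_p (hnA.comp Primrec.fst) (hd.comp Primrec.fst) h1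
    exact Primrec.ite (Primrec.eq.comp h1 h2) (Primrec.const _)
      (Primrec.list_cons.comp (Primrec.pair h3 (Primrec.const _)) (Primrec.const _))
  · refine GPRES_iso (x.1.2.2 + 1) (Equiv.refl _)
      {r | Rel (dec x) (fm x.1.2.1 p) (fun q => dig x.1.2.2 d q) r} _ ?_ ?_
    · intro r hr
      cases hr with
      | base r h =>
        obtain ⟨w, hw, hw'⟩ := CPRES_h1 x r h
        exact ⟨w, List.mem_append_left _ hw, hw'⟩
      | span q h =>
        refine ⟨_, List.mem_append_right _ (List.mem_map.2 ⟨(q : ℕ), List.mem_range.2 q.2, rfl⟩),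
          ?_⟩
        have h1 : ¬ ((fm x.1.2.1 (q : ℕ) : Fin (x.1.2.1 + 1)) : ℕ) =
            (fm x.1.2.1 p : Fin (x.1.2.1 + 1)) := by
          rw [fm_surj]
          exact fun h' => h (Fin.ext h')
        dsimp only
        rw [if_neg h1, fm_surj]
        rfl
    · intro w hw
      rcases List.mem_append.1 hw with hw | hw
      · rcases CPRES_h2 x w hw with h | ⟨r, hr, hr'⟩
        · exact Or.inl h
        · exact Or.inr ⟨r, Rel.base r hr, hr'⟩
      · obtain ⟨q, -, rfl⟩ := List.mem_map.1 hw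
        dsimp only
        split_ifs with h
        · exact Or.inl rfl
        · refine Or.inr ⟨_, Rel.span (fm x.1.2.1 q) (fun h' => h (congrArg Fin.val h')), rfl⟩

end

end LatF
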