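import Pool.Agent.Lib.MP_32d917_al.FDefs
import Pool.Agent.Lib.MP_32d917_al.F.CPRES
import Pool.Agent.Lib.MP_32d917_al.F.CA
import Pool.Agent.Lib.MP_32d917_al.PRES2

/-!
# codes: existence of the homomorphism in Res is r.e.

Let `f` be from `cug_pres`. A homomorphism `UG Y →* UG X` with `ug m ↦ ug (φ₁ m) * ug (φ₂ m)` exists iff every relator of `f y` becomes trivial in `(f x).Grp` after the substitution `m ↦ [φ₁ m, φ₂ m]` (a list of words `F` of length `m + 1`, primitive recursive in the tables). See `PRES2.lean`: `sbw`, `pres2_lift`, `pres2_eval`, `trivW_re`, `pres2_icert_re` (half of an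
isomorphism certificate is such a homomorphism). `y = ((x.1.1, x.1.2.1, m), w)`.
-/

set_option autoImplicit false

namespace LatF

open LatIso LatN

section

/-- the words `φ₁ m * φ₂ m` -/
private def chomF (x : Code × (ℕ × ℕ) × (ℕ × ℕ)) : List PW :=
  (List.range (x.2.1.1 + 1)).map fun t =>
    [((dig x.1.1.2.2 x.2.2.1 t : ℕ), true), ((dig x.1.1.2.2 x.2.2.2 t : ℕ), true)]

private def chomY (x : Code × (ℕ × ℕ) × (ℕ × ℕ)) : Code :=
  ((x.1.1.1, x.1.1.2.1, x.2.1.1), x.2.1.2)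

private theorem chomF_lt (x : Code × (ℕ × ℕ) × (ℕ × ℕ)) {i : ℕ} (hi : i < x.2.1.1 + 1) :
    (chomF x).getD i [] =
      [((dig x.1.1.2.2 x.2.2.1 i : ℕ), true), ((dig x.1.1.2.2 x.2.2.2 i : ℕ), true)] := by
  unfold chomF
  rw [List.getD_eq_getElem _ _ (by simpa using hi)]
  simp

private theorem chomF_ge (x : Code × (ℕ × ℕ) × (ℕ × ℕ)) {i : ℕ} (hi : x.2.1.1 + 1 ≤ i) :
    (chomF x).getD i [] = [] := by
  unfold chomF
  rw [List.getD_eq_default _ _ (by simpa using hi)]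

private theorem chom_two {Q : Pres} (a b : ℕ) :
    (PresentedGroup.mk Q.rels (FreeGroup.mk [(a, true), (b, true)]) : Q.Grp) =
      PresentedGroup.of a * PresentedGroup.of b := by
  have h1 : FreeGroup.mk [(a, true), (b, true)] = FreeGroup.of a * FreeGroup.of b := by
    unfold FreeGroup.of
    rw [FreeGroup.mul_mk]
    rfl
  rw [h1, map_mul]
  rfl

private theorem chom_iff {f : Code → Pres} (hf : ∀ x : Code, (f x).1 = x.1.2.2 + 1 ∧
    ∃ e : (f x).Grp ≃* UG (dec x), ∀ a : Fin (x.1.2.2 + 1),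
      e (PresentedGroup.of (a : ℕ)) = ug (dec x) a) (x : Code × (ℕ × ℕ) × (ℕ × ℕ)) :
    (∃ h : UG (dec (chomY x)) →* UG (dec x.1),
      ∀ m : Fin (x.2.1.1 + 1), h (ug (dec (chomY x)) m) =
        ug (dec x.1) (dig x.1.1.2.2 x.2.2.1 m) * ug (dec x.1) (dig x.1.1.2.2 x.2.2.2 m)) ↔
    ∀ w ∈ (f (chomY x)).2, TrivW (f x.1) (sbw (chomF x) w) := by
  obtain ⟨hY1, eY, heY⟩ := hf (chomY x)
  obtain ⟨hX1, eX, heX⟩ := hf x.1
  have hY1' : (f (chomY x)).1 = x.2.1.1 + 1 := hY1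
  constructor
  · rintro ⟨h, hh⟩ w hw
    have hF : ∀ i : ℕ, PresentedGroup.mk (f x.1).rels (FreeGroup.mk ((chomF x).getD i [])) =
        ((eX.symm.toMonoidHom.comp h).comp eY.toMonoidHom) (PresentedGroup.of i) := by
      intro i
      by_cases hi : i < x.2.1.1 + 1
      · have h1 := heY (⟨i, hi⟩ : Fin (x.2.1.1 + 1))
        have h2 := hh (⟨i, hi⟩ : Fin (x.2.1.1 + 1))
        have h3 : ((eX.symm.toMonoidHom.comp h).comp eY.toMonoidHom)
            (PresentedGroup.of i : (f (chomY x)).Grp) =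
            eX.symm (h (eY (PresentedGroup.of i))) := rfl
        rw [h3]
        have h4 : eY (PresentedGroup.of i) = ug (dec (chomY x)) (⟨i, hi⟩ : Fin (x.2.1.1 + 1)) := h1
        rw [h4, h2, ← heX, ← heX, ← map_mul, MulEquiv.symm_apply_apply, chomF_lt x hi, chom_two]
      · have hi' : x.2.1.1 + 1 ≤ i := not_lt.1 hi
        rw [chomF_ge x hi', pres2_one_of_ge i (by rw [hY1']; exact hi'), map_one]
        exact map_one _
    unfold TrivW
    rw [pres2_eval _ hF]
    have h1 : (PresentedGroup.mk (f (chomY x)).rels (FreeGroup.mk w) : (f (chomY x)).Grp) = 1 :=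
      PresentedGroup.one_of_mem (Or.inl ⟨w, hw, rfl⟩)
    rw [h1, map_one]
  · intro hw
    have hrel : ∀ r ∈ (f (chomY x)).rels, FreeGroup.lift
        (fun i => (PresentedGroup.mk (f x.1).rels (FreeGroup.mk ((chomF x).getD i [])) :
          (f x.1).Grp)) r = 1 := by
      intro r hr
      rcases hr with ⟨w, hw', rfl⟩ | ⟨i, hi, rfl⟩
      · rw [pres2_lift]
        exact hw w hw'
      · rw [FreeGroup.lift_apply_of]
        rw [hY1'] at hi
        rw [chomF_ge x hi]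
        exact map_one _
    refine ⟨(eX.toMonoidHom.comp (PresentedGroup.toGroup hrel)).comp eY.symm.toMonoidHom, ?_⟩
    intro m
    have h1 : eY.symm (ug (dec (chomY x)) m) = PresentedGroup.of (m : ℕ) := by
      rw [MulEquiv.symm_apply_eq]
      exact (heY m).symm
    have h3 : ((eX.toMonoidHom.comp (PresentedGroup.toGroup hrel)).comp eY.symm.toMonoidHom)
        (ug (dec (chomY x)) m) =
        eX (PresentedGroup.toGroup hrel (eY.symm (ug (dec (chomY x)) m))) := rfl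
    rw [h3, h1, PresentedGroup.toGroup.of, chomF_lt x m.2, chom_two, map_mul, heX, heX]

private theorem chomF_p : Primrec chomF := by
  unfold chomF
  have h0 : Primrec fun x : (Code × (ℕ × ℕ) × (ℕ × ℕ)) × ℕ => x.1.1.1.2.2 :=
    Primrec.snd.comp (Primrec.snd.comp (Primrec.fst.comp (Primrec.fst.comp Primrec.fst)))
  have h1 : Primrec fun x : (Code × (ℕ × ℕ) × (ℕ × ℕ)) × ℕ => x.1.2.2.1 :=
    Primrec.fst.comp (Primrec.snd.comp (Primrec.snd.comp Primrec.fst))
  have h2 : Primrec fun x : (Code × (ℕ × ℕ) × (ℕ × ℕ)) × ℕ => x.1.2.2.2 :=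
    Primrec.snd.comp (Primrec.snd.comp (Primrec.snd.comp Primrec.fst))
  have h3 := dig_p h0 h1 (Primrec.snd (α := Code × (ℕ × ℕ) × (ℕ × ℕ)) (β := ℕ))
  have h4 := dig_p h0 h2 (Primrec.snd (α := Code × (ℕ × ℕ) × (ℕ × ℕ)) (β := ℕ))
  refine Primrec.list_map (Primrec.list_range.comp (Primrec.succ.comp
    (Primrec.fst.comp (Primrec.fst.comp Primrec.snd)))) ?_
  exact Primrec.list_cons.comp (Primrec.pair h3 (Primrec.const true))
    (Primrec.list_cons.comp (Primrec.pair h4 (Primrec.const true)) (Primrec.const []))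

private theorem chomY_p : Primrec chomY := by
  unfold chomY
  have h1 : Primrec fun x : Code × (ℕ × ℕ) × (ℕ × ℕ) => x.1.1.1 :=
    Primrec.fst.comp (Primrec.fst.comp Primrec.fst)
  have h2 : Primrec fun x : Code × (ℕ × ℕ) × (ℕ × ℕ) => x.1.1.2.1 :=
    Primrec.fst.comp (Primrec.snd.comp (Primrec.fst.comp Primrec.fst))
  have h3 : Primrec fun x : Code × (ℕ × ℕ) × (ℕ × ℕ) => x.2.1.1 :=
    Primrec.fst.comp (Primrec.fst.comp Primrec.snd)
  have h4 : Primrec fun x : Code × (ℕ × ℕ) × (ℕ × ℕ) => x.2.1.2 :=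
    Primrec.snd.comp (Primrec.fst.comp Primrec.snd)
  exact Primrec.pair (Primrec.pair h1 (Primrec.pair h2 h3)) h4

private theorem chom_re0 {γ : Type} [Primcodable γ] {P Q : γ → Pres} {F : γ → List PW}
    (hP : Primrec P) (hQ : Primrec Q) (hF : Primrec F) :
    REPred fun x => ∀ w ∈ (P x).2, TrivW (Q x) (sbw (F x) w) := by
  refine re_forall_mem (p := fun x w => TrivW (Q x) (sbw (F x) w)) (Primrec.snd.comp hP) ?_
  exact pres2_triv_comp (γ := γ × PW) (P := fun y => Q y.1) (w := fun y => sbw (F y.1) y.2)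
    (hQ.comp Primrec.fst) (pres2_sbw_p (hF.comp Primrec.fst) Primrec.snd)

theorem chom_re : REPred fun x : Code × (ℕ × ℕ) × (ℕ × ℕ) =>
    ∃ h : UG (dec ((x.1.1.1, x.1.1.2.1, x.2.1.1), x.2.1.2)) →* UG (dec x.1),
      ∀ m : Fin (x.2.1.1 + 1), h (ug (dec ((x.1.1.1, x.1.1.2.1, x.2.1.1), x.2.1.2)) m) =
        ug (dec x.1) (dig x.1.1.2.2 x.2.2.1 m) * ug (dec x.1) (dig x.1.1.2.2 x.2.2.2 m) := by
  obtain ⟨f, hfp, hf⟩ := cug_pres
  have hP : Primrec fun x : Code × (ℕ × ℕ) × (ℕ × ℕ) => f (chomY x) := hfp.comp chomY_p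
  have hQ : Primrec fun x : Code × (ℕ × ℕ) × (ℕ × ℕ) => f x.1 := hfp.comp Primrec.fst
  have h1 := chom_re0 hP hQ chomF_p
  exact h1.of_eq fun x => (chom_iff hf x).symm

end

end LatF
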