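import Pool.Agent.Lib.MP_32d917_al.FDefs
import Pool.Agent.Lib.MP_32d917_al.F.CB

/-!
# codes: Par2 and its negation are r.e.

`Par2` is the reflexive transitive closure of a primitive recursive relation on pairs of numbers; a chain is
a list; the negation is certified by a list closed under the relation.
-/

set_option autoImplicit false

namespace LatF

open LatIso LatN

section Chain0

variable {α σ : Type}

open Classical in
/-- follow a list of states -/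
noncomputable def cpbStep (st : α → σ → σ → Prop) (x : α) (o : Option σ) (b : σ) : Option σ :=
  o.bind fun a => if st x a b then some b else none

theorem cpb_none (st : α → σ → σ → Prop) (x : α) (l : List σ) :
    l.foldl (cpbStep st x) none = none := by
  induction l with
  | nil => rfl
  | cons b l ih => exact ih

theorem cpb_run (st : α → σ → σ → Prop) (x : α) (l : List σ) : ∀ a b : σ,
    l.foldl (cpbStep st x) (some a) = some b → Relation.ReflTransGen (st x) a b := by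
  classical
  induction l with
  | nil =>
    intro a b h
    have h1 : a = b := Option.some.inj h
    rw [h1]
  | cons c l ih =>
    intro a b h
    rw [List.foldl_cons] at h
    by_cases hc : st x a c
    · have h1 : cpbStep st x (some a) c = some c := by
        unfold cpbStep
        simp [hc]
      rw [h1] at h
      exact Relation.ReflTransGen.head hc (ih c b h)
    · have h1 : cpbStep st x (some a) c = none := by
        unfold cpbStep
        simp [hc]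
      rw [h1, cpb_none] at h
      exact absurd h (by simp)

theorem cpb_run' (st : α → σ → σ → Prop) (x : α) {a b : σ}
    (h : Relation.ReflTransGen (st x) a b) :
    ∃ l : List σ, l.foldl (cpbStep st x) (some a) = some b := by
  classical
  induction h with
  | refl => exact ⟨[], rfl⟩
  | tail _ hs ih =>
    obtain ⟨l, hl⟩ := ih
    rename_i b' c' _
    refine ⟨l ++ [c'], ?_⟩
    rw [List.foldl_append, hl, List.foldl_cons, List.foldl_nil]
    unfold cpbStep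
    simp [hs]

end Chain0

section Chain

variable {α σ : Type} [Primcodable α] [Primcodable σ]

/-- the reflexive transitive closure of a primitive recursive relation is r.e. -/
theorem cpb_chain {st : α → σ → σ → Prop}
    (hp : PrimrecPred fun x : α × σ × σ => st x.1 x.2.1 x.2.2) :
    REPred fun x : α × σ × σ => Relation.ReflTransGen (st x.1) x.2.1 x.2.2 := by
  classical
  have h1 : Primrec₂ fun (z : (α × σ × σ) × List σ) (p : Option σ × σ) =>
      cpbStep st z.1.1 p.1 p.2 := by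
    unfold cpbStep
    refine Primrec.option_bind (Primrec.fst.comp Primrec.snd) ?_
    refine Primrec.ite ?_ ?_ ?_
    · exact hp.comp (Primrec.pair (Primrec.fst.comp (Primrec.fst.comp (Primrec.fst.comp
        Primrec.fst))) (Primrec.pair Primrec.snd (Primrec.snd.comp (Primrec.snd.comp
        Primrec.fst))))
    · exact Primrec.option_some.comp (Primrec.snd.comp (Primrec.snd.comp Primrec.fst))
    · exact Primrec.const none
  have h2 : Primrec fun z : (α × σ × σ) × List σ =>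
      z.2.foldl (cpbStep st z.1.1) (some z.1.2.1) :=
    Primrec.list_foldl Primrec.snd
      (Primrec.option_some.comp (Primrec.fst.comp (Primrec.snd.comp Primrec.fst))) h1
  refine REPred.of_eq (LatIso.re_exists
    (p := fun (x : α × σ × σ) (l : List σ) =>
      l.foldl (cpbStep st x.1) (some x.2.1) = some x.2.2) (LatIso.re_of_prim (CB.pp_eq h2
      (Primrec.option_some.comp (Primrec.snd.comp (Primrec.snd.comp Primrec.fst)))))) ?_
  intro x
  exact ⟨fun ⟨l, hl⟩ => cpb_run st x.1 l _ _ hl, fun h => cpb_run' st x.1 h⟩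

/-- so is its complement if the relation is finite -/
theorem cpb_nchain {st : α → σ → σ → Prop}
    (hp : PrimrecPred fun x : α × σ × σ => st x.1 x.2.1 x.2.2) {all : α → List σ}
    (ha : Primrec all) (h : ∀ x u v, st x u v → v ∈ all x) :
    REPred fun x : α × σ × σ => ¬ Relation.ReflTransGen (st x.1) x.2.1 x.2.2 := by
  classical
  have h1 : PrimrecPred fun z : (α × σ × σ) × List σ => z.1.2.1 ∈ z.2 ∧ ¬ z.1.2.2 ∈ z.2 ∧
      ∀ u ∈ z.2, ∀ v ∈ all z.1.1, st z.1.1 u v → v ∈ z.2 := by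
    refine CB.pp_and (CB.pp_mem (Primrec.fst.comp (Primrec.snd.comp Primrec.fst)) Primrec.snd)
      (CB.pp_and (CB.pp_not (CB.pp_mem (Primrec.snd.comp (Primrec.snd.comp Primrec.fst))
      Primrec.snd)) ?_)
    refine CB.pp_all_mem (p := fun (z : (α × σ × σ) × List σ) u =>
      ∀ v ∈ all z.1.1, st z.1.1 u v → v ∈ z.2) Primrec.snd ?_
    refine CB.pp_all_mem (p := fun (z : ((α × σ × σ) × List σ) × σ) v =>
      st z.1.1.1 z.2 v → v ∈ z.1.2)
      (ha.comp (Primrec.fst.comp (Primrec.fst.comp Primrec.fst))) ?_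
    refine CB.pp_imp ?_ ?_
    · exact hp.comp (Primrec.pair (Primrec.fst.comp (Primrec.fst.comp (Primrec.fst.comp
        Primrec.fst))) (Primrec.pair (Primrec.snd.comp Primrec.fst) Primrec.snd))
    · exact CB.pp_mem Primrec.snd (Primrec.snd.comp (Primrec.fst.comp Primrec.fst))
  refine REPred.of_eq (LatIso.re_exists
    (p := fun (x : α × σ × σ) (D : List σ) => x.2.1 ∈ D ∧ ¬ x.2.2 ∈ D ∧
      ∀ u ∈ D, ∀ v ∈ all x.1, st x.1 u v → v ∈ D) (LatIso.re_of_prim h1)) ?_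
  intro x
  constructor
  · rintro ⟨D, h2, h3, h4⟩ h5
    have h6 : ∀ w, Relation.ReflTransGen (st x.1) x.2.1 w → w ∈ D := by
      intro w hw
      induction hw with
      | refl => exact h2
      | tail _ hs ih => exact h4 _ ih _ (h _ _ _ hs) hs
    exact h3 (h6 _ h5)
  · intro h2
    refine ⟨(x.2.1 :: all x.1).filter
      (fun v => decide (Relation.ReflTransGen (st x.1) x.2.1 v)), ?_, ?_, ?_⟩
    · rw [List.mem_filter]
      exact ⟨by simp, by simp [Relation.ReflTransGen.refl]⟩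
    · rw [List.mem_filter]
      rintro ⟨-, h3⟩
      exact h2 (by simpa using h3)
    · intro u hu v hv hs
      rw [List.mem_filter] at hu ⊢
      refine ⟨List.mem_cons_of_mem _ hv, ?_⟩
      have h3 : Relation.ReflTransGen (st x.1) x.2.1 u := by simpa using hu.2
      simpa using h3.tail hs

end Chain

section Par2

/-- one rule of the inductive definition of `Par2` -/
def CpbSt {ι P A : Type} (X : FD ι P A) (a b a' b' : A) : Prop :=
  (∃ s, X.lc s a ∧ a' = X.ml s a ∧ b' = X.ml s b) ∨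
  (∃ s, X.rc a s ∧ a' = X.mr a s ∧ b' = b) ∨
  (∃ s, X.rc b s ∧ a' = a ∧ b' = X.mr b s) ∨
  ∃ c c₁ c₂, X.sq a c₁ c a' ∧ X.sq b c₂ c b'

theorem cpb_par2 {ι P A : Type} (X : FD ι P A) (a b a' b' : A) : Par2 X a b a' b' ↔
    Relation.ReflTransGen (fun u v : A × A => CpbSt X u.1 u.2 v.1 v.2) (a, b) (a', b') := by
  constructor
  · intro h
    induction h with
    | refl => exact Relation.ReflTransGen.refl
    | ml a' b' s _ hs ih => exact ih.tail (Or.inl ⟨s, hs, rfl, rfl⟩)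
    | mr1 a' b' s _ hs ih => exact ih.tail (Or.inr (Or.inl ⟨s, hs, rfl, rfl⟩))
    | mr2 a' b' s _ hs ih => exact ih.tail (Or.inr (Or.inr (Or.inl ⟨s, hs, rfl, rfl⟩)))
    | sq a' b' c c₁ c₂ d₁ d₂ _ h1 h2 ih =>
      exact ih.tail (Or.inr (Or.inr (Or.inr ⟨c, c₁, c₂, h1, h2⟩)))
  · intro h
    have key : ∀ v : A × A, Relation.ReflTransGen
        (fun u v : A × A => CpbSt X u.1 u.2 v.1 v.2) (a, b) v → Par2 X a b v.1 v.2 := by
      intro v hv
      induction hv with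
      | refl => exact Par2.refl
      | tail _ hs ih =>
        rcases hs with ⟨s, h1, h2, h3⟩ | ⟨s, h1, h2, h3⟩ | ⟨s, h1, h2, h3⟩ | ⟨c, c₁, c₂, h1, h2⟩
        · rw [h2, h3]; exact Par2.ml _ _ s ih h1
        · rw [h2, h3]; exact Par2.mr1 _ _ s ih h1
        · rw [h2, h3]; exact Par2.mr2 _ _ s ih h1
        · exact Par2.sq _ _ c c₁ c₂ _ _ ih h1 h2
    exact key _ h

/-- the same with numbers -/
def CpbN (x : Code) (u v : ℕ × ℕ) : Prop :=
  (v.1 < x.1.2.2 + 1 ∧ v.2 < x.1.2.2 + 1) ∧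
    CpbSt (dec x) (fm x.1.2.2 u.1) (fm x.1.2.2 u.2) (fm x.1.2.2 v.1) (fm x.1.2.2 v.2)

theorem cpbN_p : PrimrecPred fun x : Code × (ℕ × ℕ) × (ℕ × ℕ) => CpbN x.1 x.2.1 x.2.2 := by
  have hn : Primrec fun x : Code × (ℕ × ℕ) × (ℕ × ℕ) => x.1.1.2.2 :=
    Primrec.snd.comp (Primrec.snd.comp (Primrec.fst.comp Primrec.fst))
  have hn1 : Primrec fun x : Code × (ℕ × ℕ) × (ℕ × ℕ) => x.1.1.2.2 + 1 :=
    CB.p_add hn (Primrec.const 1)
  have hu1 : Primrec fun x : Code × (ℕ × ℕ) × (ℕ × ℕ) => x.2.1.1 :=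
    Primrec.fst.comp (Primrec.fst.comp Primrec.snd)
  have hu2 : Primrec fun x : Code × (ℕ × ℕ) × (ℕ × ℕ) => x.2.1.2 :=
    Primrec.snd.comp (Primrec.fst.comp Primrec.snd)
  have hv1 : Primrec fun x : Code × (ℕ × ℕ) × (ℕ × ℕ) => x.2.2.1 :=
    Primrec.fst.comp (Primrec.snd.comp Primrec.snd)
  have hv2 : Primrec fun x : Code × (ℕ × ℕ) × (ℕ × ℕ) => x.2.2.2 :=
    Primrec.snd.comp (Primrec.snd.comp Primrec.snd)
  refine CB.pp_and (CB.pp_and (CB.pp_lt hv1 hn1) (CB.pp_lt hv2 hn1)) ?_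
  refine CB.pp_or ?_ (CB.pp_or ?_ (CB.pp_or ?_ ?_))
  · refine PrimrecPred.of_eq (CB.pp_ex (p := fun (x : Code × (ℕ × ℕ) × (ℕ × ℕ)) (s : ℕ) =>
      (dec x.1).lc (fm x.1.1.2.2 s) (fm x.1.1.2.2 x.2.1.1) ∧
      ((fm x.1.1.2.2 x.2.2.1 : Fin (x.1.1.2.2 + 1)) : ℕ) =
        ((dec x.1).ml (fm x.1.1.2.2 s) (fm x.1.1.2.2 x.2.1.1) : ℕ) ∧
      ((fm x.1.1.2.2 x.2.2.2 : Fin (x.1.1.2.2 + 1)) : ℕ) =
        ((dec x.1).ml (fm x.1.1.2.2 s) (fm x.1.1.2.2 x.2.1.2) : ℕ)) hn1 ?_) ?_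
    · have hx : Primrec fun z : (Code × (ℕ × ℕ) × (ℕ × ℕ)) × ℕ => z.1.1 :=
        Primrec.fst.comp Primrec.fst
      exact CB.pp_and (cb_lc hx Primrec.snd (hu1.comp Primrec.fst))
        (CB.pp_and (CB.pp_eq (fm_p (hn.comp Primrec.fst) (hv1.comp Primrec.fst))
          (cb_ml hx Primrec.snd (hu1.comp Primrec.fst)))
        (CB.pp_eq (fm_p (hn.comp Primrec.fst) (hv2.comp Primrec.fst))
          (cb_ml hx Primrec.snd (hu2.comp Primrec.fst))))
    · intro x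
      rw [fm_ex]
      simp only [Fin.ext_iff]
  · refine PrimrecPred.of_eq (CB.pp_ex (p := fun (x : Code × (ℕ × ℕ) × (ℕ × ℕ)) (s : ℕ) =>
      (dec x.1).rc (fm x.1.1.2.2 x.2.1.1) (fm x.1.1.2.2 s) ∧
      ((fm x.1.1.2.2 x.2.2.1 : Fin (x.1.1.2.2 + 1)) : ℕ) =
        ((dec x.1).mr (fm x.1.1.2.2 x.2.1.1) (fm x.1.1.2.2 s) : ℕ) ∧
      ((fm x.1.1.2.2 x.2.2.2 : Fin (x.1.1.2.2 + 1)) : ℕ) =
        ((fm x.1.1.2.2 x.2.1.2 : Fin (x.1.1.2.2 + 1)) : ℕ)) hn1 ?_) ?_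
    · have hx : Primrec fun z : (Code × (ℕ × ℕ) × (ℕ × ℕ)) × ℕ => z.1.1 :=
        Primrec.fst.comp Primrec.fst
      exact CB.pp_and (cb_rc hx (hu1.comp Primrec.fst) Primrec.snd)
        (CB.pp_and (CB.pp_eq (fm_p (hn.comp Primrec.fst) (hv1.comp Primrec.fst))
          (cb_mr hx (hu1.comp Primrec.fst) Primrec.snd))
        (CB.pp_eq (fm_p (hn.comp Primrec.fst) (hv2.comp Primrec.fst))
          (fm_p (hn.comp Primrec.fst) (hu2.comp Primrec.fst))))
    · intro x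
      rw [fm_ex]
      simp only [Fin.ext_iff]
  · refine PrimrecPred.of_eq (CB.pp_ex (p := fun (x : Code × (ℕ × ℕ) × (ℕ × ℕ)) (s : ℕ) =>
      (dec x.1).rc (fm x.1.1.2.2 x.2.1.2) (fm x.1.1.2.2 s) ∧
      ((fm x.1.1.2.2 x.2.2.1 : Fin (x.1.1.2.2 + 1)) : ℕ) =
        ((fm x.1.1.2.2 x.2.1.1 : Fin (x.1.1.2.2 + 1)) : ℕ) ∧
      ((fm x.1.1.2.2 x.2.2.2 : Fin (x.1.1.2.2 + 1)) : ℕ) =
        ((dec x.1).mr (fm x.1.1.2.2 x.2.1.2) (fm x.1.1.2.2 s) : ℕ)) hn1 ?_) ?_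
    · have hx : Primrec fun z : (Code × (ℕ × ℕ) × (ℕ × ℕ)) × ℕ => z.1.1 :=
        Primrec.fst.comp Primrec.fst
      exact CB.pp_and (cb_rc hx (hu2.comp Primrec.fst) Primrec.snd)
        (CB.pp_and (CB.pp_eq (fm_p (hn.comp Primrec.fst) (hv1.comp Primrec.fst))
          (fm_p (hn.comp Primrec.fst) (hu1.comp Primrec.fst)))
        (CB.pp_eq (fm_p (hn.comp Primrec.fst) (hv2.comp Primrec.fst))
          (cb_mr hx (hu2.comp Primrec.fst) Primrec.snd)))
    · intro x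
      rw [fm_ex]
      simp only [Fin.ext_iff]
  · refine PrimrecPred.of_eq (CB.pp_ex (p := fun (x : Code × (ℕ × ℕ) × (ℕ × ℕ)) (c : ℕ) =>
      ∃ c₁ < x.1.1.2.2 + 1, ∃ c₂ < x.1.1.2.2 + 1,
      (dec x.1).sq (fm x.1.1.2.2 x.2.1.1) (fm x.1.1.2.2 c₁) (fm x.1.1.2.2 c)
        (fm x.1.1.2.2 x.2.2.1) ∧
      (dec x.1).sq (fm x.1.1.2.2 x.2.1.2) (fm x.1.1.2.2 c₂) (fm x.1.1.2.2 c)
        (fm x.1.1.2.2 x.2.2.2)) hn1
      (CB.pp_ex (p := fun (z : (Code × (ℕ × ℕ) × (ℕ × ℕ)) × ℕ) (c₁ : ℕ) =>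
        ∃ c₂ < z.1.1.1.2.2 + 1,
        (dec z.1.1).sq (fm z.1.1.1.2.2 z.1.2.1.1) (fm z.1.1.1.2.2 c₁) (fm z.1.1.1.2.2 z.2)
          (fm z.1.1.1.2.2 z.1.2.2.1) ∧
        (dec z.1.1).sq (fm z.1.1.1.2.2 z.1.2.1.2) (fm z.1.1.1.2.2 c₂) (fm z.1.1.1.2.2 z.2)
          (fm z.1.1.1.2.2 z.1.2.2.2)) (hn1.comp Primrec.fst)
      (CB.pp_ex (p := fun (z : ((Code × (ℕ × ℕ) × (ℕ × ℕ)) × ℕ) × ℕ) (c₂ : ℕ) =>
        (dec z.1.1.1).sq (fm z.1.1.1.1.2.2 z.1.1.2.1.1) (fm z.1.1.1.1.2.2 z.2)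
          (fm z.1.1.1.1.2.2 z.1.2) (fm z.1.1.1.1.2.2 z.1.1.2.2.1) ∧
        (dec z.1.1.1).sq (fm z.1.1.1.1.2.2 z.1.1.2.1.2) (fm z.1.1.1.1.2.2 c₂)
          (fm z.1.1.1.1.2.2 z.1.2) (fm z.1.1.1.1.2.2 z.1.1.2.2.2))
        (hn1.comp (Primrec.fst.comp Primrec.fst)) ?_))) ?_
    · have h3 : Primrec fun z : (((Code × (ℕ × ℕ) × (ℕ × ℕ)) × ℕ) × ℕ) × ℕ => z.1.1.1 :=
        Primrec.fst.comp (Primrec.fst.comp Primrec.fst)
      have hx : Primrec fun z : (((Code × (ℕ × ℕ) × (ℕ × ℕ)) × ℕ) × ℕ) × ℕ => z.1.1.1.1 :=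
        Primrec.fst.comp h3
      have hc : Primrec fun z : (((Code × (ℕ × ℕ) × (ℕ × ℕ)) × ℕ) × ℕ) × ℕ => z.1.1.2 :=
        Primrec.snd.comp (Primrec.fst.comp Primrec.fst)
      exact CB.pp_and (cb_sq hx (hu1.comp h3) (Primrec.snd.comp Primrec.fst) hc (hv1.comp h3))
        (cb_sq hx (hu2.comp h3) Primrec.snd hc (hv2.comp h3))
    · intro x
      constructor
      · rintro ⟨c, _, c₁, _, c₂, _, h1, h2⟩
        exact ⟨_, _, _, h1, h2⟩
      · rintro ⟨c, c₁, c₂, h1, h2⟩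
        refine ⟨c, c.2, c₁, c₁.2, c₂, c₂.2, ?_, ?_⟩
        · rw [fm_surj, fm_surj]; exact h1
        · rw [fm_surj, fm_surj]; exact h2

theorem cpbN_iff (x : Code) (a b a' b' : ℕ) :
    Relation.ReflTransGen (CpbN x) (a % (x.1.2.2 + 1), b % (x.1.2.2 + 1))
      (a' % (x.1.2.2 + 1), b' % (x.1.2.2 + 1)) ↔
    Par2 (dec x) (fm x.1.2.2 a) (fm x.1.2.2 b) (fm x.1.2.2 a') (fm x.1.2.2 b') := by
  rw [cpb_par2]
  constructor
  · intro h
    have h1 := Relation.ReflTransGen.lift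
      (p := fun u v : Fin (x.1.2.2 + 1) × Fin (x.1.2.2 + 1) => CpbSt (dec x) u.1 u.2 v.1 v.2)
      (fun u : ℕ × ℕ => ((fm x.1.2.2 u.1, fm x.1.2.2 u.2) :
        Fin (x.1.2.2 + 1) × Fin (x.1.2.2 + 1))) (fun u v huv => huv.2) _ _ h
    have h2 : ∀ k : ℕ, fm x.1.2.2 (k % (x.1.2.2 + 1)) = fm x.1.2.2 k := fun k =>
      Fin.ext (Nat.mod_mod _ _)
    simpa only [Function.onFun, h2] using h1
  · intro h
    exact Relation.ReflTransGen.lift
      (p := CpbN x) (fun u : Fin (x.1.2.2 + 1) × Fin (x.1.2.2 + 1) => ((u.1 : ℕ), (u.2 : ℕ)))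
      (fun u v huv => ⟨⟨v.1.2, v.2.2⟩, by
        simp only [fm_surj]
        exact huv⟩) _ _ h

theorem cpb_red : Primrec fun x : Code × (ℕ × ℕ) × (ℕ × ℕ) => (x.1,
    ((x.2.1.1 % (x.1.1.2.2 + 1), x.2.1.2 % (x.1.1.2.2 + 1)),
    (x.2.2.1 % (x.1.1.2.2 + 1), x.2.2.2 % (x.1.1.2.2 + 1)))) := by
  have hn1 : Primrec fun x : Code × (ℕ × ℕ) × (ℕ × ℕ) => x.1.1.2.2 + 1 :=
    CB.p_add (Primrec.snd.comp (Primrec.snd.comp (Primrec.fst.comp Primrec.fst)))
      (Primrec.const 1)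
  have hu1 : Primrec fun x : Code × (ℕ × ℕ) × (ℕ × ℕ) => x.2.1.1 :=
    Primrec.fst.comp (Primrec.fst.comp Primrec.snd)
  have hu2 : Primrec fun x : Code × (ℕ × ℕ) × (ℕ × ℕ) => x.2.1.2 :=
    Primrec.snd.comp (Primrec.fst.comp Primrec.snd)
  have hv1 : Primrec fun x : Code × (ℕ × ℕ) × (ℕ × ℕ) => x.2.2.1 :=
    Primrec.fst.comp (Primrec.snd.comp Primrec.snd)
  have hv2 : Primrec fun x : Code × (ℕ × ℕ) × (ℕ × ℕ) => x.2.2.2 :=
    Primrec.snd.comp (Primrec.snd.comp Primrec.snd)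
  exact Primrec.pair Primrec.fst (Primrec.pair (Primrec.pair (CB.p_mod hu1 hn1)
    (CB.p_mod hu2 hn1)) (Primrec.pair (CB.p_mod hv1 hn1) (CB.p_mod hv2 hn1)))

theorem cpar2_re : REPred fun x : Code × (ℕ × ℕ) × (ℕ × ℕ) =>
    Par2 (dec x.1) (fm x.1.1.2.2 x.2.1.1) (fm x.1.1.2.2 x.2.1.2) (fm x.1.1.2.2 x.2.2.1)
      (fm x.1.1.2.2 x.2.2.2) := by
  refine REPred.of_eq (LatIso.re_comp (cpb_chain (st := CpbN) cpbN_p) cpb_red.to_comp) ?_
  intro x
  exact cpbN_iff x.1 _ _ _ _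

theorem cnpar2_re : REPred fun x : Code × (ℕ × ℕ) × (ℕ × ℕ) =>
    ¬ Par2 (dec x.1) (fm x.1.1.2.2 x.2.1.1) (fm x.1.1.2.2 x.2.1.2) (fm x.1.1.2.2 x.2.2.1)
      (fm x.1.1.2.2 x.2.2.2) := by
  have ha : Primrec fun x : Code => (List.range (x.1.2.2 + 1)).flatMap
      (fun k => (List.range (x.1.2.2 + 1)).map fun l => (k, l)) := by
    have hr : Primrec fun x : Code => List.range (x.1.2.2 + 1) :=
      Primrec.list_range.comp (CB.p_add (Primrec.snd.comp (Primrec.snd.comp Primrec.fst))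
        (Primrec.const 1))
    refine Primrec.list_flatMap hr ?_
    exact Primrec.list_map (hr.comp Primrec.fst)
      (Primrec.pair (Primrec.snd.comp Primrec.fst) Primrec.snd)
  refine REPred.of_eq (LatIso.re_comp (cpb_nchain (st := CpbN) cpbN_p ha ?_)
    cpb_red.to_comp) ?_
  · intro x u v h
    rw [List.mem_flatMap]
    refine ⟨v.1, List.mem_range.2 h.1.1, ?_⟩
    rw [List.mem_map]
    exact ⟨v.2, List.mem_range.2 h.1.2, rfl⟩
  · intro x
    exact not_congr (cpbN_iff x.1 _ _ _ _)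

end Par2

end LatF
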