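import Pool.Agent.Lib.MP_32d917_al.FDefs
import Pool.Agent.Lib.MP_32d917_al.F.CB
import Pool.Agent.Lib.MP_32d917_al.F.CPARB

/-!
# codes: Par, Lab and their negations are r.e.

See CPARB.
-/

set_option autoImplicit false

namespace LatF

open LatIso LatN

section

/-- one rule of the inductive definition of `Par` -/
def CpaSt {ι P A : Type} (X : FD ι P A) (a a' : A) : Prop :=
  (∃ s, X.lc s a ∧ a' = X.ml s a) ∨ (∃ s, X.rc a s ∧ a' = X.mr a s) ∨ ∃ b c, X.sq a b c a'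

theorem cpa_par {ι P A : Type} (X : FD ι P A) (a a' : A) : Par X a a' ↔
    Relation.ReflTransGen (CpaSt X) a a' := by
  constructor
  · intro h
    induction h with
    | refl => exact Relation.ReflTransGen.refl
    | ml a' s _ hs ih => exact ih.tail (Or.inl ⟨s, hs, rfl⟩)
    | mr a' s _ hs ih => exact ih.tail (Or.inr (Or.inl ⟨s, hs, rfl⟩))
    | sq a' b c d _ h1 ih => exact ih.tail (Or.inr (Or.inr ⟨b, c, h1⟩))
  · intro h
    induction h with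
    | refl => exact Par.refl
    | tail _ hs ih =>
      rcases hs with ⟨s, h1, h2⟩ | ⟨s, h1, h2⟩ | ⟨b, c, h1⟩
      · rw [h2]; exact Par.ml _ s ih h1
      · rw [h2]; exact Par.mr _ s ih h1
      · exact Par.sq _ b c _ ih h1

/-- the same with numbers -/
def CpaN (x : Code) (u v : ℕ) : Prop :=
  v < x.1.2.2 + 1 ∧ CpaSt (dec x) (fm x.1.2.2 u) (fm x.1.2.2 v)

theorem cpaN_p : PrimrecPred fun x : Code × ℕ × ℕ => CpaN x.1 x.2.1 x.2.2 := by
  have hn : Primrec fun x : Code × ℕ × ℕ => x.1.1.2.2 :=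
    Primrec.snd.comp (Primrec.snd.comp (Primrec.fst.comp Primrec.fst))
  have hn1 : Primrec fun x : Code × ℕ × ℕ => x.1.1.2.2 + 1 :=
    CB.p_add hn (Primrec.const 1)
  have hu : Primrec fun x : Code × ℕ × ℕ => x.2.1 := Primrec.fst.comp Primrec.snd
  have hv : Primrec fun x : Code × ℕ × ℕ => x.2.2 := Primrec.snd.comp Primrec.snd
  refine CB.pp_and (CB.pp_lt hv hn1) (CB.pp_or ?_ (CB.pp_or ?_ ?_))
  · refine PrimrecPred.of_eq (CB.pp_ex (p := fun (x : Code × ℕ × ℕ) (s : ℕ) =>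
      (dec x.1).lc (fm x.1.1.2.2 s) (fm x.1.1.2.2 x.2.1) ∧
      ((fm x.1.1.2.2 x.2.2 : Fin (x.1.1.2.2 + 1)) : ℕ) =
        ((dec x.1).ml (fm x.1.1.2.2 s) (fm x.1.1.2.2 x.2.1) : ℕ)) hn1 ?_) ?_
    · have hx : Primrec fun z : (Code × ℕ × ℕ) × ℕ => z.1.1 :=
        Primrec.fst.comp Primrec.fst
      exact CB.pp_and (cb_lc hx Primrec.snd (hu.comp Primrec.fst))
        (CB.pp_eq (fm_p (hn.comp Primrec.fst) (hv.comp Primrec.fst))
          (cb_ml hx Primrec.snd (hu.comp Primrec.fst)))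
    · intro x
      rw [fm_ex]
      simp only [Fin.ext_iff]
  · refine PrimrecPred.of_eq (CB.pp_ex (p := fun (x : Code × ℕ × ℕ) (s : ℕ) =>
      (dec x.1).rc (fm x.1.1.2.2 x.2.1) (fm x.1.1.2.2 s) ∧
      ((fm x.1.1.2.2 x.2.2 : Fin (x.1.1.2.2 + 1)) : ℕ) =
        ((dec x.1).mr (fm x.1.1.2.2 x.2.1) (fm x.1.1.2.2 s) : ℕ)) hn1 ?_) ?_
    · have hx : Primrec fun z : (Code × ℕ × ℕ) × ℕ => z.1.1 :=
        Primrec.fst.comp Primrec.fst
      exact CB.pp_and (cb_rc hx (hu.comp Primrec.fst) Primrec.snd)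
        (CB.pp_eq (fm_p (hn.comp Primrec.fst) (hv.comp Primrec.fst))
          (cb_mr hx (hu.comp Primrec.fst) Primrec.snd))
    · intro x
      rw [fm_ex]
      simp only [Fin.ext_iff]
  · refine PrimrecPred.of_eq (CB.pp_ex (p := fun (x : Code × ℕ × ℕ) (b : ℕ) =>
      ∃ c < x.1.1.2.2 + 1,
      (dec x.1).sq (fm x.1.1.2.2 x.2.1) (fm x.1.1.2.2 b) (fm x.1.1.2.2 c)
        (fm x.1.1.2.2 x.2.2)) hn1
      (CB.pp_ex (p := fun (z : (Code × ℕ × ℕ) × ℕ) (c : ℕ) =>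
        (dec z.1.1).sq (fm z.1.1.1.2.2 z.1.2.1) (fm z.1.1.1.2.2 z.2) (fm z.1.1.1.2.2 c)
          (fm z.1.1.1.2.2 z.1.2.2)) (hn1.comp Primrec.fst) ?_)) ?_
    · have h3 : Primrec fun z : ((Code × ℕ × ℕ) × ℕ) × ℕ => z.1.1 :=
        Primrec.fst.comp Primrec.fst
      exact cb_sq (Primrec.fst.comp h3) (hu.comp h3) (Primrec.snd.comp Primrec.fst) Primrec.snd
        (hv.comp h3)
    · intro x
      constructor
      · rintro ⟨b, _, c, _, h1⟩
        exact ⟨_, _, h1⟩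
      · rintro ⟨b, c, h1⟩
        refine ⟨b, b.2, c, c.2, ?_⟩
        rw [fm_surj, fm_surj]; exact h1

theorem cpaN_iff (x : Code) (a a' : ℕ) :
    Relation.ReflTransGen (CpaN x) (a % (x.1.2.2 + 1)) (a' % (x.1.2.2 + 1)) ↔
    Par (dec x) (fm x.1.2.2 a) (fm x.1.2.2 a') := by
  rw [cpa_par]
  constructor
  · intro h
    have h1 := Relation.ReflTransGen.lift
      (p := CpaSt (dec x)) (fun u : ℕ => (fm x.1.2.2 u : Fin (x.1.2.2 + 1)))
      (fun u v huv => huv.2) _ _ h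
    have h2 : ∀ k : ℕ, fm x.1.2.2 (k % (x.1.2.2 + 1)) = fm x.1.2.2 k := fun k =>
      Fin.ext (Nat.mod_mod _ _)
    simpa only [Function.onFun, h2] using h1
  · intro h
    exact Relation.ReflTransGen.lift
      (p := CpaN x) (fun u : Fin (x.1.2.2 + 1) => (u : ℕ))
      (fun u v huv => ⟨v.2, by
        simp only [fm_surj]
        exact huv⟩) _ _ h

theorem cpa_red : Primrec fun x : Code × ℕ × ℕ => (x.1,
    (x.2.1 % (x.1.1.2.2 + 1), x.2.2 % (x.1.1.2.2 + 1))) := by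
  have hn1 : Primrec fun x : Code × ℕ × ℕ => x.1.1.2.2 + 1 :=
    CB.p_add (Primrec.snd.comp (Primrec.snd.comp (Primrec.fst.comp Primrec.fst)))
      (Primrec.const 1)
  have hu : Primrec fun x : Code × ℕ × ℕ => x.2.1 := Primrec.fst.comp Primrec.snd
  have hv : Primrec fun x : Code × ℕ × ℕ => x.2.2 := Primrec.snd.comp Primrec.snd
  exact Primrec.pair Primrec.fst (Primrec.pair (CB.p_mod hu hn1) (CB.p_mod hv hn1))

theorem cpar_re : REPred fun x : Code × ℕ × ℕ =>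
    Par (dec x.1) (fm x.1.1.2.2 x.2.1) (fm x.1.1.2.2 x.2.2) := by
  refine REPred.of_eq (LatIso.re_comp (cpb_chain (st := CpaN) cpaN_p) cpa_red.to_comp) ?_
  intro x
  exact cpaN_iff x.1 _ _

theorem cnpar_re : REPred fun x : Code × ℕ × ℕ =>
    ¬ Par (dec x.1) (fm x.1.1.2.2 x.2.1) (fm x.1.1.2.2 x.2.2) := by
  have ha : Primrec fun x : Code => List.range (x.1.2.2 + 1) :=
    Primrec.list_range.comp (CB.p_add (Primrec.snd.comp (Primrec.snd.comp Primrec.fst))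
      (Primrec.const 1))
  refine REPred.of_eq (LatIso.re_comp (cpb_nchain (st := CpaN) cpaN_p ha ?_)
    cpa_red.to_comp) ?_
  · intro x u v h
    exact List.mem_range.2 h.1
  · intro x
    exact not_congr (cpaN_iff x.1 _ _)

/-- one rule of the inductive definition of `Lab` -/
def CplSt {ι P A : Type} (X : FD ι P A) (u v : P × ι) : Prop :=
  ∃ a, X.o a = u.1 ∧ v.1 = X.t a ∧ v.2 = X.pm a u.2

theorem cpl_lab {ι P A : Type} (X : FD ι P A) (q q' : P) (k k' : ι) : Lab X q k q' k' ↔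
    Relation.ReflTransGen (CplSt X) (q, k) (q', k') := by
  constructor
  · intro h
    induction h with
    | refl => exact Relation.ReflTransGen.refl
    | step a k' _ ih => exact ih.tail ⟨a, rfl, rfl, rfl⟩
  · intro h
    have key : ∀ v : P × ι, Relation.ReflTransGen (CplSt X) (q, k) v → Lab X q k v.1 v.2 := by
      intro v hv
      induction hv with
      | refl => exact Lab.refl
      | tail _ hs ih =>
        obtain ⟨a, h1, h2, h3⟩ := hs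
        rw [h2, h3]
        exact Lab.step a _ (by rw [h1]; exact ih)
    exact key _ h

/-- the same with numbers -/
def CplN (x : Code) (u v : ℕ × ℕ) : Prop :=
  (v.1 < x.1.2.1 + 1 ∧ v.2 < x.1.1 + 1) ∧
    CplSt (dec x) (fm x.1.2.1 u.1, fm x.1.1 u.2) (fm x.1.2.1 v.1, fm x.1.1 v.2)

theorem cplN_p : PrimrecPred fun x : Code × (ℕ × ℕ) × (ℕ × ℕ) => CplN x.1 x.2.1 x.2.2 := by
  have hnA : Primrec fun x : Code × (ℕ × ℕ) × (ℕ × ℕ) => x.1.1.2.2 + 1 :=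
    CB.p_add (Primrec.snd.comp (Primrec.snd.comp (Primrec.fst.comp Primrec.fst)))
      (Primrec.const 1)
  have hnP : Primrec fun x : Code × (ℕ × ℕ) × (ℕ × ℕ) => x.1.1.2.1 :=
    Primrec.fst.comp (Primrec.snd.comp (Primrec.fst.comp Primrec.fst))
  have hnI : Primrec fun x : Code × (ℕ × ℕ) × (ℕ × ℕ) => x.1.1.1 :=
    Primrec.fst.comp (Primrec.fst.comp Primrec.fst)
  have hu1 : Primrec fun x : Code × (ℕ × ℕ) × (ℕ × ℕ) => x.2.1.1 :=
    Primrec.fst.comp (Primrec.fst.comp Primrec.snd)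
  have hu2 : Primrec fun x : Code × (ℕ × ℕ) × (ℕ × ℕ) => x.2.1.2 :=
    Primrec.snd.comp (Primrec.fst.comp Primrec.snd)
  have hv1 : Primrec fun x : Code × (ℕ × ℕ) × (ℕ × ℕ) => x.2.2.1 :=
    Primrec.fst.comp (Primrec.snd.comp Primrec.snd)
  have hv2 : Primrec fun x : Code × (ℕ × ℕ) × (ℕ × ℕ) => x.2.2.2 :=
    Primrec.snd.comp (Primrec.snd.comp Primrec.snd)
  refine CB.pp_and (CB.pp_and (CB.pp_lt hv1 (CB.p_add hnP (Primrec.const 1)))
    (CB.pp_lt hv2 (CB.p_add hnI (Primrec.const 1)))) ?_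
  refine PrimrecPred.of_eq (CB.pp_ex (p := fun (x : Code × (ℕ × ℕ) × (ℕ × ℕ)) (a : ℕ) =>
    ((dec x.1).o (fm x.1.1.2.2 a) : ℕ) =
      ((fm x.1.1.2.1 x.2.1.1 : Fin (x.1.1.2.1 + 1)) : ℕ) ∧
    ((fm x.1.1.2.1 x.2.2.1 : Fin (x.1.1.2.1 + 1)) : ℕ) =
      ((dec x.1).t (fm x.1.1.2.2 a) : ℕ) ∧
    ((fm x.1.1.1 x.2.2.2 : Fin (x.1.1.1 + 1)) : ℕ) =
      ((dec x.1).pm (fm x.1.1.2.2 a) (fm x.1.1.1 x.2.1.2) : ℕ)) hnA ?_) ?_
  · have hx : Primrec fun z : (Code × (ℕ × ℕ) × (ℕ × ℕ)) × ℕ => z.1.1 :=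
      Primrec.fst.comp Primrec.fst
    exact CB.pp_and (CB.pp_eq (cb_o hx Primrec.snd)
      (fm_p (hnP.comp Primrec.fst) (hu1.comp Primrec.fst)))
      (CB.pp_and (CB.pp_eq (fm_p (hnP.comp Primrec.fst) (hv1.comp Primrec.fst))
        (cb_t hx Primrec.snd))
      (CB.pp_eq (fm_p (hnI.comp Primrec.fst) (hv2.comp Primrec.fst))
        (cb_pm hx Primrec.snd (hu2.comp Primrec.fst))))
  · intro x
    unfold CplSt
    rw [fm_ex]
    simp only [Fin.ext_iff]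

theorem cplN_iff (x : Code) (a b a' b' : ℕ) :
    Relation.ReflTransGen (CplN x) (a % (x.1.2.1 + 1), b % (x.1.1 + 1))
      (a' % (x.1.2.1 + 1), b' % (x.1.1 + 1)) ↔
    Lab (dec x) (fm x.1.2.1 a) (fm x.1.1 b) (fm x.1.2.1 a') (fm x.1.1 b') := by
  rw [cpl_lab]
  constructor
  · intro h
    have h1 := Relation.ReflTransGen.lift
      (p := CplSt (dec x))
      (fun u : ℕ × ℕ => ((fm x.1.2.1 u.1, fm x.1.1 u.2) :
        Fin (x.1.2.1 + 1) × Fin (x.1.1 + 1))) (fun u v huv => huv.2) _ _ h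
    have h2 : ∀ n k : ℕ, fm n (k % (n + 1)) = fm n k := fun n k =>
      Fin.ext (Nat.mod_mod _ _)
    simpa only [Function.onFun, h2] using h1
  · intro h
    exact Relation.ReflTransGen.lift
      (p := CplN x) (fun u : Fin (x.1.2.1 + 1) × Fin (x.1.1 + 1) => ((u.1 : ℕ), (u.2 : ℕ)))
      (fun u v huv => ⟨⟨v.1.2, v.2.2⟩, by
        simp only [fm_surj]
        exact huv⟩) _ _ h

theorem clab_re : REPred fun x : Code × (ℕ × ℕ) × (ℕ × ℕ) =>
    Lab (dec x.1) (fm x.1.1.2.1 x.2.1.1) (fm x.1.1.1 x.2.1.2) (fm x.1.1.2.1 x.2.2.1)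
      (fm x.1.1.1 x.2.2.2) := by
  have hnP : Primrec fun x : Code × (ℕ × ℕ) × (ℕ × ℕ) => x.1.1.2.1 + 1 :=
    CB.p_add (Primrec.fst.comp (Primrec.snd.comp (Primrec.fst.comp Primrec.fst)))
      (Primrec.const 1)
  have hnI : Primrec fun x : Code × (ℕ × ℕ) × (ℕ × ℕ) => x.1.1.1 + 1 :=
    CB.p_add (Primrec.fst.comp (Primrec.fst.comp Primrec.fst)) (Primrec.const 1)
  have hu1 : Primrec fun x : Code × (ℕ × ℕ) × (ℕ × ℕ) => x.2.1.1 :=
    Primrec.fst.comp (Primrec.fst.comp Primrec.snd)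
  have hu2 : Primrec fun x : Code × (ℕ × ℕ) × (ℕ × ℕ) => x.2.1.2 :=
    Primrec.snd.comp (Primrec.fst.comp Primrec.snd)
  have hv1 : Primrec fun x : Code × (ℕ × ℕ) × (ℕ × ℕ) => x.2.2.1 :=
    Primrec.fst.comp (Primrec.snd.comp Primrec.snd)
  have hv2 : Primrec fun x : Code × (ℕ × ℕ) × (ℕ × ℕ) => x.2.2.2 :=
    Primrec.snd.comp (Primrec.snd.comp Primrec.snd)
  have hr : Primrec fun x : Code × (ℕ × ℕ) × (ℕ × ℕ) => (x.1,
    ((x.2.1.1 % (x.1.1.2.1 + 1), x.2.1.2 % (x.1.1.1 + 1)),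
    (x.2.2.1 % (x.1.1.2.1 + 1), x.2.2.2 % (x.1.1.1 + 1)))) :=
    Primrec.pair Primrec.fst (Primrec.pair (Primrec.pair (CB.p_mod hu1 hnP)
      (CB.p_mod hu2 hnI)) (Primrec.pair (CB.p_mod hv1 hnP) (CB.p_mod hv2 hnI)))
  refine REPred.of_eq (LatIso.re_comp (cpb_chain (st := CplN) cplN_p) hr.to_comp) ?_
  intro x
  exact cplN_iff x.1 _ _ _ _

end

end LatF
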