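import Pool.Agent.Lib.MP_32d917_al.FDefs
import Pool.Agent.Lib.MP_32d917_al.F.CB

/-!
# codes: validity is primitive recursive

Rewrite all quantifiers over `Fin (n + 1)` by `fm_all`, `fm_ex` (bounded quantifiers over natural numbers) and use `cb_*`, `ball_p`, `bex_p`, and, or, not, implication (`¬ p ∨ q`), equality of numbers. `SqT` is a conjunction. It may be convenient to prove one lemma for every
field and then `Valid (dec x) ↔ (conjunction)`. Bounded quantifiers with up to 11 variables occur (`cube`): iterate `ball_p`.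

The proof uses the values of the fields as numerical functions `cval_o`, ... (`rfl`).
-/

set_option autoImplicit false

namespace LatF

open LatIso LatN

/-! ### the fields as numerical functions -/

def cval_o (x : Code) (a : ℕ) : ℕ := ent x 0 a 0 0 0 % (x.1.2.1 + 1)
def cval_t (x : Code) (a : ℕ) : ℕ := ent x 1 a 0 0 0 % (x.1.2.1 + 1)
def cval_e (x : Code) (p : ℕ) : ℕ := ent x 2 p 0 0 0 % (x.1.2.2 + 1)
def cval_i (x : Code) (a : ℕ) : ℕ := ent x 3 a 0 0 0 % (x.1.2.2 + 1)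
def cval_mv (x : Code) (a : ℕ) : Prop := ent x 4 a 0 0 0 = 1
def cval_ty (x : Code) (a : ℕ) : ℕ := ent x 5 a 0 0 0 % (x.1.1 + 1)
def cval_pm (x : Code) (a k : ℕ) : ℕ := ent x 6 a k 0 0 % (x.1.1 + 1)
def cval_ml (x : Code) (a b : ℕ) : ℕ := ent x 7 a b 0 0 % (x.1.2.2 + 1)
def cval_sq (x : Code) (a b c d : ℕ) : Prop := ent x 8 a b c d = 1

theorem cval_o_val (x : Code) (a : Fin (x.1.2.2 + 1)) :
    (((dec x).o a : Fin _) : ℕ) = cval_o x a := rfl
theorem cval_t_val (x : Code) (a : Fin (x.1.2.2 + 1)) :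
    (((dec x).t a : Fin _) : ℕ) = cval_t x a := rfl
theorem cval_e_val (x : Code) (p : Fin (x.1.2.1 + 1)) :
    (((dec x).e p : Fin _) : ℕ) = cval_e x p := rfl
theorem cval_i_val (x : Code) (a : Fin (x.1.2.2 + 1)) :
    (((dec x).i a : Fin _) : ℕ) = cval_i x a := rfl
theorem cval_mv_val (x : Code) (a : Fin (x.1.2.2 + 1)) :
    (dec x).mv a = cval_mv x a := rfl
theorem cval_ty_val (x : Code) (a : Fin (x.1.2.2 + 1)) :
    (((dec x).ty a : Fin _) : ℕ) = cval_ty x a := rfl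
theorem cval_pm_val (x : Code) (a : Fin (x.1.2.2 + 1)) (k : Fin (x.1.1 + 1)) :
    (((dec x).pm a k : Fin _) : ℕ) = cval_pm x a k := rfl
theorem cval_ml_val (x : Code) (a b : Fin (x.1.2.2 + 1)) :
    (((dec x).ml a b : Fin _) : ℕ) = cval_ml x a b := rfl
theorem cval_sq_val (x : Code) (a b c d : Fin (x.1.2.2 + 1)) :
    (dec x).sq a b c d = cval_sq x a b c d := rfl

section

variable {β : Type} [Primcodable β] {f : β → Code} {a b c d : β → ℕ}

theorem cval_p_o (hf : Primrec f) (ha : Primrec a) : Primrec (fun x => cval_o (f x) (a x)) := by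
  unfold cval_o
  exact CB.p_mod (ent_p hf (Primrec.const _) ha (Primrec.const _) (Primrec.const _)
    (Primrec.const _)) (CB.p_add (CB.p_fst (CB.p_snd (CB.p_fst hf))) (Primrec.const 1))

theorem cval_p_t (hf : Primrec f) (ha : Primrec a) : Primrec (fun x => cval_t (f x) (a x)) := by
  unfold cval_t
  exact CB.p_mod (ent_p hf (Primrec.const _) ha (Primrec.const _) (Primrec.const _)
    (Primrec.const _)) (CB.p_add (CB.p_fst (CB.p_snd (CB.p_fst hf))) (Primrec.const 1))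

theorem cval_p_e (hf : Primrec f) (ha : Primrec a) : Primrec (fun x => cval_e (f x) (a x)) := by
  unfold cval_e
  exact CB.p_mod (ent_p hf (Primrec.const _) ha (Primrec.const _) (Primrec.const _)
    (Primrec.const _)) (CB.p_add (CB.p_snd (CB.p_snd (CB.p_fst hf))) (Primrec.const 1))

theorem cval_p_i (hf : Primrec f) (ha : Primrec a) : Primrec (fun x => cval_i (f x) (a x)) := by
  unfold cval_i
  exact CB.p_mod (ent_p hf (Primrec.const _) ha (Primrec.const _) (Primrec.const _)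
    (Primrec.const _)) (CB.p_add (CB.p_snd (CB.p_snd (CB.p_fst hf))) (Primrec.const 1))

theorem cval_p_mv (hf : Primrec f) (ha : Primrec a) :
    PrimrecPred (fun x => cval_mv (f x) (a x)) := by
  unfold cval_mv
  exact CB.pp_eq (ent_p hf (Primrec.const _) ha (Primrec.const _) (Primrec.const _)
    (Primrec.const _)) (Primrec.const 1)

theorem cval_p_ty (hf : Primrec f) (ha : Primrec a) : Primrec (fun x => cval_ty (f x) (a x)) := by
  unfold cval_ty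
  exact CB.p_mod (ent_p hf (Primrec.const _) ha (Primrec.const _) (Primrec.const _)
    (Primrec.const _)) (CB.p_add (CB.p_fst (CB.p_fst hf)) (Primrec.const 1))

theorem cval_p_pm (hf : Primrec f) (ha : Primrec a) (hb : Primrec b) :
    Primrec (fun x => cval_pm (f x) (a x) (b x)) := by
  unfold cval_pm
  exact CB.p_mod (ent_p hf (Primrec.const _) ha hb (Primrec.const _)
    (Primrec.const _)) (CB.p_add (CB.p_fst (CB.p_fst hf)) (Primrec.const 1))

theorem cval_p_ml (hf : Primrec f) (ha : Primrec a) (hb : Primrec b) :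
    Primrec (fun x => cval_ml (f x) (a x) (b x)) := by
  unfold cval_ml
  exact CB.p_mod (ent_p hf (Primrec.const _) ha hb (Primrec.const _)
    (Primrec.const _)) (CB.p_add (CB.p_snd (CB.p_snd (CB.p_fst hf))) (Primrec.const 1))

theorem cval_p_sq (hf : Primrec f) (ha : Primrec a) (hb : Primrec b) (hc : Primrec c)
    (hd : Primrec d) : PrimrecPred (fun x => cval_sq (f x) (a x) (b x) (c x) (d x)) := by
  unfold cval_sq
  exact CB.pp_eq (ent_p hf (Primrec.const _) ha hb hc hd) (Primrec.const 1)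

end

/-! ### the axioms in groups -/

private def V1 {ι P A : Type} (X : FD ι P A) : Prop :=
  (∀ p, X.o (X.e p) = p) ∧ (∀ p, X.t (X.e p) = p) ∧ (∀ p, ¬ X.mv (X.e p)) ∧
  (∀ p k, X.pm (X.e p) k = k) ∧ (∀ a, X.o (X.i a) = X.t a) ∧ (∀ a, X.t (X.i a) = X.o a) ∧
  (∀ a, X.i (X.i a) = a) ∧ (∀ a, X.mv (X.i a) ↔ X.mv a) ∧
  (∀ a, X.mv a → X.ty (X.i a) = X.pm a (X.ty a)) ∧ (∀ a k, X.pm (X.i a) (X.pm a k) = k) ∧
  (∀ a, ¬ X.mv a → X.t a = X.o a)

private def V2 {ι P A : Type} (X : FD ι P A) : Prop :=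
  (∀ s a, X.lc s a → X.o (X.ml s a) = X.o s) ∧
  (∀ s a, X.lc s a → X.t (X.ml s a) = X.t a) ∧
  (∀ s a, X.lc s a → (X.mv (X.ml s a) ↔ X.mv a)) ∧
  (∀ s a, X.lc s a → X.mv a → X.pm s (X.ty (X.ml s a)) = X.ty a) ∧
  (∀ s a k, X.lc s a → X.pm (X.ml s a) k = X.pm a (X.pm s k)) ∧
  (∀ a, X.ml (X.e (X.o a)) a = a) ∧
  (∀ s s' a, X.lc s s' → X.lc s' a → X.ml s (X.ml s' a) = X.ml (X.ml s s') a) ∧
  (∀ s, ¬ X.mv s → X.ml s (X.i s) = X.e (X.o s)) ∧
  (∀ s a s', X.lc s a → X.rc a s' → X.ml s (X.mr a s') = X.mr (X.ml s a) s') ∧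
  (∀ s s', ¬ X.mv s → X.rc s s' → X.mr s s' = X.ml s s') ∧
  (∀ s a, X.lc s a → X.ml s a = a → s = X.e (X.o a))

private def V3 {ι P A : Type} (X : FD ι P A) : Prop :=
  (∀ a b c d, X.sq a b c d → SqT X a b c d) ∧
  (∀ a b c d, X.sq a b c d → ∀ k, X.pm b (X.pm a k) = X.pm d (X.pm c k)) ∧
  (∀ a b c d, X.sq a b c d → X.sq c d a b) ∧
  (∀ a b c d, X.sq a b c d → X.sq (X.i a) c b (X.i d)) ∧
  (∀ a b c d s, X.sq a b c d → X.lc s a → X.sq (X.ml s a) b (X.ml s c) d) ∧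
  (∀ a b c d s, X.sq a b c d → X.rc a s → X.sq (X.mr a s) (X.ml (X.i s) b) c d)

private def V4 {ι P A : Type} (X : FD ι P A) : Prop :=
  (∀ a b, X.mv a → X.mv b → X.t a = X.o b → X.ty b ≠ X.pm a (X.ty a) → ∃ c d, X.sq a b c d) ∧
  (∀ a b c d c' d', X.sq a b c d → X.sq a b c' d' →
    ∃ s, X.rc c s ∧ c' = X.mr c s ∧ d' = X.ml (X.i s) d)

private def V5 {ι P A : Type} (X : FD ι P A) : Prop :=
  ∀ a b b₁ a₁ c c₁ a₂ c' c₁' a₃ b', X.sq a b₁ b a₁ → X.sq a c₁ c a₂ →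
    X.sq a₁ c₁' c' a₃ → X.sq b c' c b' → ∃ b₁', X.sq b₁ c₁' c₁ b₁' ∧ X.sq a₂ b₁' b' a₃

private theorem cval_valid_iff {ι P A : Type} (X : FD ι P A) :
    (V1 X ∧ V2 X ∧ V3 X ∧ V4 X ∧ V5 X) ↔ Valid X := by
  constructor
  · rintro ⟨⟨h1, h2, h3, h4, h5, h6, h7, h8, h9, h10, h11⟩,
      ⟨k1, k2, k3, k4, k5, k6, k7, k8, k9, k10, k11⟩, ⟨l1, l2, l3, l4, l5, l6⟩, ⟨m1, m2⟩, hc⟩
    exact ⟨⟨h1, h2, h3, h4, h5, h6, h7, h8, h9, h10, k1, k2, k3, k4, k5, k6, k7, k8, k9, k10, k11,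
      l1, l2, l3, l4, l5, l6, m1, m2, hc⟩, h11⟩
  · intro h
    have g := h.v0
    exact ⟨⟨g.oe, g.te, g.me, g.pe, g.oi, g.ti, g.ii, g.mi, g.tyi, g.pi, h.loop⟩,
      ⟨g.mlo, g.mlt, g.mlm, g.mly, g.mlp, g.mle, g.mla, g.mli, g.mlr, g.mrs, g.mlf⟩,
      ⟨g.sqT, g.sqp, g.sqs, g.sqr, g.sql, g.sqm⟩, ⟨g.sqe, g.squ⟩, g.cube⟩

private theorem cval_sqT_iff {ι P A : Type} (X : FD ι P A) (a b c d : A) :
    SqT X a b c d ↔ (X.mv a ∧ X.mv b ∧ X.mv c ∧ X.mv d ∧ X.o a = X.o c ∧ X.t a = X.o b ∧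
      X.t c = X.o d ∧ X.t b = X.t d ∧ ¬ X.ty a = X.ty c ∧ X.ty b = X.pm a (X.ty c) ∧
      X.ty d = X.pm c (X.ty a)) :=
  ⟨fun h => ⟨h.ma, h.mb, h.mc, h.md, h.oac, h.tab, h.tcd, h.tbd, h.ne, h.tyb, h.tyd⟩,
    fun ⟨h1, h2, h3, h4, h5, h6, h7, h8, h9, h10, h11⟩ =>
      ⟨h1, h2, h3, h4, h5, h6, h7, h8, h9, h10, h11⟩⟩

/-! ### number versions -/

private def N1 (x : Code) : Prop :=
  (∀ p < x.1.2.1 + 1, cval_o x (cval_e x p) = p) ∧
  (∀ p < x.1.2.1 + 1, cval_t x (cval_e x p) = p) ∧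
  (∀ p < x.1.2.1 + 1, ¬ cval_mv x (cval_e x p)) ∧
  (∀ p < x.1.2.1 + 1, ∀ k < x.1.1 + 1, cval_pm x (cval_e x p) k = k) ∧
  (∀ a < x.1.2.2 + 1, cval_o x (cval_i x a) = cval_t x a) ∧
  (∀ a < x.1.2.2 + 1, cval_t x (cval_i x a) = cval_o x a) ∧
  (∀ a < x.1.2.2 + 1, cval_i x (cval_i x a) = a) ∧
  (∀ a < x.1.2.2 + 1, (cval_mv x (cval_i x a) ↔ cval_mv x a)) ∧
  (∀ a < x.1.2.2 + 1, cval_mv x a → cval_ty x (cval_i x a) = cval_pm x a (cval_ty x a)) ∧
  (∀ a < x.1.2.2 + 1, ∀ k < x.1.1 + 1, cval_pm x (cval_i x a) (cval_pm x a k) = k) ∧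
  (∀ a < x.1.2.2 + 1, ¬ cval_mv x a → cval_t x a = cval_o x a)

private def N2 (x : Code) : Prop :=
  (∀ s < x.1.2.2 + 1, ∀ a < x.1.2.2 + 1, (¬ cval_mv x s ∧ cval_t x s = cval_o x a) →
    cval_o x (cval_ml x s a) = cval_o x s) ∧
  (∀ s < x.1.2.2 + 1, ∀ a < x.1.2.2 + 1, (¬ cval_mv x s ∧ cval_t x s = cval_o x a) →
    cval_t x (cval_ml x s a) = cval_t x a) ∧
  (∀ s < x.1.2.2 + 1, ∀ a < x.1.2.2 + 1, (¬ cval_mv x s ∧ cval_t x s = cval_o x a) →
    (cval_mv x (cval_ml x s a) ↔ cval_mv x a)) ∧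
  (∀ s < x.1.2.2 + 1, ∀ a < x.1.2.2 + 1, (¬ cval_mv x s ∧ cval_t x s = cval_o x a) →
    cval_mv x a → cval_pm x s (cval_ty x (cval_ml x s a)) = cval_ty x a) ∧
  (∀ s < x.1.2.2 + 1, ∀ a < x.1.2.2 + 1, ∀ k < x.1.1 + 1,
    (¬ cval_mv x s ∧ cval_t x s = cval_o x a) →
    cval_pm x (cval_ml x s a) k = cval_pm x a (cval_pm x s k)) ∧
  (∀ a < x.1.2.2 + 1, cval_ml x (cval_e x (cval_o x a)) a = a) ∧
  (∀ s < x.1.2.2 + 1, ∀ s' < x.1.2.2 + 1, ∀ a < x.1.2.2 + 1,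
    (¬ cval_mv x s ∧ cval_t x s = cval_o x s') → (¬ cval_mv x s' ∧ cval_t x s' = cval_o x a) →
    cval_ml x s (cval_ml x s' a) = cval_ml x (cval_ml x s s') a) ∧
  (∀ s < x.1.2.2 + 1, ¬ cval_mv x s → cval_ml x s (cval_i x s) = cval_e x (cval_o x s)) ∧
  (∀ s < x.1.2.2 + 1, ∀ a < x.1.2.2 + 1, ∀ s' < x.1.2.2 + 1,
    (¬ cval_mv x s ∧ cval_t x s = cval_o x a) → (¬ cval_mv x s' ∧ cval_o x s' = cval_t x a) →
    cval_ml x s (cval_i x (cval_ml x (cval_i x s') (cval_i x a))) =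
      cval_i x (cval_ml x (cval_i x s') (cval_i x (cval_ml x s a)))) ∧
  (∀ s < x.1.2.2 + 1, ∀ s' < x.1.2.2 + 1, ¬ cval_mv x s →
    (¬ cval_mv x s' ∧ cval_o x s' = cval_t x s) →
    cval_i x (cval_ml x (cval_i x s') (cval_i x s)) = cval_ml x s s') ∧
  (∀ s < x.1.2.2 + 1, ∀ a < x.1.2.2 + 1, (¬ cval_mv x s ∧ cval_t x s = cval_o x a) →
    cval_ml x s a = a → s = cval_e x (cval_o x a))

private def N3 (x : Code) : Prop :=
  (∀ a < x.1.2.2 + 1, ∀ b < x.1.2.2 + 1, ∀ c < x.1.2.2 + 1, ∀ d < x.1.2.2 + 1,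
    cval_sq x a b c d → cval_mv x a ∧ cval_mv x b ∧ cval_mv x c ∧ cval_mv x d ∧
      cval_o x a = cval_o x c ∧ cval_t x a = cval_o x b ∧ cval_t x c = cval_o x d ∧
      cval_t x b = cval_t x d ∧ ¬ cval_ty x a = cval_ty x c ∧
      cval_ty x b = cval_pm x a (cval_ty x c) ∧ cval_ty x d = cval_pm x c (cval_ty x a)) ∧
  (∀ a < x.1.2.2 + 1, ∀ b < x.1.2.2 + 1, ∀ c < x.1.2.2 + 1, ∀ d < x.1.2.2 + 1,
    cval_sq x a b c d → ∀ k < x.1.1 + 1,
      cval_pm x b (cval_pm x a k) = cval_pm x d (cval_pm x c k)) ∧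
  (∀ a < x.1.2.2 + 1, ∀ b < x.1.2.2 + 1, ∀ c < x.1.2.2 + 1, ∀ d < x.1.2.2 + 1,
    cval_sq x a b c d → cval_sq x c d a b) ∧
  (∀ a < x.1.2.2 + 1, ∀ b < x.1.2.2 + 1, ∀ c < x.1.2.2 + 1, ∀ d < x.1.2.2 + 1,
    cval_sq x a b c d → cval_sq x (cval_i x a) c b (cval_i x d)) ∧
  (∀ a < x.1.2.2 + 1, ∀ b < x.1.2.2 + 1, ∀ c < x.1.2.2 + 1, ∀ d < x.1.2.2 + 1,
    ∀ s < x.1.2.2 + 1, cval_sq x a b c d → (¬ cval_mv x s ∧ cval_t x s = cval_o x a) →
    cval_sq x (cval_ml x s a) b (cval_ml x s c) d) ∧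
  (∀ a < x.1.2.2 + 1, ∀ b < x.1.2.2 + 1, ∀ c < x.1.2.2 + 1, ∀ d < x.1.2.2 + 1,
    ∀ s < x.1.2.2 + 1, cval_sq x a b c d → (¬ cval_mv x s ∧ cval_o x s = cval_t x a) →
    cval_sq x (cval_i x (cval_ml x (cval_i x s) (cval_i x a))) (cval_ml x (cval_i x s) b) c d)

private def N4 (x : Code) : Prop :=
  (∀ a < x.1.2.2 + 1, ∀ b < x.1.2.2 + 1, cval_mv x a → cval_mv x b → cval_t x a = cval_o x b →
    ¬ cval_ty x b = cval_pm x a (cval_ty x a) →
      ∃ c < x.1.2.2 + 1, ∃ d < x.1.2.2 + 1, cval_sq x a b c d) ∧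
  (∀ a < x.1.2.2 + 1, ∀ b < x.1.2.2 + 1, ∀ c < x.1.2.2 + 1, ∀ d < x.1.2.2 + 1,
    ∀ c' < x.1.2.2 + 1, ∀ d' < x.1.2.2 + 1, cval_sq x a b c d → cval_sq x a b c' d' →
    ∃ s < x.1.2.2 + 1, (¬ cval_mv x s ∧ cval_o x s = cval_t x c) ∧
      c' = cval_i x (cval_ml x (cval_i x s) (cval_i x c)) ∧ d' = cval_ml x (cval_i x s) d)

private def N5 (x : Code) : Prop :=
  ∀ a < x.1.2.2 + 1, ∀ b < x.1.2.2 + 1, ∀ b₁ < x.1.2.2 + 1, ∀ a₁ < x.1.2.2 + 1,
    ∀ c < x.1.2.2 + 1, ∀ c₁ < x.1.2.2 + 1, ∀ a₂ < x.1.2.2 + 1, ∀ c' < x.1.2.2 + 1,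
    ∀ c₁' < x.1.2.2 + 1, ∀ a₃ < x.1.2.2 + 1, ∀ b' < x.1.2.2 + 1,
    cval_sq x a b₁ b a₁ → cval_sq x a c₁ c a₂ →
    cval_sq x a₁ c₁' c' a₃ → cval_sq x b c' c b' →
      ∃ b₁' < x.1.2.2 + 1, cval_sq x b₁ c₁' c₁ b₁' ∧ cval_sq x a₂ b₁' b' a₃

private theorem V1_iff (x : Code) : V1 (dec x) ↔ N1 x := by
  unfold V1 N1
  simp only [Fin.ext_iff, cval_o_val, cval_t_val, cval_e_val, cval_i_val, cval_mv_val, cval_ty_val,
    cval_pm_val, Fin.forall_iff]

private theorem V2_iff (x : Code) : V2 (dec x) ↔ N2 x := by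
  unfold V2 N2 FD.mr FD.lc FD.rc
  simp only [Fin.ext_iff, cval_o_val, cval_t_val, cval_e_val, cval_i_val, cval_mv_val, cval_ty_val,
    cval_pm_val, cval_ml_val, Fin.forall_iff]

private theorem V3_iff (x : Code) : V3 (dec x) ↔ N3 x := by
  unfold V3 N3 FD.mr FD.lc FD.rc
  simp only [cval_sqT_iff, Fin.ext_iff, cval_o_val, cval_t_val, cval_i_val, cval_mv_val,
    cval_ty_val, cval_pm_val, cval_ml_val, cval_sq_val, Fin.forall_iff]

private theorem V4_iff (x : Code) : V4 (dec x) ↔ N4 x := by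
  unfold V4 N4 FD.mr FD.rc
  simp only [Fin.ext_iff, cval_o_val, cval_t_val, cval_i_val, cval_mv_val,
    cval_ty_val, cval_pm_val, cval_ml_val, cval_sq_val, Fin.forall_iff, Fin.exists_iff,
    exists_prop, ne_eq]

private theorem V5_iff (x : Code) : V5 (dec x) ↔ N5 x := by
  unfold V5 N5
  simp only [cval_sq_val, Fin.forall_iff, Fin.exists_iff, exists_prop]

private theorem N1_p : PrimrecPred N1 := by
  unfold N1
  (repeat' (with_reducible first | assumption | exact CB.p_id | exact Primrec.const _ | exact CB.pp_const _ | apply CB.p_fst | apply CB.p_snd | apply CB.p_add | apply cval_p_o | apply cval_p_t | apply cval_p_e | apply cval_p_i | apply cval_p_ty | apply cval_p_pm | apply cval_p_ml | apply cval_p_mv | apply cval_p_sq | apply CB.pp_all | apply CB.pp_ex | apply CB.pp_and | apply CB.pp_or | apply CB.pp_not | apply CB.pp_iff | apply CB.pp_imp | apply CB.pp_eq))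

private theorem N2_p : PrimrecPred N2 := by
  unfold N2
  (repeat' (with_reducible first | assumption | exact CB.p_id | exact Primrec.const _ | exact CB.pp_const _ | apply CB.p_fst | apply CB.p_snd | apply CB.p_add | apply cval_p_o | apply cval_p_t | apply cval_p_e | apply cval_p_i | apply cval_p_ty | apply cval_p_pm | apply cval_p_ml | apply cval_p_mv | apply cval_p_sq | apply CB.pp_all | apply CB.pp_ex | apply CB.pp_and | apply CB.pp_or | apply CB.pp_not | apply CB.pp_iff | apply CB.pp_imp | apply CB.pp_eq))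

private theorem N3_p : PrimrecPred N3 := by
  unfold N3
  (repeat' (with_reducible first | assumption | exact CB.p_id | exact Primrec.const _ | exact CB.pp_const _ | apply CB.p_fst | apply CB.p_snd | apply CB.p_add | apply cval_p_o | apply cval_p_t | apply cval_p_e | apply cval_p_i | apply cval_p_ty | apply cval_p_pm | apply cval_p_ml | apply cval_p_mv | apply cval_p_sq | apply CB.pp_all | apply CB.pp_ex | apply CB.pp_and | apply CB.pp_or | apply CB.pp_not | apply CB.pp_iff | apply CB.pp_imp | apply CB.pp_eq))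

private theorem N4_p : PrimrecPred N4 := by
  unfold N4
  (repeat' (with_reducible first | assumption | exact CB.p_id | exact Primrec.const _ | exact CB.pp_const _ | apply CB.p_fst | apply CB.p_snd | apply CB.p_add | apply cval_p_o | apply cval_p_t | apply cval_p_e | apply cval_p_i | apply cval_p_ty | apply cval_p_pm | apply cval_p_ml | apply cval_p_mv | apply cval_p_sq | apply CB.pp_all | apply CB.pp_ex | apply CB.pp_and | apply CB.pp_or | apply CB.pp_not | apply CB.pp_iff | apply CB.pp_imp | apply CB.pp_eq))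

private theorem N5_p : PrimrecPred N5 := by
  unfold N5
  (repeat' (with_reducible first | assumption | exact CB.p_id | exact Primrec.const _ | exact CB.pp_const _ | apply CB.p_fst | apply CB.p_snd | apply CB.p_add | apply cval_p_o | apply cval_p_t | apply cval_p_e | apply cval_p_i | apply cval_p_ty | apply cval_p_pm | apply cval_p_ml | apply cval_p_mv | apply cval_p_sq | apply CB.pp_all | apply CB.pp_ex | apply CB.pp_and | apply CB.pp_or | apply CB.pp_not | apply CB.pp_iff | apply CB.pp_imp))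

section

theorem cvalid_p : PrimrecPred fun x : Code => Valid (dec x) := by
  refine PrimrecPred.of_eq (CB.pp_and N1_p (CB.pp_and N2_p (CB.pp_and N3_p
    (CB.pp_and N4_p N5_p)))) ?_
  intro x
  rw [← V1_iff, ← V2_iff, ← V3_iff, ← V4_iff, ← V5_iff]
  exact cval_valid_iff (dec x)

end

end LatF
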