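import Pool.Agent.Lib.MP_32d917_al.FDefs
import Pool.Agent.Lib.MP_32d917_al.F.CVAL
import Pool.Agent.Lib.MP_32d917_al.F.CPAR
import Pool.Agent.Lib.MP_32d917_al.F.CPARB
import Pool.Agent.Lib.MP_32d917_al.F.CHOM

/-!
# codes: certified results of slides are r.e.

All fields of `Res` except `hom` are bounded quantifiers over primitive recursive predicates (`cb_*`, `dig_p`) and `Par`, `Par2` and their negations (r.e. by CPAR, CPARB; an implication `Par2 → ...` is `¬ Par2 ∨ ...`). Use `re_forall_lt`, `re_bex`, `re_and`, `re_or`, `re_of_prim`, `re_comp`. `φ₁ m = dig nA F m`. Recommended: one lemma for every field. In `Y = dec ((nI, nP, m), w)` the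
fields are `cb_*` with `f = fun x => ((x.1.1.1, x.1.1.2.1, x.2.1.1), x.2.1.2)`.
-/

set_option autoImplicit false

namespace LatF

open LatIso LatN

/-! ### numerical functions -/

private def rO (x : Code) (a : ℕ) : ℕ := ((dec x).o (fm x.1.2.2 a) : ℕ)
private def rT (x : Code) (a : ℕ) : ℕ := ((dec x).t (fm x.1.2.2 a) : ℕ)
private def rE (x : Code) (a : ℕ) : ℕ := ((dec x).e (fm x.1.2.1 a) : ℕ)
private def rI (x : Code) (a : ℕ) : ℕ := ((dec x).i (fm x.1.2.2 a) : ℕ)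
private def rTy (x : Code) (a : ℕ) : ℕ := ((dec x).ty (fm x.1.2.2 a) : ℕ)
private def rPm (x : Code) (a k : ℕ) : ℕ := ((dec x).pm (fm x.1.2.2 a) (fm x.1.1 k) : ℕ)
private def rMl (x : Code) (a b : ℕ) : ℕ := ((dec x).ml (fm x.1.2.2 a) (fm x.1.2.2 b) : ℕ)
private def rMv (x : Code) (a : ℕ) : Prop := (dec x).mv (fm x.1.2.2 a)
private def rLc (x : Code) (a b : ℕ) : Prop := (dec x).lc (fm x.1.2.2 a) (fm x.1.2.2 b)
private def rD (n w k : ℕ) : ℕ := ((dig n w k : Fin (n + 1)) : ℕ)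
private def rF (n k : ℕ) : ℕ := ((fm n k : Fin (n + 1)) : ℕ)
private def rPar (x : Code) (a b : ℕ) : Prop := Par (dec x) (fm x.1.2.2 a) (fm x.1.2.2 b)
private def rNPar (x : Code) (a b : ℕ) : Prop := ¬ Par (dec x) (fm x.1.2.2 a) (fm x.1.2.2 b)
private def rPar2 (x : Code) (a b c d : ℕ) : Prop :=
  Par2 (dec x) (fm x.1.2.2 a) (fm x.1.2.2 b) (fm x.1.2.2 c) (fm x.1.2.2 d)
private def rNPar2 (x : Code) (a b c d : ℕ) : Prop :=
  ¬ Par2 (dec x) (fm x.1.2.2 a) (fm x.1.2.2 b) (fm x.1.2.2 c) (fm x.1.2.2 d)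

section

variable {α : Type} [Primcodable α] {f : α → Code} {a b c d : α → ℕ}

private theorem rO_p (hf : Primrec f) (ha : Primrec a) : Primrec fun x => rO (f x) (a x) :=
  cb_o hf ha
private theorem rT_p (hf : Primrec f) (ha : Primrec a) : Primrec fun x => rT (f x) (a x) :=
  cb_t hf ha
private theorem rE_p (hf : Primrec f) (ha : Primrec a) : Primrec fun x => rE (f x) (a x) :=
  cb_e hf ha
private theorem rI_p (hf : Primrec f) (ha : Primrec a) : Primrec fun x => rI (f x) (a x) :=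
  cb_i hf ha
private theorem rTy_p (hf : Primrec f) (ha : Primrec a) : Primrec fun x => rTy (f x) (a x) :=
  cb_ty hf ha
private theorem rPm_p (hf : Primrec f) (ha : Primrec a) (hb : Primrec b) :
    Primrec fun x => rPm (f x) (a x) (b x) := cb_pm hf ha hb
private theorem rMl_p (hf : Primrec f) (ha : Primrec a) (hb : Primrec b) :
    Primrec fun x => rMl (f x) (a x) (b x) := cb_ml hf ha hb
private theorem rMv_p (hf : Primrec f) (ha : Primrec a) :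
    PrimrecPred fun x => rMv (f x) (a x) := cb_mv hf ha
private theorem rLc_p (hf : Primrec f) (ha : Primrec a) (hb : Primrec b) :
    PrimrecPred fun x => rLc (f x) (a x) (b x) := cb_lc hf ha hb
private theorem rD_p (ha : Primrec a) (hb : Primrec b) (hc : Primrec c) :
    Primrec fun x => rD (a x) (b x) (c x) := dig_p ha hb hc
private theorem rF_p (ha : Primrec a) (hb : Primrec b) :
    Primrec fun x => rF (a x) (b x) := fm_p ha hb
private theorem rPar_re (hf : Primrec f) (ha : Primrec a) (hb : Primrec b) :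
    REPred fun x => rPar (f x) (a x) (b x) :=
  re_comp cpar_re (f := fun x => (f x, a x, b x)) (hf.pair (ha.pair hb)).to_comp
private theorem rNPar_re (hf : Primrec f) (ha : Primrec a) (hb : Primrec b) :
    REPred fun x => rNPar (f x) (a x) (b x) :=
  re_comp cnpar_re (f := fun x => (f x, a x, b x)) (hf.pair (ha.pair hb)).to_comp
private theorem rPar2_re (hf : Primrec f) (ha : Primrec a) (hb : Primrec b) (hc : Primrec c)
    (hd : Primrec d) : REPred fun x => rPar2 (f x) (a x) (b x) (c x) (d x) :=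
  re_comp cpar2_re (f := fun x => (f x, (a x, b x), (c x, d x)))
    (hf.pair ((ha.pair hb).pair (hc.pair hd))).to_comp
private theorem rNPar2_re (hf : Primrec f) (ha : Primrec a) (hb : Primrec b) (hc : Primrec c)
    (hd : Primrec d) : REPred fun x => rNPar2 (f x) (a x) (b x) (c x) (d x) :=
  re_comp cnpar2_re (f := fun x => (f x, (a x, b x), (c x, d x)))
    (hf.pair ((ha.pair hb).pair (hc.pair hd))).to_comp

end

private abbrev Inp : Type := Code × ((ℕ × ℕ) × (ℕ × ℕ)) × (ℕ × ℕ)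

/-- the second code -/
private def cY (x : Inp) : Code := ((x.1.1.1, x.1.1.2.1, x.2.1.1.1), x.2.1.1.2)

private theorem cY_p {α : Type} [Primcodable α] {g : α → Inp} (hg : Primrec g) :
    Primrec fun x => cY (g x) := by
  have h1 : Primrec fun x => (g x).1 := Primrec.fst.comp hg
  have h2 : Primrec fun x => (g x).2 := Primrec.snd.comp hg
  have h3 : Primrec fun x => (g x).1.1 := Primrec.fst.comp h1
  have h4 : Primrec fun x => (g x).2.1.1 := Primrec.fst.comp (Primrec.fst.comp h2)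
  exact ((Primrec.fst.comp h3).pair ((Primrec.fst.comp (Primrec.snd.comp h3)).pair
    (Primrec.fst.comp h4))).pair (Primrec.snd.comp h4)

/-- the fields without `Par`, `Par2` -/
private def R1 (x : Inp) : Prop :=
  (∀ k < x.2.1.1.1 + 1, rO x.1 (rD x.1.1.2.2 x.2.2.1 (rF x.2.1.1.1 k)) =
    rO (cY x) (rF x.2.1.1.1 k)) ∧
  (∀ k < x.2.1.1.1 + 1, rO x.1 (rD x.1.1.2.2 x.2.2.2 (rF x.2.1.1.1 k)) =
    rT x.1 (rD x.1.1.2.2 x.2.2.1 (rF x.2.1.1.1 k))) ∧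
  (∀ k < x.2.1.1.1 + 1, rT x.1 (rD x.1.1.2.2 x.2.2.2 (rF x.2.1.1.1 k)) =
    rT (cY x) (rF x.2.1.1.1 k)) ∧
  (∀ k < x.2.1.1.1 + 1, ∀ l < x.1.1.1 + 1, rPm (cY x) (rF x.2.1.1.1 k) (rF x.1.1.1 l) =
    rPm x.1 (rD x.1.1.2.2 x.2.2.2 (rF x.2.1.1.1 k)) (rPm x.1
      (rD x.1.1.2.2 x.2.2.1 (rF x.2.1.1.1 k)) (rF x.1.1.1 l))) ∧
  (∀ k < x.2.1.1.1 + 1, (rMv (cY x) (rF x.2.1.1.1 k) ↔
    rMv x.1 (rD x.1.1.2.2 x.2.2.1 (rF x.2.1.1.1 k)))) ∧
  (∀ k < x.2.1.1.1 + 1, rMv (cY x) (rF x.2.1.1.1 k) → rTy (cY x) (rF x.2.1.1.1 k) =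
    rTy x.1 (rD x.1.1.2.2 x.2.2.1 (rF x.2.1.1.1 k))) ∧
  (∀ k < x.2.1.1.1 + 1, ∀ l < x.2.1.1.1 + 1,
    rD x.1.1.2.2 x.2.2.1 (rF x.2.1.1.1 k) = rD x.1.1.2.2 x.2.2.1 (rF x.2.1.1.1 l) →
    rD x.1.1.2.2 x.2.2.2 (rF x.2.1.1.1 k) = rD x.1.1.2.2 x.2.2.2 (rF x.2.1.1.1 l) →
    rF x.2.1.1.1 k = rF x.2.1.1.1 l)

private theorem R1_p : REPred R1 := by
  apply re_of_prim
  unfold R1
  (repeat' (with_reducible first
    | assumption
    | exact LatIso.CB.p_id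
    | exact Primrec.const _
    | apply rPar_re
    | apply rNPar_re
    | apply rPar2_re
    | apply rNPar2_re
    | apply re_forall_lt
    | apply re_and
    | apply re_or
    | apply re_of_prim
    | apply cY_p
    | apply rO_p
    | apply rT_p
    | apply rE_p
    | apply rI_p
    | apply rTy_p
    | apply rPm_p
    | apply rMl_p
    | apply rD_p
    | apply rF_p
    | apply rMv_p
    | apply rLc_p
    | apply LatIso.CB.p_fst
    | apply LatIso.CB.p_snd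
    | apply LatIso.CB.p_pair
    | apply LatIso.CB.p_add
    | apply LatIso.CB.p_mod
    | apply LatIso.CB.pp_all
    | apply LatIso.CB.pp_ex
    | apply LatIso.CB.pp_and
    | apply LatIso.CB.pp_or
    | apply LatIso.CB.pp_not
    | apply LatIso.CB.pp_iff
    | apply LatIso.CB.pp_imp
    | apply LatIso.CB.pp_eq))

private theorem R1_iff (x : Inp) : R1 x ↔
    (∀ m : Fin (x.2.1.1.1 + 1), (dec x.1).o (dig x.1.1.2.2 x.2.2.1 m) = (dec (cY x)).o m) ∧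
    (∀ m : Fin (x.2.1.1.1 + 1), (dec x.1).o (dig x.1.1.2.2 x.2.2.2 m) =
      (dec x.1).t (dig x.1.1.2.2 x.2.2.1 m)) ∧
    (∀ m : Fin (x.2.1.1.1 + 1), (dec x.1).t (dig x.1.1.2.2 x.2.2.2 m) = (dec (cY x)).t m) ∧
    (∀ (m : Fin (x.2.1.1.1 + 1)) (k : Fin (x.1.1.1 + 1)), (dec (cY x)).pm m k =
      (dec x.1).pm (dig x.1.1.2.2 x.2.2.2 m) ((dec x.1).pm (dig x.1.1.2.2 x.2.2.1 m) k)) ∧
    (∀ m : Fin (x.2.1.1.1 + 1), (dec (cY x)).mv m ↔ (dec x.1).mv (dig x.1.1.2.2 x.2.2.1 m)) ∧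
    (∀ m : Fin (x.2.1.1.1 + 1), (dec (cY x)).mv m → (dec (cY x)).ty m =
      (dec x.1).ty (dig x.1.1.2.2 x.2.2.1 m)) ∧
    (∀ m m' : Fin (x.2.1.1.1 + 1), (dig x.1.1.2.2 x.2.2.1 m : Fin (x.1.1.2.2 + 1)) =
      dig x.1.1.2.2 x.2.2.1 m' → (dig x.1.1.2.2 x.2.2.2 m : Fin (x.1.1.2.2 + 1)) =
      dig x.1.1.2.2 x.2.2.2 m' → m = m') := by
  unfold R1
  simp only [rO, rT, rE, rI, rTy, rPm, rMl, rMv, rLc, rD, rF, cY, fm_surj, fm_all, fm_ex,
    Fin.ext_iff]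

/-- the fields with `Par`, `Par2` -/
private def R2 (x : Inp) : Prop :=
  (∀ k < x.2.1.1.1 + 1,
    (rNPar x.1 x.2.1.2.1 (rD x.1.1.2.2 x.2.2.1 (rF x.2.1.1.1 k)) ∧
      rNPar x.1 x.2.1.2.1 (rI x.1 (rD x.1.1.2.2 x.2.2.1 (rF x.2.1.1.1 k))) ∧
      rD x.1.1.2.2 x.2.2.2 (rF x.2.1.1.1 k) =
        rE x.1 (rT x.1 (rD x.1.1.2.2 x.2.2.1 (rF x.2.1.1.1 k)))) ∨
    rPar2 x.1 x.2.1.2.1 x.2.1.2.2 (rD x.1.1.2.2 x.2.2.2 (rF x.2.1.1.1 k))
      (rI x.1 (rD x.1.1.2.2 x.2.2.1 (rF x.2.1.1.1 k))) ∨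
    rPar2 x.1 x.2.1.2.1 x.2.1.2.2 (rI x.1 (rD x.1.1.2.2 x.2.2.1 (rF x.2.1.1.1 k)))
      (rD x.1.1.2.2 x.2.2.2 (rF x.2.1.1.1 k))) ∧
  (∀ c < x.1.1.2.2 + 1, rPar x.1 x.2.1.2.1 (rF x.1.1.2.2 c) ∨
    rPar x.1 x.2.1.2.1 (rI x.1 (rF x.1.1.2.2 c)) ∨
    ∃ k < x.2.1.1.1 + 1, rD x.1.1.2.2 x.2.2.1 (rF x.2.1.1.1 k) = rF x.1.1.2.2 c ∧
      rD x.1.1.2.2 x.2.2.2 (rF x.2.1.1.1 k) = rE x.1 (rT x.1 (rF x.1.1.2.2 c))) ∧
  (∀ a < x.1.1.2.2 + 1, ∀ b < x.1.1.2.2 + 1,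
    rNPar2 x.1 x.2.1.2.1 x.2.1.2.2 (rF x.1.1.2.2 a) (rF x.1.1.2.2 b) ∨
    ∃ k < x.2.1.1.1 + 1, ∃ l < x.1.1.2.2 + 1, rLc x.1 (rF x.1.1.2.2 l) (rF x.1.1.2.2 a) ∧
      rD x.1.1.2.2 x.2.2.1 (rF x.2.1.1.1 k) =
        rI x.1 (rMl x.1 (rF x.1.1.2.2 l) (rF x.1.1.2.2 b)) ∧
      rD x.1.1.2.2 x.2.2.2 (rF x.2.1.1.1 k) = rMl x.1 (rF x.1.1.2.2 l) (rF x.1.1.2.2 a)) ∧
  (∀ k < x.2.1.1.1 + 1, ∀ l < x.2.1.1.1 + 1, ∀ u < x.1.1.2.2 + 1,
    rNPar2 x.1 x.2.1.2.1 x.2.1.2.2 (rD x.1.1.2.2 x.2.2.2 (rF x.2.1.1.1 k))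
      (rI x.1 (rD x.1.1.2.2 x.2.2.1 (rF x.2.1.1.1 k))) ∨
    (rLc x.1 (rF x.1.1.2.2 u) (rD x.1.1.2.2 x.2.2.2 (rF x.2.1.1.1 k)) →
      rD x.1.1.2.2 x.2.2.1 (rF x.2.1.1.1 l) = rI x.1 (rMl x.1 (rF x.1.1.2.2 u)
        (rI x.1 (rD x.1.1.2.2 x.2.2.1 (rF x.2.1.1.1 k)))) →
      rD x.1.1.2.2 x.2.2.2 (rF x.2.1.1.1 l) = rMl x.1 (rF x.1.1.2.2 u)
        (rD x.1.1.2.2 x.2.2.2 (rF x.2.1.1.1 k)) →
      rF x.2.1.1.1 k = rF x.2.1.1.1 l))

private theorem R2_p : REPred R2 := by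
  unfold R2
  (repeat' (with_reducible first
    | assumption
    | exact LatIso.CB.p_id
    | exact Primrec.const _
    | apply rPar_re
    | apply rNPar_re
    | apply rPar2_re
    | apply rNPar2_re
    | apply re_forall_lt
    | apply re_and
    | apply re_or
    | apply re_of_prim
    | apply cY_p
    | apply rO_p
    | apply rT_p
    | apply rE_p
    | apply rI_p
    | apply rTy_p
    | apply rPm_p
    | apply rMl_p
    | apply rD_p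
    | apply rF_p
    | apply rMv_p
    | apply rLc_p
    | apply LatIso.CB.p_fst
    | apply LatIso.CB.p_snd
    | apply LatIso.CB.p_pair
    | apply LatIso.CB.p_add
    | apply LatIso.CB.p_mod
    | apply LatIso.CB.pp_all
    | apply LatIso.CB.pp_ex
    | apply LatIso.CB.pp_and
    | apply LatIso.CB.pp_or
    | apply LatIso.CB.pp_not
    | apply LatIso.CB.pp_iff
    | apply LatIso.CB.pp_imp
    | apply LatIso.CB.pp_eq))

private theorem R2_iff (x : Inp) : R2 x ↔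
    (∀ m : Fin (x.2.1.1.1 + 1),
      (¬ Par (dec x.1) (fm x.1.1.2.2 x.2.1.2.1) (dig x.1.1.2.2 x.2.2.1 m) ∧
        ¬ Par (dec x.1) (fm x.1.1.2.2 x.2.1.2.1) ((dec x.1).i (dig x.1.1.2.2 x.2.2.1 m)) ∧
        (dig x.1.1.2.2 x.2.2.2 m : Fin (x.1.1.2.2 + 1)) =
          (dec x.1).e ((dec x.1).t (dig x.1.1.2.2 x.2.2.1 m))) ∨
      Par2 (dec x.1) (fm x.1.1.2.2 x.2.1.2.1) (fm x.1.1.2.2 x.2.1.2.2)
        (dig x.1.1.2.2 x.2.2.2 m) ((dec x.1).i (dig x.1.1.2.2 x.2.2.1 m)) ∨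
      Par2 (dec x.1) (fm x.1.1.2.2 x.2.1.2.1) (fm x.1.1.2.2 x.2.1.2.2)
        ((dec x.1).i (dig x.1.1.2.2 x.2.2.1 m)) (dig x.1.1.2.2 x.2.2.2 m)) ∧
    (∀ c : Fin (x.1.1.2.2 + 1), Par (dec x.1) (fm x.1.1.2.2 x.2.1.2.1) c ∨
      Par (dec x.1) (fm x.1.1.2.2 x.2.1.2.1) ((dec x.1).i c) ∨
      ∃ m : Fin (x.2.1.1.1 + 1), dig x.1.1.2.2 x.2.2.1 m = c ∧
        dig x.1.1.2.2 x.2.2.2 m = (dec x.1).e ((dec x.1).t c)) ∧
    (∀ a' b' : Fin (x.1.1.2.2 + 1),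
      (¬ Par2 (dec x.1) (fm x.1.1.2.2 x.2.1.2.1) (fm x.1.1.2.2 x.2.1.2.2) a' b') ∨
      ∃ (m : Fin (x.2.1.1.1 + 1)) (s : Fin (x.1.1.2.2 + 1)), (dec x.1).lc s a' ∧
        dig x.1.1.2.2 x.2.2.1 m = (dec x.1).i ((dec x.1).ml s b') ∧
        dig x.1.1.2.2 x.2.2.2 m = (dec x.1).ml s a') ∧
    (∀ (m m' : Fin (x.2.1.1.1 + 1)) (s : Fin (x.1.1.2.2 + 1)),
      (¬ Par2 (dec x.1) (fm x.1.1.2.2 x.2.1.2.1) (fm x.1.1.2.2 x.2.1.2.2)
        (dig x.1.1.2.2 x.2.2.2 m) ((dec x.1).i (dig x.1.1.2.2 x.2.2.1 m))) ∨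
      ((dec x.1).lc s (dig x.1.1.2.2 x.2.2.2 m) →
        dig x.1.1.2.2 x.2.2.1 m' = (dec x.1).i ((dec x.1).ml s
          ((dec x.1).i (dig x.1.1.2.2 x.2.2.1 m))) →
        dig x.1.1.2.2 x.2.2.2 m' = (dec x.1).ml s (dig x.1.1.2.2 x.2.2.2 m) → m = m')) := by
  unfold R2
  simp only [rO, rT, rE, rI, rTy, rPm, rMl, rMv, rLc, rD, rF, rPar, rNPar, rPar2, rNPar2,
    fm_surj, fm_all, fm_ex, Fin.ext_iff]

theorem cres_re : REPred fun x : Code × ((ℕ × ℕ) × (ℕ × ℕ)) × (ℕ × ℕ) =>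
    Res (dec x.1) (dec ((x.1.1.1, x.1.1.2.1, x.2.1.1.1), x.2.1.1.2))
      (fm x.1.1.2.2 x.2.1.2.1) (fm x.1.1.2.2 x.2.1.2.2)
      (fun m => dig x.1.1.2.2 x.2.2.1 m) (fun m => dig x.1.1.2.2 x.2.2.2 m) := by
  have hv : REPred fun x : Inp => Valid (dec (cY x)) :=
    re_of_prim (cvalid_p.comp (cY_p Primrec.id))
  have hh := re_comp chom_re (f := fun x : Inp => (x.1, x.2.1.1, x.2.2))
    (Primrec.fst.pair ((Primrec.fst.comp (Primrec.fst.comp Primrec.snd)).pair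
      (Primrec.snd.comp Primrec.snd))).to_comp
  refine (re_and hv (re_and R1_p (re_and R2_p hh))).of_eq ?_
  intro x
  rw [R1_iff, R2_iff]
  constructor
  · rintro ⟨v, ⟨o1, o2, t2, pm, mv, ty, inj0⟩, ⟨kind, old, new, inj1⟩, hom⟩
    exact
      { valid := v
        o₁ := o1
        o₂ := o2
        t₂ := t2
        pm := pm
        mv := mv
        ty := ty
        kind := kind
        old := fun c h1 h2 => ((old c).resolve_left h1).resolve_left h2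
        new := fun a' b' h => (new a' b').resolve_left (not_not_intro h)
        inj₀ := inj0
        inj₁ := fun m m' s h => (inj1 m m' s).resolve_left (not_not_intro h)
        hom := hom }
  · intro h
    refine ⟨h.valid, ⟨h.o₁, h.o₂, h.t₂, h.pm, h.mv, h.ty, h.inj₀⟩, ⟨h.kind, ?_, ?_, ?_⟩, h.hom⟩
    · intro c
      by_cases h1 : Par (dec x.1) (fm x.1.1.2.2 x.2.1.2.1) c
      · exact Or.inl h1
      · by_cases h2 : Par (dec x.1) (fm x.1.1.2.2 x.2.1.2.1) ((dec x.1).i c)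
        · exact Or.inr (Or.inl h2)
        · exact Or.inr (Or.inr (h.old c h1 h2))
    · intro a' b'
      by_cases h1 : Par2 (dec x.1) (fm x.1.1.2.2 x.2.1.2.1) (fm x.1.1.2.2 x.2.1.2.2) a' b'
      · exact Or.inr (h.new a' b' h1)
      · exact Or.inl h1
    · intro m m' s
      by_cases h1 : Par2 (dec x.1) (fm x.1.1.2.2 x.2.1.2.1) (fm x.1.1.2.2 x.2.1.2.2)
          (dig x.1.1.2.2 x.2.2.2 m) ((dec x.1).i (dig x.1.1.2.2 x.2.2.1 m))
      · exact Or.inr (h.inj₁ m m' s h1)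
      · exact Or.inl h1

end LatF
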