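import Pool.Agent.Lib.MP_32d917_al.FDefs
import Pool.Agent.Lib.MP_32d917_al.F.CRES
import Pool.Agent.Lib.MP_32d917_al.F.CA

/-!
# codes: closed lists are r.e.

`Closed l`: for all `x ∈ l` (`re_forall_mem`), all `a, b < nA + 1` (`fm_all`, `re_forall_lt`): `¬ Legal` or there are numbers `m, w, F₁, F₂` with `((nI, nP, m), w) ∈ l` (primitive recursive) and `cres_re` (tables by `dig_surj`). `¬ Legal X a b` is the disjunction: `¬ mv a`, `¬ mv b`, `o a ≠ o b`, `ty a ≠ ty b` (primitive recursive), `Par X a b`, `Par X a (i b)` (cpar_re), or there is `b'` with `Par2 X a b a b'`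
(cpar2_re) and `¬ eqv b b'` (primitive recursive).
-/

set_option autoImplicit false

namespace LatF

open LatIso LatN

section

private theorem cclo_or {α : Type} [Primcodable α] {p q : α → Prop} (hp : REPred p)
    (hq : REPred q) : REPred fun x => p x ∨ q x := re_or hp hq

private theorem cclo_nlegal (x : Code) (a b : Fin (x.1.2.2 + 1)) :
    (((((((¬ (dec x).mv a) ∨ (¬ (dec x).mv b)) ∨ (¬ (dec x).o a = (dec x).o b)) ∨
      (¬ (dec x).ty a = (dec x).ty b)) ∨ Par (dec x) a b) ∨ Par (dec x) a ((dec x).i b)) ∨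
      ∃ c : ℕ, Par2 (dec x) a b a (fm x.1.2.2 c) ∧ ¬ (dec x).eqv b (fm x.1.2.2 c)) ↔
    ¬ Legal (dec x) a b := by
  classical
  constructor
  · rintro ((((((h | h) | h) | h) | h) | h) | ⟨c, h1, h2⟩) hL
    · exact h hL.ma
    · exact h hL.mb
    · exact h hL.o
    · exact h hL.ty
    · exact hL.n1 h
    · exact hL.n2 h
    · exact h2 (hL.uniq _ h1)
  · intro h
    by_contra hc
    push Not at hc
    obtain ⟨⟨⟨⟨⟨⟨h1, h2⟩, h3⟩, h4⟩, h5⟩, h6⟩, h7⟩ := hc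
    refine h ⟨h1, h2, h3, h4, h5, h6, ?_⟩
    intro b' hb'
    have h8 := h7 (b' : ℕ)
    rw [fm_surj] at h8
    exact h8 hb'

private theorem cclo_h1 : REPred fun x : Code × ℕ × ℕ => ¬ (dec x.1).mv (fm x.1.1.2.2 x.2.1) :=
  re_of_prim (LatIso.CB.pp_not (cb_mv (f := fun x : Code × ℕ × ℕ => x.1) Primrec.fst
    (Primrec.fst.comp Primrec.snd)))

private theorem cclo_h2 : REPred fun x : Code × ℕ × ℕ => ¬ (dec x.1).mv (fm x.1.1.2.2 x.2.2) :=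
  re_of_prim (LatIso.CB.pp_not (cb_mv (f := fun x : Code × ℕ × ℕ => x.1) Primrec.fst
    (Primrec.snd.comp Primrec.snd)))

private theorem cclo_h3 : REPred fun x : Code × ℕ × ℕ =>
    ¬ (dec x.1).o (fm x.1.1.2.2 x.2.1) = (dec x.1).o (fm x.1.1.2.2 x.2.2) := by
  have hf : Primrec fun x : Code × ℕ × ℕ => x.1 := Primrec.fst
  have ha : Primrec fun x : Code × ℕ × ℕ => x.2.1 := Primrec.fst.comp Primrec.snd
  have hb : Primrec fun x : Code × ℕ × ℕ => x.2.2 := Primrec.snd.comp Primrec.snd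
  have h := re_of_prim (LatIso.CB.pp_not (LatIso.CB.pp_eq (cb_o hf ha) (cb_o hf hb)))
  refine h.of_eq fun x => ?_
  rw [← Fin.ext_iff]

private theorem cclo_h4 : REPred fun x : Code × ℕ × ℕ =>
    ¬ (dec x.1).ty (fm x.1.1.2.2 x.2.1) = (dec x.1).ty (fm x.1.1.2.2 x.2.2) := by
  have hf : Primrec fun x : Code × ℕ × ℕ => x.1 := Primrec.fst
  have ha : Primrec fun x : Code × ℕ × ℕ => x.2.1 := Primrec.fst.comp Primrec.snd
  have hb : Primrec fun x : Code × ℕ × ℕ => x.2.2 := Primrec.snd.comp Primrec.snd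
  have h := re_of_prim (LatIso.CB.pp_not (LatIso.CB.pp_eq (cb_ty hf ha) (cb_ty hf hb)))
  refine h.of_eq fun x => ?_
  rw [← Fin.ext_iff]

private def ccloE6 (x : Code × ℕ × ℕ) : Code × ℕ × ℕ :=
  (x.1, x.2.1, ((dec x.1).i (fm x.1.1.2.2 x.2.2) : ℕ))

private theorem ccloE6_p : Primrec ccloE6 := by
  have hf : Primrec fun x : Code × ℕ × ℕ => x.1 := Primrec.fst
  have ha : Primrec fun x : Code × ℕ × ℕ => x.2.1 := Primrec.fst.comp Primrec.snd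
  have hb : Primrec fun x : Code × ℕ × ℕ => x.2.2 := Primrec.snd.comp Primrec.snd
  exact Primrec.pair hf (Primrec.pair ha (cb_i hf hb))

private theorem cclo_h6 : REPred fun x : Code × ℕ × ℕ =>
    Par (dec x.1) (fm x.1.1.2.2 x.2.1) ((dec x.1).i (fm x.1.1.2.2 x.2.2)) := by
  have h := re_comp cpar_re ccloE6_p.to_comp
  refine h.of_eq fun x => ?_
  have h2 := fm_surj x.1.1.2.2 ((dec x.1).i (fm x.1.1.2.2 x.2.2))
  unfold ccloE6
  dsimp only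
  rw [h2]

private def ccloE7 (y : (Code × ℕ × ℕ) × ℕ) : Code × (ℕ × ℕ) × (ℕ × ℕ) :=
  (y.1.1, (y.1.2.1, y.1.2.2), (y.1.2.1, y.2))

private theorem ccloE7_p : Primrec ccloE7 := by
  have hf : Primrec fun y : (Code × ℕ × ℕ) × ℕ => y.1.1 := Primrec.fst.comp Primrec.fst
  have ha : Primrec fun y : (Code × ℕ × ℕ) × ℕ => y.1.2.1 :=
    Primrec.fst.comp (Primrec.snd.comp Primrec.fst)
  have hb : Primrec fun y : (Code × ℕ × ℕ) × ℕ => y.1.2.2 :=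
    Primrec.snd.comp (Primrec.snd.comp Primrec.fst)
  exact Primrec.pair hf (Primrec.pair (Primrec.pair ha hb) (Primrec.pair ha Primrec.snd))

private theorem cclo_g1 : REPred fun y : (Code × ℕ × ℕ) × ℕ =>
    Par2 (dec y.1.1) (fm y.1.1.1.2.2 y.1.2.1) (fm y.1.1.1.2.2 y.1.2.2)
      (fm y.1.1.1.2.2 y.1.2.1) (fm y.1.1.1.2.2 y.2) := by
  have h := re_comp cpar2_re ccloE7_p.to_comp
  exact h.of_eq fun x => by unfold ccloE7; exact Iff.rfl

private theorem cclo_g2 : REPred fun y : (Code × ℕ × ℕ) × ℕ =>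
    ¬ (dec y.1.1).eqv (fm y.1.1.1.2.2 y.1.2.2) (fm y.1.1.1.2.2 y.2) := by
  have hf : Primrec fun y : (Code × ℕ × ℕ) × ℕ => y.1.1 := Primrec.fst.comp Primrec.fst
  have hb : Primrec fun y : (Code × ℕ × ℕ) × ℕ => y.1.2.2 :=
    Primrec.snd.comp (Primrec.snd.comp Primrec.fst)
  exact re_of_prim (LatIso.CB.pp_not (cb_eqv hf hb Primrec.snd))

private theorem cclo_h7 : REPred fun x : Code × ℕ × ℕ => ∃ c : ℕ,
    Par2 (dec x.1) (fm x.1.1.2.2 x.2.1) (fm x.1.1.2.2 x.2.2) (fm x.1.1.2.2 x.2.1)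
      (fm x.1.1.2.2 c) ∧ ¬ (dec x.1).eqv (fm x.1.1.2.2 x.2.2) (fm x.1.1.2.2 c) :=
  re_exists (p := fun (x : Code × ℕ × ℕ) (c : ℕ) =>
    Par2 (dec x.1) (fm x.1.1.2.2 x.2.1) (fm x.1.1.2.2 x.2.2) (fm x.1.1.2.2 x.2.1)
      (fm x.1.1.2.2 c) ∧ ¬ (dec x.1).eqv (fm x.1.1.2.2 x.2.2) (fm x.1.1.2.2 c))
    (re_and cclo_g1 cclo_g2)

private theorem cclo_nlegal_re : REPred fun x : Code × ℕ × ℕ =>
    ¬ Legal (dec x.1) (fm x.1.1.2.2 x.2.1) (fm x.1.1.2.2 x.2.2) := by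
  have h8 := re_or (re_or (re_or (re_or (re_or (re_or cclo_h1 cclo_h2) cclo_h3) cclo_h4)
    cpar_re) cclo_h6) cclo_h7
  exact h8.of_eq fun x => cclo_nlegal x.1 _ _

private theorem cclo_mem_p {γ : Type} [Primcodable γ] {l : γ → List Code} {e : γ → Code}
    (hl : Primrec l) (he : Primrec e) : PrimrecPred fun x => e x ∈ l x := by
  have h1 : PrimrecRel (fun (L : List Code) (b : Code) => ∃ a ∈ L, a = b) :=
    (Primrec.eq (α := Code)).exists_mem_list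
  refine (h1.comp hl he).of_eq fun x => ?_
  simp

/-- the result of the slide is in the list -/
private def ccloS (y : ((List Code × Code) × ℕ) × ℕ) : Prop :=
  ∃ z : (ℕ × ℕ) × (ℕ × ℕ),
    ((y.1.1.2.1.1, y.1.1.2.1.2.1, z.1.1), z.1.2) ∈ y.1.1.1 ∧
    Res (dec y.1.1.2) (dec ((y.1.1.2.1.1, y.1.1.2.1.2.1, z.1.1), z.1.2))
      (fm y.1.1.2.1.2.2 y.1.2) (fm y.1.1.2.1.2.2 y.2)
      (fun m => dig y.1.1.2.1.2.2 z.2.1 m) (fun m => dig y.1.1.2.1.2.2 z.2.2 m)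

private theorem ccloS_re : REPred ccloS := by
  unfold ccloS
  refine re_exists (p := fun (y : ((List Code × Code) × ℕ) × ℕ) (z : (ℕ × ℕ) × (ℕ × ℕ)) =>
    ((y.1.1.2.1.1, y.1.1.2.1.2.1, z.1.1), z.1.2) ∈ y.1.1.1 ∧
    Res (dec y.1.1.2) (dec ((y.1.1.2.1.1, y.1.1.2.1.2.1, z.1.1), z.1.2))
      (fm y.1.1.2.1.2.2 y.1.2) (fm y.1.1.2.1.2.2 y.2)
      (fun m => dig y.1.1.2.1.2.2 z.2.1 m) (fun m => dig y.1.1.2.1.2.2 z.2.2 m)) ?_
  have hl : Primrec fun u : (((List Code × Code) × ℕ) × ℕ) × ((ℕ × ℕ) × (ℕ × ℕ)) =>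
      u.1.1.1.1 := Primrec.fst.comp (Primrec.fst.comp (Primrec.fst.comp Primrec.fst))
  have hx : Primrec fun u : (((List Code × Code) × ℕ) × ℕ) × ((ℕ × ℕ) × (ℕ × ℕ)) =>
      u.1.1.1.2 := Primrec.snd.comp (Primrec.fst.comp (Primrec.fst.comp Primrec.fst))
  have ha : Primrec fun u : (((List Code × Code) × ℕ) × ℕ) × ((ℕ × ℕ) × (ℕ × ℕ)) =>
      u.1.1.2 := Primrec.snd.comp (Primrec.fst.comp Primrec.fst)
  have hb : Primrec fun u : (((List Code × Code) × ℕ) × ℕ) × ((ℕ × ℕ) × (ℕ × ℕ)) =>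
      u.1.2 := Primrec.snd.comp Primrec.fst
  have hm : Primrec fun u : (((List Code × Code) × ℕ) × ℕ) × ((ℕ × ℕ) × (ℕ × ℕ)) =>
      u.2.1.1 := Primrec.fst.comp (Primrec.fst.comp Primrec.snd)
  have hw : Primrec fun u : (((List Code × Code) × ℕ) × ℕ) × ((ℕ × ℕ) × (ℕ × ℕ)) =>
      u.2.1.2 := Primrec.snd.comp (Primrec.fst.comp Primrec.snd)
  have hd : Primrec fun u : (((List Code × Code) × ℕ) × ℕ) × ((ℕ × ℕ) × (ℕ × ℕ)) =>
      u.2.2 := Primrec.snd.comp Primrec.snd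
  have hnI : Primrec fun u : (((List Code × Code) × ℕ) × ℕ) × ((ℕ × ℕ) × (ℕ × ℕ)) =>
      u.1.1.1.2.1.1 := Primrec.fst.comp (Primrec.fst.comp hx)
  have hnP : Primrec fun u : (((List Code × Code) × ℕ) × ℕ) × ((ℕ × ℕ) × (ℕ × ℕ)) =>
      u.1.1.1.2.1.2.1 := Primrec.fst.comp (Primrec.snd.comp (Primrec.fst.comp hx))
  have g1 : REPred fun u : (((List Code × Code) × ℕ) × ℕ) × ((ℕ × ℕ) × (ℕ × ℕ)) =>
      ((u.1.1.1.2.1.1, u.1.1.1.2.1.2.1, u.2.1.1), u.2.1.2) ∈ u.1.1.1.1 :=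
    re_of_prim (cclo_mem_p hl (Primrec.pair (Primrec.pair hnI (Primrec.pair hnP hm)) hw))
  have e : Primrec fun u : (((List Code × Code) × ℕ) × ℕ) × ((ℕ × ℕ) × (ℕ × ℕ)) =>
      ((u.1.1.1.2, ((u.2.1.1, u.2.1.2), (u.1.1.2, u.1.2)), u.2.2) :
        Code × ((ℕ × ℕ) × (ℕ × ℕ)) × (ℕ × ℕ)) :=
    Primrec.pair hx (Primrec.pair (Primrec.pair (Primrec.pair hm hw) (Primrec.pair ha hb)) hd)
  have g2 := re_comp cres_re e.to_comp
  exact re_and g1 g2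

private theorem cclo_iff (l : List Code) : (∀ x ∈ l, ∀ a < x.1.2.2 + 1, ∀ b < x.1.2.2 + 1,
    (¬ Legal (dec x) (fm x.1.2.2 a) (fm x.1.2.2 b)) ∨ ccloS (((l, x), a), b)) ↔ Closed l := by
  classical
  constructor
  · intro h x hx a b hL
    have h1 := h x hx a a.2 b b.2
    rw [fm_surj, fm_surj] at h1
    rcases h1 with h1 | ⟨z, h1, h2⟩
    · exact absurd hL h1
    · refine ⟨z.1.1, z.1.2, h1, (fun q : Fin (z.1.1 + 1) => dig x.1.2.2 z.2.1 q),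
        (fun q : Fin (z.1.1 + 1) => dig x.1.2.2 z.2.2 q), ?_⟩
      have h3 : Res (dec x) (dec ((x.1.1, x.1.2.1, z.1.1), z.1.2)) (fm x.1.2.2 a) (fm x.1.2.2 b)
        (fun m => dig x.1.2.2 z.2.1 m) (fun m => dig x.1.2.2 z.2.2 m) := h2
      rw [fm_surj, fm_surj] at h3
      exact h3
  · intro h x hx a _ b _
    by_cases hL : Legal (dec x) (fm x.1.2.2 a) (fm x.1.2.2 b)
    · right
      obtain ⟨m, w, h1, φ₁, φ₂, h2⟩ := h x hx _ _ hL
      obtain ⟨d₁, hd₁⟩ := dig_surj x.1.2.2 m φ₁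
      obtain ⟨d₂, hd₂⟩ := dig_surj x.1.2.2 m φ₂
      refine ⟨((m, w), (d₁, d₂)), h1, ?_⟩
      show Res (dec x) (dec ((x.1.1, x.1.2.1, m), w)) (fm x.1.2.2 a) (fm x.1.2.2 b)
        (fun q : Fin (m + 1) => dig x.1.2.2 d₁ q) (fun q : Fin (m + 1) => dig x.1.2.2 d₂ q)
      rw [hd₁, hd₂]
      exact h2
    · exact Or.inl hL

theorem cclosed_re : REPred Closed := by
  have h1 : REPred fun y : ((List Code × Code) × ℕ) × ℕ =>
      ¬ Legal (dec y.1.1.2) (fm y.1.1.2.1.2.2 y.1.2) (fm y.1.1.2.1.2.2 y.2) := by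
    have e : Primrec fun y : ((List Code × Code) × ℕ) × ℕ =>
        ((y.1.1.2, y.1.2, y.2) : Code × ℕ × ℕ) :=
      Primrec.pair (Primrec.snd.comp (Primrec.fst.comp Primrec.fst))
        (Primrec.pair (Primrec.snd.comp Primrec.fst) Primrec.snd)
    exact re_comp cclo_nlegal_re e.to_comp
  have h2 := re_or h1 ccloS_re
  have hn1 : Primrec fun y : (List Code × Code) × ℕ => y.1.2.1.2.2 + 1 :=
    Primrec.succ.comp (Primrec.snd.comp (Primrec.snd.comp (Primrec.fst.comp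
      (Primrec.snd.comp Primrec.fst))))
  have hn0 : Primrec fun y : List Code × Code => y.2.1.2.2 + 1 :=
    Primrec.succ.comp (Primrec.snd.comp (Primrec.snd.comp (Primrec.fst.comp Primrec.snd)))
  have h3 : REPred fun y : (List Code × Code) × ℕ => ∀ b < y.1.2.1.2.2 + 1,
      (¬ Legal (dec y.1.2) (fm y.1.2.1.2.2 y.2) (fm y.1.2.1.2.2 b)) ∨ ccloS (y, b) :=
    re_forall_lt (p := fun (y : (List Code × Code) × ℕ) (b : ℕ) =>
      (¬ Legal (dec y.1.2) (fm y.1.2.1.2.2 y.2) (fm y.1.2.1.2.2 b)) ∨ ccloS (y, b)) hn1 h2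
  have h4 : REPred fun y : List Code × Code => ∀ a < y.2.1.2.2 + 1, ∀ b < y.2.1.2.2 + 1,
      (¬ Legal (dec y.2) (fm y.2.1.2.2 a) (fm y.2.1.2.2 b)) ∨ ccloS ((y, a), b) :=
    re_forall_lt (p := fun (y : List Code × Code) (a : ℕ) => ∀ b < y.2.1.2.2 + 1,
      (¬ Legal (dec y.2) (fm y.2.1.2.2 a) (fm y.2.1.2.2 b)) ∨ ccloS ((y, a), b)) hn0 h3
  have h5 : REPred fun l : List Code => ∀ x ∈ l, ∀ a < x.1.2.2 + 1, ∀ b < x.1.2.2 + 1,
      (¬ Legal (dec x) (fm x.1.2.2 a) (fm x.1.2.2 b)) ∨ ccloS (((l, x), a), b) :=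
    re_forall_mem (p := fun (l : List Code) (x : Code) => ∀ a < x.1.2.2 + 1,
      ∀ b < x.1.2.2 + 1, (¬ Legal (dec x) (fm x.1.2.2 a) (fm x.1.2.2 b)) ∨
        ccloS (((l, x), a), b)) (f := fun l => l) Primrec.id h4
  exact h5.of_eq cclo_iff

end

end LatF
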