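import Pool.Agent.Lib.MP_32d917_al.FDefs
import Pool.Agent.Lib.MP_32d917_al.F.CB

/-!
# codes: spanning trees

As `nspan_p` in N/NCODE1 (bounded quantifier over `q`).
-/

set_option autoImplicit false

namespace LatF

open LatIso LatN

private def sO (x : Code) (a : ℕ) : ℕ := ((dec x).o (fm x.1.2.2 a) : ℕ)
private def sT (x : Code) (a : ℕ) : ℕ := ((dec x).t (fm x.1.2.2 a) : ℕ)
private def sD (n w k : ℕ) : ℕ := ((dig n w k : Fin (n + 1)) : ℕ)
private def sF (n k : ℕ) : ℕ := ((fm n k : Fin (n + 1)) : ℕ)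

section

variable {α : Type} [Primcodable α] {f : α → Code} {a b c : α → ℕ}

private theorem sO_p (hf : Primrec f) (ha : Primrec a) : Primrec fun x => sO (f x) (a x) :=
  cb_o hf ha
private theorem sT_p (hf : Primrec f) (ha : Primrec a) : Primrec fun x => sT (f x) (a x) :=
  cb_t hf ha
private theorem sD_p (ha : Primrec a) (hb : Primrec b) (hc : Primrec c) :
    Primrec fun x => sD (a x) (b x) (c x) := dig_p ha hb hc
private theorem sF_p (ha : Primrec a) (hb : Primrec b) :
    Primrec fun x => sF (a x) (b x) := fm_p ha hb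
private theorem sG_p {g : α → List ℕ} (hg : Primrec g) (ha : Primrec a) :
    Primrec fun x => (g x).getD (a x) 0 := (Primrec.list_getD 0).comp hg ha

end

/-- number version of `Span` -/
private def SpN (x : Code × ℕ × ℕ × List ℕ) : Prop :=
  ∀ q < x.1.1.2.1 + 1, ¬ sF x.1.1.2.1 q = sF x.1.1.2.1 x.2.1 →
    sT x.1 (sD x.1.1.2.2 x.2.2.1 (sF x.1.1.2.1 q)) = sF x.1.1.2.1 q ∧
      x.2.2.2.getD (sO x.1 (sD x.1.1.2.2 x.2.2.1 (sF x.1.1.2.1 q))) 0 <
        x.2.2.2.getD (sF x.1.1.2.1 q) 0

private theorem spN_p : PrimrecPred SpN := by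
  unfold SpN
  (repeat' (with_reducible first
    | assumption
    | exact LatIso.CB.p_id
    | exact Primrec.const _
    | apply sO_p
    | apply sT_p
    | apply sD_p
    | apply sF_p
    | apply sG_p
    | apply LatIso.CB.p_fst
    | apply LatIso.CB.p_snd
    | apply LatIso.CB.p_pair
    | apply LatIso.CB.p_add
    | apply LatIso.CB.pp_all
    | apply LatIso.CB.pp_ex
    | apply LatIso.CB.pp_and
    | apply LatIso.CB.pp_or
    | apply LatIso.CB.pp_not
    | apply LatIso.CB.pp_iff
    | apply LatIso.CB.pp_imp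
    | apply LatIso.CB.pp_eq
    | apply LatIso.CB.pp_lt))

theorem cspan_p : PrimrecPred (fun x : Code × ℕ × ℕ × List ℕ =>
    Span (dec x.1) (fm x.1.1.2.1 x.2.1) (fun q => dig x.1.1.2.2 x.2.2.1 q)
      (fun q => x.2.2.2.getD q 0)) := by
  refine PrimrecPred.of_eq spN_p ?_
  intro x
  unfold SpN Span
  simp only [sO, sT, sD, sF, fm_surj, fm_all, Fin.ext_iff, ne_eq]

end LatF
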