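import Pool.Agent.Lib.MP_32d917_al.FDefs
import Pool.Agent.Lib.MP_32d917_al.F.CVAL
import Pool.Agent.Lib.MP_32d917_al.F.CPAR
import Pool.Agent.Lib.MP_32d917_al.F.CSPAN
import Pool.Agent.Lib.MP_32d917_al.F.CA

/-!
# codes: goodness is r.e.

Conjunction of r.e. predicates (`re_and`): valid: `cvalid_p`; span: exists number for `p0`, table `d` (`dig_surj`), list `r` with `cspan_p` (see `nc4span_re`, `list_rank`); two: PrimrecPred (bounded quantifiers, `dir` = `o = q ∧ mv ∧ ty = k`); three: `re_forall_lt` for `q`, `k`, then exists (`re_bex` or `re_exists`) with `clab_re`; orient: exists a table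
`dig 1 T a` (`true` = 1) with a PrimrecPred condition (see `nc4_bool`); red: `re_forall_lt` for `a`: (not mv) or (exists a', c' with cpar_re ...) or (exists ...).
-/

set_option autoImplicit false

namespace LatF

open LatIso LatN

/-! ### numerical functions -/

private def gO (x : Code) (a : ℕ) : ℕ := ((dec x).o (fm x.1.2.2 a) : ℕ)
private def gI (x : Code) (a : ℕ) : ℕ := ((dec x).i (fm x.1.2.2 a) : ℕ)
private def gTy (x : Code) (a : ℕ) : ℕ := ((dec x).ty (fm x.1.2.2 a) : ℕ)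
private def gMl (x : Code) (a b : ℕ) : ℕ := ((dec x).ml (fm x.1.2.2 a) (fm x.1.2.2 b) : ℕ)
private def gMv (x : Code) (a : ℕ) : Prop := (dec x).mv (fm x.1.2.2 a)
private def gLc (x : Code) (a b : ℕ) : Prop := (dec x).lc (fm x.1.2.2 a) (fm x.1.2.2 b)
private def gSq (x : Code) (a b c d : ℕ) : Prop :=
  (dec x).sq (fm x.1.2.2 a) (fm x.1.2.2 b) (fm x.1.2.2 c) (fm x.1.2.2 d)
private def gEqv (x : Code) (a b : ℕ) : Prop := (dec x).eqv (fm x.1.2.2 a) (fm x.1.2.2 b)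
private def gF (n k : ℕ) : ℕ := ((fm n k : Fin (n + 1)) : ℕ)
private def gPar (x : Code) (a b : ℕ) : Prop := Par (dec x) (fm x.1.2.2 a) (fm x.1.2.2 b)
private def gLab (x : Code) (q k q' k' : ℕ) : Prop :=
  Lab (dec x) (fm x.1.2.1 q) (fm x.1.1 k) (fm x.1.2.1 q') (fm x.1.1 k')

section

variable {α : Type} [Primcodable α] {f : α → Code} {a b c d : α → ℕ}

private theorem gO_p (hf : Primrec f) (ha : Primrec a) : Primrec fun x => gO (f x) (a x) :=
  cb_o hf ha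
private theorem gI_p (hf : Primrec f) (ha : Primrec a) : Primrec fun x => gI (f x) (a x) :=
  cb_i hf ha
private theorem gTy_p (hf : Primrec f) (ha : Primrec a) : Primrec fun x => gTy (f x) (a x) :=
  cb_ty hf ha
private theorem gMl_p (hf : Primrec f) (ha : Primrec a) (hb : Primrec b) :
    Primrec fun x => gMl (f x) (a x) (b x) := cb_ml hf ha hb
private theorem gMv_p (hf : Primrec f) (ha : Primrec a) :
    PrimrecPred fun x => gMv (f x) (a x) := cb_mv hf ha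
private theorem gLc_p (hf : Primrec f) (ha : Primrec a) (hb : Primrec b) :
    PrimrecPred fun x => gLc (f x) (a x) (b x) := cb_lc hf ha hb
private theorem gSq_p (hf : Primrec f) (ha : Primrec a) (hb : Primrec b) (hc : Primrec c)
    (hd : Primrec d) : PrimrecPred fun x => gSq (f x) (a x) (b x) (c x) (d x) :=
  cb_sq hf ha hb hc hd
private theorem gEqv_p (hf : Primrec f) (ha : Primrec a) (hb : Primrec b) :
    PrimrecPred fun x => gEqv (f x) (a x) (b x) := cb_eqv hf ha hb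
private theorem gF_p (ha : Primrec a) (hb : Primrec b) :
    Primrec fun x => gF (a x) (b x) := fm_p ha hb
private theorem gPar_re (hf : Primrec f) (ha : Primrec a) (hb : Primrec b) :
    REPred fun x => gPar (f x) (a x) (b x) :=
  re_comp cpar_re (f := fun x => (f x, a x, b x)) (hf.pair (ha.pair hb)).to_comp
private theorem gLab_re (hf : Primrec f) (ha : Primrec a) (hb : Primrec b) (hc : Primrec c)
    (hd : Primrec d) : REPred fun x => gLab (f x) (a x) (b x) (c x) (d x) :=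
  re_comp clab_re (f := fun x => (f x, (a x, b x), (c x, d x)))
    (hf.pair ((ha.pair hb).pair (hc.pair hd))).to_comp

private theorem gEx {p : α → ℕ → Prop} {f : α → ℕ} (hf : Primrec f)
    (hp : REPred fun x : α × ℕ => p x.1 x.2) : REPred fun x => ∃ k < f x, p x k :=
  re_bex (p := fun x : α × ℕ => p x.1 x.2) hf hp

end

/-! ### spanning trees -/

private theorem gspan_re : REPred (fun x : Code => ∃ p0 δ r, Span (dec x) p0 δ r) := by
  have h1 : REPred (fun x : Code => ∃ y : ℕ × ℕ × List ℕ,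
      Span (dec x) (fm x.1.2.1 y.1) (fun q => dig x.1.2.2 y.2.1 q)
        (fun q => y.2.2.getD q 0)) := by
    apply re_exists (p := fun (x : Code) (y : ℕ × ℕ × List ℕ) =>
      Span (dec x) (fm x.1.2.1 y.1) (fun q => dig x.1.2.2 y.2.1 q)
        (fun q => y.2.2.getD q 0))
    apply re_of_prim
    exact cspan_p
  refine h1.of_eq ?_
  intro x
  constructor
  · rintro ⟨y, hy⟩
    exact ⟨_, _, _, hy⟩
  · rintro ⟨p0, δ, r, h⟩
    obtain ⟨d, rfl⟩ := dig_surj x.1.2.2 x.1.2.1 δ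
    refine ⟨(p0, d, List.ofFn r), ?_⟩
    have hr : (fun q : Fin (x.1.2.1 + 1) => (List.ofFn r).getD (q : ℕ) 0) = r := by
      funext q
      rw [List.getD_eq_getElem _ _ (by rw [List.length_ofFn]; exact q.2), List.getElem_ofFn]
    dsimp only
    rw [hr, fm_surj]
    exact h

/-! ### the primitive recursive fields -/

private def G1 (x : Code) : Prop :=
  (∀ q < x.1.2.1 + 1, ∀ k < x.1.1 + 1, ∃ a < x.1.2.2 + 1, ∃ a' < x.1.2.2 + 1,
    (gO x (gF x.1.2.2 a) = gF x.1.2.1 q ∧ gMv x (gF x.1.2.2 a) ∧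
      gTy x (gF x.1.2.2 a) = gF x.1.1 k) ∧
    (gO x (gF x.1.2.2 a') = gF x.1.2.1 q ∧ gMv x (gF x.1.2.2 a') ∧
      gTy x (gF x.1.2.2 a') = gF x.1.1 k) ∧
    ¬ gEqv x (gF x.1.2.2 a) (gF x.1.2.2 a')) ∧
  (∃ c < 2 ^ (x.1.2.2 + 1),
    (∀ a < x.1.2.2 + 1, gMv x (gF x.1.2.2 a) →
      ¬ LatIso.CB.dg 1 c (gI x (gF x.1.2.2 a)) = LatIso.CB.dg 1 c (gF x.1.2.2 a)) ∧
    (∀ a < x.1.2.2 + 1, ∀ b < x.1.2.2 + 1, gLc x (gF x.1.2.2 a) (gF x.1.2.2 b) →
      LatIso.CB.dg 1 c (gMl x (gF x.1.2.2 a) (gF x.1.2.2 b)) =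
        LatIso.CB.dg 1 c (gF x.1.2.2 b)) ∧
    ∀ a < x.1.2.2 + 1, ∀ b < x.1.2.2 + 1, ∀ u < x.1.2.2 + 1, ∀ v < x.1.2.2 + 1,
      gSq x (gF x.1.2.2 a) (gF x.1.2.2 b) (gF x.1.2.2 u) (gF x.1.2.2 v) →
      LatIso.CB.dg 1 c (gF x.1.2.2 v) = LatIso.CB.dg 1 c (gF x.1.2.2 a))

private theorem G1_p : PrimrecPred G1 := by
  unfold G1
  (repeat' (with_reducible first
    | assumption
    | exact LatIso.CB.p_id
    | exact Primrec.const _
    | apply gO_p
    | apply gI_p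
    | apply gTy_p
    | apply gMl_p
    | apply gF_p
    | apply gMv_p
    | apply gLc_p
    | apply gSq_p
    | apply gEqv_p
    | apply LatIso.CB.p_dg
    | apply LatIso.CB.p_fst
    | apply LatIso.CB.p_snd
    | apply LatIso.CB.p_pair
    | apply LatIso.CB.p_add
    | apply LatIso.CB.p_pow
    | apply LatIso.CB.pp_all
    | apply LatIso.CB.pp_ex
    | apply LatIso.CB.pp_and
    | apply LatIso.CB.pp_or
    | apply LatIso.CB.pp_not
    | apply LatIso.CB.pp_iff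
    | apply LatIso.CB.pp_imp
    | apply LatIso.CB.pp_eq))

private theorem g_bool (nA : ℕ) (s : Fin (nA + 1) → Bool) :
    ∃ c < 2 ^ (nA + 1), ∀ a : Fin (nA + 1), LatIso.CB.dg 1 c a = if s a then 1 else 0 := by
  obtain ⟨c, hc, h⟩ := LatIso.CB.exists_pred nA (fun a => s a = true)
  refine ⟨c, hc, fun a => ?_⟩
  have h1 := h a
  have h2 := LatIso.CB.dg_lt 1 c a
  split_ifs with h3
  · exact h1.2 h3
  · have h4 : ¬ LatIso.CB.dg 1 c a = 1 := fun h5 => h3 (h1.1 h5)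
    omega

private theorem G1_iff (x : Code) : G1 x ↔
    (∀ (q : Fin (x.1.2.1 + 1)) (k : Fin (x.1.1 + 1)), ∃ a a' : Fin (x.1.2.2 + 1),
      ((dec x).o a = q ∧ (dec x).mv a ∧ (dec x).ty a = k) ∧
      ((dec x).o a' = q ∧ (dec x).mv a' ∧ (dec x).ty a' = k) ∧ ¬ (dec x).eqv a a') ∧
    (∃ c < 2 ^ (x.1.2.2 + 1),
      (∀ a : Fin (x.1.2.2 + 1), (dec x).mv a →
        ¬ LatIso.CB.dg 1 c ((dec x).i a) = LatIso.CB.dg 1 c a) ∧
      (∀ a b : Fin (x.1.2.2 + 1), (dec x).lc a b →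
        LatIso.CB.dg 1 c ((dec x).ml a b) = LatIso.CB.dg 1 c b) ∧
      ∀ a b u v : Fin (x.1.2.2 + 1), (dec x).sq a b u v →
        LatIso.CB.dg 1 c v = LatIso.CB.dg 1 c a) := by
  unfold G1
  simp only [gO, gI, gTy, gMl, gMv, gLc, gSq, gEqv, gF, fm_surj, fm_all, fm_ex, Fin.ext_iff]

private theorem orient_iff (x : Code) :
    (∃ c < 2 ^ (x.1.2.2 + 1),
      (∀ a : Fin (x.1.2.2 + 1), (dec x).mv a →
        ¬ LatIso.CB.dg 1 c ((dec x).i a) = LatIso.CB.dg 1 c a) ∧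
      (∀ a b : Fin (x.1.2.2 + 1), (dec x).lc a b →
        LatIso.CB.dg 1 c ((dec x).ml a b) = LatIso.CB.dg 1 c b) ∧
      ∀ a b u v : Fin (x.1.2.2 + 1), (dec x).sq a b u v →
        LatIso.CB.dg 1 c v = LatIso.CB.dg 1 c a) ↔
    ∃ s : Fin (x.1.2.2 + 1) → Bool, (∀ a, (dec x).mv a → s ((dec x).i a) = !(s a)) ∧
      (∀ σ a, (dec x).lc σ a → s ((dec x).ml σ a) = s a) ∧
      ∀ a b c d, (dec x).sq a b c d → s d = s a := by
  constructor
  · rintro ⟨c, -, h1, h2, h3⟩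
    refine ⟨fun a => decide (LatIso.CB.dg 1 c a = 1), fun a ha => ?_, fun s a hs => ?_,
      fun a b u v hs => ?_⟩
    · have h4 := h1 a ha
      have h5 := LatIso.CB.dg_lt 1 c a
      have h6 := LatIso.CB.dg_lt 1 c ((dec x).i a)
      dsimp only
      by_cases h7 : LatIso.CB.dg 1 c a = 1
      · have h8 : ¬ LatIso.CB.dg 1 c ((dec x).i a) = 1 := by omega
        simp [h7, h8]
      · have h8 : LatIso.CB.dg 1 c ((dec x).i a) = 1 := by omega
        simp [h7, h8]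
    · dsimp only
      rw [h2 s a hs]
    · dsimp only
      rw [h3 a b u v hs]
  · rintro ⟨s, h1, h2, h3⟩
    obtain ⟨c, hc, h4⟩ := g_bool x.1.2.2 s
    refine ⟨c, hc, fun a ha => ?_, fun t a ht => ?_, fun a b u v hs => ?_⟩
    · rw [h4, h4, h1 a ha]
      cases s a <;> simp
    · rw [h4, h4, h2 t a ht]
    · rw [h4, h4, h3 a b u v hs]

/-! ### the other fields -/

private def G2 (x : Code) : Prop :=
  (∀ q < x.1.2.1 + 1, ∀ k < x.1.1 + 1, ∃ q' < x.1.2.1 + 1, ∃ k' < x.1.1 + 1,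
    ∃ a < x.1.2.2 + 1, ∃ a' < x.1.2.2 + 1, ∃ a'' < x.1.2.2 + 1,
    gLab x (gF x.1.2.1 q) (gF x.1.1 k) (gF x.1.2.1 q') (gF x.1.1 k') ∧
    (gO x (gF x.1.2.2 a) = gF x.1.2.1 q' ∧ gMv x (gF x.1.2.2 a) ∧
      gTy x (gF x.1.2.2 a) = gF x.1.1 k') ∧
    (gO x (gF x.1.2.2 a') = gF x.1.2.1 q' ∧ gMv x (gF x.1.2.2 a') ∧
      gTy x (gF x.1.2.2 a') = gF x.1.1 k') ∧
    (gO x (gF x.1.2.2 a'') = gF x.1.2.1 q' ∧ gMv x (gF x.1.2.2 a'') ∧
      gTy x (gF x.1.2.2 a'') = gF x.1.1 k') ∧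
    ¬ gEqv x (gF x.1.2.2 a) (gF x.1.2.2 a') ∧ ¬ gEqv x (gF x.1.2.2 a') (gF x.1.2.2 a'') ∧
    ¬ gEqv x (gF x.1.2.2 a) (gF x.1.2.2 a'')) ∧
  (∀ a < x.1.2.2 + 1, ¬ gMv x (gF x.1.2.2 a) ∨
    (∃ a' < x.1.2.2 + 1, ∃ c' < x.1.2.2 + 1, gPar x (gF x.1.2.2 a) (gF x.1.2.2 a') ∧
      gPar x (gI x (gF x.1.2.2 a)) (gF x.1.2.2 c') ∧
      gO x (gF x.1.2.2 a') = gO x (gF x.1.2.2 c') ∧
      gTy x (gF x.1.2.2 a') = gTy x (gF x.1.2.2 c')) ∨
    ∃ a' < x.1.2.2 + 1, gPar x (gF x.1.2.2 a) (gF x.1.2.2 a') ∧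
      gO x (gF x.1.2.2 a') = gO x (gF x.1.2.2 a) ∧
      gTy x (gF x.1.2.2 a') = gTy x (gF x.1.2.2 a) ∧
      ¬ gEqv x (gF x.1.2.2 a) (gF x.1.2.2 a'))

private theorem G2_re : REPred G2 := by
  unfold G2
  (repeat' (with_reducible first
    | assumption
    | exact LatIso.CB.p_id
    | exact Primrec.const _
    | apply gLab_re
    | apply gPar_re
    | apply re_forall_lt
    | apply gEx
    | apply re_and
    | apply re_or
    | apply re_of_prim
    | apply gO_p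
    | apply gI_p
    | apply gTy_p
    | apply gMl_p
    | apply gF_p
    | apply gMv_p
    | apply gLc_p
    | apply gSq_p
    | apply gEqv_p
    | apply LatIso.CB.p_fst
    | apply LatIso.CB.p_snd
    | apply LatIso.CB.p_pair
    | apply LatIso.CB.p_add
    | apply LatIso.CB.pp_all
    | apply LatIso.CB.pp_ex
    | apply LatIso.CB.pp_and
    | apply LatIso.CB.pp_or
    | apply LatIso.CB.pp_not
    | apply LatIso.CB.pp_iff
    | apply LatIso.CB.pp_imp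
    | apply LatIso.CB.pp_eq))

private theorem G2_iff (x : Code) : G2 x ↔
    (∀ (q : Fin (x.1.2.1 + 1)) (k : Fin (x.1.1 + 1)), ∃ (q' : Fin (x.1.2.1 + 1))
      (k' : Fin (x.1.1 + 1)) (a a' a'' : Fin (x.1.2.2 + 1)), Lab (dec x) q k q' k' ∧
      ((dec x).o a = q' ∧ (dec x).mv a ∧ (dec x).ty a = k') ∧
      ((dec x).o a' = q' ∧ (dec x).mv a' ∧ (dec x).ty a' = k') ∧
      ((dec x).o a'' = q' ∧ (dec x).mv a'' ∧ (dec x).ty a'' = k') ∧
      ¬ (dec x).eqv a a' ∧ ¬ (dec x).eqv a' a'' ∧ ¬ (dec x).eqv a a'') ∧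
    (∀ a : Fin (x.1.2.2 + 1), ¬ (dec x).mv a ∨
      (∃ a' c' : Fin (x.1.2.2 + 1), Par (dec x) a a' ∧ Par (dec x) ((dec x).i a) c' ∧
        (dec x).o a' = (dec x).o c' ∧ (dec x).ty a' = (dec x).ty c') ∨
      ∃ a' : Fin (x.1.2.2 + 1), Par (dec x) a a' ∧ (dec x).o a' = (dec x).o a ∧
        (dec x).ty a' = (dec x).ty a ∧ ¬ (dec x).eqv a a') := by
  unfold G2
  simp only [gO, gI, gTy, gMv, gEqv, gF, gPar, gLab, fm_surj, fm_all, fm_ex, Fin.ext_iff]

theorem cgood_re : REPred (fun x : Code => Good (dec x)) := by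
  refine (re_and (re_of_prim cvalid_p) (re_and gspan_re (re_and (re_of_prim G1_p)
    G2_re))).of_eq ?_
  intro x
  rw [G1_iff, G2_iff, orient_iff]
  constructor
  · rintro ⟨v, sp, ⟨two, ori⟩, three, red⟩
    exact ⟨v, sp, two, three, ori, fun a ha => (red a).resolve_left (not_not_intro ha)⟩
  · intro h
    refine ⟨h.valid, h.span, ⟨h.two, h.orient⟩, h.three, fun a => ?_⟩
    by_cases ha : (dec x).mv a
    · exact Or.inr (h.red a ha)
    · exact Or.inl ha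

end LatF
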