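import Pool.Agent.Lib.MP_32d917_al.FDefs
import Pool.Agent.Lib.MP_32d917_al.F.CB
import Pool.Agent.Lib.MP_32d917_al.F.CVAL

/-!
# codes: non-isomorphism is r.e. (even primitive recursive)

`Iso (dec x) (dec y)`: if the sizes differ, there is no isomorphism (cardinalities of `Fin`; `ι`: an equivalence `σ p` exists since `P` is nonempty). If the sizes agree, `f`, `g`, `σ` are given by tables `dig nP F p`, `dig nA E a`, `dig nI T (p * (nI + 1) + k)` with numbers below a primitive recursive bound (see N/NCODE3 for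
the old version, `ncode3_*`, and `CODEB` for tables). Bijectivity = injectivity (finite sets of equal size). All conditions are bounded quantifiers over `cb_*`. So `Iso` is a PrimrecPred, and so is its negation.
-/

set_option autoImplicit false

namespace LatF

open LatIso LatN

/-- functions of two variables are given by tables -/
private theorem ciso_exists2 (n m k : ℕ) (F : Fin (m + 1) → Fin (k + 1) → Fin (n + 1)) :
    ∃ w < (n + 1) ^ ((m + 1) * (k + 1)), ∀ (a : Fin (m + 1)) (b : Fin (k + 1)),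
      ((F a b : Fin _) : ℕ) = CB.dg n w (a * (k + 1) + b) := by
  obtain ⟨w, hw, h⟩ := CB.exists_dg n
    (fun t => if ht : t / (k + 1) < m + 1 then
      ((F ⟨t / (k + 1), ht⟩ ⟨t % (k + 1), Nat.mod_lt _ (Nat.succ_pos _)⟩ : Fin (n + 1)) : ℕ)
      else 0)
    (fun t => by
      split_ifs with h
      · exact Fin.isLt _
      · exact Nat.succ_pos n) ((m + 1) * (k + 1))
  refine ⟨w, hw, fun a b => ?_⟩
  have h1 : (a : ℕ) * (k + 1) + b < (m + 1) * (k + 1) := by
    have := a.2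
    have := b.2
    calc (a : ℕ) * (k + 1) + b < (a : ℕ) * (k + 1) + (k + 1) := by omega
      _ = ((a : ℕ) + 1) * (k + 1) := by ring
      _ ≤ _ := Nat.mul_le_mul_right _ (by omega)
  have h2 : ((a : ℕ) * (k + 1) + b) / (k + 1) = a := by
    rw [Nat.mul_comm, Nat.mul_add_div (Nat.succ_pos _), Nat.div_eq_of_lt b.2]
    simp
  have h3 : ((a : ℕ) * (k + 1) + b) % (k + 1) = b := by
    rw [Nat.mul_comm, Nat.mul_add_mod]
    exact Nat.mod_eq_of_lt b.2
  rw [h _ h1, dif_pos (by rw [h2]; exact a.2)]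
  congr 2
  · exact Fin.ext h2.symm
  · exact Fin.ext h3.symm

/-- number version of the isomorphism conditions -/
private def IsoN (x y : Code) (u v w : ℕ) : Prop :=
  (∀ a < x.1.2.1 + 1, ∀ b < x.1.2.1 + 1, CB.dg x.1.2.1 u a = CB.dg x.1.2.1 u b → a = b) ∧
  (∀ a < x.1.2.2 + 1, ∀ b < x.1.2.2 + 1, CB.dg x.1.2.2 v a = CB.dg x.1.2.2 v b → a = b) ∧
  (∀ p < x.1.2.1 + 1, ∀ a < x.1.1 + 1, ∀ b < x.1.1 + 1,
    CB.dg x.1.1 w (p * (x.1.1 + 1) + a) = CB.dg x.1.1 w (p * (x.1.1 + 1) + b) → a = b) ∧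
  (∀ a < x.1.2.2 + 1, cval_o y (CB.dg x.1.2.2 v a) = CB.dg x.1.2.1 u (cval_o x a)) ∧
  (∀ a < x.1.2.2 + 1, cval_t y (CB.dg x.1.2.2 v a) = CB.dg x.1.2.1 u (cval_t x a)) ∧
  (∀ p < x.1.2.1 + 1, cval_e y (CB.dg x.1.2.1 u p) = CB.dg x.1.2.2 v (cval_e x p)) ∧
  (∀ a < x.1.2.2 + 1, cval_i y (CB.dg x.1.2.2 v a) = CB.dg x.1.2.2 v (cval_i x a)) ∧
  (∀ a < x.1.2.2 + 1, (cval_mv y (CB.dg x.1.2.2 v a) ↔ cval_mv x a)) ∧
  (∀ a < x.1.2.2 + 1, cval_mv x a → cval_ty y (CB.dg x.1.2.2 v a) =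
    CB.dg x.1.1 w (cval_o x a * (x.1.1 + 1) + cval_ty x a)) ∧
  (∀ a < x.1.2.2 + 1, ∀ k < x.1.1 + 1,
    cval_pm y (CB.dg x.1.2.2 v a) (CB.dg x.1.1 w (cval_o x a * (x.1.1 + 1) + k)) =
    CB.dg x.1.1 w (cval_t x a * (x.1.1 + 1) + cval_pm x a k)) ∧
  (∀ s < x.1.2.2 + 1, ∀ a < x.1.2.2 + 1, (¬ cval_mv x s ∧ cval_t x s = cval_o x a) →
    cval_ml y (CB.dg x.1.2.2 v s) (CB.dg x.1.2.2 v a) = CB.dg x.1.2.2 v (cval_ml x s a)) ∧
  (∀ a < x.1.2.2 + 1, ∀ b < x.1.2.2 + 1, ∀ c < x.1.2.2 + 1, ∀ d < x.1.2.2 + 1,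
    (cval_sq y (CB.dg x.1.2.2 v a) (CB.dg x.1.2.2 v b) (CB.dg x.1.2.2 v c)
      (CB.dg x.1.2.2 v d) ↔ cval_sq x a b c d))

private theorem isoN_iff (s : ℕ × ℕ × ℕ) (t t' : ℕ) (u v w : ℕ)
    (U : Fin (s.2.1 + 1) → Fin (s.2.1 + 1)) (V : Fin (s.2.2 + 1) → Fin (s.2.2 + 1))
    (W : Fin (s.2.1 + 1) → Fin (s.1 + 1) → Fin (s.1 + 1))
    (hU : ∀ a : Fin (s.2.1 + 1), ((U a : Fin _) : ℕ) = CB.dg s.2.1 u a)
    (hV : ∀ a : Fin (s.2.2 + 1), ((V a : Fin _) : ℕ) = CB.dg s.2.2 v a)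
    (hW : ∀ (a : Fin (s.2.1 + 1)) (k : Fin (s.1 + 1)),
      ((W a k : Fin _) : ℕ) = CB.dg s.1 w (a * (s.1 + 1) + k)) :
    ((∀ a b, U a = U b → a = b) ∧ (∀ a b, V a = V b → a = b) ∧
    (∀ p a b, W p a = W p b → a = b) ∧
    (∀ a, (dec (s, t')).o (V a) = U ((dec (s, t)).o a)) ∧
    (∀ a, (dec (s, t')).t (V a) = U ((dec (s, t)).t a)) ∧
    (∀ p, (dec (s, t')).e (U p) = V ((dec (s, t)).e p)) ∧
    (∀ a, (dec (s, t')).i (V a) = V ((dec (s, t)).i a)) ∧
    (∀ a, (dec (s, t')).mv (V a) ↔ (dec (s, t)).mv a) ∧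
    (∀ a, (dec (s, t)).mv a → (dec (s, t')).ty (V a) = W ((dec (s, t)).o a) ((dec (s, t)).ty a)) ∧
    (∀ a k, (dec (s, t')).pm (V a) (W ((dec (s, t)).o a) k) =
      W ((dec (s, t)).t a) ((dec (s, t)).pm a k)) ∧
    (∀ σ a, (dec (s, t)).lc σ a → (dec (s, t')).ml (V σ) (V a) = V ((dec (s, t)).ml σ a)) ∧
    (∀ a b c d, (dec (s, t')).sq (V a) (V b) (V c) (V d) ↔ (dec (s, t)).sq a b c d)) ↔
      IsoN (s, t) (s, t') u v w := by
  unfold IsoN FD.lc
  simp only [Fin.ext_iff, cval_o_val, cval_t_val, cval_e_val, cval_i_val, cval_mv_val,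
    cval_ty_val, cval_pm_val, cval_ml_val, cval_sq_val, hU, hV, hW, Fin.forall_iff]

/-- bounded form of the isomorphism relation -/
private def IsoB (x : Code × Code) : Prop :=
  x.1.1 = x.2.1 ∧ ∃ u < (x.1.1.2.1 + 1) ^ (x.1.1.2.1 + 1),
    ∃ v < (x.1.1.2.2 + 1) ^ (x.1.1.2.2 + 1),
    ∃ w < (x.1.1.1 + 1) ^ ((x.1.1.2.1 + 1) * (x.1.1.1 + 1)), IsoN x.1 (x.1.1, x.2.2) u v w

private theorem isoN_p : PrimrecPred (fun x : (Code × Code) × ℕ × ℕ × ℕ =>
    IsoN x.1.1 (x.1.1.1, x.1.2.2) x.2.1 x.2.2.1 x.2.2.2) := by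
  unfold IsoN
  (repeat' (with_reducible first | assumption | exact CB.p_id | exact Primrec.const _ | exact CB.pp_const _ | apply CB.p_fst | apply CB.p_snd | apply CB.p_pair | apply CB.p_add | apply CB.p_mul | apply CB.p_dg | apply cval_p_o | apply cval_p_t | apply cval_p_e | apply cval_p_i | apply cval_p_ty | apply cval_p_pm | apply cval_p_ml | apply cval_p_mv | apply cval_p_sq | apply CB.pp_all | apply CB.pp_ex | apply CB.pp_and | apply CB.pp_or | apply CB.pp_not | apply CB.pp_iff | apply CB.pp_imp | apply CB.pp_eq))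

private theorem isoB_p : PrimrecPred IsoB := by
  unfold IsoB
  apply CB.pp_and
  · (repeat' (with_reducible first | assumption | exact CB.p_id | exact Primrec.const _ | apply CB.p_fst | apply CB.p_snd | apply CB.p_pair | apply CB.p_add | apply CB.p_mul | apply CB.p_pow | apply CB.pp_eq))
  apply CB.pp_ex
  · (repeat' (with_reducible first | assumption | exact CB.p_id | exact Primrec.const _ | apply CB.p_fst | apply CB.p_snd | apply CB.p_pair | apply CB.p_add | apply CB.p_mul | apply CB.p_pow))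
  apply CB.pp_ex
  · (repeat' (with_reducible first | assumption | exact CB.p_id | exact Primrec.const _ | apply CB.p_fst | apply CB.p_snd | apply CB.p_pair | apply CB.p_add | apply CB.p_mul | apply CB.p_pow))
  apply CB.pp_ex
  · (repeat' (with_reducible first | assumption | exact CB.p_id | exact Primrec.const _ | apply CB.p_fst | apply CB.p_snd | apply CB.p_pair | apply CB.p_add | apply CB.p_mul | apply CB.p_pow))
  refine isoN_p.comp
    (f := fun x : (((Code × Code) × ℕ) × ℕ) × ℕ => (x.1.1.1, x.1.1.2, x.1.2, x.2)) ?_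
  (repeat' (with_reducible first | assumption | exact CB.p_id | exact Primrec.const _ | apply CB.p_fst | apply CB.p_snd | apply CB.p_pair))

private theorem iso_iff (x : Code × Code) : IsoB x ↔ Iso (dec x.1) (dec x.2) := by
  obtain ⟨⟨s, t⟩, ⟨s', t'⟩⟩ := x
  constructor
  · rintro ⟨h0, u, -, v, -, w, -, hN⟩
    dsimp only at h0
    subst h0
    obtain ⟨iU, iV, iW, h1, h2, h3, h4, h5, h6, h7, h8, h9⟩ :=
      (isoN_iff s t t' u v w (fun a => dig s.2.1 u a) (fun a => dig s.2.2 v a)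
        (fun p k => dig s.1 w (p * (s.1 + 1) + k)) (fun _ => rfl) (fun _ => rfl)
        (fun _ _ => rfl)).2 hN
    exact ⟨Equiv.ofBijective _ (Finite.injective_iff_bijective.1 (fun a b h => iU a b h)),
      Equiv.ofBijective _ (Finite.injective_iff_bijective.1 (fun a b h => iV a b h)),
      fun p => Equiv.ofBijective _ (Finite.injective_iff_bijective.1 (fun a b h => iW p a b h)),
      h1, h2, h3, h4, h5, h6, h7, h8, h9⟩
  · rintro ⟨U, V, W, h1, h2, h3, h4, h5, h6, h7, h8, h9⟩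
    have c1 : s.1 = s'.1 := by
      have := Fintype.card_congr (W 0)
      simpa using this
    have c2 : s.2.1 = s'.2.1 := by
      have := Fintype.card_congr U
      simpa using this
    have c3 : s.2.2 = s'.2.2 := by
      have := Fintype.card_congr V
      simpa using this
    have hs : s = s' := Prod.ext c1 (Prod.ext c2 c3)
    subst hs
    obtain ⟨u, hu, hu'⟩ := CB.exists_dig _ _ U
    obtain ⟨v, hv, hv'⟩ := CB.exists_dig _ _ V
    obtain ⟨w, hw, hw'⟩ := ciso_exists2 _ _ _ (fun p k => W p k)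
    exact ⟨rfl, u, hu, v, hv, w, hw, (isoN_iff s t t' u v w U V (fun p k => W p k)
      (fun a => by rw [← hu' a]; rfl) (fun a => by rw [← hv' a]; rfl) hw').1
      ⟨fun a b h => U.injective h, fun a b h => V.injective h,
        fun p a b h => (W p).injective h, h1, h2, h3, h4, h5, h6, h7, h8, h9⟩⟩

section

theorem cniso_re : REPred (fun x : Code × Code => ¬ Iso (dec x.1) (dec x.2)) :=
  re_of_prim (CB.pp_not (PrimrecPred.of_eq isoB_p iso_iff))

end

end LatF
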