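import Pool.Agent.Lib.MP_32d917_al.FDefs

/-!
# consequences of the axioms of data

All by rewriting with the fields of `Valid0` (`X.mr a s = X.i (X.ml (X.i s) (X.i a))` by definition; note that `lc`, `rc` say that the stationary arrow
is composable on the left / on the right).
val_ei: `mli` at `e p` and `mle` at `i (e p)`. val_mro, val_mrt, val_mrm: mlt, mlo, mlm for `ml (i s) (i a)`. val_mry: `c = ml (i s) (i a)`: ty (i c) = pm c (ty c)
= pm (i a) (pm (i s) (ty c)) = pm (i a) (ty (i a)) = pm (i a) (pm a (ty a)) = ty a. val_mrp: with `k' = pm s (pm a k)`: pm c k' = k, so pm (i c) k = k'.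
val_mre: mle at i a. val_mra: mrs gives i (ml s s') = ml (i s') (i s); then mla. val_mri: val_mra, mli, val_mre. val_mli: mla, mli (for i s), mle.
val_iml, val_imr: by definition with ii. val_mrf: apply i and mlf. val_eqv: units, inverses, products.
val_sqi: sqr, sqs, sqr. val_sqn: val_sqi, sql, val_sqi. val_sqm': sqs, sqm, sqs. val_squd: squ gives s with c = mr c s, so s = e by
val_mrf. val_squb: sqs and val_squd. val_sqc: sqr for both, squ, apply i. val_sqx: sqe for (i a, c), then sqr.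
-/

set_option autoImplicit false

namespace LatF

open LatIso LatN

section

variable {ι P A : Type} {X : FD ι P A}

theorem fval_lc (h : Valid0 X) {a s : A} (hs : X.rc a s) : X.lc (X.i s) (X.i a) :=
  ⟨fun hm => hs.1 ((h.mi s).1 hm), by rw [h.ti, h.oi, hs.2]⟩

theorem fval_rc (h : Valid0 X) {a s : A} (hs : X.lc s a) : X.rc (X.i a) (X.i s) :=
  ⟨fun hm => hs.1 ((h.mi s).1 hm), by rw [h.ti, h.oi, hs.2]⟩

theorem val_ei (h : Valid0 X) (p : P) : X.i (X.e p) = X.e p := by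
  have h1 := h.mli (X.e p) (h.me p)
  have h2 := h.mle (X.i (X.e p))
  rw [h.oi, h.te] at h2
  rw [h.oe] at h1
  rw [← h2, h1]

theorem val_mro (h : Valid0 X) {a s : A} (hs : X.rc a s) : X.o (X.mr a s) = X.o a := by
  rw [FD.mr, h.oi, h.mlt _ _ (fval_lc h hs), h.ti]

theorem val_mrt (h : Valid0 X) {a s : A} (hs : X.rc a s) : X.t (X.mr a s) = X.t s := by
  rw [FD.mr, h.ti, h.mlo _ _ (fval_lc h hs), h.oi]

theorem val_mrm (h : Valid0 X) {a s : A} (hs : X.rc a s) : X.mv (X.mr a s) ↔ X.mv a := by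
  rw [FD.mr, h.mi, h.mlm _ _ (fval_lc h hs), h.mi]

theorem val_mry (h : Valid0 X) {a s : A} (hs : X.rc a s) (ha : X.mv a) :
    X.ty (X.mr a s) = X.ty a := by
  have hl := fval_lc h hs
  have hm : X.mv (X.ml (X.i s) (X.i a)) := (h.mlm _ _ hl).2 ((h.mi a).2 ha)
  rw [FD.mr, h.tyi _ hm, h.mlp _ _ _ hl, h.mly _ _ hl ((h.mi a).2 ha), h.tyi a ha, h.pi]

theorem val_mrp (h : Valid0 X) {a s : A} (hs : X.rc a s) (k : ι) :
    X.pm (X.mr a s) k = X.pm s (X.pm a k) := by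
  have hl := fval_lc h hs
  have h1 := h.pi (X.ml (X.i s) (X.i a)) (X.pm s (X.pm a k))
  rw [h.mlp _ _ _ hl, h.pi, h.pi] at h1
  rw [FD.mr, h1]

theorem val_mre (h : Valid0 X) (a : A) : X.mr a (X.e (X.t a)) = a := by
  rw [FD.mr, val_ei h, ← h.oi, h.mle, h.ii]

theorem val_mra (h : Valid0 X) {a s s' : A} (hs : X.rc a s) (hs' : X.rc s s') :
    X.mr (X.mr a s) s' = X.mr a (X.ml s s') := by
  have h1 : X.i (X.ml s s') = X.ml (X.i s') (X.i s) := by
    rw [← h.mrs s s' hs.1 hs', FD.mr, h.ii]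
  have h2 : X.i (X.mr a s) = X.ml (X.i s) (X.i a) := by rw [FD.mr, h.ii]
  rw [FD.mr, h2, FD.mr, h1, h.mla _ _ _ (fval_lc h hs') (fval_lc h hs)]

theorem val_mri (h : Valid0 X) {a s : A} (hs : X.rc a s) : X.mr (X.mr a s) (X.i s) = a := by
  have h1 : X.rc s (X.i s) := ⟨fun hm => hs.1 ((h.mi s).1 hm), h.oi s⟩
  rw [val_mra h hs h1, h.mli s hs.1, hs.2, val_mre h]

theorem val_mli (h : Valid0 X) {s a : A} (hs : X.lc s a) : X.ml (X.i s) (X.ml s a) = a := by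
  have h1 : X.lc (X.i s) s := ⟨fun hm => hs.1 ((h.mi s).1 hm), h.ti s⟩
  have h2 := h.mli (X.i s) h1.1
  rw [h.ii, h.oi, hs.2] at h2
  rw [h.mla _ _ _ h1 hs, h2, h.mle]

theorem val_iml (h : Valid0 X) {s a : A} (hs : X.lc s a) :
    X.i (X.ml s a) = X.mr (X.i a) (X.i s) := by
  rw [FD.mr, h.ii, h.ii]

theorem val_imr (h : Valid0 X) {s a : A} (hs : X.rc a s) :
    X.i (X.mr a s) = X.ml (X.i s) (X.i a) := by
  rw [FD.mr, h.ii]

theorem val_mrf (h : Valid0 X) {a s : A} (hs : X.rc a s) (he : X.mr a s = a) :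
    s = X.e (X.t a) := by
  have h1 : X.ml (X.i s) (X.i a) = X.i a := by
    rw [← val_imr h hs, he]
  have h2 := h.mlf _ _ (fval_lc h hs) h1
  rw [h.oi] at h2
  rw [← h.ii s, h2, val_ei h]

theorem val_eqv (h : Valid0 X) : (∀ a, X.eqv a a) ∧ (∀ a b, X.eqv a b → X.eqv b a) ∧
    ∀ a b c, X.eqv a b → X.eqv b c → X.eqv a c := by
  refine ⟨fun a => ⟨X.e (X.t a), ⟨h.me _, h.oe _⟩, (val_mre h a).symm⟩, ?_, ?_⟩
  · rintro a b ⟨s, hs, rfl⟩
    refine ⟨X.i s, ⟨fun hm => hs.1 ((h.mi s).1 hm), ?_⟩, (val_mri h hs).symm⟩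
    rw [h.oi, val_mrt h hs]
  · rintro a b c ⟨s, hs, rfl⟩ ⟨s', hs', rfl⟩
    have h1 : X.rc s s' := ⟨hs'.1, by rw [hs'.2, val_mrt h hs]⟩
    have h2 : X.lc s s' := ⟨hs.1, h1.2.symm⟩
    refine ⟨X.ml s s', ⟨fun hm => hs'.1 ((h.mlm _ _ h2).1 hm), ?_⟩, val_mra h hs h1⟩
    rw [h.mlo _ _ h2, hs.2]

/-- the symmetries of a square -/
theorem val_sqi (h : Valid0 X) {a b c d : A} (hs : X.sq a b c d) :
    X.sq (X.i b) (X.i a) (X.i d) (X.i c) := by
  exact h.sqr _ _ _ _ (h.sqs _ _ _ _ (h.sqr _ _ _ _ hs))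

theorem val_sqn (h : Valid0 X) {a b c d s : A} (hs : X.sq a b c d) (h1 : X.rc b s) :
    X.sq a (X.mr b s) c (X.mr d s) := by
  have h2 := val_sqi h (h.sql _ _ _ _ _ (val_sqi h hs) (fval_lc h h1))
  rw [h.ii, h.ii] at h2
  exact h2

theorem val_sqm' (h : Valid0 X) {a b c d s : A} (hs : X.sq a b c d) (h1 : X.rc c s) :
    X.sq a b (X.mr c s) (X.ml (X.i s) d) := by
  exact h.sqs _ _ _ _ (h.sqm _ _ _ _ _ (h.sqs _ _ _ _ hs) h1)

/-- three sides determine the fourth -/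
theorem val_squd (h : Valid0 X) {a b c d d' : A} (hs : X.sq a b c d) (hs' : X.sq a b c d') :
    d = d' := by
  obtain ⟨s, h1, h2, h3⟩ := h.squ _ _ _ _ _ _ hs hs'
  have h4 := val_mrf h h1 h2.symm
  rw [h3, h4, val_ei h, (h.sqT _ _ _ _ hs).tcd, h.mle]

theorem val_squb (h : Valid0 X) {a b c d b' : A} (hs : X.sq a b c d) (hs' : X.sq a b' c d) :
    b = b' := by
  exact val_squd h (h.sqs _ _ _ _ hs) (h.sqs _ _ _ _ hs')

/-- two squares with the same corner `a`, `c` -/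
theorem val_sqc (h : Valid0 X) {a b c d b' d' : A} (hs : X.sq a b c d) (hs' : X.sq a b' c d') :
    ∃ s, X.rc b s ∧ b' = X.mr b s ∧ d' = X.mr d s := by
  obtain ⟨s, h1, h2, h3⟩ := h.squ _ _ _ _ _ _ (h.sqr _ _ _ _ hs) (h.sqr _ _ _ _ hs')
  refine ⟨s, h1, h2, ?_⟩
  rw [FD.mr, ← h3, h.ii]

/-- existence of squares with a given corner -/
theorem val_sqx (h : Valid0 X) {a c : A} (ha : X.mv a) (hc : X.mv c) (ho : X.o a = X.o c)
    (ht : X.ty a ≠ X.ty c) : ∃ b d, X.sq a b c d := by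
  have h1 : X.ty c ≠ X.pm (X.i a) (X.ty (X.i a)) := by
    rw [h.tyi a ha, h.pi]
    exact fun he => ht he.symm
  obtain ⟨b, d, hs⟩ := h.sqe (X.i a) c ((h.mi a).2 ha) hc (by rw [h.ti, ho]) h1
  refine ⟨b, X.i d, ?_⟩
  have h2 := h.sqr _ _ _ _ hs
  rw [h.ii] at h2
  exact h2

end

end LatF
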