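import Pool.Agent.Lib.MP_32d917_al.FDefs
import Pool.Agent.Lib.MP_32d917_al.TTL

/-!
# realizing a relation along a tree

Root the tree at `v0`. Every vertex `v ≠ v0` has a unique neighbour nearer to `v0` (its parent). Define `f` by recursion on `S.dist v0 v` (or along the unique path): `f v0 = y0`,
`f v` = a choice of `y'` with `Q v y' ∧ R (parent v) v (f (parent v)) y'` (h1). If `v`, `v'` are adjacent then one is the parent of the other (distances to `v0` differ by one); use h2 for the other orientation. (A convenient way: prove by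
induction on `n` the existence of `f` with the properties on the ball of radius `n` extending the previous one; or use well-founded recursion, or `TTL.lean` with a canonical choice of `y'`.)
-/

set_option autoImplicit false

namespace LatF

open LatIso LatN

section

/-- a relation between the values at adjacent vertices of a tree can be realized -/
theorem trel {V Y : Type} {S : SimpleGraph V} (hS : S.IsTree) (Q : V → Y → Prop)
    (R : V → V → Y → Y → Prop)
    (h1 : ∀ v v' y, S.Adj v v' → Q v y → ∃ y', Q v' y' ∧ R v v' y y')
    (h2 : ∀ v v' y y', S.Adj v v' → Q v y → Q v' y' → R v v' y y' → R v' v y' y)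
    (v0 : V) (y0 : Y) (h0 : Q v0 y0) :
    ∃ f : V → Y, f v0 = y0 ∧ (∀ v, Q v (f v)) ∧ ∀ v v', S.Adj v v' → R v v' (f v) (f v') := by
  classical
  have hne : Nonempty Y := ⟨y0⟩
  have h3 : ∀ v v' y, ∃ y', S.Adj v v' → Q v y → Q v' y' ∧ R v v' y y' := by
    intro v v' y
    by_cases ha : S.Adj v v'
    · by_cases hq : Q v y
      · obtain ⟨y', hy⟩ := h1 v v' y ha hq
        exact ⟨y', fun _ _ => hy⟩
      · exact ⟨y0, fun _ h => absurd h hq⟩
    · exact ⟨y0, fun h _ => absurd h ha⟩
  choose nx hx using h3
  choose P hP hP' using fun v => hS.existsUnique_path v0 v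
  have hQ : ∀ v, Q v (ttlTp nx (P v) y0) :=
    fun v => ttl_Q Q nx (fun v v' y ha hq => (hx v v' y ha hq).1) _ _ h0
  refine ⟨fun v => ttlTp nx (P v) y0, ?_, hQ, ?_⟩
  · have : P v0 = SimpleGraph.Walk.nil := by
      exact (hP' v0 SimpleGraph.Walk.nil (by simp)).symm
    simp only [this]
    rfl
  · intro v v' hv
    by_cases hm : v' ∈ (P v).support
    · have h3 : P v = (P v').concat hv.symm :=
        hS.isAcyclic.path_concat (hP v') (hP v) hv.symm hm
      have h4 : ttlTp nx (P v) y0 = nx v' v (ttlTp nx (P v') y0) := by
        rw [h3, ttl_concat]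
      have h5 := (hx v' v _ hv.symm (hQ v')).2
      rw [← h4] at h5
      exact h2 v' v _ _ hv.symm (hQ v') (hQ v) h5
    · have h3 : ((P v).concat hv).IsPath := (hP v).concat hm hv
      have h4 : (P v).concat hv = P v' := hP' v' _ h3
      have h5 := (hx v v' _ hv (hQ v)).2
      rw [← ttl_concat nx (P v) hv y0, h4] at h5
      exact h5

end

end LatF
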