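import Pool.Agent.Lib.MP_32d917_al.FDefs
import Pool.Agent.Lib.MP_32d917_al.F.FVAL
import Pool.Agent.Lib.MP_32d917_al.F.TREL

/-!
# transport of an axis along an arrow

`trel` with `Y = A`, `Q v y := o y = q v ∧ mv y ∧ ty y = ty b`, `R v v' y y' := ∃ d, sq (al v v') y' y d`, start `b` at `v0`. h1: for adjacent `v v'` and `y`: `val_sqx` with `a = al v v'`, `c = y` (origins `q v`, types `k ≠ ty b`) gives `sq (al v v') y' y d`; `ty y' =
ty y` since `pm = id`. h2: `sq (al v v') y' y d` gives by `sqr` `sq (i (al v v')) y y' (i d)` and `i (al v v') = al v' v`. Put `q' v = t (β v)`, `al' v v' = d` chosen for adjacent `v v'` (unique by `val_squd`), arbitrary otherwise. FH for `(q', al')`: mv, ty, o, t from `sqT`; inv: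
`val_squd`; inj: if `al' v y = mr (al' v x) s`, then `val_sqn` for the square of `x` and `val_sqc` (after `sqs`) for the squares with the same `β v`, `al' v y` give `al v y ~ al v x`; sur: for `a` at `q' v` of direction `k`: `sqe (β v) a` gives `sq (β v) a c d`, `c` of direction `k`
at `q v`, so `al v v' ~ c` for some `v'`; change `c` by a stationary arrow (`val_sqm'`) to get `sq (β v) a (al v v') d'`; compare with `sq (al v v') (β v') (β v) (al' v v')` by `sqs` and `val_sqc`: `a = mr (al' v v') s`.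
-/

set_option autoImplicit false

namespace LatF

open LatIso LatN

section

variable {ι P A : Type} {X : FD ι P A}

/-- transport of an axis along an arrow of another direction -/
theorem conn_exists (hX : Valid0 X) (hp : ∀ a k, X.pm a k = k) {k : ι} {V : Type}
    {S : SimpleGraph V} (hS : S.IsTree) {q : V → P} {al : V → V → A} (h : FH X k S q al) (v0 : V)
    (b : A) (hb : X.o b = q v0) (hm : X.mv b) (hk : X.ty b ≠ k) :
    ∃ (q' : V → P) (al' : V → V → A) (β : V → A), FH X k S q' al' ∧ Conn X S q al q' al' β ∧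
      β v0 = b ∧ ∀ v, X.mv (β v) ∧ X.ty (β v) = X.ty b := by
  classical
  obtain ⟨β, hβ0, hβQ, hβR⟩ := trel hS (fun v y => X.o y = q v ∧ X.mv y ∧ X.ty y = X.ty b)
    (fun v v' y y' => ∃ d, X.sq (al v v') y' y d) (by
      rintro v v' y hv ⟨h1, h2, h3⟩
      obtain ⟨b', d, hs⟩ := val_sqx hX (h.mv v v' hv) h2 (by rw [h.o v v' hv, h1]) (by
        rw [h.ty v v' hv, h3]; exact fun he => hk he.symm)
      have hT := hX.sqT _ _ _ _ hs
      refine ⟨b', ⟨?_, hT.mb, ?_⟩, d, hs⟩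
      · rw [← hT.tab, h.t v v' hv]
      · rw [hT.tyb, hp, h3]) (by
      rintro v v' y y' hv _ _ ⟨d, hs⟩
      refine ⟨X.i d, ?_⟩
      have h1 := hX.sqr _ _ _ _ hs
      rw [← h.inv v v' hv] at h1
      exact h1) v0 b ⟨hb, hm, rfl⟩
  have hex : ∀ v v', ∃ d, S.Adj v v' → X.sq (al v v') (β v') (β v) d := by
    intro v v'
    by_cases hv : S.Adj v v'
    · obtain ⟨d, hd⟩ := hβR v v' hv
      exact ⟨d, fun _ => hd⟩
    · exact ⟨b, fun hv' => absurd hv' hv⟩
  choose al' hal using hex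
  refine ⟨fun v => X.t (β v), al', β, ?_, ⟨fun v => (hβQ v).1, fun v => rfl, hal⟩, hβ0,
    fun v => ⟨(hβQ v).2.1, (hβQ v).2.2⟩⟩
  refine ⟨?_, ?_, ?_, ?_, ?_, ?_, ?_⟩
  · intro v v' hv
    exact (hX.sqT _ _ _ _ (hal v v' hv)).md
  · intro v v' hv
    rw [(hX.sqT _ _ _ _ (hal v v' hv)).tyd, hp, h.ty v v' hv]
  · intro v v' hv
    exact (hX.sqT _ _ _ _ (hal v v' hv)).tcd.symm
  · intro v v' hv
    exact (hX.sqT _ _ _ _ (hal v v' hv)).tbd.symm
  · intro v v' hv
    have h1 := hX.sqr _ _ _ _ (hal v v' hv)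
    rw [← h.inv v v' hv] at h1
    exact val_squd hX (hal v' v hv.symm) h1
  · rintro v x y hx hy ⟨s, hs, he⟩
    have hTx := hX.sqT _ _ _ _ (hal v x hx)
    have hs' : X.rc (β x) s := ⟨hs.1, by rw [hs.2, hTx.tbd]⟩
    have h1 := val_sqn hX (hal v x hx) hs'
    rw [← he] at h1
    obtain ⟨s', h2, h3, _⟩ := hX.squ _ _ _ _ _ _ (hX.sqs _ _ _ _ h1) (hX.sqs _ _ _ _ (hal v y hy))
    exact h.inj v x y hx hy ⟨s', h2, h3⟩
  · rintro v a ⟨ho, ha, hty⟩
    have hty' : X.ty (β v) = X.ty b := (hβQ v).2.2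
    obtain ⟨c, d, hs⟩ := hX.sqe (β v) a (hβQ v).2.1 ha ho.symm (by
      rw [hp, hty, hty']; exact fun he => hk he.symm)
    have hT := hX.sqT _ _ _ _ hs
    have hc : X.dir (q v) k c := by
      refine ⟨?_, hT.mc, ?_⟩
      · rw [← hT.oac, (hβQ v).1]
      · have h1 := hT.tyb
        rw [hp, hty] at h1
        exact h1.symm
    obtain ⟨v', hv, s, hrc, he⟩ := h.sur v c hc
    rw [he] at hs
    have hrc' : X.rc (X.mr (al v v') s) (X.i s) :=
      ⟨fun hm' => hrc.1 ((hX.mi s).1 hm'), by rw [hX.oi, val_mrt hX hrc]⟩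
    have h1 := val_sqm' hX hs hrc'
    rw [val_mri hX hrc] at h1
    obtain ⟨s', h2, _, h4⟩ := val_sqc hX (hal v v' hv) (hX.sqs _ _ _ _ h1)
    exact ⟨v', hv, s', ⟨h2.1, by rw [h2.2, (hX.sqT _ _ _ _ (hal v v' hv)).tbd]⟩, h4⟩

end

end LatF
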