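import Pool.Agent.Lib.MP_32d917_al.FDefs
import Pool.Agent.Lib.MP_32d917_al.F.FVAL
import Pool.Agent.Lib.MP_32d917_al.TTL

/-!
# connecting arrows: symmetry, uniqueness, exchange

conn_symm: from `sq (al v v') (β v') (β v) (al' v v')` by `sqs`, `sqr`, `sqs`. conn_uniq: by connectedness and `val_squb` (`al`, `β v`, `al'` determine `β v'`). conn_dir: `SqT` along an edge gives `mv (β v')` and
`ty (β v') = ty (β v)` (as `pm = id`). conn_cube: for every `v` there is exactly one `y` with `sq (β v) (γ' v) (γ v) y` (uniqueness `val_squd`; existence along an edge from `v` to `v'` by the axiom `cube` with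
`a = al v v'`, `b = β v`, `b₁ = β v'`, `a₁ = al₁ v v'`, `c = γ v`, `c₁ = γ v'`, `a₂ = al₂ v v'`, `c' = γ' v`, `c₁' = γ' v'`, `a₃ = al₃ v v'`, `b' = y`); the cube also gives `sq (al₂ v v') y' y (al₃ v v')`.
-/

set_option autoImplicit false

namespace LatF

open LatIso LatN

section

variable {ι P A : Type} {X : FD ι P A}

theorem conn_symm (hX : Valid0 X) {V : Type} {S : SimpleGraph V} {q q' : V → P}
    {al al' : V → V → A} {β : V → A} (h : Conn X S q al q' al' β) :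
    Conn X S q' al' q al (fun v => X.i (β v)) where
  o v := by rw [hX.oi, h.t]
  t v := by rw [hX.ti, h.o]
  sq v v' hv := hX.sqs _ _ _ _ (hX.sqr _ _ _ _ (hX.sqs _ _ _ _ (h.sq v v' hv)))

/-- the arrows connecting two axes are determined by one of them -/
theorem conn_uniq (hX : Valid0 X) {V : Type} {S : SimpleGraph V} (hS : S.Connected)
    {q q' : V → P} {al al' : V → V → A} {β γ : V → A} (h : Conn X S q al q' al' β)
    (h' : Conn X S q al q' al' γ) (v0 : V) (h0 : β v0 = γ v0) : β = γ := by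
  funext v
  refine ttl_ind hS (fun w => β w = γ w) v0 h0 ?_ v
  intro u u' hu hQ
  have h1 := h.sq u u' hu
  have h2 := h'.sq u u' hu
  rw [← hQ] at h2
  exact val_squb hX h1 h2

theorem conn_dir (hX : Valid0 X) (hp : ∀ a k, X.pm a k = k) {V : Type} {S : SimpleGraph V}
    (hS : S.Connected) {q q' : V → P} {al al' : V → V → A} {β : V → A}
    (h : Conn X S q al q' al' β) (v0 : V) (i : ι) (h0 : X.dir (q v0) i (β v0)) (v : V) :
    X.dir (q v) i (β v) := by
  refine ttl_ind hS (fun w => X.dir (q w) i (β w)) v0 h0 ?_ v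
  intro u u' hu hQ
  have h1 := hX.sqT _ _ _ _ (h.sq u u' hu)
  refine ⟨h.o u', h1.mb, ?_⟩
  rw [h1.tyb, hp, hQ.2.2]

/-- exchange: four axes over the corners of a square -/
theorem conn_cube (hX : Valid0 X) {V : Type} {S : SimpleGraph V} (hS : S.IsTree)
    {q q₁ q₂ q₃ : V → P} {al al₁ al₂ al₃ : V → V → A} {β γ γ' : V → A}
    (h1 : Conn X S q al q₁ al₁ β) (h2 : Conn X S q al q₂ al₂ γ)
    (h3 : Conn X S q₁ al₁ q₃ al₃ γ') (v0 : V) (b' : A) (h4 : X.sq (β v0) (γ' v0) (γ v0) b') :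
    ∃ β' : V → A, β' v0 = b' ∧ Conn X S q₂ al₂ q₃ al₃ β' ∧
      ∀ v, X.sq (β v) (γ' v) (γ v) (β' v) := by
  have hex : ∀ v, ∃ y, X.sq (β v) (γ' v) (γ v) y := by
    intro v
    refine ttl_ind hS.connected (fun w => ∃ y, X.sq (β w) (γ' w) (γ w) y) v0 ⟨b', h4⟩ ?_ v
    rintro u u' hu ⟨y, hy⟩
    obtain ⟨y', h5, _⟩ := hX.cube _ _ _ _ _ _ _ _ _ _ _ (h1.sq u u' hu) (h2.sq u u' hu)
      (h3.sq u u' hu) hy
    exact ⟨y', h5⟩
  choose β' hβ' using hex
  refine ⟨β', val_squd hX (hβ' v0) h4, ⟨fun v => ?_, fun v => ?_, fun v v' hv => ?_⟩, hβ'⟩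
  · rw [← (hX.sqT _ _ _ _ (hβ' v)).tcd, h2.t]
  · rw [← (hX.sqT _ _ _ _ (hβ' v)).tbd, h3.t]
  · obtain ⟨y', h5, h6⟩ := hX.cube _ _ _ _ _ _ _ _ _ _ _ (h1.sq v v' hv) (h2.sq v v' hv)
      (h3.sq v v' hv) (hβ' v)
    rw [val_squd hX h5 (hβ' v')] at h6
    exact h6

end

end LatF
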