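import Pool.Agent.Lib.MP_32d917_al.FDefs
import Pool.Agent.Lib.MP_32d917_al.F.FVAL
import Pool.Agent.Lib.MP_32d917_al.F.CONNA
import Pool.Agent.Lib.MP_32d917_al.F.CONNB

/-!
# connecting arrows: equivalence and surjectivity

conn_eqv: along an edge `v v'`: `γ v = mr (β v) s`. From `sq (al v v') (β v') (β v) (al₁ v v')` by `val_sqm'`: `sq (al v v') (β v') (mr (β v) s) _`, and `sq (al v v') (γ v') (γ v) (al₂ v v')` has the same `a`, `c`; `val_sqc` gives `γ v' ~ β v'`.
Then connectedness. conn_sur: `conn_exists` with base vertex `v` and arrow `a` gives `γ` with `γ v = a`; put `b = γ v0` (direction `i` by `conn_dir`); for every `β` with `β v0 ~ γ v0` `conn_eqv` gives `β v ~ γ v = a`.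
-/

set_option autoImplicit false

namespace LatF

open LatIso LatN

section

variable {ι P A : Type} {X : FD ι P A}

/-- equivalence of the connecting arrows is constant along the axis -/
theorem conn_eqv (hX : Valid0 X) {V : Type} {S : SimpleGraph V} (hS : S.Connected)
    {q q₁ q₂ : V → P} {al al₁ al₂ : V → V → A} (hal : ∀ v v', S.Adj v v' → al v' v = X.i (al v v'))
    {β γ : V → A} (h : Conn X S q al q₁ al₁ β) (h' : Conn X S q al q₂ al₂ γ) (v v' : V)
    (h0 : X.eqv (β v) (γ v)) : X.eqv (β v') (γ v') := by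
  refine ttl_ind hS (fun w => X.eqv (β w) (γ w)) v h0 ?_ v'
  intro u u' hu hQ
  obtain ⟨s, hs, he⟩ := hQ
  have h1 := val_sqm' hX (h.sq u u' hu) hs
  have h2 := h'.sq u u' hu
  rw [he] at h2
  obtain ⟨s', h3, h4, _⟩ := val_sqc hX h1 h2
  exact ⟨s', h3, h4⟩

/-- an arrow in another direction at `v` is transported to `v0` -/
theorem conn_sur (hX : Valid0 X) (hp : ∀ a k, X.pm a k = k) {k : ι} {V : Type}
    {S : SimpleGraph V} (hS : S.IsTree) {q : V → P} {al : V → V → A} (h : FH X k S q al)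
    (v0 v : V) (i : ι) (hi : i ≠ k) (a : A) (ha : X.dir (q v) i a) :
    ∃ b, X.dir (q v0) i b ∧ ∀ (q' : V → P) (al' : V → V → A) (β : V → A),
      Conn X S q al q' al' β → X.eqv (β v0) b → X.eqv (β v) a := by
  obtain ⟨q1, al1, γ, _, h1, h2, h3⟩ := conn_exists hX hp hS h v a ha.1 ha.2.1
    (by rw [ha.2.2]; exact hi)
  refine ⟨γ v0, ⟨h1.o v0, (h3 v0).1, ?_⟩, ?_⟩
  · rw [(h3 v0).2, ha.2.2]
  · intro q' al' β hβ he
    have h4 := conn_eqv hX hS.connected h.inv hβ h1 v0 v he
    rwa [h2] at h4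

end

end LatF
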