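import Pool.Agent.Lib.MP_32d917_al.FDefs
import Pool.Agent.Lib.MP_32d917_al.F.FVAL
import Pool.Agent.Lib.MP_32d917_al.N.NTTL

/-!
# connectedness of the frames

f_induct: use `n_induct` of N/NTTL on the points (classical DecidableEq), with the property of the point `x`: all frames over `x` satisfy `Q`. Frames over
the same point are connected by an arrow, frames over adjacent points too (`sur`). f_induct_j: the same, changing only the
coordinates different from `j`: `NTTL_ind` with `J = univ.erase j` and `x0 = pt f0`. The arrows used do not move `j`: if `a` is moving then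
`lam f (ty a)` is the coordinate which changes (`mo`). lf_onto: strong induction on `r q`: `δ q` starts at an object of smaller
rank, take a frame over it and act by `δ q`.
-/

set_option autoImplicit false

namespace LatF

open LatIso LatN

section

variable {ι P A : Type} {X : FD ι P A} {ι' : Type} {V : ι' → Type}
  {S : ∀ i, SimpleGraph (V i)} {F : Type}

/-- frames are connected by arrows -/
theorem f_induct [Fintype ι'] (hX : Valid0 X) (hS : ∀ i, (S i).Connected) (L : LF X S F)
    (Q : F → Prop) (f0 : F) (h0 : Q f0) (hs : ∀ f a, X.o a = L.p f → Q f → Q (L.act f a)) (f : F) :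
    Q f := by
  classical
  have hsame : ∀ f f' : F, L.pt f' = L.pt f → Q f → Q f' := by
    intro f f' he hQ
    obtain ⟨a, ha, hb⟩ := L.sur f f' (Or.inl he)
    rw [← hb]
    exact hs f a ha hQ
  have key := n_induct hS (fun x => ∀ f, L.pt f = x → Q f) (L.pt f0)
    (fun f hf => hsame f0 f hf h0)
    (fun x i y hy ih f hf => by
      obtain ⟨f1, hf1⟩ := L.onto x
      have hst : Stp S i (L.pt f1) (L.pt f) := by
        rw [hf1, hf]
        refine ⟨by rw [Function.update_self]; exact hy, fun j hj => ?_⟩
        rw [Function.update_of_ne hj]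
      obtain ⟨a, ha, hb⟩ := L.sur f1 f (Or.inr ⟨i, hst⟩)
      rw [← hb]
      exact hs f1 a ha (ih f1 hf1))
  exact key (L.pt f) f rfl

/-- two frames with the same coordinate `j` are connected by arrows not moving it -/
theorem f_induct_j [Fintype ι'] (hX : Valid0 X) (hS : ∀ i, (S i).Connected) (L : LF X S F)
    (j : ι') (Q : F → Prop) (f0 : F) (h0 : Q f0)
    (hs : ∀ f a, X.o a = L.p f → (X.mv a → L.lam f (X.ty a) ≠ j) → Q f → Q (L.act f a)) (f : F)
    (hf : L.pt f j = L.pt f0 j) : Q f := by
  classical
  have hsame : ∀ f f' : F, L.pt f' = L.pt f → Q f → Q f' := by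
    intro f f' he hQ
    obtain ⟨a, ha, hb⟩ := L.sur f f' (Or.inl he)
    rw [← hb]
    refine hs f a ha (fun hm _ => ?_) hQ
    have e1 := (L.mo f a ha hm).1
    rw [hb, he] at e1
    exact (S _).loopless.irrefl _ e1
  have key := n_induct hS
    (fun x => ∀ f, L.pt f = Function.update x j (L.pt f0 j) → Q f) (L.pt f0)
    (fun f hf => hsame f0 f (by rw [hf, Function.update_eq_self]) h0)
    (fun x i y hy ih f hf => by
      by_cases hij : i = j
      · subst hij
        rw [Function.update_idem] at hf
        exact ih f hf
      · obtain ⟨f1, hf1⟩ := L.onto (Function.update x j (L.pt f0 j))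
        have hst : Stp S i (L.pt f1) (L.pt f) := by
          rw [hf1, hf, Function.update_comm hij]
          refine ⟨?_, fun k hk => ?_⟩
          · rw [Function.update_self, Function.update_of_ne hij]
            exact hy
          · rw [Function.update_of_ne hk]
        obtain ⟨a, ha, hb⟩ := L.sur f1 f (Or.inr ⟨i, hst⟩)
        rw [← hb]
        refine hs f1 a ha (fun hm he => ?_) (ih f1 hf1)
        have e1 := (L.mo f1 a ha hm).1
        rw [hb, he, hst.2 j (Ne.symm hij)] at e1
        exact (S _).loopless.irrefl _ e1)
    (L.pt f)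
  exact key f (by rw [← hf, Function.update_eq_self])

theorem lf_onto (hX : Valid0 X) (L : LF X S F) {p0 : P} {δ : P → A} {r : P → ℕ}
    (hs : Span X p0 δ r) (h0 : ∃ f, L.p f = p0) (q : P) : ∃ f, L.p f = q := by
  have key : ∀ (n : ℕ) (q : P), r q < n → ∃ f, L.p f = q := by
    intro n
    induction n with
    | zero => intro q hq; exact absurd hq (Nat.not_lt_zero _)
    | succ n ih =>
      intro q hq
      by_cases hp : q = p0
      · rw [hp]; exact h0
      · obtain ⟨h1, h2⟩ := hs q hp
        obtain ⟨f, hf⟩ := ih (X.o (δ q)) (lt_of_lt_of_le h2 (Nat.lt_succ_iff.mp hq))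
        exact ⟨L.act f (δ q), by rw [L.act_p f _ hf.symm, h1]⟩
  exact key (r q + 1) q (Nat.lt_succ_self _)

end

end LatF
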