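import Pool.Agent.Lib.MP_32d917_al.FDefs
import Pool.Agent.Lib.MP_32d917_al.F.FVAL
import Pool.Agent.Lib.MP_32d917_al.N.NTTL

/-!
# transport on framed products (universal property of the frames)

Classical `DecidableEq ι'`. Choose for every point `x` a frame `sec x` with `pt (sec x) = x` (onto), with `sec x0' = f0` for `x0' = pt f0`. For adjacent points
`x`, `y = Function.update x i v` let `a(x,i,v)` be the arrow from `sec x` to `sec y` (`sur`): `o a = p (sec x)`, `act (sec x) a = sec y`; it is moving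
(a stationary arrow does not change the point, `st`) and `lam (sec x) (ty a) = i` (by `mo`: the coordinate that changes).
Apply `nttl` (N/NTTL.lean) with states `y : Y`, `Q x y := pY y = p (sec x)`, `ph x i v y := aY y (a(x,i,v))`. h1: h0. h2: `a(y,i,x i) = X.i a(x,i,v)` by
`inj` and `act_i`; then hypothesis h2 of fttl. h3: for `i ≠ j` the four arrows form a square: `sq_of` (check `SqT`: the types from
`lam` and its injectivity, `act_lam`), so hypothesis h4. This gives `γ : points → Y` with `γ (pt f0) = y0`, `pY (γ x) = p (sec x)`.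
For a frame `f` let `s(f)` be the stationary arrow from `sec (pt f)` to `f` (`sur`; it is stationary since otherwise `mo` would change the point).
Put `Φ f = aY (γ (pt f)) (s(f))`. `Φ f0 = y0`: `s(f0) = X.e _` by `inj`, `act_e`. `pY (Φ f) = X.t s(f) = p f`. For `a` with `o a = p f`:
if `a` is stationary: `s(act f a) = ml s(f) a` (`inj`, `act_ml`), so h3. If `a` is moving, `x = pt f`, `y = pt (act f a)`, `b = a(x,i,y i)`, `s' = s(act f a)`: both `ml s(f) a` and `mr b s'` are
arrows from `sec x` to `act f a`, so they are equal (`inj`). `aY (aY γx s) a = aY γx (ml s a) = aY γx (mr b s') = aY (aY γx b) s' = Φ (act f a)`, where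
`aY z (mr b s') = aY (aY z b) s'` follows from h2, h3: let `z' = aY (aY z b) s'`; `aY z' (ml (i s') (i b)) = aY (aY z' (i s')) (i b) = z`, so
`aY z (i (ml ..)) = z'`. (The same computation for `act`.)
f_induct: for every frame `f` (use `n_induct` of N/NTTL on the points, with the property of `x`: all frames over `x` satisfy `Q`; frames over the same point are
connected by a stationary arrow, frames over adjacent points by an arrow, `sur`). f_induct_j: the same, changing only the coordinates different from `j`: apply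
`n_induct` to the product of the trees `V l`, `l ≠ j`, or `NTTL_ind` with `J = univ.erase j` and `x0 = pt f0`. The arrows used do not move `j` since
`lam f (ty a)` is the coordinate which changes. lf_onto: strong induction on `r q`: `δ q` starts at an object of smaller rank.
-/

set_option autoImplicit false

namespace LatF

open LatIso LatN

section

/-- the action of the product of an arrow and a stationary arrow -/
theorem fttl_mr {ι P A : Type} {X : FD ι P A} (hX : Valid0 X) {Y : Type} (pY : Y → P)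
    (aY : Y → A → Y) (h0 : ∀ y a, X.o a = pY y → pY (aY y a) = X.t a)
    (h2 : ∀ y a, X.o a = pY y → aY (aY y a) (X.i a) = y)
    (h3 : ∀ y s a, X.o s = pY y → X.lc s a → aY y (X.ml s a) = aY (aY y s) a)
    (y : Y) (b s : A) (hb : X.o b = pY y) (hs : X.rc b s) :
    aY y (X.mr b s) = aY (aY y b) s := by
  have hl := fval_lc hX hs
  have e1 : X.o s = pY (aY y b) := by rw [h0 y b hb, hs.2]
  have e2 : X.o (X.i s) = pY (aY (aY y b) s) := by rw [h0 _ s e1, hX.oi]
  have e3 : aY (aY (aY y b) s) (X.ml (X.i s) (X.i b)) = y := by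
    rw [h3 _ _ _ e2 hl, h2 _ s e1, h2 y b hb]
  have e4 : X.o (X.ml (X.i s) (X.i b)) = pY (aY (aY y b) s) := by rw [hX.mlo _ _ hl, e2]
  have e5 := h2 _ _ e4
  rw [e3] at e5
  exact e5

theorem lf_act_mr {ι P A : Type} {X : FD ι P A} (hX : Valid0 X) {ι' : Type} {V : ι' → Type}
    {S : ∀ i, SimpleGraph (V i)} {F : Type} (L : LF X S F) (f : F) (b s : A) (hb : X.o b = L.p f)
    (hs : X.rc b s) : L.act f (X.mr b s) = L.act (L.act f b) s :=
  fttl_mr hX L.p L.act L.act_p L.act_i L.act_ml f b s hb hs

end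

section

variable {ι P A : Type} {X : FD ι P A} {ι' : Type} [Fintype ι'] {V : ι' → Type}
  {S : ∀ i, SimpleGraph (V i)} {F : Type}

theorem fttl (hX : Valid0 X) (hS : ∀ i, (S i).IsTree) (L : LF X S F) {Y : Type} (pY : Y → P)
    (aY : Y → A → Y) (h0 : ∀ y a, X.o a = pY y → pY (aY y a) = X.t a)
    (h1 : ∀ y, aY y (X.e (pY y)) = y)
    (h2 : ∀ y a, X.o a = pY y → aY (aY y a) (X.i a) = y)
    (h3 : ∀ y s a, X.o s = pY y → X.lc s a → aY y (X.ml s a) = aY (aY y s) a)
    (h4 : ∀ y a b c d, X.o a = pY y → X.sq a b c d → aY (aY y a) b = aY (aY y c) d)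
    (f0 : F) (y0 : Y) (hy : pY y0 = L.p f0) :
    ∃ Φ : F → Y, Φ f0 = y0 ∧ (∀ f, pY (Φ f) = L.p f) ∧
      ∀ f a, X.o a = L.p f → Φ (L.act f a) = aY (Φ f) a := by
  classical
  obtain ⟨sec, hsec, hsec0⟩ : ∃ sec : (∀ i, V i) → F, (∀ x, L.pt (sec x) = x) ∧
      sec (L.pt f0) = f0 := by
    choose s hs using L.onto
    refine ⟨fun x => if x = L.pt f0 then f0 else s x, fun x => ?_, by simp⟩
    by_cases hx : x = L.pt f0
    · simp [hx]
    · simp [hx, hs]
  have hstp : ∀ (x : ∀ i, V i) (i : ι') (v : V i), (S i).Adj (x i) v →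
      Stp S i (L.pt (sec x)) (L.pt (sec (Function.update x i v))) := by
    intro x i v hv
    rw [hsec, hsec]
    refine ⟨by rw [Function.update_self]; exact hv, fun j hj => ?_⟩
    rw [Function.update_of_ne hj]
  have hex : ∀ (x : ∀ i, V i) (i : ι') (v : V i), ∃ a, (S i).Adj (x i) v →
      X.o a = L.p (sec x) ∧ L.act (sec x) a = sec (Function.update x i v) := by
    intro x i v
    by_cases hv : (S i).Adj (x i) v
    · obtain ⟨a, ha⟩ := L.sur (sec x) (sec (Function.update x i v)) (Or.inr ⟨i, hstp x i v hv⟩)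
      exact ⟨a, fun _ => ha⟩
    · exact ⟨X.e (L.p f0), fun h => absurd h hv⟩
  choose ar har using hex
  have hmv : ∀ x i v, (S i).Adj (x i) v → X.mv (ar x i v) := by
    intro x i v hv
    by_contra hm
    have e1 := L.st _ _ (har x i v hv).1 hm
    rw [(har x i v hv).2, hsec, hsec] at e1
    have e2 := congrFun e1 i
    rw [Function.update_self] at e2
    rw [e2] at hv
    exact (S i).loopless.irrefl _ hv
  have hlam : ∀ x i v, (S i).Adj (x i) v → L.lam (sec x) (X.ty (ar x i v)) = i := by
    intro x i v hv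
    have e1 := L.mo _ _ (har x i v hv).1 (hmv x i v hv)
    rw [(har x i v hv).2, hsec, hsec] at e1
    by_contra hj
    have e2 := e1.1
    rw [Function.update_of_ne hj] at e2
    exact (S _).loopless.irrefl _ e2
  have hback : ∀ x i v, (S i).Adj (x i) v → (S i).Adj (Function.update x i v i) (x i) := by
    intro x i v hv
    rw [Function.update_self]
    exact hv.symm
  have hpt : ∀ x i v, (S i).Adj (x i) v → X.t (ar x i v) = L.p (sec (Function.update x i v)) := by
    intro x i v hv
    rw [← L.act_p _ _ (har x i v hv).1, (har x i v hv).2]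
  have hinv : ∀ x i v, (S i).Adj (x i) v → ar (Function.update x i v) i (x i) = X.i (ar x i v) := by
    intro x i v hv
    have e1 := har _ i _ (hback x i v hv)
    refine L.inj (sec (Function.update x i v)) _ _ e1.1 ?_ ?_
    · rw [hX.oi, hpt x i v hv]
    · rw [e1.2, ← (har x i v hv).2, L.act_i _ _ (har x i v hv).1, Function.update_idem,
        Function.update_eq_self]
  have hsq : ∀ x i v j z, i ≠ j → (S i).Adj (x i) v → (S j).Adj (x j) z →
      X.sq (ar x i v) (ar (Function.update x i v) j z) (ar x j z)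
        (ar (Function.update x j z) i v) := by
    intro x i v j z hij hv hz
    have hz' : (S j).Adj (Function.update x i v j) z := by
      rw [Function.update_of_ne (Ne.symm hij)]; exact hz
    have hv' : (S i).Adj (Function.update x j z i) v := by
      rw [Function.update_of_ne hij]; exact hv
    have hc : Function.update (Function.update x i v) j z =
        Function.update (Function.update x j z) i v := Function.update_comm hij _ _ _
    refine L.sq_of (sec x) _ _ _ _ (har x i v hv).1 ?_ ?_
    · refine ⟨hmv _ _ _ hv, hmv _ _ _ hz', hmv _ _ _ hz, hmv _ _ _ hv', ?_, ?_, ?_, ?_, ?_, ?_, ?_⟩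
      · rw [(har _ _ _ hv).1, (har _ _ _ hz).1]
      · rw [hpt _ _ _ hv, (har _ _ _ hz').1]
      · rw [hpt _ _ _ hz, (har _ _ _ hv').1]
      · rw [hpt _ _ _ hz', hpt _ _ _ hv', hc]
      · intro he
        apply hij
        rw [← hlam _ _ _ hv, he, hlam _ _ _ hz]
      · apply (L.bij (sec (Function.update x i v))).1
        rw [hlam _ _ _ hz', ← (har _ _ _ hv).2, L.act_lam _ _ (har _ _ _ hv).1, hlam _ _ _ hz]
      · apply (L.bij (sec (Function.update x j z))).1
        rw [hlam _ _ _ hv', ← (har _ _ _ hz).2, L.act_lam _ _ (har _ _ _ hz).1, hlam _ _ _ hv]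
    · rw [(har _ _ _ hv).2, (har _ _ _ hz').2, (har _ _ _ hz).2, (har _ _ _ hv').2, hc]
  obtain ⟨γ, hγ0, hγ1, hγ2⟩ := nttl hS (fun x y => pY y = L.p (sec x))
    (fun x i v y => aY y (ar x i v))
    (fun x i v y hv hQ => by
      have hQ' : X.o (ar x i v) = pY y := by rw [(har _ _ _ hv).1, hQ]
      show pY (aY y (ar x i v)) = _
      rw [h0 y _ hQ', hpt _ _ _ hv])
    (fun x i v y hv hQ => by
      have hQ' : X.o (ar x i v) = pY y := by rw [(har _ _ _ hv).1, hQ]
      show aY (aY y (ar x i v)) (ar (Function.update x i v) i (x i)) = y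
      rw [hinv _ _ _ hv, h2 y _ hQ'])
    (fun x i v j z y hij hv hz hQ => by
      have hQ' : X.o (ar x i v) = pY y := by rw [(har _ _ _ hv).1, hQ]
      exact h4 y _ _ _ _ hQ' (hsq x i v j z hij hv hz))
    (L.pt f0) y0 (by rw [hsec0, hy])
  choose σ hσ1 hσ2 using fun f : F => L.sur (sec (L.pt f)) f (Or.inl (hsec (L.pt f)).symm)
  have hσm : ∀ f, ¬ X.mv (σ f) := by
    intro f hm
    have e1 := (L.mo _ _ (hσ1 f) hm).1
    rw [hσ2 f, hsec] at e1
    exact (S _).loopless.irrefl _ e1
  have hσt : ∀ f, X.t (σ f) = L.p f := by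
    intro f
    rw [← L.act_p _ _ (hσ1 f), hσ2 f]
  have hσp : ∀ f, X.o (σ f) = pY (γ (L.pt f)) := by
    intro f
    rw [hσ1 f, hγ1]
  refine ⟨fun f => aY (γ (L.pt f)) (σ f), ?_, ?_, ?_⟩
  · have e1 : σ f0 = X.e (L.p f0) := by
      have e2 := hσ1 f0
      have e3 := hσ2 f0
      rw [hsec0] at e2 e3
      exact L.inj f0 _ _ e2 (hX.oe _) (by rw [e3, L.act_e])
    show aY (γ (L.pt f0)) (σ f0) = y0
    rw [e1, hγ0, ← hy, h1]
  · intro f
    show pY (aY (γ (L.pt f)) (σ f)) = _
    rw [h0 _ _ (hσp f), hσt f]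
  · intro f a ha
    show aY (γ (L.pt (L.act f a))) (σ (L.act f a)) = aY (aY (γ (L.pt f)) (σ f)) a
    have hlc : X.lc (σ f) a := ⟨hσm f, by rw [hσt f, ha]⟩
    have e1 : L.act (sec (L.pt f)) (X.ml (σ f) a) = L.act f a := by
      rw [L.act_ml _ _ _ (hσ1 f) hlc, hσ2 f]
    have e2 : X.o (X.ml (σ f) a) = L.p (sec (L.pt f)) := by
      rw [hX.mlo _ _ hlc, hσ1 f]
    rw [← h3 _ _ _ (hσp f) hlc]
    by_cases hm : X.mv a
    · have e3 := L.mo f a ha hm
      have e4 : L.pt (L.act f a) = Function.update (L.pt f) (L.lam f (X.ty a))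
          (L.pt (L.act f a) (L.lam f (X.ty a))) := by
        funext j
        by_cases hj : j = L.lam f (X.ty a)
        · subst hj
          rw [Function.update_self]
        · rw [Function.update_of_ne hj]
          exact e3.2 j hj
      set j := L.lam f (X.ty a) with hj
      set y := L.pt (L.act f a) j with hyj
      have e5 := har (L.pt f) j y e3.1
      have e6 := hσ1 (L.act f a)
      rw [e4] at e6
      have hrc : X.rc (ar (L.pt f) j y) (σ (L.act f a)) :=
        ⟨hσm _, by rw [e6, hpt _ _ _ e3.1]⟩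
      have e7 : X.ml (σ f) a = X.mr (ar (L.pt f) j y) (σ (L.act f a)) := by
        refine L.inj (sec (L.pt f)) _ _ e2 ?_ ?_
        · rw [val_mro hX hrc, e5.1]
        · rw [e1, lf_act_mr hX L _ _ _ e5.1 hrc, e5.2, ← e4, hσ2]
      rw [e7, fttl_mr hX pY aY h0 h2 h3 _ _ _ (by rw [e5.1, hγ1]) hrc, ← hγ2 _ _ _ e3.1, ← e4]
    · have e3 := L.st f a ha hm
      have e4 : σ (L.act f a) = X.ml (σ f) a := by
        have e5 := hσ1 (L.act f a)
        have e6 := hσ2 (L.act f a)
        rw [e3] at e5 e6
        exact L.inj _ _ _ e5 e2 (by rw [e6, e1])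
      rw [e4, e3]

end

end LatF
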