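import Pool.Agent.Lib.MP_32d917_al.FDefs
import Pool.Agent.Lib.MP_32d917_al.F.FTTL
import Pool.Agent.Lib.MP_32d917_al.F.FCON

/-!
# the automorphism group of a framed product acts with quotient X

`G := {φ : Equiv.Perm F // (∀ f, p (φ f) = p f) ∧ ∀ f a, o a = p f → act (φ f) a = φ (act f a)}`, a subgroup of `Equiv.Perm F`. It acts on `F`: free (if `φ f = f` then `φ = 1`
by `f_induct`) and transitive on frames with the same object: for `p f = p f'` apply `fttl` with `Y = F` (pY = p, aY = act) twice: `Φ f = f'`, `Φ' f' = f`, and `Φ' ∘ Φ = id`, `Φ ∘ Φ' = id` by `f_induct`.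
Action on `ι`: `π_φ (lam f k) = lam (φ f) k`: well defined (independent of `f`): for fixed `φ` the map `(lam (φ f)) ∘ (lam f)⁻¹` does not change under `f ↦ act f a` (`act_lam`), `f_induct`.
Forest: `V' = Σ i, V i`, `κ = Sigma.fst`. Action on `V'`: `φ • ⟨i, v⟩ = ⟨π_φ i, pt (φ f) (π_φ i)⟩` for any `f` with `pt f i = v`; well defined by `f_induct_j`.
-/

set_option autoImplicit false

namespace LatF

open LatIso LatN

section

variable {ι P A : Type} {X : FD ι P A} {V : ι → Type} {S : ∀ i, SimpleGraph (V i)}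
  {F : Type}

/-- the permutations of the frames which respect the objects and the arrows -/
def fautG (L : LF X S F) : Subgroup (Equiv.Perm F) where
  carrier := {φ | (∀ f, L.p (φ f) = L.p f) ∧ ∀ f a, X.o a = L.p f → L.act (φ f) a = φ (L.act f a)}
  one_mem' := ⟨fun _ => rfl, fun _ _ _ => rfl⟩
  mul_mem' := by
    rintro a b ⟨a1, a2⟩ ⟨b1, b2⟩
    refine ⟨fun f => (a1 _).trans (b1 f), fun f c h => ?_⟩
    show L.act (a (b f)) c = a (b (L.act f c))
    rw [a2 _ _ (h.trans (b1 f).symm), b2 _ _ h]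
  inv_mem' := by
    rintro a ⟨a1, a2⟩
    have i1 : ∀ x, a (a⁻¹ x) = x := fun x => Equiv.apply_symm_apply _ _
    have i2 : ∀ x, a⁻¹ (a x) = x := fun x => Equiv.symm_apply_apply _ _
    have hp : ∀ f, L.p (a⁻¹ f) = L.p f := fun f => by rw [← a1, i1]
    refine ⟨hp, fun f c h => ?_⟩
    have h1 := a2 (a⁻¹ f) c (h.trans (hp f).symm)
    rw [i1] at h1
    rw [h1, i2]

/-- the labelling of the directions as a permutation -/
noncomputable def fautE (L : LF X S F) (f : F) : ι ≃ ι := Equiv.ofBijective _ (L.bij f)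

/-- the action on the directions, with the help of a frame `f0` -/
noncomputable def fautP (L : LF X S F) (f0 : F) (φ : fautG L) (i : ι) : ι :=
  L.lam (φ.1 f0) ((fautE L f0).symm i)

theorem fautP_spec [Fintype ι] (hX : Valid0 X) (hS : ∀ i, (S i).Connected) (L : LF X S F) (f0 : F)
    (φ : fautG L) (f : F) : ∀ k, fautP L f0 φ (L.lam f k) = L.lam (φ.1 f) k := by
  refine f_induct hX hS L (fun f => ∀ k, fautP L f0 φ (L.lam f k) = L.lam (φ.1 f) k) f0 ?_ ?_ f
  · intro k
    unfold fautP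
    have h : (fautE L f0).symm (L.lam f0 k) = k := (fautE L f0).symm_apply_apply k
    rw [h]
  · intro f a ha h k
    obtain ⟨k', rfl⟩ : ∃ k', k = X.pm a k' := by
      refine ⟨X.pm (X.i a) k, ?_⟩
      have h1 := hX.pi (X.i a) k
      rw [hX.ii] at h1
      exact h1.symm
    rw [L.act_lam f a ha k', h k', ← φ.2.2 f a ha]
    exact (L.act_lam (φ.1 f) a (ha.trans (φ.2.1 f).symm) k').symm

theorem fautP_one [Fintype ι] (hX : Valid0 X) (hS : ∀ i, (S i).Connected) (L : LF X S F) (f0 : F)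
    (i : ι) : fautP L f0 1 i = i := by
  obtain ⟨k, rfl⟩ := (L.bij f0).2 i
  exact fautP_spec hX hS L f0 1 f0 k

theorem fautP_mul [Fintype ι] (hX : Valid0 X) (hS : ∀ i, (S i).Connected) (L : LF X S F) (f0 : F)
    (φ ψ : fautG L) (i : ι) : fautP L f0 (φ * ψ) i = fautP L f0 φ (fautP L f0 ψ i) := by
  obtain ⟨k, rfl⟩ := (L.bij f0).2 i
  rw [fautP_spec hX hS L f0 (φ * ψ) f0 k, fautP_spec hX hS L f0 ψ f0 k,
    fautP_spec hX hS L f0 φ (ψ.1 f0) k]
  rfl

theorem fautP_inj [Fintype ι] (hX : Valid0 X) (hS : ∀ i, (S i).Connected) (L : LF X S F) (f0 : F)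
    (φ : fautG L) {i j : ι} (h : fautP L f0 φ i = fautP L f0 φ j) : i = j := by
  have h1 := congrArg (fautP L f0 φ⁻¹) h
  rw [← fautP_mul hX hS, ← fautP_mul hX hS, inv_mul_cancel, fautP_one hX hS, fautP_one hX hS] at h1
  exact h1

theorem faut_pt [Fintype ι] (hX : Valid0 X) (hS : ∀ i, (S i).Connected) (L : LF X S F) (f0 : F)
    (φ : fautG L) (i : ι) (f f' : F) (h : L.pt f i = L.pt f' i) :
    L.pt (φ.1 f) (fautP L f0 φ i) = L.pt (φ.1 f') (fautP L f0 φ i) := by
  refine f_induct_j hX hS L i (fun f => L.pt (φ.1 f) (fautP L f0 φ i) =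
    L.pt (φ.1 f') (fautP L f0 φ i)) f' rfl ?_ f h
  intro g a ha hne hg
  have ha' : X.o a = L.p (φ.1 g) := ha.trans (φ.2.1 g).symm
  rw [← φ.2.2 g a ha]
  by_cases hm : X.mv a
  · have h1 := L.mo (φ.1 g) a ha' hm
    rw [← hg]
    apply h1.2
    rw [← fautP_spec hX hS L f0 φ g]
    intro h2
    exact hne hm (fautP_inj hX hS L f0 φ h2).symm
  · rw [L.st _ _ ha' hm]
    exact hg

/-- the vertex `i` of the frame `f` -/
def fvt (L : LF X S F) (f : F) (i : ι) : Σ i, V i := ⟨i, L.pt f i⟩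

theorem fvt_inj (L : LF X S F) {f f' : F} {i : ι} (h : fvt L f i = fvt L f' i) :
    L.pt f i = L.pt f' i := by
  unfold fvt at h
  exact eq_of_heq (Sigma.mk.inj_iff.1 h).2

theorem fvt_ex (L : LF X S F) (hne : ∀ i, Nonempty (V i)) (u : Σ i, V i) :
    ∃ f, fvt L f u.1 = u := by
  classical
  obtain ⟨i, v⟩ := u
  obtain ⟨f, hf⟩ := L.onto (Function.update (fun j => (hne j).some) i v)
  refine ⟨f, ?_⟩
  unfold fvt
  rw [hf, Function.update_self]

/-- the action on the vertices -/
noncomputable def fautV (L : LF X S F) (hne : ∀ i, Nonempty (V i)) (f0 : F) (φ : fautG L)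
    (u : Σ i, V i) : Σ i, V i :=
  fvt L (φ.1 (fvt_ex L hne u).choose) (fautP L f0 φ u.1)

theorem fautV_spec [Fintype ι] (hX : Valid0 X) (hS : ∀ i, (S i).Connected) (L : LF X S F)
    (hne : ∀ i, Nonempty (V i)) (f0 : F) (φ : fautG L) (f : F) (i : ι) :
    fautV L hne f0 φ (fvt L f i) = fvt L (φ.1 f) (fautP L f0 φ i) := by
  unfold fautV
  have h1 := (fvt_ex L hne (fvt L f i)).choose_spec
  have h2 : L.pt (fvt_ex L hne (fvt L f i)).choose i = L.pt f i := fvt_inj L h1
  have h3 := faut_pt hX hS L f0 φ i _ _ h2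
  show (⟨fautP L f0 φ i, L.pt (φ.1 (fvt_ex L hne (fvt L f i)).choose) (fautP L f0 φ i)⟩ : Σ i, V i) =
    ⟨fautP L f0 φ i, L.pt (φ.1 f) (fautP L f0 φ i)⟩
  rw [h3]

/-- the forest -/
def fautS (S : ∀ i, SimpleGraph (V i)) : SimpleGraph (Σ i, V i) where
  Adj u w := ∃ (i : ι) (x y : V i), u = ⟨i, x⟩ ∧ w = ⟨i, y⟩ ∧ (S i).Adj x y
  symm := ⟨by
    rintro u w ⟨i, x, y, rfl, rfl, h⟩
    exact ⟨i, y, x, rfl, rfl, h.symm⟩⟩
  loopless := ⟨by
    rintro u ⟨i, x, y, rfl, h1, h2⟩
    have h3 : x = y := eq_of_heq (Sigma.mk.inj_iff.1 h1).2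
    rw [h3] at h2
    exact (S i).loopless.irrefl y h2⟩

theorem fautS_adj (i : ι) (x y : V i) : (fautS S).Adj ⟨i, x⟩ ⟨i, y⟩ ↔ (S i).Adj x y := by
  constructor
  · rintro ⟨j, x', y', h1, h2, h3⟩
    obtain ⟨rfl, h4⟩ := Sigma.mk.inj_iff.1 h1
    rw [eq_of_heq h4, eq_of_heq (Sigma.mk.inj_iff.1 h2).2]
    exact h3
  · intro h
    exact ⟨i, x, y, rfl, rfl, h⟩

/-- the component -/
def fautK (V : ι → Type) (u : Σ i, V i) : ι := u.1

/-- the fibres -/
def fautF (V : ι → Type) (i : ι) : V i ≃ Fib (fautK V) i where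
  toFun v := ⟨⟨i, v⟩, rfl⟩
  invFun w := cast (congrArg V w.2) w.1.2
  left_inv v := rfl
  right_inv w := by
    obtain ⟨⟨j, v⟩, h⟩ := w
    have h' : j = i := h
    subst h'
    rfl

theorem fautF_adj (i : ι) (x y : V i) :
    (comp (fautK V) (fautS S) i).Adj (fautF V i x) (fautF V i y) ↔ (S i).Adj x y :=
  fautS_adj i x y

/-- the forest is isomorphic to the trees -/
def fautI (S : ∀ i, SimpleGraph (V i)) (i : ι) : S i ≃g comp (fautK V) (fautS S) i where
  toEquiv := fautF V i
  map_rel_iff' := fautF_adj i _ _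

theorem faut_forest (hS : ∀ i, (S i).IsTree) : Forest (fautK V) (fautS S) := by
  refine ⟨fun i => (fautI S i).isTree_iff.1 (hS i), ?_⟩
  rintro u w ⟨i, x, y, rfl, rfl, h⟩
  rfl

/-- the frames over the forest -/
def fautL (L : LF X S F) : LF X (comp (fautK V) (fautS S)) F where
  pt f i := fautF V i (L.pt f i)
  lam := L.lam
  p := L.p
  act := L.act
  bij := L.bij
  onto x := by
    obtain ⟨f, hf⟩ := L.onto (fun i => (fautF V i).symm (x i))
    refine ⟨f, ?_⟩
    funext i
    rw [hf, Equiv.apply_symm_apply]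
  act_p := L.act_p
  act_lam := L.act_lam
  act_e := L.act_e
  act_i := L.act_i
  act_ml := L.act_ml
  act_sq := L.act_sq
  sq_of := L.sq_of
  st f a h1 h2 := by
    funext i
    rw [L.st f a h1 h2]
  mo f a h1 h2 := by
    obtain ⟨h3, h4⟩ := L.mo f a h1 h2
    exact ⟨(fautF_adj _ _ _).2 h3, fun j hj => congrArg (fautF V j) (h4 j hj)⟩
  sur f f' h := by
    apply L.sur
    rcases h with h | ⟨i, h1, h2⟩
    · left
      funext i
      exact (fautF V i).injective (congrFun h i)
    · right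
      exact ⟨i, (fautF_adj _ _ _).1 h1, fun j hj => (fautF V j).injective (h2 j hj)⟩
  inj := L.inj

end

section

variable {ι P A : Type} {X : FD ι P A} [Fintype ι] {V : ι → Type} {S : ∀ i, SimpleGraph (V i)}
  {F : Type}

theorem lf_cov (hX : Valid X) (hS : ∀ i, (S i).IsTree) (L : LF X S F)
    (hon : ∀ q, ∃ f, L.p f = q) : ∃ (G : Type) (_ : Group G), HasCov G X := by
  classical
  have hv := hX.v0
  have hc : ∀ i, (S i).Connected := fun i => (hS i).connected
  have hne : ∀ i, Nonempty (V i) := fun i => (hc i).nonempty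
  obtain ⟨f0, -⟩ := L.onto (fun i => (hne i).some)
  let actI : MulAction (fautG L) ι :=
    { smul := fun φ i => fautP L f0 φ i
      one_smul := fun i => fautP_one hv hc L f0 i
      mul_smul := fun φ ψ i => fautP_mul hv hc L f0 φ ψ i }
  let actV : MulAction (fautG L) (Σ i, V i) :=
    { smul := fun φ u => fautV L hne f0 φ u
      one_smul := by
        intro u
        obtain ⟨f, hf⟩ := fvt_ex L hne u
        show fautV L hne f0 1 u = u
        rw [← hf, fautV_spec hv hc, fautP_one hv hc]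
        rfl
      mul_smul := by
        intro φ ψ u
        obtain ⟨f, hf⟩ := fvt_ex L hne u
        show fautV L hne f0 (φ * ψ) u = fautV L hne f0 φ (fautV L hne f0 ψ u)
        rw [← hf, fautV_spec hv hc, fautV_spec hv hc, fautV_spec hv hc, fautP_mul hv hc]
        rfl }
  let actF : MulAction (fautG L) F :=
    { smul := fun φ f => φ.1 f
      one_smul := fun f => rfl
      mul_smul := fun φ ψ f => rfl }
  refine ⟨fautG L, inferInstance, (Σ i, V i), ι, actV, actI, fautK V, fautS S, faut_forest hS, ?_, hX,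
    F, actF, fautL L, ?_⟩
  · refine ⟨fun g v => ?_, fun g x y h => ?_⟩
    · obtain ⟨f, hf⟩ := fvt_ex L hne v
      show (fautV L hne f0 g v).1 = fautP L f0 g v.1
      rfl
    · show (fautS S).Adj (fautV L hne f0 g x) (fautV L hne f0 g y)
      obtain ⟨i, v, w, rfl, rfl, h⟩ := h
      obtain ⟨f, hf⟩ := L.onto (Function.update (fun j => (hne j).some) i v)
      obtain ⟨f', hf'⟩ := L.onto (Function.update (fun j => (hne j).some) i w)
      have e1 : L.pt f i = v := by rw [hf, Function.update_self]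
      have e2 : L.pt f' i = w := by rw [hf', Function.update_self]
      have hst : Stp S i (L.pt f) (L.pt f') := by
        refine ⟨by rw [e1, e2]; exact h, fun j hj => ?_⟩
        rw [hf, hf', Function.update_of_ne hj, Function.update_of_ne hj]
      obtain ⟨a, ha, hact⟩ := L.sur f f' (Or.inr ⟨i, hst⟩)
      have hvw : v ≠ w := (S i).ne_of_adj h
      have hm : X.mv a := by
        by_contra hm
        have h1 := L.st f a ha hm
        rw [hact] at h1
        apply hvw
        rw [← e1, ← e2, h1]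
      have h1 := L.mo f a ha hm
      have h2 : L.lam f (X.ty a) = i := by
        by_contra hne'
        have h3 := h1.2 i (Ne.symm hne')
        rw [hact, e1, e2] at h3
        exact hvw h3.symm
      have h3 := L.mo (g.1 f) a (ha.trans (g.2.1 f).symm) hm
      rw [g.2.2 f a ha, hact, ← fautP_spec hv hc L f0 g f, h2] at h3
      have e3 : (⟨i, v⟩ : Σ i, V i) = fvt L f i := by
        unfold fvt
        rw [e1]
      have e4 : (⟨i, w⟩ : Σ i, V i) = fvt L f' i := by
        unfold fvt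
        rw [e2]
      rw [e3, e4, fautV_spec hv hc, fautV_spec hv hc]
      exact (fautS_adj _ _ _).2 h3.1
  · refine ⟨fun g f => g.2.1 f, fun g f a h => g.2.2 f a h, fun g f i => ?_, fun g f k => ?_,
      fun g f h => ?_, fun f f' h => ?_, hon⟩
    · exact (fautV_spec hv hc L hne f0 g f i).symm
    · exact (fautP_spec hv hc L f0 g f k).symm
    · apply Subtype.ext
      apply Equiv.ext
      intro f'
      refine f_induct hv hc L (fun f' => g.1 f' = f') f h ?_ f'
      intro f1 a ha h1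
      show g.1 (L.act f1 a) = L.act f1 a
      rw [← g.2.2 f1 a ha, h1]
    · obtain ⟨Φ, p1, p2, p3⟩ := fttl hv hS L L.p L.act (fun y a => L.act_p y a) L.act_e L.act_i L.act_ml
        L.act_sq f f' h.symm
      obtain ⟨Ψ, q1, q2, q3⟩ := fttl hv hS L L.p L.act (fun y a => L.act_p y a) L.act_e L.act_i L.act_ml
        L.act_sq f' f h
      have r1 : ∀ x, Ψ (Φ x) = x := by
        intro x
        refine f_induct hv hc L (fun x => Ψ (Φ x) = x) f (by rw [p1, q1]) ?_ x
        intro f1 a ha h1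
        show Ψ (Φ (L.act f1 a)) = L.act f1 a
        rw [p3 f1 a ha, q3 _ a (ha.trans (p2 f1).symm), h1]
      have r2 : ∀ x, Φ (Ψ x) = x := by
        intro x
        refine f_induct hv hc L (fun x => Φ (Ψ x) = x) f' (by rw [q1, p1]) ?_ x
        intro f1 a ha h1
        show Φ (Ψ (L.act f1 a)) = L.act f1 a
        rw [q3 f1 a ha, p3 _ a (ha.trans (q2 f1).symm), h1]
      exact ⟨⟨⟨Φ, Ψ, r1, r2⟩, p2, fun f1 a ha => (p3 f1 a ha).symm⟩, p1⟩

end

end LatF
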