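import Pool.Agent.Lib.MP_32d917_al.FDefs
import Pool.Agent.Lib.MP_32d917_al.SLT

/-!
# slides of forests are forests

Let `v x u` be as in `Slide`. Put `C a b := ∃ g, g • v = a ∧ g • x = b` and `pi a b := g • u` (choice of `g`; independent of the choice
since `stab v ∩ stab x ≤ stab u`). Forest: for every component `i` apply the general theorem `slide_tree` (file SLT) to `comp κ S i`,
`comp κ S' i` and the restrictions of `C`, `pi` to `Fib κ i` (`pi` outside `C` arbitrary, for instance the first argument).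
Conditions: `C a b → ¬ C b a` by `noinv`; `¬ C a (pi a b)`, `¬ C (pi a b) a` by the two conditions on orbits in `Slide`. `kap`: new edges
`(g u, g x)`: `κ` of `g u`, `g v`, `g x` are equal. act.adj: clear. noinv for a new edge `(u, x)` (up to `G` and reversal): if `g u = x`, `g
x = u` then `g` maps the `S`-path `u, v, x` to `x, v', u`; in a tree the midpoint of a path of length 2 is unique (`u ≠ x`), so `g v = v`,
contradicting the first condition of `Slide` (`g v = v`, `g x = u`). loc: the new neighbours of `a`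
have `S`-distance 2 from `a`; balls of radius 2 are finite. prop, fin do not involve `S`.
See also `slide_ta` in SLT.lean.
-/

set_option autoImplicit false

namespace LatF

open LatIso LatN

section

variable {G : Type} [Group G] {V ι : Type} [Fintype ι] [MulAction G V] [MulAction G ι]
  {κ : V → ι} {S S' : SimpleGraph V}

omit [Fintype ι] in
private theorem SLF_tree (L : FLat0 G κ S) (v x u : V) (hvx : S.Adj v x) (hvu : S.Adj v u)
    (s1 : ∀ g : G, ¬ (g • v = v ∧ g • x = u)) (s2 : ∀ g : G, ¬ (g • v = u ∧ g • x = v))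
    (s3 : ∀ g : G, g • v = v → g • x = x → g • u = u)
    (s4 : ∀ a b : V, S'.Adj a b ↔
      (S.Adj a b ∧ ∀ g : G, ¬ (g • v = a ∧ g • x = b) ∧ ¬ (g • v = b ∧ g • x = a)) ∨
      ∃ g : G, (g • u = a ∧ g • x = b) ∨ (g • u = b ∧ g • x = a)) (i : ι) :
    (comp κ S' i).IsTree := by
  classical
  have hkv : ∀ g : G, κ (g • u) = κ (g • v) := by
    intro g
    rw [L.act.kap, L.act.kap, L.forest.kap v u hvu]
  have hkx : ∀ g : G, κ (g • x) = κ (g • v) := by
    intro g
    rw [L.act.kap, L.act.kap, L.forest.kap v x hvx]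
  obtain ⟨C, hC⟩ : ∃ C : Fib κ i → Fib κ i → Prop,
      ∀ a b, C a b ↔ ∃ g : G, g • v = a.1 ∧ g • x = b.1 := ⟨_, fun _ _ => Iff.rfl⟩
  have hex : ∀ a b : Fib κ i, ∃ c : Fib κ i, ∀ g : G, g • v = a.1 → g • x = b.1 →
      c.1 = g • u := by
    intro a b
    by_cases h : ∃ g : G, g • v = a.1 ∧ g • x = b.1
    · obtain ⟨g, g1, g2⟩ := h
      refine ⟨⟨g • u, by rw [hkv, g1, a.2]⟩, fun k k1 k2 => ?_⟩
      have k3 : (k⁻¹ * g) • v = v := by rw [mul_smul, g1, ← k1, inv_smul_smul]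
      have k4 : (k⁻¹ * g) • x = x := by rw [mul_smul, g2, ← k2, inv_smul_smul]
      have k5 := s3 _ k3 k4
      rw [mul_smul, inv_smul_eq_iff] at k5
      exact k5
    · exact ⟨a, fun g g1 g2 => absurd ⟨g, g1, g2⟩ h⟩
  choose pi hpi using hex
  refine slide_tree (S := comp κ S i) (L.forest.tree i) C pi ?_ ?_
  · intro a b hab
    rw [hC] at hab
    obtain ⟨g, g1, g2⟩ := hab
    have hp := hpi a b g g1 g2
    refine ⟨?_, ?_, ?_, ?_, ?_⟩
    · show S.Adj a.1 b.1
      rw [← g1, ← g2]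
      exact L.act.adj g _ _ hvx
    · show S.Adj a.1 (pi a b).1
      rw [hp, ← g1]
      exact L.act.adj g _ _ hvu
    · rw [hC]
      rintro ⟨k, k1, k2⟩
      refine L.noinv (g⁻¹ * k) v x hvx ?_ ?_
      · rw [mul_smul, k1, ← g2, inv_smul_smul]
      · rw [mul_smul, k2, ← g1, inv_smul_smul]
    · rw [hC]
      rintro ⟨k, k1, k2⟩
      refine s1 (g⁻¹ * k) ⟨?_, ?_⟩
      · rw [mul_smul, k1, ← g1, inv_smul_smul]
      · rw [mul_smul, k2, hp, inv_smul_smul]
    · rw [hC]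
      rintro ⟨k, k1, k2⟩
      refine s2 (g⁻¹ * k) ⟨?_, ?_⟩
      · rw [mul_smul, k1, hp, inv_smul_smul]
      · rw [mul_smul, k2, ← g1, inv_smul_smul]
  · intro a b
    have hA : (comp κ S' i).Adj a b ↔ S'.Adj a.1 b.1 := Iff.rfl
    have hB : (comp κ S i).Adj a b ↔ S.Adj a.1 b.1 := Iff.rfl
    rw [hA, hB, s4 a.1 b.1, hC, hC]
    constructor
    · rintro (⟨h3, h4⟩ | ⟨g, ⟨h3, h4⟩ | ⟨h3, h4⟩⟩)
      · refine Or.inl ⟨h3, ?_, ?_⟩
        · rintro ⟨g, g1, g2⟩
          exact (h4 g).1 ⟨g1, g2⟩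
        · rintro ⟨g, g1, g2⟩
          exact (h4 g).2 ⟨g1, g2⟩
      · have hk : κ (g • v) = i := by rw [← hkv, h3, a.2]
        refine Or.inr (Or.inl ⟨⟨g • v, hk⟩, (hC _ _).2 ⟨g, rfl, h4⟩, ?_⟩)
        apply Subtype.ext
        rw [hpi ⟨g • v, hk⟩ b g rfl h4, h3]
      · have hk : κ (g • v) = i := by rw [← hkv, h3, b.2]
        refine Or.inr (Or.inr ⟨⟨g • v, hk⟩, (hC _ _).2 ⟨g, rfl, h4⟩, ?_⟩)
        apply Subtype.ext
        rw [hpi ⟨g • v, hk⟩ a g rfl h4, h3]
    · rintro (⟨h3, h4, h5⟩ | ⟨w, hw, g3⟩ | ⟨w, hw, g3⟩)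
      · exact Or.inl ⟨h3, fun g => ⟨fun h6 => h4 ⟨g, h6⟩, fun h6 => h5 ⟨g, h6⟩⟩⟩
      · obtain ⟨g, g1, g2⟩ := (hC _ _).1 hw
        refine Or.inr ⟨g, Or.inl ⟨?_, g2⟩⟩
        rw [← g3, hpi w b g g1 g2]
      · obtain ⟨g, g1, g2⟩ := (hC _ _).1 hw
        refine Or.inr ⟨g, Or.inr ⟨?_, g2⟩⟩
        rw [← g3, hpi w a g g1 g2]

omit [Fintype ι] in
/-- two vertices of a forest have at most one common neighbour -/
private theorem SLF_mid (hF : Forest κ S) {u x v v' : V} (hux : u ≠ x)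
    (h1 : S.Adj u v) (h2 : S.Adj v x) (h3 : S.Adj u v') (h4 : S.Adj v' x) : v = v' := by
  have k1 := hF.kap _ _ h1
  have k2 := hF.kap _ _ h2
  have k3 := hF.kap _ _ h3
  have h := slt_mid (S := comp κ S (κ u)) (hF.tree (κ u)) (u := ⟨u, rfl⟩)
    (x := ⟨x, (k1.trans k2).symm⟩) (v := ⟨v, k1.symm⟩) (v' := ⟨v', k3.symm⟩)
    (fun hh => hux (congrArg Subtype.val hh)) h1 h2 h3 h4
  exact congrArg Subtype.val h

theorem slide_flat (L : FLat0 G κ S) (hs : Slide G S S') : FLat0 G κ S' := by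
  classical
  obtain ⟨v, x, u, hvx, hvu, s1, s2, s3, s4⟩ := hs
  have hkv : ∀ g : G, κ (g • u) = κ (g • v) := by
    intro g
    rw [L.act.kap, L.act.kap, L.forest.kap v u hvu]
  have hkx : ∀ g : G, κ (g • x) = κ (g • v) := by
    intro g
    rw [L.act.kap, L.act.kap, L.forest.kap v x hvx]
  have hux : u ≠ x := by
    intro hh
    exact s1 1 ⟨one_smul _ _, by rw [one_smul, hh]⟩
  refine ⟨⟨SLF_tree L v x u hvx hvu s1 s2 s3 s4, ?_⟩, ⟨L.act.kap, ?_⟩, ?_, ?_, L.prop, L.fin⟩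
  · intro a b hab
    rw [s4] at hab
    rcases hab with ⟨h3, -⟩ | ⟨g, ⟨h3, h5⟩ | ⟨h3, h5⟩⟩
    · exact L.forest.kap a b h3
    · rw [← h3, ← h5, hkv, hkx]
    · rw [← h3, ← h5, hkv, hkx]
  · intro g a b hab
    rw [s4] at hab ⊢
    rcases hab with ⟨h3, h4⟩ | ⟨k, h3⟩
    · refine Or.inl ⟨L.act.adj g _ _ h3, ?_⟩
      intro k
      obtain ⟨l1, l2⟩ := h4 (g⁻¹ * k)
      refine ⟨fun h6 => l1 ?_, fun h6 => l2 ?_⟩
      · rw [mul_smul, mul_smul, h6.1, h6.2, inv_smul_smul, inv_smul_smul]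
        exact ⟨rfl, rfl⟩
      · rw [mul_smul, mul_smul, h6.1, h6.2, inv_smul_smul, inv_smul_smul]
        exact ⟨rfl, rfl⟩
    · refine Or.inr ⟨g * k, ?_⟩
      rcases h3 with ⟨h3, h5⟩ | ⟨h3, h5⟩
      · left
        rw [mul_smul, mul_smul, h3, h5]
        exact ⟨rfl, rfl⟩
      · right
        rw [mul_smul, mul_smul, h3, h5]
        exact ⟨rfl, rfl⟩
  · intro g a b hab hga hgb
    -- no inversion of the new edge
    have new : ∀ k l : G, l • (k • u) = k • x → l • (k • x) = k • u → False := by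
      intro k l h5 h6
      have h7 : S.Adj (k • u) (k • v) := (L.act.adj k _ _ hvu).symm
      have h8 : S.Adj (k • v) (k • x) := L.act.adj k _ _ hvx
      have h9 : S.Adj (k • x) (l • k • v) := by
        have := L.act.adj l _ _ h7
        rwa [h5] at this
      have h10 : S.Adj (l • k • v) (k • u) := by
        have := L.act.adj l _ _ h8
        rwa [h6] at this
      have hne : k • u ≠ k • x := fun hh => hux (smul_left_cancel k hh)
      have h11 : k • v = l • k • v := SLF_mid L.forest hne h7 h8 h10.symm h9.symm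
      refine s1 (k⁻¹ * l * k) ⟨?_, ?_⟩
      · rw [mul_smul, mul_smul, ← h11, inv_smul_smul]
      · rw [mul_smul, mul_smul, h6, inv_smul_smul]
    rw [s4] at hab
    rcases hab with ⟨h3, h4⟩ | ⟨k, ⟨h3, h5⟩ | ⟨h3, h5⟩⟩
    · exact L.noinv g a b h3 hga hgb
    · refine new k g ?_ ?_
      · rw [h3, hga, h5]
      · rw [h5, hgb, h3]
    · refine new k g ?_ ?_
      · rw [h3, hgb, h5]
      · rw [h5, hga, h3]
  · intro a
    refine Set.Finite.subset (s := S.neighborSet a ∪ ⋃ w ∈ S.neighborSet a, S.neighborSet w)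
      ((L.loc a).union ((L.loc a).biUnion fun w _ => L.loc w)) ?_
    intro b hb
    rw [SimpleGraph.mem_neighborSet, s4] at hb
    rcases hb with ⟨h3, -⟩ | ⟨g, ⟨h3, h5⟩ | ⟨h3, h5⟩⟩
    · exact Or.inl h3
    · right
      rw [Set.mem_iUnion₂]
      refine ⟨g • v, ?_, ?_⟩
      · rw [← h3]
        exact (L.act.adj g _ _ hvu).symm
      · rw [← h5]
        exact L.act.adj g _ _ hvx
    · right
      rw [Set.mem_iUnion₂]
      refine ⟨g • v, ?_, ?_⟩
      · rw [← h5]
        exact (L.act.adj g _ _ hvx).symm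
      · rw [← h3]
        exact L.act.adj g _ _ hvu

end

end LatF
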