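import Pool.Agent.Lib.MP_32d917_al.FDefs
import Pool.Agent.Lib.MP_32d917_al.F.SLF

/-!
# the number of arrows is bounded along slides

(1) a bound `γ` for the stabilizers of points: `prop`, `fin` (the stabilizer of `g x` is conjugate). They do not depend on the graph. (2) For a graph `R` let `Mov R` be the set of pairs of points `(x, y)` with `Stp (comp κ R) i x y` for some `i`. `MB R D`: there is a finite set `T` of at most `D` pairs such that every element of `Mov R` is mapped into `T` by some `g` (`Mv g x x'`, `Mv g y y'`). `MB S D` holds for some `D`: for each of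
the finitely many representatives `x` of the points there are finitely many `y` (`loc`, finitely many components). (3) If `Slide G R R'` then `MB R D → MB R' D`: with `v x u` as in `Slide`: map `Mov R → Mov R'`, equivariant: if the edge of the pair is `(g v, g x)`: `(z, y) ↦ (z with the coordinate g v replaced by g u, y)`; if it is `(g x, g v)`: `(z, y) ↦ (z, y with g v replaced by g u)`; otherwise unchanged. It is
onto, and pairs in one orbit go to pairs in one orbit (`g u` is determined by `g v`, `g x`). So take `T'` = image of (the elements of `Mov R` in) `T`. (4) Let `IsCov G κ R Z`, `Z` with `nP + 1` objects and `m + 1` arrows. For every object `q` take a frame `f_q`; the arrows with origin `q` inject into the frames near `f_q`: over every point at most `γ` frames (frames over the same point have the same object, as stationary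
arrows are loops; so they are translates by the stabilizer); the number of points `y` with `(pt f_q, y) ∈ Mov R` is at most `D γ`: each orbit of the stabilizer of `pt f_q` has at most `γ` elements, and two `y, y'` with `(x, y)`, `(x, y')` in one `G`-orbit are in one orbit of the stabilizer of `x`. So `m + 1 ≤ (nP + 1) (γ + D γ γ)`.
Any other bound is fine.
-/

set_option autoImplicit false

namespace LatF

open LatIso LatN

section

variable {G : Type} [Group G] {V ι' : Type} [MulAction G V] [MulAction G ι'] {κ : V → ι'}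

/-- the points -/
private def FBND_Pt (κ : V → ι') : Type := ∀ i, Fib κ i

private instance FBND_act [h : Fact (KEq G κ)] : MulAction G (FBND_Pt κ) where
  smul g x := fun i => ⟨g • (x (g⁻¹ • i)).1, by rw [h.out, (x _).2, smul_inv_smul]⟩
  one_smul x := by
    funext i
    apply Subtype.ext
    show (1 : G) • (x ((1 : G)⁻¹ • i)).1 = (x i).1
    rw [one_smul, inv_one, one_smul]
  mul_smul a b x := by
    funext i
    apply Subtype.ext
    show (a * b) • (x ((a * b)⁻¹ • i)).1 = a • b • (x (b⁻¹ • a⁻¹ • i)).1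
    rw [mul_smul, mul_inv_rev, mul_smul]

private theorem FBND_val [Fact (KEq G κ)] (g : G) (x : FBND_Pt κ) (i : ι') :
    ((g • x) (g • i)).1 = g • (x i).1 := by
  show g • (x (g⁻¹ • g • i)).1 = _
  rw [inv_smul_smul]

private theorem FBND_val' [Fact (KEq G κ)] (g : G) (x : FBND_Pt κ) (j : ι') :
    ((g • x) j).1 = g • (x (g⁻¹ • j)).1 := rfl

open scoped Classical in
/-- change one coordinate -/
private noncomputable def FBND_up (x : FBND_Pt κ) (i : ι') (w : Fib κ i) : FBND_Pt κ :=
  fun j => if h : j = i then h ▸ w else x j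

private theorem FBND_up_self (x : FBND_Pt κ) (i : ι') (w : Fib κ i) : FBND_up x i w i = w := by
  unfold FBND_up
  rw [dif_pos rfl]

private theorem FBND_up_ne (x : FBND_Pt κ) (i : ι') (w : Fib κ i) (j : ι') (hj : j ≠ i) :
    FBND_up x i w j = x j := by
  unfold FBND_up
  rw [dif_neg hj]

/-- pairs of neighbouring points -/
private def FBND_Mov (R : SimpleGraph V) (p : FBND_Pt κ × FBND_Pt κ) : Prop :=
  ∃ i, R.Adj (p.1 i).1 (p.2 i).1 ∧ ∀ j, j ≠ i → p.2 j = p.1 j

/-- all pairs of neighbouring points are, up to `G`, in a set of at most `D` elements -/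
private def FBND_MB (G : Type) [Group G] [MulAction G V] [MulAction G ι'] (κ : V → ι')
    [Fact (KEq G κ)] (R : SimpleGraph V) (D : ℕ) : Prop :=
  ∃ T : Finset (FBND_Pt κ × FBND_Pt κ), T.card ≤ D ∧
    ∀ p : FBND_Pt κ × FBND_Pt κ, FBND_Mov R p → ∃ g : G, g • p ∈ T

private theorem FBND_tr [Fact (KEq G κ)] {R R' : SimpleGraph V} {D : ℕ}
    (rel : FBND_Pt κ × FBND_Pt κ → FBND_Pt κ × FBND_Pt κ → Prop)
    (h1 : ∀ (g : G) p p', rel p p' → rel (g • p) (g • p'))
    (h2 : ∀ p p' p'', rel p p' → rel p p'' → p' = p'')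
    (h3 : ∀ p', FBND_Mov R' p' → ∃ p, FBND_Mov R p ∧ rel p p')
    (h : FBND_MB G κ R D) : FBND_MB G κ R' D := by
  classical
  obtain ⟨T, hT, hT'⟩ := h
  refine ⟨T.image (fun t => if h : ∃ t', rel t t' then h.choose else t),
    Finset.card_image_le.trans hT, fun p' hp' => ?_⟩
  obtain ⟨p, hp, hr⟩ := h3 p' hp'
  obtain ⟨g, hg⟩ := hT' p hp
  refine ⟨g, ?_⟩
  rw [Finset.mem_image]
  refine ⟨g • p, hg, ?_⟩
  have hex : ∃ t', rel (g • p) t' := ⟨g • p', h1 g p p' hr⟩
  rw [dif_pos hex]
  exact h2 _ _ _ hex.choose_spec (h1 g p p' hr)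

private theorem FBND_step [Fact (KEq G κ)] {R R' : SimpleGraph V} {D : ℕ} (L : FLat0 G κ R)
    (hs : Slide G R R') (h : FBND_MB G κ R D) : FBND_MB G κ R' D := by
  classical
  obtain ⟨v, x, u, hvx, hvu, -, -, hst, hadj⟩ := hs
  refine FBND_tr (fun p p' => ∃ i, R.Adj (p.1 i).1 (p.2 i).1 ∧ (∀ j, j ≠ i → p.2 j = p.1 j) ∧
    ((∃ g : G, g • v = (p.1 i).1 ∧ g • x = (p.2 i).1 ∧ (p'.1 i).1 = g • u ∧
        (∀ j, j ≠ i → p'.1 j = p.1 j) ∧ p'.2 = p.2) ∨
      (∃ g : G, g • v = (p.2 i).1 ∧ g • x = (p.1 i).1 ∧ (p'.2 i).1 = g • u ∧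
        (∀ j, j ≠ i → p'.2 j = p.2 j) ∧ p'.1 = p.1) ∨
      ((∀ g : G, ¬ (g • v = (p.1 i).1 ∧ g • x = (p.2 i).1) ∧
        ¬ (g • v = (p.2 i).1 ∧ g • x = (p.1 i).1)) ∧ p' = p))) ?_ ?_ ?_ h
  · -- equivariance
    rintro k p p' ⟨i, h1, h2, h3⟩
    have hne : ∀ j, j ≠ k • i → k⁻¹ • j ≠ i := by
      intro j hj hcon
      apply hj
      rw [← hcon, smul_inv_smul]
    have hoff : ∀ z w : FBND_Pt κ, (∀ j, j ≠ i → z j = w j) →
        ∀ j, j ≠ k • i → (k • z) j = (k • w) j := by
      intro z w hzw j hj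
      apply Subtype.ext
      rw [FBND_val', FBND_val', hzw _ (hne j hj)]
    refine ⟨k • i, ?_, hoff _ _ h2, ?_⟩
    · show R.Adj ((k • p.1) (k • i)).1 ((k • p.2) (k • i)).1
      rw [FBND_val, FBND_val]
      exact L.act.adj k _ _ h1
    · rcases h3 with ⟨g, e1, e2, e3, e4, e5⟩ | ⟨g, e1, e2, e3, e4, e5⟩ | ⟨e1, e2⟩
      · refine Or.inl ⟨k * g, ?_, ?_, ?_, hoff _ _ e4, ?_⟩
        · rw [mul_smul, e1]
          exact (FBND_val k p.1 i).symm
        · rw [mul_smul, e2]
          exact (FBND_val k p.2 i).symm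
        · rw [mul_smul, ← e3]
          exact FBND_val k p'.1 i
        · show k • p'.2 = k • p.2
          rw [e5]
      · refine Or.inr (Or.inl ⟨k * g, ?_, ?_, ?_, hoff _ _ e4, ?_⟩)
        · rw [mul_smul, e1]
          exact (FBND_val k p.2 i).symm
        · rw [mul_smul, e2]
          exact (FBND_val k p.1 i).symm
        · rw [mul_smul, ← e3]
          exact FBND_val k p'.2 i
        · show k • p'.1 = k • p.1
          rw [e5]
      · refine Or.inr (Or.inr ⟨fun g => ?_, by rw [e2]⟩)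
        have f1 : ((k • p).1 (k • i)).1 = k • (p.1 i).1 := FBND_val k p.1 i
        have f2 : ((k • p).2 (k • i)).1 = k • (p.2 i).1 := FBND_val k p.2 i
        rw [f1, f2]
        constructor
        · rintro ⟨d1, d2⟩
          apply (e1 (k⁻¹ * g)).1
          rw [mul_smul, mul_smul, d1, d2, inv_smul_smul, inv_smul_smul]
          exact ⟨rfl, rfl⟩
        · rintro ⟨d1, d2⟩
          apply (e1 (k⁻¹ * g)).2
          rw [mul_smul, mul_smul, d1, d2, inv_smul_smul, inv_smul_smul]
          exact ⟨rfl, rfl⟩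
  · -- functionality
    rintro p p' p'' ⟨i, h1, h2, h3⟩ ⟨i', h1', h2', h3'⟩
    have hii : i' = i := by
      by_contra hcon
      have e1 := h2 i' hcon
      rw [e1] at h1'
      exact R.irrefl h1'
    subst hii
    have key : ∀ g g' : G, g • v = g' • v → g • x = g' • x → g • u = g' • u := by
      intro g g' d1 d2
      have d3 := hst (g'⁻¹ * g) (by rw [mul_smul, d1, inv_smul_smul])
        (by rw [mul_smul, d2, inv_smul_smul])
      rw [mul_smul, inv_smul_eq_iff] at d3
      exact d3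
    have noi : ∀ g g' : G, g • v = g' • x → g • x = g' • v → False := by
      intro g g' d1 d2
      refine L.noinv (g'⁻¹ * g) v x hvx ?_ ?_
      · rw [mul_smul, d1, inv_smul_smul]
      · rw [mul_smul, d2, inv_smul_smul]
    have hext : ∀ z w : FBND_Pt κ, (z i').1 = (w i').1 → (∀ j, j ≠ i' → z j = w j) → z = w := by
      intro z w d1 d2
      funext j
      by_cases hj : j = i'
      · subst hj
        exact Subtype.ext d1
      · exact d2 j hj
    rcases h3 with ⟨g, e1, e2, e3, e4, e5⟩ | ⟨g, e1, e2, e3, e4, e5⟩ | ⟨e1, e2⟩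
    · rcases h3' with ⟨g', e1', e2', e3', e4', e5'⟩ | ⟨g', e1', e2', e3', e4', e5'⟩ | ⟨e1', e2'⟩
      · refine Prod.ext ?_ (e5.trans e5'.symm)
        refine hext _ _ ?_ fun j hj => (e4 j hj).trans (e4' j hj).symm
        rw [e3, e3']
        exact key g g' (e1.trans e1'.symm) (e2.trans e2'.symm)
      · exact (noi g g' (e1.trans e2'.symm) (e2.trans e1'.symm)).elim
      · exact ((e1' g).1 ⟨e1, e2⟩).elim
    · rcases h3' with ⟨g', e1', e2', e3', e4', e5'⟩ | ⟨g', e1', e2', e3', e4', e5'⟩ | ⟨e1', e2'⟩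
      · exact (noi g g' (e1.trans e2'.symm) (e2.trans e1'.symm)).elim
      · refine Prod.ext (e5.trans e5'.symm) ?_
        refine hext _ _ ?_ fun j hj => (e4 j hj).trans (e4' j hj).symm
        rw [e3, e3']
        exact key g g' (e1.trans e1'.symm) (e2.trans e2'.symm)
      · exact ((e1' g).2 ⟨e1, e2⟩).elim
    · rcases h3' with ⟨g', e1', e2', e3', e4', e5'⟩ | ⟨g', e1', e2', e3', e4', e5'⟩ | ⟨e1', e2'⟩
      · exact ((e1 g').1 ⟨e1', e2'⟩).elim
      · exact ((e1 g').2 ⟨e1', e2'⟩).elim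
      · rw [e2, e2']
  · -- surjectivity
    rintro p' ⟨i, h1, h2⟩
    rw [hadj] at h1
    have hkap : ∀ g : G, κ (g • v) = κ (g • x) := by
      intro g
      rw [L.act.kap, L.act.kap, L.forest.kap v x hvx]
    rcases h1 with ⟨h1, h3⟩ | ⟨g, ⟨h1, h3⟩ | ⟨h1, h3⟩⟩
    · refine ⟨p', ⟨i, h1, h2⟩, i, h1, h2, Or.inr (Or.inr ⟨h3, rfl⟩)⟩
    · have hκ : κ (g • v) = i := by
        rw [hkap, h3]
        exact (p'.2 i).2
      have hA : R.Adj ((FBND_up p'.1 i ⟨g • v, hκ⟩) i).1 (p'.2 i).1 := by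
        rw [FBND_up_self, ← h3]
        exact L.act.adj g v x hvx
      have hB : ∀ j, j ≠ i → p'.2 j = (FBND_up p'.1 i ⟨g • v, hκ⟩) j := by
        intro j hj
        rw [FBND_up_ne _ _ _ _ hj]
        exact h2 j hj
      refine ⟨(FBND_up p'.1 i ⟨g • v, hκ⟩, p'.2), ⟨i, hA, hB⟩, i, hA, hB,
        Or.inl ⟨g, ?_, h3, h1.symm, ?_, rfl⟩⟩
      · show g • v = ((FBND_up p'.1 i ⟨g • v, hκ⟩) i).1
        rw [FBND_up_self]
      · intro j hj
        show p'.1 j = (FBND_up p'.1 i ⟨g • v, hκ⟩) j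
        rw [FBND_up_ne _ _ _ _ hj]
    · have hκ : κ (g • v) = i := by
        rw [hkap, h3]
        exact (p'.1 i).2
      have hA : R.Adj (p'.1 i).1 ((FBND_up p'.2 i ⟨g • v, hκ⟩) i).1 := by
        rw [FBND_up_self, ← h3]
        exact (L.act.adj g v x hvx).symm
      have hB : ∀ j, j ≠ i → (FBND_up p'.2 i ⟨g • v, hκ⟩) j = p'.1 j := by
        intro j hj
        rw [FBND_up_ne _ _ _ _ hj]
        exact h2 j hj
      refine ⟨(p'.1, FBND_up p'.2 i ⟨g • v, hκ⟩), ⟨i, hA, hB⟩, i, hA, hB,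
        Or.inr (Or.inl ⟨g, ?_, h3, h1.symm, ?_, rfl⟩)⟩
      · show g • v = ((FBND_up p'.2 i ⟨g • v, hκ⟩) i).1
        rw [FBND_up_self]
      · intro j hj
        show p'.2 j = (FBND_up p'.2 i ⟨g • v, hκ⟩) j
        rw [FBND_up_ne _ _ _ _ hj]

private theorem FBND_init [Fintype ι'] [Fact (KEq G κ)] {S : SimpleGraph V} (L : FLat0 G κ S) :
    ∃ D : ℕ, FBND_MB G κ S D := by
  classical
  obtain ⟨F, hF⟩ := L.fin
  have hfin : ∀ x0 : FBND_Pt κ, {y : FBND_Pt κ | FBND_Mov S (x0, y)}.Finite := by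
    intro x0
    refine Set.Finite.subset (s := ⋃ i : ι', (fun w : V => if h : κ w = i then
      FBND_up x0 i ⟨w, h⟩ else x0) '' (S.neighborSet (x0 i).1)) ?_ ?_
    · exact Set.finite_iUnion fun i => (L.loc _).image _
    · rintro y ⟨i, h1, h2⟩
      rw [Set.mem_iUnion]
      refine ⟨i, (y i).1, h1, ?_⟩
      show (if h : κ (y i).1 = i then FBND_up x0 i ⟨(y i).1, h⟩ else x0) = y
      rw [dif_pos (y i).2]
      funext j
      by_cases hj : j = i
      · subst hj
        rw [FBND_up_self]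
      · rw [FBND_up_ne _ _ _ _ hj]
        exact (h2 j hj).symm
  refine ⟨_, (F.biUnion fun x0 => ((hfin x0).toFinset.image fun y => ((x0, y) :
    FBND_Pt κ × FBND_Pt κ))), le_rfl, ?_⟩
  rintro ⟨x, y⟩ hp
  obtain ⟨g, x0, hx0, hg⟩ := hF x
  refine ⟨g, ?_⟩
  have hgx : g • x = x0 := by
    funext j
    apply Subtype.ext
    rw [FBND_val', hg, smul_inv_smul]
  rw [Finset.mem_biUnion]
  refine ⟨x0, hx0, ?_⟩
  rw [Finset.mem_image]
  refine ⟨g • y, ?_, ?_⟩
  · rw [Set.Finite.mem_toFinset]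
    obtain ⟨i, h1, h2⟩ := hp
    refine ⟨g • i, ?_, ?_⟩
    · show S.Adj (x0 (g • i)).1 ((g • y) (g • i)).1
      rw [FBND_val, ← hg i]
      exact L.act.adj g _ _ h1
    · intro j hj
      show (g • y) j = x0 j
      rw [← hgx]
      apply Subtype.ext
      rw [FBND_val', FBND_val']
      have h5 : y (g⁻¹ • j) = x (g⁻¹ • j) := h2 (g⁻¹ • j) (fun hcon => hj (by
        rw [← hcon, smul_inv_smul]))
      exact congrArg (fun w : Fib κ (g⁻¹ • j) => g • w.1) h5
  · exact Prod.ext hgx.symm rfl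

/-- a bound for the stabilizers -/
private theorem FBND_st [Fact (KEq G κ)] {S : SimpleGraph V} (L : FLat0 G κ S) :
    ∃ γ : ℕ, ∀ x : FBND_Pt κ, ∃ s : Finset G, s.card ≤ γ ∧ ∀ g : G, g • x = x → g ∈ s := by
  classical
  obtain ⟨F, hF⟩ := L.fin
  refine ⟨∑ x ∈ F, (L.prop x).toFinset.card, fun x => ?_⟩
  obtain ⟨k, x0, hx0, hk⟩ := hF x
  have hkx : k • x = x0 := by
    funext j
    apply Subtype.ext
    rw [FBND_val', hk, smul_inv_smul]
  refine ⟨(L.prop x0).toFinset.image (fun g => k⁻¹ * g * k), ?_, fun g hg => ?_⟩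
  · refine Finset.card_image_le.trans ?_
    exact Finset.single_le_sum (f := fun x => (L.prop x).toFinset.card)
      (fun _ _ => Nat.zero_le _) hx0
  · rw [Finset.mem_image]
    refine ⟨k * g * k⁻¹, ?_, by group⟩
    rw [Set.Finite.mem_toFinset]
    have h1 : (k * g * k⁻¹) • (k • x) = k • x := by
      rw [mul_smul, mul_smul, inv_smul_smul, hg]
    intro i
    have h2 := FBND_val (k * g * k⁻¹) (k • x) i
    rw [h1, hkx] at h2
    exact h2.symm

/-- a set in one orbit of a stabilizer -/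
private theorem FBND_orb {β : Type} [MulAction G β] [DecidableEq β] {γ : ℕ} (s : Finset G)
    (hs : s.card ≤ γ) (Y : Finset β)
    (hY : ∀ y ∈ Y, ∀ y' ∈ Y, ∃ g ∈ s, g • y = y') : Y.card ≤ γ := by
  rcases Y.eq_empty_or_nonempty with h | ⟨y, hy⟩
  · rw [h, Finset.card_empty]
    exact Nat.zero_le _
  · refine le_trans (Finset.card_le_card (t := s.image fun g => g • y) ?_)
      (Finset.card_image_le.trans hs)
    intro y' hy'
    obtain ⟨g, hg, h⟩ := hY y hy y' hy'
    rw [Finset.mem_image]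
    exact ⟨g, hg, h⟩

/-- the neighbours of a point -/
private theorem FBND_nb [Fact (KEq G κ)] {R : SimpleGraph V} {D γ : ℕ} (hD : FBND_MB G κ R D)
    (hγ : ∀ x : FBND_Pt κ, ∃ s : Finset G, s.card ≤ γ ∧ ∀ g : G, g • x = x → g ∈ s)
    (x : FBND_Pt κ) (Y : Finset (FBND_Pt κ)) (hY : ∀ y ∈ Y, FBND_Mov R (x, y)) :
    Y.card ≤ γ * D := by
  classical
  obtain ⟨T, hT, hT'⟩ := hD
  have hch : ∀ y : FBND_Pt κ, ∃ g : G, y ∈ Y → g • (x, y) ∈ T := by
    intro y
    by_cases hy : y ∈ Y
    · obtain ⟨g, hg⟩ := hT' (x, y) (hY y hy)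
      exact ⟨g, fun _ => hg⟩
    · exact ⟨1, fun h => absurd h hy⟩
  choose c hc using hch
  obtain ⟨s, hs, hs'⟩ := hγ x
  have h1 := Finset.card_le_mul_card_image (f := fun y => c y • ((x, y) : FBND_Pt κ × FBND_Pt κ)) Y γ ?_
  · refine h1.trans (Nat.mul_le_mul_left γ ((Finset.card_le_card ?_).trans hT))
    intro t ht
    rw [Finset.mem_image] at ht
    obtain ⟨y, hy, rfl⟩ := ht
    exact hc y hy
  · intro t _
    refine FBND_orb s hs _ ?_
    intro y hy y' hy'
    rw [Finset.mem_filter] at hy hy'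
    have h2 : c y • x = t.1 := congrArg Prod.fst hy.2
    have h3 : c y • y = t.2 := congrArg Prod.snd hy.2
    have h2' : c y' • x = t.1 := congrArg Prod.fst hy'.2
    have h3' : c y' • y' = t.2 := congrArg Prod.snd hy'.2
    refine ⟨(c y')⁻¹ * c y, hs' _ ?_, ?_⟩
    · rw [mul_smul, h2, ← h2', inv_smul_smul]
    · rw [mul_smul, h3, ← h3', inv_smul_smul]

end

section

variable {ι : Type} {G : Type} [Group G] {V ι' : Type}
  [Fintype ι'] [MulAction G V] [MulAction G ι'] {κ : V → ι'} {S : SimpleGraph V}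

/-- the number of arrows is bounded along slides -/
theorem cov_bound {nP : ℕ} (h : FLat0 G κ S) : ∃ N : ℕ, ∀ S₁ : SimpleGraph V,
    Relation.ReflTransGen (Slide G) S S₁ → ∀ (m : ℕ) (Z : FD ι (Fin (nP + 1)) (Fin (m + 1))),
      IsCov G κ S₁ Z → m ≤ N := by
  classical
  have : Fact (KEq G κ) := ⟨h.act.kap⟩
  obtain ⟨D, hD⟩ := FBND_init h
  obtain ⟨γ, hγ⟩ := FBND_st h
  refine ⟨(γ * (γ * D + 1)) * (nP + 1), fun S₁ hsl m Z hZ => ?_⟩
  have hboth : FLat0 G κ S₁ ∧ FBND_MB G κ S₁ D := by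
    clear hZ
    induction hsl with
    | refl => exact ⟨h, hD⟩
    | tail _ hs ih => exact ⟨slide_flat ih.1 hs, FBND_step ih.1 hs ih.2⟩
  obtain ⟨-, hD₁⟩ := hboth
  obtain ⟨-, -, hv, F, _, L, hL⟩ := hZ
  -- a frame for every object
  choose f hf using hL.onto
  obtain ⟨pt, hpt⟩ : ∃ pt : F → FBND_Pt κ, ∀ φ, pt φ = L.pt φ := ⟨L.pt, fun _ => rfl⟩
  -- frames over the same point
  have hframe : ∀ (y : FBND_Pt κ), ∃ s : Finset G, s.card ≤ γ ∧
      ∀ φ φ' : F, pt φ = y → pt φ' = y → ∃ g ∈ s, g • φ = φ' := by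
    intro y
    obtain ⟨s, hs, hs'⟩ := hγ y
    refine ⟨s, hs, fun φ φ' h1 h2 => ?_⟩
    rw [hpt] at h1 h2
    obtain ⟨a, ha, ha'⟩ := L.sur φ φ' (Or.inl (h2.trans h1.symm))
    have hst : ¬ Z.mv a := by
      intro hmv
      have h3 := (L.mo φ a ha hmv).1
      rw [ha', h1, h2] at h3
      exact (comp κ S₁ _).irrefl h3
    have hp : L.p φ = L.p φ' := by
      rw [← ha', L.act_p φ a ha, hv.loop a hst, ha]
    obtain ⟨g, hg⟩ := hL.trans φ φ' hp
    refine ⟨g, hs' g ?_, hg⟩
    funext j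
    apply Subtype.ext
    rw [FBND_val']
    have h4 := hL.gpt g φ (g⁻¹ • j)
    rw [hg, h1, h2, smul_inv_smul] at h4
    exact h4.symm
  have hfib : ∀ q : Fin (nP + 1),
      (Finset.univ.filter fun a : Fin (m + 1) => Z.o a = q).card ≤ γ * (γ * D + 1) := by
    intro q
    have h1 := Finset.card_le_mul_card_image
      (f := fun a : Fin (m + 1) => pt (L.act (f q) a))
      (Finset.univ.filter fun a : Fin (m + 1) => Z.o a = q) γ ?_
    · refine h1.trans (Nat.mul_le_mul_left γ ?_)
      have h2 : (Finset.univ.filter fun a : Fin (m + 1) => Z.o a = q).image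
          (fun a : Fin (m + 1) => pt (L.act (f q) a)) ⊆
          insert (pt (f q))
            (((Finset.univ.filter fun a : Fin (m + 1) => Z.o a = q).image
              (fun a : Fin (m + 1) => pt (L.act (f q) a))).filter
              (fun y => FBND_Mov S₁ ((pt (f q)), y))) := by
        intro y hy
        rw [Finset.mem_insert, Finset.mem_filter]
        have hy' := hy
        rw [Finset.mem_image] at hy'
        obtain ⟨a, ha, hay⟩ := hy'
        rw [Finset.mem_filter] at ha
        have hoa : Z.o a = L.p (f q) := ha.2.trans (hf q).symm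
        by_cases hmv : Z.mv a
        · right
          refine ⟨hy, ?_⟩
          obtain ⟨h3, h4⟩ := L.mo (f q) a hoa hmv
          refine ⟨L.lam (f q) (Z.ty a), ?_, ?_⟩
          · rw [← hay, hpt, hpt]
            exact h3
          · intro j hj
            rw [← hay, hpt, hpt]
            exact h4 j hj
        · left
          rw [← hay, hpt, hpt]
          exact L.st (f q) a hoa hmv
      refine (Finset.card_le_card h2).trans ((Finset.card_insert_le _ _).trans ?_)
      refine Nat.succ_le_succ (FBND_nb hD₁ hγ (pt (f q)) _ ?_)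
      intro y hy
      rw [Finset.mem_filter] at hy
      exact hy.2
    · intro y _
      obtain ⟨s, hs, hs'⟩ := hframe y
      have h2 : ((Finset.univ.filter fun a : Fin (m + 1) => Z.o a = q).filter
          fun a => pt (L.act (f q) a) = y).card =
          (((Finset.univ.filter fun a : Fin (m + 1) => Z.o a = q).filter
          fun a => pt (L.act (f q) a) = y).image (L.act (f q))).card := by
        rw [Finset.card_image_of_injOn]
        intro a ha b hb hab
        rw [Finset.mem_coe, Finset.mem_filter, Finset.mem_filter] at ha hb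
        exact L.inj (f q) a b (ha.1.2.trans (hf q).symm) (hb.1.2.trans (hf q).symm) hab
      refine le_trans (le_of_eq h2) (FBND_orb s hs _ ?_)
      intro φ hφ φ' hφ'
      rw [Finset.mem_image] at hφ hφ'
      obtain ⟨a, ha, rfl⟩ := hφ
      obtain ⟨b, hb, rfl⟩ := hφ'
      rw [Finset.mem_filter] at ha hb
      exact hs' _ _ ha.2 hb.2
  have htot := Finset.card_le_mul_card_image (f := fun a : Fin (m + 1) => Z.o a)
    Finset.univ (γ * (γ * D + 1)) (fun q _ => hfib q)
  rw [Finset.card_univ, Fintype.card_fin] at htot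
  have h5 : (Finset.univ.image fun a : Fin (m + 1) => Z.o a).card ≤ nP + 1 := by
    refine (Finset.card_le_univ _).trans ?_
    rw [Fintype.card_fin]
  have h6 := htot.trans (Nat.mul_le_mul_left _ h5)
  omega

end

end LatF
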