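import Pool.Agent.Lib.MP_32d917_al.FDefs

/-!
# induced equivariant bijections

For every `i : ι` choose an orbit representative `r i` (the same for all elements of an orbit) and `c i : G` with
`c i • r i = i`. Let `φ_i` be the given bijections. Put `Φ v = c (κ v) • φ_(r (κ v)) (c (κ v)⁻¹ • v)`. Equivariance: for `κ v = i`, `κ (g v) =
g i`, `r (g i) = r i`, the element `h = (c (g i))⁻¹ * g * c i` fixes `r i`, and with `u = (c i)⁻¹ • v` we have `(c (g i))⁻¹ • g • v =
h • u`, so `Φ (g v) = c (g i) • φ (h • u) = c (g i) • h • φ u = g • c i • φ u = g • Φ v` by hypothesis. The inverse is given by the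
same formula with `φ_i⁻¹` (or prove injectivity and surjectivity: on the fibres).
-/

set_option autoImplicit false

namespace LatF

open LatIso LatN

section

/-- bijections of the components, equivariant under the stabilizers of the components, give an
equivariant bijection -/
theorem find_equiv {G : Type} [Group G] {V V' ι ι' : Type} [MulAction G V] [MulAction G V']
    [MulAction G ι] [MulAction G ι'] {κ : V → ι} {κ' : V' → ι'} (hκ : KEq G κ) (hκ' : KEq G κ')
    (σ : ι ≃ ι') (hσ : ∀ (g : G) i, σ (g • i) = g • σ i)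
    (h : ∀ i, ∃ φ : Fib κ i ≃ Fib κ' (σ i), ∀ (g : G) (v w : Fib κ i), g • v.1 = w.1 →
      g • (φ v).1 = (φ w).1) :
    ∃ Φ : V ≃ V', (∀ (g : G) v, Φ (g • v) = g • Φ v) ∧ ∀ v, κ' (Φ v) = σ (κ v) := by
  classical
  choose φ hφ using h
  let r : ι → ι := fun i => Quotient.out (Quotient.mk (MulAction.orbitRel G ι) i)
  have hr1 : ∀ i, ∃ c : G, c • r i = i := by
    intro i
    have h1 : Quotient.mk (MulAction.orbitRel G ι) (r i) = Quotient.mk (MulAction.orbitRel G ι) i :=
      Quotient.out_eq _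
    have h2 := Quotient.exact h1
    have h3 : r i ∈ MulAction.orbit G i := h2
    obtain ⟨g, hg⟩ := h3
    refine ⟨g⁻¹, ?_⟩
    rw [inv_smul_eq_iff]
    exact hg.symm
  have hr2 : ∀ (g : G) i, r (g • i) = r i := by
    intro g i
    have h1 : Quotient.mk (MulAction.orbitRel G ι) (g • i) = Quotient.mk (MulAction.orbitRel G ι) i := by
      apply Quotient.sound
      exact MulAction.mem_orbit i g
    change Quotient.out (Quotient.mk (MulAction.orbitRel G ι) (g • i)) = _
    rw [h1]
  choose c hc using hr1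
  have mem : ∀ (a : G) (k : ι) (v : V), a • k = κ v → κ (a⁻¹ • v) = k := by
    intro a k v h
    rw [hκ, ← h, inv_smul_smul]
  let Φ : V → V' := fun v => c (κ v) • (φ (r (κ v)) ⟨(c (κ v))⁻¹ • v, mem _ _ _ (hc _)⟩).1
  have key : ∀ (v : V) (k : ι) (a : G) (ha : a • k = κ v), k = r (κ v) →
      Φ v = a • (φ k ⟨a⁻¹ • v, mem a k v ha⟩).1 := by
    intro v k a ha hk
    subst hk
    have h1 := hφ (r (κ v)) (a⁻¹ * c (κ v)) ⟨(c (κ v))⁻¹ • v, mem _ _ _ (hc _)⟩
      ⟨a⁻¹ • v, mem a _ v ha⟩ (by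
        change (a⁻¹ * c (κ v)) • (c (κ v))⁻¹ • v = a⁻¹ • v
        rw [mul_smul, smul_inv_smul])
    rw [← h1, ← mul_smul, mul_inv_cancel_left]
  have hΦg : ∀ (g : G) v, Φ (g • v) = g • Φ v := by
    intro g v
    have h1 : (g * c (κ v)) • r (κ v) = κ (g • v) := by
      rw [mul_smul, hc, hκ]
    have h2 : r (κ v) = r (κ (g • v)) := by
      rw [hκ, hr2]
    rw [key (g • v) (r (κ v)) (g * c (κ v)) h1 h2, key v (r (κ v)) (c (κ v)) (hc _) rfl]
    have h3 : (⟨(g * c (κ v))⁻¹ • g • v, mem _ _ _ h1⟩ : Fib κ (r (κ v))) =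
        ⟨(c (κ v))⁻¹ • v, mem _ _ _ (hc _)⟩ := by
      apply Subtype.ext
      change (g * c (κ v))⁻¹ • g • v = (c (κ v))⁻¹ • v
      rw [mul_inv_rev, mul_smul, inv_smul_smul]
    rw [h3]
    exact mul_smul _ _ _
  have hΦκ : ∀ v, κ' (Φ v) = σ (κ v) := by
    intro v
    change κ' (c (κ v) • (φ (r (κ v)) ⟨(c (κ v))⁻¹ • v, mem _ _ _ (hc _)⟩).1) = σ (κ v)
    rw [hκ', (φ (r (κ v)) _).2, ← hσ, hc]
  have hbij : Function.Bijective Φ := by
    constructor
    · intro v w hvw
      have h1 : κ v = κ w := by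
        apply σ.injective
        rw [← hΦκ, ← hΦκ, hvw]
      have h2 := key v (r (κ w)) (c (κ w)) (by rw [hc, h1]) (by rw [h1])
      have h3 := key w (r (κ w)) (c (κ w)) (hc _) rfl
      rw [h2, h3] at hvw
      have h4 := smul_left_cancel _ hvw
      have h5 := (φ (r (κ w))).injective (Subtype.ext h4)
      have h6 : (c (κ w))⁻¹ • v = (c (κ w))⁻¹ • w := congrArg Subtype.val h5
      exact smul_left_cancel _ h6
    · intro w
      set i := σ.symm (κ' w) with hi
      have hiw : σ i = κ' w := by rw [hi, Equiv.apply_symm_apply]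
      have h1 : κ' ((c i)⁻¹ • w) = σ (r i) := by
        rw [hκ', ← hiw, ← hσ]
        congr 1
        rw [inv_smul_eq_iff]
        exact (hc i).symm
      set y := (φ (r i)).symm ⟨(c i)⁻¹ • w, h1⟩ with hy
      have h2 : κ (c i • y.1) = i := by rw [hκ, y.2, hc]
      refine ⟨c i • y.1, ?_⟩
      rw [key (c i • y.1) (r i) (c i) (by rw [hc, h2]) (by rw [h2])]
      have h3 : (⟨(c i)⁻¹ • c i • y.1, mem (c i) (r i) (c i • y.1) (by rw [hc, h2])⟩ : Fib κ (r i)) = y := by
        apply Subtype.ext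
        change (c i)⁻¹ • c i • y.1 = y.1
        rw [inv_smul_smul]
      rw [h3, hy, Equiv.apply_symm_apply]
      change c i • (c i)⁻¹ • w = w
      rw [smul_inv_smul]
  refine ⟨Equiv.ofBijective Φ hbij, hΦg, hΦκ⟩

end

end LatF
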