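import Pool.Agent.Lib.MP_32d917_al.FDefs

/-!
# a subgroup of finite index fixing all components acts as a proper lattice

`H` has finite index and fixes all components. `PLat H (comp κ S)` with the action `fibActK` (`((h • v) : V) = (h : G) • (v : V)`
by rfl). prop: `{h : H | ∀ i, h • x i = x i}` injects into `{g : G | Mv g x x}` since `h • i = i`. fin: let `F` be as in `L.b.fin` and
let `g_1, ..., g_m` be representatives: `G = ∪ H g_j` (right cosets; `H.FiniteIndex`). For a point `x` some `g` maps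
`x` to `y ∈ F`; `g⁻¹ = h g_j` say; then `x = g⁻¹ y = h (g_j y)`, so `h⁻¹ • x = g_j y` where `g_j y` denotes the point `k ↦ g_j • y (g_j⁻¹ • k)`.
The set of all `g_j y`, `y ∈ F`, is finite.
-/

set_option autoImplicit false

namespace LatF

open LatIso LatN

section

variable {G : Type} [Group G] {V ι : Type} [Fintype ι] [MulAction G V] [MulAction G ι]
  {κ : V → ι} {S : SimpleGraph V} [Fact (KEq G κ)]

/-- the image of the point `y` under `g` -/
private def fplat_mv (g : G) (y : ∀ i, Fib κ i) : ∀ i, Fib κ i := fun k =>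
  ⟨g • (y (g⁻¹ • k)).1, by
    have h : KEq G κ := Fact.out
    rw [h, (y (g⁻¹ • k)).2, smul_inv_smul]⟩

theorem flat_plat (L : FLat G κ S) (H : Subgroup G) [Fact (∀ g ∈ H, ∀ i : ι, g • i = i)]
    (hH : H.FiniteIndex) : PLat H (comp κ S) := by
  classical
  have hfix : ∀ g ∈ H, ∀ i : ι, g • i = i := Fact.out
  refine ⟨?_, ?_, L.leafless, ?_, ?_⟩
  · intro i
    exact {
      tree := L.b.forest.tree i
      adj := fun g x y h => L.b.act.adj (g : G) x.1 y.1 h
      noinv := fun g x y h h1 h2 =>
        L.b.noinv (g : G) x.1 y.1 h (congrArg Subtype.val h1) (congrArg Subtype.val h2) }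
  · intro i v
    exact ((L.b.loc v.1).preimage (f := fun x : Fib κ i => x.1) Subtype.val_injective.injOn).subset
      (fun _ hx => hx)
  · intro x
    refine ((L.b.prop x).preimage (f := fun g : H => (g : G)) Subtype.val_injective.injOn).subset ?_
    intro g hg
    show Mv (g : G) x x
    intro i
    have h1 : (g : G) • i = i := hfix g g.2 i
    have h2 : (g : G) • (x i).1 = (x i).1 := congrArg Subtype.val (hg i)
    rw [h1]
    exact h2
  · obtain ⟨F, hF⟩ := L.b.fin
    haveI := hH
    haveI : Finite (G ⧸ H) := Subgroup.finite_quotient_of_finiteIndex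
    haveI : Fintype (G ⧸ H) := Fintype.ofFinite _
    -- for `g : G` the element `(Quotient.out g)⁻¹ * g ∈ H`
    refine ⟨((Finset.univ : Finset (G ⧸ H)) ×ˢ F).image fun qy => fplat_mv (Quotient.out qy.1)⁻¹ qy.2, fun x => ?_⟩
    obtain ⟨g, y, hy, hg⟩ := hF x
    -- `g = r * h` with a representative `r` and `h ∈ H`, `g x = y`, `h x = r⁻¹ y`
    set r : G := Quotient.out (g : G ⧸ H) with hr
    have hrg : r⁻¹ * g ∈ H := by
      rw [← QuotientGroup.eq]
      exact QuotientGroup.out_eq' _
    refine ⟨⟨r⁻¹ * g, hrg⟩, Finset.mem_image.2 ⟨((g : G ⧸ H), y), Finset.mem_product.2 ⟨Finset.mem_univ _, hy⟩, ?_⟩⟩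
    funext i
    apply Subtype.ext
    show r⁻¹ • (y (r⁻¹⁻¹ • i)).1 = (r⁻¹ * g) • (x i).1
    rw [mul_smul, hg i]
    have h1 : (r⁻¹ * g) • i = i := hfix _ hrg i
    have h2 : r⁻¹⁻¹ • i = g • i := by
      rw [inv_inv]
      conv_lhs => rw [← h1, mul_smul, smul_inv_smul]
    rw [h2]

end

end LatF
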