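import Pool.Agent.Lib.MP_32d917_al.FDefs
import Pool.Agent.Lib.MP_32d917_al.TL2
import Pool.Agent.Lib.MP_32d917_al.LATB1

/-!
# stabilizers are not conjugate to proper subgroups

`W` is any `G`-set such that `G` acts on `V × W` with finite stabilizers and finitely many orbits; `S` is
a locally finite tree on `V`. Let `K = stab v ∩ stab x`. Hypothesis `h1`: `K ≤ g K g⁻¹`, that is
`g⁻¹ K g ≤ K`. Claim: equality.
Proof. (1) `stab v` acts on `W` with finitely many orbits: two elements `w, w'` with `(v, w)`, `(v, w')` in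
the same `G`-orbit are in the same `stab v`-orbit. `K` has finite index in `stab v` (the `stab v`-orbit
of `x` is finite since it lies in the ball of radius `dist v x` around `v`, finite by `loc`; see
`LATB1`, `N/NS1` for balls and orbits), so `K` acts on `W` with finitely many orbits; let `N` be their number (for
instance: a finite set of representatives).
(2) All stabilizers `stab (v', w')` have at most `s` elements (finitely many orbits, conjugation).
(3) Put `K_j = g^j K g^(-j)` (j natural): `K_0 ≤ K_1 ≤ K_2 ≤ ...`. Suppose that some `k` fixes `g v`, `g x` but not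
both `v` and `x`: `k ∈ K_1 \ K_0`; so `k_j := g^(j-1) k g^(1-j) ∈ K_j \ K_(j-1)` for `j ≥ 1`; put `k_0 = 1`. For
`a < b` we have `k_b k_a⁻¹ ∉ K_(b-1) ⊇ K_0`. Consider the points `k_j w0`, `0 ≤ j ≤ N s`. By pigeonhole `s + 1` of them lie in one
`K_0`-orbit: `c_i k_(a_i) w0 = w1` with `c_i ∈ K_0`, `i = 0, ..., s`. The elements `c_i k_(a_i)` are pairwise different
(otherwise `k_(a_i) k_(a_j)⁻¹ ∈ K_0`), all in `K_m` with `m = N s`, and all map `w0` to `w1`; so the
`s + 1` elements `(c_0 k_(a_0))⁻¹ c_i k_(a_i)` are different, fix `w0` and `g^m v`: contradiction with (2).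
-/

set_option autoImplicit false

namespace LatF

open LatIso LatN

section

private theorem gcinv_orbit {G : Type} [Group G] {V : Type} [MulAction G V] {S : SimpleGraph V}
    (hS : TA G S) (loc : ∀ v, (S.neighborSet v).Finite) (v v' : V) :
    (Set.range fun k : MulAction.stabilizer G v => (k : G) • v').Finite := by
  refine (latb1_ball hS.tree.connected loc v (S.dist v v')).subset ?_
  rintro _ ⟨k, rfl⟩
  simp only [Set.mem_ofPred_eq]
  have h1 : (k : G) • v = v := k.2
  have h2 := ta_dist hS (k : G) v v'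
  rw [h1] at h2
  exact h2.le

private theorem gcinv_fin {G : Type} [Group G] {V W : Type} [MulAction G V] [MulAction G W]
    (fin : ∃ F : Finset (V × W), ∀ v w, ∃ g : G, (g • v, g • w) ∈ F) (v : V) :
    ∃ F : Finset W, ∀ w : W, ∃ k ∈ MulAction.stabilizer G v, k • w ∈ F := by
  classical
  obtain ⟨F, hF⟩ := fin
  let h : V × W → G := fun x => if hx : ∃ k : G, k • x.1 = v then hx.choose else 1
  have hh : ∀ x : V × W, (∃ k : G, k • x.1 = v) → h x • x.1 = v := by
    intro x hx
    simp only [h, dif_pos hx]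
    exact hx.choose_spec
  refine ⟨F.image fun x => h x • x.2, fun w => ?_⟩
  obtain ⟨g, hg⟩ := hF v w
  have h1 : h (g • v, g • w) • g • v = v := hh (g • v, g • w) ⟨g⁻¹, by simp⟩
  refine ⟨h (g • v, g • w) * g, ?_, ?_⟩
  · rw [MulAction.mem_stabilizer_iff, mul_smul]
    exact h1
  · rw [mul_smul]
    exact Finset.mem_image.2 ⟨_, hg, rfl⟩

/-- the orbits of `g K g⁻¹` are orbits of `K` -/
private theorem gcinv_orb {G : Type} [Group G] {V W : Type} [MulAction G V] [MulAction G W]
    {S : SimpleGraph V} (hS : TA G S) (loc : ∀ v, (S.neighborSet v).Finite)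
    (fin : ∃ F : Finset (V × W), ∀ v w, ∃ g : G, (g • v, g • w) ∈ F) (w : W)
    (v x : V) (g : G)
    (h : ∀ k : G, k • v = v → k • x = x → k • g • v = g • v ∧ k • g • x = g • x) :
    ∀ k : G, k • g • v = g • v → k • g • x = g • x →
      ∃ l : G, (l • v = v ∧ l • x = x) ∧ l • w = k • w := by
  classical
  let H : Subgroup G := MulAction.stabilizer G v ⊓ MulAction.stabilizer G x
  have memH : ∀ k : G, k ∈ H ↔ k • v = v ∧ k • x = x := fun k => by
    rw [Subgroup.mem_inf, MulAction.mem_stabilizer_iff, MulAction.mem_stabilizer_iff]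
  let st : Setoid W := ⟨fun a b => ∃ k : G, k ∈ H ∧ k • a = b,
    fun a => ⟨1, H.one_mem, one_smul _ _⟩,
    fun {a b} ⟨k, hk, hab⟩ => ⟨k⁻¹, H.inv_mem hk, by rw [← hab, inv_smul_smul]⟩,
    fun {a b c} ⟨k, hk, hab⟩ ⟨k', hk', hbc⟩ => ⟨k' * k, H.mul_mem hk' hk, by
      rw [mul_smul, hab, hbc]⟩⟩
  have hfin : Finite (Quotient st) := by
    obtain ⟨F, hF⟩ := gcinv_fin fin v
    choose κ hκ1 hκ2 using hF
    have hO := gcinv_orbit hS loc v x
    let Of : Finset V := hO.toFinset
    let φ : Quotient st → W × V := fun q => (κ q.out • q.out, κ q.out • x)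
    have hφ : ∀ q, φ q ∈ F ×ˢ Of := by
      intro q
      refine Finset.mem_product.2 ⟨hκ2 _, ?_⟩
      rw [Set.Finite.mem_toFinset]
      exact ⟨⟨κ q.out, hκ1 _⟩, rfl⟩
    have hinj : Function.Injective φ := by
      intro q q' hq
      have h1 : κ q.out • q.out = κ q'.out • q'.out := congrArg Prod.fst hq
      have h2 : κ q.out • x = κ q'.out • x := congrArg Prod.snd hq
      rw [← Quotient.out_eq q, ← Quotient.out_eq q']
      refine Quotient.sound ⟨(κ q'.out)⁻¹ * κ q.out, ?_, ?_⟩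
      · rw [memH, mul_smul, mul_smul, h2, inv_smul_smul]
        refine ⟨?_, rfl⟩
        have h3 : κ q.out • v = v := hκ1 q.out
        have h4 : κ q'.out • v = v := hκ1 q'.out
        rw [h3, inv_smul_eq_iff, h4]
      · rw [mul_smul, h1, inv_smul_smul]
    exact Finite.of_injective (fun q => (⟨φ q, hφ q⟩ : {y // y ∈ F ×ˢ Of}))
      fun q q' hq => hinj (congrArg Subtype.val hq)
  let e : Quotient st → Quotient st := Quotient.map (fun w => g⁻¹ • w) (by
    rintro a b ⟨k, hk, hab⟩
    have h1 := h k ((memH k).1 hk).1 ((memH k).1 hk).2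
    refine ⟨g⁻¹ * k * g, ?_, ?_⟩
    · rw [memH, mul_smul, mul_smul, mul_smul, mul_smul, h1.1, h1.2, inv_smul_smul, inv_smul_smul]
      exact ⟨rfl, rfl⟩
    · rw [← hab, mul_smul, mul_smul, smul_inv_smul])
  have hsurj : Function.Surjective e := by
    intro q
    induction q using Quotient.inductionOn with
    | h w => exact ⟨⟦g • w⟧, by simp [e]⟩
  have hinj : Function.Injective e := Finite.injective_iff_surjective.2 hsurj
  intro k hk1 hk2
  have h1 : (⟦w⟧ : Quotient st) = ⟦k • w⟧ := by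
    apply hinj
    refine Quotient.sound ⟨g⁻¹ * k * g, ?_, ?_⟩
    · rw [memH, mul_smul, mul_smul, mul_smul, mul_smul, hk1, hk2, inv_smul_smul, inv_smul_smul]
      exact ⟨rfl, rfl⟩
    · rw [mul_smul, mul_smul, smul_inv_smul]
  obtain ⟨l, hl, hlw⟩ := Quotient.exact h1
  exact ⟨l, (memH l).1 hl, hlw⟩

/-- `W` is any `G`-set such that the action on `V × W` is proper with finitely many orbits -/
theorem gcinv {G : Type} [Group G] {V W : Type} [MulAction G V] [MulAction G W]
    {S : SimpleGraph V} (h : TA G S) (loc : ∀ v, (S.neighborSet v).Finite)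
    (prop : ∀ (v : V) (w : W), {g : G | g • v = v ∧ g • w = w}.Finite)
    (fin : ∃ F : Finset (V × W), ∀ v w, ∃ g : G, (g • v, g • w) ∈ F)
    (w0 : W) (v x : V) (g : G)
    (h1 : ∀ k : G, k • v = v → k • x = x → k • g • v = g • v ∧ k • g • x = g • x) :
    ∀ k : G, k • g • v = g • v → k • g • x = g • x → k • v = v ∧ k • x = x := by
  classical
  intro k hk1 hk2
  by_contra hk
  -- `K j = g^j K g^(-j)`
  let K : ℕ → G → Prop := fun j k => k • g ^ j • v = g ^ j • v ∧ k • g ^ j • x = g ^ j • x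
  have hKmul : ∀ j a b, K j a → K j b → K j (a * b) := fun j a b ha hb =>
    ⟨by rw [mul_smul, hb.1, ha.1], by rw [mul_smul, hb.2, ha.2]⟩
  have hKinv : ∀ j a, K j a → K j a⁻¹ := fun j a ha =>
    ⟨by rw [inv_smul_eq_iff, ha.1], by rw [inv_smul_eq_iff, ha.2]⟩
  have hKsucc : ∀ j a, K j a → K (j + 1) a := by
    intro j a ha
    have h2 := h1 ((g ^ j)⁻¹ * a * g ^ j)
      (by rw [mul_smul, mul_smul, ha.1, inv_smul_smul])
      (by rw [mul_smul, mul_smul, ha.2, inv_smul_smul])
    have h3 : ∀ y : V, ((g ^ j)⁻¹ * a * g ^ j) • g • y = g • y →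
        a • g ^ (j + 1) • y = g ^ (j + 1) • y := by
      intro y hy
      rw [mul_smul, mul_smul, inv_smul_eq_iff] at hy
      rw [pow_succ, mul_smul]
      exact hy
    exact ⟨h3 v h2.1, h3 x h2.2⟩
  have hKmono : ∀ i j, i ≤ j → ∀ a, K i a → K j a := by
    intro i j hij
    induction hij with
    | refl => exact fun a ha => ha
    | step _ ih => exact fun a ha => hKsucc _ a (ih a ha)
  -- the elements `k_i`
  let kk : ℕ → G := fun i => g ^ i * k * (g ^ i)⁻¹
  have hkk : ∀ i, K (i + 1) (kk i) := by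
    intro i
    have h2 : ∀ y : V, k • g • y = g • y → kk i • g ^ (i + 1) • y = g ^ (i + 1) • y := by
      intro y hy
      show (g ^ i * k * (g ^ i)⁻¹) • g ^ (i + 1) • y = g ^ (i + 1) • y
      rw [pow_succ, mul_smul, mul_smul, mul_smul, inv_smul_smul, hy]
    exact ⟨h2 v hk1, h2 x hk2⟩
  have hkk' : ∀ i, ¬ K i (kk i) := by
    intro i h2
    have h3 : ∀ y : V, kk i • g ^ i • y = g ^ i • y → k • y = y := by
      intro y hy
      have h4 : (g ^ i * k * (g ^ i)⁻¹) • g ^ i • y = g ^ i • y := hy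
      rw [mul_smul, mul_smul, inv_smul_smul] at h4
      exact MulAction.injective (g ^ i) h4
    exact hk ⟨h3 v h2.1, h3 x h2.2⟩
  -- bound for the stabilizers
  obtain ⟨F, hF⟩ := fin
  let s : ℕ := ∑ p ∈ F, {a : G | a • p.1 = p.1 ∧ a • p.2 = p.2}.ncard
  obtain ⟨c, hc⟩ := hF (g ^ (s + 1) • v) w0
  set p : V × W := (c • g ^ (s + 1) • v, c • w0) with hp
  have hps : {a : G | a • p.1 = p.1 ∧ a • p.2 = p.2}.ncard ≤ s :=
    Finset.single_le_sum (f := fun p : V × W => {a : G | a • p.1 = p.1 ∧ a • p.2 = p.2}.ncard)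
      (fun _ _ => Nat.zero_le _) hc
  -- elements of `K 0` with the same value at `w0`
  have hK0 : ∀ i : ℕ, i ≤ s → ∃ l : G, K 0 l ∧ l • w0 = kk i • w0 := by
    intro i hi
    have h2 := hKmono (i + 1) (s + 1) (by omega) _ (hkk i)
    obtain ⟨l, hl, hlw⟩ := gcinv_orb h loc ⟨F, hF⟩ w0 v x (g ^ (s + 1))
      (fun a ha hb => hKmono 0 (s + 1) (by omega) a
        ⟨by rw [pow_zero, one_smul]; exact ha, by rw [pow_zero, one_smul]; exact hb⟩)
      (kk i) h2.1 h2.2
    refine ⟨l, ⟨?_, ?_⟩, hlw⟩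
    · rw [pow_zero, one_smul]
      exact hl.1
    · rw [pow_zero, one_smul]
      exact hl.2
  choose! l hl hlw using hK0
  let f : ℕ → G := fun i => c * ((l i)⁻¹ * kk i) * c⁻¹
  have hfmem : ∀ i ∈ Finset.range (s + 1),
      f i ∈ {a : G | a • p.1 = p.1 ∧ a • p.2 = p.2} := by
    intro i hi
    have hi' : i ≤ s := by
      rw [Finset.mem_range] at hi
      omega
    have h2 := hKmono (i + 1) (s + 1) (by omega) _ (hkk i)
    have h3 := hKinv _ _ (hKmono 0 (s + 1) (by omega) _ (hl i hi'))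
    have h4 := hKmul _ _ _ h3 h2
    refine ⟨?_, ?_⟩
    · show (c * ((l i)⁻¹ * kk i) * c⁻¹) • c • g ^ (s + 1) • v = c • g ^ (s + 1) • v
      rw [mul_smul, mul_smul, inv_smul_smul, h4.1]
    · show (c * ((l i)⁻¹ * kk i) * c⁻¹) • c • w0 = c • w0
      rw [mul_smul, mul_smul, inv_smul_smul, mul_smul, ← hlw i hi', inv_smul_smul]
  have hne : ∀ a b : ℕ, a ≤ s → b ≤ s → a < b → f a ≠ f b := by
    intro a b ha hb hab hf
    have h2 : (l a)⁻¹ * kk a = (l b)⁻¹ * kk b := mul_left_cancel (mul_right_cancel hf)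
    have h3 : kk b = l b * ((l a)⁻¹ * kk a) := by rw [h2, mul_inv_cancel_left]
    refine hkk' b ?_
    rw [h3]
    refine hKmul _ _ _ (hKmono 0 b (Nat.zero_le b) _ (hl b hb)) (hKmul _ _ _ ?_ ?_)
    · exact hKinv _ _ (hKmono 0 b (Nat.zero_le b) _ (hl a ha))
    · exact hKmono (a + 1) b hab _ (hkk a)
  have hinj : Set.InjOn f (Finset.range (s + 1) : Set ℕ) := by
    intro a ha b hb hab
    rw [Finset.coe_range, Set.mem_Iio] at ha hb
    rcases lt_trichotomy a b with h2 | h2 | h2
    · exact absurd hab (hne a b (by omega) (by omega) h2)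
    · exact h2
    · exact absurd hab.symm (hne b a (by omega) (by omega) h2)
  have h5 : (s + 1) ≤ {a : G | a • p.1 = p.1 ∧ a • p.2 = p.2}.ncard := by
    have h6 : (f '' (Finset.range (s + 1) : Set ℕ)).ncard = s + 1 := by
      rw [Set.ncard_image_of_injOn hinj, Set.ncard_coe_finset, Finset.card_range]
    rw [← h6]
    refine Set.ncard_le_ncard ?_ (prop p.1 p.2)
    rintro _ ⟨i, hi, rfl⟩
    exact hfmem i hi
  omega

end

end LatF
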