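import Pool.Agent.Lib.MP_32d917_al.FDefs
import Pool.Agent.Lib.MP_32d917_al.F.GCINV

/-!
# the action of the stabilizer of a component on the component

`TLat (stabilizer G i) (comp κ S i)`; `FLat0` is in FDefs. `ta.tree` = `L.forest.tree i`; adj, noinv from L.act.adj,
L.noinv (the action of the stabilizer on `Fib κ i` is `fibAct`: `((g • v) : V) = (g : G) • (v : V)`, by rfl); loc: the neighbours
of `v` in `comp κ S i` inject into those of `v.1`.
fin: for `v : Fib κ i` choose a point `x` with `x i = v` (all fibres are nonempty, the trees are connected, hence nonempty);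
some `g` maps `x` to a point `y` of the finite set `F`: `g • v = (y (g • i)).1`. So every vertex over `i` is
in the `G`-orbit of one of finitely many vertices `z`; choose for each such `z` one vertex `v_z` over `i` in its orbit (if there is
one); two vertices over `i` in the same `G`-orbit are in the same orbit of the stabilizer of `i`, since `g • v = v'`, κ
equivariant, gives `g • i = i`.
cinv: `gcinv` for the group `stabilizer G i`, `V := Fib κ i`, and `W :=` the set of choices of one vertex in every other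
component: a convenient model is `W = {T : Set V // (∀ j, j ≠ i → ∃! x, x ∈ T ∧ κ x = j) ∧ ∀ x ∈ T, κ x ≠ i}` with the image
action (`Set.image`), or `∀ j : {j // j ≠ i}, Fib κ j` with `(g • w) j = g • w (g⁻¹ • j)` (define the `MulAction` by hand and use
`letI`). `prop`, `fin` for the pair `(v, w)` come from those of the point with `i`-th coordinate `v` and the others
from `w` (for `fin`: representatives `F` over all of `G`, as for `fin` above).
-/

set_option autoImplicit false

namespace LatF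

open LatIso LatN

section

variable {G : Type} [Group G] {V ι : Type} [Fintype ι] [MulAction G V] [MulAction G ι]
  {κ : V → ι} {S : SimpleGraph V} [Fact (KEq G κ)]

/-- the other components are permuted by the stabilizer of `i` -/
private def ftlatJ {G ι : Type} [Group G] [MulAction G ι] (i : ι) (g : MulAction.stabilizer G i)
    (j : {j : ι // j ≠ i}) : {j : ι // j ≠ i} :=
  ⟨(g : G) • j.1, fun h => j.2 (by
    have hg : (g : G) • i = i := g.2
    exact MulAction.injective (g : G) (h.trans hg.symm))⟩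

/-- the points of the product of the components different from `i` -/
private def FtlatW {V ι : Type} (κ : V → ι) (i : ι) : Type :=
  {w : {j : ι // j ≠ i} → V // ∀ j, κ (w j) = j.1}

private def ftlat_act (i : ι) : MulAction (MulAction.stabilizer G i) (FtlatW κ i) where
  smul g w := ⟨fun j => (g : G) • w.1 (ftlatJ i g⁻¹ j), fun j => by
    have h : KEq G κ := Fact.out
    rw [h, w.2]
    show (g : G) • ((g⁻¹ : MulAction.stabilizer G i) : G) • j.1 = j.1
    rw [Subgroup.coe_inv, smul_inv_smul]⟩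
  one_smul w := by
    apply Subtype.ext
    funext j
    show ((1 : MulAction.stabilizer G i) : G) • w.1 (ftlatJ i 1⁻¹ j) = w.1 j
    have h : ftlatJ i (1 : MulAction.stabilizer G i)⁻¹ j = j := by
      apply Subtype.ext
      show (((1 : MulAction.stabilizer G i)⁻¹ : MulAction.stabilizer G i) : G) • j.1 = j.1
      rw [inv_one, Subgroup.coe_one, one_smul]
    rw [h, Subgroup.coe_one, one_smul]
  mul_smul a b w := by
    apply Subtype.ext
    funext j
    show ((a * b : MulAction.stabilizer G i) : G) • w.1 (ftlatJ i (a * b)⁻¹ j) =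
      (a : G) • (b : G) • w.1 (ftlatJ i b⁻¹ (ftlatJ i a⁻¹ j))
    have h : ftlatJ i (a * b)⁻¹ j = ftlatJ i b⁻¹ (ftlatJ i a⁻¹ j) := by
      apply Subtype.ext
      show (((a * b)⁻¹ : MulAction.stabilizer G i) : G) • j.1 =
        ((b⁻¹ : MulAction.stabilizer G i) : G) • ((a⁻¹ : MulAction.stabilizer G i) : G) • j.1
      rw [mul_inv_rev, Subgroup.coe_mul, mul_smul]
    rw [h, Subgroup.coe_mul, mul_smul]

open Classical in
/-- the point with the coordinates `v` and `w` -/
private noncomputable def ftlat_pt (i : ι) (v : Fib κ i) (w : FtlatW κ i) : ∀ j, Fib κ j := fun j =>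
  if h : j = i then ⟨v.1, v.2.trans h.symm⟩ else ⟨w.1 ⟨j, h⟩, w.2 ⟨j, h⟩⟩

private theorem ftlat_pt_i (i : ι) (v : Fib κ i) (w : FtlatW κ i) {j : ι} (h : j = i) :
    (ftlat_pt i v w j).1 = v.1 := by
  unfold ftlat_pt
  rw [dif_pos h]

private theorem ftlat_pt_j (i : ι) (v : Fib κ i) (w : FtlatW κ i) {j : ι} (h : j ≠ i) :
    (ftlat_pt i v w j).1 = w.1 ⟨j, h⟩ := by
  unfold ftlat_pt
  rw [dif_neg h]

private theorem ftlat_fin (L : FLat0 G κ S) (i : ι) (v0 : Fib κ i) (w0 : FtlatW κ i) :
    letI := ftlat_act (G := G) (κ := κ) i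
    ∃ F : Finset (Fib κ i × FtlatW κ i), ∀ v w, ∃ g : MulAction.stabilizer G i, (g • v, g • w) ∈ F := by
  classical
  letI := ftlat_act (G := G) (κ := κ) i
  obtain ⟨F, hF⟩ := L.fin
  let P : (∀ i, Fib κ i) × ι → (Fib κ i × FtlatW κ i) × G → Prop := fun yk t =>
    t.2 • i = yk.2 ∧ Mv t.2 (ftlat_pt i t.1.1 t.1.2) yk.1
  let f : (∀ i, Fib κ i) × ι → (Fib κ i × FtlatW κ i) × G := fun yk =>
    if h : ∃ t, P yk t then h.choose else ((v0, w0), 1)
  have hf : ∀ yk, (∃ t, P yk t) → P yk (f yk) := by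
    intro yk h
    simp only [f, dif_pos h]
    exact h.choose_spec
  refine ⟨(F ×ˢ (Finset.univ : Finset ι)).image fun yk => (f yk).1, fun v w => ?_⟩
  obtain ⟨g, y, hy, hg⟩ := hF (ftlat_pt i v w)
  have h1 : P (y, g • i) (f (y, g • i)) := hf _ ⟨((v, w), g), rfl, hg⟩
  obtain ⟨h2, h3⟩ := h1
  set t := f (y, g • i) with ht
  have h2' : t.2 • i = g • i := h2
  have hstab : t.2⁻¹ * g ∈ MulAction.stabilizer G i := by
    rw [MulAction.mem_stabilizer_iff, mul_smul, ← h2', inv_smul_smul]
  refine ⟨⟨t.2⁻¹ * g, hstab⟩, Finset.mem_image.2 ⟨(y, g • i), Finset.mem_product.2 ⟨hy, Finset.mem_univ _⟩, ?_⟩⟩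
  apply Prod.ext
  · apply Subtype.ext
    show t.1.1.1 = (t.2⁻¹ * g) • v.1
    have e1 := hg i
    have e2 := h3 i
    rw [ftlat_pt_i i v w rfl] at e1
    rw [ftlat_pt_i i t.1.1 t.1.2 rfl, h2'] at e2
    rw [mul_smul, e1, eq_inv_smul_iff]
    exact e2
  · apply Subtype.ext
    funext j
    show t.1.2.1 j = (t.2⁻¹ * g) • w.1 (ftlatJ i (⟨t.2⁻¹ * g, hstab⟩ : MulAction.stabilizer G i)⁻¹ j)
    have e2 := h3 j.1
    rw [ftlat_pt_j i t.1.1 t.1.2 j.2] at e2
    set j' := ftlatJ i (⟨t.2⁻¹ * g, hstab⟩ : MulAction.stabilizer G i)⁻¹ j with hj'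
    have e1 := hg j'.1
    rw [ftlat_pt_j i v w j'.2] at e1
    have e3 : g • j'.1 = t.2 • j.1 := by
      show g • ((t.2⁻¹ * g)⁻¹ • j.1) = t.2 • j.1
      rw [mul_inv_rev, inv_inv, mul_smul, smul_inv_smul]
    rw [e3] at e1
    rw [mul_smul, e1, eq_inv_smul_iff]
    exact e2

private theorem ftlat_prop (L : FLat0 G κ S) (i : ι) (v : Fib κ i) (w : FtlatW κ i) :
    letI := ftlat_act (G := G) (κ := κ) i
    {g : MulAction.stabilizer G i | g • v = v ∧ g • w = w}.Finite := by
  letI := ftlat_act (G := G) (κ := κ) i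
  have h1 := L.prop (ftlat_pt i v w)
  refine (h1.preimage (f := fun g : MulAction.stabilizer G i => (g : G))
    Subtype.val_injective.injOn).subset ?_
  rintro g ⟨hv, hw⟩
  show Mv (g : G) (ftlat_pt i v w) (ftlat_pt i v w)
  intro j
  by_cases hj : j = i
  · have hg : (g : G) • j = i := by
      rw [hj]
      exact g.2
    rw [ftlat_pt_i i v w hj, ftlat_pt_i i v w hg]
    exact congrArg Subtype.val hv
  · have hg : (g : G) • j ≠ i := (ftlatJ i g ⟨j, hj⟩).2
    rw [ftlat_pt_j i v w hj, ftlat_pt_j i v w hg]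
    have h2 := congrFun (congrArg Subtype.val hw) ⟨(g : G) • j, hg⟩
    have h3 : (g : G) • w.1 (ftlatJ i g⁻¹ ⟨(g : G) • j, hg⟩) = w.1 ⟨(g : G) • j, hg⟩ := h2
    have h4 : ftlatJ i g⁻¹ ⟨(g : G) • j, hg⟩ = ⟨j, hj⟩ := by
      apply Subtype.ext
      show ((g⁻¹ : MulAction.stabilizer G i) : G) • (g : G) • j = j
      rw [Subgroup.coe_inv, inv_smul_smul]
    rw [h4] at h3
    exact h3

theorem flat_tlat (L : FLat0 G κ S) (i : ι) :
    TLat (MulAction.stabilizer G i) (comp κ S i) := by
  have hne : ∀ j, Nonempty (Fib κ j) := fun j => (L.forest.tree j).connected.nonempty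
  have v0 : Fib κ i := Classical.choice (hne i)
  have w0 : FtlatW κ i := ⟨fun j => (Classical.choice (hne j.1)).1, fun j => (Classical.choice (hne j.1)).2⟩
  have hta : TA (MulAction.stabilizer G i) (comp κ S i) := {
    tree := L.forest.tree i
    adj := fun g x y h => L.act.adj (g : G) x.1 y.1 h
    noinv := fun g x y h h1 h2 =>
      L.noinv (g : G) x.1 y.1 h (congrArg Subtype.val h1) (congrArg Subtype.val h2) }
  have hloc : ∀ v, ((comp κ S i).neighborSet v).Finite := fun v =>
    ((L.loc v.1).preimage (f := fun x : Fib κ i => x.1) Subtype.val_injective.injOn).subset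
      (fun _ hx => hx)
  letI := ftlat_act (G := G) (κ := κ) i
  have hfin := ftlat_fin L i v0 w0
  refine ⟨hta, hloc, ?_, ?_⟩
  · classical
    obtain ⟨F, hF⟩ := hfin
    refine ⟨F.image Prod.fst, fun v => ?_⟩
    obtain ⟨g, hg⟩ := hF v w0
    exact ⟨g, Finset.mem_image.2 ⟨_, hg, rfl⟩⟩
  · intro v x g h1
    exact gcinv hta hloc (fun v w => ftlat_prop L i v w) hfin w0 v x g h1

end

end LatF
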