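import Pool.Agent.Lib.MP_32d917_al.FDefs
import Pool.Agent.Lib.MP_32d917_al.F.GCINV
import Pool.Agent.Lib.MP_32d917_al.N.NCINV

/-!
# PLat gives TLat for every factor

TLat: `ta`, `loc` are fields of `PLat`; `fin` as in `N/NCINV.lean`; `cinv` from `gcinv` with
`W = ∀ l : {l // l ≠ i}, V l` (Pi action of `G`): `prop` and `fin` of the pair `(v, w)` are those of the point
with `i`-th coordinate `v` and the others from `w`. Every `V j` is nonempty by `leafless`.
-/

set_option autoImplicit false

namespace LatF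

open LatIso LatN

section

variable {G : Type} [Group G] {ι : Type} [Fintype ι] [DecidableEq ι] {V : ι → Type}
  [∀ i, MulAction G (V i)] {S : ∀ i, SimpleGraph (V i)}

theorem plat_tlat (L : PLat G S) (i : ι) : TLat G (S i) := by
  classical
  have hpt : Nonempty (∀ i, V i) := ⟨fun i => (L.leafless i).three.choose⟩
  obtain ⟨x0⟩ := hpt
  obtain ⟨F, hF⟩ := L.fin
  obtain ⟨c, hc⟩ : ∃ c : V i → (∀ l : {l // l ≠ i}, V l) → ∀ j, V j, ∀ v w,
      c v w = fun j => if hj : j = i then hj ▸ v else w ⟨j, hj⟩ := ⟨_, fun _ _ => rfl⟩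
  have hci : ∀ v w, c v w i = v := by
    intro v w
    rw [hc]
    simp
  have hcl : ∀ v w (l : {l // l ≠ i}), c v w l = w l := by
    intro v w l
    rw [hc]
    simp only [dif_neg l.2]
  refine ⟨L.ta i, L.loc i, ?_, ?_⟩
  · refine ⟨F.image fun z => z i, fun v => ?_⟩
    obtain ⟨g, hg⟩ := hF (Function.update x0 i v)
    refine ⟨g, Finset.mem_image.2 ⟨_, hg, ?_⟩⟩
    simp
  · intro v x g h1
    refine gcinv (W := ∀ l : {l // l ≠ i}, V l) (L.ta i) (L.loc i) ?_ ?_ (fun l => x0 l) v x g h1
    · intro v w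
      refine (L.prop (c v w)).subset ?_
      rintro g ⟨hv, hw⟩ j
      by_cases hj : j = i
      · subst hj
        rw [hci]
        exact hv
      · have h2 := hcl v w ⟨j, hj⟩
        simp only at h2
        rw [h2]
        exact congrFun hw ⟨j, hj⟩
    · refine ⟨F.image fun z => (z i, fun l : {l // l ≠ i} => z l), fun v w => ?_⟩
      obtain ⟨g, hg⟩ := hF (c v w)
      refine ⟨g, Finset.mem_image.2 ⟨_, hg, ?_⟩⟩
      refine Prod.ext ?_ ?_
      · simp only [hci]
      · funext l
        simp only [hcl]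
        rfl

end

end LatF
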