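import Pool.Agent.Lib.MP_32d917_al.FDefs
import Pool.Agent.Lib.MP_32d917_al.N.NCINV

/-!
# stabilizers in proper lattices (adapt N/NCINV.lean)

Adapt `stabOff_free`, `stabOff_fin`, `stabJ_fin` of `N/NCINV.lean` (`LatN` namespace, `open LatN`): an element of
`stabOff G x i` fixing `v` fixes the point `Function.update x i v`, so `prop` gives finiteness. The other two
proofs do not use freeness.
-/

set_option autoImplicit false

namespace LatF

open LatIso LatN

section

variable {G : Type} [Group G] {ι : Type} [Fintype ι] [DecidableEq ι] {V : ι → Type}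
  [∀ i, MulAction G (V i)] {S : ∀ i, SimpleGraph (V i)}

theorem pstabOff_prop (L : PLat G S) (x : ∀ i, V i) (i : ι) (v : V i) :
    {k : G | k ∈ stabOff G x i ∧ k • v = v}.Finite := by
  refine (L.prop (Function.update x i v)).subset ?_
  rintro k ⟨hk, hv⟩ j
  by_cases hj : j = i
  · subst hj
    rw [Function.update_self]
    exact hv
  · rw [Function.update_of_ne hj]
    exact hk j hj

/-- finitely many orbits of the pointwise stabilizer of a set of coordinates -/
theorem pstabJ_fin (L : PLat G S) (x : ∀ i, V i) (J : Finset ι) :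
    ∃ F : Finset (∀ i, V i), ∀ y : ∀ i, V i, (∀ i ∈ J, y i = x i) →
      ∃ k : G, (∀ i ∈ J, k • x i = x i) ∧ (fun i => k • y i) ∈ F := by
  classical
  obtain ⟨F, hF⟩ := L.fin
  -- for every `z` in `F` a group element moving `z i` to `x i` for `i ∈ J`, if possible
  let h : (∀ i, V i) → G := fun z => if hz : ∃ k : G, ∀ i ∈ J, k • z i = x i then hz.choose else 1
  have hh : ∀ z : ∀ i, V i, (∃ k : G, ∀ i ∈ J, k • z i = x i) → ∀ i ∈ J, h z • z i = x i := by
    intro z hz
    simp only [h, dif_pos hz]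
    exact hz.choose_spec
  refine ⟨F.image fun z => fun i => h z • z i, fun y hy => ?_⟩
  obtain ⟨g, hg⟩ := hF y
  have h1 := hh (fun i => g • y i) ⟨g⁻¹, fun i hi => by rw [inv_smul_smul]; exact hy i hi⟩
  refine ⟨h (fun i => g • y i) * g, ?_, ?_⟩
  · intro i hi
    have h2 := h1 i hi
    rw [mul_smul, ← hy i hi, h2, hy i hi]
  · refine Finset.mem_image.2 ⟨_, hg, ?_⟩
    funext i
    rw [mul_smul]

theorem pstabOff_fin (L : PLat G S) (x : ∀ i, V i) (i : ι) :
    ∃ F : Finset (V i), ∀ v : V i, ∃ k ∈ stabOff G x i, k • v ∈ F := by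
  classical
  obtain ⟨F, hF⟩ := pstabJ_fin L x (Finset.univ.erase i)
  refine ⟨F.image fun z => z i, fun v => ?_⟩
  obtain ⟨k, hk, hk'⟩ := hF (Function.update x i v) (fun j hj => by
    rw [Function.update_of_ne (Finset.ne_of_mem_erase hj)])
  refine ⟨k, fun j hj => hk j (Finset.mem_erase.2 ⟨hj, Finset.mem_univ _⟩), ?_⟩
  refine Finset.mem_image.2 ⟨_, hk', ?_⟩
  simp

end

end LatF
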