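import Pool.Agent.Lib.MP_32d917_al.FDefs
import Pool.Agent.Lib.MP_32d917_al.WHITE

/-!
# extremal elements, proper version (adapt WHITE.lean)

Adapt `Pool/Agent/Lib/MP_32d917_al/WHITE.lean`. Differences: (1) the set of elements of `H` mapping a vertex
to a given vertex is finite, not a singleton (lemma as in module PFG: it is a coset of a finite
stabilizer; prove it here privately); so up to conjugation in `H` there are still only finitely many
`h` with `tl S h ≤ N`. (2) `tl S h = 0` does not give `h = 1`, but `h` fixes a vertex (`tl_eq_zero`),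
so all powers of `h` are in a finite set, so `h ^ n = 1` for some `n > 0`, hence
`n * tl R h = tl R (h ^ n) = tl R 1 = 0` by `tl_pow`, so `tl R h = 0`; this is what is needed in the
induction and to see that `0 < tl R h` implies `0 < tl S h`.
-/

set_option autoImplicit false

namespace LatF

open LatIso LatN

section

variable {G : Type} [Group G] {V U : Type} [MulAction G V] [MulAction G U]
  {S : SimpleGraph V} {R : SimpleGraph U}

private theorem pwhite_maps (H : Subgroup G) (prop : ∀ v : V, {k : G | k ∈ H ∧ k • v = v}.Finite)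
    (x y : V) : {k : G | k ∈ H ∧ k • x = y}.Finite := by
  rcases Set.eq_empty_or_nonempty {k : G | k ∈ H ∧ k • x = y} with h | ⟨k0, hk0, e0⟩
  · rw [h]
    exact Set.finite_empty
  · refine ((prop x).image fun m => k0 * m).subset ?_
    rintro k ⟨hk, e⟩
    refine ⟨k0⁻¹ * k, ⟨H.mul_mem (H.inv_mem hk0) hk, ?_⟩, mul_inv_cancel_left k0 k⟩
    rw [mul_smul, e, ← e0, inv_smul_smul]

theorem pwhite (h : TA G S) (hR : TA G R) (H : Subgroup G)
    (prop : ∀ v : V, {k : G | k ∈ H ∧ k • v = v}.Finite)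
    (fin : ∃ F : Finset V, ∀ v : V, ∃ k ∈ H, k • v ∈ F)
    (loc : ∀ v, (S.neighborSet v).Finite)
    (h1 : G) (h1H : h1 ∈ H) (h1p : 0 < tl R h1) :
    ∃ h0 ∈ H, 0 < tl R h0 ∧ 0 < tl S h0 ∧ ∀ k ∈ H, tl R k * tl S h0 ≤ tl R h0 * tl S k := by
  classical
  obtain ⟨F, hF⟩ := fin
  have hc : S.Connected := h.tree.connected
  -- the finite set of oriented edges
  have hE : (⋃ v ∈ F, (fun y => (v, y)) '' S.neighborSet v).Finite :=
    F.finite_toSet.biUnion fun v _ => (loc v).image _
  obtain ⟨E, hEE⟩ : ∃ E : Finset (V × V), (E : Set (V × V)) =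
      ⋃ v ∈ F, (fun y => (v, y)) '' S.neighborSet v := ⟨hE.toFinset, hE.coe_toFinset⟩
  have hedge : ∀ x y, S.Adj x y → ∃ k ∈ H, (k • x, k • y) ∈ E := by
    intro x y hxy
    obtain ⟨k, hk, hkF⟩ := hF x
    refine ⟨k, hk, ?_⟩
    rw [← Finset.mem_coe, hEE]
    exact Set.mem_biUnion (x := k • x) hkF ⟨k • y, h.adj k x y hxy, rfl⟩
  have tl1R : tl R (1 : G) = 0 := by
    rw [tl_eq_zero hR]
    obtain ⟨u⟩ := hR.tree.connected.nonempty
    exact ⟨u, one_smul _ _⟩
  have tlzero : ∀ k ∈ H, tl S k = 0 → tl R k = 0 := by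
    intro k hk h0
    obtain ⟨x, hx⟩ := (tl_eq_zero h k).mp h0
    have hfo : IsOfFinOrder k := by
      by_contra hno
      have hinj := injective_pow_iff_not_isOfFinOrder.2 hno
      refine (Set.infinite_of_injective_forall_mem hinj (fun n => ?_)) (prop x)
      exact ⟨pow_mem hk n, pow_mem (show k ∈ MulAction.stabilizer G x from hx) n⟩
    obtain ⟨n, hn, hkn⟩ := isOfFinOrder_iff_pow_eq_one.1 hfo
    have h3 := tl_pow hR k n
    rw [hkn, tl1R] at h3
    rcases mul_eq_zero.1 h3.symm with h4 | h4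
    · omega
    · exact h4
  have h1S : 0 < tl S h1 := by
    rw [Nat.pos_iff_ne_zero]
    intro h0
    have := tlzero h1 h1H h0
    omega
  set N := max E.card (tl S h1) with hN
  -- finitely many classes of short elements
  have hD : {k : G | k ∈ H ∧ ∃ v ∈ F, S.dist v (k • v) ≤ N}.Finite := by
    have : {k : G | k ∈ H ∧ ∃ v ∈ F, S.dist v (k • v) ≤ N} ⊆
        ⋃ v ∈ F, {k : G | k ∈ H ∧ S.dist v (k • v) ≤ N} := by
      rintro k ⟨hk, v, hv, hd⟩
      exact Set.mem_biUnion (x := v) hv ⟨hk, hd⟩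
    refine (F.finite_toSet.biUnion fun v _ => ?_).subset this
    refine ((white_ball hc loc v N).biUnion (t := fun y => {k : G | k ∈ H ∧ k • v = y})
      fun y _ => pwhite_maps H prop v y).subset ?_
    rintro k ⟨hk, hd⟩
    exact Set.mem_biUnion (x := k • v) hd ⟨hk, rfl⟩
  obtain ⟨D, hDD⟩ : ∃ D : Finset G, ∀ k, k ∈ D ↔ (k ∈ H ∧ (∃ v ∈ F, S.dist v (k • v) ≤ N) ∧
      0 < tl S k) := by
    refine ⟨hD.toFinset.filter fun k => 0 < tl S k, fun k => ?_⟩
    rw [Finset.mem_filter, Set.Finite.mem_toFinset]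
    constructor
    · rintro ⟨⟨a, b⟩, c⟩; exact ⟨a, b, c⟩
    · rintro ⟨a, b, c⟩; exact ⟨⟨a, b⟩, c⟩
  have hconj : ∀ k ∈ H, 0 < tl S k → tl S k ≤ N → ∃ k' ∈ D, tl S k' = tl S k ∧ tl R k' = tl R k := by
    intro k hk hk1 hkN
    obtain ⟨x, hx⟩ := cc_nonempty h k
    obtain ⟨c, hcH, hcF⟩ := hF x
    refine ⟨c * k * c⁻¹, ?_, tl_conj h c k, tl_conj hR c k⟩
    rw [hDD]
    refine ⟨H.mul_mem (H.mul_mem hcH hk) (H.inv_mem hcH), ⟨c • x, hcF, ?_⟩, ?_⟩
    · have : (c * k * c⁻¹) • c • x = c • k • x := by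
        rw [mul_smul, mul_smul, inv_smul_smul]
      rw [this, ta_dist h]
      have hx' : S.dist x (k • x) = tl S k := hx
      omega
    · rw [tl_conj h]; exact hk1
  obtain ⟨h1', h1D, e1, e2⟩ := hconj h1 h1H h1S (le_max_right _ _)
  obtain ⟨h0, h0D, hmax⟩ := D.exists_max_image (fun k => (tl R k : ℚ) / (tl S k : ℚ)) ⟨h1', h1D⟩
  obtain ⟨h0H, -, h0S⟩ := (hDD h0).mp h0D
  have hmax' : ∀ k ∈ D, tl R k * tl S h0 ≤ tl R h0 * tl S k := by
    intro k hk
    have hkS := ((hDD k).mp hk).2.2
    have h3 := hmax k hk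
    have h4 : (0 : ℚ) < (tl S k : ℚ) := by exact_mod_cast hkS
    have h5 : (0 : ℚ) < (tl S h0 : ℚ) := by exact_mod_cast h0S
    rw [div_le_div_iff₀ h4 h5] at h3
    exact_mod_cast h3
  have h0R : 0 < tl R h0 := by
    have h3 := hmax' h1' h1D
    rw [e1, e2] at h3
    have h4 : 0 < tl R h1 * tl S h0 := Nat.mul_pos h1p h0S
    exact Nat.pos_of_ne_zero fun h5 => by rw [h5] at h3; omega
  refine ⟨h0, h0H, h0R, h0S, ?_⟩
  -- induction on the translation length
  have key : ∀ n : ℕ, ∀ k ∈ H, tl S k = n → tl R k * tl S h0 ≤ tl R h0 * n := by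
    intro n
    induction n using Nat.strong_induction_on with
    | _ n ih =>
      intro k hk hkn
      by_cases hk0 : tl S k = 0
      · rw [tlzero k hk hk0]; omega
      have hk1 : 0 < tl S k := Nat.pos_of_ne_zero hk0
      rcases Nat.lt_or_ge N n with hlt | hge
      · -- long elements
        have hkS : 0 < tl S k := hk1
        obtain ⟨b, hb1, hb2, -⟩ := tl_line h k hkS
        have hadj : ∀ i : ℕ, S.Adj (b i) (b (i + 1)) := by
          intro i
          rw [← SimpleGraph.dist_eq_one_iff_adj, hb1]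
          simp
        choose κ hκH hκE using fun i : ℕ => hedge _ _ (hadj i)
        obtain ⟨i, hi, j, hj, hij, heq⟩ :=
          Finset.exists_ne_map_eq_of_card_lt_of_maps_to (s := Finset.range n) (t := E)
            (f := fun i : ℕ => (κ i • b i, κ i • b (i + 1)))
            (by rw [Finset.card_range]; exact (le_max_left _ _).trans_lt hlt)
            (fun i _ => hκE i)
        -- wlog i < j
        obtain ⟨i, j, hij, hjn, heq⟩ : ∃ i j : ℕ, i < j ∧ j < n ∧
            (κ i • b i, κ i • b (i + 1)) = (κ j • b j, κ j • b (j + 1)) := by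
          rw [Finset.mem_range] at hi hj
          rcases lt_or_gt_of_ne hij with h' | h'
          · exact ⟨i, j, h', hj, heq⟩
          · exact ⟨j, i, h', hi, heq.symm⟩
        obtain ⟨hq1, hq2⟩ := Prod.mk.inj heq
        set c : G := (κ j)⁻¹ * κ i with hcdef
        have hcH : c ∈ H := H.mul_mem (H.inv_mem (hκH j)) (hκH i)
        have hc1 : c • b i = b j := by rw [hcdef, mul_smul, hq1, inv_smul_smul]
        have hc2 : c • b (i + 1) = b (j + 1) := by rw [hcdef, mul_smul, hq2, inv_smul_smul]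
        have hb2' : ∀ i : ℤ, k • b i = b (i + n) := by
          intro i; rw [hb2, hkn]
        set g2 : G := c⁻¹ * k with hg2
        have hg2H : g2 ∈ H := H.mul_mem (H.inv_mem hcH) hk
        have hprod : c * g2 = k := by rw [hg2, mul_inv_cancel_left]
        -- translation lengths
        have t1 : tl S c ≤ j - i := by
          refine (tl_le h c (b i)).trans ?_
          rw [hc1, hb1]; omega
        have t2 : tl S g2 ≤ n - (j - i) := by
          refine (tl_le h g2 (b i)).trans ?_
          have : S.dist (b i) (g2 • b i) = S.dist (b j) (b (i + n)) := by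
            rw [← ta_dist h c (b i), hc1, smul_smul, hprod, hb2']
          rw [this, hb1]; omega
        have t3 : tl S (c * g2⁻¹) ≤ n - 2 := by
          refine (tl_le h _ (b (i + 1))).trans ?_
          have e3 : S.dist (b (i + 1)) ((c * g2⁻¹) • b (i + 1)) =
              S.dist (c⁻¹ • b (i + 1)) (g2⁻¹ • b (i + 1)) := by
            rw [← ta_dist h c (c⁻¹ • b (i + 1)), smul_inv_smul, smul_smul]
          have e4 : S.dist (c⁻¹ • b (i + 1)) (b i) = j - i - 1 := by
            rw [← ta_dist h c, smul_inv_smul, hc1, hb1]; omega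
          have e5 : S.dist (b i) (g2⁻¹ • b (i + 1)) = n - (j - i) - 1 := by
            rw [← ta_dist h g2, smul_inv_smul, ← ta_dist h c, smul_smul, hprod, hc2, hb2', hb1]
            omega
          rw [e3]
          refine (hc.dist_triangle (v := b i)).trans ?_
          rw [e4, e5]
          omega
        have hn2 := tl_n2 hR c g2
        rw [hprod] at hn2
        have i1 := ih _ (by omega) c hcH rfl
        have i2 := ih _ (by omega) g2 hg2H rfl
        have i3 := ih _ (by omega) (c * g2⁻¹) (H.mul_mem hcH (H.inv_mem hg2H)) rfl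
        rcases le_max_iff.mp hn2 with h6 | h6
        · calc tl R k * tl S h0 ≤ (tl R c + tl R g2) * tl S h0 := Nat.mul_le_mul_right _ h6
            _ = tl R c * tl S h0 + tl R g2 * tl S h0 := Nat.add_mul _ _ _
            _ ≤ tl R h0 * tl S c + tl R h0 * tl S g2 := Nat.add_le_add i1 i2
            _ = tl R h0 * (tl S c + tl S g2) := (Nat.mul_add _ _ _).symm
            _ ≤ tl R h0 * n := Nat.mul_le_mul_left _ (by omega)
        · calc tl R k * tl S h0 ≤ tl R (c * g2⁻¹) * tl S h0 := Nat.mul_le_mul_right _ h6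
            _ ≤ tl R h0 * tl S (c * g2⁻¹) := i3
            _ ≤ tl R h0 * n := Nat.mul_le_mul_left _ (by omega)
      · obtain ⟨k', hk'D, e3, e4⟩ := hconj k hk hk1 (by omega)
        have h3 := hmax' k' hk'D
        rw [e3, e4, hkn] at h3
        exact h3
  intro k hk
  exact key _ k hk rfl

end

end LatF
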