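import Pool.Agent.Lib.MP_32d917_al.FDefs
import Pool.Agent.Lib.MP_32d917_al.F.PFG
import Pool.Agent.Lib.MP_32d917_al.F.PWHITE
import Pool.Agent.Lib.MP_32d917_al.F.PCINV
import Pool.Agent.Lib.MP_32d917_al.F.PSTAB
import Pool.Agent.Lib.MP_32d917_al.N.NTHMA

/-!
# Theorem A, proper version (adapt N/NTHMA.lean)

Adapt `N/NTHMA.lean`: replace `NLat` by `PLat`, `nlat_tlat` by `plat_tlat`, `stabOff_free` by `pstabOff_prop`, `white` by
`pwhite`, `fix_of_tl_zero` by `pfix_of_tl_zero`, `stabOff_fin` by `pstabOff_fin`. Nothing else uses freeness.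
-/

set_option autoImplicit false

namespace LatF

open LatIso LatN

section

variable {G : Type} [Group G] {ι : Type} [Fintype ι] [DecidableEq ι] {V : ι → Type}
  [∀ i, MulAction G (V i)] {S : ∀ i, SimpleGraph (V i)} {U : Type} [MulAction G U]
  {R : SimpleGraph U}

/-- ellipticity of `stabOff x i` on `U` does not depend on `x` -/
theorem pstabOff_ell (L : PLat G S) (hR : TA G R) (x y : ∀ i, V i) (i : ι)
    (h : ∃ u : U, ∀ k ∈ stabOff G x i, k • u = u) : ∃ u : U, ∀ k ∈ stabOff G y i, k • u = u := by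
  refine ell_of_finite_orbit hR (stabOff G x i) (stabOff G y i)
    (X := ∀ l : {l : ι // l ≠ i}, V l) (fun l => x l) ?_ ?_ h
  · have h1 : (Set.pi Set.univ fun l : {l : ι // l ≠ i} =>
        (Set.range fun k : MulAction.stabilizer G (y l) => (k : G) • x l)).Finite :=
      Set.Finite.pi fun l => torbit_fin (plat_tlat L l) (y l) (x l)
    refine h1.subset ?_
    rintro _ ⟨k, rfl⟩ l _
    exact ⟨⟨(k : G), k.2 l l.2⟩, rfl⟩
  · intro k _ hkx j hj
    exact congrFun hkx ⟨j, hj⟩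

/-- Theorem A -/
theorem pthmA (L : PLat G S) (L' : TLat G R) (h2 : Leafless R) (x y : ∀ i, V i) (i j : ι)
    (hij : i ≠ j) : (∃ u : U, ∀ k ∈ stabOff G x i, k • u = u) ∨
      (∃ u : U, ∀ k ∈ stabOff G y j, k • u = u) := by
  by_contra hcon
  rw [not_or] at hcon
  obtain ⟨hv, hw⟩ := hcon
  have hU := L'.ta
  have hS := L.ta i
  -- the group `H` contains a hyperbolic element
  have hH : ∃ h1 ∈ stabOff G x i, 0 < tl R h1 := by
    by_contra hno
    push Not at hno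
    exact hv (pfix_of_tl_zero hS hU (stabOff G x i) (pstabOff_prop L x i) (pstabOff_fin L x i)
      (L.loc i) (fun k hk => Nat.le_zero.mp (hno k hk)))
  obtain ⟨h1, h1H, h1p⟩ := hH
  obtain ⟨h0, h0H, h0U, h0S, hstar⟩ := pwhite hS hU (stabOff G x i) (pstabOff_prop L x i)
    (pstabOff_fin L x i) (L.loc i) h1 h1H h1p
  obtain ⟨v0, hv0⟩ := cc_nonempty hS h0
  set x' : ∀ l, V l := Function.update x i v0 with hx'
  have hx'i : x' i = v0 := by rw [hx', Function.update_self]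
  have hx'l : ∀ l, l ≠ i → x' l = x l := fun l hl => by rw [hx', Function.update_of_ne hl]
  have hK : ∃ k ∈ stabOff G x' j, 0 < tl R k := by
    by_contra hno
    push Not at hno
    exact hw (pstabOff_ell L hU x' y j (pfix_of_tl_zero (L.ta j) hU (stabOff G x' j)
      (pstabOff_prop L x' j) (pstabOff_fin L x' j) (L.loc j)
      (fun k hk => Nat.le_zero.mp (hno k hk))))
  obtain ⟨k, hk, hkp⟩ := hK
  -- (i)
  have hi : ∀ c ∈ stabOff G x' j, ∃ y ∈ CC R h0, c • y ∈ CC R h0 := by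
    intro c hc
    have hcv : c • v0 = v0 := by
      have := hc i hij
      rwa [hx'i] at this
    have hci : c⁻¹ ∈ stabOff G x' j := inv_mem hc
    obtain ⟨m, hm, hmw⟩ := tpow_fix (plat_tlat L j) (x j) (c⁻¹ • x j) h0 (h0H j hij.symm)
    have e1 : c * h0 ^ m * c⁻¹ ∈ stabOff G x i := by
      intro l hl
      rw [mul_smul, mul_smul]
      by_cases hlj : l = j
      · subst hlj
        rw [hmw, smul_inv_smul]
      · have h3 := hc l hlj
        have h4 := hci l hlj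
        rw [hx'l l hl] at h3 h4
        have h5 : h0 ^ m • x l = x l :=
          (pow_mem (show h0 ∈ MulAction.stabilizer G (x l) from h0H l hl) m)
        rw [h4, h5, h3]
    have e2 : v0 ∈ CC (S i) (h0 ^ m) := by rw [cc_pow hS h0 h0S m hm]; exact hv0
    have e3 : v0 ∈ CC (S i) (c * h0 ^ m * c⁻¹) := by
      have := (cc_conj hS c (h0 ^ m) v0).mpr e2
      rwa [hcv] at this
    have e4 : tl (S i) (h0 ^ m * (c * h0 ^ m * c⁻¹)) ≤
        tl (S i) (h0 ^ m) + tl (S i) (c * h0 ^ m * c⁻¹) := by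
      refine (tl_le hS _ v0).trans ?_
      refine (hS.tree.connected.dist_triangle (v := h0 ^ m • v0)).trans ?_
      rw [mul_smul, ta_dist hS]
      exact Nat.add_le_add e2.le e3.le
    rw [tl_conj hS, tl_pow hS] at e4
    have e5 := hstar (h0 ^ m * (c * h0 ^ m * c⁻¹)) (mul_mem (pow_mem h0H m) e1)
    have e6 : tl R (h0 ^ m * (c * h0 ^ m * c⁻¹)) ≤ tl R (h0 ^ m) + tl R (c * h0 ^ m * c⁻¹) := by
      rw [tl_conj hU, tl_pow hU]
      refine Nat.le_of_mul_le_mul_right ?_ h0S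
      refine e5.trans ((Nat.mul_le_mul_left _ e4).trans (le_of_eq ?_))
      ring
    obtain ⟨z, hx1, hx2⟩ := tl_n1 hU _ _ e6
    rw [cc_pow hU h0 h0U m hm] at hx1
    rw [nthma_conj hU, cc_pow hU h0 h0U m hm] at hx2
    exact ⟨c⁻¹ • z, hx2, by rw [smul_inv_smul]; exact hx1⟩
  -- (ii)
  have hii : ∀ k ∈ stabOff G x' j, 0 < tl R k → (CC R h0 ∩ CC R k).Infinite := by
    intro k hk hkp hfin
    obtain ⟨n, hn, hno⟩ := lemF hU k hkp (CC R h0) (cc_cvx hU h0) (cc_nonempty hU h0) hfin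
    obtain ⟨y, hy1, hy2⟩ := hi (k ^ n) (pow_mem hk n)
    exact hno y hy1 hy2
  -- (iii)
  obtain ⟨z, hz⟩ := tlemE L' h2 k hkp
  have hm1 : ∀ l, ∃ m : ℕ, 0 < m ∧ (l ≠ j → k ^ m • z⁻¹ • x' l = z⁻¹ • x' l) := by
    intro l
    by_cases hl : l = j
    · exact ⟨1, one_pos, fun h => absurd hl h⟩
    · obtain ⟨m, hm, hmv⟩ := tpow_fix (plat_tlat L l) (x' l) (z⁻¹ • x' l) k (hk l hl)
      exact ⟨m, hm, fun _ => hmv⟩
  choose mm hmm1 hmm2 using hm1
  set m : ℕ := ∏ l, mm l with hmdef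
  have hm : 0 < m := Finset.prod_pos fun l _ => hmm1 l
  have hk' : z * k ^ m * z⁻¹ ∈ stabOff G x' j := by
    intro l hl
    rw [mul_smul, mul_smul,
      nthma_pow_smul (hmm2 l hl) (Finset.dvd_prod_of_mem mm (Finset.mem_univ l)), smul_inv_smul]
  have k'p : 0 < tl R (z * k ^ m * z⁻¹) := by
    rw [tl_conj hU, tl_pow hU]; exact Nat.mul_pos hm hkp
  have hcc : CC R (z * k ^ m * z⁻¹) = CC R (z * k * z⁻¹) := by
    ext y
    rw [nthma_conj hU, nthma_conj hU, cc_pow hU k hkp m hm]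
  set k' := z * k ^ m * z⁻¹ with hk'def
  have hfin1 : (CC R k' ∩ CC R k).Finite := by rw [hcc]; exact hz
  obtain ⟨n, hn, hno⟩ := lemF hU k hkp (CC R k') (cc_cvx hU k') (cc_nonempty hU k') hfin1
  have k''v : k ^ n * k' * (k ^ n)⁻¹ ∈ stabOff G x' j :=
    mul_mem (mul_mem (pow_mem hk n) hk') (inv_mem (pow_mem hk n))
  have k''p : 0 < tl R (k ^ n * k' * (k ^ n)⁻¹) := by rw [tl_conj hU]; exact k'p
  -- intersections
  have hB : ∀ y, y ∈ CC R k → (k ^ n)⁻¹ • y ∈ CC R k := by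
    intro y hy
    have h1 : k ^ n * k * (k ^ n)⁻¹ = k := by
      rw [mul_inv_eq_iff_eq_mul, ← pow_succ, ← pow_succ']
    have h2 := (nthma_conj hU (k ^ n) k y)
    rw [h1] at h2
    exact h2.mp hy
  rcases three_lines hU h0 h0U (CC R k) (CC R k') (CC R (k ^ n * k' * (k ^ n)⁻¹))
    (cc_cvx hU _) (cc_cvx hU _) (cc_cvx hU _) (hii k hk hkp) (hii k' hk' k'p)
    (hii _ k''v k''p) with h | h | h
  · rw [Set.inter_comm] at h
    exact h hfin1
  · obtain ⟨y, hy1, hy2⟩ := h.nonempty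
    rw [nthma_conj hU] at hy2
    refine hno _ hy2 ?_
    rw [smul_inv_smul]; exact hy1
  · refine h ((hfin1.image fun y => k ^ n • y).subset ?_)
    rintro y ⟨hy1, hy2⟩
    rw [nthma_conj hU] at hy2
    exact ⟨(k ^ n)⁻¹ • y, ⟨hy2, hB y hy1⟩, smul_inv_smul _ _⟩

end

end LatF
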