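import Pool.Agent.Lib.MP_32d917_al.FDefs
import Pool.Agent.Lib.MP_32d917_al.F.PTHMA
import Pool.Agent.Lib.MP_32d917_al.N.NCOMM

/-!
# the factors correspond, proper version (adapt N/NCOMM.lean)

Adapt `N/NCOMM.lean` (with `PLat`, `pstabJ_fin`, `pthmA`, `pstabOff_ell`, `plat_tlat`). Places where freeness was used:
(a) `K_univ = 1` is now: the pointwise stabilizer of all coordinates is finite, so its orbit on `U` is finite and
`fix_of_finite` gives a fixed vertex; (b) `pdiff`: if `v : V i`, `w : V j`, `i ≠ j` and `stab v ≤ stab w`: extend `v` to a point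
`x`; `stabOff G x j ≤ stab v ≤ stab w` fixes `w` and acts on `V j` with finitely many orbits (`pstabOff_fin`), so the distance to `w`
takes finitely many values on `V j`, so `V j` is finite by local finiteness, or directly: the tree `S j` has a vertex at
maximal distance from `w`, which has a second neighbour farther away (`leafless`.two), contradiction.
-/

set_option autoImplicit false

namespace LatF

open LatIso LatN

section

variable {G : Type} [Group G] {ι κ : Type} [Fintype ι] [DecidableEq ι] [Fintype κ]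
  [DecidableEq κ] {V : ι → Type} [∀ i, MulAction G (V i)] {S : ∀ i, SimpleGraph (V i)}
  {V' : κ → Type} [∀ i, MulAction G (V' i)] {S' : ∀ i, SimpleGraph (V' i)}

omit [Fintype ι] [DecidableEq ι] in
theorem PCOMM_pt (L : PLat G S) : Nonempty (∀ i, V i) :=
  ⟨fun i => (L.leafless i).three.choose⟩

/-- the stabilizer of a vertex of one factor fixes no vertex of another factor -/
theorem pdiff (L : PLat G S) (i j : ι) (hij : i ≠ j) (v : V i) (w : V j) : ¬ StabLe G v w := by
  classical
  intro h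
  obtain ⟨x0⟩ := PCOMM_pt L
  obtain ⟨F, hF⟩ := pstabOff_fin L (Function.update x0 i v) j
  have h1 : ∀ k ∈ stabOff G (Function.update x0 i v) j, k • w = w := by
    intro k hk
    refine h k ?_
    have h2 := hk i hij
    rw [Function.update_self] at h2
    exact h2
  obtain ⟨n, hn⟩ : ∃ n : ℕ, ∀ u ∈ F, (S j).dist w u ≤ n :=
    ⟨F.sup fun u => (S j).dist w u, fun u hu => Finset.le_sup (f := fun u => (S j).dist w u) hu⟩
  refine latb2_inf (L.ta j).tree (L.leafless j).two w ?_
  refine Set.finite_univ_iff.1 ((latb1_ball (L.ta j).tree.connected (L.loc j) w n).subset ?_)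
  intro u _
  obtain ⟨k, hk, hku⟩ := hF u
  have h3 := ta_dist (L.ta j) k w u
  rw [h1 k hk] at h3
  have h4 := hn _ hku
  rw [h3] at h4
  exact h4

/-- if all `stabOff y j` with `j ∉ J` are elliptic on `U` then so is the pointwise stabilizer of the
coordinates in `J` of a point `x` -/
theorem PCOMM_ell (L : PLat G S) {U : Type} [MulAction G U] {R : SimpleGraph U} (hR : TA G R)
    (hfin : ∀ (u u' : U), (Set.range fun k : MulAction.stabilizer G u => (k : G) • u').Finite)
    (J : Finset ι) (h : ∀ (y : ∀ i, V i) (j : ι), j ∉ J → ∃ u : U, ∀ k ∈ stabOff G y j, k • u = u)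
    (x : ∀ i, V i) : ∃ u : U, ∀ k : G, (∀ i ∈ J, k • x i = x i) → k • u = u := by
  classical
  suffices H : ∀ (n : ℕ) (J : Finset ι), Jᶜ.card = n →
      (∀ (y : ∀ i, V i) (j : ι), j ∉ J → ∃ u : U, ∀ k ∈ stabOff G y j, k • u = u) →
      ∃ u : U, ∀ k : G, (∀ i ∈ J, k • x i = x i) → k • u = u from H _ J rfl h
  intro n
  induction n with
  | zero =>
    intro J hJ _
    obtain ⟨u0⟩ := hR.tree.connected.nonempty
    have h1 : J = Finset.univ := by
      rw [Finset.card_eq_zero, Finset.compl_eq_empty_iff] at hJ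
      exact hJ
    have h3 : (Set.range fun k : NCOMM_K G x J => (k : G) • u0).Finite := by
      refine ((L.prop x).image fun k => k • u0).subset ?_
      rintro _ ⟨k, rfl⟩
      exact ⟨k, fun i => k.2 i (by rw [h1]; exact Finset.mem_univ i), rfl⟩
    obtain ⟨u, hu⟩ := fix_of_finite hR (NCOMM_K G x J) u0 h3
    exact ⟨u, fun k hk => hu k hk⟩
  | succ n ih =>
    intro J hJ h
    have hne : Jᶜ.Nonempty := by
      rw [← Finset.card_pos, hJ]
      exact Nat.succ_pos n
    obtain ⟨j, hj⟩ := hne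
    have hjJ : j ∉ J := Finset.mem_compl.1 hj
    have hc : (insert j J)ᶜ.card = n := by
      rw [Finset.compl_insert, Finset.card_erase_of_mem hj, hJ]
      rfl
    obtain ⟨u1, hu1⟩ := ih (insert j J) hc
      (fun y l hl => h y l fun hlJ => hl (Finset.mem_insert_of_mem hlJ))
    obtain ⟨u2, hu2⟩ := h x j hjJ
    obtain ⟨F, hF⟩ := pstabOff_fin L x j
    have hHK : ∀ k ∈ stabOff G x j, k ∈ NCOMM_K G x J := by
      intro k hk l hl
      exact hk l fun hlj => hjJ (hlj ▸ hl)
    -- representatives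
    let γ : V j → G := fun f => if hf : ∃ g ∈ NCOMM_K G x J, g⁻¹ • x j = f then hf.choose else 1
    have hγ : ∀ f : V j, (∃ g ∈ NCOMM_K G x J, g⁻¹ • x j = f) →
        γ f ∈ NCOMM_K G x J ∧ (γ f)⁻¹ • x j = f := by
      intro f hf
      simp only [γ, dif_pos hf]
      exact hf.choose_spec
    have hfinite : (Set.range fun k : NCOMM_K G x J => (k : G) • u2).Finite := by
      have h1 : (⋃ f ∈ F, Set.range fun k : MulAction.stabilizer G u1 =>
          (k : G) • γ f • u2).Finite :=
        F.finite_toSet.biUnion fun f _ => hfin u1 (γ f • u2)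
      refine h1.subset ?_
      rintro _ ⟨k, rfl⟩
      obtain ⟨c, hc, hcF⟩ := hF ((k : G)⁻¹ • x j)
      have hkc : (k : G) * c⁻¹ ∈ NCOMM_K G x J := mul_mem k.2 (inv_mem (hHK c hc))
      have h2 : ((k : G) * c⁻¹)⁻¹ • x j = c • (k : G)⁻¹ • x j := by
        rw [mul_inv_rev, inv_inv, mul_smul]
      obtain ⟨h3, h4⟩ := hγ (c • (k : G)⁻¹ • x j) ⟨_, hkc, h2⟩
      set f : V j := c • (k : G)⁻¹ • x j with hf
      have h5 : ((k : G) * c⁻¹ * (γ f)⁻¹) • u1 = u1 := by
        refine hu1 _ fun i hi => ?_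
        rcases Finset.mem_insert.1 hi with rfl | hi
        · rw [mul_smul, h4, ← h2, smul_inv_smul]
        · exact mul_mem hkc (inv_mem h3) i hi
      refine Set.mem_iUnion₂.2 ⟨f, hcF, ⟨⟨(k : G) * c⁻¹ * (γ f)⁻¹, h5⟩, ?_⟩⟩
      change ((k : G) * c⁻¹ * (γ f)⁻¹) • γ f • u2 = (k : G) • u2
      have h6 : c⁻¹ • u2 = u2 := hu2 _ (inv_mem hc)
      rw [mul_smul, inv_smul_smul, mul_smul, h6]
    obtain ⟨u, hu⟩ := fix_of_finite hR (NCOMM_K G x J) u2 hfinite
    exact ⟨u, fun k hk => hu k hk⟩

/-- for every factor of the second product there is exactly one factor of the first product which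
is not elliptic on it; the stabilizers of its vertices are elliptic -/
theorem PCOMM_tau (L : PLat G S) (L' : PLat G S') (k : κ) : ∃ i : ι,
    ∀ v : V i, ∃ u : V' k, StabLe G v u := by
  classical
  obtain ⟨x0⟩ := PCOMM_pt L
  have hT := plat_tlat L' k
  have hex : ∃ i, ¬ ∃ u : V' k, ∀ g ∈ stabOff G x0 i, g • u = u := by
    by_contra hno
    push Not at hno
    obtain ⟨u, hu⟩ := PCOMM_ell L hT.ta (torbit_fin hT) ∅
      (fun y j _ => pstabOff_ell L hT.ta x0 y j (hno j)) x0
    exact NCOMM_nofix hT (L'.leafless k) u fun g => hu g fun i hi => absurd hi (Finset.notMem_empty i)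
  obtain ⟨i, hi⟩ := hex
  refine ⟨i, fun v => ?_⟩
  obtain ⟨u, hu⟩ := PCOMM_ell L hT.ta (torbit_fin hT) {i}
    (fun y j hj => by
      rw [Finset.mem_singleton] at hj
      rcases pthmA L hT (L'.leafless k) x0 y i j (Ne.symm hj) with h | h
      · exact absurd h hi
      · exact h) (Function.update x0 i v)
  refine ⟨u, fun g hg => hu g fun l hl => ?_⟩
  rw [Finset.mem_singleton] at hl
  subst hl
  rw [Function.update_self, hg]

/-- composition of the two correspondences -/
theorem PCOMM_inv (L' : PLat G S') (k k' : κ) (h : ∀ v : V' k', ∃ u : V' k, StabLe G v u) :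
    k' = k := by
  by_contra hne
  obtain ⟨x0⟩ := PCOMM_pt L'
  obtain ⟨u, hu⟩ := h (x0 k')
  exact pdiff L' k' k hne (x0 k') u hu

/-- the factors correspond to each other -/
theorem pcomm (L : PLat G S) (L' : PLat G S') : ∃ σ : ι ≃ κ, ∀ i,
    (∀ v : V i, ∃ v' : V' (σ i), StabLe G v v') ∧ (∀ v' : V' (σ i), ∃ v : V i, StabLe G v' v) := by
  choose τ hτ using PCOMM_tau L L'
  choose τ' hτ' using PCOMM_tau L' L
  have h1 : ∀ k, τ' (τ k) = k := by
    intro k
    refine PCOMM_inv L' k (τ' (τ k)) fun v => ?_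
    obtain ⟨v1, hv1⟩ := hτ' (τ k) v
    obtain ⟨v2, hv2⟩ := hτ k v1
    exact ⟨v2, fun g hg => hv2 g (hv1 g hg)⟩
  have h2 : ∀ i, τ (τ' i) = i := by
    intro i
    refine PCOMM_inv L i (τ (τ' i)) fun v => ?_
    obtain ⟨v1, hv1⟩ := hτ (τ' i) v
    obtain ⟨v2, hv2⟩ := hτ' i v1
    exact ⟨v2, fun g hg => hv2 g (hv1 g hg)⟩
  have h3 : ∀ (k : κ) (i : ι), τ k = i → ∀ v : V i, ∃ u : V' k, StabLe G v u := by
    rintro k _ rfl
    exact hτ k
  exact ⟨⟨τ', τ, h2, h1⟩, fun i => ⟨h3 (τ' i) i (h2 i), hτ' i⟩⟩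

end

end LatF
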