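import Pool.Agent.Lib.MP_32d917_al.FDefs
import Pool.Agent.Lib.MP_32d917_al.F.PCOMM
import Pool.Agent.Lib.MP_32d917_al.F.FTLAT
import Pool.Agent.Lib.MP_32d917_al.F.FPLAT
import Pool.Agent.Lib.MP_32d917_al.F.FIND
import Pool.Agent.Lib.MP_32d917_al.N.NS1
import Pool.Agent.Lib.MP_32d917_al.N.NS3
import Pool.Agent.Lib.MP_32d917_al.FIX

/-!
# the vertex sets of two reduced forests are isomorphic

Let `H` be the subgroup of all `g` fixing all elements of `ι` and of `ι'` (kernel of the action on `ι ⊕ ι'` or intersection of two kernels); it is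
normal and of finite index (finite permutation groups). `haveI`s for the Facts. By `flat_plat`, `pcomm` there is `σ : ι ≃ ι'` with
`StabLe H` both ways between `Fib κ i` and `Fib κ' (σ i)`.
(1) uniqueness: if `v : Fib κ i` and `w : Fib κ' j` with `StabLe H v w` then `j = σ i`: otherwise `j = σ i'`, `i' ≠ i`, and `StabLe H w v'` for some `v'` over
`i'`, so `StabLe H v v'`, against `pdiff`. (2) equivariance of `σ`: for `g : G`, `v` over `i`, `StabLe H v w`, `w` over `σ i`: as `H` is normal `StabLe H (g v)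
(g w)`, and `g v` is over `g i`, `g w` over `g (σ i)`, so `g (σ i) = σ (g i)` by (1).
(3) for every `i` the stabilizer `K` of `i` is the stabilizer of `σ i`. For `v` over `i`: `StabLe H v w`. The stabilizer of `v` in `G` is contained in `K`
and its orbit of `w` is finite (it contains `stab_H v`, of finite index, fixing `w`); so by `fix_of_finite` for the tree `comp κ' S' (σ i)` with the
group `K = stabilizer G (σ i)` (TA from flat_tlat) there is a vertex fixed by `stab_G v`. Hence the hypotheses of `tvset` (N/NS3) hold for the group `K` acting on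
`comp κ S i` and `comp κ' S' (σ i)` (both ways by symmetry, the second with `σ⁻¹`). `Red G S` implies `Red K (comp κ S i)`: elements of `G`
mapping `v` over `i` to `x` over `i` are in `K`. So there is a `K`-equivariant bijection `Fib κ i ≃ Fib κ' (σ i)`.
To avoid two instances (stabilizer of `i` and of `σ i`) rewrite along the equality of subgroups, or use `MulAction.compHom`, or
transport `TLat` of `comp κ' S' (σ i)` for `stabilizer G (σ i)` to a `TLat` for `stabilizer G i` by a small lemma (all fields are statements about elements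
`g : G` with `g • i = i`).
(4) `find_equiv`.
-/

set_option autoImplicit false

namespace LatF

open LatIso LatN

section

/-- if `y` is fixed by a subgroup of finite index of the stabilizer of `x`, the stabilizer of `x` fixes
a vertex of the tree -/
private theorem fcomm_fix {K : Type} [Group K] {X Y : Type} [MulAction K X] [MulAction K Y]
    {R : SimpleGraph Y} (hR : TA K R) (H : Subgroup K) [H.FiniteIndex] (x : X) (y : Y)
    (h : ∀ g ∈ H, g • x = x → g • y = y) : ∃ y' : Y, StabLe K x y' := by
  classical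
  have hfin : (Set.range fun k : MulAction.stabilizer K x => (k : K) • y).Finite := by
    let f : Set.range (fun k : MulAction.stabilizer K x => (k : K) • y) → K ⧸ H := fun z =>
      ((z.2.choose : K) : K ⧸ H)
    have hf : Function.Injective f := by
      intro z z' hzz
      have h1 : (z.2.choose : K)⁻¹ * (z'.2.choose : K) ∈ H := QuotientGroup.eq.1 hzz
      have h2 : ((z.2.choose : K)⁻¹ * (z'.2.choose : K)) • x = x := by
        have h3 : (z'.2.choose : K) • x = x := z'.2.choose.2
        have h4 : (z.2.choose : K) • x = x := z.2.choose.2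
        rw [mul_smul, h3, inv_smul_eq_iff, h4]
      have h5 := h _ h1 h2
      rw [mul_smul, inv_smul_eq_iff] at h5
      have h6 := z.2.choose_spec
      have h7 := z'.2.choose_spec
      apply Subtype.ext
      rw [← h6, ← h7]
      exact h5.symm
    haveI := Finite.of_injective f hf
    exact Set.toFinite _
  obtain ⟨y', hy'⟩ := fix_of_finite hR (MulAction.stabilizer K x) y hfin
  exact ⟨y', fun g hg => hy' g hg⟩

/-- change of the group acting -/
private theorem fcomm_tr {A B X : Type} [Group A] [Group B] [MulAction A X] [MulAction B X]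
    {R : SimpleGraph X} (e : A → B) (e' : B → A) (he : ∀ a (x : X), a • x = e a • x)
    (he' : ∀ b (x : X), b • x = e' b • x) (L : TLat B R) : TLat A R where
  ta := ⟨L.ta.tree, fun g x y h => by
      rw [he, he]
      exact L.ta.adj _ _ _ h, fun g x y h h1 => by
      rw [he] at h1 ⊢
      exact L.ta.noinv _ _ _ h h1⟩
  loc := L.loc
  fin := by
    obtain ⟨F, hF⟩ := L.fin
    refine ⟨F, fun v => ?_⟩
    obtain ⟨g, hg⟩ := hF v
    exact ⟨e' g, by rw [← he']; exact hg⟩
  cinv := by
    intro v x g h k h1 h2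
    simp only [he] at h1 h2 ⊢
    refine L.cinv v x (e g) (fun k' h3 h4 => ?_) (e k) h1 h2
    have h5 := h (e' k') (by rw [← he']; exact h3) (by rw [← he']; exact h4)
    rw [← he', ← he', he g, he g] at h5
    exact h5

private theorem fcomm_trr {A B X : Type} [Group A] [Group B] [MulAction A X] [MulAction B X]
    {R : SimpleGraph X} (e : A → B) (e' : B → A) (he : ∀ a (x : X), a • x = e a • x)
    (he' : ∀ b (x : X), b • x = e' b • x) (L : Red B R) : Red A R := by
  intro v x hvx h
  obtain ⟨g, hg⟩ := L v x hvx (fun g hg => by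
    rw [he'] at hg ⊢
    exact h _ hg)
  exact ⟨e' g, by rw [← he']; exact hg⟩

private theorem fcomm_red {G : Type} [Group G] {V ι : Type} [MulAction G V]
    [MulAction G ι] {κ : V → ι} {S : SimpleGraph V} [hf : Fact (KEq G κ)]
    (hS : Red G S) (i : ι) : Red (MulAction.stabilizer G i) (comp κ S i) := by
  intro v x hvx h
  have key : ∀ (g : G) (w w' : Fib κ i), g • w.1 = w'.1 → g ∈ MulAction.stabilizer G i := by
    intro g w w' hg
    rw [MulAction.mem_stabilizer_iff]
    have h1 := hf.out g w.1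
    rw [hg, w.2, w'.2] at h1
    exact h1.symm
  obtain ⟨g, hg⟩ := hS v.1 x.1 hvx (fun g hg => by
    have h1 := key g v v hg
    have h2 := h ⟨g, h1⟩ (Subtype.ext hg)
    exact congrArg Subtype.val h2)
  exact ⟨⟨g, key g v x hg⟩, Subtype.ext hg⟩

variable {G : Type} [Group G] {V V' ι ι' : Type} [Fintype ι] [Fintype ι'] [MulAction G V]
  [MulAction G V'] [MulAction G ι] [MulAction G ι'] {κ : V → ι} {κ' : V' → ι'}
  {S : SimpleGraph V} {S' : SimpleGraph V'}

theorem fcomm (L : FLat G κ S) (L' : FLat G κ' S') (hS : Red G S) (hS' : Red G S') :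
    ∃ (Φ : V ≃ V') (σ : ι ≃ ι'), (∀ (g : G) v, Φ (g • v) = g • Φ v) ∧
      (∀ (g : G) i, σ (g • i) = g • σ i) ∧ ∀ v, κ' (Φ v) = σ (κ v) := by
  classical
  have hκ : KEq G κ := L.b.act.kap
  have hκ' : KEq G κ' := L'.b.act.kap
  haveI : Fact (KEq G κ) := ⟨hκ⟩
  haveI : Fact (KEq G κ') := ⟨hκ'⟩
  let H : Subgroup G := (MulAction.toPermHom G ι).ker ⊓ (MulAction.toPermHom G ι').ker
  have hHn : H.Normal := inferInstance
  have hHf : H.FiniteIndex := inferInstance
  have hH1 : ∀ g ∈ H, ∀ i : ι, g • i = i := by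
    intro g hg i
    have h1 : MulAction.toPermHom G ι g = 1 := hg.1
    exact congrArg (fun p : Equiv.Perm ι => p i) h1
  have hH2 : ∀ g ∈ H, ∀ i : ι', g • i = i := by
    intro g hg i
    have h1 : MulAction.toPermHom G ι' g = 1 := hg.2
    exact congrArg (fun p : Equiv.Perm ι' => p i) h1
  haveI : Fact (∀ g ∈ H, ∀ i : ι, g • i = i) := ⟨hH1⟩
  haveI : Fact (∀ g ∈ H, ∀ i : ι', g • i = i) := ⟨hH2⟩
  have P := flat_plat L H hHf
  have P' := flat_plat L' H hHf
  obtain ⟨σ, hσ⟩ := pcomm P P'
  -- in terms of elements of `V`, `V'`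
  have hσ1 : ∀ v : V, ∃ w : V', κ' w = σ (κ v) ∧ ∀ h ∈ H, h • v = v → h • w = w := by
    intro v
    obtain ⟨w, hw⟩ := (hσ (κ v)).1 ⟨v, rfl⟩
    refine ⟨w.1, w.2, fun h hh hv => ?_⟩
    exact congrArg Subtype.val (hw ⟨h, hh⟩ (Subtype.ext hv))
  have hσ2 : ∀ w : V', ∃ v : V, κ' w = σ (κ v) ∧ ∀ h ∈ H, h • w = w → h • v = v := by
    intro w
    obtain ⟨v, hv⟩ := (hσ (σ.symm (κ' w))).2 ⟨w, by rw [Equiv.apply_symm_apply]⟩
    refine ⟨v.1, by rw [v.2, Equiv.apply_symm_apply], fun h hh hw => ?_⟩
    exact congrArg Subtype.val (hv ⟨h, hh⟩ (Subtype.ext hw))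
  -- uniqueness
  have huniq : ∀ (v : V) (w : V'), (∀ h ∈ H, h • v = v → h • w = w) → κ' w = σ (κ v) := by
    intro v w hvw
    obtain ⟨v', h1, h2⟩ := hσ2 w
    by_cases h3 : κ v = κ v'
    · rw [h1, h3]
    · exfalso
      refine pdiff P (κ v) (κ v') h3 ⟨v, rfl⟩ ⟨v', rfl⟩ ?_
      intro h hh
      apply Subtype.ext
      exact h2 h.1 h.2 (hvw h.1 h.2 (congrArg Subtype.val hh))
  -- equivariance
  have heq : ∀ (g : G) i, σ (g • i) = g • σ i := by
    intro g i
    obtain ⟨v, hv⟩ : ∃ v : V, κ v = i := by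
      obtain ⟨v⟩ := (L.b.forest.tree i).connected.nonempty
      exact ⟨v.1, v.2⟩
    subst hv
    obtain ⟨w, h1, h2⟩ := hσ1 v
    have h3 := huniq (g • v) (g • w) (fun h hh hv => by
      have h4 : g⁻¹ * h * g ∈ H := by
        have := hHn.conj_mem h hh g⁻¹
        rwa [inv_inv] at this
      have h5 := h2 _ h4 (by rw [mul_smul, mul_smul, hv, inv_smul_smul])
      rw [mul_smul, mul_smul, inv_smul_eq_iff] at h5
      exact h5)
    rw [hκ, hκ', h1] at h3
    exact h3.symm
  obtain ⟨Φ, hΦ⟩ := find_equiv hκ hκ' σ heq (fun i => by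
    have hst : ∀ g : G, g ∈ MulAction.stabilizer G i ↔ g ∈ MulAction.stabilizer G (σ i) := by
      intro g
      rw [MulAction.mem_stabilizer_iff, MulAction.mem_stabilizer_iff, ← heq]
      exact σ.injective.eq_iff.symm
    letI act : MulAction (MulAction.stabilizer G i) (Fib κ' (σ i)) :=
      { smul := fun g v => ⟨(g : G) • v.1, by
          rw [hκ', v.2]
          exact (hst g).1 g.2⟩
        one_smul := fun v => Subtype.ext (one_smul G v.1)
        mul_smul := fun a b v => Subtype.ext (mul_smul (a : G) (b : G) v.1) }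
    have T : TLat (MulAction.stabilizer G i) (comp κ S i) := flat_tlat L.b i
    have T' : TLat (MulAction.stabilizer G i) (comp κ' S' (σ i)) :=
      fcomm_tr (fun a => (⟨a.1, (hst a.1).1 a.2⟩ : MulAction.stabilizer G (σ i)))
        (fun b => (⟨b.1, (hst b.1).2 b.2⟩ : MulAction.stabilizer G i)) (fun a x => rfl)
        (fun b x => rfl) (flat_tlat L'.b (σ i))
    have R1 : Red (MulAction.stabilizer G i) (comp κ S i) := fcomm_red hS i
    have R2 : Red (MulAction.stabilizer G i) (comp κ' S' (σ i)) :=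
      fcomm_trr (fun a => (⟨a.1, (hst a.1).1 a.2⟩ : MulAction.stabilizer G (σ i)))
        (fun b => (⟨b.1, (hst b.1).2 b.2⟩ : MulAction.stabilizer G i)) (fun a x => rfl)
        (fun b x => rfl) (fcomm_red (κ := κ') hS' (σ i))
    obtain ⟨φ, hφ⟩ := tvset T T' R1 R2 (fun v => by
      obtain ⟨w, h1, h2⟩ := hσ1 v.1
      rw [v.2] at h1
      refine fcomm_fix T'.ta (H.subgroupOf (MulAction.stabilizer G i)) v
        (⟨w, h1⟩ : Fib κ' (σ i)) (fun g hg hgv => ?_)
      exact Subtype.ext (h2 g.1 hg (congrArg Subtype.val hgv))) (fun w => by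
      obtain ⟨v, h1, h2⟩ := hσ2 w.1
      rw [w.2] at h1
      refine fcomm_fix T.ta (H.subgroupOf (MulAction.stabilizer G i)) w
        (⟨v, (σ.injective h1).symm⟩ : Fib κ i) (fun g hg hgw => ?_)
      exact Subtype.ext (h2 g.1 hg (congrArg Subtype.val hgw)))
    refine ⟨φ, fun g v w hgv => ?_⟩
    have hg : g ∈ MulAction.stabilizer G i := by
      rw [MulAction.mem_stabilizer_iff]
      have h1 := hκ g v.1
      rw [hgv, v.2, w.2] at h1
      exact h1.symm
    have h2 := hφ ⟨g, hg⟩ v
    have h3 : (⟨g, hg⟩ : MulAction.stabilizer G i) • v = w := Subtype.ext hgv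
    rw [h3] at h2
    rw [h2]
    rfl)
  exact ⟨Φ, σ, hΦ.1, heq, hΦ.2⟩

end

end LatF
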