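import Pool.Agent.Lib.MP_32d917_al.FDefs
import Pool.Agent.Lib.MP_32d917_al.F.FTTL
import Pool.Agent.Lib.MP_32d917_al.F.FCON
import Pool.Agent.Lib.MP_32d917_al.DG2
import Pool.Agent.Lib.MP_32d917_al.N.NDG

/-!
# the group is the fundamental group of the data

Adapt N/NDG.lean (`ncov_gam`). Let `L`, `Cov G L` be given, `Γ = Gam X p0 δ`, `[a]` the class of `a`. (1) `fttl` with `Y = Γ × P`, `aY (u, q) a = (u * [a], X.t a)`
gives `Φ : F → Γ` with `Φ f0 = 1` (`p f0 = p0`) and `Φ (act f a) = Φ f * [a]`. (2) For `q : P` let `z q` be the frame obtained from `f0` along the spanning tree: recursively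
(by rank) `z p0 = f0`, `z q = act (z (o (δ q))) (δ q)`, so `p (z q) = q` and `Φ (z q) = 1` (as `[δ q] = 1`). (3) `Ψ : G → Γ`, `Ψ g = Φ (g • f0)`; `Φ (g • f) = Ψ g * Φ f` for all
`f` (both sides behave the same under arrows; `f_induct` or uniqueness), so `Ψ` is a homomorphism. (4) `Θ : Γ →* G`: `a ↦ c a` with `act (z (o a)) a = c a • z (t a)` (`trans`, `free`); the
relators are respected (`one`, `inv`, `ml`, `sq` by the axioms of `LF`; `span` by definition of `z`). (5) `Ψ (Θ [a]) = Φ (c a • z (t a)) = Φ (act (z (o a)) a) = [a]`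
using (3) and `Φ (z q) = 1`. (6) `Θ` is onto: for `g : G` show that `g` is in the range: the set of frames `f` with `f ∈ range(Θ) • z (p f)` is closed
under arrows (`act (γ • z q) a = γ • act (z q) a = γ c a • z (t a)`), contains `f0`, so all frames (`f_induct`); for `g • f0 = γ • z p0 = γ • f0` get `g = γ`. Hence `Θ` is bijective
(injective by (5)).
-/

set_option autoImplicit false

namespace LatF

open LatIso LatN

section

variable {ι P A : Type} {X : FD ι P A} {G : Type} [Group G] {V ι' : Type} [Fintype ι']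
  [MulAction G V] [MulAction G ι'] {κ : V → ι'} {S : SimpleGraph V}

/-- the generator of the fundamental group given by an arrow -/
private def fdgG {ι P A : Type} (X : FD ι P A) (p0 : P) (δ : P → A) (a : A) : Gam X p0 δ :=
  PresentedGroup.of a

private theorem fdg_rel {p0 : P} {δ : P → A} {r : FreeGroup A} (h : Rel X p0 δ r) :
    PresentedGroup.mk {r | Rel X p0 δ r} r = 1 := by
  rw [PresentedGroup.mk_eq_one_iff]
  exact Subgroup.subset_normalClosure h

private theorem fdg_one (p0 : P) (δ : P → A) (p : P) : fdgG X p0 δ (X.e p) = 1 :=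
  fdg_rel (Rel.base _ (Rel0.one p))

private theorem fdg_inv (p0 : P) (δ : P → A) (a : A) :
    fdgG X p0 δ a * fdgG X p0 δ (X.i a) = 1 := fdg_rel (Rel.base _ (Rel0.inv a))

private theorem fdg_ml (p0 : P) (δ : P → A) (s a : A) (h : X.lc s a) :
    fdgG X p0 δ (X.ml s a) = fdgG X p0 δ s * fdgG X p0 δ a := by
  have h1 : fdgG X p0 δ s * fdgG X p0 δ a * (fdgG X p0 δ (X.ml s a))⁻¹ = 1 :=
    fdg_rel (Rel.base _ (Rel0.ml s a h))
  rw [mul_inv_eq_one] at h1
  exact h1.symm

private theorem fdg_sq (p0 : P) (δ : P → A) (a b c d : A) (h : X.sq a b c d) :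
    fdgG X p0 δ a * fdgG X p0 δ b = fdgG X p0 δ c * fdgG X p0 δ d := by
  have h1 : fdgG X p0 δ a * fdgG X p0 δ b * (fdgG X p0 δ d)⁻¹ * (fdgG X p0 δ c)⁻¹ = 1 :=
    fdg_rel (Rel.base _ (Rel0.sq a b c d h))
  rw [mul_inv_eq_one, mul_inv_eq_iff_eq_mul] at h1
  exact h1

private theorem fdg_span (p0 : P) (δ : P → A) (q : P) (h : q ≠ p0) : fdgG X p0 δ (δ q) = 1 :=
  fdg_rel (Rel.span q h)

omit [Fintype ι'] in
/-- a section compatible with the spanning tree -/
private theorem fdg_section {W : ι' → Type} {T : ∀ i, SimpleGraph (W i)} {F : Type}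
    {L : LF X T F} {p0 : P} {δ : P → A} {r : P → ℕ} (hs : Span X p0 δ r) (f0 : F)
    (h0 : L.p f0 = p0) :
    ∃ z : P → F, z p0 = f0 ∧ (∀ q, L.p (z q) = q) ∧
      ∀ q, q ≠ p0 → z q = L.act (z (X.o (δ q))) (δ q) := by
  classical
  let Fx : ∀ q, (∀ q', r q' < r q → {f : F // L.p f = q'}) → {f : F // L.p f = q} :=
    fun q ih => if h : q = p0 then ⟨f0, by rw [h0, h]⟩ else
      ⟨L.act (ih (X.o (δ q)) (hs q h).2).1 (δ q), by
        rw [L.act_p _ _ (ih (X.o (δ q)) (hs q h).2).2.symm]
        exact (hs q h).1⟩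
  let z : ∀ q, {f : F // L.p f = q} := (measure r).wf.fix Fx
  have hz : ∀ q, z q = Fx q (fun q' _ => z q') := fun q => (measure r).wf.fix_eq Fx q
  refine ⟨fun q => (z q).1, ?_, fun q => (z q).2, ?_⟩
  · show (z p0).1 = f0
    rw [hz p0]
    simp [Fx]
  · intro q hq
    show (z q).1 = L.act (z (X.o (δ q))).1 (δ q)
    rw [hz q]
    simp only [Fx]
    rw [dif_neg hq]

theorem cov_gam [Finite P] (h : IsCov G κ S X) {p0 : P} {δ : P → A} {r : P → ℕ}
    (hs : Span X p0 δ r) : Nonempty (G ≃* Gam X p0 δ) := by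
  classical
  obtain ⟨hFo, hA, hV, F, instF, L, hL⟩ := h
  have hX := hV.v0
  obtain ⟨f0, hf0⟩ := hL.onto p0
  have hfree : ∀ {g k : G} {f : F}, g • f = k • f → g = k := by
    intro g k f h
    have h1 : (k⁻¹ * g) • f = f := by rw [mul_smul, h, inv_smul_smul]
    have h2 := hL.free _ _ h1
    rw [inv_mul_eq_one] at h2
    exact h2.symm
  obtain ⟨Φ, hΦ0, hΦp, hΦa⟩ := fttl hX hFo.tree L (Y := Gam X p0 δ × P) Prod.snd
    (fun y a => (y.1 * fdgG X p0 δ a, X.t a)) (fun _ _ _ => rfl)
    (fun y => by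
      show (y.1 * fdgG X p0 δ (X.e y.2), X.t (X.e y.2)) = y
      rw [fdg_one, mul_one, hX.te])
    (fun y a ha => by
      show (y.1 * fdgG X p0 δ a * fdgG X p0 δ (X.i a), X.t (X.i a)) = y
      rw [mul_assoc, fdg_inv, mul_one, hX.ti, ha])
    (fun y s a _ hl => by
      show (y.1 * fdgG X p0 δ (X.ml s a), X.t (X.ml s a)) =
        (y.1 * fdgG X p0 δ s * fdgG X p0 δ a, X.t a)
      rw [fdg_ml _ _ _ _ hl, hX.mlt _ _ hl, mul_assoc])
    (fun y a b c d _ hq => by
      show (y.1 * fdgG X p0 δ a * fdgG X p0 δ b, X.t b) =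
        (y.1 * fdgG X p0 δ c * fdgG X p0 δ d, X.t d)
      rw [mul_assoc, mul_assoc, fdg_sq _ _ _ _ _ _ hq, (hX.sqT _ _ _ _ hq).tbd])
    f0 (1, p0) hf0.symm
  obtain ⟨Fc, hFc⟩ : ∃ Fc : F → Gam X p0 δ, ∀ f, Fc f = (Φ f).1 := ⟨_, fun _ => rfl⟩
  have hF1 : Fc f0 = 1 := by rw [hFc, hΦ0]
  have hF : ∀ f a, X.o a = L.p f → Fc (L.act f a) = Fc f * fdgG X p0 δ a := by
    intro f a ha
    rw [hFc, hFc, hΦa f a ha]
  -- equivariance
  have heq : ∀ (g : G) (f : F), Fc (g • f) = Fc (g • f0) * Fc f := by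
    intro g f
    refine f_induct hX (fun i => (hFo.tree i).1) L (fun f => Fc (g • f) = Fc (g • f0) * Fc f) f0
      ?_ ?_ f
    · rw [hF1, mul_one]
    · intro f a ha ih
      show Fc (g • L.act f a) = Fc (g • f0) * Fc (L.act f a)
      rw [← hL.gact g f a ha, hF _ _ (ha.trans (hL.gp g f).symm), ih, hF f a ha, mul_assoc]
  let Psi : G →* Gam X p0 δ :=
    { toFun := fun g => Fc (g • f0)
      map_one' := by rw [one_smul, hF1]
      map_mul' := fun g h => by rw [mul_smul, heq] }
  obtain ⟨z, hz0, hzp, hzs⟩ := fdg_section (L := L) hs f0 hf0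
  -- the group element given by an arrow
  have hph : ∀ a : A, ∃ g : G, L.act (z (X.o a)) a = g • z (X.t a) := by
    intro a
    obtain ⟨g, hg⟩ := hL.trans (z (X.t a)) (L.act (z (X.o a)) a)
      (by rw [hzp, L.act_p _ _ (hzp _).symm])
    exact ⟨g, hg.symm⟩
  choose ph hph using hph
  have hact : ∀ (g : G) (a : A) (q : P), q = X.o a →
      L.act (g • z q) a = (g * ph a) • z (X.t a) := by
    rintro g a q rfl
    rw [hL.gact g _ a (hzp _).symm, hph a, mul_smul]
  have hrel : ∀ w ∈ {r | Rel X p0 δ r}, FreeGroup.lift ph w = 1 := by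
    intro w hw
    induction hw with
    | base w hw =>
      induction hw with
      | one p =>
        rw [FreeGroup.lift_apply_of]
        have h1 := hph (X.e p)
        have h2 := L.act_e (z p)
        rw [hzp] at h2
        rw [hX.oe, hX.te, h2] at h1
        exact hL.free _ _ h1.symm
      | inv a =>
        rw [map_mul, FreeGroup.lift_apply_of, FreeGroup.lift_apply_of]
        have h1 := L.act_i (z (X.o a)) a (hzp _).symm
        rw [hph a, hact (ph a) (X.i a) (X.t a) (hX.oi a).symm, hX.ti] at h1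
        exact hL.free _ _ h1
      | ml s a hl =>
        rw [map_mul, map_mul, map_inv, FreeGroup.lift_apply_of, FreeGroup.lift_apply_of,
          FreeGroup.lift_apply_of, mul_inv_eq_one]
        have h1 := L.act_ml (z (X.o s)) s a (hzp _).symm hl
        have h2 := hph (X.ml s a)
        rw [hX.mlo _ _ hl, hX.mlt _ _ hl, h1, hph s, hact (ph s) a (X.t s) hl.2] at h2
        exact hfree h2
      | sq a b c d hq =>
        have hT := hX.sqT _ _ _ _ hq
        rw [map_mul, map_mul, map_mul, map_inv, map_inv, FreeGroup.lift_apply_of,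
          FreeGroup.lift_apply_of, FreeGroup.lift_apply_of, FreeGroup.lift_apply_of,
          mul_inv_eq_one, mul_inv_eq_iff_eq_mul]
        have h1 := L.act_sq (z (X.o a)) a b c d (hzp _).symm hq
        rw [hph a, hact (ph a) b (X.t a) hT.tab, hT.oac, hph c, hact (ph c) d (X.t c) hT.tcd,
          hT.tbd] at h1
        exact hfree h1
    | span q h =>
      rw [FreeGroup.lift_apply_of]
      have h1 := hph (δ q)
      rw [← hzs q h, (hs q h).1] at h1
      exact hL.free _ _ h1.symm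
  let Phi : Gam X p0 δ →* G := PresentedGroup.toGroup hrel
  have hPhi : ∀ a, Phi (fdgG X p0 δ a) = ph a := fun a => PresentedGroup.toGroup.of hrel
  -- the two maps are inverse to each other
  have key : ∀ f, Phi (Fc f) • z (L.p f) = f := by
    intro f
    refine f_induct hX (fun i => (hFo.tree i).1) L (fun f => Phi (Fc f) • z (L.p f) = f) f0
      ?_ ?_ f
    · rw [hF1, map_one, one_smul, hf0, hz0]
    · intro f a ha ih
      show Phi (Fc (L.act f a)) • z (L.p (L.act f a)) = L.act f a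
      rw [hF f a ha, map_mul, hPhi, L.act_p f a ha, ← hact (Phi (Fc f)) a (L.p f) ha.symm, ih]
  have hzF : ∀ q, Fc (z q) = 1 := by
    intro q
    induction hr : r q using Nat.strong_induction_on generalizing q with
    | _ n ih =>
      by_cases h : q = p0
      · rw [h, hz0, hF1]
      · have h2 : r (X.o (δ q)) < r q := (hs q h).2
        rw [hzs q h, hF _ _ (hzp _).symm, ih _ (hr ▸ h2) _ rfl, one_mul, fdg_span p0 δ q h]
  have c1 : ∀ g, Phi (Psi g) = g := by
    intro g
    have h1 := key (g • f0)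
    rw [hL.gp, hf0, hz0] at h1
    exact hfree h1
  have c2 : ∀ a, Psi (Phi (fdgG X p0 δ a)) = fdgG X p0 δ a := by
    intro a
    rw [hPhi]
    have h1 := hF _ a (hzp (X.o a)).symm
    rw [hph a, hzF, one_mul, heq, hzF, mul_one] at h1
    exact h1
  refine ⟨MonoidHom.toMulEquiv Psi Phi ?_ ?_⟩
  · ext g
    exact c1 g
  · apply PresentedGroup.ext
    intro a
    exact c2 a

end

end LatF
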