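import Pool.Agent.Lib.MP_32d917_al.FDefs
import Pool.Agent.Lib.MP_32d917_al.F.FVAL
import Pool.Agent.Lib.MP_32d917_al.F.FCON

/-!
# parallel arrows = same orbit of oriented edges

`mvE L f a` = the oriented edge (pair of vertices of the forest) moved by `a` at `f`. Basic facts (first lemma): for `o a = p f`, `mv a`, `j = lam f (ty a)`: `mvE = ((pt f j).1, (pt (act f a) j).1)`; (i) `mvE L (g • f) a = g • mvE L f a`; (ii) `mvE L (act f s) a = mvE L f (ml s a)` for stationary `s`;
(iii) `mvE L f (mr a s) = mvE L f a`; (iv) if `sq a b c d` then `mvE L (act f c) d = mvE L f a` (the path `f → act f c` does not move the coordinate `j`; the end of `c d` is the end of `a b`; `lam (act f c) (ty d) = lam f (ty a)` by `act_lam`, `tyd`).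
(⟹) induction on `Par` for all `f'`: refl: `p f = p f'`, so `f' = g • f` (`trans`), (i). The other rules: given `f'` over the origin of the new arrow pass to `act f' s` etc. and use (ii)-(iv) and the induction hypothesis.
(⟸) replacing `f'` by `g⁻¹ • f'` we may assume `mvE L f a = mvE L f' a'`. Let `j` be the component. Consider the property `Q f''` of frames: for every arrow `a''` at `f''` with `mv a''` and `mvE L f'' a'' = mvE L f a`: `Par X a a''`. `Q f`: `a''` and `a` lead to frames over the same point, so `a'' = mr a s`. Closed under arrows `c` with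
`c` stationary (`ml`: if `a''` is an arrow at `act f'' c`, `ml c a''` is one at `f''`, and `a'' = ml (i c) (ml c a'')`), or `c` moving another component: by `val_sqx` at `f''` there is a square with `a_1` (an arrow at `f''` moving the same edge; exists by `sur`) and `c`: `sq a_1 b c d`, `d` moves the same edge at `act f'' c`, so
`a'' = mr d s`. `f_induct_j` with the component `j` (the first vertex of the edge is the coordinate `j` of both frames) gives `Q f'`.
par2_iff in the same way with pairs; the two edges have the same first vertex, `c` is the same for both.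
-/

set_option autoImplicit false

namespace LatF

open LatIso LatN

section

variable {ι P A : Type} {X : FD ι P A} {ι' F : Type}

theorem par_act_mr {V : ι' → Type} {S : ∀ i, SimpleGraph (V i)} (hX : Valid0 X) (L : LF X S F)
    {f : F} {a s : A} (ho : X.o a = L.p f) (hs : X.rc a s) :
    L.act f (X.mr a s) = L.act (L.act f a) s := by
  have h1 : L.p (L.act f a) = X.t a := L.act_p f a ho
  have h2 : X.o s = L.p (L.act f a) := by rw [h1]; exact hs.2
  have h3 : L.p (L.act (L.act f a) s) = X.t s := L.act_p _ _ h2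
  have hl := fval_lc hX hs
  have h4 : X.o (X.i s) = L.p (L.act (L.act f a) s) := by rw [hX.oi, h3]
  have h5 := L.act_ml (L.act (L.act f a) s) (X.i s) (X.i a) h4 hl
  rw [L.act_i _ _ h2, L.act_i _ _ ho] at h5
  have h6 : X.o (X.ml (X.i s) (X.i a)) = L.p (L.act (L.act f a) s) := by
    rw [hX.mlo _ _ hl, hX.oi, h3]
  have h7 := L.act_i (L.act (L.act f a) s) (X.ml (X.i s) (X.i a)) h6
  rw [h5] at h7
  exact h7

variable {V : Type} {κ : V → ι'} {S : SimpleGraph V}

theorem mvE_smul {G : Type} [Group G] [MulAction G V] [MulAction G ι'] [MulAction G F]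
    {L : LF X (comp κ S) F} (hL : Cov G L) (g : G) (f : F) (a : A) (ho : X.o a = L.p f) :
    mvE L (g • f) a = (g • (mvE L f a).1, g • (mvE L f a).2) := by
  unfold mvE
  rw [hL.glam, hL.gact g f a ho, hL.gpt, hL.gpt]

theorem mvE_ml (hX : Valid0 X) (L : LF X (comp κ S) F) {f : F} {s a : A} (ho : X.o s = L.p f)
    (hs : X.lc s a) (hm : X.mv a) : mvE L (L.act f s) a = mvE L f (X.ml s a) := by
  have h1 : L.lam (L.act f s) (X.ty a) = L.lam f (X.ty (X.ml s a)) := by
    rw [← hX.mly s a hs hm, L.act_lam f s ho]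
  unfold mvE
  rw [h1, L.st f s ho hs.1, L.act_ml f s a ho hs]

theorem mvE_mr (hX : Valid0 X) (L : LF X (comp κ S) F) {f : F} {a s : A} (ho : X.o a = L.p f)
    (hs : X.rc a s) (hm : X.mv a) : mvE L f (X.mr a s) = mvE L f a := by
  have h2 : X.o s = L.p (L.act f a) := by rw [L.act_p f a ho]; exact hs.2
  unfold mvE
  rw [val_mry hX hs hm, par_act_mr hX L ho hs, L.st (L.act f a) s h2 hs.1]

theorem mvE_sq (hX : Valid0 X) (L : LF X (comp κ S) F) {f : F} {a b c d : A}
    (ho : X.o a = L.p f) (hs : X.sq a b c d) : mvE L (L.act f c) d = mvE L f a := by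
  have T := hX.sqT _ _ _ _ hs
  have hc : X.o c = L.p f := by rw [← T.oac]; exact ho
  have h1 : L.lam (L.act f c) (X.ty d) = L.lam f (X.ty a) := by rw [T.tyd, L.act_lam f c hc]
  have h2 : L.lam f (X.ty a) ≠ L.lam f (X.ty c) := fun h => T.ne ((L.bij f).1 h)
  have h3 := (L.mo f c hc T.mc).2 (L.lam f (X.ty a)) h2
  have hb : X.o b = L.p (L.act f a) := by rw [L.act_p f a ho]; exact T.tab.symm
  have h4 : L.lam (L.act f a) (X.ty b) = L.lam f (X.ty c) := by rw [T.tyb, L.act_lam f a ho]
  have h5 := (L.mo (L.act f a) b hb T.mb).2 (L.lam f (X.ty a)) (by rw [h4]; exact h2)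
  have h6 := L.act_sq f a b c d ho hs
  unfold mvE
  rw [h1, h3, ← h6, h5]

theorem mvE_kap (L : LF X (comp κ S) F) (f : F) (a : A) :
    κ (mvE L f a).1 = L.lam f (X.ty a) := (L.pt f (L.lam f (X.ty a))).2

theorem mvE_eqv (hX : Valid0 X) (L : LF X (comp κ S) F) {f : F} {a b : A} (ha : X.o a = L.p f)
    (hb : X.o b = L.p f) (hm : X.mv a) (hn : X.mv b) (he : mvE L f a = mvE L f b) :
    ∃ s, X.rc a s ∧ b = X.mr a s := by
  have h2 : (L.pt (L.act f a) (L.lam f (X.ty a))).1 =
      (L.pt (L.act f b) (L.lam f (X.ty b))).1 := congrArg Prod.snd he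
  have h3 : L.lam f (X.ty a) = L.lam f (X.ty b) := by
    rw [← mvE_kap L f a, ← mvE_kap L f b, he]
  have h4 : L.pt (L.act f a) = L.pt (L.act f b) := by
    funext i
    by_cases hi : i = L.lam f (X.ty a)
    · subst hi
      apply Subtype.ext
      rw [h2, ← h3]
    · rw [(L.mo f a ha hm).2 i hi, (L.mo f b hb hn).2 i (by rw [← h3]; exact hi)]
  obtain ⟨s, hs1, hs2⟩ := L.sur (L.act f a) (L.act f b) (Or.inl h4.symm)
  have h5 : ¬ X.mv s := by
    intro hms
    have h6 := (L.mo (L.act f a) s hs1 hms).1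
    rw [hs2, h4] at h6
    exact (comp κ S _).loopless.irrefl _ h6
  have hrc : X.rc a s := ⟨h5, by rw [hs1, L.act_p f a ha]⟩
  refine ⟨s, hrc, ?_⟩
  apply L.inj f b (X.mr a s) hb (by rw [val_mro hX hrc]; exact ha)
  rw [par_act_mr hX L ha hrc, hs2]

theorem mvE_ex (L : LF X (comp κ S) F) (f : F) (j : ι') (w : Fib κ j)
    (hw : (comp κ S j).Adj (L.pt f j) w) :
    ∃ a, X.o a = L.p f ∧ X.mv a ∧ L.lam f (X.ty a) = j ∧ mvE L f a = ((L.pt f j).1, w.1) := by
  classical
  obtain ⟨f', hf'⟩ := L.onto (Function.update (L.pt f) j w)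
  obtain ⟨a, ha, hb⟩ := L.sur f f' (Or.inr ⟨j, by rw [hf', Function.update_self]; exact hw,
    fun k hk => by rw [hf', Function.update_of_ne hk]⟩)
  have hm : X.mv a := by
    by_contra hm
    have h1 := L.st f a ha hm
    rw [hb, hf'] at h1
    have h2 := congrFun h1 j
    rw [Function.update_self] at h2
    rw [h2] at hw
    exact (comp κ S j).loopless.irrefl _ hw
  have hj : L.lam f (X.ty a) = j := by
    by_contra hj
    have h1 := (L.mo f a ha hm).1
    rw [hb, hf', Function.update_of_ne hj] at h1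
    exact (comp κ S _).loopless.irrefl _ h1
  refine ⟨a, ha, hm, hj, ?_⟩
  unfold mvE
  rw [hj, hb, hf', Function.update_self]

/-- an arrow `a` after the arrow `c` in another component comes from a square -/
theorem mvE_move (hX : Valid0 X) (L : LF X (comp κ S) F) {f : F} {c a : A}
    (hc : X.o c = L.p f) (hmc : X.mv c) (ha : X.o a = L.p (L.act f c)) (hma : X.mv a)
    (hne : L.lam f (X.ty c) ≠ κ (mvE L (L.act f c) a).1) :
    ∃ a1 b d s, X.o a1 = L.p f ∧ X.mv a1 ∧ mvE L f a1 = mvE L (L.act f c) a ∧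
      X.sq a1 b c d ∧ X.rc d s ∧ a = X.mr d s := by
  rw [mvE_kap L (L.act f c) a] at hne
  obtain ⟨j, hj⟩ : ∃ j, j = L.lam (L.act f c) (X.ty a) := ⟨_, rfl⟩
  have h1 : L.pt (L.act f c) j = L.pt f j :=
    (L.mo f c hc hmc).2 j (by rw [hj]; exact hne.symm)
  have h2 : mvE L (L.act f c) a = ((L.pt f j).1, (L.pt (L.act (L.act f c) a) j).1) := by
    unfold mvE
    rw [← hj, h1]
  have h3 : (comp κ S j).Adj (L.pt f j) (L.pt (L.act (L.act f c) a) j) := by
    have h4 := (L.mo (L.act f c) a ha hma).1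
    rw [← hj, h1] at h4
    exact h4
  obtain ⟨a1, ha1, hm1, hl1, he1⟩ := mvE_ex L f j _ h3
  have hty : X.ty a1 ≠ X.ty c := by
    intro h
    rw [h] at hl1
    rw [hl1, hj] at hne
    exact hne rfl
  obtain ⟨b, d, hs⟩ := val_sqx hX hm1 hmc (by rw [ha1, hc]) hty
  have T := hX.sqT _ _ _ _ hs
  have hd : X.o d = L.p (L.act f c) := by rw [L.act_p f c hc]; exact T.tcd.symm
  have h5 := mvE_sq hX L ha1 hs
  obtain ⟨s, hs1, hs2⟩ := mvE_eqv hX L hd ha T.md hma (by rw [h5, he1, h2])
  exact ⟨a1, b, d, s, ha1, hm1, by rw [he1, h2], hs, hs1, hs2⟩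

end

section

variable {ι P A : Type} {X : FD ι P A} {G : Type} [Group G] {V ι' : Type} [Fintype ι']
  [MulAction G V] [MulAction G ι'] {κ : V → ι'} {S : SimpleGraph V} {F : Type} [MulAction G F]

theorem par_iff (hX : Valid0 X) {L : LF X (comp κ S) F} (hS : Forest κ S) (hL : Cov G L)
    (f f' : F) (a a' : A) (ha : X.o a = L.p f) (ha' : X.o a' = L.p f') (hm : X.mv a)
    (hm' : X.mv a') : Par X a a' ↔ ∃ g : G, g • (mvE L f a).1 = (mvE L f' a').1 ∧
      g • (mvE L f a).2 = (mvE L f' a').2 := by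
  constructor
  · intro hP
    have key : ∀ a'', Par X a a'' → X.mv a'' ∧ ∀ f'', X.o a'' = L.p f'' →
        ∃ g : G, g • (mvE L f a).1 = (mvE L f'' a'').1 ∧
          g • (mvE L f a).2 = (mvE L f'' a'').2 := by
      intro a'' h
      induction h with
      | refl =>
        refine ⟨hm, fun f'' hf => ?_⟩
        obtain ⟨g, hg⟩ := hL.trans f f'' (by rw [← ha, hf])
        refine ⟨g, ?_⟩
        rw [← hg, mvE_smul hL g f a ha]
        exact ⟨rfl, rfl⟩
      | ml a1 s h1 hs ih =>
        obtain ⟨ih1, ih2⟩ := ih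
        refine ⟨(hX.mlm _ _ hs).2 ih1, fun f'' hf => ?_⟩
        rw [hX.mlo _ _ hs] at hf
        rw [← mvE_ml hX L hf hs ih1]
        exact ih2 (L.act f'' s) (by rw [L.act_p f'' s hf]; exact hs.2.symm)
      | mr a1 s h1 hs ih =>
        obtain ⟨ih1, ih2⟩ := ih
        refine ⟨(val_mrm hX hs).2 ih1, fun f'' hf => ?_⟩
        rw [val_mro hX hs] at hf
        rw [mvE_mr hX L hf hs ih1]
        exact ih2 f'' hf
      | sq a1 b c d h1 hs ih =>
        obtain ⟨ih1, ih2⟩ := ih
        have T := hX.sqT _ _ _ _ hs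
        refine ⟨T.md, fun f'' hf => ?_⟩
        have h2 : X.o (X.i c) = L.p f'' := by rw [hX.oi, T.tcd, hf]
        have h3 : L.p (L.act f'' (X.i c)) = X.o c := by rw [L.act_p f'' (X.i c) h2, hX.ti]
        have h4 : L.act (L.act f'' (X.i c)) c = f'' := by
          have h5 := L.act_i f'' (X.i c) h2
          rwa [hX.ii] at h5
        have h6 : X.o a1 = L.p (L.act f'' (X.i c)) := by rw [h3]; exact T.oac
        have h7 := mvE_sq hX L h6 hs
        rw [h4] at h7
        rw [h7]
        exact ih2 _ h6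
    exact (key a' hP).2 f' ha'
  · rintro ⟨g, hg1, hg2⟩
    have ha1 : X.o a = L.p (g • f) := by rw [hL.gp]; exact ha
    have he : mvE L (g • f) a = mvE L f' a' := by
      rw [mvE_smul hL g f a ha]
      exact Prod.ext hg1 hg2
    have hj : L.lam (g • f) (X.ty a) = L.lam f' (X.ty a') := by
      rw [← mvE_kap L (g • f) a, ← mvE_kap L f' a', he]
    have hf' : L.pt f' (L.lam (g • f) (X.ty a)) = L.pt (g • f) (L.lam (g • f) (X.ty a)) := by
      apply Subtype.ext
      have h1 : (L.pt (g • f) (L.lam (g • f) (X.ty a))).1 = (L.pt f' (L.lam f' (X.ty a'))).1 :=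
        congrArg Prod.fst he
      rw [h1, ← hj]
    have key := f_induct_j hX (fun i => (hS.tree i).connected) L (L.lam (g • f) (X.ty a))
      (fun f'' => ∀ a'', X.o a'' = L.p f'' → X.mv a'' → mvE L f'' a'' = mvE L (g • f) a →
        Par X a a'') (g • f)
      (by
        intro a'' h1 h2 h3
        obtain ⟨s, hs1, hs2⟩ := mvE_eqv hX L ha1 h1 hm h2 h3.symm
        rw [hs2]
        exact Par.mr a s Par.refl hs1)
      (by
        intro f2 c hc hcj ih a'' h1 h2 h3
        by_cases hmc : X.mv c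
        · obtain ⟨a1, b, d, s, e1, e2, e3, e4, e5, e6⟩ := mvE_move hX L hc hmc h1 h2 (by
            rw [h3, mvE_kap L (g • f) a]
            exact hcj hmc)
          have h4 := ih a1 e1 e2 (e3.trans h3)
          rw [e6]
          exact Par.mr d s (Par.sq a1 b c d h4 e4) e5
        · have hl : X.lc c a'' := ⟨hmc, by rw [h1, L.act_p f2 c hc]⟩
          have h4 := ih (X.ml c a'') (by rw [hX.mlo _ _ hl]; exact hc) ((hX.mlm _ _ hl).2 h2)
            (by rw [← mvE_ml hX L hc hl h2]; exact h3)
          have h5 := val_mli hX hl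
          rw [← h5]
          exact Par.ml _ _ h4 ⟨fun hm => hmc ((hX.mi c).1 hm), by rw [hX.ti, hX.mlo _ _ hl]⟩)
      f' hf'
    exact key a' ha' hm' he.symm

end

end LatF
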