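import Pool.Agent.Lib.MP_32d917_al.FDefs
import Pool.Agent.Lib.MP_32d917_al.F.PAR
import Pool.Agent.Lib.MP_32d917_al.F.FVAL
import Pool.Agent.Lib.MP_32d917_al.F.FCON

/-!
# the data of reduced actions are good

valid: in IsCov. span: `P` is finite; fix a frame `f0`, `p0 = p f0`; every object is reached from `p0` by a chain of arrows (`f_induct` with `Q f :=` `p f` is reachable); `r` = length of a shortest chain, `δ q` = its last arrow. two: `q`, `k`: frame `f` over `q`, component `j = lam f k`, `(leafless j).two (pt f j)` gives two neighbours; arrows to frames over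
the two adjacent points (`sur`); not equivalent, since equivalent arrows lead to the same point. three: `j = lam f k`, `(leafless j).three` gives a vertex `v` of `Fib κ j` with three neighbours; a frame `f'` with `pt f' j = v`; `k'` with `lam f' k' = j`; `Lab X q k (p f') k'`: `f_induct` with `Q f'' := ∀ k'', lam f'' k'' = j → Lab X q k (p f'') k''` (`act_lam`).
orient: `¬ Par X a (i a)` for moving `a` by `par_iff` (at `f` and `act f a`) and `noinv`. `Par X` is an equivalence relation on moving arrows (by `par_iff`), invariant under `i`. Choose for every pair of classes `{C, i C}` one of them: e.g. classical choice of a representative of the class of the unordered pair `{C, i C}` and `s a = true` iff `Par X a rep`.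
Then `s (i a) = !(s a)`; `s` is constant on classes, which contain `ml σ a` and the parallel side `d` of a square. (for stationary `a` put `s a = true`; `ml σ a` is stationary as well.)
red: `a` moving at `f`, edge `(v, x) = mvE L f a`. If `stab v ≤ stab x` then by `Red` `g • v = x` for some `g`: let `a' := a`, and `c'` := the arrow at `g • f` moving the edge `(x, v)` (the coordinate of `g • f` in the component is `g • v = x`; `sur`): `Par (i a) c'` by `par_iff` (`i a` at `act f a` moves `(x, v)`), `o c' = p (g • f) = p f`, types: `lam (g • f) (ty a) = g • lam f (ty a)`, which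
is the component of `x`, so `ty c' = ty a`. Otherwise some `g` with `g v = v`, `g x ≠ x`: at the frame `g • f`, `a` moves `(v, g x)`; let `a'` be an arrow at `g • f` moving `(v, x)`: Par, same origin, same type, not equivalent.
-/

set_option autoImplicit false

namespace LatF

open LatIso LatN

section

variable {ι P A : Type} {X : FD ι P A} {G : Type} [Group G] {V ι' : Type} [Fintype ι']
  [MulAction G V] [MulAction G ι'] {κ : V → ι'} {S : SimpleGraph V}

/-- moving arrows give steps -/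
private theorem fga_actmr {ι' : Type} {V : ι' → Type} {S : ∀ i, SimpleGraph (V i)} {F : Type}
    (hX : Valid0 X) (L : LF X S F) (f : F) (a s : A) (ha : X.o a = L.p f) (hs : X.rc a s) :
    L.act f (X.mr a s) = L.act (L.act f a) s := by
  have hp1 : L.p (L.act f a) = X.t a := L.act_p f a ha
  have hso : X.o s = L.p (L.act f a) := by rw [hs.2, hp1]
  have hp2 : L.p (L.act (L.act f a) s) = X.t s := L.act_p _ s hso
  have hlc : X.lc (X.i s) (X.i a) := fval_lc hX hs
  have hois : X.o (X.i s) = L.p (L.act (L.act f a) s) := by rw [hX.oi, hp2]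
  have h1 : L.act (L.act (L.act f a) s) (X.ml (X.i s) (X.i a)) = f := by
    rw [L.act_ml _ _ _ hois hlc, L.act_i _ s hso, L.act_i f a ha]
  have hoc : X.o (X.ml (X.i s) (X.i a)) = L.p (L.act (L.act f a) s) := by
    rw [hX.mlo _ _ hlc, hois]
  have h2 := L.act_i _ _ hoc
  rw [h1] at h2
  exact h2

private theorem fga_eqv {ι' : Type} {V : ι' → Type} {S : ∀ i, SimpleGraph (V i)} {F : Type}
    (hX : Valid0 X) (L : LF X S F) (f : F) (a b : A) (ha : X.o a = L.p f)
    (h : X.eqv a b) : L.pt (L.act f b) = L.pt (L.act f a) := by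
  obtain ⟨s, hs, rfl⟩ := h
  rw [fga_actmr hX L f a s ha hs]
  exact L.st _ s (by rw [hs.2, L.act_p f a ha]) hs.1

private theorem fga_arrow {ι' : Type} {V : ι' → Type} {S : ∀ i, SimpleGraph (V i)} {F : Type}
    (L : LF X S F) (f : F) (j : ι') (x : V j) (hx : (S j).Adj (L.pt f j) x) :
    ∃ a, X.o a = L.p f ∧ X.mv a ∧ L.lam f (X.ty a) = j ∧ L.pt (L.act f a) j = x := by
  classical
  obtain ⟨f1, hf1⟩ := L.onto (Function.update (L.pt f) j x)
  obtain ⟨a, ha, haf⟩ := L.sur f f1 (Or.inr ⟨j, by rw [hf1, Function.update_self]; exact hx,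
    fun i hi => by rw [hf1, Function.update_of_ne hi]⟩)
  have hm : X.mv a := by
    by_contra hm
    have h1 := L.st f a ha hm
    rw [haf, hf1] at h1
    have h2 := congrFun h1 j
    rw [Function.update_self] at h2
    rw [h2] at hx
    exact (S j).irrefl hx
  have hj : L.lam f (X.ty a) = j := by
    by_contra hne
    have h1 := (L.mo f a ha hm).1
    rw [haf, hf1, Function.update_of_ne hne] at h1
    exact (S _).irrefl h1
  exact ⟨a, ha, hm, hj, by rw [haf, hf1, Function.update_self]⟩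

private theorem fga_dir {ι' : Type} {V : ι' → Type} {S : ∀ i, SimpleGraph (V i)} {F : Type}
    (L : LF X S F) (f : F) (k : ι) (x : V (L.lam f k)) (hx : (S (L.lam f k)).Adj (L.pt f _) x) :
    ∃ a, X.dir (L.p f) k a ∧ L.pt (L.act f a) (L.lam f k) = x := by
  obtain ⟨a, ha, hm, hj, hp⟩ := fga_arrow L f _ x hx
  exact ⟨a, ⟨ha, hm, (L.bij f).1 hj⟩, hp⟩

private theorem fga_neqv {ι' : Type} {V : ι' → Type} {S : ∀ i, SimpleGraph (V i)} {F : Type}
    (hX : Valid0 X) (L : LF X S F) (f : F) (a b : A) (ha : X.o a = L.p f) (j : ι')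
    (h : L.pt (L.act f a) j ≠ L.pt (L.act f b) j) : ¬ X.eqv a b := fun he =>
  h (congrFun (fga_eqv hX L f a b ha he) j).symm

private def fga_reach (X : FD ι P A) (p0 : P) : ℕ → P → Prop
  | 0, q => q = p0
  | n + 1, q => ∃ a, fga_reach X p0 n (X.o a) ∧ X.t a = q

private theorem fga_span (X : FD ι P A) (p0 : P) (h : ∀ q, ∃ n, fga_reach X p0 n q) :
    ∃ p0 δ r, Span X p0 δ r := by
  classical
  have h1 : ∀ q, q ≠ p0 → ∃ a, X.t a = q ∧ Nat.find (h (X.o a)) < Nat.find (h q) := by
    intro q hq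
    have hn := Nat.find_spec (h q)
    rcases hk : Nat.find (h q) with _ | n
    · rw [hk] at hn
      exact absurd hn hq
    · rw [hk] at hn
      obtain ⟨a, ha, hat⟩ := hn
      exact ⟨a, hat, Nat.lt_succ_of_le (Nat.find_min' _ ha)⟩
  by_cases hA : Nonempty A
  · obtain ⟨a0⟩ := hA
    refine ⟨p0, fun q => if hq : q ≠ p0 then (h1 q hq).choose else a0,
      fun q => Nat.find (h q), fun q hq => ?_⟩
    simp only [hq, ne_eq, not_false_eq_true, dite_true]
    exact (h1 q hq).choose_spec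
  · exact absurd ⟨X.e p0⟩ hA

private theorem fga_fib {κ : V → ι'} {S : SimpleGraph V} {j : ι'} (x y : Fib κ j)
    (h : (comp κ S j).Adj x y) : S.Adj x.1 y.1 := h

private theorem fga_mvadj {F : Type} (L : LF X (comp κ S) F) (f : F) (a : A)
    (ha : X.o a = L.p f) (hm : X.mv a) : S.Adj (mvE L f a).1 (mvE L f a).2 :=
  (L.mo f a ha hm).1

private theorem fga_mvi {F : Type} (hX : Valid0 X) (L : LF X (comp κ S) F) (f : F) (a : A)
    (ha : X.o a = L.p f) (hm : X.mv a) :
    mvE L (L.act f a) (X.i a) = ((mvE L f a).2, (mvE L f a).1) := by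
  have h1 : L.lam (L.act f a) (X.ty (X.i a)) = L.lam f (X.ty a) := by
    rw [hX.tyi a hm, L.act_lam f a ha]
  unfold mvE
  rw [L.act_i f a ha, h1]

private theorem fga_mveq {F : Type} (L : LF X (comp κ S) F) (f : F) (a : A) (j : ι')
    (hj : L.lam f (X.ty a) = j) :
    mvE L f a = ((L.pt f j).1, (L.pt (L.act f a) j).1) := by
  subst hj; rfl

section
variable {F : Type} [MulAction G F]

private theorem fga_par_symm (hX : Valid0 X) {L : LF X (comp κ S) F} (hS : Forest κ S)
    (hL : Cov G L) {a b : A} (ha : X.mv a) (hb : X.mv b) (h : Par X a b) : Par X b a := by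
  obtain ⟨f, hf⟩ := hL.onto (X.o a)
  obtain ⟨f', hf'⟩ := hL.onto (X.o b)
  obtain ⟨g, h1, h2⟩ := (par_iff hX hS hL f f' a b hf.symm hf'.symm ha hb).1 h
  exact (par_iff hX hS hL f' f b a hf'.symm hf.symm hb ha).2
    ⟨g⁻¹, by rw [← h1, inv_smul_smul], by rw [← h2, inv_smul_smul]⟩

private theorem fga_par_trans (hX : Valid0 X) {L : LF X (comp κ S) F} (hS : Forest κ S)
    (hL : Cov G L) {a b c : A} (ha : X.mv a) (hb : X.mv b) (hc : X.mv c) (h : Par X a b)
    (h' : Par X b c) : Par X a c := by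
  obtain ⟨f, hf⟩ := hL.onto (X.o a)
  obtain ⟨f', hf'⟩ := hL.onto (X.o b)
  obtain ⟨f'', hf''⟩ := hL.onto (X.o c)
  obtain ⟨g, h1, h2⟩ := (par_iff hX hS hL f f' a b hf.symm hf'.symm ha hb).1 h
  obtain ⟨g', h1', h2'⟩ := (par_iff hX hS hL f' f'' b c hf'.symm hf''.symm hb hc).1 h'
  exact (par_iff hX hS hL f f'' a c hf.symm hf''.symm ha hc).2
    ⟨g' * g, by rw [mul_smul, h1, h1'], by rw [mul_smul, h2, h2']⟩

private theorem fga_par_inv (hX : Valid0 X) {L : LF X (comp κ S) F} (hS : Forest κ S)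
    (hL : Cov G L) {a b : A} (ha : X.mv a) (hb : X.mv b) (h : Par X a b) :
    Par X (X.i a) (X.i b) := by
  obtain ⟨f, hf⟩ := hL.onto (X.o a)
  obtain ⟨f', hf'⟩ := hL.onto (X.o b)
  obtain ⟨g, h1, h2⟩ := (par_iff hX hS hL f f' a b hf.symm hf'.symm ha hb).1 h
  refine (par_iff hX hS hL (L.act f a) (L.act f' b) (X.i a) (X.i b) ?_ ?_ ((hX.mi a).2 ha)
    ((hX.mi b).2 hb)).2 ⟨g, ?_, ?_⟩
  · rw [hX.oi, L.act_p f a hf.symm]
  · rw [hX.oi, L.act_p f' b hf'.symm]
  · rw [fga_mvi hX L f a hf.symm ha, fga_mvi hX L f' b hf'.symm hb]; exact h2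
  · rw [fga_mvi hX L f a hf.symm ha, fga_mvi hX L f' b hf'.symm hb]; exact h1

private theorem fga_par_ninv (hX : Valid0 X) {L : LF X (comp κ S) F} (hS : Forest κ S)
    (hn : ∀ (g : G) x y, S.Adj x y → g • x = y → g • y ≠ x)
    (hL : Cov G L) {a : A} (ha : X.mv a) : ¬ Par X a (X.i a) := by
  intro h
  obtain ⟨f, hf⟩ := hL.onto (X.o a)
  obtain ⟨g, h1, h2⟩ := (par_iff hX hS hL f (L.act f a) a (X.i a) hf.symm
    (by rw [hX.oi, L.act_p f a hf.symm]) ha ((hX.mi a).2 ha)).1 h
  rw [fga_mvi hX L f a hf.symm ha] at h1 h2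
  exact hn g _ _ (fga_mvadj L f a hf.symm ha) h1 h2

private theorem fga_orient (hX : Valid0 X) {L : LF X (comp κ S) F} (hS : Forest κ S)
    (hn : ∀ (g : G) x y, S.Adj x y → g • x = y → g • y ≠ x) (hL : Cov G L) :
    ∃ s : A → Bool, (∀ a, X.mv a → s (X.i a) = !(s a)) ∧
    (∀ σ a, X.lc σ a → s (X.ml σ a) = s a) ∧ ∀ a b c d, X.sq a b c d → s d = s a := by
  classical
  have hmi : ∀ {a}, X.mv a → X.mv (X.i a) := fun h => (hX.mi _).2 h
  let r : Setoid A :=
    { r := fun a b => a = b ∨ (X.mv a ∧ X.mv b ∧ (Par X a b ∨ Par X (X.i a) b))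
      iseqv := by
        refine ⟨fun a => Or.inl rfl, ?_, ?_⟩
        · rintro a b (rfl | ⟨ha, hb, h | h⟩)
          · exact Or.inl rfl
          · exact Or.inr ⟨hb, ha, Or.inl (fga_par_symm hX hS hL ha hb h)⟩
          · refine Or.inr ⟨hb, ha, Or.inr ?_⟩
            have h1 := fga_par_symm hX hS hL (hmi ha) hb h
            have h2 := fga_par_inv hX hS hL hb (hmi ha) h1
            rwa [hX.ii] at h2
        · rintro a b c (rfl | ⟨ha, hb, h⟩) (rfl | ⟨hb', hc, h'⟩)
          · exact Or.inl rfl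
          · exact Or.inr ⟨hb', hc, h'⟩
          · exact Or.inr ⟨ha, hb, h⟩
          · refine Or.inr ⟨ha, hc, ?_⟩
            rcases h with h | h <;> rcases h' with h' | h'
            · exact Or.inl (fga_par_trans hX hS hL ha hb hc h h')
            · exact Or.inr (fga_par_trans hX hS hL (hmi ha) (hmi hb) hc
                (fga_par_inv hX hS hL ha hb h) h')
            · exact Or.inr (fga_par_trans hX hS hL (hmi ha) hb hc h h')
            · have h1 := fga_par_inv hX hS hL (hmi ha) hb h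
              rw [hX.ii] at h1
              exact Or.inl (fga_par_trans hX hS hL ha (hmi hb) hc h1 h') }
  let rep : A → A := fun a => (Quotient.mk r a).out
  have hrep : ∀ a b, r.r a b → rep a = rep b := by
    intro a b h
    change (Quotient.mk r a).out = (Quotient.mk r b).out
    rw [Quotient.sound h]
  have hrep2 : ∀ a, X.mv a → X.mv (rep a) ∧ (Par X (rep a) a ∨ Par X (X.i (rep a)) a) := by
    intro a ha
    have h1 : r.r (rep a) a := Quotient.exact (Quotient.out_eq (Quotient.mk r a))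
    rcases h1 with h1 | ⟨h1, h2, h3⟩
    · rw [h1]; exact ⟨ha, Or.inl Par.refl⟩
    · exact ⟨h1, h3⟩
  have key : ∀ a b, X.mv a → X.mv b → Par X a b →
      (rep a = rep b ∧ (Par X (rep a) a ↔ Par X (rep b) b)) := by
    intro a b ha hb h
    have h1 : rep a = rep b := hrep a b (Or.inr ⟨ha, hb, Or.inl h⟩)
    refine ⟨h1, ?_⟩
    have h2 := (hrep2 b hb).1
    rw [h1]
    exact ⟨fun h3 => fga_par_trans hX hS hL h2 ha hb h3 h,
      fun h3 => fga_par_trans hX hS hL h2 hb ha h3 (fga_par_symm hX hS hL ha hb h)⟩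
  refine ⟨fun a => if X.mv a then decide (Par X (rep a) a) else true, ?_, ?_, ?_⟩
  · intro a ha
    have h1 : rep a = rep (X.i a) := hrep a (X.i a) (Or.inr ⟨ha, hmi ha, Or.inr Par.refl⟩)
    obtain ⟨h2, h3⟩ := hrep2 a ha
    simp only [ha, hmi ha, if_true]
    rw [← h1]
    by_cases h4 : Par X (rep a) a
    · have h5 : ¬ Par X (rep a) (X.i a) := by
        intro h5
        exact fga_par_ninv hX hS hn hL ha (fga_par_trans hX hS hL ha h2 (hmi ha)
          (fga_par_symm hX hS hL h2 ha h4) h5)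
      simp [h4, h5]
    · have h5 : Par X (rep a) (X.i a) := by
        rcases h3 with h3 | h3
        · exact absurd h3 h4
        · have h6 := fga_par_inv hX hS hL (hmi h2) ha h3
          rwa [hX.ii] at h6
      simp [h4, h5]
  · intro σ a h
    by_cases ha : X.mv a
    · have hb : X.mv (X.ml σ a) := (hX.mlm σ a h).2 ha
      have h1 := (key a (X.ml σ a) ha hb (Par.ml a σ Par.refl h)).2
      simp only [ha, hb, if_true]
      exact (decide_eq_decide.2 h1).symm
    · have hb : ¬ X.mv (X.ml σ a) := fun hb => ha ((hX.mlm σ a h).1 hb)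
      simp [ha, hb]
  · intro a b c d h
    have ha := (hX.sqT _ _ _ _ h).ma
    have hd := (hX.sqT _ _ _ _ h).md
    have h1 := (key a d ha hd (Par.sq a b c d Par.refl h)).2
    simp only [ha, hd, if_true]
    exact (decide_eq_decide.2 h1).symm

end

theorem fgood_of_flat (L : FLat G κ S) (hS : Red G S) [Finite P] (h : IsCov G κ S X) : Good X := by
  classical
  obtain ⟨hF, hA, hV, F, iF, L0, hL⟩ := h
  have hX := hV.v0
  have hconn : ∀ i, (comp κ S i).Connected := fun i => (hF.tree i).connected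
  have hF0 : Nonempty F := by
    obtain ⟨f, -⟩ := L0.onto (fun i => (hconn i).nonempty.some)
    exact ⟨f⟩
  obtain ⟨f0⟩ := hF0
  refine ⟨hV, ?_, ?_, ?_, fga_orient hX hF L.b.noinv hL, ?_⟩
  · refine fga_span X (L0.p f0) (fun q => ?_)
    obtain ⟨f, hf⟩ := hL.onto q
    rw [← hf]
    refine f_induct hX hconn L0 (fun f => ∃ n, fga_reach X (L0.p f0) n (L0.p f)) f0 ⟨0, rfl⟩ ?_ f
    rintro f a ha ⟨n, hn⟩
    exact ⟨n + 1, a, by rw [ha]; exact hn, (L0.act_p f a ha).symm⟩
  · intro q k
    obtain ⟨f, hf⟩ := hL.onto q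
    obtain ⟨x, y, hxy, hx, hy⟩ := (L.leafless (L0.lam f k)).two (L0.pt f _)
    obtain ⟨a, ha, hpa⟩ := fga_dir L0 f k x hx
    obtain ⟨b, hb, hpb⟩ := fga_dir L0 f k y hy
    rw [hf] at ha hb
    exact ⟨a, b, ha, hb, fga_neqv hX L0 f a b (by rw [ha.1, hf]) _ (by rw [hpa, hpb]; exact hxy)⟩
  · intro q k
    obtain ⟨f, hf⟩ := hL.onto q
    obtain ⟨v, x, y, z, hxy, hyz, hxz, hx, hy, hz⟩ := (L.leafless (L0.lam f k)).three
    obtain ⟨f', hf'⟩ := L0.onto (Function.update (L0.pt f) (L0.lam f k) v)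
    have hv : L0.pt f' (L0.lam f k) = v := by rw [hf', Function.update_self]
    obtain ⟨k', hk'⟩ := (L0.bij f').2 (L0.lam f k)
    have hlab : ∀ k'', L0.lam f' k'' = L0.lam f k → Lab X q k (L0.p f') k'' := by
      refine f_induct hX hconn L0
        (fun f'' => ∀ k'', L0.lam f'' k'' = L0.lam f k → Lab X q k (L0.p f'') k'') f ?_ ?_ f'
      · intro k'' hk
        have := (L0.bij f).1 hk
        rw [this, hf]
        exact Lab.refl
      · intro f1 a ha hQ k3 hk3
        obtain ⟨k2, hk2⟩ := (L0.bij f1).2 (L0.lam f k)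
        have h1 := L0.act_lam f1 a ha k2
        have h2 : X.pm a k2 = k3 := (L0.bij (L0.act f1 a)).1 (by rw [h1, hk2, hk3])
        rw [← h2, L0.act_p f1 a ha]
        refine Lab.step a k2 ?_
        rw [ha]
        exact hQ k2 hk2
    have hdir : ∀ w, (comp κ S (L0.lam f k)).Adj v w → ∃ a, X.dir (L0.p f') k' a ∧
        L0.pt (L0.act f' a) (L0.lam f k) = w := by
      intro w hw
      obtain ⟨a, ha, hm, hj, hp⟩ := fga_arrow L0 f' (L0.lam f k) w (by rw [hv]; exact hw)
      exact ⟨a, ⟨ha, hm, (L0.bij f').1 (by rw [hj, hk'])⟩, hp⟩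
    obtain ⟨a, ha, hpa⟩ := hdir x hx
    obtain ⟨b, hb, hpb⟩ := hdir y hy
    obtain ⟨c, hc, hpc⟩ := hdir z hz
    exact ⟨L0.p f', k', a, b, c, hlab k' hk', ha, hb, hc,
      fga_neqv hX L0 f' a b ha.1 _ (by rw [hpa, hpb]; exact hxy),
      fga_neqv hX L0 f' b c hb.1 _ (by rw [hpb, hpc]; exact hyz),
      fga_neqv hX L0 f' a c ha.1 _ (by rw [hpa, hpc]; exact hxz)⟩
  · intro a ha
    obtain ⟨f, hf⟩ := hL.onto (X.o a)
    have hadj := fga_mvadj L0 f a hf.symm ha
    have hκ1 : κ (mvE L0 f a).1 = L0.lam f (X.ty a) := (L0.pt f _).2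
    have hκ2 : κ (mvE L0 f a).2 = L0.lam f (X.ty a) := (L0.pt (L0.act f a) _).2
    -- arrows at translated frames
    have hmove : ∀ (g : G) (x y : V), g • (mvE L0 f a).1 = x → κ x = L0.lam f (X.ty a) →
        κ y = L0.lam f (X.ty a) → S.Adj x y →
        ∃ c, X.o c = L0.p (g • f) ∧ X.mv c ∧ X.ty c = X.ty a ∧ mvE L0 (g • f) c = (x, y) := by
      intro g x y hgx hκx hκy hxy
      have h1 : L0.lam (g • f) (X.ty a) = g • L0.lam f (X.ty a) := hL.glam g f _
      have h2 : (L0.pt (g • f) (g • L0.lam f (X.ty a))).1 = x := by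
        rw [hL.gpt g f]; exact hgx
      have h3 : g • L0.lam f (X.ty a) = L0.lam f (X.ty a) := by
        have h4 := (L0.pt (g • f) (g • L0.lam f (X.ty a))).2
        rw [h2, hκx] at h4
        exact h4.symm
      rw [h3] at h1 h2
      obtain ⟨c, hc, hm, hj, hp⟩ := fga_arrow L0 (g • f) (L0.lam f (X.ty a)) ⟨y, hκy⟩ (by
        change S.Adj (L0.pt (g • f) (L0.lam f (X.ty a))).1 y
        rw [h2]; exact hxy)
      refine ⟨c, hc, hm, (L0.bij (g • f)).1 (by rw [hj, h1]), ?_⟩
      rw [fga_mveq L0 (g • f) c _ hj, h2, hp]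
    have hpar : ∀ (g : G) (c : A), X.o c = L0.p (g • f) → X.mv c → mvE L0 (g • f) c = mvE L0 f a →
        Par X a c := by
      intro g c hc hm he
      refine (par_iff hX hF hL f (g • f) a c hf.symm hc ha hm).2 ⟨1, ?_, ?_⟩ <;>
        rw [one_smul, he]
    by_cases hst : ∀ g : G, g • (mvE L0 f a).1 = (mvE L0 f a).1 →
        g • (mvE L0 f a).2 = (mvE L0 f a).2
    · left
      obtain ⟨g, hg⟩ := hS _ _ hadj hst
      obtain ⟨c, hc, hm, hty, he⟩ := hmove g _ _ hg hκ2 hκ1 hadj.symm
      refine ⟨a, c, Par.refl, ?_, ?_, hty.symm⟩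
      · refine (par_iff hX hF hL (L0.act f a) (g • f) (X.i a) c ?_ hc ((hX.mi a).2 ha) hm).2
          ⟨1, ?_, ?_⟩
        · rw [hX.oi, L0.act_p f a hf.symm]
        · rw [one_smul, fga_mvi hX L0 f a hf.symm ha, he]
        · rw [one_smul, fga_mvi hX L0 f a hf.symm ha, he]
      · rw [hc, hL.gp, hf]
    · right
      push Not at hst
      obtain ⟨g, hg1, hg2⟩ := hst
      obtain ⟨c, hc, hm, hty, he⟩ := hmove g _ _ hg1 hκ1 hκ2 hadj
      refine ⟨c, hpar g c hc hm he, by rw [hc, hL.gp, hf], hty, ?_⟩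
      have hag : X.o a = L0.p (g • f) := by rw [hL.gp, hf]
      have h1 : L0.lam (g • f) (X.ty a) = g • L0.lam f (X.ty a) := hL.glam g f _
      refine fga_neqv hX L0 (g • f) a c hag (L0.lam (g • f) (X.ty a)) ?_
      intro heq
      apply hg2
      have h2 : (L0.pt (L0.act (g • f) a) (L0.lam (g • f) (X.ty a))).1
          = g • (mvE L0 f a).2 := by
        rw [h1, hL.gact g f a hf.symm, hL.gpt]
        rfl
      have h3 : (L0.pt (L0.act (g • f) c) (L0.lam (g • f) (X.ty a))).1 = (mvE L0 f a).2 := by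
        have h4 := congrArg Prod.snd he
        rw [fga_mveq L0 (g • f) c (L0.lam (g • f) (X.ty a)) (by rw [hty])] at h4
        exact h4
      rw [← h2, heq, h3]

end

end LatF
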