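import Pool.Agent.Lib.MP_32d917_al.FDefs
import Pool.Agent.Lib.MP_32d917_al.F.PAR
import Pool.Agent.Lib.MP_32d917_al.F.FVAL

/-!
# good data come from reduced actions

forest, act: in IsCov. For a vertex `v` of the forest choose a frame `f` with `pt f (κ v) = v` (extend `v` to a point). loc: the neighbours of `v` are the ends of `mvE L f a`, `a : A` (finite). leafless.two: `Good.two (p f) k`, `lam f k = κ v`: two non-equivalent arrows lead to different neighbours (arrows at `f` leading to frames over the same point are equivalent: `sur`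
gives a stationary arrow, then `inj`). leafless.three for the component `j`: take any frame `f`, `k` with `lam f k = j`, and `Good.three (p f) k`: `Lab X (p f) k q' k'`; by induction on `Lab` there is a frame `f'` with `p f' = q'`, `lam f' k' = j`. noinv: `g v = x`, `g x = v`, `S.Adj v x`: frame `f` at `v`, `a` at `f` moving `(v, x)`; then at `g • f` the arrow `a` moves `(x, v)`, as does `i a` at
`act f a`; so `Par X (i a) a` by `par_iff`; but `s` of orient is constant along `Par` (`mr a s = i (ml (i s) (i a))`: two sign changes) and `s (i a) = !(s a)`. prop: `f` over `x`: `g ↦` the stationary arrow from `f` to `g • f` is injective into `A` (`free`). fin: points of one frame for every object.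
Red: `S.Adj v x`, `stab v ≤ stab x`: `f`, `a` moving `(v, x)`. First case of `red`: `a'` with `Par a a'`, `c'` with `Par (i a) c'`, same origin, same type: by `par_iff` and translating by elements of `G` there are frames `f1`, `f2` (over the common origin) where `a'` moves `(v, x)` and `c'` moves `(x, v)`: `g • f1 = f2`, so `g` maps `v` = coordinate
`lam f1 (ty a')` of `f1` to the coordinate `lam f2 (ty a')` of `f2`, which is `x`. Second case: `a'` parallel to `a`, same origin and type, not equivalent: frames `f` (`a` moves `(v,x)`) and `f1` (`a'` moves `(v,x)`), `g • f = f1`, `g v = v`, and `g x ≠ x` since `a` at `f1` moves `(v, g x)` and is not equivalent to `a'`: contradiction.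
-/

set_option autoImplicit false

namespace LatF

open LatIso LatN

section

variable {ι P A : Type} {X : FD ι P A} {G : Type} [Group G] {V ι' : Type} [Fintype ι']
  [MulAction G V] [MulAction G ι'] {κ : V → ι'} {S : SimpleGraph V}

private theorem fgb_actmr {ι' : Type} {V : ι' → Type} {S : ∀ i, SimpleGraph (V i)} {F : Type}
    (hX : Valid0 X) (L : LF X S F) (f : F) (a s : A) (ha : X.o a = L.p f) (hs : X.rc a s) :
    L.act f (X.mr a s) = L.act (L.act f a) s := by
  have hp1 : L.p (L.act f a) = X.t a := L.act_p f a ha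
  have hso : X.o s = L.p (L.act f a) := by rw [hs.2, hp1]
  have hp2 : L.p (L.act (L.act f a) s) = X.t s := L.act_p _ s hso
  have hlc : X.lc (X.i s) (X.i a) := fval_lc hX hs
  have hois : X.o (X.i s) = L.p (L.act (L.act f a) s) := by rw [hX.oi, hp2]
  have h1 : L.act (L.act (L.act f a) s) (X.ml (X.i s) (X.i a)) = f := by
    rw [L.act_ml _ _ _ hois hlc, L.act_i _ s hso, L.act_i f a ha]
  have hoc : X.o (X.ml (X.i s) (X.i a)) = L.p (L.act (L.act f a) s) := by
    rw [hX.mlo _ _ hlc, hois]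
  have h2 := L.act_i _ _ hoc
  rw [h1] at h2
  exact h2

private theorem fgb_arrow {ι' : Type} {V : ι' → Type} {S : ∀ i, SimpleGraph (V i)} {F : Type}
    (L : LF X S F) (f : F) (j : ι') (x : V j) (hx : (S j).Adj (L.pt f j) x) :
    ∃ a, X.o a = L.p f ∧ X.mv a ∧ L.lam f (X.ty a) = j ∧ L.pt (L.act f a) j = x := by
  classical
  obtain ⟨f1, hf1⟩ := L.onto (Function.update (L.pt f) j x)
  obtain ⟨a, ha, haf⟩ := L.sur f f1 (Or.inr ⟨j, by rw [hf1, Function.update_self]; exact hx,
    fun i hi => by rw [hf1, Function.update_of_ne hi]⟩)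
  have hm : X.mv a := by
    by_contra hm
    have h1 := L.st f a ha hm
    rw [haf, hf1] at h1
    have h2 := congrFun h1 j
    rw [Function.update_self] at h2
    rw [h2] at hx
    exact (S j).irrefl hx
  have hj : L.lam f (X.ty a) = j := by
    by_contra hne
    have h1 := (L.mo f a ha hm).1
    rw [haf, hf1, Function.update_of_ne hne] at h1
    exact (S _).irrefl h1
  exact ⟨a, ha, hm, hj, by rw [haf, hf1, Function.update_self]⟩

private theorem fgb_eqv {ι' : Type} {V : ι' → Type} {S : ∀ i, SimpleGraph (V i)} {F : Type}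
    (hX : Valid0 X) (L : LF X S F) (f : F) (a b : A) (ha : X.o a = L.p f) (hb : X.o b = L.p f)
    (h : L.pt (L.act f b) = L.pt (L.act f a)) : X.eqv a b := by
  obtain ⟨s, hs, hsf⟩ := L.sur (L.act f a) (L.act f b) (Or.inl h)
  have hm : ¬ X.mv s := by
    intro hm
    have h1 := (L.mo (L.act f a) s hs hm).1
    rw [hsf, h] at h1
    exact (S _).irrefl h1
  have hrc : X.rc a s := ⟨hm, by rw [hs, L.act_p f a ha]⟩
  refine ⟨s, hrc, L.inj f b (X.mr a s) hb (by rw [val_mro hX hrc, ha]) ?_⟩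
  rw [fgb_actmr hX L f a s ha hrc, hsf]

private theorem fgb_pteq {ι' : Type} {V : ι' → Type} {S : ∀ i, SimpleGraph (V i)} {F : Type}
    (hX : Valid0 X) (L : LF X S F) (f : F) (a b : A) (ha : X.o a = L.p f) (hb : X.o b = L.p f)
    (hma : X.mv a) (hmb : X.mv b) (j : ι') (hja : L.lam f (X.ty a) = j)
    (hjb : L.lam f (X.ty b) = j) (h : L.pt (L.act f a) j = L.pt (L.act f b) j) :
    X.eqv a b := by
  refine fgb_eqv hX L f a b ha hb ?_
  funext i
  by_cases hi : i = j
  · rw [hi, h]
  · rw [(L.mo f a ha hma).2 i (by rw [hja]; exact hi), (L.mo f b hb hmb).2 i (by rw [hjb]; exact hi)]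

private theorem fgb_mvi {F : Type} (hX : Valid0 X) (L : LF X (comp κ S) F) (f : F) (a : A)
    (ha : X.o a = L.p f) (hm : X.mv a) :
    mvE L (L.act f a) (X.i a) = ((mvE L f a).2, (mvE L f a).1) := by
  have h1 : L.lam (L.act f a) (X.ty (X.i a)) = L.lam f (X.ty a) := by
    rw [hX.tyi a hm, L.act_lam f a ha]
  unfold mvE
  rw [L.act_i f a ha, h1]

private theorem fgb_mveq {F : Type} (L : LF X (comp κ S) F) (f : F) (a : A) (j : ι')
    (hj : L.lam f (X.ty a) = j) :
    mvE L f a = ((L.pt f j).1, (L.pt (L.act f a) j).1) := by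
  subst hj; rfl

private theorem fgb_mvg {F : Type} [MulAction G F] {L : LF X (comp κ S) F} (hL : Cov G L)
    (g : G) (f : F) (a : A) (ha : X.o a = L.p f) :
    mvE L (g • f) a = (g • (mvE L f a).1, g • (mvE L f a).2) := by
  rw [fgb_mveq L (g • f) a _ (hL.glam g f _), hL.gact g f a ha, hL.gpt, hL.gpt]
  rfl

private theorem fgb_par (hX : Valid0 X) {s : A → Bool}
    (h1 : ∀ a, X.mv a → s (X.i a) = !(s a))
    (h2 : ∀ σ a, X.lc σ a → s (X.ml σ a) = s a) (h3 : ∀ a b c d, X.sq a b c d → s d = s a)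
    {a a' : A} (ha : X.mv a) (h : Par X a a') : X.mv a' ∧ s a' = s a := by
  induction h with
  | refl => exact ⟨ha, rfl⟩
  | ml a' σ _ hl ih => exact ⟨(hX.mlm _ _ hl).2 ih.1, by rw [h2 _ _ hl, ih.2]⟩
  | mr a' σ _ hr ih =>
    refine ⟨(val_mrm hX hr).2 ih.1, ?_⟩
    have hlc := fval_lc hX hr
    rw [FD.mr, h1 _ ((hX.mlm _ _ hlc).2 ((hX.mi _).2 ih.1)), h2 _ _ hlc, h1 _ ih.1, ih.2]
    simp
  | sq a' b c d _ hs ih => exact ⟨(hX.sqT _ _ _ _ hs).md, by rw [h3 _ _ _ _ hs, ih.2]⟩

theorem flat_of_good [Finite P] [Finite A] (h : IsCov G κ S X) (hX : Good X) :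
    FLat G κ S ∧ Red G S := by
  classical
  obtain ⟨hF, hA, hV, F, iF, L, hL⟩ := h
  have hX0 := hV.v0
  have hconn : ∀ i, (comp κ S i).Connected := fun i => (hF.tree i).connected
  have hne : ∀ i, Nonempty (Fib κ i) := fun i => (hconn i).nonempty
  have hfr : ∀ i (v : Fib κ i), ∃ f, L.pt f i = v := by
    intro i v
    obtain ⟨f, hf⟩ := L.onto (Function.update (fun j => (hne j).some) i v)
    exact ⟨f, by rw [hf, Function.update_self]⟩
  -- arrows moving a given edge
  have hedge : ∀ v x, S.Adj v x → ∃ f a, X.o a = L.p f ∧ X.mv a ∧ mvE L f a = (v, x) := by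
    intro v x hvx
    have hκ : κ x = κ v := (hF.kap v x hvx).symm
    obtain ⟨f, hf⟩ := hfr (κ v) ⟨v, rfl⟩
    obtain ⟨a, ha, hm, hj, hp⟩ := fgb_arrow L f (κ v) ⟨x, hκ⟩ (by
      rw [hf]; exact hvx)
    exact ⟨f, a, ha, hm, by rw [fgb_mveq L f a _ hj, hf, hp]⟩
  have hadj : ∀ f a k, X.dir (L.p f) k a → ∀ i, L.lam f k = i →
      (comp κ S i).Adj (L.pt f i) (L.pt (L.act f a) i) := by
    intro f a k hd i hi
    subst hi
    have h1 := (L.mo f a hd.1 hd.2.1).1
    rw [hd.2.2] at h1
    exact h1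
  have hneq : ∀ f a b k, X.dir (L.p f) k a → X.dir (L.p f) k b → ¬ X.eqv a b → ∀ i,
      L.lam f k = i → L.pt (L.act f a) i ≠ L.pt (L.act f b) i := by
    intro f a b k ha hb hab i hi heq
    exact hab (fgb_pteq hX0 L f a b ha.1 hb.1 ha.2.1 hb.2.1 i (by rw [ha.2.2, hi])
      (by rw [hb.2.2, hi]) heq)
  obtain ⟨s, hs1, hs2, hs3⟩ := hX.orient
  have hnoinv : ∀ (g : G) x y, S.Adj x y → g • x = y → g • y ≠ x := by
    intro g v x hvx h1 h2
    obtain ⟨f, a, ha, hm, he⟩ := hedge v x hvx
    have hpar : Par X (X.i a) a := by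
      refine (par_iff hX0 hF hL (L.act f a) f (X.i a) a ?_ ha ((hX0.mi a).2 hm) hm).2 ⟨g, ?_, ?_⟩
      · rw [hX0.oi, L.act_p f a ha]
      · rw [fgb_mvi hX0 L f a ha hm, he]; exact h2
      · rw [fgb_mvi hX0 L f a ha hm, he]; exact h1
    have h3 := (fgb_par hX0 hs1 hs2 hs3 ((hX0.mi a).2 hm) hpar).2
    rw [hs1 a hm] at h3
    cases hsa : s a <;> rw [hsa] at h3 <;> simp at h3
  refine ⟨⟨⟨hF, hA, hnoinv, ?_, ?_, ?_⟩, ?_⟩, ?_⟩
  · -- locally finite
    intro v
    obtain ⟨f, hf⟩ := hfr (κ v) ⟨v, rfl⟩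
    refine (Set.finite_range (fun a => (L.pt (L.act f a) (κ v)).1)).subset ?_
    intro w hw
    have hvw : S.Adj v w := hw
    obtain ⟨a, ha, hm, hj, hp⟩ := fgb_arrow L f (κ v) ⟨w, (hF.kap v w hvw).symm⟩ (by
      rw [hf]; exact hvw)
    exact ⟨a, by simp only [hp]⟩
  · -- proper
    intro x
    obtain ⟨f, hf⟩ := L.onto x
    have h1 : ∀ g : G, Mv g x x → ∃ a, X.o a = L.p f ∧ L.act f a = g • f := by
      intro g hg
      refine L.sur f (g • f) (Or.inl ?_)
      funext i
      refine Subtype.ext ?_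
      have h2 := hL.gpt g f (g⁻¹ • i)
      rw [smul_inv_smul] at h2
      rw [h2, hf]
      have h3 := hg (g⁻¹ • i)
      rw [smul_inv_smul] at h3
      exact h3
    have h4 : ∀ g : {g : G | Mv g x x}, ∃ a, X.o a = L.p f ∧ L.act f a = (g : G) • f :=
      fun g => h1 g.1 g.2
    choose φ hφ1 hφ2 using h4
    have h5 : Function.Injective φ := by
      intro g g' hgg
      have h6 : (g : G) • f = (g' : G) • f := by rw [← hφ2 g, ← hφ2 g', hgg]
      have h7 : ((g' : G)⁻¹ * (g : G)) • f = f := by rw [mul_smul, h6, inv_smul_smul]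
      have h8 := hL.free _ _ h7
      exact Subtype.ext (inv_mul_eq_one.1 h8).symm
    exact Set.finite_coe_iff.1 (Finite.of_injective φ h5)
  · -- finitely many orbits
    have : Fintype P := Fintype.ofFinite P
    choose fr hfr2 using hL.onto
    refine ⟨Finset.univ.image (fun q => L.pt (fr q)), fun x => ?_⟩
    obtain ⟨f, hf⟩ := L.onto x
    obtain ⟨g, hg⟩ := hL.trans f (fr (L.p f)) (hfr2 _).symm
    refine ⟨g, L.pt (fr (L.p f)), Finset.mem_image_of_mem _ (Finset.mem_univ _), fun i => ?_⟩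
    rw [← hf, ← hg, hL.gpt]
  · -- leafless
    intro i
    refine ⟨fun v => ?_, ?_⟩
    · obtain ⟨f, hf⟩ := hfr i v
      obtain ⟨k, hk⟩ := (L.bij f).2 i
      obtain ⟨a, b, ha, hb, hab⟩ := hX.two (L.p f) k
      refine ⟨_, _, hneq f a b k ha hb hab i hk, ?_, ?_⟩
      · rw [← hf]; exact hadj f a k ha i hk
      · rw [← hf]; exact hadj f b k hb i hk
    · obtain ⟨f, -⟩ := hfr i (hne i).some
      obtain ⟨k, hk⟩ := (L.bij f).2 i
      obtain ⟨q', k', a, b, c, hl, ha, hb, hc, hab, hbc, hac⟩ := hX.three (L.p f) k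
      have hlab : ∃ f', L.p f' = q' ∧ L.lam f' k' = i := by
        clear ha hb hc
        induction hl with
        | refl => exact ⟨f, rfl, hk⟩
        | step a k' _ ih =>
          obtain ⟨f', h1, h2⟩ := ih
          exact ⟨L.act f' a, L.act_p f' a h1.symm, by rw [L.act_lam f' a h1.symm, h2]⟩
      obtain ⟨f', h1, h2⟩ := hlab
      rw [← h1] at ha hb hc
      exact ⟨L.pt f' i, _, _, _, hneq f' a b k' ha hb hab i h2, hneq f' b c k' hb hc hbc i h2,
        hneq f' a c k' ha hc hac i h2, hadj f' a k' ha i h2, hadj f' b k' hb i h2,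
        hadj f' c k' hc i h2⟩
  · -- reduced
    intro v x hvx hst
    obtain ⟨f, a, ha, hm, he⟩ := hedge v x hvx
    -- frames where a parallel arrow moves the same edge
    have hfind : ∀ (f : F) (a : A) (v x : V), X.o a = L.p f → X.mv a → mvE L f a = (v, x) →
        ∀ a', Par X a a' → X.mv a' ∧ ∃ f', X.o a' = L.p f' ∧ mvE L f' a' = (v, x) := by
      intro f a v x ha hm he a' hpa
      have hm' := (fgb_par hX0 hs1 hs2 hs3 hm hpa).1
      obtain ⟨f1, hf1⟩ := hL.onto (X.o a')
      obtain ⟨g, h1, h2⟩ := (par_iff hX0 hF hL f f1 a a' ha hf1.symm hm hm').1 hpa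
      refine ⟨hm', g⁻¹ • f1, by rw [hL.gp, hf1], ?_⟩
      rw [fgb_mvg hL g⁻¹ f1 a' hf1.symm, ← h1, ← h2, inv_smul_smul, inv_smul_smul, he]
    rcases hX.red a hm with ⟨a', c', hpa, hpc, ho, hty⟩ | ⟨a', hpa, ho, hty, hne'⟩
    · obtain ⟨hma', f1, hf1, he1⟩ := hfind f a v x ha hm he a' hpa
      obtain ⟨hmc', f2, hf2, he2⟩ := hfind (L.act f a) (X.i a) x v
        (by rw [hX0.oi, L.act_p f a ha]) ((hX0.mi a).2 hm)
        (by rw [fgb_mvi hX0 L f a ha hm, he]) c' hpc
      obtain ⟨g, hg⟩ := hL.trans f1 f2 (by rw [← hf1, ← hf2, ho])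
      refine ⟨g, ?_⟩
      have h1 : v = (L.pt f1 (L.lam f1 (X.ty a'))).1 := (congrArg Prod.fst he1).symm
      have h2 : x = (L.pt f2 (L.lam f2 (X.ty c'))).1 := (congrArg Prod.fst he2).symm
      rw [h1, ← hL.gpt, ← hL.glam, hg, hty, ← h2]
    · obtain ⟨hma', f1, hf1, he1⟩ := hfind f a v x ha hm he a' hpa
      obtain ⟨g, hg⟩ := hL.trans f f1 (by rw [← hf1, ← ha, ho])
      exfalso
      have hgv : g • v = v := by
        have h5 : (L.pt (g • f) (L.lam (g • f) (X.ty a))).1 = g • v := by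
          rw [hL.glam, hL.gpt]
          exact congrArg (fun w => g • w) (congrArg Prod.fst he)
        rw [hg] at h5
        rw [← h5, ← hty]
        exact congrArg Prod.fst he1
      have hgx := hst g hgv
      have haf1 : X.o a = L.p f1 := by rw [← hg, hL.gp, ha]
      have he2 : mvE L f1 a = (v, x) := by
        rw [← hg, fgb_mvg hL g f a ha, he]
        simp only [hgv, hgx]
      refine hne' (fgb_pteq hX0 L f1 a a' haf1 hf1 hm hma' (L.lam f1 (X.ty a)) rfl
        (by rw [hty]) (Subtype.ext ?_))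
      have h3 := congrArg Prod.snd he2
      have h4 := congrArg Prod.snd he1
      rw [fgb_mveq L f1 a' (L.lam f1 (X.ty a)) (by rw [hty])] at h4
      rw [fgb_mveq L f1 a (L.lam f1 (X.ty a)) rfl] at h3
      exact h3.trans h4.symm

end

end LatF
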