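import Pool.Agent.Lib.MP_32d917_al.FDefs
import Pool.Agent.Lib.MP_32d917_al.F.FVAL
import Pool.Agent.Lib.MP_32d917_al.F.FCON
import Pool.Agent.Lib.MP_32d917_al.F.PAR

/-!
# pairs of parallel arrows

See the comment of module PAR (`mvE`, facts (i)-(iv)); the same proof for pairs of arrows `a, b` with the same origin and the same direction (they move the same component, the two edges have the same first vertex). Rules of `Par2`:
`mr1`, `mr2` change one of the two arrows, `ml` and `sq` both (the same `s`, the same `c`). (⟸): `Q f''` := for all arrows `a''`, `b''` at `f''` with `mvE L f'' a'' = mvE L f a`, `mvE L f'' b'' = mvE L f b`: `Par2 X a b a'' b''`.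
-/

set_option autoImplicit false

namespace LatF

open LatIso LatN

section

variable {ι P A : Type} {X : FD ι P A} {G : Type} [Group G] {V ι' : Type} [Fintype ι']
  [MulAction G V] [MulAction G ι'] {κ : V → ι'} {S : SimpleGraph V} {F : Type} [MulAction G F]

theorem par2_iff (hX : Valid0 X) {L : LF X (comp κ S) F} (hS : Forest κ S) (hL : Cov G L)
    (f f' : F) (a b a' b' : A) (ha : X.o a = L.p f) (hb : X.o b = L.p f) (ha' : X.o a' = L.p f')
    (hb' : X.o b' = L.p f') (hm : X.mv a) (hn : X.mv b) (hm' : X.mv a') (hn' : X.mv b')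
    (ht : X.ty a = X.ty b) (ht' : X.ty a' = X.ty b') :
    Par2 X a b a' b' ↔ ∃ g : G, g • (mvE L f a).1 = (mvE L f' a').1 ∧
      g • (mvE L f a).2 = (mvE L f' a').2 ∧ g • (mvE L f b).2 = (mvE L f' b').2 := by
  constructor
  · intro hP
    have key : ∀ a'' b'', Par2 X a b a'' b'' → (X.mv a'' ∧ X.mv b'' ∧ X.o b'' = X.o a'') ∧
        ∀ f'', X.o a'' = L.p f'' →
        ∃ g : G, g • (mvE L f a).1 = (mvE L f'' a'').1 ∧
          g • (mvE L f a).2 = (mvE L f'' a'').2 ∧ g • (mvE L f b).2 = (mvE L f'' b'').2 := by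
      intro a'' b'' h
      induction h with
      | refl =>
        refine ⟨⟨hm, hn, by rw [ha, hb]⟩, fun f'' hf => ?_⟩
        obtain ⟨g, hg⟩ := hL.trans f f'' (by rw [← ha, hf])
        refine ⟨g, ?_⟩
        rw [← hg, mvE_smul hL g f a ha, mvE_smul hL g f b hb]
        exact ⟨rfl, rfl, rfl⟩
      | ml a1 b1 s h1 hs ih =>
        obtain ⟨⟨ih1, ih2, ih3⟩, ih4⟩ := ih
        have hs2 : X.lc s b1 := ⟨hs.1, by rw [ih3]; exact hs.2⟩
        refine ⟨⟨(hX.mlm _ _ hs).2 ih1, (hX.mlm _ _ hs2).2 ih2, by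
          rw [hX.mlo _ _ hs, hX.mlo _ _ hs2]⟩, fun f'' hf => ?_⟩
        rw [hX.mlo _ _ hs] at hf
        rw [← mvE_ml hX L hf hs ih1, ← mvE_ml hX L hf hs2 ih2]
        exact ih4 (L.act f'' s) (by rw [L.act_p f'' s hf]; exact hs.2.symm)
      | mr1 a1 b1 s h1 hs ih =>
        obtain ⟨⟨ih1, ih2, ih3⟩, ih4⟩ := ih
        refine ⟨⟨(val_mrm hX hs).2 ih1, ih2, by rw [val_mro hX hs, ih3]⟩, fun f'' hf => ?_⟩
        rw [val_mro hX hs] at hf
        rw [mvE_mr hX L hf hs ih1]
        exact ih4 f'' hf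
      | mr2 a1 b1 s h1 hs ih =>
        obtain ⟨⟨ih1, ih2, ih3⟩, ih4⟩ := ih
        refine ⟨⟨ih1, (val_mrm hX hs).2 ih2, by rw [val_mro hX hs, ih3]⟩, fun f'' hf => ?_⟩
        rw [mvE_mr hX L (ih3.trans hf) hs ih2]
        exact ih4 f'' hf
      | sq a1 b1 c c1 c2 d1 d2 h1 hs hs' ih =>
        obtain ⟨⟨ih1, ih2, ih3⟩, ih4⟩ := ih
        have T := hX.sqT _ _ _ _ hs
        have T' := hX.sqT _ _ _ _ hs'
        refine ⟨⟨T.md, T'.md, by rw [← T.tcd, ← T'.tcd]⟩, fun f'' hf => ?_⟩
        have h2 : X.o (X.i c) = L.p f'' := by rw [hX.oi, T.tcd, hf]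
        have h3 : L.p (L.act f'' (X.i c)) = X.o c := by rw [L.act_p f'' (X.i c) h2, hX.ti]
        have h4 : L.act (L.act f'' (X.i c)) c = f'' := by
          have h5 := L.act_i f'' (X.i c) h2
          rwa [hX.ii] at h5
        have h6 : X.o a1 = L.p (L.act f'' (X.i c)) := by rw [h3]; exact T.oac
        have h6' : X.o b1 = L.p (L.act f'' (X.i c)) := by rw [h3]; exact T'.oac
        have h7 := mvE_sq hX L h6 hs
        have h7' := mvE_sq hX L h6' hs'
        rw [h4] at h7 h7'
        rw [h7, h7']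
        exact ih4 _ h6
    exact (key a' b' hP).2 f' ha'
  · rintro ⟨g, hg1, hg2, hg3⟩
    have ha1 : X.o a = L.p (g • f) := by rw [hL.gp]; exact ha
    have hb1 : X.o b = L.p (g • f) := by rw [hL.gp]; exact hb
    have he : mvE L (g • f) a = mvE L f' a' := by
      rw [mvE_smul hL g f a ha]
      exact Prod.ext hg1 hg2
    have hab : (mvE L f a).1 = (mvE L f b).1 := by
      unfold mvE
      rw [ht]
    have hab' : (mvE L f' a').1 = (mvE L f' b').1 := by
      unfold mvE
      rw [ht']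
    have he' : mvE L (g • f) b = mvE L f' b' := by
      rw [mvE_smul hL g f b hb]
      exact Prod.ext (by rw [← hab, ← hab']; exact hg1) hg3
    have hjab : L.lam (g • f) (X.ty a) = L.lam (g • f) (X.ty b) := by rw [ht]
    have hj : L.lam (g • f) (X.ty a) = L.lam f' (X.ty a') := by
      rw [← mvE_kap L (g • f) a, ← mvE_kap L f' a', he]
    have hf' : L.pt f' (L.lam (g • f) (X.ty a)) = L.pt (g • f) (L.lam (g • f) (X.ty a)) := by
      apply Subtype.ext
      have h1 : (L.pt (g • f) (L.lam (g • f) (X.ty a))).1 = (L.pt f' (L.lam f' (X.ty a'))).1 :=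
        congrArg Prod.fst he
      rw [h1, ← hj]
    have key := f_induct_j hX (fun i => (hS.tree i).connected) L (L.lam (g • f) (X.ty a))
      (fun f'' => ∀ a'' b'', X.o a'' = L.p f'' → X.o b'' = L.p f'' → X.mv a'' → X.mv b'' →
        mvE L f'' a'' = mvE L (g • f) a → mvE L f'' b'' = mvE L (g • f) b →
        Par2 X a b a'' b'') (g • f)
      (by
        intro a'' b'' h1 h1' h2 h2' h3 h3'
        obtain ⟨s, hs1, hs2⟩ := mvE_eqv hX L ha1 h1 hm h2 h3.symm
        obtain ⟨s', hs1', hs2'⟩ := mvE_eqv hX L hb1 h1' hn h2' h3'.symm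
        rw [hs2, hs2']
        exact Par2.mr2 _ b s' (Par2.mr1 a b s Par2.refl hs1) hs1')
      (by
        intro f2 c hc hcj ih a'' b'' h1 h1' h2 h2' h3 h3'
        by_cases hmc : X.mv c
        · obtain ⟨a1, b1, d, s, e1, e2, e3, e4, e5, e6⟩ := mvE_move hX L hc hmc h1 h2 (by
            rw [h3, mvE_kap L (g • f) a]
            exact hcj hmc)
          obtain ⟨a1', b1', d', s', e1', e2', e3', e4', e5', e6'⟩ :=
            mvE_move hX L hc hmc h1' h2' (by
              rw [h3', mvE_kap L (g • f) b, ← hjab]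
              exact hcj hmc)
          have h4 := ih a1 a1' e1 e1' e2 e2' (e3.trans h3) (e3'.trans h3')
          rw [e6, e6']
          exact Par2.mr2 _ d' s' (Par2.mr1 d d' s (Par2.sq a1 a1' c b1 b1' d d' h4 e4 e4') e5) e5'
        · have hl : X.lc c a'' := ⟨hmc, by rw [h1, L.act_p f2 c hc]⟩
          have hl' : X.lc c b'' := ⟨hmc, by rw [h1', L.act_p f2 c hc]⟩
          have h4 := ih (X.ml c a'') (X.ml c b'') (by rw [hX.mlo _ _ hl]; exact hc)
            (by rw [hX.mlo _ _ hl']; exact hc) ((hX.mlm _ _ hl).2 h2) ((hX.mlm _ _ hl').2 h2')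
            (by rw [← mvE_ml hX L hc hl h2]; exact h3)
            (by rw [← mvE_ml hX L hc hl' h2']; exact h3')
          have h5 := val_mli hX hl
          have h5' := val_mli hX hl'
          rw [← h5, ← h5']
          exact Par2.ml _ _ _ h4
            ⟨fun hm => hmc ((hX.mi c).1 hm), by rw [hX.ti, hX.mlo _ _ hl]⟩)
      f' hf'
    exact key a' b' ha' hb' hm' hn' he.symm he'.symm

end

end LatF
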