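import Pool.Agent.Lib.MP_32d917_al.FDefs
import Pool.Agent.Lib.MP_32d917_al.F.PAR
import Pool.Agent.Lib.MP_32d917_al.F.PARB

/-!
# slides of the forest and legal slides of the data

Let `(v, x)`, `(v, u)` be the two edges. A frame `f` with coordinate `v` in the component of `v` exists (extend `v` to a point, `onto`); `a`, `b` = arrows at `f` moving `(v, x)`, `(v, u)` (`sur`). Conversely given `a`, `b` take a frame `f` over their origin (`hL.onto`), `(v, x) = mvE L f a`, `(v, u) = mvE L f b`.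
Legal ⟺ conditions of `Slide`: `Par X a b` ⟺ some `g` maps `(v, x)` to `(v, u)` (par_iff at `f`, `f`); `Par X a (i b)` ⟺ some `g` maps `(v, x)` to `(u, v)` (par_iff at `f`, `act f b`: `i b` moves `(u, v)` there). uniq: `Par2 X a b a b'` with `b'` at `f`: par2_iff gives `g` with `g v = v`, `g x = x`, `g u = u'` where `(v, u') = mvE L f b'`; so `stab v ∩ stab x ≤ stab u` gives
`u' = u` and `b' ~ b`. (By `Par2` the arrow `b'` has the origin and the type of `a`: induction or small lemma: `Par2 X a b a' b'` implies `o a' = o b'`, `ty a' = ty b'`, moving.) Conversely if `g` fixes `v`, `x` let `b'` be the arrow at `f` moving `(v, g u)`: `Par2 X a b a b'`, so `b' ~ b`, `g u = u`.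
Existence of `S'` in slide_of_legal: `Adj c d` as in `SlAt`, made irreflexive automatically (`u ≠ x` since `a`, `b` are not equivalent: `Par X a b` would hold).
-/

set_option autoImplicit false

namespace LatF

open LatIso LatN

section stp

variable {ι' : Type} {V : ι' → Type}

private theorem FLEG_stp_ne {S : ∀ i, SimpleGraph (V i)} {i : ι'} {x y : ∀ i, V i}
    (h : Stp S i x y) : x ≠ y := fun e => h.1.ne (congrFun e i)

private theorem FLEG_stp_idx {S S' : ∀ i, SimpleGraph (V i)} {i j : ι'} {x y : ∀ i, V i}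
    (h : Stp S i x y) (h' : Stp S' j x y) : j = i := by
  by_contra hc
  exact h'.1.ne (h.2 j hc).symm

end stp

section frames

variable {ι P A : Type} {X : FD ι P A} {ι' : Type} {V : ι' → Type}
  {S : ∀ i, SimpleGraph (V i)} {F : Type}

private theorem FLEG_lam_i (hX : Valid0 X) (L : LF X S F) {f : F} {c : A} (ho : X.o c = L.p f)
    (hm : X.mv c) : L.lam (L.act f c) (X.ty (X.i c)) = L.lam f (X.ty c) := by
  rw [hX.tyi c hm, L.act_lam f c ho]

private theorem FLEG_stat (L : LF X S F) {f f' : F} (h : L.pt f' = L.pt f) :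
    ∃ s, X.o s = L.p f ∧ ¬ X.mv s ∧ L.act f s = f' := by
  obtain ⟨s, h1, h2⟩ := L.sur f f' (Or.inl h)
  refine ⟨s, h1, fun hm => ?_, h2⟩
  have h3 := L.mo f s h1 hm
  rw [h2] at h3
  exact FLEG_stp_ne h3 h.symm

private theorem FLEG_move (L : LF X S F) {f f' : F} {i : ι'} (h : Stp S i (L.pt f) (L.pt f')) :
    ∃ c, X.o c = L.p f ∧ X.mv c ∧ L.act f c = f' ∧ L.lam f (X.ty c) = i := by
  obtain ⟨c, h1, h2⟩ := L.sur f f' (Or.inr ⟨i, h⟩)
  have hm : X.mv c := by
    by_contra hc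
    have h3 := L.st f c h1 hc
    rw [h2] at h3
    exact FLEG_stp_ne h h3.symm
  have h3 := L.mo f c h1 hm
  rw [h2] at h3
  exact ⟨c, h1, hm, h2, FLEG_stp_idx h h3⟩

private theorem FLEG_mr (hX : Valid0 X) (L : LF X S F) {f : F} {m s : A} (hm : X.o m = L.p f)
    (hrc : X.rc m s) : L.act f (X.mr m s) = L.act (L.act f m) s := by
  have p1 : L.p (L.act f m) = X.t m := L.act_p f m hm
  have hs : X.o s = L.p (L.act f m) := hrc.2.trans p1.symm
  have p2 : L.p (L.act (L.act f m) s) = X.t s := L.act_p _ s hs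
  have his : X.o (X.i s) = L.p (L.act (L.act f m) s) := by rw [hX.oi, p2]
  have hlc : X.lc (X.i s) (X.i m) := by
    refine ⟨fun hc => hrc.1 ((hX.mi s).1 hc), ?_⟩
    rw [hX.ti, hX.oi, hrc.2]
  have e1 := L.act_ml (L.act (L.act f m) s) (X.i s) (X.i m) his hlc
  rw [L.act_i _ s hs, L.act_i f m hm] at e1
  have e2 := L.act_i (L.act (L.act f m) s) (X.ml (X.i s) (X.i m)) ((hX.mlo _ _ hlc).trans his)
  rw [e1] at e2
  exact e2

/-- two arrows at `f` leading to frames over the same point are equivalent -/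
private theorem FLEG_eqv (hX : Valid0 X) (L : LF X S F) {f : F} {b b' : A} (hb : X.o b = L.p f)
    (hb' : X.o b' = L.p f) (h : L.pt (L.act f b') = L.pt (L.act f b)) : X.eqv b b' := by
  obtain ⟨s, s1, s2, s3⟩ := FLEG_stat L h
  have hrc : X.rc b s := ⟨s2, by rw [s1, L.act_p f b hb]⟩
  refine ⟨s, hrc, ?_⟩
  refine L.inj f _ _ hb' ((val_mro hX hrc).trans hb) ?_
  rw [FLEG_mr hX L hb hrc, s3]

end frames

section par

variable {ι P A : Type} {X : FD ι P A}

private theorem FLEG_pm_inj (hX : Valid0 X) (a : A) {k k' : ι} (h : X.pm a k = X.pm a k') :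
    k = k' := by
  rw [← hX.pi a k, h, hX.pi]

private theorem FLEG_par2 (hX : Valid0 X) {a b a' b' : A} (h : Par2 X a b a' b') (ha : X.mv a)
    (hb : X.mv b) (ho : X.o a = X.o b) (ht : X.ty a = X.ty b) :
    X.mv a' ∧ X.mv b' ∧ X.o a' = X.o b' ∧ X.ty a' = X.ty b' := by
  induction h with
  | refl => exact ⟨ha, hb, ho, ht⟩
  | ml a' b' s _ hs ih =>
    obtain ⟨h1, h2, h3, h4⟩ := ih
    have hs' : X.lc s b' := ⟨hs.1, hs.2.trans h3⟩
    refine ⟨(hX.mlm s a' hs).2 h1, (hX.mlm s b' hs').2 h2, ?_, ?_⟩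
    · rw [hX.mlo s a' hs, hX.mlo s b' hs']
    · apply FLEG_pm_inj hX s
      rw [hX.mly s a' hs h1, hX.mly s b' hs' h2, h4]
  | mr1 a' b' s _ hs ih =>
    obtain ⟨h1, h2, h3, h4⟩ := ih
    exact ⟨(val_mrm hX hs).2 h1, h2, (val_mro hX hs).trans h3, (val_mry hX hs h1).trans h4⟩
  | mr2 a' b' s _ hs ih =>
    obtain ⟨h1, h2, h3, h4⟩ := ih
    exact ⟨h1, (val_mrm hX hs).2 h2, h3.trans (val_mro hX hs).symm,
      h4.trans (val_mry hX hs h2).symm⟩
  | sq a' b' c c₁ c₂ d₁ d₂ _ hs1 hs2 ih =>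
    obtain ⟨h1, h2, h3, h4⟩ := ih
    have t1 := hX.sqT _ _ _ _ hs1
    have t2 := hX.sqT _ _ _ _ hs2
    refine ⟨t1.md, t2.md, t1.tcd.symm.trans t2.tcd, ?_⟩
    rw [t1.tyd, t2.tyd, h4]

end par

section

variable {ι P A : Type} {X : FD ι P A} {G : Type} [Group G] {V ι' : Type}
  [Fintype ι'] [MulAction G V] [MulAction G ι'] {κ : V → ι'} {S S' : SimpleGraph V}

private theorem FLEG_rev {F : Type} (hX : Valid0 X) (L : LF X (comp κ S) F) {f : F} {c : A}
    (ho : X.o c = L.p f) (hm : X.mv c) :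
    mvE L (L.act f c) (X.i c) = ((mvE L f c).2, (mvE L f c).1) := by
  unfold mvE
  rw [FLEG_lam_i hX L ho hm, L.act_i f c ho]

/-- an arrow moving the coordinate `j` of `f` to the vertex `w` -/
private theorem FLEG_arr {F : Type} (hS : Forest κ S) (L : LF X (comp κ S) F) {f : F} {j : ι'}
    {w : V} (hw : S.Adj (L.pt f j).1 w) : ∃ c, X.o c = L.p f ∧ X.mv c ∧ L.lam f (X.ty c) = j ∧
      mvE L f c = ((L.pt f j).1, w) ∧ ∀ k, k ≠ j → L.pt (L.act f c) k = L.pt f k := by
  classical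
  have hκ : κ w = j := by
    rw [← hS.kap _ _ hw]
    exact (L.pt f j).2
  obtain ⟨f', hf'⟩ := L.onto (Function.update (L.pt f) j ⟨w, hκ⟩)
  have p1 : L.pt f' j = ⟨w, hκ⟩ := by rw [hf', Function.update_self]
  have hst : Stp (comp κ S) j (L.pt f) (L.pt f') := by
    refine ⟨?_, fun k hk => by rw [hf', Function.update_of_ne hk]⟩
    show S.Adj _ _
    rw [p1]
    exact hw
  obtain ⟨c, c1, c2, c3, c4⟩ := FLEG_move L hst
  refine ⟨c, c1, c2, c4, ?_, ?_⟩
  · unfold mvE
    rw [c4, c3, p1]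
  · rw [c3]
    exact hst.2

/-- every slide of `S` is a legal slide of the data -/
theorem legal_of_slide {F : Type} [MulAction G F] (hX : Valid X) (h : FLat0 G κ S)
    {L : LF X (comp κ S) F} (hL : Cov G L) (hs : Slide G S S') :
    ∃ a b : A, Legal X a b ∧ SlAt G L S' a b := by
  classical
  obtain ⟨v, x, u, hvx, hvu, n1, n2, n3, hS'⟩ := hs
  have hX0 := hX.v0
  have hne : ∀ i, Nonempty (Fib κ i) := fun i => (h.forest.tree i).connected.nonempty
  obtain ⟨f, hf⟩ := L.onto (Function.update (fun i => Classical.choice (hne i)) (κ v) ⟨v, rfl⟩)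
  have hfv : (L.pt f (κ v)).1 = v := by rw [hf, Function.update_self]
  obtain ⟨a, a1, a2, a3, a4, a5⟩ := FLEG_arr h.forest L (f := f) (j := κ v) (w := x)
    (by rw [hfv]; exact hvx)
  obtain ⟨b, b1, b2, b3, b4, b5⟩ := FLEG_arr h.forest L (f := f) (j := κ v) (w := u)
    (by rw [hfv]; exact hvu)
  rw [hfv] at a4 b4
  have ht : X.ty a = X.ty b := (L.bij f).1 (a3.trans b3.symm)
  have hob : X.o a = X.o b := a1.trans b1.symm
  refine ⟨a, b, ⟨a2, b2, hob, ht, fun hp => ?_, fun hp => ?_, fun b' hp => ?_⟩, f, a1, ?_⟩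
  · obtain ⟨g, g1, g2⟩ := (par_iff hX0 h.forest hL f f a b a1 b1 a2 b2).1 hp
    rw [a4, b4] at g1 g2
    exact n1 g ⟨g1, g2⟩
  · have ho : X.o (X.i b) = L.p (L.act f b) := by rw [hX0.oi, L.act_p _ _ b1]
    obtain ⟨g, g1, g2⟩ := (par_iff hX0 h.forest hL f (L.act f b) a (X.i b) a1 ho a2
      ((hX0.mi b).2 b2)).1 hp
    rw [FLEG_rev hX0 L b1 b2, a4, b4] at g1 g2
    exact n2 g ⟨g1, g2⟩
  · obtain ⟨c1, c2, c3, c4⟩ := FLEG_par2 hX0 hp a2 b2 hob ht
    have hob' : X.o b' = L.p f := c3.symm.trans a1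
    obtain ⟨g, g1, g2, g3⟩ := (par2_iff hX0 h.forest hL f f a b a b' a1 b1 a1 hob' a2 b2 c1 c2 ht
      c4).1 hp
    rw [a4] at g1 g2
    rw [b4] at g3
    have g4 : (mvE L f b').2 = u := by
      rw [← g3]
      exact n3 g g1 g2
    have hlam : L.lam f (X.ty b') = κ v := by rw [← c4, a3]
    have hlamb : L.lam f (X.ty b) = κ v := b3
    refine FLEG_eqv hX0 L b1 hob' ?_
    funext k
    by_cases hk : k = κ v
    · apply Subtype.ext
      have e1 : (L.pt (L.act f b') (κ v)).1 = u := by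
        have := g4
        unfold mvE at this
        rw [hlam] at this
        exact this
      have e2 : (L.pt (L.act f b) (κ v)).1 = u := by
        have := congrArg Prod.snd b4
        unfold mvE at this
        rw [hlamb] at this
        exact this
      rw [hk, e1, e2]
    · have e1 := (L.mo f b' hob' c2).2 k (by rw [hlam]; exact hk)
      rw [e1, b5 k hk]
  · intro c d
    rw [a4, b4]
    exact hS' c d

/-- every legal slide of the data is a slide of `S` -/
theorem slide_of_legal {F : Type} [MulAction G F] (hX : Valid X) (h : FLat0 G κ S)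
    {L : LF X (comp κ S) F} (hL : Cov G L) {a b : A} (hl : Legal X a b) :
    ∃ S' : SimpleGraph V, Slide G S S' ∧ SlAt G L S' a b := by
  classical
  have hX0 := hX.v0
  obtain ⟨f, hf⟩ := hL.onto (X.o a)
  have a1 : X.o a = L.p f := hf.symm
  have b1 : X.o b = L.p f := hl.o.symm.trans a1
  obtain ⟨v, hv⟩ : ∃ v, v = (mvE L f a).1 := ⟨_, rfl⟩
  obtain ⟨x, hx⟩ : ∃ x, x = (mvE L f a).2 := ⟨_, rfl⟩
  obtain ⟨u, hu⟩ : ∃ u, u = (mvE L f b).2 := ⟨_, rfl⟩
  have hbv : (mvE L f b).1 = v := by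
    rw [hv]
    unfold mvE
    rw [hl.ty]
  have hvx : S.Adj v x := by
    rw [hv, hx]
    exact (L.mo f a a1 hl.ma).1
  have hvu : S.Adj v u := by
    rw [← hbv, hu]
    exact (L.mo f b b1 hl.mb).1
  have hux : u ≠ x := by
    intro he
    apply hl.n1
    have hq : X.eqv a b := by
      refine FLEG_eqv hX0 L a1 b1 ?_
      funext k
      by_cases hk : k = L.lam f (X.ty a)
      · apply Subtype.ext
        have e1 : (L.pt (L.act f b) (L.lam f (X.ty a))).1 = u := by
          rw [hu, hl.ty]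
          rfl
        have e2 : (L.pt (L.act f a) (L.lam f (X.ty a))).1 = x := by
          rw [hx]
          rfl
        rw [hk, e1, e2, he]
      · rw [(L.mo f a a1 hl.ma).2 k hk, (L.mo f b b1 hl.mb).2 k (by rw [← hl.ty]; exact hk)]
    obtain ⟨s, s1, s2⟩ := hq
    rw [s2]
    exact Par.mr a s Par.refl s1
  let S' : SimpleGraph V :=
    { Adj := fun c d => (S.Adj c d ∧ ∀ g : G, ¬ (g • v = c ∧ g • x = d) ∧
          ¬ (g • v = d ∧ g • x = c)) ∨
        ∃ g : G, (g • u = c ∧ g • x = d) ∨ (g • u = d ∧ g • x = c)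
      symm := ⟨by
        intro c d hcd
        rcases hcd with ⟨h1, h2⟩ | ⟨g, h1⟩
        · exact Or.inl ⟨h1.symm, fun g => ⟨(h2 g).2, (h2 g).1⟩⟩
        · exact Or.inr ⟨g, h1.symm⟩⟩
      loopless := ⟨by
        intro c hc
        rcases hc with ⟨h1, _⟩ | ⟨g, ⟨h1, h2⟩ | ⟨h1, h2⟩⟩
        · exact h1.ne rfl
        · exact hux (smul_left_cancel g (h1.trans h2.symm))
        · exact hux (smul_left_cancel g (h1.trans h2.symm))⟩ }
  refine ⟨S', ⟨v, x, u, hvx, hvu, fun g hg => ?_, fun g hg => ?_, fun g g1 g2 => ?_,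
    fun c d => Iff.rfl⟩, f, a1, fun c d => ?_⟩
  · apply hl.n1
    refine (par_iff hX0 h.forest hL f f a b a1 b1 hl.ma hl.mb).2 ⟨g, ?_, ?_⟩
    · rw [← hv, hbv]
      exact hg.1
    · rw [← hx, ← hu]
      exact hg.2
  · apply hl.n2
    have ho : X.o (X.i b) = L.p (L.act f b) := by rw [hX0.oi, L.act_p _ _ b1]
    refine (par_iff hX0 h.forest hL f (L.act f b) a (X.i b) a1 ho hl.ma
      ((hX0.mi b).2 hl.mb)).2 ⟨g, ?_, ?_⟩
    · rw [FLEG_rev hX0 L b1 hl.mb, ← hv, ← hu]
      exact hg.1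
    · rw [FLEG_rev hX0 L b1 hl.mb, ← hx, hbv]
      exact hg.2
  · have hgu : S.Adj (L.pt f (L.lam f (X.ty a))).1 (g • u) := by
      have h1 := h.act.adj g _ _ hvu
      rw [g1] at h1
      have h2 : (L.pt f (L.lam f (X.ty a))).1 = v := by
        rw [hv]
        rfl
      rw [h2]
      exact h1
    obtain ⟨b', c1, c2, c3, c4, c5⟩ := FLEG_arr h.forest L hgu
    have ht' : X.ty a = X.ty b' := ((L.bij f).1 c3).symm
    have hp : Par2 X a b a b' := by
      refine (par2_iff hX0 h.forest hL f f a b a b' a1 b1 a1 c1 hl.ma hl.mb hl.ma c2 hl.ty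
        ht').2 ⟨g, ?_, ?_, ?_⟩
      · rw [← hv]
        exact g1
      · rw [← hx]
        exact g2
      · rw [c4, ← hu]
    obtain ⟨s, s1, s2⟩ := hl.uniq b' hp
    have e1 : L.pt (L.act f b') = L.pt (L.act f b) := by
      rw [s2, FLEG_mr hX0 L b1 s1]
      exact L.st _ s (by rw [s1.2, L.act_p f b b1]) s1.1
    have e2 : (mvE L f b').2 = (mvE L f b).2 := by
      unfold mvE
      rw [← ht', e1, hl.ty]
    rw [c4, ← hu] at e2
    exact e2
  · rw [← hv, ← hx, ← hu]

end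

end LatF
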