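import Pool.Agent.Lib.MP_32d917_al.FDefs
import Pool.Agent.Lib.MP_32d917_al.F.FTLAT
import Pool.Agent.Lib.MP_32d917_al.F.SLF
import Pool.Agent.Lib.MP_32d917_al.N.NS4

/-!
# two forests on the same vertices differ by slides

For a component `i` and a graph `R` on `Fib κ i` let `lift S i R` be the graph on `V` with `Adj a b` iff (`S.Adj a b` and `κ a` is not in the
`G`-orbit of `i`) or there are `g : G`, `c d : Fib κ i` with `R.Adj c d`, `g • c.1 = a`, `g • d.1 = b`. (Make it a SimpleGraph: symmetric;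
irreflexive since `R` is.) Facts: (1) `lift S i (comp κ S i) = S` if `S` satisfies `FAct`, `kap` of Forest: an edge over the orbit of `i` is moved by
some `g` to an edge over `i`. (2) if `Slide (stabilizer G i) R R'` and `R`, `R'` are invariant under the stabilizer, then `Slide G (lift S i R) (lift S i R')`:
same `v x u`; elements of `G` mapping a vertex over `i` to a vertex over `i` are in the stabilizer of `i`. Only graphs
reachable by slides from a stabilizer-invariant graph are needed (invariance is preserved, `slide_ta`).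
(3) if `S'` agrees with `S` outside the orbit of `i`, then `lift S i (comp κ S' i) = S'`.
Proof of the theorem: induction over a finite set `J` of components closed under `G`... more simply: order the
components, for `J : Finset ι` let `S_J` be the graph with `S_J.Adj a b` iff (κ a is in the orbit of some `j ∈ J` and `S'.Adj a b`) or (not, and `S.Adj a b`).
`S_∅ = S`, `S_univ = S'`, and `S_(insert i J)` is reached from `S_J`: if `i` is in the orbit of some `j ∈ J` they are equal; otherwise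
`comp κ S_J i = comp κ S i`, and `tniel` (N/NS4) for the group `stabilizer G i` and the `TLat`s `comp κ S i`, `comp κ S' i` (flat_tlat; use
`haveI : Fact (KEq G κ) := ⟨L.act.kap⟩`) gives the chain of slides, lifted by (2).
-/

set_option autoImplicit false

namespace LatF

open LatIso LatN

section

variable {G : Type} [Group G] {V ι : Type} [Fintype ι] [MulAction G V] [MulAction G ι]
  {κ : V → ι} {S S' : SimpleGraph V}

/-- the graph `S` with the components in the orbit of `i` replaced by the translates of `R` -/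
private def fnl_lift (G : Type) [Group G] {V ι : Type} [MulAction G V] [MulAction G ι]
    (κ : V → ι) (S : SimpleGraph V) (i : ι) (R : SimpleGraph (Fib κ i)) : SimpleGraph V where
  Adj a b := (S.Adj a b ∧ (∀ g : G, g • i ≠ κ a) ∧ ∀ g : G, g • i ≠ κ b) ∨
    ∃ (g : G) (c d : Fib κ i), R.Adj c d ∧ g • c.1 = a ∧ g • d.1 = b
  symm := ⟨by
    rintro a b (⟨h1, h2, h3⟩ | ⟨g, c, d, h1, h2, h3⟩)
    · exact Or.inl ⟨h1.symm, h3, h2⟩
    · exact Or.inr ⟨g, d, c, h1.symm, h3, h2⟩⟩
  loopless := ⟨by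
    rintro a (⟨h1, h2, h3⟩ | ⟨g, c, d, h1, h2, h3⟩)
    · exact h1.ne rfl
    · exact h1.ne (Subtype.ext (MulAction.injective g (h2.trans h3.symm)))⟩

private theorem fnl_lift_adj (i : ι) (R : SimpleGraph (Fib κ i)) (a b : V) :
    (fnl_lift G κ S i R).Adj a b ↔ ((S.Adj a b ∧ (∀ g : G, g • i ≠ κ a) ∧ ∀ g : G, g • i ≠ κ b) ∨
      ∃ (g : G) (c d : Fib κ i), R.Adj c d ∧ g • c.1 = a ∧ g • d.1 = b) := Iff.rfl

/-- the edges of the lift of a component of `S'` over the orbit of `i` are those of `S'` -/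
private theorem fnl_in (hk' : ∀ x y, S'.Adj x y → κ x = κ y) (A' : FAct G κ S') (i : ι) (a b : V)
    (h : ∃ g : G, g • i = κ a) :
    (fnl_lift G κ S i (comp κ S' i)).Adj a b ↔ S'.Adj a b := by
  obtain ⟨g, hg⟩ := h
  rw [fnl_lift_adj]
  constructor
  · rintro (⟨-, h2, -⟩ | ⟨k, c, d, h1, rfl, rfl⟩)
    · exact absurd hg (h2 g)
    · exact A'.adj k _ _ h1
  · intro hab
    have e1 : κ (g⁻¹ • a) = i := by rw [A'.kap, ← hg, inv_smul_smul]
    have e2 : κ (g⁻¹ • b) = i := by rw [A'.kap, ← hk' _ _ hab, ← hg, inv_smul_smul]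
    exact Or.inr ⟨g, ⟨g⁻¹ • a, e1⟩, ⟨g⁻¹ • b, e2⟩, A'.adj g⁻¹ _ _ hab, smul_inv_smul _ _,
      smul_inv_smul _ _⟩

/-- outside the orbit of `i` nothing changes -/
private theorem fnl_out (hk : ∀ x y, S.Adj x y → κ x = κ y) (hq : KEq G κ) (i : ι)
    (R : SimpleGraph (Fib κ i)) (a b : V) (h : ∀ g : G, g • i ≠ κ a) :
    (fnl_lift G κ S i R).Adj a b ↔ S.Adj a b := by
  rw [fnl_lift_adj]
  constructor
  · rintro (⟨h1, -, -⟩ | ⟨k, c, d, h1, rfl, rfl⟩)
    · exact h1
    · exact absurd (by rw [hq, c.2]) (h k)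
  · intro hab
    exact Or.inl ⟨hab, h, by rw [← hk _ _ hab]; exact h⟩

private theorem fnl_base (L : FLat0 G κ S) (i : ι) : fnl_lift G κ S i (comp κ S i) = S := by
  ext a b
  by_cases h : ∃ g : G, g • i = κ a
  · exact fnl_in L.forest.kap L.act i a b h
  · push Not at h
    exact fnl_out L.forest.kap L.act.kap i _ a b h

private theorem fnl_step [hq : Fact (KEq G κ)] (i : ι) (R R' : SimpleGraph (Fib κ i))
    (h : Slide (MulAction.stabilizer G i) R R') :
    Slide G (fnl_lift G κ S i R) (fnl_lift G κ S i R') := by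
  obtain ⟨v, x, u, hvx, hvu, s1, s2, s3, s4⟩ := h
  -- elements mapping a vertex over `i` to a vertex over `i`
  have key : ∀ (g : G) (c d : Fib κ i), g • c.1 = d.1 → g ∈ MulAction.stabilizer G i := by
    intro g c d hcd
    rw [MulAction.mem_stabilizer_iff]
    have := hq.out g c.1
    rw [hcd, c.2, d.2] at this
    exact this.symm
  refine ⟨v.1, x.1, u.1, Or.inr ⟨1, v, x, hvx, one_smul _ _, one_smul _ _⟩,
    Or.inr ⟨1, v, u, hvu, one_smul _ _, one_smul _ _⟩, ?_, ?_, ?_, ?_⟩
  · rintro g ⟨h1, h2⟩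
    exact s1 ⟨g, key g _ _ h1⟩ ⟨Subtype.ext h1, Subtype.ext h2⟩
  · rintro g ⟨h1, h2⟩
    exact s2 ⟨g, key g _ _ h1⟩ ⟨Subtype.ext h1, Subtype.ext h2⟩
  · intro g h1 h2
    exact congrArg Subtype.val (s3 ⟨g, key g _ _ h1⟩ (Subtype.ext h1) (Subtype.ext h2))
  · intro a b
    have key2 : ∀ (g h : G) (c d : Fib κ i), h • c.1 = g • d.1 → (g⁻¹ * h) • c.1 = d.1 := by
      intro g h c d e
      rw [mul_smul, e, inv_smul_smul]
    rw [fnl_lift_adj, fnl_lift_adj]
    constructor
    · rintro (⟨h1, h2, h3⟩ | ⟨g, c, d, h1, h2, h3⟩)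
      · refine Or.inl ⟨Or.inl ⟨h1, h2, h3⟩, fun g => ⟨?_, ?_⟩⟩
        · rintro ⟨e1, -⟩
          exact h2 g (by rw [← e1, hq.out, v.2])
        · rintro ⟨e1, -⟩
          exact h3 g (by rw [← e1, hq.out, v.2])
      · rcases (s4 c d).mp h1 with ⟨h4, h5⟩ | ⟨k, ⟨h4, h5⟩ | ⟨h4, h5⟩⟩
        · refine Or.inl ⟨Or.inr ⟨g, c, d, h4, h2, h3⟩, fun k => ⟨?_, ?_⟩⟩
          · rintro ⟨e1, e2⟩
            have f1 := key2 g k v c (e1.trans h2.symm)
            have f2 := key2 g k x d (e2.trans h3.symm)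
            exact (h5 ⟨g⁻¹ * k, key _ _ _ f1⟩).1 ⟨Subtype.ext f1, Subtype.ext f2⟩
          · rintro ⟨e1, e2⟩
            have f1 := key2 g k v d (e1.trans h3.symm)
            have f2 := key2 g k x c (e2.trans h2.symm)
            exact (h5 ⟨g⁻¹ * k, key _ _ _ f1⟩).2 ⟨Subtype.ext f1, Subtype.ext f2⟩
        · refine Or.inr ⟨g * k, Or.inl ⟨?_, ?_⟩⟩
          · rw [mul_smul, ← h2]; exact congrArg (fun z : Fib κ i => g • z.1) h4
          · rw [mul_smul, ← h3]; exact congrArg (fun z : Fib κ i => g • z.1) h5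
        · refine Or.inr ⟨g * k, Or.inr ⟨?_, ?_⟩⟩
          · rw [mul_smul, ← h3]; exact congrArg (fun z : Fib κ i => g • z.1) h4
          · rw [mul_smul, ← h2]; exact congrArg (fun z : Fib κ i => g • z.1) h5
    · rintro (⟨⟨h1, h2, h3⟩ | ⟨g, c, d, h1, h2, h3⟩, h5⟩ | ⟨g, ⟨h1, h2⟩ | ⟨h1, h2⟩⟩)
      · exact Or.inl ⟨h1, h2, h3⟩
      · refine Or.inr ⟨g, c, d, (s4 c d).mpr (Or.inl ⟨h1, fun k => ⟨?_, ?_⟩⟩), h2, h3⟩
        · rintro ⟨e1, e2⟩
          refine (h5 (g * k)).1 ⟨?_, ?_⟩
          · rw [mul_smul, ← h2]; exact congrArg (fun z : Fib κ i => g • z.1) e1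
          · rw [mul_smul, ← h3]; exact congrArg (fun z : Fib κ i => g • z.1) e2
        · rintro ⟨e1, e2⟩
          refine (h5 (g * k)).2 ⟨?_, ?_⟩
          · rw [mul_smul, ← h3]; exact congrArg (fun z : Fib κ i => g • z.1) e1
          · rw [mul_smul, ← h2]; exact congrArg (fun z : Fib κ i => g • z.1) e2
      · exact Or.inr ⟨g, u, x, (s4 u x).mpr (Or.inr ⟨1, Or.inl ⟨one_smul _ _, one_smul _ _⟩⟩),
          h1, h2⟩
      · exact Or.inr ⟨g, x, u, (s4 x u).mpr (Or.inr ⟨1, Or.inr ⟨one_smul _ _, one_smul _ _⟩⟩),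
          h2, h1⟩

private theorem fnl_flat (L : FLat0 G κ S) {U : SimpleGraph V}
    (h : Relation.ReflTransGen (Slide G) S U) : FLat0 G κ U := by
  induction h with
  | refl => exact L
  | tail _ h ih => exact slide_flat ih h

/-- one orbit of components -/
private theorem fnl_orbit (L : FLat0 G κ S) (L' : FLat0 G κ S') (i : ι) :
    Relation.ReflTransGen (Slide G) S (fnl_lift G κ S i (comp κ S' i)) := by
  have : Fact (KEq G κ) := ⟨L.act.kap⟩
  have h := tniel (flat_tlat L i) (flat_tlat L' i)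
  have key : ∀ R, Relation.ReflTransGen (Slide (MulAction.stabilizer G i)) (comp κ S i) R →
      Relation.ReflTransGen (Slide G) S (fnl_lift G κ S i R) := by
    intro R hR
    induction hR with
    | refl => rw [fnl_base L i]
    | tail _ h ih => exact ih.tail (fnl_step i _ _ h)
  exact key _ h

theorem fniel (L : FLat0 G κ S) (L' : FLat0 G κ S') : Relation.ReflTransGen (Slide G) S S' := by
  classical
  have key : ∀ J : Finset ι, ∃ U : SimpleGraph V, Relation.ReflTransGen (Slide G) S U ∧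
      ∀ a b, (∃ j ∈ J, ∃ g : G, g • j = κ a) → (U.Adj a b ↔ S'.Adj a b) := by
    intro J
    induction J using Finset.induction_on with
    | empty => exact ⟨S, Relation.ReflTransGen.refl, by rintro a b ⟨j, hj, -⟩; simp at hj⟩
    | insert i J hi ih =>
      obtain ⟨U, hU, hUJ⟩ := ih
      have LU := fnl_flat L hU
      refine ⟨_, hU.trans (fnl_orbit LU L' i), ?_⟩
      rintro a b ⟨j, hj, g, hg⟩
      by_cases h : ∃ g : G, g • i = κ a
      · exact fnl_in L'.forest.kap L'.act i a b h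
      · push Not at h
        rw [fnl_out LU.forest.kap LU.act.kap i _ a b h]
        rcases Finset.mem_insert.mp hj with rfl | hj
        · exact absurd hg (h g)
        · exact hUJ a b ⟨j, hj, g, hg⟩
  obtain ⟨U, hU, hUJ⟩ := key Finset.univ
  have : U = S' := by
    ext a b
    exact hUJ a b ⟨κ a, Finset.mem_univ _, 1, one_smul _ _⟩
  rw [← this]
  exact hU

end

end LatF
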