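import Pool.Agent.Lib.MP_32d917_al.FDefs

/-!
# the canonical data of an action

Choose for every `q : P` a frame `z q` with `p (z q) = q` (ponto) and for every frame `f` the unique `γ f : G` with `γ f • z (p f) = f` (trans, free); `γ (g • f) = g * γ f`. Near: `N f f'` iff `pt f' = pt f` or
`∃ i, Stp (comp κ S) i (pt f) (pt f')`; it is `G`-invariant (gpt, FAct) and symmetric. Arrows: `A₀ = {(q, f') // N (z q) f'}`. It is finite: the points near `pt (z q)` are finite in number (`loc`, finitely many components) and over every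
point there are finitely many frames (`same`, `trans`: they are `g • f` with `Mv g x x`, `prop`; injective). `o (q, f') = q`, `t (q, f') = p f'`, `e q = (q, z q)`, `mv (q, f') := pt f' ≠ pt (z q)`, `i (q, f') = (p f', (γ f')⁻¹ • z q)`, action on frames:
`act f (q, f') = γ f • f'` (so `act (z q) (q, f') = f'`), `ml a b = (q, γ f' • f'')` for `a = (q, f')`, `b = (r, f'')` if this is near, else `a`; `ty (q, f')`: the label `k` such that `lam (z q) k` is the coordinate which changes if `mv` (else any element of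
`ι`, nonempty since `ι'` is nonempty and `lam` is bijective); `pm (q, f') k = (lam f')⁻¹ (lam (z q) k)`; `sq a b c d := SqT a b c d ∧ act (act (z (o a)) a) b = act (act (z (o a)) c) d`.
LF: `act_p`, `act_lam`, ... all follow from equivariance, reducing to `f = z q`; `sur`: the arrow from `f` to `f'` is `(p f, (γ f)⁻¹ • f')`; `inj`. Then Valid0: every axiom is an identity between arrows with the same origin
`q`; evaluate at the frame `z q` and use `inj`, `act_*`, `sq_of`. For `sqe`: the frame `f₂ = act (act (z q) a) b` differs from `z q` in two coordinates `i ≠ j`; choose a frame `f₃` over the point which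
agrees with `z q` except in the coordinate `j`, where it agrees with `f₂`; `c`, `d` the arrows `z q → f₃ → f₂`. `squ`: both `c`, `c'` lead to frames over the same point (the coordinate `j` of the common end), so `c' = mr c s`. `cube`: put
`f₁ = act (act (act f a) b₁) c₁'`, `f₂ = act (act f a) c₁`; they are adjacent in the direction moved by `b`; `b₁'` = arrow from `f₂` to `f₁`; `sq_of` twice. `mlf`: `act (act f s) a = act f a` gives `act f s = f` (apply `i a`). `loop`: `same`.
Finally transport from `A₀` to `Fin (m + 1)` by an equivalence (`A₀` is finite and nonempty). Please keep auxiliary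
statements for the general `LF → Valid0` part in a separate lemma: `LF` + `onto` on objects implies `Valid0`, as far as possible.
-/

set_option autoImplicit false

namespace LatF

open LatIso LatN

section gen

variable {ι' : Type} {V : ι' → Type} {T : ∀ i, SimpleGraph (V i)}

private theorem FQC_stpU {i j : ι'} {x y : ∀ i, V i} (h : Stp T i x y) (h' : Stp T j x y) :
    i = j := by
  by_contra hne
  have h1 := h.2 j (fun e => hne e.symm)
  have h2 := h'.1
  rw [h1] at h2
  exact (T j).irrefl h2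

private theorem FQC_stpne {i : ι'} {x y : ∀ i, V i} (h : Stp T i x y) : y ≠ x := by
  intro e
  have h2 := h.1
  rw [e] at h2
  exact (T i).irrefl h2

variable {ι P A F : Type} {X : FD ι P A} (L : LF X T F)

private theorem FQC_mv {f : F} {a : A} (h : X.o a = L.p f) :
    X.mv a ↔ L.pt (L.act f a) ≠ L.pt f := by
  constructor
  · intro hm
    exact FQC_stpne (L.mo f a h hm)
  · intro hne
    by_contra hm
    exact hne (L.st f a h hm)

private theorem FQC_lam {f : F} {k k' : ι} (h : L.lam f k = L.lam f k') : k = k' :=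
  (L.bij f).1 h

variable (hoe : ∀ p, X.o (X.e p) = p) (hoi : ∀ a, X.o (X.i a) = X.t a)
  (hmlo : ∀ s a, X.lc s a → X.o (X.ml s a) = X.o s)

include hoi in
private theorem FQC_ti {f : F} {a : A} (h : X.o a = L.p f) : X.t (X.i a) = X.o a := by
  have h1 : X.o (X.i a) = L.p (L.act f a) := by rw [hoi, L.act_p f a h]
  have h2 := L.act_p (L.act f a) (X.i a) h1
  rw [L.act_i f a h] at h2
  rw [← h2, h]

include hoi in
private theorem FQC_ii {f : F} {a : A} (h : X.o a = L.p f) : X.i (X.i a) = a := by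
  have h1 : X.o (X.i a) = L.p (L.act f a) := by rw [hoi, L.act_p f a h]
  have h2 := L.act_i (L.act f a) (X.i a) h1
  rw [L.act_i f a h] at h2
  refine L.inj f _ _ ?_ h h2
  rw [hoi, FQC_ti L hoi h, h]

include hoi in
private theorem FQC_mi {f : F} {a : A} (h : X.o a = L.p f) : X.mv (X.i a) ↔ X.mv a := by
  have h1 : X.o (X.i a) = L.p (L.act f a) := by rw [hoi, L.act_p f a h]
  rw [FQC_mv L h1, L.act_i f a h, FQC_mv L h]
  exact ⟨fun e => fun e' => e e'.symm, fun e => fun e' => e e'.symm⟩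

include hoi hmlo in
private theorem FQC_mr {f : F} {a s : A} (hs : X.rc a s) (h : X.o a = L.p f) :
    X.o (X.mr a s) = X.o a ∧ L.act f (X.mr a s) = L.act (L.act f a) s := by
  have hpa := L.act_p f a h
  have hs1 : X.o s = L.p (L.act f a) := by rw [hpa]; exact hs.2
  have hia : X.o (X.i a) = L.p (L.act f a) := by rw [hoi, hpa]
  have hps := L.act_p (L.act f a) s hs1
  have his : X.o (X.i s) = L.p (L.act (L.act f a) s) := by rw [hoi, hps]
  have hlc : X.lc (X.i s) (X.i a) := by
    refine ⟨fun hm => hs.1 ((FQC_mi L hoi hs1).1 hm), ?_⟩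
    rw [FQC_ti L hoi hs1, hoi, hs.2]
  have hoc : X.o (X.ml (X.i s) (X.i a)) = L.p (L.act (L.act f a) s) := by rw [hmlo _ _ hlc, his]
  have h1 : L.act (L.act (L.act f a) s) (X.ml (X.i s) (X.i a)) = f := by
    rw [L.act_ml _ _ _ his hlc, L.act_i _ _ hs1, L.act_i _ _ h]
  have h2 := L.act_i _ _ hoc
  have h3 := L.act_p _ _ hoc
  rw [h1] at h2 h3
  refine ⟨?_, h2⟩
  unfold FD.mr
  rw [hoi, ← h3, h]

variable (hp : ∀ q, ∃ f, L.p f = q) (hsq : ∀ a b c d, X.sq a b c d → SqT X a b c d)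

include hoe hoi hmlo hp hsq in
private theorem FQC_valid0 : Valid0 X := by
  classical
  have fr : ∀ q, ∃ f, q = L.p f := fun q => (hp q).imp fun f hf => hf.symm
  -- basic facts
  have hme : ∀ p, ¬ X.mv (X.e p) := by
    intro p
    obtain ⟨f, rfl⟩ := fr p
    rw [FQC_mv L (f := f) (hoe _), L.act_e]
    exact fun h => h rfl
  have hte : ∀ p, X.t (X.e p) = p := by
    intro p
    obtain ⟨f, rfl⟩ := fr p
    have h1 := L.act_p f (X.e (L.p f)) (hoe _)
    rw [L.act_e] at h1
    exact h1.symm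
  have hti : ∀ a, X.t (X.i a) = X.o a := by
    intro a
    obtain ⟨f, hf⟩ := fr (X.o a)
    exact FQC_ti L hoi hf
  have hii : ∀ a, X.i (X.i a) = a := by
    intro a
    obtain ⟨f, hf⟩ := fr (X.o a)
    exact FQC_ii L hoi hf
  have hmi : ∀ a, X.mv (X.i a) ↔ X.mv a := by
    intro a
    obtain ⟨f, hf⟩ := fr (X.o a)
    exact FQC_mi L hoi hf
  have hpa : ∀ f a, X.o a = L.p f → L.p (L.act f a) = X.t a := L.act_p
  have hmlt : ∀ s a, X.lc s a → X.t (X.ml s a) = X.t a := by
    intro s a h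
    obtain ⟨f, hf⟩ := fr (X.o s)
    have h1 : X.o a = L.p (L.act f s) := by rw [hpa f s hf]; exact h.2.symm
    have h2 := hpa f (X.ml s a) (by rw [hmlo s a h, hf])
    rw [L.act_ml f s a hf h, hpa _ _ h1] at h2
    exact h2.symm
  have hmlm : ∀ s a, X.lc s a → (X.mv (X.ml s a) ↔ X.mv a) := by
    intro s a h
    obtain ⟨f, hf⟩ := fr (X.o s)
    have h1 : X.o a = L.p (L.act f s) := by rw [hpa f s hf]; exact h.2.symm
    rw [FQC_mv L (f := f) (by rw [hmlo s a h, hf]), L.act_ml f s a hf h, FQC_mv L h1,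
      L.st f s hf h.1]
  have hlcm : ∀ s a f, X.o s = L.p f → X.lc s a → X.o (X.ml s a) = L.p f ∧
      X.o a = L.p (L.act f s) ∧ L.act f (X.ml s a) = L.act (L.act f s) a := by
    intro s a f hf h
    exact ⟨by rw [hmlo s a h, hf], by rw [hpa f s hf]; exact h.2.symm, L.act_ml f s a hf h⟩
  have hpi : ∀ a k, X.pm (X.i a) (X.pm a k) = k := by
    intro a k
    obtain ⟨f, hf⟩ := fr (X.o a)
    have h1 : X.o (X.i a) = L.p (L.act f a) := by rw [hoi, hpa f a hf]
    have h2 := L.act_lam (L.act f a) (X.i a) h1 (X.pm a k)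
    rw [L.act_i f a hf, L.act_lam f a hf] at h2
    exact FQC_lam L h2
  have hpinj : ∀ a k k', X.pm a k = X.pm a k' → k = k' := by
    intro a k k' h
    rw [← hpi a k, ← hpi a k', h]
  have htyi : ∀ a, X.mv a → X.ty (X.i a) = X.pm a (X.ty a) := by
    intro a hm
    obtain ⟨f, hf⟩ := fr (X.o a)
    have h1 : X.o (X.i a) = L.p (L.act f a) := by rw [hoi, hpa f a hf]
    have h2 := L.mo (L.act f a) (X.i a) h1 ((hmi a).2 hm)
    rw [L.act_i f a hf] at h2
    have h3 := L.mo f a hf hm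
    apply FQC_lam L (f := L.act f a)
    rw [L.act_lam f a hf]
    refine FQC_stpU h2 ?_
    exact ⟨h3.1.symm, fun j hj => (h3.2 j hj).symm⟩
  have hmly : ∀ s a, X.lc s a → X.mv a → X.pm s (X.ty (X.ml s a)) = X.ty a := by
    intro s a h hm
    obtain ⟨f, hf⟩ := fr (X.o s)
    obtain ⟨h1, h2, h3⟩ := hlcm s a f hf h
    apply FQC_lam L (f := L.act f s)
    rw [L.act_lam f s hf]
    have h4 := L.mo f _ h1 ((hmlm s a h).2 hm)
    have h5 := L.mo (L.act f s) a h2 hm
    rw [h3] at h4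
    rw [L.st f s hf h.1] at h5
    exact FQC_stpU h4 h5
  have hmlp : ∀ s a k, X.lc s a → X.pm (X.ml s a) k = X.pm a (X.pm s k) := by
    intro s a k h
    obtain ⟨f, hf⟩ := fr (X.o s)
    obtain ⟨h1, h2, h3⟩ := hlcm s a f hf h
    apply FQC_lam L (f := L.act (L.act f s) a)
    rw [L.act_lam _ _ h2, L.act_lam _ _ hf, ← h3, L.act_lam _ _ h1]
  have hmr : ∀ a s f, X.rc a s → X.o a = L.p f → X.o (X.mr a s) = X.o a ∧
      L.act f (X.mr a s) = L.act (L.act f a) s := fun a s f hs h => FQC_mr L hoi hmlo hs h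
  have hrc : ∀ a s f, X.rc a s → X.o a = L.p f → X.o s = L.p (L.act f a) := by
    intro a s f hs h
    rw [hpa f a h]; exact hs.2
  have hmro : ∀ a s, X.rc a s → X.o (X.mr a s) = X.o a := by
    intro a s hs
    obtain ⟨f, hf⟩ := fr (X.o a)
    exact (hmr a s f hs hf).1
  have hmrt : ∀ a s, X.rc a s → X.t (X.mr a s) = X.t s := by
    intro a s hs
    obtain ⟨f, hf⟩ := fr (X.o a)
    have h1 := hmr a s f hs hf
    have h2 := hpa f (X.mr a s) (by rw [h1.1, hf])
    rw [h1.2, hpa _ _ (hrc a s f hs hf)] at h2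
    exact h2.symm
  have hmrm : ∀ a s, X.rc a s → (X.mv (X.mr a s) ↔ X.mv a) := by
    intro a s hs
    obtain ⟨f, hf⟩ := fr (X.o a)
    have h1 := hmr a s f hs hf
    rw [FQC_mv L (f := f) (by rw [h1.1, hf]), h1.2, L.st _ _ (hrc a s f hs hf) hs.1, FQC_mv L hf]
  have hmry : ∀ a s, X.rc a s → X.mv a → X.ty (X.mr a s) = X.ty a := by
    intro a s hs hm
    obtain ⟨f, hf⟩ := fr (X.o a)
    have h1 := hmr a s f hs hf
    have h2 := L.mo f (X.mr a s) (by rw [h1.1, hf]) ((hmrm a s hs).2 hm)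
    rw [h1.2, L.st _ _ (hrc a s f hs hf) hs.1] at h2
    exact FQC_lam L (FQC_stpU h2 (L.mo f a hf hm))
  have hmrp : ∀ a s k, X.rc a s → X.pm (X.mr a s) k = X.pm s (X.pm a k) := by
    intro a s k hs
    obtain ⟨f, hf⟩ := fr (X.o a)
    have h1 := hmr a s f hs hf
    apply FQC_lam L (f := L.act (L.act f a) s)
    rw [L.act_lam _ _ (hrc a s f hs hf), L.act_lam _ _ hf, ← h1.2,
      L.act_lam _ _ (by rw [h1.1, hf])]
  have hlci : ∀ a s, X.rc a s → ∀ b, X.o b = X.t a → X.lc (X.i s) b := by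
    intro a s hs b hb
    exact ⟨fun hm => hs.1 ((hmi s).1 hm), by rw [hti, hs.2, hb]⟩
  have hsqp : ∀ a b c d, X.sq a b c d → ∀ k, X.pm b (X.pm a k) = X.pm d (X.pm c k) := by
    intro a b c d h k
    have hT := hsq _ _ _ _ h
    obtain ⟨f, hf⟩ := fr (X.o a)
    have hc : X.o c = L.p f := by rw [← hT.oac, hf]
    have hb : X.o b = L.p (L.act f a) := by rw [hpa f a hf, hT.tab]
    have hd : X.o d = L.p (L.act f c) := by rw [hpa f c hc, hT.tcd]
    have h1 := L.act_sq f a b c d hf h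
    apply FQC_lam L (f := L.act (L.act f a) b)
    rw [L.act_lam _ _ hb, L.act_lam _ _ hf, h1, L.act_lam _ _ hd, L.act_lam _ _ hc]
  have hsqs : ∀ a b c d, X.sq a b c d → X.sq c d a b := by
    intro a b c d h
    have hT := hsq _ _ _ _ h
    obtain ⟨f, hf⟩ := fr (X.o a)
    have hc : X.o c = L.p f := by rw [← hT.oac, hf]
    refine L.sq_of f c d a b hc ?_ (L.act_sq f a b c d hf h).symm
    exact ⟨hT.mc, hT.md, hT.ma, hT.mb, hT.oac.symm, hT.tcd, hT.tab, hT.tbd.symm,
      fun e => hT.ne e.symm, hT.tyd, hT.tyb⟩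
  have hsqr : ∀ a b c d, X.sq a b c d → X.sq (X.i a) c b (X.i d) := by
    intro a b c d h
    have hT := hsq _ _ _ _ h
    obtain ⟨f, hf⟩ := fr (X.o a)
    have hc : X.o c = L.p f := by rw [← hT.oac, hf]
    have hd : X.o d = L.p (L.act f c) := by rw [hpa f c hc, hT.tcd]
    have hia : X.o (X.i a) = L.p (L.act f a) := by rw [hoi, hpa f a hf]
    refine L.sq_of (L.act f a) _ _ _ _ hia ?_ ?_
    · refine ⟨(hmi a).2 hT.ma, hT.mc, hT.mb, (hmi d).2 hT.md, ?_, ?_, ?_, ?_, ?_, ?_, ?_⟩
      · rw [hoi, hT.tab]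
      · rw [hti, hT.oac]
      · rw [hoi, hT.tbd]
      · rw [hti, hT.tcd]
      · rw [htyi a hT.ma, hT.tyb]
        exact fun e => hT.ne (hpinj a _ _ e)
      · rw [hT.tyb, hpi]
      · rw [htyi d hT.md, htyi a hT.ma, hT.tyd, hsqp a b c d h]
    · rw [L.act_i f a hf, L.act_sq f a b c d hf h, L.act_i _ _ hd]
  refine
    { oe := hoe
      te := hte
      me := hme
      pe := ?_
      oi := hoi
      ti := hti
      ii := hii
      mi := hmi
      tyi := htyi
      pi := hpi
      mlo := hmlo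
      mlt := hmlt
      mlm := hmlm
      mly := hmly
      mlp := hmlp
      mle := ?_
      mla := ?_
      mli := ?_
      mlr := ?_
      mrs := ?_
      mlf := ?_
      sqT := hsq
      sqp := hsqp
      sqs := hsqs
      sqr := hsqr
      sql := ?_
      sqm := ?_
      sqe := ?_
      squ := ?_
      cube := ?_ }
  · -- pe
    intro p k
    obtain ⟨f, rfl⟩ := fr p
    have h1 := L.act_lam f (X.e (L.p f)) (hoe _) k
    rw [L.act_e] at h1
    exact FQC_lam L h1
  · -- mle
    intro a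
    obtain ⟨f, hf⟩ := fr (X.o a)
    have hlc : X.lc (X.e (X.o a)) a := ⟨hme _, hte _⟩
    have he : X.o (X.e (X.o a)) = L.p f := by rw [hoe, hf]
    obtain ⟨h1, h2, h3⟩ := hlcm _ a f he hlc
    refine L.inj f _ _ h1 hf ?_
    rw [h3, hf, L.act_e]
  · -- mla
    intro s s' a h h'
    obtain ⟨f, hf⟩ := fr (X.o s)
    obtain ⟨h1, h2, h3⟩ := hlcm s s' f hf h
    have hl1 : X.lc s (X.ml s' a) := ⟨h.1, by rw [hmlo s' a h', h.2]⟩
    have hl2 : X.lc (X.ml s s') a := ⟨fun hm => h'.1 ((hmlm s s' h).1 hm), by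
      rw [hmlt s s' h]; exact h'.2⟩
    obtain ⟨h4, h5, h6⟩ := hlcm s _ f hf hl1
    obtain ⟨h7, h8, h9⟩ := hlcm _ a f h1 hl2
    obtain ⟨h10, h11, h12⟩ := hlcm s' a (L.act f s) h2 h'
    refine L.inj f _ _ h4 h7 ?_
    rw [h6, h9, h12, h3]
  · -- mli
    intro s hs
    obtain ⟨f, hf⟩ := fr (X.o s)
    have hl : X.lc s (X.i s) := ⟨hs, (hoi s).symm⟩
    obtain ⟨h1, h2, h3⟩ := hlcm s _ f hf hl
    refine L.inj f _ _ h1 (by rw [hoe, hf]) ?_
    rw [h3, L.act_i f s hf, hf, L.act_e]
  · -- mlr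
    intro s a s' h h'
    obtain ⟨f, hf⟩ := fr (X.o s)
    obtain ⟨h1, h2, h3⟩ := hlcm s a f hf h
    have hl1 : X.lc s (X.mr a s') := ⟨h.1, by rw [hmro a s' h']; exact h.2⟩
    have hr1 : X.rc (X.ml s a) s' := ⟨h'.1, by rw [hmlt s a h]; exact h'.2⟩
    obtain ⟨h4, h5, h6⟩ := hlcm s _ f hf hl1
    have h7 := hmr _ _ f hr1 h1
    have h8 := hmr _ _ (L.act f s) h' h2
    refine L.inj f _ _ h4 (by rw [h7.1, h1]) ?_
    rw [h6, h7.2, h8.2, h3]
  · -- mrs
    intro s s' hs h'
    obtain ⟨f, hf⟩ := fr (X.o s)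
    have hl : X.lc s s' := ⟨hs, h'.2.symm⟩
    obtain ⟨h1, h2, h3⟩ := hlcm s s' f hf hl
    have h7 := hmr _ _ f h' hf
    refine L.inj f _ _ (by rw [h7.1, hf]) h1 ?_
    rw [h7.2, h3]
  · -- mlf
    intro s a h he
    obtain ⟨f, hf⟩ := fr (X.o s)
    obtain ⟨h1, h2, h3⟩ := hlcm s a f hf h
    rw [he] at h1 h3
    have h4 := L.act_i f a h1
    have h5 := L.act_i _ a h2
    rw [h3, h5] at h4
    have ho : X.o a = X.o s := by rw [h1, hf]
    refine L.inj f _ _ hf (by rw [hoe, h1]) ?_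
    rw [h4, ho, hf, L.act_e]
  · -- sql
    intro a b c d s h hl
    have hT := hsq _ _ _ _ h
    have hlc : X.lc s c := ⟨hl.1, by rw [hl.2, hT.oac]⟩
    obtain ⟨f, hf⟩ := fr (X.o s)
    obtain ⟨h1, h2, h3⟩ := hlcm s a f hf hl
    obtain ⟨h4, h5, h6⟩ := hlcm s c f hf hlc
    refine L.sq_of f _ _ _ _ h1 ?_ ?_
    · refine ⟨(hmlm s a hl).2 hT.ma, hT.mb, (hmlm s c hlc).2 hT.mc, hT.md, ?_, ?_, ?_, ?_, ?_, ?_, ?_⟩
      · rw [hmlo s a hl, hmlo s c hlc]
      · rw [hmlt s a hl, hT.tab]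
      · rw [hmlt s c hlc, hT.tcd]
      · exact hT.tbd
      · intro e
        apply hT.ne
        rw [← hmly s a hl hT.ma, ← hmly s c hlc hT.mc, e]
      · rw [hmlp s a _ hl, hmly s c hlc hT.mc, hT.tyb]
      · rw [hmlp s c _ hlc, hmly s a hl hT.ma, hT.tyd]
    · rw [h3, h6]
      exact L.act_sq _ a b c d h2 h
  · -- sqm
    intro a b c d s h hr
    have hT := hsq _ _ _ _ h
    obtain ⟨f, hf⟩ := fr (X.o a)
    have hl : X.lc (X.i s) b := hlci a s hr b hT.tab.symm
    have h1 := hmr _ _ f hr hf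
    have hs1 := hrc a s f hr hf
    have his : X.o (X.i s) = L.p (L.act (L.act f a) s) := by rw [hoi, hpa _ _ hs1]
    obtain ⟨h4, h5, h6⟩ := hlcm (X.i s) b _ his hl
    refine L.sq_of f _ _ _ _ (by rw [h1.1, hf]) ?_ ?_
    · refine ⟨(hmrm a s hr).2 hT.ma, (hmlm _ b hl).2 hT.mb, hT.mc, hT.md, ?_, ?_, ?_, ?_, ?_, ?_, ?_⟩
      · rw [h1.1, hT.oac]
      · rw [hmrt a s hr, hmlo _ b hl, hoi]
      · exact hT.tcd
      · rw [hmlt _ b hl, hT.tbd]
      · rw [hmry a s hr hT.ma]
        exact hT.ne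
      · have h7 := hmly (X.i s) b hl hT.mb
        rw [hT.tyb] at h7
        rw [hmrp a s _ hr, ← h7]
        have h8 := hpi (X.i s) (X.ty (X.ml (X.i s) b))
        rw [hii] at h8
        exact h8.symm
      · rw [hmry a s hr hT.ma, hT.tyd]
    · rw [h1.2, h6, L.act_i _ _ hs1]
      exact L.act_sq f a b c d hf h
  · -- sqe
    intro a b ha hb htab hne
    obtain ⟨f, hf⟩ := fr (X.o a)
    have hob : X.o b = L.p (L.act f a) := by rw [hpa f a hf, htab]
    have h1 := L.mo f a hf ha
    have h2 := L.mo (L.act f a) b hob hb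
    have hij : L.lam f (X.ty a) ≠ L.lam (L.act f a) (X.ty b) := by
      intro e
      apply hne
      apply FQC_lam L (f := L.act f a)
      rw [L.act_lam f a hf, e]
    obtain ⟨i, hi⟩ : ∃ i, i = L.lam f (X.ty a) := ⟨_, rfl⟩
    obtain ⟨j, hj⟩ : ∃ j, j = L.lam (L.act f a) (X.ty b) := ⟨_, rfl⟩
    rw [← hi] at h1 hij
    rw [← hj] at h2 hij
    obtain ⟨w, hw⟩ : ∃ w, w = L.pt (L.act (L.act f a) b) := ⟨_, rfl⟩
    rw [← hw] at h2
    obtain ⟨f3, hf3⟩ := L.onto (Function.update (L.pt f) j (w j))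
    have hyj : L.pt (L.act f a) j = L.pt f j := h1.2 j (fun e => hij e.symm)
    have hs1 : Stp T j (L.pt f) (L.pt f3) := by
      rw [hf3]
      refine ⟨?_, fun k hk => Function.update_of_ne hk _ _⟩
      rw [Function.update_self, ← hyj]
      exact h2.1
    have hs2 : Stp T i (L.pt f3) w := by
      rw [hf3]
      refine ⟨?_, fun k hk => ?_⟩
      · rw [Function.update_of_ne hij]
        have h3 := h2.2 i hij
        rw [h3]
        exact h1.1
      · by_cases hkj : k = j
        · subst hkj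
          rw [Function.update_self]
        · rw [Function.update_of_ne hkj, h2.2 k hkj, h1.2 k hk]
    obtain ⟨c, hc, hc'⟩ := L.sur f f3 (Or.inr ⟨j, hs1⟩)
    obtain ⟨d, hd, hd'⟩ := L.sur f3 (L.act (L.act f a) b) (Or.inr ⟨i, by rw [← hw]; exact hs2⟩)
    have hmc : X.mv c := by
      rw [FQC_mv L hc, hc']
      exact FQC_stpne hs1
    have hmd : X.mv d := by
      rw [FQC_mv L hd, hd', ← hw]
      exact FQC_stpne hs2
    have htc : L.lam f (X.ty c) = j := by
      have h5 := L.mo f c hc hmc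
      rw [hc'] at h5
      exact FQC_stpU h5 hs1
    have htd : L.lam f3 (X.ty d) = i := by
      have h5 := L.mo f3 d hd hmd
      rw [hd', ← hw] at h5
      exact FQC_stpU h5 hs2
    refine ⟨c, d, L.sq_of f a b c d hf ?_ (by rw [hc', hd'])⟩
    refine ⟨ha, hb, hmc, hmd, by rw [hf, hc], htab, ?_, ?_, ?_, ?_, ?_⟩
    · rw [← hpa f c hc, hc', hd]
    · rw [← hpa _ b hob, ← hpa f3 d hd, hd']
    · intro e
      apply hij
      rw [hi, e, htc]
    · apply FQC_lam L (f := L.act f a)
      rw [L.act_lam f a hf, htc, hj]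
    · apply FQC_lam L (f := f3)
      rw [htd, ← hc', L.act_lam f c hc, hi]
  · -- squ
    intro a b c d c' d' h h'
    have hT := hsq _ _ _ _ h
    have hT' := hsq _ _ _ _ h'
    obtain ⟨f, hf⟩ := fr (X.o a)
    have hc : X.o c = L.p f := by rw [← hT.oac, hf]
    have hc' : X.o c' = L.p f := by rw [← hT'.oac, hf]
    have hd : X.o d = L.p (L.act f c) := by rw [hpa f c hc, hT.tcd]
    have hd' : X.o d' = L.p (L.act f c') := by rw [hpa f c' hc', hT'.tcd]
    have hty : X.ty c = X.ty c' := by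
      apply hpinj a
      rw [← hT.tyb, ← hT'.tyb]
    have e1 := L.act_sq f a b c d hf h
    have e2 := L.act_sq f a b c' d' hf h'
    have hpt : ∀ (c d : A), X.sq a b c d → X.o c = L.p f → X.o d = L.p (L.act f c) →
        L.pt (L.act f c) (L.lam f (X.ty c)) =
          L.pt (L.act (L.act f a) b) (L.lam f (X.ty c)) := by
      intro c d h hc hd
      have hT := hsq _ _ _ _ h
      rw [L.act_sq f a b c d hf h]
      have h5 := L.mo _ d hd hT.md
      refine (h5.2 _ ?_).symm
      rw [hT.tyd, L.act_lam f c hc]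
      exact fun e => hT.ne (FQC_lam L e).symm
    have hpe : L.pt (L.act f c') = L.pt (L.act f c) := by
      funext k
      by_cases hk : k = L.lam f (X.ty c)
      · rw [hk, hpt c d h hc hd, hty, hpt c' d' h' hc' hd']
      · rw [(L.mo f c hc hT.mc).2 k hk]
        rw [hty] at hk
        rw [(L.mo f c' hc' hT'.mc).2 k hk]
    obtain ⟨s, hs, hs'⟩ := L.sur (L.act f c) (L.act f c') (Or.inl hpe)
    have hms : ¬ X.mv s := by
      rw [FQC_mv L hs, hs', hpe]
      exact fun e => e rfl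
    have hr : X.rc c s := ⟨hms, by rw [hs, hpa f c hc]⟩
    have h1 := hmr c s f hr hc
    refine ⟨s, hr, ?_, ?_⟩
    · refine L.inj f _ _ hc' (by rw [h1.1, hc]) ?_
      rw [h1.2, hs']
    · have hl : X.lc (X.i s) d := hlci c s hr d hT.tcd.symm
      have his : X.o (X.i s) = L.p (L.act f c') := by rw [hoi, ← hpa _ _ hs, hs']
      obtain ⟨h4, h5, h6⟩ := hlcm (X.i s) d _ his hl
      refine L.inj (L.act f c') _ _ hd' h4 ?_
      rw [h6, ← e2, e1, ← hs', L.act_i _ _ hs]
  · -- cube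
    intro a b b₁ a₁ c c₁ a₂ c' c₁' a₃ b' h1 h2 h3 h4
    have T1 := hsq _ _ _ _ h1
    have T2 := hsq _ _ _ _ h2
    have T3 := hsq _ _ _ _ h3
    have T4 := hsq _ _ _ _ h4
    obtain ⟨f, hf⟩ := fr (X.o a)
    have ob : X.o b = L.p f := by rw [← T1.oac, hf]
    have oc : X.o c = L.p f := by rw [← T2.oac, hf]
    have ob₁ : X.o b₁ = L.p (L.act f a) := by rw [hpa f a hf, T1.tab]
    have oc₁ : X.o c₁ = L.p (L.act f a) := by rw [hpa f a hf, T2.tab]
    have oa₁ : X.o a₁ = L.p (L.act f b) := by rw [hpa f b ob, T1.tcd]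
    have oc' : X.o c' = L.p (L.act f b) := by rw [hpa f b ob, T4.tab]
    have oa₂ : X.o a₂ = L.p (L.act f c) := by rw [hpa f c oc, T2.tcd]
    have ob' : X.o b' = L.p (L.act f c) := by rw [hpa f c oc, T4.tcd]
    have oc₁' : X.o c₁' = L.p (L.act (L.act f a) b₁) := by
      rw [hpa _ _ ob₁, T1.tbd, T3.tab]
    have oa₃ : X.o a₃ = L.p (L.act (L.act f c) b') := by
      rw [hpa _ _ ob', ← T4.tbd, T3.tcd]
    have E1 := L.act_sq f _ _ _ _ hf h1
    have E2 := L.act_sq f _ _ _ _ hf h2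
    have E3 := L.act_sq (L.act f b) _ _ _ _ oa₁ h3
    have E4 := L.act_sq f _ _ _ _ ob h4
    -- labels
    have la₁ : L.lam (L.act f b) (X.ty a₁) = L.lam f (X.ty a) := by
      rw [T1.tyd, L.act_lam f b ob]
    have lb₁ : L.lam (L.act f a) (X.ty b₁) = L.lam f (X.ty b) := by
      rw [T1.tyb, L.act_lam f a hf]
    have lc₁ : L.lam (L.act f a) (X.ty c₁) = L.lam f (X.ty c) := by
      rw [T2.tyb, L.act_lam f a hf]
    have la₂ : L.lam (L.act f c) (X.ty a₂) = L.lam f (X.ty a) := by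
      rw [T2.tyd, L.act_lam f c oc]
    have lc' : L.lam (L.act f b) (X.ty c') = L.lam f (X.ty c) := by
      rw [T4.tyb, L.act_lam f b ob]
    have lb' : L.lam (L.act f c) (X.ty b') = L.lam f (X.ty b) := by
      rw [T4.tyd, L.act_lam f c oc]
    have lc₁' : L.lam (L.act (L.act f a) b₁) (X.ty c₁') = L.lam f (X.ty c) := by
      rw [E1, T3.tyb, L.act_lam _ _ oa₁, lc']
    have la₃ : L.lam (L.act (L.act f c) b') (X.ty a₃) = L.lam f (X.ty a) := by
      rw [← E4, T3.tyd, L.act_lam _ _ oc', la₁]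
    obtain ⟨i, hi⟩ : ∃ i, i = L.lam f (X.ty a) := ⟨_, rfl⟩
    obtain ⟨j, hj⟩ : ∃ j, j = L.lam f (X.ty b) := ⟨_, rfl⟩
    obtain ⟨k, hk⟩ : ∃ k, k = L.lam f (X.ty c) := ⟨_, rfl⟩
    have hij : i ≠ j := by
      rw [hi, hj]
      exact fun e => T1.ne (FQC_lam L e)
    have hik : i ≠ k := by
      rw [hi, hk]
      exact fun e => T2.ne (FQC_lam L e)
    have hjk : j ≠ k := by
      rw [hj, hk]
      exact fun e => T4.ne (FQC_lam L e)
    rw [← hi] at la₁ la₂ la₃
    rw [← hj] at lb₁ lb'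
    rw [← hk] at lc₁ lc' lc₁'
    -- steps
    have Sa := L.mo f a hf T1.ma
    have Sb := L.mo f b ob T1.mc
    have Sb₁ := L.mo _ b₁ ob₁ T1.mb
    have Sc₁ := L.mo _ c₁ oc₁ T2.mb
    have Sa₁ := L.mo _ a₁ oa₁ T1.md
    have Sa₂ := L.mo _ a₂ oa₂ T2.md
    have Sc₁' := L.mo _ c₁' oc₁' T3.mb
    have Sa₃ := L.mo _ a₃ oa₃ T3.md
    have Sb' := L.mo _ b' ob' T4.md
    have Sc := L.mo f c oc T2.mc
    rw [← hi] at Sa
    rw [← hj] at Sb
    rw [← hk] at Sc
    rw [lb₁] at Sb₁
    rw [lc₁] at Sc₁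
    rw [la₁] at Sa₁
    rw [la₂] at Sa₂
    rw [lc₁'] at Sc₁'
    rw [la₃] at Sa₃
    rw [lb'] at Sb'
    have E5 : L.act (L.act (L.act f a) b₁) c₁' = L.act (L.act (L.act f c) b') a₃ := by
      rw [E1, E3, E4]
    rw [← E5] at Sa₃
    rw [← E2] at Sa₂
    have hst : Stp T j (L.pt (L.act (L.act f a) c₁)) (L.pt (L.act (L.act (L.act f a) b₁) c₁')) := by
      constructor
      · -- coordinate j
        rw [Sc₁.2 j hjk, Sc₁'.2 j hjk]
        exact Sb₁.1
      · intro l hl
        by_cases hlk : l = k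
        · subst hlk
          rw [Sa₃.2 l (fun e => hik e.symm), Sb'.2 l hl, Sa₂.2 l (fun e => hik e.symm)]
        · rw [Sc₁'.2 l hlk, Sb₁.2 l hl, Sc₁.2 l hlk]
    obtain ⟨b₁', ob₁', hb₁'⟩ := L.sur _ _ (Or.inr ⟨j, hst⟩)
    have mb₁' : X.mv b₁' := by
      rw [FQC_mv L ob₁', hb₁']
      exact FQC_stpne hst
    have lb₁' : L.lam (L.act (L.act f a) c₁) (X.ty b₁') = j := by
      have h5 := L.mo _ b₁' ob₁' mb₁'
      rw [hb₁'] at h5
      exact FQC_stpU h5 hst
    refine ⟨b₁', ?_, ?_⟩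
    · refine L.sq_of (L.act f a) _ _ _ _ ob₁ ?_ (by rw [hb₁'])
      refine ⟨T1.mb, T3.mb, T2.mb, mb₁', by rw [ob₁, oc₁], ?_, ?_, ?_, ?_, ?_, ?_⟩
      · rw [oc₁', hpa _ _ ob₁]
      · rw [ob₁', hpa _ _ oc₁]
      · rw [← hpa _ _ oc₁', ← hpa _ _ ob₁', hb₁']
      · intro e
        apply hjk
        rw [← lb₁, ← lc₁, e]
      · apply FQC_lam L (f := L.act (L.act f a) b₁)
        rw [lc₁', L.act_lam _ _ ob₁, lc₁]
      · apply FQC_lam L (f := L.act (L.act f a) c₁)
        rw [lb₁', L.act_lam _ _ oc₁, lb₁]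
    · refine L.sq_of (L.act f c) _ _ _ _ oa₂ ?_ (by rw [← E2, hb₁', E5])
      refine ⟨T2.md, mb₁', T4.md, T3.md, by rw [oa₂, ob'], ?_, ?_, ?_, ?_, ?_, ?_⟩
      · rw [ob₁', hpa _ _ oc₁, T2.tbd]
      · rw [oa₃, hpa _ _ ob']
      · rw [← hpa _ _ ob₁', hb₁', hpa _ _ oc₁', T3.tbd]
      · intro e
        apply hij
        rw [← la₂, ← lb', e]
      · apply FQC_lam L (f := L.act (L.act f a) c₁)
        rw [lb₁', E2, L.act_lam _ _ oa₂, lb']
      · apply FQC_lam L (f := L.act (L.act f c) b')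
        rw [la₃, L.act_lam _ _ ob', la₂]

end gen

section data

variable {G : Type} [Group G] {V ι' : Type} [MulAction G V] [MulAction G ι'] {κ : V → ι'}
  {S : SimpleGraph V} {ι P F : Type} [MulAction G F]

/-- the frames `f`, `f'` are near -/
private def FQC_N (S : SimpleGraph V) (R : Frm G κ ι P F) (f f' : F) : Prop :=
  R.pt f' = R.pt f ∨ ∃ i, Stp (comp κ S) i (R.pt f) (R.pt f')

private theorem FQC_pt (R : Frm G κ ι P F) {f f' : F} (h : R.pt f' = R.pt f) (g : G) :
    R.pt (g • f') = R.pt (g • f) := by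
  funext j
  have hj : j = g • g⁻¹ • j := (smul_inv_smul g j).symm
  rw [hj]
  apply Subtype.ext
  rw [R.gpt, R.gpt, h]

private theorem FQC_stp (hA : FAct G κ S) (R : Frm G κ ι P F) {f f' : F} {i : ι'}
    (h : Stp (comp κ S) i (R.pt f) (R.pt f')) (g : G) :
    Stp (comp κ S) (g • i) (R.pt (g • f)) (R.pt (g • f')) := by
  constructor
  · have h1 : S.Adj (R.pt f i).1 (R.pt f' i).1 := h.1
    have h2 := hA.adj g _ _ h1
    rw [← R.gpt, ← R.gpt] at h2
    exact h2
  · intro j hj
    have hj' : j = g • g⁻¹ • j := (smul_inv_smul g j).symm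
    have hne : g⁻¹ • j ≠ i := by
      intro e
      apply hj
      rw [← e, smul_inv_smul]
    rw [hj']
    apply Subtype.ext
    rw [R.gpt, R.gpt, h.2 _ hne]

private theorem FQC_Ng (hA : FAct G κ S) (R : Frm G κ ι P F) {f f' : F} (h : FQC_N S R f f')
    (g : G) : FQC_N S R (g • f) (g • f') := by
  rcases h with h | ⟨i, h⟩
  · exact Or.inl (FQC_pt R h g)
  · exact Or.inr ⟨g • i, FQC_stp hA R h g⟩

private theorem FQC_Ns (R : Frm G κ ι P F) {f f' : F} (h : FQC_N S R f f') : FQC_N S R f' f := by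
  rcases h with h | ⟨i, h⟩
  · exact Or.inl h.symm
  · exact Or.inr ⟨i, h.1.symm, fun j hj => (h.2 j hj).symm⟩

private theorem FQC_fin [Fintype ι'] (L : FLat0 G κ S) (R : Frm G κ ι P F) (f : F) :
    {f' | FQC_N S R f f'}.Finite := by
  classical
  have h1 : ∀ x : ∀ i, Fib κ i, {f' | R.pt f' = x}.Finite := by
    intro x
    obtain ⟨f0, hf0⟩ := R.onto x
    refine ((L.prop x).image (fun g => g • f0)).subset ?_
    intro f' hf'
    have hf' : R.pt f' = x := hf'
    obtain ⟨g, hg⟩ := R.trans f0 f' (R.same _ _ (by rw [hf0, hf']))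
    refine ⟨g, ?_, hg⟩
    intro i
    have h2 := R.gpt g f0 i
    rw [hg, hf', hf0] at h2
    exact h2.symm
  have h2 : ∀ x : ∀ i, Fib κ i, {y : ∀ i, Fib κ i | ∃ i, Stp (comp κ S) i x y}.Finite := by
    intro x
    have h3 : {y : ∀ i, Fib κ i | ∃ i, Stp (comp κ S) i x y} ⊆
        ⋃ i, (fun v : Fib κ i => Function.update x i v) '' {v : Fib κ i | S.Adj (x i).1 v.1} := by
      rintro y ⟨i, hi⟩
      refine Set.mem_iUnion.2 ⟨i, y i, hi.1, ?_⟩
      funext j
      by_cases hj : j = i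
      · subst hj
        exact Function.update_self _ _ _
      · change Function.update x i (y i) j = y j
        rw [Function.update_of_ne hj, hi.2 j hj]
    refine (Set.finite_iUnion fun i => Set.Finite.image _ ?_).subset h3
    exact (L.loc (x i).1).preimage (Subtype.val_injective.injOn)
  have h4 : {f' | FQC_N S R f f'} ⊆ {f' | R.pt f' = R.pt f} ∪
      ⋃ y ∈ {y : ∀ i, Fib κ i | ∃ i, Stp (comp κ S) i (R.pt f) y}, {f' | R.pt f' = y} := by
    rintro f' (h | h)
    · exact Or.inl h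
    · refine Or.inr ?_
      simp only [Set.mem_iUnion]
      exact ⟨R.pt f', h, rfl⟩
  exact ((h1 _).union ((h2 _).biUnion fun y _ => h1 y)).subset h4

private theorem FQC_arr [Fintype ι'] [Finite P] (L : FLat0 G κ S) (R : Frm G κ ι P F)
    (z : P → F) : ∃ (m : ℕ) (o : Fin (m + 1) → P) (w : Fin (m + 1) → F)
      (mk : P → F → Fin (m + 1)), (∀ a, FQC_N S R (z (o a)) (w a)) ∧
      (∀ q f', FQC_N S R (z q) f' → o (mk q f') = q) ∧
      (∀ q f', FQC_N S R (z q) f' → w (mk q f') = f') ∧ ∀ a, mk (o a) (w a) = a := by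
  classical
  have hf : {x : P × F | FQC_N S R (z x.1) x.2}.Finite := by
    have h1 : {x : P × F | FQC_N S R (z x.1) x.2} ⊆
        ⋃ q, (fun f' => (q, f')) '' {f' | FQC_N S R (z q) f'} := by
      rintro ⟨q, f'⟩ h
      exact Set.mem_iUnion.2 ⟨q, f', h, rfl⟩
    exact (Set.finite_iUnion fun q => (FQC_fin L R (z q)).image _).subset h1
  have : Finite {x : P × F // FQC_N S R (z x.1) x.2} := hf
  have : Nonempty {x : P × F // FQC_N S R (z x.1) x.2} := by
    have h1 : ∀ i, Nonempty (Fib κ i) := fun i => (L.forest.tree i).connected.nonempty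
    obtain ⟨f, -⟩ := R.onto fun i => (h1 i).some
    exact ⟨⟨(R.p f, z (R.p f)), Or.inl rfl⟩⟩
  obtain ⟨m, hm⟩ := Nat.exists_eq_succ_of_ne_zero
    (Nat.card_pos (α := {x : P × F // FQC_N S R (z x.1) x.2})).ne'
  obtain ⟨E⟩ : Nonempty ({x : P × F // FQC_N S R (z x.1) x.2} ≃ Fin (m + 1)) :=
    ⟨(Finite.equivFin _).trans (finCongr hm)⟩
  refine ⟨m, fun a => (E.symm a).1.1, fun a => (E.symm a).1.2,
    fun q f' => if h : FQC_N S R (z q) f' then E ⟨(q, f'), h⟩ else 0, ?_, ?_, ?_, ?_⟩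
  · intro a
    exact (E.symm a).2
  · intro q f' h
    simp only [dif_pos h, Equiv.symm_apply_apply]
  · intro q f' h
    simp only [dif_pos h, Equiv.symm_apply_apply]
  · intro a
    have h := (E.symm a).2
    change (if h : FQC_N S R (z (E.symm a).1.1) (E.symm a).1.2 then
      E ⟨((E.symm a).1.1, (E.symm a).1.2), h⟩ else 0) = a
    rw [dif_pos h]
    exact E.apply_symm_apply a

end data

section

theorem fqc {G : Type} [Group G] {V ι' : Type} [Fintype ι'] [Nonempty ι'] [MulAction G V]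
    [MulAction G ι'] {κ : V → ι'} {S : SimpleGraph V} (L : FLat0 G κ S) {ι P F : Type} [Finite P]
    [MulAction G F] (R : Frm G κ ι P F) :
    ∃ (m : ℕ) (X : FD ι P (Fin (m + 1))) (L' : LF X (comp κ S) F), Valid X ∧ Cov G L' ∧
      L'.pt = R.pt ∧ L'.lam = R.lam ∧ L'.p = R.p := by
  classical
  choose z hz using R.ponto
  have hγ0 : ∀ f, ∃ g : G, g • z (R.p f) = f := fun f => R.trans _ _ (hz (R.p f))
  choose γ hγ using hγ0
  have fr : ∀ (g h : G) (f : F), g • f = h • f → g = h := by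
    intro g h f e
    have h1 := R.free (h⁻¹ * g) f (by rw [mul_smul, e, inv_smul_smul])
    exact (inv_mul_eq_one.1 h1).symm
  have γg : ∀ (g : G) (f : F), γ (g • f) = g * γ f := by
    intro g f
    apply fr _ _ (z (R.p f))
    have h1 := hγ (g • f)
    rw [R.gp] at h1
    rw [h1, mul_smul, hγ]
  have γz : ∀ (f : F) (q : P), q = R.p f → γ f • z q = f := by
    rintro f q rfl
    exact hγ f
  choose lv hlv using fun f j => (R.bij f).2 j
  have lvl : ∀ f k, lv f (R.lam f k) = k := fun f k => (R.bij f).1 (hlv f _)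
  obtain ⟨m, o, w, mk, hN, ho, hw, hmk⟩ := FQC_arr L R z
  have hA := L.act
  obtain ⟨i0⟩ := ‹Nonempty ι'›
  -- the arrows of the operations are arrows
  have Ne : ∀ q, FQC_N S R (z q) (z q) := fun q => Or.inl rfl
  have Ni : ∀ a, FQC_N S R (z (R.p (w a))) ((γ (w a))⁻¹ • z (o a)) := by
    intro a
    have h1 := FQC_Ng hA R (FQC_Ns R (hN a)) (γ (w a))⁻¹
    have h2 : (γ (w a))⁻¹ • w a = z (R.p (w a)) := by
      rw [inv_smul_eq_iff, hγ]
    rwa [h2] at h1
  have Nm : ∀ s a, R.pt (w s) = R.pt (z (o s)) → R.p (w s) = o a →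
      FQC_N S R (z (o s)) (γ (w s) • w a) := by
    intro s a h1 h2
    have h3 := FQC_Ng hA R (hN a) (γ (w s))
    rw [γz (w s) (o a) h2.symm] at h3
    rcases h3 with h3 | ⟨i, h3⟩
    · exact Or.inl (by rw [h3, h1])
    · exact Or.inr ⟨i, by rw [← h1]; exact h3⟩
  let X0 : FD ι P (Fin (m + 1)) :=
    { o := o
      t := fun a => R.p (w a)
      e := fun q => mk q (z q)
      i := fun a => mk (R.p (w a)) ((γ (w a))⁻¹ • z (o a))
      mv := fun a => R.pt (w a) ≠ R.pt (z (o a))
      ty := fun a => lv (z (o a))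
        (if h : ∃ i, Stp (comp κ S) i (R.pt (z (o a))) (R.pt (w a)) then h.choose else i0)
      pm := fun a k => lv (w a) (R.lam (z (o a)) k)
      ml := fun s a => mk (o s) (γ (w s) • w a)
      sq := fun _ _ _ _ => False }
  let act : F → Fin (m + 1) → F := fun f a => γ f • w a
  let X : FD ι P (Fin (m + 1)) :=
    { o := X0.o
      t := X0.t
      e := X0.e
      i := X0.i
      mv := X0.mv
      ty := X0.ty
      pm := X0.pm
      ml := X0.ml
      sq := fun a b c d => SqT X0 a b c d ∧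
        act (act (z (o a)) a) b = act (act (z (o a)) c) d }
  have hT : ∀ a b c d, SqT X0 a b c d → SqT X a b c d := fun a b c d h =>
    ⟨h.ma, h.mb, h.mc, h.md, h.oac, h.tab, h.tcd, h.tbd, h.ne, h.tyb, h.tyd⟩
  have hT' : ∀ a b c d, SqT X a b c d → SqT X0 a b c d := fun a b c d h =>
    ⟨h.ma, h.mb, h.mc, h.md, h.oac, h.tab, h.tcd, h.tbd, h.ne, h.tyb, h.tyd⟩
  have hact : ∀ (g : G) f a, act (g • f) a = g • act f a := by
    intro g f a
    change γ (g • f) • w a = g • γ f • w a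
    rw [γg, mul_smul]
  have hact2 : ∀ (g : G) f a b, act (act (g • f) a) b = g • act (act f a) b := by
    intro g f a b
    rw [hact g f a, hact]
  let L' : LF X (comp κ S) F :=
    { pt := R.pt
      lam := R.lam
      p := R.p
      act := act
      bij := R.bij
      onto := R.onto
      act_p := fun f a _ => R.gp _ _
      act_lam := by
        intro f a h k
        change R.lam (γ f • w a) (lv (w a) (R.lam (z (o a)) k)) = R.lam f k
        rw [R.glam, hlv, ← R.glam, γz f _ h]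
      act_e := by
        intro f
        change γ f • w (mk (R.p f) (z (R.p f))) = f
        rw [hw _ _ (Ne _), hγ]
      act_i := by
        intro f a h
        change γ (γ f • w a) • w (mk (R.p (w a)) ((γ (w a))⁻¹ • z (o a))) = f
        rw [hw _ _ (Ni a), γg, mul_smul, smul_inv_smul, γz f _ h]
      act_ml := by
        intro f s a h hl
        change γ f • w (mk (o s) (γ (w s) • w a)) = γ (γ f • w s) • w a
        have h1 : R.pt (w s) = R.pt (z (o s)) := by
          by_contra hne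
          exact hl.1 hne
        rw [hw _ _ (Nm s a h1 hl.2), γg, mul_smul]
      act_sq := by
        intro f a b c d h hs
        have h1 : act (act (z (o a)) a) b = act (act (z (o a)) c) d := hs.2
        have h2 : f = γ f • z (o a) := (γz f _ h).symm
        rw [h2, hact2, hact2, h1]
      sq_of := by
        intro f a b c d h hs he
        refine ⟨hT' _ _ _ _ hs, ?_⟩
        have h2 : f = γ f • z (o a) := (γz f _ h).symm
        rw [h2, hact2, hact2] at he
        exact smul_left_cancel _ he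
      st := by
        intro f a h hm
        have h1 : R.pt (w a) = R.pt (z (o a)) := by
          by_contra hne
          exact hm hne
        have h2 := FQC_pt R h1 (γ f)
        rw [γz f _ h] at h2
        exact h2
      mo := by
        intro f a h hm
        have h1 : R.pt (w a) ≠ R.pt (z (o a)) := hm
        have h2 : ∃ i, Stp (comp κ S) i (R.pt (z (o a))) (R.pt (w a)) :=
          (hN a).resolve_left h1
        have h3 : X.ty a = lv (z (o a)) h2.choose := by
          change lv (z (o a)) (if h : ∃ i, Stp (comp κ S) i (R.pt (z (o a))) (R.pt (w a)) then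
            h.choose else i0) = _
          rw [dif_pos h2]
        have h4 := FQC_stp hA R h2.choose_spec (γ f)
        have h5 : R.lam f (X.ty a) = γ f • h2.choose := by
          rw [h3]
          conv_lhs => rw [← γz f (o a) h]
          rw [R.glam, hlv]
        rw [h5]
        rw [γz f _ h] at h4
        exact h4
      sur := by
        intro f f' h
        have h1 : FQC_N S R f f' := h
        have h2 := FQC_Ng hA R h1 (γ f)⁻¹
        have h3 : (γ f)⁻¹ • f = z (R.p f) := by rw [inv_smul_eq_iff, hγ]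
        rw [h3] at h2
        refine ⟨mk (R.p f) ((γ f)⁻¹ • f'), ho _ _ h2, ?_⟩
        change γ f • w (mk (R.p f) ((γ f)⁻¹ • f')) = f'
        rw [hw _ _ h2, smul_inv_smul]
      inj := by
        intro f a b h h' he
        have h1 : w a = w b := smul_left_cancel (γ f) he
        have h2 : o a = o b := h.trans h'.symm
        rw [← hmk a, ← hmk b, h1, h2] }
  refine ⟨m, X, L', ?_, ?_, rfl, rfl, rfl⟩
  · refine ⟨FQC_valid0 L' ?_ ?_ ?_ R.ponto ?_, ?_⟩
    · intro q
      exact ho _ _ (Ne q)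
    · intro a
      exact ho _ _ (Ni a)
    · intro s a hl
      have h1 : R.pt (w s) = R.pt (z (o s)) := by
        by_contra hne
        exact hl.1 hne
      exact ho _ _ (Nm s a h1 hl.2)
    · intro a b c d h
      exact hT _ _ _ _ h.1
    · intro a hm
      have h1 : R.pt (w a) = R.pt (z (o a)) := by
        by_contra hne
        exact hm hne
      have h2 := R.same _ _ h1
      rw [hz] at h2
      exact h2
  · exact
      { gp := R.gp
        gact := fun g f a _ => hact g f a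
        gpt := R.gpt
        glam := R.glam
        free := R.free
        trans := R.trans
        onto := R.ponto }

end

end LatF
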