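import Pool.Agent.Lib.MP_32d917_al.FDefs
import Pool.Agent.Lib.MP_32d917_al.F.FQC

/-!
# existence of data

`P₀` = orbits of points (finite by `fin`), `x_q` a representative point of the orbit `q`. `F = G × P₀` with left multiplication on `G`; `pt (g, q) = g • x_q`, the point `i ↦ ⟨g • (x_q (g⁻¹ • i)).1, _⟩`, `lam (g, q) k = g • k`, `p (g, q) = q`. `Frm`: free,
trans clear; `same`: equal points are in the same orbit. Transport `P₀ ≃ Fin (nP + 1)` (nonempty: points exist since all components are nonempty). Apply `fqc`; the result is `IsCov` (Forest and FAct from `L`).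
-/

set_option autoImplicit false

namespace LatF

open LatIso LatN

section

/-- frames: group elements and objects -/
private def fquotF (G P : Type) : Type := G × P

private instance fquotI (G P : Type) [Group G] : MulAction G (fquotF G P) where
  smul g f := (g * f.1, f.2)
  one_smul f := Prod.ext (one_mul f.1) rfl
  mul_smul a b f := Prod.ext (mul_assoc a b f.1) rfl

private theorem fquot_smul {G P : Type} [Group G] (g : G) (f : fquotF G P) :
    g • f = ((g * f.1, f.2) : fquotF G P) := rfl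

private theorem fquot_reps {G : Type} [Group G] {V ι' : Type} [MulAction G V]
    [MulAction G ι'] {κ : V → ι'} (hne : Nonempty (∀ i, Fib κ i))
    (hfin : ∃ F : Finset (∀ i, Fib κ i), ∀ x, ∃ g : G, ∃ y ∈ F, Mv g x y) :
    ∃ (nP : ℕ) (rep : Fin (nP + 1) → ∀ i, Fib κ i),
      (∀ x : ∀ i, Fib κ i, ∃ q, ∃ g : G, Mv g (rep q) x) ∧
      ∀ q q' (g : G), Mv g (rep q) (rep q') → q = q' := by
  classical
  have hinv : ∀ (g : G) (x y : ∀ i, Fib κ i), Mv g x y → Mv g⁻¹ y x := by
    intro g x y h i
    have h1 := h (g⁻¹ • i)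
    rw [smul_inv_smul] at h1
    rw [← h1, inv_smul_smul]
  have hmul : ∀ (g h : G) (x y z : ∀ i, Fib κ i), Mv g x y → Mv h y z → Mv (h * g) x z := by
    intro g h x y z h1 h2 i
    have h3 : (h * g) • i = h • g • i := mul_smul h g i
    rw [h3, mul_smul, h1 i, h2 (g • i)]
  let r : Setoid (∀ i, Fib κ i) :=
    { r := fun x y => ∃ g : G, Mv g x y
      iseqv := ⟨fun x => ⟨1, fun i => by rw [one_smul, one_smul]⟩,
        fun ⟨g, h⟩ => ⟨g⁻¹, hinv g _ _ h⟩,
        fun ⟨g, h⟩ ⟨g', h'⟩ => ⟨g' * g, hmul g g' _ _ _ h h'⟩⟩ }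
  obtain ⟨F, hF⟩ := hfin
  have hQ : Finite (Quotient r) := by
    refine Finite.of_surjective (fun x : F => Quotient.mk r x.1) ?_
    intro q
    induction q using Quotient.inductionOn with
    | h x =>
      obtain ⟨g, y, hy, hm⟩ := hF x
      exact ⟨⟨y, hy⟩, Quotient.sound ⟨g⁻¹, hinv g _ _ hm⟩⟩
  have hneQ : Nonempty (Quotient r) := hne.map (Quotient.mk r)
  have hcard : Nat.card (Quotient r) ≠ 0 := Nat.card_ne_zero.2 ⟨hneQ, hQ⟩
  obtain ⟨nP, hnP⟩ := Nat.exists_eq_succ_of_ne_zero hcard
  let e : Quotient r ≃ Fin (nP + 1) := Finite.equivFinOfCardEq hnP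
  refine ⟨nP, fun q => (e.symm q).out, fun x => ?_, fun q q' g h => ?_⟩
  · refine ⟨e (Quotient.mk r x), ?_⟩
    have h1 : r.r ((Quotient.mk r x).out) x := Quotient.exact (Quotient.out_eq _)
    simp only [Equiv.symm_apply_apply]
    exact h1
  · have h1 : Quotient.mk r (e.symm q).out = Quotient.mk r (e.symm q').out :=
      Quotient.sound ⟨g, h⟩
    rw [Quotient.out_eq, Quotient.out_eq] at h1
    exact e.symm.injective h1

theorem fquot_exists {n : ℕ} {G : Type} [Group G] {V : Type} [MulAction G V]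
    [MulAction G (Fin (n + 1))] {κ : V → Fin (n + 1)} {S : SimpleGraph V} (L : FLat0 G κ S) :
    ∃ (nP nA : ℕ) (X : FD (Fin (n + 1)) (Fin (nP + 1)) (Fin (nA + 1))), IsCov G κ S X := by
  classical
  have hκ := L.act.kap
  have hne : Nonempty (∀ i, Fib κ i) :=
    ⟨fun i => ((L.forest.tree i).connected.nonempty).some⟩
  obtain ⟨nP, rep, hrep1, hrep2⟩ := fquot_reps hne L.fin
  let R : Frm G κ (Fin (n + 1)) (Fin (nP + 1)) (fquotF G (Fin (nP + 1))) :=
    { pt := fun f i => ⟨f.1 • (rep f.2 (f.1⁻¹ • i)).1, by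
        rw [hκ, (rep f.2 (f.1⁻¹ • i)).2, smul_inv_smul]⟩
      lam := fun f k => f.1 • k
      p := fun f => f.2
      bij := fun f => MulAction.bijective f.1
      onto := by
        intro x
        obtain ⟨q, g, hg⟩ := hrep1 x
        refine ⟨(g, q), ?_⟩
        funext i
        refine Subtype.ext ?_
        have h1 := hg (g⁻¹ • i)
        rw [smul_inv_smul] at h1
        exact h1
      gp := fun g f => rfl
      gpt := by
        intro g f i
        change (g * f.1) • (rep f.2 ((g * f.1)⁻¹ • g • i)).1 = g • f.1 • (rep f.2 (f.1⁻¹ • i)).1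
        have h1 : (g * f.1)⁻¹ • g • i = f.1⁻¹ • i := by
          rw [mul_inv_rev, mul_smul, inv_smul_smul]
        rw [h1, mul_smul]
      glam := fun g f k => mul_smul g f.1 k
      free := by
        intro g f h
        have h1 : g * f.1 = f.1 := congrArg Prod.fst h
        exact mul_eq_right.1 h1
      trans := by
        intro f f' h
        refine ⟨f'.1 * f.1⁻¹, Prod.ext ?_ h⟩
        change f'.1 * f.1⁻¹ * f.1 = f'.1
        rw [inv_mul_cancel_right]
      ponto := fun q => ⟨(1, q), rfl⟩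
      same := by
        intro f f' h
        refine hrep2 f.2 f'.2 (f'.1⁻¹ * f.1) (fun i => ?_)
        have h1 := congrArg Subtype.val (congrFun h (f.1 • i))
        change f.1 • (rep f.2 (f.1⁻¹ • f.1 • i)).1 = f'.1 • (rep f'.2 (f'.1⁻¹ • f.1 • i)).1 at h1
        rw [inv_smul_smul] at h1
        rw [mul_smul, h1, inv_smul_smul]
        rw [mul_smul] }
  obtain ⟨m, X, L', hX, hL', -, -, -⟩ := fqc L R
  exact ⟨nP, m, X, L.forest, L.act, hX, _, _, L', hL'⟩

end

end LatF
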