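import Pool.Agent.Lib.MP_32d917_al.FDefs
import Pool.Agent.Lib.MP_32d917_al.F.FTTL

/-!
# equality in the universal group = equality of frames

(⟸) transport `fttl` with `Y = UG X × P`. (⟹) the endpoints agree by the homomorphism to
`FreeGroup P`; choose a frame over every object, this gives a homomorphism `UG X →* G`.
-/

set_option autoImplicit false

namespace LatF

open LatIso LatN

section UGIaux

variable {ι P A : Type} {X : FD ι P A}

theorem ugi_rel {r : FreeGroup A} (h : Rel0 X r) :
    (PresentedGroup.mk {r | Rel0 X r}) r = 1 :=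
  PresentedGroup.one_of_mem (rels := {r | Rel0 X r}) h

theorem ugi_of (a : A) : (PresentedGroup.mk {r | Rel0 X r}) (FreeGroup.of a) = ug X a := rfl

theorem ugi_one (p : P) : ug X (X.e p) = 1 := by
  have h := ugi_rel (Rel0.one (X := X) p)
  rwa [ugi_of] at h

theorem ugi_inv (a : A) : ug X a * ug X (X.i a) = 1 := by
  have h := ugi_rel (Rel0.inv (X := X) a)
  rwa [map_mul, ugi_of, ugi_of] at h

theorem ugi_ml {s a : A} (h : X.lc s a) : ug X (X.ml s a) = ug X s * ug X a := by
  have h1 := ugi_rel (Rel0.ml (X := X) s a h)
  rw [map_mul, map_mul, map_inv, ugi_of, ugi_of, ugi_of] at h1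
  exact (mul_inv_eq_one.1 h1).symm

theorem ugi_sq {a b c d : A} (h : X.sq a b c d) : ug X a * ug X b = ug X c * ug X d := by
  have h1 := ugi_rel (Rel0.sq (X := X) a b c d h)
  rw [map_mul, map_mul, map_mul, map_inv, map_inv, ugi_of, ugi_of, ugi_of, ugi_of] at h1
  have h2 := mul_inv_eq_one.1 h1
  exact mul_inv_eq_iff_eq_mul.1 h2

/-- the endpoint of a path -/
def ugi_end (X : FD ι P A) : P → List A → P
  | p, [] => p
  | _, a :: w => ugi_end X (X.t a) w

/-- a homomorphism on the universal group -/
theorem ugi_lift {H : Type} [Group H] (c : A → H) (h1 : ∀ p, c (X.e p) = 1)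
    (h2 : ∀ a, c a * c (X.i a) = 1) (h3 : ∀ s a, X.lc s a → c (X.ml s a) = c s * c a)
    (h4 : ∀ a b c' d, X.sq a b c' d → c a * c b = c c' * c d) :
    ∃ C : UG X →* H, ∀ a, C (ug X a) = c a := by
  have key : ∀ r ∈ {r | Rel0 X r}, FreeGroup.lift c r = 1 := by
    intro r hr
    cases hr with
    | one p => rw [FreeGroup.lift_apply_of]; exact h1 p
    | inv a => rw [map_mul, FreeGroup.lift_apply_of, FreeGroup.lift_apply_of]; exact h2 a
    | ml s a h =>
      rw [map_mul, map_mul, map_inv, FreeGroup.lift_apply_of, FreeGroup.lift_apply_of,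
        FreeGroup.lift_apply_of, h3 s a h]
      exact mul_inv_cancel _
    | sq a b c' d h =>
      rw [map_mul, map_mul, map_mul, map_inv, map_inv, FreeGroup.lift_apply_of,
        FreeGroup.lift_apply_of, FreeGroup.lift_apply_of, FreeGroup.lift_apply_of, h4 a b c' d h,
        mul_inv_cancel_right]
      exact mul_inv_cancel _
  refine ⟨PresentedGroup.toGroup key, fun a => ?_⟩
  exact PresentedGroup.toGroup.of key

/-- the universal group knows the endpoints -/
theorem ugi_ends (hX : Valid0 X) (p : P) (w w' : List A) (hw : IsPath X p w)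
    (hw' : IsPath X p w') (he : (w.map (ug X)).prod = (w'.map (ug X)).prod) :
    ugi_end X p w = ugi_end X p w' := by
  obtain ⟨E, hE⟩ := ugi_lift (X := X) (fun a => (FreeGroup.of (X.o a))⁻¹ * FreeGroup.of (X.t a))
    (fun p => by simp only [hX.oe, hX.te]; exact inv_mul_cancel _)
    (fun a => by
      simp only [hX.oi, hX.ti]
      group)
    (fun s a h => by
      simp only [hX.mlo s a h, hX.mlt s a h, h.2]
      group)
    (fun a b c d h => by
      have hT := hX.sqT _ _ _ _ h
      simp only [hT.oac, hT.tab, hT.tcd, hT.tbd]
      group)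
  have hp : ∀ (w : List A) (p : P), IsPath X p w →
      E (w.map (ug X)).prod = (FreeGroup.of p)⁻¹ * FreeGroup.of (ugi_end X p w) := by
    intro w
    induction w with
    | nil =>
      intro p _
      simp only [List.map_nil, List.prod_nil, map_one, ugi_end]
      exact (inv_mul_cancel _).symm
    | cons a w ih =>
      intro p h
      have h1 : X.o a = p := h.1
      rw [List.map_cons, List.prod_cons, map_mul, hE, ih _ h.2, ugi_end]
      simp only [h1]
      group
  have h1 := hp w p hw
  have h2 := hp w' p hw'
  rw [he, h2] at h1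
  exact (FreeGroup.of_injective (mul_left_cancel h1)).symm

end UGIaux

section

variable {ι P A : Type} {X : FD ι P A} {G : Type} [Group G] {V ι' : Type} [Fintype ι']
  [MulAction G V] [MulAction G ι'] {κ : V → ι'} {S : SimpleGraph V} {F : Type} [MulAction G F]

/-- equality in the universal group and equality of frames -/
theorem ug_iff (hX : Valid0 X) {L : LF X (comp κ S) F} (hS : ∀ i, (comp κ S i).IsTree)
    (hL : Cov G L) (f : F) (w w' : List A) (hw : IsPath X (L.p f) w)
    (hw' : IsPath X (L.p f) w') : (w.map (ug X)).prod = (w'.map (ug X)).prod ↔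
      actW L f w = actW L f w' := by
  constructor
  · intro he
    have hend := ugi_ends hX _ w w' hw hw' he
    choose z hz using hL.onto
    have hc : ∀ a : A, ∃ g : G, g • z (X.t a) = L.act (z (X.o a)) a := by
      intro a
      refine hL.trans _ _ ?_
      rw [hz, L.act_p _ _ (hz (X.o a)).symm]
    choose c hc using hc
    have hfree : ∀ (g h : G) (x : F), g • x = h • x → g = h := by
      intro g h x hx
      have h1 : (h⁻¹ * g) • x = x := by rw [mul_smul, hx, inv_smul_smul]
      have h2 := hL.free _ _ h1
      rw [inv_mul_eq_one] at h2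
      exact h2.symm
    obtain ⟨C, hC⟩ := ugi_lift (X := X) c
      (by
        intro p
        have h1 := hc (X.e p)
        rw [hX.te, hX.oe] at h1
        have h2 := L.act_e (z p)
        rw [hz p] at h2
        rw [h2] at h1
        exact hL.free _ _ h1)
      (by
        intro a
        have h1 := hc (X.i a)
        rw [hX.ti, hX.oi] at h1
        apply hL.free _ (z (X.o a))
        rw [mul_smul, h1, ← hL.gact _ _ _ (by rw [hX.oi, hz]), hc a,
          L.act_i _ _ (hz (X.o a)).symm])
      (by
        intro s a h
        have h1 := hc (X.ml s a)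
        rw [hX.mlt s a h, hX.mlo s a h] at h1
        apply hfree _ _ (z (X.t a))
        rw [h1, mul_smul, hc a, ← hL.gact _ _ _ (hz (X.o a)).symm, ← h.2, hc s,
          L.act_ml _ _ _ (hz (X.o s)).symm h])
      (by
        intro a b c' d h
        have hT := hX.sqT _ _ _ _ h
        apply hfree _ _ (z (X.t b))
        have h1 : (c a * c b) • z (X.t b) = L.act (L.act (z (X.o a)) a) b := by
          rw [mul_smul, hc b, ← hL.gact _ _ _ (hz (X.o b)).symm, ← hT.tab, hc a]
        have h2 : (c c' * c d) • z (X.t d) = L.act (L.act (z (X.o c')) c') d := by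
          rw [mul_smul, hc d, ← hL.gact _ _ _ (hz (X.o d)).symm, ← hT.tcd, hc c']
        rw [h1, hT.tbd, h2, ← hT.oac, L.act_sq _ _ _ _ _ (hz (X.o a)).symm h])
    have hpath : ∀ (w : List A) (p : P) (g : G), IsPath X p w →
        actW L (g • z p) w = (g * C (w.map (ug X)).prod) • z (ugi_end X p w) := by
      intro w
      induction w with
      | nil =>
        intro p g _
        simp only [actW, List.foldl_nil, List.map_nil, List.prod_nil, map_one, mul_one, ugi_end]
      | cons a w ih =>
        intro p g h
        have h1 : X.o a = p := h.1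
        have h2 : actW L (g • z p) (a :: w) = actW L (L.act (g • z p) a) w := rfl
        have h3 : L.act (g • z p) a = (g * c a) • z (X.t a) := by
          rw [hL.gact _ _ _ (by rw [hz, h1]), mul_smul, hc a, h1]
        rw [h2, h3, ih _ _ h.2, List.map_cons, List.prod_cons, map_mul, hC, mul_assoc, ugi_end]
    obtain ⟨g, hg⟩ := hL.trans (z (L.p f)) f (hz _)
    have h1 := hpath w (L.p f) g hw
    have h2 := hpath w' (L.p f) g hw'
    rw [hg] at h1 h2
    rw [h1, h2, he, hend]
  · intro he
    obtain ⟨Φ, h0, h1, h2⟩ := fttl hX hS L (Y := UG X × P) Prod.snd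
      (fun y a => (y.1 * ug X a, X.t a)) (fun _ _ _ => rfl)
      (fun y => by
        refine Prod.ext ?_ ?_
        · change y.1 * ug X (X.e y.2) = y.1
          rw [ugi_one, mul_one]
        · exact hX.te _)
      (fun y a ha => by
        refine Prod.ext ?_ ?_
        · change y.1 * ug X a * ug X (X.i a) = y.1
          rw [mul_assoc, ugi_inv, mul_one]
        · change X.t (X.i a) = y.2
          rw [hX.ti, ha])
      (fun y s a _ h => by
        refine Prod.ext ?_ ?_
        · change y.1 * ug X (X.ml s a) = y.1 * ug X s * ug X a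
          rw [ugi_ml h, mul_assoc]
        · exact hX.mlt s a h)
      (fun y a b c d _ h => by
        refine Prod.ext ?_ ?_
        · change y.1 * ug X a * ug X b = y.1 * ug X c * ug X d
          rw [mul_assoc, ugi_sq h, mul_assoc]
        · exact (hX.sqT _ _ _ _ h).tbd)
      f (1, L.p f) rfl
    have hpath : ∀ (w : List A) (g : F), IsPath X (L.p g) w →
        (Φ (actW L g w)).1 = (Φ g).1 * (w.map (ug X)).prod := by
      intro w
      induction w with
      | nil =>
        intro g _
        simp only [actW, List.foldl_nil, List.map_nil, List.prod_nil, mul_one]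
      | cons a w ih =>
        intro g h
        have h3 : X.o a = L.p g := h.1
        have h4 : actW L g (a :: w) = actW L (L.act g a) w := rfl
        have h5 : IsPath X (L.p (L.act g a)) w := by
          rw [L.act_p _ _ h3]
          exact h.2
        rw [h4, ih _ h5, h2 _ _ h3, List.map_cons, List.prod_cons, mul_assoc]
    have h3 := hpath w f hw
    have h4 := hpath w' f hw'
    rw [he, h4, h0] at h3
    simpa using h3.symm

end

end LatF
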