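import Pool.Agent.Lib.MP_32d917_al.FDefs
import Pool.Agent.Lib.MP_32d917_al.F.PAR
import Pool.Agent.Lib.MP_32d917_al.F.PARB
import Pool.Agent.Lib.MP_32d917_al.F.UGI

/-!
# the data of the slid forest are a certified result

`L`, `L'` are framed by the same `F`, `pt`, `lam`, `p`. Let `(v, x) = mvE L f₀ a`, `(v, u) = mvE L f₀ b`. For every arrow `m` of `Y` choose a frame `f_m` with `p f_m = Y.o m` and put `f' = L'.act f_m m`. Same point: `φ₁ m` = the stationary arrow `f_m → f'` of `X` (L.sur), `φ₂ m = X.e _`. Edge of `S'` which is an edge of `S` (and not in the orbits of `(v, x)`, `(x, v)`): `φ₁ m` = the arrow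
`f_m → f'`, `φ₂ m = e`. New edge `(u', x')` (`SlAt`: `(u', x') = g (u, x)`; `v' = g v`): choose a frame `f₁` over the point with coordinate `v'`; `φ₁ m` : `f_m → f₁`, `φ₂ m` : `f₁ → f'` arrows of `X`. Reverse `(x', u')`: same with `v'`. In all cases `act (act f (φ₁ m)) (φ₂ m) = L'.act f m` for ALL frames `f` over `Y.o m` (translate by `G`).
Fields: o₁, o₂, t₂: clear; pm: `act_lam` of `L`, `L'` and injectivity of `lam`; mv, ty: the coordinate moved. kind: par_iff, par2_iff (`g (v, x, u)`). old: given `c` neither parallel to `a` nor `i c` parallel to `a`: frame `f` over `o c`; the arrow `m` of `Y` from `f` to `L.act f c`; `φ₁ m = c` by `inj` (at `f_m`, translate), `φ₂ m = e`. (If `c` is stationary: same.) new: `Par2 X a b a' b'`: frame `f` over `o a'`, `f₁ = act f b'`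
(coordinate `u'`), `f₂ = act f a'` (coordinate `x'`), `m` := the arrow of `Y` from `f₁` to `f₂`; `φ₁ m = i b''`, `φ₂ m = a''` at `f₁`: `act f₁ (i b'')` is over the point with coordinate the midpoint of `u'` and `x'`, which is `v'` (unique in a tree), the point of `f`; so with `s` : `act f₁ (i b'') → f` stationary, `b'' = ml s b'`, `a'' = ml s a'` (`inj`). Note that the representative at `f_m` and at `f₁` is the
same (translation). inj₀: the same words from the same object: `act' f m = act' f m'`. inj₁: the two words lead from `f` to the same frame: compute; then `L'.inj`. hom: `PresentedGroup.toGroup` with `m ↦ ug X (φ₁ m) * ug X (φ₂ m)`: for every relator of `UG Y` the two sides are paths of `X` with the same origin leading to the same frame (axioms of `L'`), so equal in `UG X` by `ug_iff` (⟸).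
-/

set_option autoImplicit false

namespace LatF

open LatIso LatN

section

variable {ι P A A' : Type} {X : FD ι P A} {Y : FD ι P A'} {G : Type} [Group G] {V ι' : Type}
  [Fintype ι'] [MulAction G V] [MulAction G ι'] {κ : V → ι'} {S S' : SimpleGraph V}
  {F : Type} [MulAction G F]

omit [Fintype ι'] in
private theorem FRC_stpU {i j : ι'} {x y : ∀ i, Fib κ i} (h : Stp (comp κ S) i x y)
    (h' : Stp (comp κ S) j x y) : i = j := by
  by_contra hne
  have h1 := h.2 j (fun e => hne e.symm)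
  have h2 := h'.1
  rw [h1] at h2
  exact (comp κ S j).irrefl h2

omit [Fintype ι'] in
private theorem FRC_tri (hF : Forest κ S) {p q r : V} (h1 : S.Adj p q) (h2 : S.Adj q r)
    (h3 : S.Adj p r) : False := by
  have hT := (hF.tree (κ p)).isAcyclic
  let p' : Fib κ (κ p) := ⟨p, rfl⟩
  let q' : Fib κ (κ p) := ⟨q, (hF.kap _ _ h1).symm⟩
  let r' : Fib κ (κ p) := ⟨r, (hF.kap _ _ h3).symm⟩
  have a1 : (comp κ S (κ p)).Adj p' q' := h1
  have a2 : (comp κ S (κ p)).Adj q' r' := h2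
  have a3 : (comp κ S (κ p)).Adj p' r' := h3
  have w1 : (SimpleGraph.Walk.cons a3 SimpleGraph.Walk.nil).IsPath := by
    simp [a3.ne]
  have w2 : (SimpleGraph.Walk.cons a1 (SimpleGraph.Walk.cons a2 SimpleGraph.Walk.nil)).IsPath := by
    simp [a1.ne, a2.ne, a3.ne]
  have e := (hT.subsingleton_path _ _).elim ⟨_, w1⟩ ⟨_, w2⟩
  have e' := congrArg (fun w => w.1.length) e
  simp at e'

omit [Fintype ι'] in
private theorem FRC_mid (hF : Forest κ S) {p r q q' : V} (hne : p ≠ r) (h1 : S.Adj q p)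
    (h2 : S.Adj q r) (h3 : S.Adj q' p) (h4 : S.Adj q' r) : q = q' := by
  have hT := (hF.tree (κ p)).isAcyclic
  let p1 : Fib κ (κ p) := ⟨p, rfl⟩
  let q1 : Fib κ (κ p) := ⟨q, hF.kap _ _ h1⟩
  let q2 : Fib κ (κ p) := ⟨q', hF.kap _ _ h3⟩
  let r1 : Fib κ (κ p) := ⟨r, by rw [← hF.kap _ _ h2, hF.kap _ _ h1]⟩
  have a1 : (comp κ S (κ p)).Adj p1 q1 := h1.symm
  have a2 : (comp κ S (κ p)).Adj q1 r1 := h2
  have a3 : (comp κ S (κ p)).Adj p1 q2 := h3.symm
  have a4 : (comp κ S (κ p)).Adj q2 r1 := h4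
  have hpr : p1 ≠ r1 := fun e => hne (congrArg Subtype.val e)
  have w1 : (SimpleGraph.Walk.cons a1 (SimpleGraph.Walk.cons a2 SimpleGraph.Walk.nil)).IsPath := by
    simp [a1.ne, a2.ne, hpr]
  have w2 : (SimpleGraph.Walk.cons a3 (SimpleGraph.Walk.cons a4 SimpleGraph.Walk.nil)).IsPath := by
    simp [a3.ne, a4.ne, hpr]
  have e := (hT.subsingleton_path _ _).elim ⟨_, w1⟩ ⟨_, w2⟩
  have e' := congrArg (fun w => w.1.support) e
  simp only [SimpleGraph.Walk.support_cons, SimpleGraph.Walk.support_nil] at e'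
  have e2 : q1 = q2 := by
    injection e' with _ e3
    injection e3
  exact congrArg Subtype.val e2

/-- the arrow `c` at the frame `f` moves the coordinate `j` from `y` to `y'` -/
private structure FRC_M (L : LF X (comp κ S) F) (f : F) (c : A) (j : ι') (y y' : V) : Prop where
  o : X.o c = L.p f
  mv : X.mv c
  ty : L.lam f (X.ty c) = j
  fst : (L.pt f j).1 = y
  snd : (L.pt (L.act f c) j).1 = y'

omit [Fintype ι'] [MulAction G V] [MulAction G ι'] [MulAction G F] in
private theorem FRC_M.mvE {L : LF X (comp κ S) F} {f : F} {c : A} {j : ι'} {y y' : V}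
    (h : FRC_M L f c j y y') : mvE L f c = (y, y') := by
  obtain ⟨_, _, rfl, rfl, rfl⟩ := h
  rfl

omit [Fintype ι'] [MulAction G V] [MulAction G ι'] [MulAction G F] in
private theorem FRC_M.adj {L : LF X (comp κ S) F} {f : F} {c : A} {j : ι'} {y y' : V}
    (h : FRC_M L f c j y y') : S.Adj y y' := by
  obtain ⟨ho, hm, rfl, rfl, rfl⟩ := h
  exact (L.mo f c ho hm).1

omit [Fintype ι'] [MulAction G V] [MulAction G ι'] [MulAction G F] in
private theorem FRC_M.oth {L : LF X (comp κ S) F} {f : F} {c : A} {j : ι'} {y y' : V}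
    (h : FRC_M L f c j y y') (i : ι') (hi : i ≠ j) : L.pt (L.act f c) i = L.pt f i := by
  obtain ⟨ho, hm, rfl, rfl, rfl⟩ := h
  exact (L.mo f c ho hm).2 i hi

omit [Fintype ι'] [MulAction G V] [MulAction G ι'] [MulAction G F] in
private theorem FRC_M.inv (hX : Valid0 X) {L : LF X (comp κ S) F} {f : F} {c : A} {j : ι'}
    {y y' : V} (h : FRC_M L f c j y y') : FRC_M L (L.act f c) (X.i c) j y' y := by
  have hp := L.act_p f c h.o
  refine ⟨by rw [hX.oi, hp], (hX.mi c).2 h.mv, ?_, h.snd, ?_⟩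
  · rw [hX.tyi c h.mv, L.act_lam f c h.o, h.ty]
  · rw [L.act_i f c h.o, h.fst]

omit [Fintype ι'] [MulAction G V] [MulAction G ι'] [MulAction G F] in
private theorem FRC_M.of {L : LF X (comp κ S) F} {f : F} {c : A} (ho : X.o c = L.p f)
    (hm : X.mv c) : FRC_M L f c (L.lam f (X.ty c)) (LatF.mvE L f c).1 (LatF.mvE L f c).2 :=
  ⟨ho, hm, rfl, rfl, rfl⟩

omit [Fintype ι'] [MulAction G V] [MulAction G ι'] [MulAction G F] in
private theorem FRC_M.sur (L : LF X (comp κ S) F) {f f' : F} {j : ι'}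
    (hi : ∀ i, i ≠ j → L.pt f' i = L.pt f i) (ha : S.Adj (L.pt f j).1 (L.pt f' j).1) :
    ∃ c, FRC_M L f c j (L.pt f j).1 (L.pt f' j).1 ∧ L.act f c = f' := by
  have hs : Stp (comp κ S) j (L.pt f) (L.pt f') := ⟨ha, hi⟩
  obtain ⟨c, ho, hc⟩ := L.sur f f' (Or.inr ⟨j, hs⟩)
  have hm : X.mv c := by
    by_contra hn
    have h1 := L.st f c ho hn
    rw [hc] at h1
    rw [h1] at ha
    exact S.irrefl ha
  have h1 := L.mo f c ho hm
  rw [hc] at h1
  exact ⟨c, ⟨ho, hm, FRC_stpU h1 hs, rfl, by rw [hc]⟩, hc⟩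

private theorem FRC_par (hX : Valid0 X) {L : LF X (comp κ S) F} (hS : Forest κ S) (hL : Cov G L)
    {f f' : F} {a a' : A} {j j' : ι'} {y z y' z' : V} (h : FRC_M L f a j y z)
    (h' : FRC_M L f' a' j' y' z') : Par X a a' ↔ ∃ g : G, g • y = y' ∧ g • z = z' := by
  have h1 := par_iff hX hS hL f f' a a' h.o h'.o h.mv h'.mv
  rw [h.mvE, h'.mvE] at h1
  exact h1

private theorem FRC_par2 (hX : Valid0 X) {L : LF X (comp κ S) F} (hS : Forest κ S) (hL : Cov G L)
    {f f' : F} {a a' b b' : A} {j j' : ι'} {y z w y' z' w' : V} (h : FRC_M L f a j y z)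
    (k : FRC_M L f b j y w) (h' : FRC_M L f' a' j' y' z') (k' : FRC_M L f' b' j' y' w') :
    Par2 X a b a' b' ↔ ∃ g : G, g • y = y' ∧ g • z = z' ∧ g • w = w' := by
  have h1 := par2_iff hX hS hL f f' a b a' b' h.o k.o h'.o k'.o h.mv k.mv h'.mv k'.mv
    ((L.bij f).1 (by rw [h.ty, k.ty])) ((L.bij f').1 (by rw [h'.ty, k'.ty]))
  rw [h.mvE, h'.mvE, k.mvE, k'.mvE] at h1
  exact h1

private theorem FRC_pmv (hX : Valid0 X) {a c : A} (h : Par X a c) (ha : X.mv a) : X.mv c := by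
  induction h with
  | refl => exact ha
  | ml a' s _ hl ih => exact (hX.mlm s a' hl).2 ih
  | mr a' s _ hr ih => exact (val_mrm hX hr).2 ih
  | sq a' b c d _ hs ih => exact (hX.sqT _ _ _ _ hs).md

private theorem FRC_p2 (hX : Valid0 X) {a b a' b' : A} (h : Par2 X a b a' b') (ho : X.o a = X.o b)
    (ht : X.ty a = X.ty b) (ha : X.mv a) (hb : X.mv b) :
    X.o a' = X.o b' ∧ X.ty a' = X.ty b' ∧ X.mv a' ∧ X.mv b' := by
  induction h with
  | refl => exact ⟨ho, ht, ha, hb⟩
  | ml a' b' s _ hl ih =>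
    obtain ⟨h1, h2, h3, h4⟩ := ih
    have hl' : X.lc s b' := ⟨hl.1, by rw [hl.2, h1]⟩
    refine ⟨by rw [hX.mlo s a' hl, hX.mlo s b' hl'], ?_, (hX.mlm s a' hl).2 h3,
      (hX.mlm s b' hl').2 h4⟩
    have h5 := hX.mly s a' hl h3
    have h6 := hX.mly s b' hl' h4
    rw [← hX.pi s (X.ty (X.ml s a')), h5, h2, ← h6, hX.pi]
  | mr1 a' b' s _ hr ih =>
    obtain ⟨h1, h2, h3, h4⟩ := ih
    exact ⟨by rw [val_mro hX hr, h1], by rw [val_mry hX hr h3, h2], (val_mrm hX hr).2 h3, h4⟩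
  | mr2 a' b' s _ hr ih =>
    obtain ⟨h1, h2, h3, h4⟩ := ih
    exact ⟨by rw [val_mro hX hr, h1], by rw [val_mry hX hr h4, h2], h3, (val_mrm hX hr).2 h4⟩
  | sq a' b' c c₁ c₂ d₁ d₂ _ hs1 hs2 ih =>
    obtain ⟨h1, h2, h3, h4⟩ := ih
    have T1 := hX.sqT _ _ _ _ hs1
    have T2 := hX.sqT _ _ _ _ hs2
    exact ⟨by rw [← T1.tcd, T2.tcd], by rw [T1.tyd, T2.tyd, h2], T1.md, T2.md⟩

/-- the data of a slide -/
private structure FRC_D (G : Type) [Group G] [MulAction G V] (L : LF X (comp κ S) F)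
    (S' : SimpleGraph V) (a b : A) (f₀ : F) (j₀ : ι') (v x u : V) : Prop where
  ma : FRC_M L f₀ a j₀ v x
  mb : FRC_M L f₀ b j₀ v u
  sl : ∀ c d, S'.Adj c d ↔ (S.Adj c d ∧ ∀ g : G, ¬ (g • v = c ∧ g • x = d) ∧
    ¬ (g • v = d ∧ g • x = c)) ∨ ∃ g : G, (g • u = c ∧ g • x = d) ∨ (g • u = d ∧ g • x = c)
  ne : u ≠ x

private theorem FRC_dat (hX : Valid0 X) (h : FLat0 G κ S) {L : LF X (comp κ S) F} (hL : Cov G L)
    {a b : A} (hl : Legal X a b) (hs : SlAt G L S' a b) :
    ∃ f₀ j₀ v x u, FRC_D G L S' a b f₀ j₀ v x u := by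
  obtain ⟨f₀, ho, hs⟩ := hs
  have ha := FRC_M.of (L := L) ho hl.ma
  have ho' : X.o b = L.p f₀ := by rw [← hl.o, ho]
  have hb := FRC_M.of (L := L) ho' hl.mb
  have h2 : (mvE L f₀ b).1 = (mvE L f₀ a).1 := by
    unfold mvE
    rw [hl.ty]
  rw [h2, ← hl.ty] at hb
  refine ⟨f₀, _, _, _, _, ha, hb, hs, ?_⟩
  intro e
  apply hl.n1
  rw [FRC_par hX h.forest hL ha hb]
  exact ⟨1, by rw [one_smul], by rw [one_smul, e]⟩

private theorem FRC_at (hX : Valid0 X) (h : FLat0 G κ S) {L : LF X (comp κ S) F} (hL : Cov G L)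
    {a b : A} {f₀ : F} {j₀ : ι'} {v x u : V} (D : FRC_D G L S' a b f₀ j₀ v x u) {a' b' : A}
    (hp : Par2 X a b a' b') {f : F} (hf : X.o a' = L.p f) :
    ∃ (g : G) (j : ι'), FRC_M L f a' j (g • v) (g • x) ∧ FRC_M L f b' j (g • v) (g • u) := by
  have ht : X.ty a = X.ty b := (L.bij f₀).1 (by rw [D.ma.ty, D.mb.ty])
  obtain ⟨h1, h2, h3, h4⟩ := FRC_p2 hX hp (D.ma.o.trans D.mb.o.symm) ht D.ma.mv D.mb.mv
  have ha' := FRC_M.of (L := L) hf h3
  have ho' : X.o b' = L.p f := by rw [← h1, hf]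
  have hb' := FRC_M.of (L := L) ho' h4
  have h5 : (mvE L f b').1 = (mvE L f a').1 := by
    unfold mvE
    rw [h2]
  rw [h5, ← h2] at hb'
  obtain ⟨g, e1, e2, e3⟩ := (FRC_par2 hX h.forest hL D.ma D.mb ha' hb').1 hp
  refine ⟨g, L.lam f (X.ty a'), ?_, ?_⟩
  · rw [e1, e2]; exact ha'
  · rw [e1, e3]; exact hb'

omit [Fintype ι'] in
/-- an arrow does not lead to a frame with a coordinate at distance two -/
private theorem FRC_no (hF : Forest κ S) {L : LF X (comp κ S) F} {f : F} {c : A} {j : ι'}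
    {p q w : V} (ho : X.o c = L.p f) (h1 : (L.pt f j).1 = p) (h2 : (L.pt (L.act f c) j).1 = q)
    (hne : p ≠ q) (hp : S.Adj w p) (hq : S.Adj w q) : False := by
  have hm : X.mv c := by
    by_contra hn
    rw [L.st f c ho hn, h1] at h2
    exact hne h2
  have hM := FRC_M.of (L := L) ho hm
  have hj : L.lam f (X.ty c) = j := by
    by_contra hj
    have h3 := hM.oth j (fun e => hj e.symm)
    rw [h3, h1] at h2
    exact hne h2
  have h3 := (L.mo f c ho hm).1
  rw [hj] at h3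
  have h4 : S.Adj p q := by
    rw [← h1, ← h2]
    exact h3
  exact FRC_tri hF hp h4 hq

/-- the words of the arrow `m` -/
private structure FRC_K (L : LF X (comp κ S) F) (L' : LF Y (comp κ S') F) (a b : A) (m : A')
    (c d : A) : Prop where
  o : X.o c = Y.o m
  od : X.o d = X.t c
  act : ∀ f, L.p f = Y.o m → L.act (L.act f c) d = L'.act f m
  mv : Y.mv m ↔ X.mv c
  ty : Y.mv m → Y.ty m = X.ty c
  kind : (¬ Par X a c ∧ ¬ Par X a (X.i c) ∧ d = X.e (X.t c)) ∨
    Par2 X a b d (X.i c) ∨ Par2 X a b (X.i c) d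

private theorem FRC_key0 (hX : Valid0 X) (h : FLat0 G κ S) {L : LF X (comp κ S) F}
    (hL : Cov G L) {a b : A} {f₀ : F} {j₀ : ι'} {v x u : V}
    (D : FRC_D G L S' a b f₀ j₀ v x u) {L' : LF Y (comp κ S') F} (h1 : L'.pt = L.pt)
    (h2 : L'.lam = L.lam) (h3 : L'.p = L.p) (m : A') (f : F) (hf : L.p f = Y.o m) :
    ∃ c d, X.o c = Y.o m ∧ X.o d = X.t c ∧ L.act (L.act f c) d = L'.act f m ∧
      (Y.mv m ↔ X.mv c) ∧ (Y.mv m → Y.ty m = X.ty c) ∧
      ((¬ Par X a c ∧ ¬ Par X a (X.i c) ∧ d = X.e (X.t c)) ∨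
        Par2 X a b d (X.i c) ∨ Par2 X a b (X.i c) d) := by
  classical
  have hf' : Y.o m = L'.p f := by rw [h3, hf]
  have ee : ∀ c, X.o c = L.p f → L.act (L.act f c) (X.e (X.t c)) = L.act f c := by
    intro c hc
    rw [← L.act_p f c hc, L.act_e]
  by_cases hm : Y.mv m
  · have hs := L'.mo f m hf' hm
    rw [h1, h2] at hs
    obtain ⟨f', hf1⟩ : ∃ f', f' = L'.act f m := ⟨_, rfl⟩
    obtain ⟨j, hj⟩ : ∃ j, j = L.lam f (Y.ty m) := ⟨_, rfl⟩
    rw [← hf1, ← hj] at hs
    rw [← hf1]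
    have hadj : S'.Adj (L.pt f j).1 (L.pt f' j).1 := hs.1
    have hty : ∀ c, L.lam f (X.ty c) = j → Y.ty m = X.ty c := fun c hc =>
      (L.bij f).1 (by rw [hc, hj])
    have hv : ∀ g : G, κ (g • v) = κ (g • u) := fun g =>
      h.forest.kap _ _ (h.act.adj g _ _ D.mb.adj)
    have hv' : ∀ g : G, κ (g • v) = κ (g • x) := fun g =>
      h.forest.kap _ _ (h.act.adj g _ _ D.ma.adj)
    rcases (D.sl _ _).1 hadj with ⟨ha, hno⟩ | ⟨g, ⟨hu, hx⟩ | ⟨hu, hx⟩⟩
    · obtain ⟨c, hM, hc⟩ := FRC_M.sur L hs.2 ha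
      refine ⟨c, X.e (X.t c), by rw [hM.o, hf], hX.oe _, by rw [ee c hM.o, hc],
        iff_of_true hm hM.mv, fun _ => hty c hM.ty, Or.inl ⟨?_, ?_, rfl⟩⟩
      · rw [FRC_par hX h.forest hL D.ma hM]
        rintro ⟨g, e⟩
        exact (hno g).1 e
      · rw [FRC_par hX h.forest hL D.ma (hM.inv hX)]
        rintro ⟨g, e⟩
        exact (hno g).2 e
    · have hκ : κ (g • v) = j := by rw [hv, hu]; exact (L.pt f j).2
      obtain ⟨f₁, hf₁⟩ := L.onto (Function.update (L.pt f) j ⟨g • v, hκ⟩)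
      have e1 : (L.pt f₁ j).1 = g • v := by rw [hf₁, Function.update_self]
      have e2 : ∀ i, i ≠ j → L.pt f₁ i = L.pt f i := by
        intro i hi
        rw [hf₁, Function.update_of_ne hi]
      obtain ⟨c, hM, hc⟩ := FRC_M.sur L e2 (by
        rw [e1, ← hu]; exact (h.act.adj g _ _ D.mb.adj).symm)
      obtain ⟨d, hM', hd⟩ := FRC_M.sur L (f := f₁) (f' := f') (j := j) (by
        intro i hi
        rw [e2 i hi, hs.2 i hi]) (by
        rw [e1, ← hx]; exact h.act.adj g _ _ D.ma.adj)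
      refine ⟨c, d, by rw [hM.o, hf], by rw [hM'.o, ← hc, L.act_p f c hM.o], by rw [hc, hd],
        iff_of_true hm hM.mv, fun _ => hty c hM.ty, Or.inr (Or.inl ?_)⟩
      have hI := hM.inv hX
      rw [hc] at hI
      rw [FRC_par2 hX h.forest hL D.ma D.mb hM' hI]
      exact ⟨g, e1.symm, hx, hu⟩
    · have hκ : κ (g • v) = j := by rw [hv', hx]; exact (L.pt f j).2
      obtain ⟨f₁, hf₁⟩ := L.onto (Function.update (L.pt f) j ⟨g • v, hκ⟩)
      have e1 : (L.pt f₁ j).1 = g • v := by rw [hf₁, Function.update_self]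
      have e2 : ∀ i, i ≠ j → L.pt f₁ i = L.pt f i := by
        intro i hi
        rw [hf₁, Function.update_of_ne hi]
      obtain ⟨c, hM, hc⟩ := FRC_M.sur L e2 (by
        rw [e1, ← hx]; exact (h.act.adj g _ _ D.ma.adj).symm)
      obtain ⟨d, hM', hd⟩ := FRC_M.sur L (f := f₁) (f' := f') (j := j) (by
        intro i hi
        rw [e2 i hi, hs.2 i hi]) (by
        rw [e1, ← hu]; exact h.act.adj g _ _ D.mb.adj)
      refine ⟨c, d, by rw [hM.o, hf], by rw [hM'.o, ← hc, L.act_p f c hM.o], by rw [hc, hd],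
        iff_of_true hm hM.mv, fun _ => hty c hM.ty, Or.inr (Or.inr ?_)⟩
      have hI := hM.inv hX
      rw [hc] at hI
      rw [FRC_par2 hX h.forest hL D.ma D.mb hI hM']
      exact ⟨g, e1.symm, hx, hu⟩
  · have hst := L'.st f m hf' hm
    rw [h1] at hst
    obtain ⟨c, ho, hc⟩ := L.sur f (L'.act f m) (Or.inl hst)
    have hmc : ¬ X.mv c := by
      intro hmc
      have h4 := (L.mo f c ho hmc).1
      rw [hc, hst] at h4
      exact (comp κ S _).irrefl h4
    refine ⟨c, X.e (X.t c), by rw [ho, hf], hX.oe _, by rw [ee c ho, hc],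
      iff_of_false hm hmc, fun h => absurd h hm, Or.inl ⟨?_, ?_, rfl⟩⟩
    · exact fun hp => hmc (FRC_pmv hX hp D.ma.mv)
    · exact fun hp => hmc ((hX.mi c).1 (FRC_pmv hX hp D.ma.mv))

private theorem FRC_key (hX : Valid0 X) (h : FLat0 G κ S) {L : LF X (comp κ S) F}
    (hL : Cov G L) {a b : A} {f₀ : F} {j₀ : ι'} {v x u : V}
    (D : FRC_D G L S' a b f₀ j₀ v x u) {L' : LF Y (comp κ S') F} (hL' : Cov G L')
    (h1 : L'.pt = L.pt) (h2 : L'.lam = L.lam) (h3 : L'.p = L.p) (m : A') :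
    ∃ c d, FRC_K L L' a b m c d := by
  obtain ⟨f, hf⟩ := hL'.onto (Y.o m)
  rw [h3] at hf
  obtain ⟨c, d, k1, k2, k3, k4, k5, k6⟩ := FRC_key0 hX h hL D h1 h2 h3 m f hf
  refine ⟨c, d, k1, k2, ?_, k4, k5, k6⟩
  intro f' hf'
  obtain ⟨g, rfl⟩ := hL.trans f f' (by rw [hf, hf'])
  have hc : X.o c = L.p f := by rw [k1, hf]
  rw [hL.gact g f c hc, hL.gact g _ d (by rw [k2, L.act_p f c hc]), k3,
    hL'.gact g f m (by rw [h3, hf])]

end

section

variable {ι P A A' : Type} {X : FD ι P A} {Y : FD ι P A'} {G : Type} [Group G] {V ι' : Type}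
  [Fintype ι'] [MulAction G V] [MulAction G ι'] {κ : V → ι'} {S S' : SimpleGraph V}

theorem res_of_cov {F : Type} [MulAction G F] (hX : Valid X) (hY : Valid Y) (h : FLat0 G κ S)
    (h' : FLat0 G κ S') {L : LF X (comp κ S) F} (hL : Cov G L) {a b : A} (hl : Legal X a b)
    (hs : SlAt G L S' a b) {L' : LF Y (comp κ S') F} (hL' : Cov G L') (h1 : L'.pt = L.pt)
    (h2 : L'.lam = L.lam) (h3 : L'.p = L.p) : ∃ φ₁ φ₂ : A' → A, Res X Y a b φ₁ φ₂ := by
  classical
  have hX0 := hX.v0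
  obtain ⟨f₀, j₀, v, x, u, D⟩ := FRC_dat hX0 h hL hl hs
  choose φ₁ φ₂ K using fun m => FRC_key hX0 h hL D hL' h1 h2 h3 m
  have vx : ∀ g : G, S.Adj (g • v) (g • x) := fun g => h.act.adj g _ _ D.ma.adj
  have vu : ∀ g : G, S.Adj (g • v) (g • u) := fun g => h.act.adj g _ _ D.mb.adj
  have ux : ∀ g : G, g • u ≠ g • x := fun g e => D.ne (smul_left_cancel g e)
  have ee : ∀ f c, X.o c = L.p f → L.act (L.act f c) (X.e (X.t c)) = L.act f c := by
    intro f c hc
    rw [← L.act_p f c hc, L.act_e]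
  have fr : ∀ q, ∃ f, L.p f = q := hL.onto
  have sur' : ∀ f f', (L.pt f' = L.pt f ∨ ∃ i, Stp (comp κ S') i (L.pt f) (L.pt f')) →
      ∃ m, Y.o m = L.p f ∧ L'.act f m = f' := by
    intro f f' hh
    rw [← h1] at hh
    rw [← h3]
    exact L'.sur f f' hh
  have inj' : ∀ f m m', Y.o m = L.p f → Y.o m' = L.p f → L'.act f m = L'.act f m' → m = m' := by
    intro f m m' hh hh'
    rw [← h3] at hh hh'
    exact L'.inj f m m' hh hh'
  have p' : ∀ f m, Y.o m = L.p f → L.p (L'.act f m) = Y.t m := by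
    intro f m hh
    rw [← h3] at hh ⊢
    exact L'.act_p f m hh
  have lam' : ∀ f m, Y.o m = L.p f → ∀ k, L.lam (L'.act f m) (Y.pm m k) = L.lam f k := by
    intro f m hh
    rw [← h3] at hh
    rw [← h2]
    exact L'.act_lam f m hh
  have t₂ : ∀ m, X.t (φ₂ m) = Y.t m := by
    intro m
    obtain ⟨f, hf⟩ := fr (Y.o m)
    have hc : X.o (φ₁ m) = L.p f := by rw [(K m).o, hf]
    have hd : X.o (φ₂ m) = L.p (L.act f (φ₁ m)) := by rw [(K m).od, L.act_p f _ hc]
    rw [← L.act_p _ _ hd, (K m).act f hf, p' f m hf.symm]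
  refine ⟨φ₁, φ₂,
    { valid := hY
      o₁ := fun m => (K m).o
      o₂ := fun m => (K m).od
      t₂ := t₂
      pm := ?_
      mv := fun m => (K m).mv
      ty := fun m => (K m).ty
      kind := fun m => (K m).kind
      old := ?_
      new := ?_
      inj₀ := ?_
      inj₁ := ?_
      hom := ?_ }⟩
  · -- pm
    intro m k
    obtain ⟨f, hf⟩ := fr (Y.o m)
    have hc : X.o (φ₁ m) = L.p f := by rw [(K m).o, hf]
    have hd : X.o (φ₂ m) = L.p (L.act f (φ₁ m)) := by rw [(K m).od, L.act_p f _ hc]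
    apply (L.bij (L'.act f m)).1
    rw [lam' f m hf.symm, ← (K m).act f hf, L.act_lam _ _ hd, L.act_lam _ _ hc]
  · -- old
    intro c hn hn'
    obtain ⟨f, hf⟩ := fr (X.o c)
    have hnear : L.pt (L.act f c) = L.pt f ∨
        ∃ i, Stp (comp κ S') i (L.pt f) (L.pt (L.act f c)) := by
      by_cases hm : X.mv c
      · right
        have hM := FRC_M.of (L := L) hf.symm hm
        refine ⟨L.lam f (X.ty c), ?_, hM.oth⟩
        refine (D.sl _ _).2 (Or.inl ⟨hM.adj, fun g => ⟨fun e => hn ?_, fun e => hn' ?_⟩⟩)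
        · exact (FRC_par hX0 h.forest hL D.ma hM).2 ⟨g, e⟩
        · exact (FRC_par hX0 h.forest hL D.ma (hM.inv hX0)).2 ⟨g, e⟩
      · left
        exact L.st f c hf.symm hm
    obtain ⟨m, hmo, hma⟩ := sur' f _ hnear
    have hc : X.o (φ₁ m) = L.p f := by rw [(K m).o, hmo]
    have hd : X.o (φ₂ m) = L.p (L.act f (φ₁ m)) := by rw [(K m).od, L.act_p f _ hc]
    have hact := (K m).act f hmo.symm
    rw [hma] at hact
    rcases (K m).kind with ⟨-, -, hk⟩ | hk | hk
    · rw [hk, ee _ _ hc] at hact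
      have e1 := L.inj f _ _ hc hf.symm hact
      refine ⟨m, e1, ?_⟩
      rw [hk, e1]
    · exfalso
      obtain ⟨g, j, M1, M2⟩ := FRC_at hX0 h hL D hk hd
      have e1 := M1.snd
      have e2 := M2.snd
      rw [hact] at e1
      rw [L.act_i f _ hc] at e2
      exact FRC_no h.forest hf.symm e2 e1 (ux g) (vu g) (vx g)
    · exfalso
      obtain ⟨g, j, M1, M2⟩ := FRC_at hX0 h hL D hk (f := L.act f (φ₁ m))
        (by rw [hX0.oi, L.act_p f _ hc])
      have e1 := M1.snd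
      have e2 := M2.snd
      rw [hact] at e2
      rw [L.act_i f _ hc] at e1
      exact FRC_no h.forest hf.symm e1 e2 (ux g).symm (vx g) (vu g)
  · -- new
    intro a' b' hp
    obtain ⟨f, hf⟩ := fr (X.o a')
    obtain ⟨g, j, Ma, Mb⟩ := FRC_at hX0 h hL D hp hf.symm
    obtain ⟨f₁, hf₁⟩ : ∃ f₁, f₁ = L.act f b' := ⟨_, rfl⟩
    obtain ⟨f₂, hf₂⟩ : ∃ f₂, f₂ = L.act f a' := ⟨_, rfl⟩
    have q1 : (L.pt f₁ j).1 = g • u := by rw [hf₁]; exact Mb.snd
    have q2 : (L.pt f₂ j).1 = g • x := by rw [hf₂]; exact Ma.snd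
    have q3 : ∀ i, i ≠ j → L.pt f₂ i = L.pt f₁ i := by
      intro i hi
      rw [hf₁, hf₂, Ma.oth i hi, Mb.oth i hi]
    have hadj : S'.Adj (L.pt f₁ j).1 (L.pt f₂ j).1 :=
      (D.sl _ _).2 (Or.inr ⟨g, Or.inl ⟨q1.symm, q2.symm⟩⟩)
    obtain ⟨m, hmo, hma⟩ := sur' f₁ f₂ (Or.inr ⟨j, hadj, q3⟩)
    have hc : X.o (φ₁ m) = L.p f₁ := by rw [(K m).o, hmo]
    have hd : X.o (φ₂ m) = L.p (L.act f₁ (φ₁ m)) := by rw [(K m).od, L.act_p f₁ _ hc]
    have hact := (K m).act f₁ hmo.symm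
    rw [hma] at hact
    have hic : X.o (X.i (φ₁ m)) = L.p (L.act f₁ (φ₁ m)) := by rw [hX0.oi, L.act_p f₁ _ hc]
    rcases (K m).kind with ⟨-, -, hk⟩ | hk | hk
    · exfalso
      rw [hk, ee _ _ hc] at hact
      rw [← hact] at q2
      exact FRC_no h.forest hc q1 q2 (ux g) (vu g) (vx g)
    · obtain ⟨g', j', M1, M2⟩ := FRC_at hX0 h hL D hk hd
      have e1 := M1.snd
      have e2 := M2.snd
      rw [hact] at e1
      rw [L.act_i f₁ _ hc] at e2
      have hj : j' = j := by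
        by_contra hj
        have h5 := q3 j' hj
        rw [← Subtype.coe_inj, e1, e2] at h5
        exact ux g' h5.symm
      subst hj
      rw [q2] at e1
      rw [q1] at e2
      have hmid : g' • v = g • v :=
        FRC_mid h.forest (ux g) (by rw [e2]; exact vu g') (by rw [e1]; exact vx g') (vu g) (vx g)
      have hpt : L.pt f = L.pt (L.act f₁ (φ₁ m)) := by
        funext i
        by_cases hi : i = j'
        · subst hi
          apply Subtype.ext
          rw [M1.fst, Ma.fst, hmid]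
        · have h5 := M2.oth i hi
          rw [L.act_i f₁ _ hc] at h5
          rw [← h5, hf₁, Mb.oth i hi]
      obtain ⟨s, hso, hsa⟩ := L.sur _ _ (Or.inl hpt)
      have hms : ¬ X.mv s := by
        intro hms
        have h5 := (L.mo _ s hso hms).1
        rw [hsa, hpt] at h5
        exact (comp κ S _).irrefl h5
      have hts : X.t s = L.p f := by rw [← L.act_p _ s hso, hsa]
      have hla : X.lc s a' := ⟨hms, by rw [hts, hf]⟩
      have hlb : X.lc s b' := ⟨hms, by rw [hts, Mb.o]⟩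
      have E1 : L.act (L.act f₁ (φ₁ m)) (X.ml s b') = f₁ := by
        rw [L.act_ml _ _ _ hso hlb, hsa, hf₁]
      have E2 : L.act (L.act f₁ (φ₁ m)) (X.ml s a') = f₂ := by
        rw [L.act_ml _ _ _ hso hla, hsa, hf₂]
      have E3 : X.ml s b' = X.i (φ₁ m) :=
        L.inj _ _ _ (by rw [hX0.mlo _ _ hlb, hso]) hic (by rw [E1, L.act_i f₁ _ hc])
      have E4 : X.ml s a' = φ₂ m :=
        L.inj _ _ _ (by rw [hX0.mlo _ _ hla, hso]) hd (by rw [E2, hact])
      exact ⟨m, s, hla, by rw [E3, hX0.ii], E4.symm⟩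
    · exfalso
      obtain ⟨g', j', M1, M2⟩ := FRC_at hX0 h hL D hk hic
      have e1 := M1.snd
      have e2 := M2.snd
      rw [hact] at e2
      rw [L.act_i f₁ _ hc] at e1
      have hj : j' = j := by
        by_contra hj
        have h5 := q3 j' hj
        rw [← Subtype.coe_inj, e1, e2] at h5
        exact ux g' h5
      subst hj
      rw [q1] at e1
      rw [q2] at e2
      refine h'.noinv (g' * g⁻¹) _ _ hadj ?_ ?_
      · rw [q1, q2, mul_smul, inv_smul_smul, e2]
      · rw [q1, q2, mul_smul, inv_smul_smul, e1]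
  · -- inj₀
    intro m m' e1 e2
    obtain ⟨f, hf⟩ := fr (Y.o m)
    have hf' : L.p f = Y.o m' := by rw [← (K m').o, ← e1, (K m).o, hf]
    refine inj' f m m' hf.symm hf'.symm ?_
    rw [← (K m).act f hf, ← (K m').act f hf', e1, e2]
  · -- inj₁
    intro m m' s hk hls e1 e2
    obtain ⟨f, hf⟩ := fr (Y.o m)
    have hc : X.o (φ₁ m) = L.p f := by rw [(K m).o, hf]
    have hd : X.o (φ₂ m) = L.p (L.act f (φ₁ m)) := by rw [(K m).od, L.act_p f _ hc]
    have hic : X.o (X.i (φ₁ m)) = L.p (L.act f (φ₁ m)) := by rw [hX0.oi, L.act_p f _ hc]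
    have hls' : X.lc s (X.i (φ₁ m)) := ⟨hls.1, by rw [hls.2, hd, hic]⟩
    have hts : X.t s = L.p (L.act f (φ₁ m)) := by rw [hls.2, hd]
    have his : X.o (X.i s) = L.p (L.act f (φ₁ m)) := by rw [hX0.oi, hts]
    obtain ⟨f₄, hf₄⟩ : ∃ f₄, f₄ = L.act (L.act f (φ₁ m)) (X.i s) := ⟨_, rfl⟩
    have hs4 : X.o s = L.p f₄ := by rw [hf₄, L.act_p _ _ his, hX0.ti]
    have h4s : L.act f₄ s = L.act f (φ₁ m) := by
      have h5 := L.act_i _ _ his
      rw [hX0.ii] at h5
      rw [hf₄]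
      exact h5
    have E1 : L.act f₄ (X.ml s (X.i (φ₁ m))) = f := by
      rw [L.act_ml _ _ _ hs4 hls', h4s, L.act_i f _ hc]
    have hm4 : X.o (X.ml s (X.i (φ₁ m))) = L.p f₄ := by rw [hX0.mlo _ _ hls', hs4]
    have E2 : L.act f (φ₁ m') = f₄ := by
      rw [e1]
      have h5 := L.act_i _ _ hm4
      rw [E1] at h5
      exact h5
    have hf' : L.p f = Y.o m' := by
      rw [← (K m').o, e1, hX0.oi, hX0.mlt _ _ hls', hX0.ti, hc]
    refine inj' f m m' hf.symm hf'.symm ?_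
    rw [← (K m).act f hf, ← (K m').act f hf', E2, e2, L.act_ml _ _ _ hs4 hls, h4s]
  · -- hom
    have key : ∀ (w : List A') (f : F), IsPath Y (L.p f) w →
        IsPath X (L.p f) (w.flatMap fun m => [φ₁ m, φ₂ m]) ∧
        actW L f (w.flatMap fun m => [φ₁ m, φ₂ m]) = actW L' f w ∧
        ((w.flatMap fun m => [φ₁ m, φ₂ m]).map (ug X)).prod =
          (w.map fun m => ug X (φ₁ m) * ug X (φ₂ m)).prod := by
      intro w
      induction w with
      | nil =>
        intro f _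
        exact ⟨trivial, rfl, rfl⟩
      | cons m w ih =>
        intro f hw
        have ho : Y.o m = L.p f := hw.1
        have hw' : IsPath Y (L.p (L'.act f m)) w := by
          rw [p' f m ho]
          exact hw.2
        obtain ⟨i1, i2, i3⟩ := ih (L'.act f m) hw'
        have hp2 := p' f m ho
        refine ⟨?_, ?_, ?_⟩
        · rw [List.flatMap_cons]
          refine ⟨by rw [(K m).o, ho], (K m).od, ?_⟩
          rw [t₂ m, ← hp2]
          exact i1
        · rw [List.flatMap_cons]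
          change actW L (L.act (L.act f (φ₁ m)) (φ₂ m)) _ = actW L' (L'.act f m) w
          rw [(K m).act f ho.symm]
          exact i2
        · rw [List.flatMap_cons, List.map_append, List.prod_append, i3, List.map_cons,
            List.prod_cons]
          simp
    have main : ∀ (w w' : List A') (f : F), IsPath Y (L.p f) w → IsPath Y (L.p f) w' →
        actW L' f w = actW L' f w' → (w.map fun m => ug X (φ₁ m) * ug X (φ₂ m)).prod =
          (w'.map fun m => ug X (φ₁ m) * ug X (φ₂ m)).prod := by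
      intro w w' f hw hw' he
      obtain ⟨i1, i2, i3⟩ := key w f hw
      obtain ⟨j1, j2, j3⟩ := key w' f hw'
      rw [← i3, ← j3]
      exact (ug_iff hX0 h.forest.tree hL f _ _ i1 j1).2 (by rw [i2, j2, he])
    have pL : ∀ f, L'.p f = L.p f := fun f => by rw [h3]
    have rel : ∀ r ∈ {r | Rel0 Y r},
        FreeGroup.lift (fun m => ug X (φ₁ m) * ug X (φ₂ m)) r = 1 := by
      rintro r (hr : Rel0 Y r)
      cases hr with
      | one p =>
        obtain ⟨f, hf⟩ := fr p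
        have h5 := main [Y.e p] [] f ⟨by rw [hY.v0.oe, hf], trivial⟩ trivial (by
          change L'.act f (Y.e p) = f
          rw [← hf, ← h3]
          exact L'.act_e f)
        simpa using h5
      | inv a =>
        obtain ⟨f, hf⟩ := fr (Y.o a)
        have h5 := main [a, Y.i a] [] f ⟨hf.symm, hY.v0.oi a, trivial⟩ trivial (by
          change L'.act (L'.act f a) (Y.i a) = f
          exact L'.act_i f a (by rw [pL, hf]))
        simpa using h5
      | ml s a hh =>
        obtain ⟨f, hf⟩ := fr (Y.o s)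
        have h5 := main [s, a] [Y.ml s a] f ⟨hf.symm, hh.2.symm, trivial⟩
          ⟨by rw [hY.v0.mlo s a hh, hf], trivial⟩ (by
          change L'.act (L'.act f s) a = L'.act f (Y.ml s a)
          exact (L'.act_ml f s a (by rw [pL, hf]) hh).symm)
        simp only [List.map_cons, List.map_nil, List.prod_cons, List.prod_nil, mul_one] at h5
        simp only [map_mul, map_inv, FreeGroup.lift_apply_of]
        rw [h5]
        exact mul_inv_cancel _
      | sq a b c d hh =>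
        have T := hY.v0.sqT _ _ _ _ hh
        obtain ⟨f, hf⟩ := fr (Y.o a)
        have h5 := main [a, b] [c, d] f ⟨hf.symm, T.tab.symm, trivial⟩
          ⟨by rw [← T.oac, hf], T.tcd.symm, trivial⟩ (by
          change L'.act (L'.act f a) b = L'.act (L'.act f c) d
          exact L'.act_sq f a b c d (by rw [pL, hf]) hh)
        simp only [List.map_cons, List.map_nil, List.prod_cons, List.prod_nil, mul_one] at h5
        simp only [map_mul, map_inv, FreeGroup.lift_apply_of]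
        rw [h5]
        group
    exact ⟨PresentedGroup.toGroup rel, fun m => PresentedGroup.toGroup.of rel⟩

end

end LatF
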