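import Pool.Agent.Lib.MP_32d917_al.FDefs
import Pool.Agent.Lib.MP_32d917_al.N.NRED

/-!
# reduction of a forest

Every `FLat` action can be reduced. `red_one` of `N/NRED.lean` reduces one tree with an action of a group `K`: it gives `V₁` with an
equivariant INJECTION `f : V₁ → V` and a reduced tree `S₁` on `V₁`. First transport to `ι = Fin (n + 1)`. For every `G`-orbit of components choose a
representative `i`; apply `red_one` to `K = stabilizer G i` acting on `comp κ S i` (TA, loc, Leafless, fin as in module FTLAT; you may import F.FTLAT and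
use `(flat_tlat L.b i)`). Let `U ⊆ V` be the set of all `g • (f_i w)`, `g : G`, `i` a representative, `w : V₁_i`; it is `G`-invariant (make `U` a `SubMulAction` or
a subtype with the induced action) and `U ∩ κ⁻¹ i = range f_i` for representatives (elements mapping a vertex over `i` to a vertex over `i` are
in `K`). Graph on `U`: `Adj a b` iff there are `g`, `i`, `w`, `w'` with `S₁_i.Adj w w'`, `a = g • f_i w`, `b = g • f_i w'`. Over a representative `i` it is the image of
`S₁_i`, over `g • i` its translate. Then Forest, FAct, noinv, loc, leafless, Red are inherited component by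
component. prop: points of `U` are points of `V`. fin: the points of `U` are points of `V`: for each of the finitely many `y ∈ F`
whose orbit contains a point of `U` choose one (`U` is `G`-invariant).
-/

set_option autoImplicit false

namespace LatF

open LatIso LatN

/-! ### Contractions of forests -/

section contraction

variable {V V₁ ι : Type} {κ : V → ι} {S : SimpleGraph V} {i : V₁ → V} {r : V → V₁}

/-- the contraction over `j` -/
def fredR (hκ : ∀ y, κ (i (r y)) = κ y) (j : ι) (y : Fib κ j) : Fib (fun a => κ (i a)) j :=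
  ⟨r y.1, (hκ y.1).trans y.2⟩

/-- the inclusion over `j` -/
def fredI (i : V₁ → V) (κ : V → ι) (j : ι) (a : Fib (fun a => κ (i a)) j) : Fib κ j := ⟨i a.1, a.2⟩

theorem fred_ri (hκ : ∀ y, κ (i (r y)) = κ y) (ri : ∀ a, r (i a) = a) (j : ι)
    (a : Fib (fun a => κ (i a)) j) : fredR hκ j (fredI i κ j a) = a := Subtype.ext (ri a.1)

theorem fred_ad (hκ : ∀ y, κ (i (r y)) = κ y) (ad : ∀ y, y = i (r y) ∨ S.Adj y (i (r y))) (j : ι)
    (y : Fib κ j) : y = fredI i κ j (fredR hκ j y) ∨ (comp κ S j).Adj y (fredI i κ j (fredR hκ j y)) := by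
  rcases ad y.1 with h | h
  · left
    exact Subtype.ext h
  · right
    exact h

theorem fred_comp (hF : Forest κ S) (hκ : ∀ y, κ (i (r y)) = κ y) (j : ι) :
    comp (fun a => κ (i a)) (rcG S r) j = rcG (comp κ S j) (fredR hκ j) := by
  ext a b
  constructor
  · rintro ⟨hne, u, w, h, hu, hw⟩
    have hu' : κ u = j := by
      rw [← hκ u, hu]
      exact a.2
    have hw' : κ w = j := by
      rw [← hκ w, hw]
      exact b.2
    exact ⟨fun h => hne (congrArg Subtype.val h), ⟨u, hu'⟩, ⟨w, hw'⟩, h, Subtype.ext hu, Subtype.ext hw⟩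
  · rintro ⟨hne, u, w, h, hu, hw⟩
    exact ⟨fun h => hne (Subtype.ext h), u.1, w.1, h, congrArg Subtype.val hu, congrArg Subtype.val hw⟩

theorem fred_dart (hF : Forest κ S) (hκ : ∀ y, κ (i (r y)) = κ y) (ri : ∀ a, r (i a) = a)
    (ad : ∀ y, y = i (r y) ∨ S.Adj y (i (r y))) {u w u' w' : V} (h : S.Adj u w)
    (h' : S.Adj u' w') (hr : r u ≠ r w) (e1 : r u' = r u) (e2 : r w' = r w) : u' = u ∧ w' = w := by
  have k1 : κ w = κ u := (hF.kap u w h).symm
  have k2 : κ u' = κ u := by rw [← hκ u', e1, hκ]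
  have k3 : κ w' = κ u := (hF.kap u' w' h').symm.trans k2
  have hd := red_dart (S := comp κ S (κ u)) (i := fredI i κ (κ u)) (r := fredR hκ (κ u))
    (hF.tree (κ u)) (fred_ri hκ ri (κ u)) (fred_ad hκ ad (κ u))
    (u := ⟨u, rfl⟩) (w := ⟨w, k1⟩) (u' := ⟨u', k2⟩) (w' := ⟨w', k3⟩) h h'
    (fun hh => hr (congrArg Subtype.val hh)) (Subtype.ext e1) (Subtype.ext e2)
  exact ⟨congrArg Subtype.val hd.1, congrArg Subtype.val hd.2⟩

theorem fred_forest (hF : Forest κ S) (hκ : ∀ y, κ (i (r y)) = κ y) (ri : ∀ a, r (i a) = a)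
    (ad : ∀ y, y = i (r y) ∨ S.Adj y (i (r y))) : Forest (fun a => κ (i a)) (rcG S r) := by
  refine ⟨fun j => ?_, ?_⟩
  · rw [fred_comp hF hκ j]
    exact red_tree (i := fredI i κ j) (hF.tree j) (fred_ri hκ ri j) (fred_ad hκ ad j)
  · rintro a b ⟨-, u, w, h, rfl, rfl⟩
    show κ (i (r u)) = κ (i (r w))
    rw [hκ, hκ]
    exact hF.kap u w h

theorem fred_locC (loc : ∀ v, (S.neighborSet v).Finite) (j : ι) (v : Fib κ j) :
    ((comp κ S j).neighborSet v).Finite := by
  have h1 : ((comp κ S j).neighborSet v) ⊆ Subtype.val ⁻¹' (S.neighborSet v.1) := fun w hw => hw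
  exact ((loc v.1).preimage Subtype.val_injective.injOn).subset h1

theorem fred_loc (hF : Forest κ S) (hκ : ∀ y, κ (i (r y)) = κ y) (ri : ∀ a, r (i a) = a)
    (ad : ∀ y, y = i (r y) ∨ S.Adj y (i (r y))) (loc : ∀ v, (S.neighborSet v).Finite) (a : V₁) :
    ((rcG S r).neighborSet a).Finite := by
  have h1 := red_loc (i := fredI i κ (κ (i a))) (r := fredR hκ (κ (i a))) (hF.tree (κ (i a)))
    (fred_ri hκ ri (κ (i a))) (fred_ad hκ ad (κ (i a))) (fred_locC loc (κ (i a))) ⟨a, rfl⟩
  rw [← fred_comp hF hκ] at h1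
  refine (h1.image Subtype.val).subset ?_
  intro b hb
  have hb' : (rcG S r).Adj a b := hb
  have hk : κ (i b) = κ (i a) := ((fred_forest hF hκ ri ad).kap a b hb').symm
  exact ⟨⟨b, hk⟩, hb', rfl⟩

theorem fred_leafless (hF : Forest κ S) (hκ : ∀ y, κ (i (r y)) = κ y) (ri : ∀ a, r (i a) = a)
    (ad : ∀ y, y = i (r y) ∨ S.Adj y (i (r y))) (hl : ∀ j, Leafless (comp κ S j)) (j : ι) :
    Leafless (comp (fun a => κ (i a)) (rcG S r) j) := by
  rw [fred_comp hF hκ j]
  exact ⟨red_two (i := fredI i κ j) (hF.tree j) (fred_ri hκ ri j) (fred_ad hκ ad j) (hl j).two,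
    red_three (i := fredI i κ j) (hF.tree j) (fred_ri hκ ri j) (fred_ad hκ ad j) (hl j).two (hl j).three⟩

end contraction

section

/-- finitely many orbits of vertices -/
theorem fred_fin {G V ι : Type} [Group G] [Finite ι] [MulAction G V] [MulAction G ι] {κ : V → ι}
    {S : SimpleGraph V} (L : FLat0 G κ S) : ∃ F : Finset V, ∀ v, ∃ g : G, g • v ∈ F := by
  classical
  obtain ⟨F, hF⟩ := L.fin
  have := Fintype.ofFinite ι
  have hne : ∀ j, Nonempty (Fib κ j) := fun j => (L.forest.tree j).1.nonempty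
  refine ⟨F.biUnion (fun y => Finset.univ.image (fun i : ι => (y i).1)), fun v => ?_⟩
  obtain ⟨g, y, hy, hg⟩ := hF (Function.update (fun j => Classical.choice (hne j)) (κ v) ⟨v, rfl⟩)
  refine ⟨g, ?_⟩
  rw [Finset.mem_biUnion]
  refine ⟨y, hy, ?_⟩
  rw [Finset.mem_image]
  refine ⟨g • κ v, Finset.mem_univ _, ?_⟩
  have h1 := hg (κ v)
  rw [Function.update_self] at h1
  exact h1.symm

/-- an invariant part of the vertices, with the induced components: proper and cocompact -/
theorem fred_sub {G V V₁ ι : Type} [Group G] [MulAction G V] [MulAction G V₁] [MulAction G ι]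
    {κ : V → ι} {S : SimpleGraph V} (L : FLat0 G κ S) {i : V₁ → V} (ii : Function.Injective i)
    (gi : ∀ (g : G) a, i (g • a) = g • i a) :
    (∀ x : ∀ j, Fib (fun a => κ (i a)) j, {g : G | Mv g x x}.Finite) ∧
      ∃ F : Finset (∀ j, Fib (fun a => κ (i a)) j), ∀ x, ∃ g : G, ∃ y ∈ F, Mv g x y := by
  constructor
  · intro x
    refine (L.prop (fun j => fredI i κ j (x j))).subset ?_
    intro g hg j
    have h1 : g • (x j).1 = (x (g • j)).1 := hg j
    show g • i (x j).1 = i (x (g • j)).1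
    rw [← gi, h1]
  · obtain ⟨F, hF⟩ := L.fin
    have hinj : Function.Injective
        (fun (x : ∀ j, Fib (fun a => κ (i a)) j) (j : ι) => fredI i κ j (x j)) := by
      intro x y hxy
      funext j
      have h1 := congrArg Subtype.val (congrFun hxy j)
      exact Subtype.ext (ii h1)
    refine ⟨(F.finite_toSet.preimage hinj.injOn).toFinset, ?_⟩
    intro x
    obtain ⟨g, y, hy, hg⟩ := hF (fun j => fredI i κ j (x j))
    have hg' : ∀ j, g • i (x j).1 = (y (g • j)).1 := hg
    have hgy : ∀ j, i (g • (x (g⁻¹ • j)).1) = (y j).1 := by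
      intro j
      rw [gi, hg' (g⁻¹ • j), smul_inv_smul]
    let y₁ : ∀ j, Fib (fun a => κ (i a)) j := fun j => ⟨g • (x (g⁻¹ • j)).1, by
      show κ (i (g • (x (g⁻¹ • j)).1)) = j
      rw [hgy]
      exact (y j).2⟩
    refine ⟨g, y₁, ?_, ?_⟩
    · rw [Set.Finite.mem_toFinset]
      show (fun j => fredI i κ j (y₁ j)) ∈ F
      have h2 : (fun j => fredI i κ j (y₁ j)) = y := by
        funext j
        exact Subtype.ext (hgy j)
      rw [h2]
      exact hy
    · intro j
      show g • (x j).1 = g • (x (g⁻¹ • g • j)).1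
      rw [inv_smul_smul]

/-- one collapse -/
theorem fred_step {G V ι : Type} [Group G] [Finite ι] [MulAction G V] [MulAction G ι] {κ : V → ι}
    {S : SimpleGraph V} (L : FLat G κ S) (hS : ¬ Red G S) :
    ∃ (V₁ : Type) (_ : MulAction G V₁) (κ₁ : V₁ → ι) (S₁ : SimpleGraph V₁), FLat G κ₁ S₁ ∧
      nredN G V₁ < nredN G V := by
  unfold Red at hS
  push Not at hS
  obtain ⟨v, x, hvx, h1, h2⟩ := hS
  -- the complement of the orbit of `v`
  let V₁ : Type := {y : V // ∀ g : G, g • v ≠ y}
  letI act : MulAction G V₁ :=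
    { smul := fun g y => ⟨g • y.1, fun k hk => y.2 (g⁻¹ * k) (by rw [mul_smul, hk, inv_smul_smul])⟩
      one_smul := fun y => Subtype.ext (one_smul G y.1)
      mul_smul := fun g k y => Subtype.ext (mul_smul g k y.1) }
  have hsm : ∀ (g : G) (y : V₁), (g • y).1 = g • y.1 := fun g y => rfl
  have hx : ∀ g : G, g • v ≠ x := h2
  have hgx : ∀ k g : G, g • v ≠ k • x := by
    intro k g hh
    apply hx (k⁻¹ * g)
    rw [mul_smul, hh, inv_smul_smul]
  classical
  let r : V → V₁ := fun y => if h : ∃ g : G, g • v = y then ⟨h.choose • x, hgx _⟩ else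
    ⟨y, fun g hg => h ⟨g, hg⟩⟩
  have r1 : ∀ g : G, (r (g • v)).1 = g • x := by
    intro g
    have hex : ∃ k : G, k • v = g • v := ⟨g, rfl⟩
    have e1 : (r (g • v)).1 = hex.choose • x := by
      show (if h : ∃ k : G, k • v = g • v then (⟨h.choose • x, hgx _⟩ : V₁) else
        ⟨g • v, fun k hk => h ⟨k, hk⟩⟩).1 = _
      rw [dif_pos hex]
    have e2 := hex.choose_spec
    rw [e1]
    have e3 : (g⁻¹ * hex.choose) • v = v := by
      rw [mul_smul, e2, inv_smul_smul]
    have e4 := h1 _ e3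
    rw [mul_smul, inv_smul_eq_iff] at e4
    exact e4
  have r2 : ∀ y : V, (∀ g : G, g • v ≠ y) → (r y).1 = y := by
    intro y hy
    have hex : ¬ ∃ g : G, g • v = y := fun ⟨g, hg⟩ => hy g hg
    show (if h : ∃ k : G, k • v = y then (⟨h.choose • x, hgx _⟩ : V₁) else
        ⟨y, fun k hk => h ⟨k, hk⟩⟩).1 = _
    rw [dif_neg hex]
  have gr : ∀ (g : G) y, r (g • y) = g • r y := by
    intro g y
    apply Subtype.ext
    rw [hsm]
    by_cases hy : ∃ k : G, k • v = y
    · obtain ⟨k, rfl⟩ := hy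
      rw [← mul_smul, r1, r1, mul_smul]
    · have hy1 : ∀ k : G, k • v ≠ y := fun k hk => hy ⟨k, hk⟩
      have hy2 : ∀ k : G, k • v ≠ g • y := fun k hk => hy1 (g⁻¹ * k) (by
        rw [mul_smul, hk, inv_smul_smul])
      rw [r2 _ hy1, r2 _ hy2]
  have ad : ∀ y, y = (r y).1 ∨ S.Adj y (r y).1 := by
    intro y
    by_cases hy : ∃ k : G, k • v = y
    · obtain ⟨k, rfl⟩ := hy
      right
      rw [r1]
      exact L.b.act.adj k v x hvx
    · left
      exact (r2 y fun k hk => hy ⟨k, hk⟩).symm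
  have ri : ∀ a : V₁, r a.1 = a := fun a => Subtype.ext (r2 a.1 a.2)
  have hκ : ∀ y, κ (r y).1 = κ y := by
    intro y
    rcases ad y with h | h
    · exact (congrArg κ h).symm
    · exact (L.b.forest.kap _ _ h).symm
  have hF := L.b.forest
  obtain ⟨p1, p2⟩ := fred_sub L.b (i := fun a : V₁ => a.1) Subtype.val_injective hsm
  refine ⟨V₁, act, fun a => κ a.1, rcG S r,
    ⟨⟨fred_forest (i := fun a : V₁ => a.1) hF hκ ri ad, ⟨?_, ?_⟩, ?_,
      fred_loc (i := fun a : V₁ => a.1) hF hκ ri ad L.b.loc, p1, p2⟩,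
      fred_leafless (i := fun a : V₁ => a.1) hF hκ ri ad L.leafless⟩,
    nred_lt (i := fun a : V₁ => a.1) (fred_fin L.b) hsm Subtype.val_injective v ?_⟩
  · intro g a
    exact L.b.act.kap g a.1
  · rintro g a b ⟨hab, u, w, h', rfl, rfl⟩
    refine ⟨?_, g • u, g • w, L.b.act.adj g u w h', gr g u, gr g w⟩
    intro hh
    exact hab (MulAction.injective g hh)
  · rintro g a b ⟨hab, u, w, h', rfl, rfl⟩ h3 h4
    have e := fred_dart (i := fun a : V₁ => a.1) hF hκ ri ad h'.symm (L.b.act.adj g u w h')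
      hab.symm (by rw [gr, h3]) (by rw [gr, h4])
    exact L.b.noinv g u w h' e.1 e.2
  · intro a h3
    exact a.2 1 (by rw [one_smul]; exact h3.symm)

/-- reduction of a forest, the components being the same -/
theorem fred_one {G V ι : Type} [Group G] [Finite ι] [MulAction G V] [MulAction G ι] {κ : V → ι}
    {S : SimpleGraph V} (L : FLat G κ S) :
    ∃ (V₁ : Type) (_ : MulAction G V₁) (κ₁ : V₁ → ι) (S₁ : SimpleGraph V₁), FLat G κ₁ S₁ ∧
      Red G S₁ := by
  have key : ∀ n : ℕ, ∀ (V : Type) [MulAction G V] (κ : V → ι) (S : SimpleGraph V), FLat G κ S →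
      nredN G V = n → ∃ (V₁ : Type) (_ : MulAction G V₁) (κ₁ : V₁ → ι) (S₁ : SimpleGraph V₁),
        FLat G κ₁ S₁ ∧ Red G S₁ := by
    intro n
    induction n using Nat.strong_induction_on with
    | _ n ih =>
      intro V _ κ S L hn
      by_cases hS : Red G S
      · exact ⟨V, inferInstance, κ, S, L, hS⟩
      · obtain ⟨V₁, _, κ₁, S₁, L₁, hlt⟩ := fred_step L hS
        exact ih (nredN G V₁) (by rw [← hn]; exact hlt) V₁ κ₁ S₁ L₁ rfl
  exact key _ V κ S L rfl

theorem fred_pred {V : Type} {S : SimpleGraph V} {P P' : V → Prop} (h : P = P') :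
    ((S.comap (Subtype.val : {v // P v} → V)).IsTree → (S.comap (Subtype.val : {v // P' v} → V)).IsTree) ∧
    (Leafless (S.comap (Subtype.val : {v // P v} → V)) →
      Leafless (S.comap (Subtype.val : {v // P' v} → V))) := by
  subst h
  exact ⟨id, id⟩

/-- renaming of the components -/
theorem fred_transport {G V ι ι' : Type} [Group G] [MulAction G V] [MulAction G ι]
    [MulAction G ι'] {κ : V → ι} {S : SimpleGraph V} (e : ι ≃ ι')
    (he : ∀ (g : G) i, e (g • i) = g • e i) (L : FLat G κ S) : FLat G (fun v => e (κ v)) S := by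
  have hP : ∀ i : ι, (fun v => κ v = i) = fun v => e (κ v) = e i := by
    intro i
    funext v
    exact propext ⟨fun h => congrArg e h, fun h => e.injective h⟩
  have hes : ∀ (g : G) j, e.symm (g • j) = g • e.symm j := by
    intro g j
    rw [Equiv.symm_apply_eq, he, Equiv.apply_symm_apply]
  refine ⟨⟨⟨?_, ?_⟩, ⟨?_, L.b.act.adj⟩, L.b.noinv, L.b.loc, ?_, ?_⟩, ?_⟩
  · intro j
    obtain ⟨i, rfl⟩ := e.surjective j
    exact (fred_pred (hP i)).1 (L.b.forest.tree i)
  · intro x y h
    exact congrArg e (L.b.forest.kap x y h)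
  · intro g v
    show e (κ (g • v)) = g • e (κ v)
    rw [L.b.act.kap, he]
  · intro x
    refine (L.b.prop (fun i => (⟨(x (e i)).1, e.injective (x (e i)).2⟩ : Fib κ i))).subset ?_
    intro g hg i
    have h1 : g • (x (e i)).1 = (x (g • e i)).1 := hg (e i)
    show g • (x (e i)).1 = (x (e (g • i))).1
    rw [h1, he]
  · obtain ⟨F, hF⟩ := L.b.fin
    classical
    refine ⟨F.image (fun y j => (⟨(y (e.symm j)).1, by
      show e (κ (y (e.symm j)).1) = j
      rw [(y (e.symm j)).2, Equiv.apply_symm_apply]⟩ : Fib (fun v => e (κ v)) j)), fun x => ?_⟩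
    obtain ⟨g, y, hy, hg⟩ := hF (fun i => (⟨(x (e i)).1, e.injective (x (e i)).2⟩ : Fib κ i))
    refine ⟨g, _, Finset.mem_image_of_mem _ hy, ?_⟩
    intro j
    have h1 : g • (x (e (e.symm j))).1 = (y (g • e.symm j)).1 := hg (e.symm j)
    show g • (x j).1 = (y (e.symm (g • j))).1
    rw [hes, ← h1, Equiv.apply_symm_apply]
  · intro j
    obtain ⟨i, rfl⟩ := e.surjective j
    exact (fred_pred (hP i)).2 (L.leafless i)

/-- renaming of the components by numbers -/
theorem fred_number {G V ι : Type} [Group G] [Finite ι] [Nonempty ι] [MulAction G V]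
    [MulAction G ι] {κ : V → ι} {S : SimpleGraph V} (L : FLat G κ S) :
    ∃ (n : ℕ) (_ : MulAction G (Fin (n + 1))) (κ' : V → Fin (n + 1)), FLat G κ' S := by
  obtain ⟨m, ⟨e⟩⟩ := Finite.exists_equiv_fin ι
  obtain ⟨n, rfl⟩ : ∃ n, m = n + 1 := by
    rcases Nat.eq_zero_or_pos m with h | h
    · subst h
      exact (e (Classical.arbitrary ι)).elim0
    · exact ⟨m - 1, by omega⟩
  letI act : MulAction G (Fin (n + 1)) :=
    { smul := fun g j => e (g • e.symm j)
      one_smul := fun j => by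
        show e ((1 : G) • e.symm j) = j
        rw [one_smul, Equiv.apply_symm_apply]
      mul_smul := fun g k j => by
        show e ((g * k) • e.symm j) = e (g • e.symm (e (k • e.symm j)))
        rw [Equiv.symm_apply_apply, mul_smul] }
  have he : ∀ (g : G) i, e (g • i) = g • e i := by
    intro g i
    show e (g • i) = e (g • e.symm (e i))
    rw [Equiv.symm_apply_apply]
  exact ⟨n, act, fun v => e (κ v), fred_transport e he L⟩

theorem fred_exists {G : Type} [Group G] {V ι : Type} [Finite ι] [Nonempty ι] [MulAction G V]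
    [MulAction G ι] {κ : V → ι} {S : SimpleGraph V} (L : FLat G κ S) : IsRedForest G := by
  obtain ⟨V₁, _, κ₁, S₁, L₁, hR⟩ := fred_one L
  obtain ⟨n, act, κ', L'⟩ := fred_number L₁
  exact ⟨n, V₁, inferInstance, act, κ', S₁, L', hR⟩

end

end LatF
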