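import Pool.Agent.Lib.MP_32d917_al.FDefs
import Pool.Agent.Lib.MP_32d917_al.F.PAR
import Pool.Agent.Lib.MP_32d917_al.F.PARB
import Pool.Agent.Lib.MP_32d917_al.F.UGI

/-!
# a certified result of a slide is the data of the slid forest

Construct `L' : LF Y (comp κ S') F` with the same `pt`, `lam`, `p` and `act' f m := act (act f (φ₁ m)) (φ₂ m)`; then `Cov G L'` and `IsCov` (Forest, FAct from `h'`, Valid Y from `hr.valid`).
Let `(v, x) = mvE L f₀ a`, `(v, u) = mvE L f₀ b` (`f₀` from `SlAt`). Semantics of the kinds (par_iff, par2_iff), at a frame `f` over `Y.o m`: old: `φ₂ m` is a unit, `φ₁ m` is stationary or moves an edge of `S` not in the orbits of `(v, x)`, `(x, v)`: an edge of `S'`. new: `φ₁ m = i b'`, `φ₂ m = a'` with `Par2 a b a' b'`: `f → act f (i b')` moves `u' → v'`, then `a'` moves `v' → x'` where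
`(v', x', u') = g (v, x, u)`: so `act'` moves the edge `(u', x')` of `S'`. inverse kind: moves `(x', u')`.
act_p, act_lam: `o₁`, `o₂`, `t₂`, `pm`. act_e, act_i, act_ml, act_sq: `hr.hom` maps the relations of `UG Y` to those of `UG X`, so the two words have equal product in `UG X`, and `ug_iff` (⟹) gives the equality of frames (both are paths from `p f`). st, mo: kinds (stationary `m`: `φ₁ m` is stationary, so `m` is old). sur: same point: the stationary arrow of `X`, `hr.old`. An edge of `S'` which is an edge of `S` not in the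
orbits: `hr.old`. New edge `(u', x')`, frames `f` (coordinate `u'`), `f'` (coordinate `x'`): let `f₁` be a frame over the point with coordinate `v'`, `b'` : `f₁ → f`, `a'` : `f₁ → f'`; `Par2 X a b a' b'`; `hr.new` gives `m`, `s` with `φ₁ m = i (ml s b')`, `φ₂ m = ml s a'`; then `act' f m = f'`. Reverse orientation: the arrow `m` from `f'` to `f` and `Y.i m` (act_i). inj: `act' f m = act' f m'`. The kinds
(stationary / old edge / new / inverse) are determined by the points (a new edge `(u', x')` is not an edge of `S`: `u' ≠ x'` have distance 2 in a tree; new and inverse kinds exclude each other: otherwise an element of `G` would invert the edge `(u', x')` of `S'`, `h'.noinv`). old/old: `inj` of `L` and `hr.inj₀`. new/new: `f₁ = act f (i b')`, `f₂ = act f (i b'')` are over the point with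
coordinate the midpoint of `u'`, `x'` (unique in a tree), so `f₂ = act f₁ s⁻¹`..., `b'' = ml s b'`, `a'' = ml s a'`, `hr.inj₁`. inverse/inverse: apply `Y.i` and act_i. sq_of: given `SqT Y m n m' n'` and equal ends; `hr.valid.sqe m n` gives `sq m n c d`; `act_sq`; `act' f c` and `act' f m'` are frames over the same point (the coordinate moved by them is that of the end), so there is a stationary arrow `s` of `Y` between them (`sur`,
`st`), and by `inj` `m' = mr c s`, `n' = ml (i s) d`; `val_sqm'`.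
You may split off lemmas freely (prefix FRS).
-/

set_option autoImplicit false

namespace LatF

open LatIso LatN

/-! ### trees -/

private theorem FRS_mid {W : Type} {T : SimpleGraph W} (hT : T.IsAcyclic) {q r p p' : W}
    (hqr : q ≠ r) (h1 : T.Adj q p) (h2 : T.Adj p r) (h3 : T.Adj q p') (h4 : T.Adj p' r) :
    p = p' := by
  have e := hT.path_unique
    ⟨SimpleGraph.Walk.cons h1 (SimpleGraph.Walk.cons h2 SimpleGraph.Walk.nil), by
      simp [SimpleGraph.Walk.cons_isPath_iff, h1.ne, h2.ne, hqr]⟩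
    ⟨SimpleGraph.Walk.cons h3 (SimpleGraph.Walk.cons h4 SimpleGraph.Walk.nil), by
      simp [SimpleGraph.Walk.cons_isPath_iff, h3.ne, h4.ne, hqr]⟩
  have e2 := congrArg (fun w : T.Path q r => w.1.getVert 1) e
  simpa using e2

private theorem FRS_tri {W : Type} {T : SimpleGraph W} (hT : T.IsAcyclic) {q r p : W}
    (h1 : T.Adj q p) (h2 : T.Adj p r) (h3 : T.Adj q r) : False := by
  have e := hT.path_unique
    ⟨SimpleGraph.Walk.cons h1 (SimpleGraph.Walk.cons h2 SimpleGraph.Walk.nil), by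
      simp [SimpleGraph.Walk.cons_isPath_iff, h1.ne, h2.ne, h3.ne]⟩
    ⟨SimpleGraph.Walk.cons h3 SimpleGraph.Walk.nil, by
      simp [SimpleGraph.Walk.cons_isPath_iff, h3.ne]⟩
  have e2 := congrArg (fun w : T.Path q r => w.1.length) e
  simp at e2

/-! ### steps -/

section stp

variable {ι' : Type} {V : ι' → Type}

private theorem FRS_stp_ne {S : ∀ i, SimpleGraph (V i)} {i : ι'} {x y : ∀ i, V i}
    (h : Stp S i x y) : x ≠ y := fun e => h.1.ne (congrFun e i)

private theorem FRS_stp_idx {S S' : ∀ i, SimpleGraph (V i)} {i j : ι'} {x y : ∀ i, V i}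
    (h : Stp S i x y) (h' : Stp S' j x y) : j = i := by
  by_contra hc
  exact h'.1.ne (h.2 j hc).symm

private theorem FRS_stp_symm {S : ∀ i, SimpleGraph (V i)} {i : ι'} {x y : ∀ i, V i}
    (h : Stp S i x y) : Stp S i y x := ⟨h.1.symm, fun j hj => (h.2 j hj).symm⟩

end stp

section frames

variable {ι P A : Type} {X : FD ι P A} {ι' : Type} {V : ι' → Type}
  {S : ∀ i, SimpleGraph (V i)} {F : Type}

private theorem FRS_lam_i (hX : Valid0 X) (L : LF X S F) {f : F} {c : A} (ho : X.o c = L.p f)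
    (hm : X.mv c) : L.lam (L.act f c) (X.ty (X.i c)) = L.lam f (X.ty c) := by
  rw [hX.tyi c hm, L.act_lam f c ho]

private theorem FRS_stat (L : LF X S F) {f f' : F} (h : L.pt f' = L.pt f) :
    ∃ s, X.o s = L.p f ∧ ¬ X.mv s ∧ L.act f s = f' := by
  obtain ⟨s, h1, h2⟩ := L.sur f f' (Or.inl h)
  refine ⟨s, h1, fun hm => ?_, h2⟩
  have h3 := L.mo f s h1 hm
  rw [h2] at h3
  exact FRS_stp_ne h3 h.symm

private theorem FRS_move (L : LF X S F) {f f' : F} {i : ι'} (h : Stp S i (L.pt f) (L.pt f')) :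
    ∃ c, X.o c = L.p f ∧ X.mv c ∧ L.act f c = f' ∧ L.lam f (X.ty c) = i := by
  obtain ⟨c, h1, h2⟩ := L.sur f f' (Or.inr ⟨i, h⟩)
  have hm : X.mv c := by
    by_contra hc
    have h3 := L.st f c h1 hc
    rw [h2] at h3
    exact FRS_stp_ne h h3.symm
  have h3 := L.mo f c h1 hm
  rw [h2] at h3
  exact ⟨c, h1, hm, h2, FRS_stp_idx h h3⟩

end frames

/-! ### parallel arrows -/

section par

variable {ι P A : Type} {X : FD ι P A}

private theorem FRS_par_mv (hX : Valid0 X) {a a' : A} (h : Par X a a') (hm : X.mv a) :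
    X.mv a' := by
  induction h with
  | refl => exact hm
  | ml a' s _ hs ih => exact (hX.mlm s a' hs).2 ih
  | mr a' s _ hs ih => exact (val_mrm hX hs).2 ih
  | sq a' b c d _ hs ih => exact (hX.sqT _ _ _ _ hs).md

private theorem FRS_pm_inj (hX : Valid0 X) (a : A) {k k' : ι} (h : X.pm a k = X.pm a k') :
    k = k' := by
  rw [← hX.pi a k, h, hX.pi]

private theorem FRS_par2 (hX : Valid0 X) {a b a' b' : A} (h : Par2 X a b a' b') (ha : X.mv a)
    (hb : X.mv b) (ho : X.o a = X.o b) (ht : X.ty a = X.ty b) :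
    X.mv a' ∧ X.mv b' ∧ X.o a' = X.o b' ∧ X.ty a' = X.ty b' := by
  induction h with
  | refl => exact ⟨ha, hb, ho, ht⟩
  | ml a' b' s _ hs ih =>
    obtain ⟨h1, h2, h3, h4⟩ := ih
    have hs' : X.lc s b' := ⟨hs.1, hs.2.trans h3⟩
    refine ⟨(hX.mlm s a' hs).2 h1, (hX.mlm s b' hs').2 h2, ?_, ?_⟩
    · rw [hX.mlo s a' hs, hX.mlo s b' hs']
    · apply FRS_pm_inj hX s
      rw [hX.mly s a' hs h1, hX.mly s b' hs' h2, h4]
  | mr1 a' b' s _ hs ih =>
    obtain ⟨h1, h2, h3, h4⟩ := ih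
    exact ⟨(val_mrm hX hs).2 h1, h2, (val_mro hX hs).trans h3, (val_mry hX hs h1).trans h4⟩
  | mr2 a' b' s _ hs ih =>
    obtain ⟨h1, h2, h3, h4⟩ := ih
    exact ⟨h1, (val_mrm hX hs).2 h2, h3.trans (val_mro hX hs).symm,
      h4.trans (val_mry hX hs h2).symm⟩
  | sq a' b' c c₁ c₂ d₁ d₂ _ hs1 hs2 ih =>
    obtain ⟨h1, h2, h3, h4⟩ := ih
    have t1 := hX.sqT _ _ _ _ hs1
    have t2 := hX.sqT _ _ _ _ hs2
    refine ⟨t1.md, t2.md, t1.tcd.symm.trans t2.tcd, ?_⟩
    rw [t1.tyd, t2.tyd, h4]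

end par

section

variable {ι P A A' : Type} {X : FD ι P A} {Y : FD ι P A'} {G : Type} [Group G] {V ι' : Type}
  [Fintype ι'] [MulAction G V] [MulAction G ι'] {κ : V → ι'} {S S' : SimpleGraph V}

private theorem FRS_rev {F : Type} (hX : Valid0 X) (L : LF X (comp κ S) F) {f : F} {c : A}
    (ho : X.o c = L.p f) (hm : X.mv c) :
    mvE L (L.act f c) (X.i c) = ((mvE L f c).2, (mvE L f c).1) := by
  unfold mvE
  rw [FRS_lam_i hX L ho hm, L.act_i f c ho]

theorem res_sound {F : Type} [MulAction G F] (hX : Valid X) (h : FLat0 G κ S) (h' : FLat0 G κ S')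
    {L : LF X (comp κ S) F} (hL : Cov G L) {a b : A} (hl : Legal X a b)
    (hs : SlAt G L S' a b) {φ₁ φ₂ : A' → A} (hr : Res X Y a b φ₁ φ₂) : IsCov G κ S' Y := by
  classical
  obtain ⟨f0, h0, hS'⟩ := hs
  have hX0 : Valid0 X := hX.v0
  have hY0 : Valid0 Y := hr.valid.v0
  have h0b : X.o b = L.p f0 := by rw [← hl.o]; exact h0
  obtain ⟨v, hv⟩ : ∃ v, v = (mvE L f0 a).1 := ⟨_, rfl⟩
  obtain ⟨x, hx⟩ : ∃ x, x = (mvE L f0 a).2 := ⟨_, rfl⟩
  obtain ⟨u, hu⟩ : ∃ u, u = (mvE L f0 b).2 := ⟨_, rfl⟩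
  have hbv : (mvE L f0 b).1 = v := by
    rw [hv]
    unfold mvE
    rw [hl.ty]
  have hvx : S.Adj v x := by
    rw [hv, hx]
    exact (L.mo f0 a h0 hl.ma).1
  have hvu : S.Adj v u := by
    rw [← hbv, hu]
    exact (L.mo f0 b h0b hl.mb).1
  rw [← hv, ← hx, ← hu] at hS'
  have hux : ∀ g : G, S'.Adj (g • u) (g • x) := fun g => (hS' _ _).2 (Or.inr ⟨g, Or.inl ⟨rfl, rfl⟩⟩)
  have hgx : ∀ g : G, S.Adj (g • v) (g • x) := fun g => h.act.adj g _ _ hvx
  have hgu : ∀ g : G, S.Adj (g • v) (g • u) := fun g => h.act.adj g _ _ hvu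
  have hPar : ∀ (f : F) (c : A), X.o c = L.p f → X.mv c →
      (Par X a c ↔ ∃ g : G, g • v = (mvE L f c).1 ∧ g • x = (mvE L f c).2) := by
    intro f c h1 h2
    rw [hv, hx]
    exact par_iff hX0 h.forest hL f0 f a c h0 h1 hl.ma h2
  have hPar2 : ∀ (f : F) (a' b' : A), X.o a' = L.p f → X.o b' = L.p f → X.mv a' → X.mv b' →
      X.ty a' = X.ty b' → (Par2 X a b a' b' ↔ ∃ g : G, g • v = (mvE L f a').1 ∧
        g • x = (mvE L f a').2 ∧ g • u = (mvE L f b').2) := by
    intro f a' b' h1 h2 h3 h4 h5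
    rw [hv, hx, hu]
    exact par2_iff hX0 h.forest hL f0 f a b a' b' h0 h0b h1 h2 hl.ma hl.mb h3 h4 hl.ty h5
  -- the action of the arrows of `Y`
  obtain ⟨act', hact⟩ : ∃ act' : F → A' → F,
      ∀ f m, act' f m = L.act (L.act f (φ₁ m)) (φ₂ m) := ⟨_, fun _ _ => rfl⟩
  have o1 : ∀ f m, Y.o m = L.p f → X.o (φ₁ m) = L.p f := by
    intro f m hm
    rw [hr.o₁, hm]
  have o2 : ∀ f m, Y.o m = L.p f → X.o (φ₂ m) = L.p (L.act f (φ₁ m)) := by
    intro f m hm
    rw [hr.o₂, L.act_p f _ (o1 f m hm)]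
  have actp : ∀ f m, Y.o m = L.p f → L.p (act' f m) = Y.t m := by
    intro f m hm
    rw [hact, L.act_p _ _ (o2 f m hm), hr.t₂]
  obtain ⟨hh, hhom⟩ := hr.hom
  -- words
  have words : ∀ (w : List A') (f : F), IsPath Y (L.p f) w → ∃ w₁ : List A,
      IsPath X (L.p f) w₁ ∧ actW L f w₁ = w.foldl act' f ∧
      (w₁.map (ug X)).prod = hh ((w.map (ug Y)).prod) := by
    intro w
    induction w with
    | nil =>
      intro f _
      exact ⟨[], trivial, rfl, by simp⟩
    | cons m w ih =>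
      intro f hp
      obtain ⟨hm, hp'⟩ := hp
      rw [← actp f m hm] at hp'
      obtain ⟨w₁, p1, p2, p3⟩ := ih (act' f m) hp'
      refine ⟨φ₁ m :: φ₂ m :: w₁, ⟨o1 f m hm, (hr.o₂ m), ?_⟩, ?_, ?_⟩
      · rw [hr.t₂, ← actp f m hm]
        exact p1
      · have e1 : actW L f (φ₁ m :: φ₂ m :: w₁) = actW L (act' f m) w₁ := by
          rw [hact]
          rfl
        rw [e1, p2]
        rfl
      · rw [List.map_cons, List.map_cons, List.prod_cons, List.prod_cons, p3, List.map_cons,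
          List.prod_cons, map_mul, hhom, mul_assoc]
  have key : ∀ (f : F) (w w' : List A'), IsPath Y (L.p f) w → IsPath Y (L.p f) w' →
      (w.map (ug Y)).prod = (w'.map (ug Y)).prod → w.foldl act' f = w'.foldl act' f := by
    intro f w w' hw hw' he
    obtain ⟨w₁, p1, p2, p3⟩ := words w f hw
    obtain ⟨w₂, q1, q2, q3⟩ := words w' f hw'
    rw [← p2, ← q2]
    refine (ug_iff hX0 h.forest.tree hL f w₁ w₂ p1 q1).1 ?_
    rw [p3, q3, he]
  have urel : ∀ r : FreeGroup A', Rel0 Y r →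
      PresentedGroup.mk {r | Rel0 Y r} r = 1 := fun r hr => PresentedGroup.one_of_mem hr
  have acte : ∀ f, act' f (Y.e (L.p f)) = f := by
    intro f
    have e := key f [Y.e (L.p f)] [] ⟨hY0.oe _, trivial⟩ trivial (by
      have e1 := urel _ (Rel0.one (X := Y) (L.p f))
      simpa [ug, PresentedGroup.of] using e1)
    exact e
  have acti : ∀ f m, Y.o m = L.p f → act' (act' f m) (Y.i m) = f := by
    intro f m hm
    have e := key f [m, Y.i m] [] ⟨hm, hY0.oi m, trivial⟩ trivial (by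
      have e1 := urel _ (Rel0.inv (X := Y) m)
      simpa [ug, PresentedGroup.of] using e1)
    exact e
  have actml : ∀ f s m, Y.o s = L.p f → Y.lc s m →
      act' f (Y.ml s m) = act' (act' f s) m := by
    intro f s m hs hlc
    have e := key f [Y.ml s m] [s, m] ⟨(hY0.mlo s m hlc).trans hs, trivial⟩
      ⟨hs, hlc.2.symm, trivial⟩ (by
      have e1 := urel _ (Rel0.ml (X := Y) s m hlc)
      rw [map_mul, map_inv, mul_inv_eq_one, map_mul] at e1
      simp only [List.map_cons, List.map_nil, List.prod_cons, List.prod_nil, mul_one]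
      exact e1.symm)
    exact e
  have actsq : ∀ f a b c d, Y.o a = L.p f → Y.sq a b c d →
      act' (act' f a) b = act' (act' f c) d := by
    intro f a b c d ha hsq
    have ts := hY0.sqT _ _ _ _ hsq
    have e := key f [a, b] [c, d] ⟨ha, ts.tab.symm, trivial⟩
      ⟨ts.oac.symm.trans ha, ts.tcd.symm, trivial⟩ (by
      have e1 := urel _ (Rel0.sq (X := Y) a b c d hsq)
      rw [map_mul, map_mul, map_mul, map_inv, map_inv, mul_assoc, ← mul_inv_rev,
        mul_inv_eq_one] at e1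
      simp only [List.map_cons, List.map_nil, List.prod_cons, List.prod_nil, mul_one]
      exact e1)
    exact e
  have actmr : ∀ f m s, Y.o m = L.p f → Y.rc m s → act' f (Y.mr m s) = act' (act' f m) s := by
    intro f m s hm hrc
    have p1 : L.p (act' f m) = Y.t m := actp f m hm
    have hs : Y.o s = L.p (act' f m) := hrc.2.trans p1.symm
    have p2 : L.p (act' (act' f m) s) = Y.t s := actp _ s hs
    have his : Y.o (Y.i s) = L.p (act' (act' f m) s) := by rw [hY0.oi, p2]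
    have hlc : Y.lc (Y.i s) (Y.i m) := by
      refine ⟨fun hc => hrc.1 ((hY0.mi s).1 hc), ?_⟩
      rw [hY0.ti, hY0.oi, hrc.2]
    have e1 := actml (act' (act' f m) s) (Y.i s) (Y.i m) his hlc
    rw [acti _ s hs, acti f m hm] at e1
    have e2 := acti (act' (act' f m) s) (Y.ml (Y.i s) (Y.i m))
      ((hY0.mlo _ _ hlc).trans his)
    rw [e1] at e2
    exact e2
  -- parallel pairs at a frame
  have core : ∀ f₁ a' b', X.o a' = L.p f₁ → Par2 X a b a' b' → X.mv a' ∧ X.mv b' ∧
      X.o b' = L.p f₁ ∧ ∃ (g : G) (j : ι'), j = L.lam f₁ (X.ty a') ∧ j = L.lam f₁ (X.ty b') ∧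
        (L.pt f₁ j).1 = g • v ∧ (L.pt (L.act f₁ a') j).1 = g • x ∧
        (L.pt (L.act f₁ b') j).1 = g • u ∧ (∀ k, k ≠ j → L.pt (L.act f₁ a') k = L.pt f₁ k) ∧
        (∀ k, k ≠ j → L.pt (L.act f₁ b') k = L.pt f₁ k) := by
    intro f₁ a' b' ho hp
    obtain ⟨m1, m2, m3, m4⟩ := FRS_par2 hX0 hp hl.ma hl.mb hl.o hl.ty
    have hob : X.o b' = L.p f₁ := m3.symm.trans ho
    obtain ⟨g, e1, e2, e3⟩ := (hPar2 f₁ a' b' ho hob m1 m2 m4).1 hp
    refine ⟨m1, m2, hob, g, L.lam f₁ (X.ty a'), rfl, by rw [m4], e1.symm, e2.symm, ?_,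
      (L.mo f₁ a' ho m1).2, ?_⟩
    · rw [m4]
      exact e3.symm
    · rw [m4]
      exact (L.mo f₁ b' hob m2).2
  -- the kinds
  have kA : ∀ f m, Y.o m = L.p f → φ₂ m = X.e (X.t (φ₁ m)) → act' f m = L.act f (φ₁ m) := by
    intro f m hm he
    rw [hact, he, ← L.act_p f _ (o1 f m hm), L.act_e]
  have kB : ∀ f m, Y.o m = L.p f → Par2 X a b (φ₂ m) (X.i (φ₁ m)) → X.mv (φ₁ m) ∧
      ∃ (g : G) (j : ι'), j = L.lam f (X.ty (φ₁ m)) ∧ Stp (comp κ S') j (L.pt f) (L.pt (act' f m)) ∧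
        (L.pt (L.act f (φ₁ m)) j).1 = g • v ∧
        (L.pt f j).1 = g • u ∧ (L.pt (act' f m) j).1 = g • x ∧
        (∀ k, k ≠ j → L.pt (L.act f (φ₁ m)) k = L.pt f k) := by
    intro f m hm hp
    obtain ⟨m1, m2, m3, g, j, j1, j2, e1, e2, e3, e4, e5⟩ := core _ _ _ (o2 f m hm) hp
    have hm1 : X.mv (φ₁ m) := (hX0.mi _).1 m2
    rw [L.act_i f _ (o1 f m hm)] at e3 e5
    rw [← hact] at e2 e4
    rw [FRS_lam_i hX0 L (o1 f m hm) hm1] at j2
    refine ⟨hm1, g, j, j2, ⟨?_, fun k hk => (e4 k hk).trans (e5 k hk).symm⟩, e1, e3, e2,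
      fun k hk => (e5 k hk).symm⟩
    show S'.Adj _ _
    rw [e2, e3]
    exact hux g
  have kC : ∀ f m, Y.o m = L.p f → Par2 X a b (X.i (φ₁ m)) (φ₂ m) → X.mv (φ₁ m) ∧
      ∃ (g : G) (j : ι'), j = L.lam f (X.ty (φ₁ m)) ∧ Stp (comp κ S') j (L.pt f) (L.pt (act' f m)) ∧
        (L.pt (L.act f (φ₁ m)) j).1 = g • v ∧
        (L.pt f j).1 = g • x ∧ (L.pt (act' f m) j).1 = g • u ∧
        (∀ k, k ≠ j → L.pt (L.act f (φ₁ m)) k = L.pt f k) := by
    intro f m hm hp
    have hoi : X.o (X.i (φ₁ m)) = L.p (L.act f (φ₁ m)) := by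
      rw [hX0.oi, L.act_p f _ (o1 f m hm)]
    obtain ⟨m1, m2, m3, g, j, j1, j2, e1, e2, e3, e4, e5⟩ := core _ _ _ hoi hp
    have hm1 : X.mv (φ₁ m) := (hX0.mi _).1 m1
    rw [L.act_i f _ (o1 f m hm)] at e2 e4
    rw [← hact] at e3 e5
    rw [FRS_lam_i hX0 L (o1 f m hm) hm1] at j1
    refine ⟨hm1, g, j, j1, ⟨?_, fun k hk => (e5 k hk).trans (e4 k hk).symm⟩, e1, e2, e3,
      fun k hk => (e4 k hk).symm⟩
    show S'.Adj _ _
    rw [e2, e3]
    exact (hux g).symm
  -- stationary and moving arrows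
  have st' : ∀ f m, Y.o m = L.p f → ¬ Y.mv m → L.pt (act' f m) = L.pt f := by
    intro f m hm hn
    rw [hr.mv] at hn
    rcases hr.kind m with hk | hk | hk
    · rw [kA f m hm hk.2.2]
      exact L.st f _ (o1 f m hm) hn
    · exact absurd (kB f m hm hk).1 hn
    · exact absurd (kC f m hm hk).1 hn
  have mo' : ∀ f m, Y.o m = L.p f → Y.mv m →
      Stp (comp κ S') (L.lam f (Y.ty m)) (L.pt f) (L.pt (act' f m)) := by
    intro f m hm hn
    rw [hr.ty m hn]
    rw [hr.mv] at hn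
    rcases hr.kind m with hk | hk | hk
    · obtain ⟨k1, k2, k3⟩ := hk
      rw [kA f m hm k3]
      have h1 := L.mo f _ (o1 f m hm) hn
      refine ⟨?_, h1.2⟩
      show S'.Adj _ _
      rw [hS']
      refine Or.inl ⟨h1.1, fun g => ⟨fun hg => k1 ?_, fun hg => k2 ?_⟩⟩
      · exact (hPar f _ (o1 f m hm) hn).2 ⟨g, hg⟩
      · refine (hPar (L.act f (φ₁ m)) _ ?_ ((hX0.mi _).2 hn)).2 ⟨g, ?_⟩
        · rw [hX0.oi, L.act_p f _ (o1 f m hm)]
        · rw [FRS_rev hX0 L (o1 f m hm) hn]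
          exact hg
    · obtain ⟨_, g, j, j1, hst, _⟩ := kB f m hm hk
      rw [← j1]
      exact hst
    · obtain ⟨_, g, j, j1, hst, _⟩ := kC f m hm hk
      rw [← j1]
      exact hst
  -- a new edge
  have newE : ∀ f f' (i : ι') (g : G), (L.pt f i).1 = g • u → (L.pt f' i).1 = g • x →
      (∀ k, k ≠ i → L.pt f' k = L.pt f k) → ∃ m, Y.o m = L.p f ∧ act' f m = f' := by
    intro f f' i g e1 e2 e3
    have hκ : κ (g • v) = i := by
      rw [h.forest.kap _ _ (hgu g), ← e1]
      exact (L.pt f i).2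
    obtain ⟨f₁, hf₁⟩ := L.onto (Function.update (L.pt f) i ⟨g • v, hκ⟩)
    have p1 : (L.pt f₁ i).1 = g • v := by rw [hf₁, Function.update_self]
    have p2 : ∀ k, k ≠ i → L.pt f₁ k = L.pt f k := by
      intro k hk
      rw [hf₁, Function.update_of_ne hk]
    have s1 : Stp (comp κ S) i (L.pt f₁) (L.pt f) := by
      refine ⟨?_, fun k hk => (p2 k hk).symm⟩
      show S.Adj _ _
      rw [p1, e1]
      exact hgu g
    have s2 : Stp (comp κ S) i (L.pt f₁) (L.pt f') := by
      refine ⟨?_, fun k hk => (e3 k hk).trans (p2 k hk).symm⟩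
      show S.Adj _ _
      rw [p1, e2]
      exact hgx g
    obtain ⟨b', b1, b2, b3, b4⟩ := FRS_move L s1
    obtain ⟨a', a1, a2, a3, a4⟩ := FRS_move L s2
    have ht : X.ty a' = X.ty b' := (L.bij f₁).1 (a4.trans b4.symm)
    have hp : Par2 X a b a' b' := by
      refine (hPar2 f₁ a' b' a1 b1 a2 b2 ht).2 ⟨g, ?_, ?_, ?_⟩
      · unfold mvE
        rw [a4]
        exact p1.symm
      · unfold mvE
        rw [a4, a3]
        exact e2.symm
      · unfold mvE
        rw [b4, b3]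
        exact e1.symm
    obtain ⟨m, s, hlc, hφ1, hφ2⟩ := hr.new a' b' hp
    have hlcb : X.lc s b' := ⟨hlc.1, hlc.2.trans (a1.trans b1.symm)⟩
    have hp1 : X.o (X.i s) = L.p f₁ := by rw [hX0.oi, hlc.2, a1]
    have hf₂ : L.act (L.act f₁ (X.i s)) s = f₁ := by
      have e4 := L.act_i f₁ (X.i s) hp1
      rw [hX0.ii] at e4
      exact e4
    have hp2 : X.o s = L.p (L.act f₁ (X.i s)) := by rw [L.act_p _ _ hp1, hX0.ti]
    have e5 : L.act (L.act f₁ (X.i s)) (X.ml s b') = f := by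
      rw [L.act_ml _ _ _ hp2 hlcb, hf₂, b3]
    have e6 : L.act f (X.i (X.ml s b')) = L.act f₁ (X.i s) := by
      have e7 := L.act_i (L.act f₁ (X.i s)) (X.ml s b') ((hX0.mlo _ _ hlcb).trans hp2)
      rw [e5] at e7
      exact e7
    refine ⟨m, ?_, ?_⟩
    · rw [← hr.o₁, hφ1, hX0.oi, hX0.mlt _ _ hlcb, ← b3, L.act_p _ _ b1]
    · rw [hact, hφ1, hφ2, e6, L.act_ml _ _ _ hp2 hlc, hf₂, a3]
  have sur' : ∀ f f', (L.pt f' = L.pt f ∨ ∃ i, Stp (comp κ S') i (L.pt f) (L.pt f')) →
      ∃ m, Y.o m = L.p f ∧ act' f m = f' := by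
    intro f f' hc
    have hold : ∀ c, X.o c = L.p f → L.act f c = f' → ¬ Par X a c → ¬ Par X a (X.i c) →
        ∃ m, Y.o m = L.p f ∧ act' f m = f' := by
      intro c c1 c2 c3 c4
      obtain ⟨m, m1, m2⟩ := hr.old c c3 c4
      have hm : Y.o m = L.p f := by rw [← hr.o₁, m1, c1]
      refine ⟨m, hm, ?_⟩
      rw [kA f m hm (by rw [m2, m1]), m1, c2]
    rcases hc with hc | ⟨i, hc⟩
    · obtain ⟨s, s1, s2, s3⟩ := FRS_stat L hc
      refine hold s s1 s3 (fun hp => s2 (FRS_par_mv hX0 hp hl.ma)) fun hp => s2 ?_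
      exact (hX0.mi s).1 (FRS_par_mv hX0 hp hl.ma)
    · have hadj : S'.Adj (L.pt f i).1 (L.pt f' i).1 := hc.1
      rw [hS'] at hadj
      rcases hadj with ⟨hadj, hno⟩ | ⟨g, ⟨g1, g2⟩ | ⟨g1, g2⟩⟩
      · have hstp : Stp (comp κ S) i (L.pt f) (L.pt f') := ⟨hadj, hc.2⟩
        obtain ⟨c, c1, c2, c3, c4⟩ := FRS_move L hstp
        have hE : mvE L f c = ((L.pt f i).1, (L.pt f' i).1) := by
          unfold mvE
          rw [c4, c3]
        refine hold c c1 c3 (fun hp => ?_) fun hp => ?_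
        · obtain ⟨g, hg1, hg2⟩ := (hPar f c c1 c2).1 hp
          rw [hE] at hg1 hg2
          exact (hno g).1 ⟨hg1, hg2⟩
        · have ho : X.o (X.i c) = L.p (L.act f c) := by rw [hX0.oi, L.act_p _ _ c1]
          obtain ⟨g, hg1, hg2⟩ := (hPar (L.act f c) (X.i c) ho ((hX0.mi c).2 c2)).1 hp
          rw [FRS_rev hX0 L c1 c2, hE] at hg1 hg2
          exact (hno g).2 ⟨hg1, hg2⟩
      · exact newE f f' i g g1.symm g2.symm hc.2
      · obtain ⟨m, m1, m2⟩ := newE f' f i g g1.symm g2.symm fun k hk => (hc.2 k hk).symm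
        refine ⟨Y.i m, ?_, ?_⟩
        · rw [hY0.oi, ← actp f' m m1, m2]
        · rw [← m2]
          exact acti f' m m1
  -- the kinds are determined by the points
  have hac : ∀ i, (comp κ S i).IsAcyclic := fun i => (h.forest.tree i).isAcyclic
  have noAB : ∀ f m m', Y.o m = L.p f → Y.o m' = L.p f → act' f m = act' f m' →
      φ₂ m = X.e (X.t (φ₁ m)) →
      (∀ (g : G) (j : ι'), Stp (comp κ S') j (L.pt f) (L.pt (act' f m')) →
        (L.pt (L.act f (φ₁ m')) j).1 = g • v →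
        (S.Adj (L.pt (L.act f (φ₁ m')) j).1 (L.pt f j).1) →
        (S.Adj (L.pt (L.act f (φ₁ m')) j).1 (L.pt (act' f m') j).1) → False) := by
    intro f m m' hm hm' he k g j hst _ hA hB
    rw [← he, kA f m hm k] at hst hB
    by_cases hmv : X.mv (φ₁ m)
    · have h1 := L.mo f _ (o1 f m hm) hmv
      have h2 := FRS_stp_idx hst h1
      rw [h2] at h1
      exact FRS_tri (hac j) (q := L.pt f j) (p := L.pt (L.act f (φ₁ m')) j)
        (r := L.pt (L.act f (φ₁ m)) j) (SimpleGraph.Adj.symm hA) hB h1.1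
    · have h1 := L.st f _ (o1 f m hm) hmv
      exact FRS_stp_ne hst h1.symm
  have noBC : ∀ f m m', Y.o m = L.p f → Y.o m' = L.p f → act' f m = act' f m' →
      Par2 X a b (φ₂ m) (X.i (φ₁ m)) → Par2 X a b (X.i (φ₁ m')) (φ₂ m') → False := by
    intro f m m' hm hm' he k k'
    obtain ⟨_, g, j, j1, hst, _, e1, e2, _⟩ := kB f m hm k
    obtain ⟨_, g', j', j1', hst', _, e1', e2', _⟩ := kC f m' hm' k'
    rw [← he] at hst' e2'
    have hj := FRS_stp_idx hst hst'
    rw [hj] at e1' e2'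
    have q1 : g'⁻¹ • g • u = x := by rw [← e1, e1', inv_smul_smul]
    have q2 : g'⁻¹ • g • x = u := by rw [← e2, e2', inv_smul_smul]
    have hux1 : S'.Adj u x := by
      have := hux 1
      rwa [one_smul, one_smul] at this
    exact h'.noinv (g'⁻¹ * g) u x hux1 (by rw [mul_smul]; exact q1) (by rw [mul_smul]; exact q2)
  have injB : ∀ f m m', Y.o m = L.p f → Y.o m' = L.p f → act' f m = act' f m' →
      Par2 X a b (φ₂ m) (X.i (φ₁ m)) → Par2 X a b (φ₂ m') (X.i (φ₁ m')) → m = m' := by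
    intro f m m' hm hm' he k k'
    obtain ⟨hm1, g, j, j1, hst, e1, e2, e3, e4⟩ := kB f m hm k
    obtain ⟨hm1', g', j', j1', hst', e1', e2', e3', e4'⟩ := kB f m' hm' k'
    rw [← he] at hst' e3'
    have hj := FRS_stp_idx hst hst'
    subst hj
    -- the midpoints agree
    have a1 : (comp κ S j').Adj (L.pt f j') (L.pt (L.act f (φ₁ m)) j') := by
      show S.Adj _ _
      rw [e1, e2]
      exact (hgu g).symm
    have a2 : (comp κ S j').Adj (L.pt (L.act f (φ₁ m)) j') (L.pt (act' f m) j') := by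
      show S.Adj _ _
      rw [e1, e3]
      exact hgx g
    have a3 : (comp κ S j').Adj (L.pt f j') (L.pt (L.act f (φ₁ m')) j') := by
      show S.Adj _ _
      rw [e1', e2']
      exact (hgu g').symm
    have a4 : (comp κ S j').Adj (L.pt (L.act f (φ₁ m')) j') (L.pt (act' f m) j') := by
      show S.Adj _ _
      rw [e1', e3']
      exact hgx g'
    have hmid := FRS_mid (hac j') hst.1.ne a1 a2 a3 a4
    have hpt : L.pt (L.act f (φ₁ m)) = L.pt (L.act f (φ₁ m')) := by
      funext i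
      by_cases hi : i = j'
      · rw [hi]
        exact hmid
      · rw [e4 i hi, e4' i hi]
    obtain ⟨s, s1, s2, s3⟩ := FRS_stat L hpt
    have hlc : X.lc s (φ₂ m) := by
      refine ⟨s2, ?_⟩
      rw [o2 f m hm, ← s3, L.act_p _ _ s1]
    have hlci : X.lc s (X.i (φ₁ m)) := by
      refine ⟨s2, ?_⟩
      rw [hX0.oi, ← L.act_p f _ (o1 f m hm), ← s3, L.act_p _ _ s1]
    have hoi : ∀ n, Y.o n = L.p f → X.o (X.i (φ₁ n)) = L.p (L.act f (φ₁ n)) := by
      intro n hn
      rw [hX0.oi, L.act_p f _ (o1 f n hn)]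
    have q2 : φ₂ m' = X.ml s (φ₂ m) := by
      refine L.inj (L.act f (φ₁ m')) _ _ (o2 f m' hm') ((hX0.mlo _ _ hlc).trans s1) ?_
      rw [L.act_ml _ _ _ s1 hlc, s3, ← hact, ← hact, he]
    have q1 : X.i (φ₁ m') = X.ml s (X.i (φ₁ m)) := by
      refine L.inj (L.act f (φ₁ m')) _ _ (hoi m' hm') ((hX0.mlo _ _ hlci).trans s1) ?_
      rw [L.act_ml _ _ _ s1 hlci, s3, L.act_i f _ (o1 f m hm), L.act_i f _ (o1 f m' hm')]
    have q3 : φ₁ m' = X.i (X.ml s (X.i (φ₁ m))) := by rw [← q1, hX0.ii]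
    exact hr.inj₁ m m' s k hlc q3 q2
  have noAB' : ∀ f m m', Y.o m = L.p f → Y.o m' = L.p f → act' f m = act' f m' →
      φ₂ m = X.e (X.t (φ₁ m)) → (Par2 X a b (φ₂ m') (X.i (φ₁ m')) ∨
        Par2 X a b (X.i (φ₁ m')) (φ₂ m')) → False := by
    intro f m m' hm hm' he k k'
    rcases k' with k' | k'
    · obtain ⟨_, g, j, _, hst, e1, e2, e3, _⟩ := kB f m' hm' k'
      refine noAB f m m' hm hm' he k g j hst e1 ?_ ?_
      · rw [e1, e2]
        exact hgu g
      · rw [e1, e3]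
        exact hgx g
    · obtain ⟨_, g, j, _, hst, e1, e2, e3, _⟩ := kC f m' hm' k'
      refine noAB f m m' hm hm' he k g j hst e1 ?_ ?_
      · rw [e1, e2]
        exact hgx g
      · rw [e1, e3]
        exact hgu g
  have flip : ∀ f m, Y.o m = L.p f → Par2 X a b (X.i (φ₁ m)) (φ₂ m) →
      Y.o (Y.i m) = L.p (act' f m) ∧ Par2 X a b (φ₂ (Y.i m)) (X.i (φ₁ (Y.i m))) := by
    intro f m hm k
    have hoi : Y.o (Y.i m) = L.p (act' f m) := by rw [hY0.oi, actp f m hm]
    refine ⟨hoi, ?_⟩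
    obtain ⟨_, g, j, j1, hst, e1, e2, e3, e4⟩ := kC f m hm k
    have hback : act' (act' f m) (Y.i m) = f := acti f m hm
    rcases hr.kind (Y.i m) with hk | hk | hk
    · exfalso
      have hst2 := FRS_stp_symm hst
      have hA := kA (act' f m) (Y.i m) hoi hk.2.2
      rw [hback] at hA
      have a1 : (comp κ S j).Adj (L.pt f j) (L.pt (L.act f (φ₁ m)) j) := by
        show S.Adj _ _
        rw [e1, e2]
        exact (hgx g).symm
      have a2 : (comp κ S j).Adj (L.pt (L.act f (φ₁ m)) j) (L.pt (act' f m) j) := by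
        show S.Adj _ _
        rw [e1, e3]
        exact hgu g
      by_cases hmv : X.mv (φ₁ (Y.i m))
      · have h1 := L.mo (act' f m) _ (o1 _ _ hoi) hmv
        rw [← hA] at h1
        have h2 := FRS_stp_idx hst2 h1
        rw [h2] at h1
        exact FRS_tri (hac j) a1 a2 h1.1.symm
      · have h1 := L.st (act' f m) _ (o1 _ _ hoi) hmv
        rw [← hA] at h1
        exact FRS_stp_ne hst h1
    · exact hk
    · exfalso
      obtain ⟨_, g', j', j1', hst', e1', e2', e3', _⟩ := kC (act' f m) (Y.i m) hoi hk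
      rw [hback] at hst' e3'
      have hj := FRS_stp_idx (FRS_stp_symm hst) hst'
      subst hj
      have q1 : g'⁻¹ • g • x = u := by rw [← e2, e3', inv_smul_smul]
      have q2 : g'⁻¹ • g • u = x := by rw [← e3, e2', inv_smul_smul]
      have hux1 : S'.Adj u x := by
        have := hux 1
        rwa [one_smul, one_smul] at this
      exact h'.noinv (g'⁻¹ * g) u x hux1 (by rw [mul_smul]; exact q2)
        (by rw [mul_smul]; exact q1)
  have inj' : ∀ f m m', Y.o m = L.p f → Y.o m' = L.p f → act' f m = act' f m' → m = m' := by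
    intro f m m' hm hm' he
    rcases hr.kind m with k | k | k
    · rcases hr.kind m' with k' | k' | k'
      · have e1 : φ₁ m = φ₁ m' := by
          refine L.inj f _ _ (o1 f m hm) (o1 f m' hm') ?_
          rw [← kA f m hm k.2.2, ← kA f m' hm' k'.2.2, he]
        exact hr.inj₀ m m' e1 (by rw [k.2.2, k'.2.2, e1])
      · exact (noAB' f m m' hm hm' he k.2.2 (Or.inl k')).elim
      · exact (noAB' f m m' hm hm' he k.2.2 (Or.inr k')).elim
    · rcases hr.kind m' with k' | k' | k'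
      · exact (noAB' f m' m hm' hm he.symm k'.2.2 (Or.inl k)).elim
      · exact injB f m m' hm hm' he k k'
      · exact (noBC f m m' hm hm' he k k').elim
    · rcases hr.kind m' with k' | k' | k'
      · exact (noAB' f m' m hm' hm he.symm k'.2.2 (Or.inr k)).elim
      · exact (noBC f m' m hm' hm he.symm k' k).elim
      · obtain ⟨p1, p2⟩ := flip f m hm k
        obtain ⟨p1', p2'⟩ := flip f m' hm' k'
        rw [← he] at p1'
        have e1 : Y.i m = Y.i m' := by
          refine injB (act' f m) _ _ p1 p1' ?_ p2 p2'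
          rw [acti f m hm, he, acti f m' hm']
        rw [← hY0.ii m, e1, hY0.ii]
  have sqof : ∀ f m n m' n', Y.o m = L.p f → SqT Y m n m' n' →
      act' (act' f m) n = act' (act' f m') n' → Y.sq m n m' n' := by
    intro f m n m' n' hm ht he
    have hne : Y.ty n ≠ Y.pm m (Y.ty m) := by
      rw [ht.tyb]
      exact fun hc => ht.ne (FRS_pm_inj hY0 m hc).symm
    obtain ⟨c, d, hsq⟩ := hY0.sqe m n ht.ma ht.mb ht.tab hne
    have tc := hY0.sqT _ _ _ _ hsq
    have e1 := actsq f m n c d hm hsq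
    have hc : Y.o c = L.p f := tc.oac.symm.trans hm
    have hm' : Y.o m' = L.p f := ht.oac.symm.trans hm
    have hty : Y.ty c = Y.ty m' := by
      apply FRS_pm_inj hY0 m
      rw [← tc.tyb, ← ht.tyb]
    have hd : Y.o d = L.p (act' f c) := by rw [actp f c hc, tc.tcd]
    have hn' : Y.o n' = L.p (act' f m') := by rw [actp f m' hm', ht.tcd]
    have actlam : ∀ f m, Y.o m = L.p f → ∀ k, L.lam (act' f m) (Y.pm m k) = L.lam f k := by
      intro f m hm k
      rw [hact, hr.pm, L.act_lam _ _ (o2 f m hm), L.act_lam _ _ (o1 f m hm)]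
    have s1 := mo' f c hc tc.mc
    have s2 := mo' f m' hm' ht.mc
    have s3 := mo' (act' f c) d hd tc.md
    have s4 := mo' (act' f m') n' hn' ht.md
    rw [tc.tyd, actlam f c hc] at s3
    rw [ht.tyd, actlam f m' hm'] at s4
    rw [hty] at s1
    rw [← e1] at s3
    rw [← he] at s4
    have hne2 : L.lam f (Y.ty m') ≠ L.lam f (Y.ty m) :=
      fun hc => ht.ne ((L.bij f).1 hc).symm
    have hpt : L.pt (act' f m') = L.pt (act' f c) := by
      funext k
      by_cases hk : k = L.lam f (Y.ty m')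
      · rw [hk, ← s3.2 _ hne2, ← s4.2 _ hne2]
      · rw [s1.2 k hk, s2.2 k hk]
    obtain ⟨s, hs1, hs2⟩ := sur' (act' f c) (act' f m') (Or.inl hpt)
    have hsn : ¬ Y.mv s := by
      intro hmv
      have h1 := mo' _ s hs1 hmv
      rw [hs2] at h1
      exact FRS_stp_ne h1 hpt.symm
    have hrc : Y.rc c s := ⟨hsn, by rw [hs1, actp f c hc]⟩
    have q1 : m' = Y.mr c s := by
      refine inj' f _ _ hm' ((val_mro hY0 hrc).trans hc) ?_
      rw [actmr f c s hc hrc, hs2]
    have hlc : Y.lc (Y.i s) d := by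
      refine ⟨fun hc => hsn ((hY0.mi s).1 hc), ?_⟩
      rw [hY0.ti, hs1, hd]
    have his : Y.o (Y.i s) = L.p (act' f m') := by
      rw [hY0.oi, ← hs2, actp _ s hs1]
    have hback : act' (act' f m') (Y.i s) = act' f c := by
      rw [← hs2]
      exact acti _ s hs1
    have q2 : n' = Y.ml (Y.i s) d := by
      refine inj' (act' f m') _ _ hn' ((hY0.mlo _ _ hlc).trans his) ?_
      rw [actml _ _ _ his hlc, hback, ← he, e1]
    rw [q1, q2]
    exact val_sqm' hY0 hsq hrc
  have actlam : ∀ f m, Y.o m = L.p f → ∀ k, L.lam (act' f m) (Y.pm m k) = L.lam f k := by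
    intro f m hm k
    rw [hact, hr.pm, L.act_lam _ _ (o2 f m hm), L.act_lam _ _ (o1 f m hm)]
  refine ⟨h'.forest, h'.act, hr.valid, F, inferInstance,
    { pt := L.pt
      lam := L.lam
      p := L.p
      act := act'
      bij := L.bij
      onto := L.onto
      act_p := actp
      act_lam := actlam
      act_e := acte
      act_i := acti
      act_ml := actml
      act_sq := actsq
      sq_of := sqof
      st := st'
      mo := mo'
      sur := sur'
      inj := inj' }, ?_⟩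
  refine ⟨hL.gp, ?_, hL.gpt, hL.glam, hL.free, hL.trans, hL.onto⟩
  intro g f m hm
  show act' (g • f) m = g • act' f m
  rw [hact, hact, hL.gact g f _ (o1 f m hm), hL.gact g _ _ (o2 f m hm)]

end

end LatF
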