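import Pool.Agent.Lib.MP_32d917_al.FDefs
import Pool.Agent.Lib.MP_32d917_al.SUBD
import Pool.Agent.Lib.MP_32d917_al.N.NSUBD
import Pool.Agent.Lib.MP_32d917_al.F.FRED

/-!
# barycentric subdivision: from the class to FLat

`IsForestLattice G`: `FAction G S` on `V` (possibly with inversions). Components: `ι = S.ConnectedComponent` (finite, nonempty), `G` acts on it;
transport to `Fin (n + 1)`. Take the barycentric subdivision: vertices `V₁ = V ⊕ S.edgeSet` (or the model of SUBD.lean), `κ` = component.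
There are no inversions (types are preserved). See SUBD.lean, N/NSUBD.lean for one tree: `sub...` lemmas on the subdivision of a tree (acyclic,
connected, locally finite, leafless, noinv); apply them to every component, or redo them for the forest.
Points: a point `T` (set) of the class corresponds to `x : ∀ i, Fib κ i`, `T = range`. prop for the subdivision: let `x₁` be a point of the
subdivision, some coordinates are edges. The group `K = {g | Mv g x₁ x₁}` permutes the finite set of sets
`T ⊆ V` which contain for every `i` the vertex `x₁ i`, or one of the two ends of the edge `x₁ i`. Each such `T` is a point, its stabilizer is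
finite, so `K` is finite (finite orbit, finite stabilizer). fin: for a point `x₁` choose such a `T`; some `g` maps `T` into the finite set `Φ`; then `g x₁` is
one of the finitely many points whose coordinates are vertices of a `T' ∈ Φ` or edges at vertices of `T'` (local finiteness).
-/

set_option autoImplicit false

namespace LatF

open LatIso LatN

/-! ### Components of the subdivision -/

section

variable {V : Type} {S : SimpleGraph V}

/-- the component of a vertex of the subdivision -/
noncomputable def fsubK (S : SimpleGraph V) (x : SbV S) : S.ConnectedComponent :=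
  S.connectedComponentMk x.2.choose

theorem fsub_k {x : SbV S} {a : V} (ha : a ∈ x.1) : fsubK S x = S.connectedComponentMk a := by
  obtain ⟨b, h, hb⟩ := x.2.choose_spec
  rw [h, Sym2.mem_iff] at ha
  unfold fsubK
  rw [SimpleGraph.ConnectedComponent.eq]
  rcases ha with rfl | rfl
  · exact SimpleGraph.Reachable.refl _
  · rcases hb with hb | hb
    · rw [hb]
    · exact hb.reachable

theorem fsub_mem (x : SbV S) : ∃ a, a ∈ x.1 := by
  obtain ⟨a, b, h, -⟩ := x.2
  exact ⟨a, by rw [h]; exact Sym2.mem_mk_left a b⟩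

theorem fsub_kap (x y : SbV S) (h : (sbG S).Adj x y) : fsubK S x = fsubK S y := by
  obtain ⟨a, b, -, ⟨e1, e2⟩ | ⟨e1, e2⟩⟩ := h
  · rw [fsub_k (x := x) (a := a) (by rw [e1]; exact Sym2.mem_mk_left a a),
      fsub_k (x := y) (a := a) (by rw [e2]; exact Sym2.mem_mk_left a b)]
  · rw [fsub_k (x := y) (a := a) (by rw [e1]; exact Sym2.mem_mk_left a a),
      fsub_k (x := x) (a := a) (by rw [e2]; exact Sym2.mem_mk_left a b)]

/-- the inclusion of the subdivision of a component -/
def fsubF (c : S.ConnectedComponent) (x : SbV (comp (fun v => S.connectedComponentMk v) S c)) :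
    Fib (fsubK S) c :=
  ⟨⟨x.1.map Subtype.val, by
    obtain ⟨a, b, h, h1⟩ := x.2
    exact ⟨a.1, b.1, by rw [h]; rfl, h1.imp (congrArg Subtype.val) id⟩⟩, by
    obtain ⟨a, ha⟩ := fsub_mem x
    have h1 : a.1 ∈ x.1.map Subtype.val := Sym2.mem_map.2 ⟨a, ha, rfl⟩
    have h2 : fsubK S ⟨x.1.map Subtype.val, by
      obtain ⟨a, b, h, h1⟩ := x.2
      exact ⟨a.1, b.1, by rw [h]; rfl, h1.imp (congrArg Subtype.val) id⟩⟩ =
        S.connectedComponentMk a.1 := fsub_k h1
    rw [h2]
    exact a.2⟩

theorem fsubF_inj (c : S.ConnectedComponent) : Function.Injective (fsubF c) := by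
  intro x y h
  have h1 : x.1.map Subtype.val = y.1.map Subtype.val := congrArg (fun z => z.1.1) h
  exact Subtype.ext (Sym2.map.injective Subtype.val_injective h1)

theorem fsubF_sur (c : S.ConnectedComponent) : Function.Surjective (fsubF c) := by
  rintro ⟨⟨z, a, b, rfl, hab⟩, hz⟩
  have ha : S.connectedComponentMk a = c := by
    rw [← hz]
    exact (fsub_k (Sym2.mem_mk_left a b)).symm
  have hb : S.connectedComponentMk b = c := by
    rw [← hz]
    exact (fsub_k (Sym2.mem_mk_right a b)).symm
  refine ⟨⟨s(⟨a, ha⟩, ⟨b, hb⟩), ⟨a, ha⟩, ⟨b, hb⟩, rfl, hab.imp (fun h => Subtype.ext h) id⟩, ?_⟩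
  exact Subtype.ext (Subtype.ext rfl)

theorem fsubF_adj (c : S.ConnectedComponent)
    (x y : SbV (comp (fun v => S.connectedComponentMk v) S c)) :
    (comp (fsubK S) (sbG S) c).Adj (fsubF c x) (fsubF c y) ↔
      (sbG (comp (fun v => S.connectedComponentMk v) S c)).Adj x y := by
  constructor
  · rintro ⟨a, b, hab, h⟩
    have ha : S.connectedComponentMk a = c := by
      rcases h with ⟨e1, -⟩ | ⟨e1, -⟩
      · have e2 : x.1.map Subtype.val = s(a, a) := e1
        have h1 : a ∈ x.1.map Subtype.val := by rw [e2]; exact Sym2.mem_mk_left a a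
        obtain ⟨a', -, ha'⟩ := Sym2.mem_map.1 h1
        rw [← ha']
        exact a'.2
      · have e2 : y.1.map Subtype.val = s(a, a) := e1
        have h1 : a ∈ y.1.map Subtype.val := by rw [e2]; exact Sym2.mem_mk_left a a
        obtain ⟨a', -, ha'⟩ := Sym2.mem_map.1 h1
        rw [← ha']
        exact a'.2
    have hb : S.connectedComponentMk b = c := by
      rw [← ha, SimpleGraph.ConnectedComponent.eq]
      exact hab.symm.reachable
    refine ⟨⟨a, ha⟩, ⟨b, hb⟩, hab, ?_⟩
    rcases h with ⟨e1, e2⟩ | ⟨e1, e2⟩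
    · exact Or.inl ⟨Sym2.map.injective Subtype.val_injective e1,
        Sym2.map.injective Subtype.val_injective e2⟩
    · exact Or.inr ⟨Sym2.map.injective Subtype.val_injective e1,
        Sym2.map.injective Subtype.val_injective e2⟩
  · rintro ⟨a, b, hab, h⟩
    refine ⟨a.1, b.1, hab, ?_⟩
    rcases h with ⟨e1, e2⟩ | ⟨e1, e2⟩
    · left
      refine ⟨?_, ?_⟩
      · show x.1.map Subtype.val = s(a.1, a.1)
        rw [e1]
        rfl
      · show y.1.map Subtype.val = s(a.1, b.1)
        rw [e2]
        rfl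
    · right
      refine ⟨?_, ?_⟩
      · show y.1.map Subtype.val = s(a.1, a.1)
        rw [e1]
        rfl
      · show x.1.map Subtype.val = s(a.1, b.1)
        rw [e2]
        rfl

theorem fsub_tree (hS : S.IsAcyclic) (c : S.ConnectedComponent) :
    (comp (fsubK S) (sbG S) c).IsTree := by
  have hT : (comp (fun v => S.connectedComponentMk v) S c).IsTree := hS.isTree_connectedComponent c
  let e : sbG (comp (fun v => S.connectedComponentMk v) S c) ≃g comp (fsubK S) (sbG S) c :=
    ⟨Equiv.ofBijective (fsubF c) ⟨fsubF_inj c, fsubF_sur c⟩, fun {x y} => fsubF_adj c x y⟩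
  exact e.isTree_iff.1 (sb_tree hT)

theorem fsub_symfin (z : Sym2 V) : {v | v ∈ z}.Finite := by
  induction z using Sym2.ind with
  | _ a b =>
    refine (Set.toFinite {a, b}).subset ?_
    intro v hv
    have h1 : v ∈ s(a, b) := hv
    rw [Sym2.mem_iff] at h1
    exact h1

theorem fsub_point (x : ∀ c, Fib (fsubK S) c) (a : S.ConnectedComponent → V)
    (ha : ∀ c, a c ∈ (x c).1.1) : IsPoint S (Set.range a) := by
  have hc : ∀ c, S.connectedComponentMk (a c) = c := fun c => by
    rw [← fsub_k (ha c)]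
    exact (x c).2
  intro v
  refine ⟨a (S.connectedComponentMk v), ⟨⟨_, rfl⟩, ?_⟩, ?_⟩
  · exact SimpleGraph.ConnectedComponent.eq.1 (hc (S.connectedComponentMk v)).symm
  · rintro _ ⟨⟨c, rfl⟩, hr⟩
    have h1 : S.connectedComponentMk v = c := by
      rw [← hc c]
      exact SimpleGraph.ConnectedComponent.eq.2 hr
    rw [h1]

variable {G : Type} [Group G] [MulAction G V]

theorem fsub_finmap {T T' : Set V} (h : {g : G | (fun x => g • x) '' T = T}.Finite) :
    {g : G | (fun x => g • x) '' T = T'}.Finite := by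
  rcases Set.eq_empty_or_nonempty {g : G | (fun x => g • x) '' T = T'} with h0 | ⟨g₀, hg₀⟩
  · rw [h0]
    exact Set.finite_empty
  · refine (h.image (fun k => g₀ * k)).subset ?_
    intro g hg
    refine ⟨g₀⁻¹ * g, ?_, mul_inv_cancel_left g₀ g⟩
    have e1 : (fun x : V => (g₀⁻¹ * g) • x) '' T = (fun x => g₀⁻¹ • x) '' ((fun x => g • x) '' T) := by
      rw [Set.image_image]
      refine congrArg (fun f => f '' T) (funext fun x => mul_smul _ _ _)
    have hg' : (fun x : V => g • x) '' T = T' := hg
    have hg₀' : (fun x : V => g₀ • x) '' T = T' := hg₀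
    show (fun x : V => (g₀⁻¹ * g) • x) '' T = T
    rw [e1, hg', ← hg₀', Set.image_image]
    have e2 : (fun x : V => g₀⁻¹ • g₀ • x) = id := funext fun x => inv_smul_smul g₀ x
    rw [e2, Set.image_id]

/-- the action on the components -/
@[reducible] def fsubAct (adj : ∀ (g : G) (x y : V), S.Adj x y → S.Adj (g • x) (g • y)) :
    MulAction G S.ConnectedComponent where
  smul g c := c.map (⟨fun v => g • v, fun {a b} h => adj g a b h⟩ : S →g S)
  one_smul c := by
    induction c using SimpleGraph.ConnectedComponent.ind with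
    | _ v =>
      show S.connectedComponentMk ((1 : G) • v) = S.connectedComponentMk v
      rw [one_smul]
  mul_smul g k c := by
    induction c using SimpleGraph.ConnectedComponent.ind with
    | _ v =>
      show S.connectedComponentMk ((g * k) • v) = S.connectedComponentMk (g • k • v)
      rw [mul_smul]

end

section

theorem fsub_flat {G V : Type} [Group G] [MulAction G V] {S : SimpleGraph V} (L : FAction G S) :
    @FLat G _ (SbV S) S.ConnectedComponent (sbAct L.adj) (fsubAct L.adj) (fsubK S) (sbG S) := by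
  let a1 : MulAction G (SbV S) := sbAct L.adj
  let a2 : MulAction G S.ConnectedComponent := fsubAct L.adj
  have := L.comps
  have hsm : ∀ (g : G) (x : SbV S), (g • x).1 = x.1.map (fun v => g • v) := fun g x => rfl
  have hmem : ∀ (g : G) (x : SbV S) (t : V), t ∈ x.1 → g • t ∈ (g • x).1 := by
    intro g x t ht
    rw [hsm]
    exact Sym2.mem_map.2 ⟨t, ht, rfl⟩
  have hkap : ∀ (g : G) (x : SbV S), fsubK S (g • x) = g • fsubK S x := by
    intro g x
    obtain ⟨a, ha⟩ := fsub_mem x
    rw [fsub_k ha, fsub_k (hmem g x a ha)]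
    rfl
  refine ⟨⟨⟨fsub_tree L.acyc, fsub_kap⟩, ⟨hkap, ?_⟩, ?_, sb_loc L.loc, ?_, ?_⟩, ?_⟩
  · rintro g x y ⟨a, b, hab, h⟩
    refine ⟨g • a, g • b, L.adj g a b hab, ?_⟩
    rcases h with ⟨e1, e2⟩ | ⟨e1, e2⟩
    · left
      refine ⟨?_, ?_⟩
      · show x.1.map _ = _
        rw [e1]; rfl
      · show y.1.map _ = _
        rw [e2]; rfl
    · right
      refine ⟨?_, ?_⟩
      · show y.1.map _ = _
        rw [e1]; rfl
      · show x.1.map _ = _
        rw [e2]; rfl
  · rintro g x y ⟨a, b, hab, h⟩ h1 h2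
    have key : ∀ k : G, Sym2.map (fun v => k • v) s(a, a) ≠ s(a, b) := by
      intro k hk
      have h3 : s(k • a, k • a) = s(a, b) := hk
      rw [Sym2.eq_iff] at h3
      rcases h3 with h3 | h3
      · exact hab.ne (h3.1.symm.trans h3.2)
      · exact hab.ne (h3.2.symm.trans h3.1)
    rcases h with ⟨e1, e2⟩ | ⟨e1, e2⟩
    · apply key g
      rw [← e1, ← e2, ← h1]
      rfl
    · apply key g
      rw [← e1, ← e2, ← h2]
      rfl
  · intro x
    have hex : ∀ c, ∃ a, a ∈ (x c).1.1 := fun c => fsub_mem (x c).1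
    choose a₀ ha₀ using hex
    have hT := L.prop (Set.range a₀) (fsub_point x a₀ ha₀)
    have hA : {a : S.ConnectedComponent → V | ∀ c, a c ∈ (x c).1.1}.Finite :=
      Set.Finite.pi' fun c => fsub_symfin (x c).1.1
    refine (hA.biUnion (fun a _ => fsub_finmap (T := Set.range a₀) (T' := Set.range a) hT)).subset ?_
    intro g hg
    refine Set.mem_biUnion (x := fun c => g • a₀ (g⁻¹ • c)) ?_ ?_
    · intro c
      have h1 : g • (x (g⁻¹ • c)).1 = (x (g • g⁻¹ • c)).1 := hg (g⁻¹ • c)
      rw [smul_inv_smul] at h1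
      show g • a₀ (g⁻¹ • c) ∈ (x c).1.1
      rw [← h1]
      exact hmem g _ _ (ha₀ _)
    · show (fun v => g • v) '' Set.range a₀ = Set.range fun c => g • a₀ (g⁻¹ • c)
      ext t
      constructor
      · rintro ⟨_, ⟨c, rfl⟩, rfl⟩
        exact ⟨g • c, by
          show g • a₀ (g⁻¹ • g • c) = g • a₀ c
          rw [inv_smul_smul]⟩
      · rintro ⟨c, rfl⟩
        exact ⟨_, ⟨g⁻¹ • c, rfl⟩, rfl⟩
  · obtain ⟨Φ, hΦ, hF⟩ := L.fin
    let Q : Set (∀ c, Fib (fsubK S) c) :=
      ⋃ T ∈ {T | T ∈ Φ ∧ T.Finite}, {y | ∀ c, y c ∈ {z : Fib (fsubK S) c | ∃ t ∈ T, t ∈ z.1.1}}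
    have hQ : Q.Finite := by
      refine Set.Finite.biUnion (hΦ.subset fun T hT => hT.1) fun T hT => Set.Finite.pi' fun c => ?_
      have hR : (⋃ t ∈ T, (fun b => s(t, b)) '' (insert t (S.neighborSet t))).Finite :=
        Set.Finite.biUnion hT.2 fun t _ => ((L.loc t).insert t).image _
      have hinj : Function.Injective (fun z : Fib (fsubK S) c => z.1.1) :=
        fun z z' h => Subtype.ext (Subtype.ext h)
      refine (hR.preimage hinj.injOn).subset ?_
      rintro ⟨⟨z, a, b, rfl, hab⟩, hz⟩ ⟨t, ht, htz⟩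
      have htz' : t ∈ s(a, b) := htz
      rw [Sym2.mem_iff] at htz'
      show s(a, b) ∈ (⋃ t ∈ T, (fun b => s(t, b)) '' (insert t (S.neighborSet t)))
      rcases htz' with rfl | rfl
      · exact Set.mem_iUnion₂.2 ⟨t, ht, b, hab.imp (fun h => h.symm) id, rfl⟩
      · exact Set.mem_iUnion₂.2 ⟨t, ht, a, hab.imp id (fun h => h.symm), Sym2.eq_swap⟩
    refine ⟨hQ.toFinset, fun x => ?_⟩
    have hex : ∀ c, ∃ a, a ∈ (x c).1.1 := fun c => fsub_mem (x c).1
    choose a₀ ha₀ using hex
    obtain ⟨g, hg⟩ := hF (Set.range a₀) (fsub_point x a₀ ha₀)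
    refine ⟨g, fun c => ⟨g • (x (g⁻¹ • c)).1, ?_⟩, ?_, ?_⟩
    · rw [hkap, (x (g⁻¹ • c)).2, smul_inv_smul]
    · rw [Set.Finite.mem_toFinset]
      refine Set.mem_iUnion₂.2 ⟨_, ⟨hg, (Set.finite_range a₀).image _⟩, fun c => ?_⟩
      exact ⟨g • a₀ (g⁻¹ • c), ⟨_, ⟨g⁻¹ • c, rfl⟩, rfl⟩, hmem g _ _ (ha₀ _)⟩
    · intro c
      show g • (x c).1 = g • (x (g⁻¹ • g • c)).1
      rw [inv_smul_smul]
  · intro c
    refine ⟨?_, ?_⟩
    · intro v
      obtain ⟨x, y, hxy, hx, hy⟩ := sb_two L.two v.1
      exact ⟨⟨x, (fsub_kap _ _ hx).symm.trans v.2⟩, ⟨y, (fsub_kap _ _ hy).symm.trans v.2⟩,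
        fun h => hxy (congrArg Subtype.val h), hx, hy⟩
    · induction c using SimpleGraph.ConnectedComponent.ind with
      | _ v =>
        obtain ⟨w, x, y, z, hr, hxy, hyz, hxz, hx, hy, hz⟩ := L.three v
        have hw : S.connectedComponentMk w = S.connectedComponentMk v :=
          SimpleGraph.ConnectedComponent.eq.2 hr.symm
        have hk : ∀ b (h : w = b ∨ S.Adj w b), fsubK S (sbP S w b h) = S.connectedComponentMk v :=
          fun b h => (fsub_k (x := sbP S w b h) (Sym2.mem_mk_left w b)).trans hw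
        refine ⟨⟨sbP S w w (Or.inl rfl), hk _ _⟩, ⟨sbP S w x (Or.inr hx), hk _ _⟩,
          ⟨sbP S w y (Or.inr hy), hk _ _⟩, ⟨sbP S w z (Or.inr hz), hk _ _⟩,
          fun h => sb_ne hxy (Or.inr hx) (Or.inr hy) (congrArg Subtype.val h),
          fun h => sb_ne hyz (Or.inr hy) (Or.inr hz) (congrArg Subtype.val h),
          fun h => sb_ne hxz (Or.inr hx) (Or.inr hz) (congrArg Subtype.val h), sbG_adj hx, sbG_adj hy, sbG_adj hz⟩

theorem fsubd {G : Type} [Group G] (h : IsForestLattice G) :
    ∃ (n : ℕ) (V : Type) (_ : MulAction G V) (_ : MulAction G (Fin (n + 1)))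
      (κ : V → Fin (n + 1)) (S : SimpleGraph V), FLat G κ S := by
  obtain ⟨V, act, S, L⟩ := h
  let a1 : MulAction G (SbV S) := sbAct L.adj
  let a2 : MulAction G S.ConnectedComponent := fsubAct L.adj
  have := L.comps
  have : Nonempty S.ConnectedComponent := L.nonempty.map S.connectedComponentMk
  have hL : FLat G (fsubK S) (sbG S) := fsub_flat L
  obtain ⟨n, act', κ', L'⟩ := fred_number hL
  exact ⟨n, SbV S, a1, act', κ', sbG S, L'⟩

end

end LatF
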