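import Pool.Agent.Lib.MP_32d917_al.FDefs

/-!
# transport of structure along equivariant bijections

Pure transport. `flat_transport`: the bijections `Fib κ i ≃ Fib κ' (σ i)`, `v ↦ ⟨Φ v.1, _⟩`, are isomorphisms `comp κ (S'.comap Φ) i ≃g comp κ' S' (σ i)`;
points correspond to points. `cov_transport`: same `F`, `p`, `act`; `pt f i = ⟨Φ.symm (pt' f (σ i)).1, _⟩`, `lam f k = σ.symm (lam' f k)`.
-/

set_option autoImplicit false

namespace LatF

open LatIso LatN

section

variable {G : Type} [Group G] {V V' ι ι' : Type} [MulAction G V]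
  [MulAction G V'] [MulAction G ι] [MulAction G ι'] {κ : V → ι} {κ' : V' → ι'}
  {S' : SimpleGraph V'}

/-- points of the product, forward -/
private def ftrA (Φ : V ≃ V') (σ : ι ≃ ι') (h3 : ∀ v, κ' (Φ v) = σ (κ v)) (x : ∀ i, Fib κ i) :
    ∀ i', Fib κ' i' := fun i' => ⟨Φ (x (σ.symm i')).1, by rw [h3, (x _).2, σ.apply_symm_apply]⟩

/-- points of the product, backward -/
private def ftrB (Φ : V ≃ V') (σ : ι ≃ ι') (h3 : ∀ v, κ' (Φ v) = σ (κ v)) (y : ∀ i', Fib κ' i') :
    ∀ i, Fib κ i := fun i => ⟨Φ.symm (y (σ i)).1, σ.injective (by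
      rw [← h3, Φ.apply_symm_apply, (y _).2])⟩

private theorem ftr_congr (y : ∀ i', Fib κ' i') {i j : ι'} (h : i = j) : (y i).1 = (y j).1 := by
  rw [h]

private theorem ftr_congr' (y : ∀ i, Fib κ i) {i j : ι} (h : i = j) : (y i).1 = (y j).1 := by
  rw [h]

private theorem ftrBA (Φ : V ≃ V') (σ : ι ≃ ι') (h3 : ∀ v, κ' (Φ v) = σ (κ v)) (x : ∀ i, Fib κ i) :
    ftrB Φ σ h3 (ftrA Φ σ h3 x) = x := by
  funext i
  apply Subtype.ext
  change Φ.symm (Φ (x (σ.symm (σ i))).1) = (x i).1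
  rw [Φ.symm_apply_apply]
  exact ftr_congr' x (σ.symm_apply_apply i)

private theorem ftrAB (Φ : V ≃ V') (σ : ι ≃ ι') (h3 : ∀ v, κ' (Φ v) = σ (κ v)) (y : ∀ i', Fib κ' i') :
    ftrA Φ σ h3 (ftrB Φ σ h3 y) = y := by
  funext i
  apply Subtype.ext
  change Φ (Φ.symm (y (σ (σ.symm i))).1) = (y i).1
  rw [Φ.apply_symm_apply]
  exact ftr_congr y (σ.apply_symm_apply i)

private theorem ftr_mv (Φ : V ≃ V') (σ : ι ≃ ι') (h1 : ∀ (g : G) v, Φ (g • v) = g • Φ v)
    (h2 : ∀ (g : G) i, σ (g • i) = g • σ i) (h3 : ∀ v, κ' (Φ v) = σ (κ v)) (g : G) (x y : ∀ i, Fib κ i) :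
    Mv g x y ↔ Mv g (ftrA Φ σ h3 x) (ftrA Φ σ h3 y) := by
  have e : ∀ i', σ.symm (g • i') = g • σ.symm i' := by
    intro i'
    rw [Equiv.symm_apply_eq, h2, σ.apply_symm_apply]
  constructor
  · intro h i'
    change g • Φ (x (σ.symm i')).1 = Φ (y (σ.symm (g • i'))).1
    rw [← h1, h (σ.symm i'), ftr_congr' y (e i')]
  · intro h i
    have := h (σ i)
    change g • Φ (x (σ.symm (σ i))).1 = Φ (y (σ.symm (g • σ i))).1 at this
    rw [← h1, ftr_congr' x (σ.symm_apply_apply i), ftr_congr' y (e (σ i)),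
      ftr_congr' y (show g • σ.symm (σ i) = g • i by rw [σ.symm_apply_apply])] at this
    exact Φ.injective this

private theorem ftr_forest (Φ : V ≃ V') (σ : ι ≃ ι') (h3 : ∀ v, κ' (Φ v) = σ (κ v))
    (L : Forest κ' S') : Forest κ (S'.comap Φ) := by
  constructor
  · intro i
    have e : comp κ (S'.comap Φ) i ≃g comp κ' S' (σ i) :=
      { toFun := fun v => ⟨Φ v.1, by rw [h3, v.2]⟩
        invFun := fun w => ⟨Φ.symm w.1, σ.injective (by rw [← h3, Φ.apply_symm_apply, w.2])⟩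
        left_inv := fun v => Subtype.ext (Φ.symm_apply_apply v.1)
        right_inv := fun w => Subtype.ext (Φ.apply_symm_apply w.1)
        map_rel_iff' := Iff.rfl }
    exact e.isTree_iff.mpr (L.tree (σ i))
  · intro x y h
    apply σ.injective
    rw [← h3, ← h3]
    exact L.kap _ _ h

private theorem ftr_act (Φ : V ≃ V') (σ : ι ≃ ι') (h1 : ∀ (g : G) v, Φ (g • v) = g • Φ v)
    (h2 : ∀ (g : G) i, σ (g • i) = g • σ i) (h3 : ∀ v, κ' (Φ v) = σ (κ v))
    (L : FAct G κ' S') : FAct G κ (S'.comap Φ) := by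
  constructor
  · intro g v
    apply σ.injective
    rw [← h3, h1, L.kap, h3, h2]
  · intro g x y h
    change S'.Adj (Φ (g • x)) (Φ (g • y))
    rw [h1, h1]
    exact L.adj g _ _ h

theorem flat_transport (Φ : V ≃ V') (σ : ι ≃ ι') (h1 : ∀ (g : G) v, Φ (g • v) = g • Φ v)
    (h2 : ∀ (g : G) i, σ (g • i) = g • σ i) (h3 : ∀ v, κ' (Φ v) = σ (κ v))
    (L : FLat0 G κ' S') : FLat0 G κ (S'.comap Φ) := by
  refine ⟨ftr_forest Φ σ h3 L.forest, ftr_act Φ σ h1 h2 h3 L.act, ?_, ?_, ?_, ?_⟩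
  · intro g x y h e1 e2
    apply L.noinv g (Φ x) (Φ y) h
    · rw [← h1, e1]
    · rw [← h1, e2]
  · intro v
    have : (S'.comap Φ).neighborSet v = Φ ⁻¹' (S'.neighborSet (Φ v)) := by
      ext w
      rfl
    rw [this]
    exact (L.loc (Φ v)).preimage Φ.injective.injOn
  · intro x
    refine (L.prop (ftrA Φ σ h3 x)).subset ?_
    intro g hg
    exact (ftr_mv Φ σ h1 h2 h3 g x x).mp hg
  · obtain ⟨F', hF'⟩ := L.fin
    classical
    refine ⟨F'.image (ftrB Φ σ h3), fun x => ?_⟩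
    obtain ⟨g, y', hy', hg⟩ := hF' (ftrA Φ σ h3 x)
    refine ⟨g, ftrB Φ σ h3 y', Finset.mem_image_of_mem _ hy', ?_⟩
    rw [ftr_mv Φ σ h1 h2 h3, ftrAB]
    exact hg

private theorem ftr_stp (Φ : V ≃ V') (σ : ι ≃ ι') (h3 : ∀ v, κ' (Φ v) = σ (κ v)) (i : ι)
    (x y : ∀ i', Fib κ' i') :
    Stp (comp κ (S'.comap Φ)) i (ftrB Φ σ h3 x) (ftrB Φ σ h3 y) ↔ Stp (comp κ' S') (σ i) x y := by
  constructor
  · rintro ⟨a1, a2⟩
    constructor
    · change S'.Adj (Φ (Φ.symm (x (σ i)).1)) (Φ (Φ.symm (y (σ i)).1)) at a1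
      rw [Φ.apply_symm_apply, Φ.apply_symm_apply] at a1
      exact a1
    · intro j hj
      have hj' : σ.symm j ≠ i := by
        intro h
        apply hj
        rw [← h, σ.apply_symm_apply]
      have h4 := congrArg Subtype.val (a2 (σ.symm j) hj')
      change Φ.symm (y (σ (σ.symm j))).1 = Φ.symm (x (σ (σ.symm j))).1 at h4
      have h5 := Φ.symm.injective h4
      rw [ftr_congr y (σ.apply_symm_apply j), ftr_congr x (σ.apply_symm_apply j)] at h5
      exact Subtype.ext h5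
  · rintro ⟨a1, a2⟩
    constructor
    · change S'.Adj (Φ (Φ.symm (x (σ i)).1)) (Φ (Φ.symm (y (σ i)).1))
      rw [Φ.apply_symm_apply, Φ.apply_symm_apply]
      exact a1
    · intro j hj
      apply Subtype.ext
      change Φ.symm (y (σ j)).1 = Φ.symm (x (σ j)).1
      rw [a2 (σ j) (fun h => hj (σ.injective h))]

theorem cov_transport {ι₀ P A : Type} {X : FD ι₀ P A} (Φ : V ≃ V') (σ : ι ≃ ι')
    (h1 : ∀ (g : G) v, Φ (g • v) = g • Φ v) (h2 : ∀ (g : G) i, σ (g • i) = g • σ i)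
    (h3 : ∀ v, κ' (Φ v) = σ (κ v)) (h : IsCov G κ' S' X) : IsCov G κ (S'.comap Φ) X := by
  obtain ⟨hF, hA, hV, F, aF, L, hC⟩ := h
  have binj : ∀ x y, ftrB Φ σ h3 x = ftrB Φ σ h3 y → x = y := by
    intro x y hxy
    rw [← ftrAB Φ σ h3 x, ← ftrAB Φ σ h3 y, hxy]
  refine ⟨ftr_forest Φ σ h3 hF, ftr_act Φ σ h1 h2 h3 hA, hV, F, aF, ?_, ?_⟩
  · exact
      { pt := fun f => ftrB Φ σ h3 (L.pt f)
        lam := fun f k => σ.symm (L.lam f k)
        p := L.p
        act := L.act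
        bij := fun f => σ.symm.bijective.comp (L.bij f)
        onto := fun x => by
          obtain ⟨f, hf⟩ := L.onto (ftrA Φ σ h3 x)
          exact ⟨f, by rw [hf, ftrBA]⟩
        act_p := L.act_p
        act_lam := fun f a ha k => by rw [L.act_lam f a ha k]
        act_e := L.act_e
        act_i := L.act_i
        act_ml := L.act_ml
        act_sq := L.act_sq
        sq_of := L.sq_of
        st := fun f a ha hm => by rw [L.st f a ha hm]
        mo := fun f a ha hm => by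
          rw [ftr_stp, σ.apply_symm_apply]
          exact L.mo f a ha hm
        sur := fun f f' hff => by
          apply L.sur f f'
          rcases hff with hff | ⟨i, hi⟩
          · exact Or.inl (binj _ _ hff)
          · exact Or.inr ⟨σ i, (ftr_stp Φ σ h3 i _ _).mp hi⟩
        inj := L.inj }
  · constructor
    · exact hC.gp
    · exact hC.gact
    · intro g f i
      change Φ.symm (L.pt (g • f) (σ (g • i))).1 = g • Φ.symm (L.pt f (σ i)).1
      rw [ftr_congr (L.pt (g • f)) (h2 g i), hC.gpt, Equiv.symm_apply_eq, h1, Φ.apply_symm_apply]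
    · intro g f k
      change σ.symm (L.lam (g • f) k) = g • σ.symm (L.lam f k)
      rw [hC.glam, Equiv.symm_apply_eq, h2, σ.apply_symm_apply]
    · exact hC.free
    · exact hC.trans
    · exact hC.onto

end

end LatF
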