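import Pool.Agent.Lib.MP_32d917_al.FDefs

/-!
# transport along group isomorphisms and isomorphisms of data

`hasCov_transport`: let `G'` act on `V`, `ι'`, `F` through `e` (`MulAction.compHom`). `hasCov_iso`: from `Iso X Y` = `(u, w, σ)` (`u` on objects,
`w` on arrows) and a framed forest for `X` get one for `Y`, with the same `V`, `κ`, `S`, `F`, `pt`: `p' f = u (p f)`, `act' f a' = act f (w.symm a')`,
`lam' f k' = lam f ((σ (p f)).symm k')`. `X.lc`, `SqT`, ... correspond to each other by the relations in `Iso`.
-/

set_option autoImplicit false

namespace LatF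

open LatIso LatN

section

theorem hasCov_transport {G : Type} [Group G] {G' : Type} [Group G'] (e : G' ≃* G)
    {ι₀ P A : Type} {X : FD ι₀ P A} (h : HasCov G X) : HasCov G' X := by
  obtain ⟨V, ι', aV, aι, κ, S, hF, hA, hV, F, aF, L, hC⟩ := h
  refine ⟨V, ι', MulAction.compHom V e.toMonoidHom, MulAction.compHom ι' e.toMonoidHom, κ, S, hF, ?_, hV, F,
    MulAction.compHom F e.toMonoidHom, L, ?_⟩
  · exact @FAct.mk G' _ V ι' (MulAction.compHom V e.toMonoidHom) (MulAction.compHom ι' e.toMonoidHom) κ S
      (fun g v => hA.kap (e g) v) (fun g x y hxy => hA.adj (e g) x y hxy)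
  · refine @Cov.mk G' _ ι₀ P A X V ι' (MulAction.compHom V e.toMonoidHom)
      (MulAction.compHom ι' e.toMonoidHom) κ S F (MulAction.compHom F e.toMonoidHom) L
      (fun g f => hC.gp (e g) f) (fun g f a ha => hC.gact (e g) f a ha) (fun g f i => hC.gpt (e g) f i)
      (fun g f k => hC.glam (e g) f k) (fun g f hf => ?_) (fun f f' hff => ?_) hC.onto
    · have := hC.free (e g) f hf
      exact e.map_eq_one_iff.mp this
    · obtain ⟨g, hg⟩ := hC.trans f f' hff
      refine ⟨e.symm g, ?_⟩
      change e (e.symm g) • f = f'
      rw [e.apply_symm_apply]
      exact hg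

theorem hasCov_iso {G : Type} [Group G] {ι₀ P A ι₁ P₁ A₁ : Type} {X : FD ι₀ P A}
    {Y : FD ι₁ P₁ A₁} (hY : Valid Y) (e : Iso X Y) (h : HasCov G X) : HasCov G Y := by
  obtain ⟨V, ι', aV, aι, κ, S, hF, hA, hV, F, aF, L, hC⟩ := h
  obtain ⟨u, w, σ, eo, et, ee, ei, em, ety, epm, eml, esq⟩ := e
  have ho : ∀ a f, Y.o (w a) = u (L.p f) → X.o a = L.p f := by
    intro a f h
    rw [eo] at h
    exact u.injective h
  have hlc : ∀ s a, Y.lc (w s) (w a) → X.lc s a := by
    intro s a h
    refine ⟨fun h' => h.1 ((em s).mpr h'), ?_⟩
    have := h.2
    rw [et, eo] at this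
    exact u.injective this
  refine ⟨V, ι', aV, aι, κ, S, hF, hA, hY, F, aF, ?_, ?_⟩
  · exact
      { pt := L.pt
        lam := fun f k => L.lam f ((σ (L.p f)).symm k)
        p := fun f => u (L.p f)
        act := fun f a => L.act f (w.symm a)
        bij := fun f => (L.bij f).comp (σ (L.p f)).symm.bijective
        onto := L.onto
        act_p := fun f a' ha => by
          obtain ⟨a, rfl⟩ := w.surjective a'
          rw [w.symm_apply_apply, et, L.act_p f a (ho a f ha)]
        act_lam := fun f a' ha k' => by
          obtain ⟨a, rfl⟩ := w.surjective a'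
          have h0 := ho a f ha
          obtain ⟨k, rfl⟩ := (σ (X.o a)).surjective k'
          rw [w.symm_apply_apply, epm, L.act_p f a h0, (σ (X.t a)).symm_apply_apply, L.act_lam f a h0,
            ← h0, (σ (X.o a)).symm_apply_apply]
        act_e := fun f => by
          rw [ee, w.symm_apply_apply, L.act_e]
        act_i := fun f a' ha => by
          obtain ⟨a, rfl⟩ := w.surjective a'
          rw [ei, w.symm_apply_apply, w.symm_apply_apply, L.act_i f a (ho a f ha)]
        act_ml := fun f s' a' hs hlc' => by
          obtain ⟨a, rfl⟩ := w.surjective a'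
          obtain ⟨s, rfl⟩ := w.surjective s'
          have h1 := hlc s a hlc'
          rw [eml s a h1, w.symm_apply_apply, w.symm_apply_apply, w.symm_apply_apply,
            L.act_ml f s a (ho s f hs) h1]
        act_sq := fun f a' b' c' d' ha hsq => by
          obtain ⟨a, rfl⟩ := w.surjective a'
          obtain ⟨b, rfl⟩ := w.surjective b'
          obtain ⟨c, rfl⟩ := w.surjective c'
          obtain ⟨d, rfl⟩ := w.surjective d'
          simp only [w.symm_apply_apply]
          exact L.act_sq f a b c d (ho a f ha) ((esq a b c d).mp hsq)
        sq_of := fun f a' b' c' d' ha hT hact => by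
          obtain ⟨a, rfl⟩ := w.surjective a'
          obtain ⟨b, rfl⟩ := w.surjective b'
          obtain ⟨c, rfl⟩ := w.surjective c'
          obtain ⟨d, rfl⟩ := w.surjective d'
          simp only [w.symm_apply_apply] at hact
          rw [esq]
          have ma := (em a).mp hT.ma
          have mb := (em b).mp hT.mb
          have mc := (em c).mp hT.mc
          have md := (em d).mp hT.md
          have oac : X.o a = X.o c := by
            have := hT.oac
            rw [eo, eo] at this
            exact u.injective this
          have tab : X.t a = X.o b := by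
            have := hT.tab
            rw [et, eo] at this
            exact u.injective this
          have tcd : X.t c = X.o d := by
            have := hT.tcd
            rw [et, eo] at this
            exact u.injective this
          have tbd : X.t b = X.t d := by
            have := hT.tbd
            rw [et, et] at this
            exact u.injective this
          refine L.sq_of f a b c d (ho a f ha) ⟨ma, mb, mc, md, oac, tab, tcd, tbd, ?_, ?_, ?_⟩ hact
          · intro h
            apply hT.ne
            rw [ety a ma, ety c mc, oac, h]
          · have := hT.tyb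
            rw [ety b mb, ety c mc, ← oac, epm, ← tab] at this
            exact (σ (X.t a)).injective this
          · have := hT.tyd
            rw [ety d md, ety a ma, oac, epm, ← tcd] at this
            exact (σ (X.t c)).injective this
        st := fun f a' ha hm => by
          obtain ⟨a, rfl⟩ := w.surjective a'
          rw [w.symm_apply_apply]
          exact L.st f a (ho a f ha) (fun h' => hm ((em a).mpr h'))
        mo := fun f a' ha hm => by
          obtain ⟨a, rfl⟩ := w.surjective a'
          have ma := (em a).mp hm
          have h0 := ho a f ha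
          rw [w.symm_apply_apply, ety a ma, ← h0, (σ (X.o a)).symm_apply_apply]
          exact L.mo f a h0 ma
        sur := fun f f' hff => by
          obtain ⟨a, h0, h1⟩ := L.sur f f' hff
          refine ⟨w a, ?_, ?_⟩
          · rw [eo, h0]
          · rw [w.symm_apply_apply, h1]
        inj := fun f a' b' ha hb hab => by
          obtain ⟨a, rfl⟩ := w.surjective a'
          obtain ⟨b, rfl⟩ := w.surjective b'
          simp only [w.symm_apply_apply] at hab
          rw [L.inj f a b (ho a f ha) (ho b f hb) hab] }
  · constructor
    · intro g f
      change u (L.p (g • f)) = u (L.p f)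
      rw [hC.gp]
    · intro g f a' ha
      obtain ⟨a, rfl⟩ := w.surjective a'
      change L.act (g • f) (w.symm (w a)) = g • L.act f (w.symm (w a))
      rw [w.symm_apply_apply]
      exact hC.gact g f a (ho a f ha)
    · exact hC.gpt
    · intro g f k
      change L.lam (g • f) ((σ (L.p (g • f))).symm k) = g • L.lam f ((σ (L.p f)).symm k)
      rw [hC.gp, hC.glam]
    · exact hC.free
    · intro f f' hff
      exact hC.trans f f' (u.injective hff)
    · intro q
      obtain ⟨f, hf⟩ := hC.onto (u.symm q)
      refine ⟨f, ?_⟩
      change u (L.p f) = q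
      rw [hf, u.apply_symm_apply]

end

end LatF
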