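import Pool.Agent.Lib.MP_32d917_al.FDefs
import Pool.Agent.Lib.MP_32d917_al.F.FVAL
import Pool.Agent.Lib.MP_32d917_al.UC

/-!
# the tree of one direction

Bass-Serre tree of the arrows of direction `k`. Let `D q` = classes of arrows `a` with `X.dir q k a` modulo `X.eqv`; choose a representative `ρ d` of every class. Vertices of the tree: reduced sequences `(d_1, ..., d_n)`: `d_1` a
class at `p0`, `d_(j+1)` a class at `t (ρ d_j)`, and `ρ d_(j+1)` is not equivalent to `i (ρ d_j)`. `q (d_1..d_n) = t (ρ d_n)` (and `p0` for the empty sequence). Edges: `w` and `w d`. `al w (w d) = ρ d`, `al (w d) w = i (ρ d)`. Tree: as in `UC.lean` (lists with the last letter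
added, or in reversed order with `cons`). `FH`: mv, ty (`tyi`, `pm = id`), o, t, inv (`ii`), inj: the neighbours of `w = w' d` are `w'` (class of `i (ρ d)`) and `w d'` (class of `ρ d' ≁ i (ρ d)`), all classes different; `sur`:
every arrow `a` at `q w` in direction `k` is equivalent to `i (ρ d)` or to `ρ d'` with `d'` its class. It is enough to work with a set of representatives: `Rep : A → Prop` such that every arrow of direction `k` is equivalent to exactly
one representative; vertices = lists of representatives. `al` at non-adjacent pairs: any arrow (`Nonempty A`).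
-/

set_option autoImplicit false

namespace LatF

open LatIso LatN

section

variable {ι P A : Type} {X : FD ι P A}

/-- the graph of lists satisfying a condition; neighbours differ by the first letter -/
private def fucG {A : Type} (ok : List A → Prop) : SimpleGraph {l : List A // ok l} where
  Adj x y := (∃ a, x.1 = a :: y.1) ∨ (∃ a, y.1 = a :: x.1)
  symm := by
    constructor
    rintro x y (h | h)
    · exact Or.inr h
    · exact Or.inl h
  loopless := by
    constructor
    rintro x (⟨a, h⟩ | ⟨a, h⟩)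
    · have := congrArg List.length h
      simp at this
    · have := congrArg List.length h
      simp at this

private theorem fucG_conn {A : Type} (ok : List A → Prop) (h0 : ok [])
    (hs : ∀ a l, ok (a :: l) → ok l) : (fucG ok).Connected := by
  have key : ∀ (l : List A) (h : ok l), (fucG ok).Reachable ⟨l, h⟩ ⟨[], h0⟩ := by
    intro l
    induction l with
    | nil => intro h; exact SimpleGraph.Reachable.refl _
    | cons a l ih =>
      intro h
      have h' : ok l := hs a l h
      refine SimpleGraph.Reachable.trans (v := ⟨l, h'⟩) ?_ (ih h')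
      apply SimpleGraph.Adj.reachable
      exact Or.inl ⟨a, rfl⟩
  have : Nonempty {l : List A // ok l} := ⟨⟨[], h0⟩⟩
  refine SimpleGraph.Connected.mk ?_
  intro x y
  exact (key x.1 x.2).trans (key y.1 y.2).symm

private theorem fucG_bridge {A : Type} (ok : List A → Prop) (x y : {l : List A // ok l}) (a : A)
    (h : x.1 = a :: y.1) : ¬ ((fucG ok).deleteEdges {s(x, y)}).Reachable x y := by
  intro hr
  have key : ∀ z w : {l : List A // ok l}, ((fucG ok).deleteEdges {s(x, y)}).Adj z w →
      x.1 <:+ z.1 → x.1 <:+ w.1 := by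
    intro z w hzw hz
    rw [SimpleGraph.deleteEdges_adj] at hzw
    obtain ⟨h1, h2⟩ := hzw
    rcases h1 with ⟨b, hb⟩ | ⟨b, hb⟩
    · rw [hb, List.suffix_cons_iff] at hz
      rcases hz with hz | hz
      · exfalso
        apply h2
        have hz1 : x = z := Subtype.ext (by rw [hz, hb])
        have hz2 : w = y := Subtype.ext (by
          rw [h] at hz
          exact (List.cons.inj hz).2.symm)
        subst hz1
        subst hz2
        exact Set.mem_singleton _
      · exact hz
    · rw [hb]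
      exact hz.trans (List.suffix_cons _ _)
  have key2 : ∀ z w : {l : List A // ok l}, ((fucG ok).deleteEdges {s(x, y)}).Reachable z w →
      x.1 <:+ z.1 → x.1 <:+ w.1 := by
    rintro z w ⟨p⟩
    induction p with
    | nil => exact fun h => h
    | cons hadj _ ih => exact fun h => ih (key _ _ hadj h)
  have h3 := key2 x y hr (List.suffix_refl _)
  have := h3.length_le
  rw [h] at this
  simp at this

private theorem fucG_tree {A : Type} (ok : List A → Prop) (h0 : ok [])
    (hs : ∀ a l, ok (a :: l) → ok l) : (fucG ok).IsTree := by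
  refine ⟨fucG_conn ok h0 hs, ?_⟩
  rw [SimpleGraph.isAcyclic_iff_forall_adj_isBridge]
  intro x y hxy
  rw [SimpleGraph.isBridge_iff]
  rcases hxy with ⟨a, h⟩ | ⟨a, h⟩
  · exact fucG_bridge ok x y a h
  · intro hr
    apply fucG_bridge ok y x a h
    rw [Sym2.eq_swap]
    exact hr.symm

/-- label of an oriented edge -/
private noncomputable def fucal {A : Type} (i : A → A) (d : A) (x y : List A) : A :=
  if x.length < y.length then y.headD d else i (x.headD d)

private theorem fucal_up {A : Type} (i : A → A) (d : A) (x y : List A) (a : A) (h : y = a :: x) :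
    fucal i d x y = a := by
  unfold fucal
  rw [h]
  simp

private theorem fucal_down {A : Type} (i : A → A) (d : A) (x y : List A) (a : A)
    (h : x = a :: y) : fucal i d x y = i a := by
  unfold fucal
  rw [h]
  simp

/-- end point of a path; the last arrow comes first -/
private def fucend {ι P A : Type} (X : FD ι P A) (p0 : P) : List A → P
  | [] => p0
  | a :: _ => X.t a

/-- reduced paths of representatives in direction `k`; the last arrow comes first -/
private def fucok {ι P A : Type} (X : FD ι P A) (k : ι) (ρ : A → A) (p0 : P) : List A → Prop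
  | [] => True
  | a :: l => X.dir (fucend X p0 l) k a ∧ ρ a = a ∧ (∀ b l', l = b :: l' → ¬ X.eqv a (X.i b)) ∧
      fucok X k ρ p0 l

theorem fuc_exists [Nonempty A] (hX : Valid0 X) (hp : ∀ a k, X.pm a k = k) (k : ι) (p0 : P) :
    ∃ (V : Type) (S : SimpleGraph V) (v0 : V) (q : V → P) (al : V → V → A), S.IsTree ∧
      q v0 = p0 ∧ FH X k S q al := by
  classical
  obtain ⟨d⟩ := ‹Nonempty A›
  obtain ⟨hr, hsy, htr⟩ := val_eqv hX
  -- representatives
  obtain ⟨ρ, hρ1, hρ2⟩ : ∃ ρ : A → A, (∀ a, X.eqv a (ρ a)) ∧ ∀ a b, X.eqv a b → ρ a = ρ b := by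
    let st : Setoid A := ⟨X.eqv, ⟨hr, fun {a b} h => hsy a b h, fun {a b c} h h' => htr a b c h h'⟩⟩
    refine ⟨fun a => (Quotient.mk st a).out, ?_, ?_⟩
    · intro a
      exact hsy _ _ (Quotient.mk_out (s := st) a)
    · intro a b h
      have h1 : Quotient.mk st a = Quotient.mk st b := Quotient.sound h
      show (Quotient.mk st a).out = (Quotient.mk st b).out
      rw [h1]
  have hρρ : ∀ a, ρ (ρ a) = ρ a := fun a => (hρ2 a (ρ a) (hρ1 a)).symm
  have hdir : ∀ q a, X.dir q k a → X.dir q k (ρ a) := by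
    intro q a ha
    obtain ⟨s, hs, he⟩ := hρ1 a
    rw [he]
    exact ⟨(val_mro hX hs).trans ha.1, (val_mrm hX hs).2 ha.2.1,
      (val_mry hX hs ha.2.1).trans ha.2.2⟩
  let ok : List A → Prop := fucok X k ρ p0
  have h0 : ok [] := trivial
  have hs : ∀ a l, ok (a :: l) → ok l := fun a l h => h.2.2.2
  have hok : ∀ a l, ok (a :: l) → X.dir (fucend X p0 l) k a ∧ ρ a = a ∧
      ∀ b l', l = b :: l' → ¬ X.eqv a (X.i b) := fun a l h => ⟨h.1, h.2.1, h.2.2.1⟩
  refine ⟨{l : List A // ok l}, fucG ok, ⟨[], h0⟩, fun v => fucend X p0 v.1,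
    fun v v' => fucal X.i d v.1 v'.1, fucG_tree ok h0 hs, rfl, ?_, ?_, ?_, ?_, ?_, ?_, ?_⟩
  · rintro v v' (⟨a, h⟩ | ⟨a, h⟩)
    · have h1 := hok a v'.1 (h ▸ v.2)
      show X.mv (fucal X.i d v.1 v'.1)
      rw [fucal_down X.i d v.1 v'.1 a h, hX.mi]
      exact h1.1.2.1
    · have h1 := hok a v.1 (h ▸ v'.2)
      show X.mv (fucal X.i d v.1 v'.1)
      rw [fucal_up X.i d v.1 v'.1 a h]
      exact h1.1.2.1
  · rintro v v' (⟨a, h⟩ | ⟨a, h⟩)
    · have h1 := hok a v'.1 (h ▸ v.2)
      show X.ty (fucal X.i d v.1 v'.1) = k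
      rw [fucal_down X.i d v.1 v'.1 a h, hX.tyi a h1.1.2.1, hp]
      exact h1.1.2.2
    · have h1 := hok a v.1 (h ▸ v'.2)
      show X.ty (fucal X.i d v.1 v'.1) = k
      rw [fucal_up X.i d v.1 v'.1 a h]
      exact h1.1.2.2
  · rintro v v' (⟨a, h⟩ | ⟨a, h⟩)
    · show X.o (fucal X.i d v.1 v'.1) = fucend X p0 v.1
      rw [fucal_down X.i d v.1 v'.1 a h, hX.oi, h]
      rfl
    · have h1 := hok a v.1 (h ▸ v'.2)
      show X.o (fucal X.i d v.1 v'.1) = fucend X p0 v.1
      rw [fucal_up X.i d v.1 v'.1 a h]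
      exact h1.1.1
  · rintro v v' (⟨a, h⟩ | ⟨a, h⟩)
    · have h1 := hok a v'.1 (h ▸ v.2)
      show X.t (fucal X.i d v.1 v'.1) = fucend X p0 v'.1
      rw [fucal_down X.i d v.1 v'.1 a h, hX.ti]
      exact h1.1.1
    · show X.t (fucal X.i d v.1 v'.1) = fucend X p0 v'.1
      rw [fucal_up X.i d v.1 v'.1 a h, h]
      rfl
  · rintro v v' (⟨a, h⟩ | ⟨a, h⟩)
    · show fucal X.i d v'.1 v.1 = X.i (fucal X.i d v.1 v'.1)
      rw [fucal_down X.i d v.1 v'.1 a h, fucal_up X.i d v'.1 v.1 a h, hX.ii]
    · show fucal X.i d v'.1 v.1 = X.i (fucal X.i d v.1 v'.1)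
      rw [fucal_down X.i d v'.1 v.1 a h, fucal_up X.i d v.1 v'.1 a h]
  · rintro v x y (⟨a, h⟩ | ⟨a, h⟩) (⟨b, h'⟩ | ⟨b, h'⟩) hal
    · apply Subtype.ext
      rw [h] at h'
      exact (List.cons.inj h').2
    · exfalso
      change X.eqv (fucal X.i d v.1 x.1) (fucal X.i d v.1 y.1) at hal
      rw [fucal_down X.i d v.1 x.1 a h, fucal_up X.i d v.1 y.1 b h'] at hal
      have h1 := hok b v.1 (h' ▸ y.2)
      exact h1.2.2 a x.1 h (hsy _ _ hal)
    · exfalso
      change X.eqv (fucal X.i d v.1 x.1) (fucal X.i d v.1 y.1) at hal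
      rw [fucal_up X.i d v.1 x.1 a h, fucal_down X.i d v.1 y.1 b h'] at hal
      have h1 := hok a v.1 (h ▸ x.2)
      exact h1.2.2 b y.1 h' hal
    · change X.eqv (fucal X.i d v.1 x.1) (fucal X.i d v.1 y.1) at hal
      rw [fucal_up X.i d v.1 x.1 a h, fucal_up X.i d v.1 y.1 b h'] at hal
      have h1 := hok a v.1 (h ▸ x.2)
      have h2 := hok b v.1 (h' ▸ y.2)
      have h3 := hρ2 a b hal
      rw [h1.2.1, h2.2.1] at h3
      apply Subtype.ext
      rw [h, h', h3]
  · intro v a ha
    by_cases hc : ∃ b l, v.1 = b :: l ∧ X.eqv a (X.i b)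
    · obtain ⟨b, l, hv, hab⟩ := hc
      have hl : ok l := hs b l (hv ▸ v.2)
      refine ⟨⟨l, hl⟩, Or.inl ⟨b, hv⟩, ?_⟩
      show X.eqv (fucal X.i d v.1 l) a
      rw [fucal_down X.i d v.1 l b hv]
      exact hsy _ _ hab
    · push Not at hc
      have hok' : ok (ρ a :: v.1) := by
        refine ⟨hdir _ a ha, hρρ a, ?_, v.2⟩
        intro b l' hb he
        exact hc b l' hb (htr _ _ _ (hρ1 a) he)
      refine ⟨⟨ρ a :: v.1, hok'⟩, Or.inr ⟨ρ a, rfl⟩, ?_⟩
      show X.eqv (fucal X.i d v.1 (ρ a :: v.1)) a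
      rw [fucal_up X.i d v.1 _ (ρ a) rfl]
      exact hsy _ _ (hρ1 a)

end

end LatF
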