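import Pool.Agent.Lib.MP_32d917_al.FDefs
import Pool.Agent.Lib.MP_32d917_al.F.TREL
import Pool.Agent.Lib.MP_32d917_al.F.CONNA
import Pool.Agent.Lib.MP_32d917_al.F.CONNB

/-!
# families of axes along a tree

axis_family: `trel` on the tree `T` (direction `k`) with `Y = (W → P) × (W → W → A)` (axes of direction `l` on the tree `U` with vertex set `W`), `Q v y := FH X l U y.1 y.2 ∧ y.1 w0 = q v`,
`R v v' y y' := ∃ β, Conn X U y.1 y.2 y'.1 y'.2 β ∧ β w0 = ax v v'`. h1: `conn_exists` with `b = ax v v'` (origin `q v = y.1 w0`, type `k ≠ l`), and `y'.1 w0 = t (β w0) = q v'`. h2: `conn_symm` (`i (ax v v') = ax v' v`).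
strip_family: by connectedness of `T`, from `v0`: step `v → v'`: apply `conn_cube` (over `U`, base `w0`) with `β := ` the connecting arrows at height `v` (value `β v` at `w0`), `γ :=` the arrows from `(NQ v, NA v)` to `(NQ v', NA v')` (value `ax v v'`),
`γ' :=` the arrows from `(NQ' v, NA' v)` to `(NQ' v', NA' v')` (value `ax' v v'`), `b' = β v'`; the square `sq (β v) (ax' v v') (ax v v') (β v')` is `sqs` of the square in `Conn` of `β`.
-/

set_option autoImplicit false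

namespace LatF

open LatIso LatN

section

variable {ι P A : Type} {X : FD ι P A}

theorem axis_family (hX : Valid0 X) (hp : ∀ a k, X.pm a k = k) {k l : ι} (hkl : k ≠ l) {V W : Type}
    {T : SimpleGraph V} {U : SimpleGraph W} (hT : T.IsTree) (hU : U.IsTree) {q : V → P}
    {ax : V → V → A} (h : FH X k T q ax) (v0 : V) (w0 : W) {q₁ : W → P} {al₁ : W → W → A}
    (h1 : FH X l U q₁ al₁) (h0 : q₁ w0 = q v0) :
    ∃ (NQ : V → W → P) (NA : V → W → W → A), NQ v0 = q₁ ∧ NA v0 = al₁ ∧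
      (∀ v, FH X l U (NQ v) (NA v) ∧ NQ v w0 = q v) ∧
      ∀ v v', T.Adj v v' → ∃ β, Conn X U (NQ v) (NA v) (NQ v') (NA v') β ∧ β w0 = ax v v' := by
  obtain ⟨f, hf0, hf1, hf2⟩ := trel (Y := (W → P) × (W → W → A)) hT
    (fun v y => FH X l U y.1 y.2 ∧ y.1 w0 = q v)
    (fun v v' y y' => ∃ β, Conn X U y.1 y.2 y'.1 y'.2 β ∧ β w0 = ax v v')
    (by
      intro v v' y hv hy
      obtain ⟨hy1, hy2⟩ := hy
      obtain ⟨q', al', β, g1, g2, g3, g4⟩ := conn_exists hX hp hU hy1 w0 (ax v v')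
        ((h.o v v' hv).trans hy2.symm) (h.mv v v' hv) (by
          rw [h.ty v v' hv]
          exact hkl)
      refine ⟨(q', al'), ⟨g1, ?_⟩, β, g2, g3⟩
      change q' w0 = q v'
      rw [← g2.t w0, g3, h.t v v' hv])
    (by
      intro v v' y y' hv hy hy' hR
      obtain ⟨β, g1, g2⟩ := hR
      refine ⟨fun w => X.i (β w), conn_symm hX g1, ?_⟩
      change X.i (β w0) = ax v' v
      rw [g2, h.inv v v' hv])
    v0 (q₁, al₁) ⟨h1, h0⟩
  refine ⟨fun v => (f v).1, fun v => (f v).2, ?_, ?_, fun v => hf1 v, fun v v' hv => hf2 v v' hv⟩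
  · change (f v0).1 = q₁
    rw [hf0]
  · change (f v0).2 = al₁
    rw [hf0]

theorem strip_family (hX : Valid0 X) {V W : Type}
    {T : SimpleGraph V} {U : SimpleGraph W} (hT : T.IsTree) (hU : U.IsTree) {q q' : V → P}
    {ax ax' : V → V → A} {β : V → A} (h : Conn X T q ax q' ax' β) (v0 : V) (w0 : W)
    {NQ NQ' : V → W → P} {NA NA' : V → W → W → A}
    (h1 : ∀ v v', T.Adj v v' → ∃ β, Conn X U (NQ v) (NA v) (NQ v') (NA v') β ∧ β w0 = ax v v')
    (h2 : ∀ v v', T.Adj v v' → ∃ β, Conn X U (NQ' v) (NA' v) (NQ' v') (NA' v') β ∧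
      β w0 = ax' v v')
    (h0 : ∃ γ, Conn X U (NQ v0) (NA v0) (NQ' v0) (NA' v0) γ ∧ γ w0 = β v0) (v : V) :
    ∃ γ, Conn X U (NQ v) (NA v) (NQ' v) (NA' v) γ ∧ γ w0 = β v := by
  have key : ∀ u v : V, T.Walk u v →
      (∃ γ, Conn X U (NQ u) (NA u) (NQ' u) (NA' u) γ ∧ γ w0 = β u) →
      ∃ γ, Conn X U (NQ v) (NA v) (NQ' v) (NA' v) γ ∧ γ w0 = β v := by
    intro u v w
    induction w with
    | nil => exact id
    | @cons a b c hab _ ih =>
      intro hγ
      apply ih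
      obtain ⟨γ, g1, g2⟩ := hγ
      obtain ⟨δ, d1, d2⟩ := h1 a b hab
      obtain ⟨δ', e1, e2⟩ := h2 a b hab
      obtain ⟨β', b1, b2, -⟩ := conn_cube hX hU g1 d1 e1 w0 (β b) (by
        rw [g2, d2, e2]
        exact hX.sqs _ _ _ _ (h.sq a b hab))
      exact ⟨β', b2, b1⟩
  obtain ⟨w⟩ := hT.connected.preconnected v0 v
  exact key v0 v w h0

end

end LatF
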