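import Pool.Agent.Lib.MP_32d917_al.FDefs
import Pool.Agent.Lib.MP_32d917_al.F.GJA
import Pool.Agent.Lib.MP_32d917_al.F.CONNC

/-!
# one more direction: the induction step (largest module)

Given `GJ` for `J` and a new direction `k ∉ J`. For a point `y` put `b y := Function.update y k (x0 k)` (base), `v := y k`. If `y` agrees with `x0` outside `insert k J` then `x := b y` agrees with `x0` outside `J`.
Axis `k` over `x`: `(q x k, ax x k)`, FH, `q x k (x0 k) = p x`. For `i ∈ J`, `w` adjacent to `x i`, `x' = update x i w`: let `B x i w : V k → A` be the connecting arrows of h.conn (choose; value `al x i w` at `x0 k`).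
For `l ∉ insert k J`: families `NQ x l v`, `NA x l v` (`v : V k`) from `axis_family` with `T = S k`, `U = S l`, `v0 = x0 k`, `w0 = x0 l`, start `(q x l, ax x l)`.
Define: `p' y = q (b y) k (y k)`; `al' y i w = if i = k then ax (b y) k (y k) w else B (b y) i w (y k)`; `q' y l = if l = k then (anything) else NQ (b y) l (y k)`, `ax' y l = NA (b y) l (y k)`.
Note `b (update y k w) = b y`, `b (update y i w) = update (b y) i w` for `i ≠ k` (update_comm), `(b y) i = y i` for `i ≠ k`. `p' x0 = q x0 k (x0 k) = p x0`.
dir, t, inv, inj, sur for `i = k`: fields of FH. For `i ∈ J`: dir: `conn_dir` from `x0 k`; t: Conn.t; inv: `B x' i (x i) = i ∘ B x i w` by `conn_symm`, `conn_uniq` (values at `x0 k` agree by h.inv); inj: `conn_eqv` moves the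
equivalence to `x0 k`, then h.inj; sur: `conn_sur` gives the arrow at `x0 k`, then h.sur, and `conn_sur` again.
sq: (k, j): `sqs` or the Conn square of `B`: `sq (ax x k v w) (B (w)) (B v) (ax x' k v w)`; (i, k) by `sqs`. (i, j) both in `J`: `conn_cube` over the tree `S k` with `β = B x i w`, `γ = B x j z`, `γ' = B (update x i w) j z`, `v0 = x0 k`, `b' = al (update x j z) i w` (square: h.sq);
the resulting `β'` is `B (update x j z) i w` by `conn_uniq`.
axis: from `axis_family`. conn for `l ∉ insert k J`: direction `k`: last part of `axis_family`; direction `i ∈ J`: `strip_family` with `β = B x i w` (start: h.conn for `l` over `x`, value `al x i w = B x i w (x0 k)`).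
-/

set_option autoImplicit false

namespace LatF

open LatIso LatN

section

variable {ι P A : Type} {X : FD ι P A}

theorem gj_step [DecidableEq ι] (hX : Valid0 X) (hp : ∀ a k, X.pm a k = k)
    {V : ι → Type} {S : ∀ i, SimpleGraph (V i)} (hS : ∀ i, (S i).IsTree) {x0 : ∀ i, V i}
    {J : Finset ι} {p : (∀ i, V i) → P} {al : (∀ i, V i) → (i : ι) → V i → A}
    {q : (∀ i, V i) → (k : ι) → V k → P} {ax : (∀ i, V i) → (k : ι) → V k → V k → A}
    (h : GJ X S x0 J p al q ax) (k : ι) (hk : k ∉ J) :
    ∃ p' al' q' ax', GJ X S x0 (insert k J) p' al' q' ax' ∧ p' x0 = p x0 := by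
  -- the connecting arrows of the directions in `J` along the axis `k`
  have HB : ∀ (x : ∀ i, V i) (i : ι) (w : V i), ∃ β : V k → A,
      (∀ i, i ∉ J → x i = x0 i) → i ∈ J → (S i).Adj (x i) w →
        Conn X (S k) (q x k) (ax x k) (q (Function.update x i w) k)
          (ax (Function.update x i w) k) β ∧ β (x0 k) = al x i w := by
    intro x i w
    by_cases hc : (∀ i, i ∉ J → x i = x0 i) ∧ i ∈ J ∧ (S i).Adj (x i) w
    · obtain ⟨β, hβ⟩ := h.conn x hc.1 k hk i hc.2.1 w hc.2.2
      exact ⟨β, fun _ _ _ => hβ⟩
    · exact ⟨fun _ => al x i w, fun h1 h2 h3 => absurd ⟨h1, h2, h3⟩ hc⟩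
  choose B hB using HB
  -- the families of axes
  have HN : ∀ (x : ∀ i, V i) (l : ι), ∃ (NQ : V k → V l → P) (NA : V k → V l → V l → A),
      (∀ i, i ∉ J → x i = x0 i) → l ∉ insert k J →
        NQ (x0 k) = q x l ∧ NA (x0 k) = ax x l ∧
        (∀ v, FH X l (S l) (NQ v) (NA v) ∧ NQ v (x0 l) = q x k v) ∧
        ∀ v v', (S k).Adj v v' → ∃ β, Conn X (S l) (NQ v) (NA v) (NQ v') (NA v') β ∧
          β (x0 l) = ax x k v v' := by
    intro x l
    by_cases hc : (∀ i, i ∉ J → x i = x0 i) ∧ l ∉ insert k J
    · have hlJ : l ∉ J := fun hh => hc.2 (Finset.mem_insert_of_mem hh)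
      have hkl : k ≠ l := fun hh => hc.2 (hh ▸ Finset.mem_insert_self k J)
      obtain ⟨hk1, hk2⟩ := h.axis x hc.1 k hk
      obtain ⟨hl1, hl2⟩ := h.axis x hc.1 l hlJ
      obtain ⟨NQ, NA, h1, h2, h3, h4⟩ := axis_family hX hp hkl (hS k) (hS l) hk1 (x0 k) (x0 l)
        hl1 (hl2.trans hk2.symm)
      exact ⟨NQ, NA, fun _ _ => ⟨h1, h2, h3, h4⟩⟩
    · exact ⟨fun _ => q x l, fun _ => ax x l, fun h1 h2 => absurd ⟨h1, h2⟩ hc⟩
  choose NQ NA hN using HN
  -- base points
  obtain ⟨b, hb⟩ : ∃ b : (∀ i, V i) → ∀ i, V i, ∀ y, b y = Function.update y k (x0 k) :=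
    ⟨fun y => Function.update y k (x0 k), fun _ => rfl⟩
  have hbJ : ∀ y : ∀ i, V i, (∀ i, i ∉ insert k J → y i = x0 i) → ∀ i, i ∉ J → b y i = x0 i := by
    intro y hy i hi
    rw [hb]
    by_cases hik : i = k
    · subst hik
      rw [Function.update_self]
    · rw [Function.update_of_ne hik]
      refine hy i fun hh => ?_
      rcases Finset.mem_insert.mp hh with hh | hh
      · exact hik hh
      · exact hi hh
  have hbi : ∀ (y : ∀ i, V i) i, i ≠ k → b y i = y i := by
    intro y i hi
    rw [hb, Function.update_of_ne hi]
  have hbk : ∀ (y : ∀ i, V i) (w : V k), b (Function.update y k w) = b y := by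
    intro y w
    rw [hb, hb, Function.update_idem]
  have hbu : ∀ (y : ∀ i, V i) (i : ι) (w : V i), i ≠ k →
      b (Function.update y i w) = Function.update (b y) i w := by
    intro y i w hi
    rw [hb, hb, Function.update_comm hi]
  have hkJ : ∀ i, i ∈ J → i ≠ k := fun i hi hh => hk (hh ▸ hi)
  -- changes of a coordinate in `J`
  have hJu : ∀ (x : ∀ i, V i), (∀ i, i ∉ J → x i = x0 i) → ∀ (i : ι) (w : V i), i ∈ J →
      ∀ j, j ∉ J → Function.update x i w j = x0 j := by
    intro x hx i w hi j hj
    have hji : j ≠ i := by
      rintro rfl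
      exact hj hi
    rw [Function.update_of_ne hji]
    exact hx j hj
  -- the connecting arrows over the base point
  have HC : ∀ y : ∀ i, V i, (∀ i, i ∉ insert k J → y i = x0 i) → ∀ i ∈ J, ∀ w : V i,
      (S i).Adj (y i) w → Conn X (S k) (q (b y) k) (ax (b y) k) (q (Function.update (b y) i w) k)
          (ax (Function.update (b y) i w) k) (B (b y) i w) ∧ B (b y) i w (x0 k) = al (b y) i w := by
    intro y hy i hi w hw
    refine hB (b y) i w (hbJ y hy) hi ?_
    rw [hbi y i (hkJ i hi)]
    exact hw
  -- the new labels
  obtain ⟨p', hp'⟩ : ∃ p' : (∀ i, V i) → P, ∀ y, p' y = q (b y) k (y k) := ⟨_, fun _ => rfl⟩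
  obtain ⟨al', hal'⟩ : ∃ al' : (∀ i, V i) → (i : ι) → V i → A, ∀ y i w, al' y i w =
      if i = k then ax (b y) i (y i) w else B (b y) i w (y k) :=
    ⟨fun y i w => if i = k then ax (b y) i (y i) w else B (b y) i w (y k), fun _ _ _ => rfl⟩
  have alk : ∀ y w, al' y k w = ax (b y) k (y k) w := by
    intro y w
    rw [hal', if_pos rfl]
  have alJ : ∀ y i w, i ∈ J → al' y i w = B (b y) i w (y k) := by
    intro y i w hi
    rw [hal', if_neg (hkJ i hi)]
  obtain ⟨q', hq'⟩ : ∃ q' : (∀ i, V i) → (l : ι) → V l → P, ∀ y l, q' y l = NQ (b y) l (y k) :=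
    ⟨fun y l => NQ (b y) l (y k), fun _ _ => rfl⟩
  obtain ⟨ax', hax'⟩ : ∃ ax' : (∀ i, V i) → (l : ι) → V l → V l → A,
      ∀ y l, ax' y l = NA (b y) l (y k) := ⟨fun y l => NA (b y) l (y k), fun _ _ => rfl⟩
  have hmem : ∀ i, i ∈ insert k J → i ≠ k → i ∈ J := by
    intro i hi hik
    rcases Finset.mem_insert.mp hi with hh | hh
    · exact absurd hh hik
    · exact hh
  -- values of the new labels after a change of a coordinate
  have pk : ∀ y w, p' (Function.update y k w) = q (b y) k w := by
    intro y w
    rw [hp', hbk, Function.update_self]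
  have pJ : ∀ y i w, i ∈ J → p' (Function.update y i w) = q (Function.update (b y) i w) k (y k) := by
    intro y i w hi
    rw [hp', hbu y i w (hkJ i hi), Function.update_of_ne (hkJ i hi).symm]
  have alkk : ∀ y w z, al' (Function.update y k w) k z = ax (b y) k w z := by
    intro y w z
    rw [alk, hbk, Function.update_self]
  have alkJ : ∀ y w i z, i ∈ J → al' (Function.update y k w) i z = B (b y) i z w := by
    intro y w i z hi
    rw [alJ _ i z hi, hbk, Function.update_self]
  have alJk : ∀ y i w z, i ∈ J →
      al' (Function.update y i w) k z = ax (Function.update (b y) i w) k (y k) z := by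
    intro y i w z hi
    rw [alk, hbu y i w (hkJ i hi), Function.update_of_ne (hkJ i hi).symm]
  have alJJ : ∀ y i w j z, i ∈ J → j ∈ J →
      al' (Function.update y i w) j z = B (Function.update (b y) i w) j z (y k) := by
    intro y i w j z hi hj
    rw [alJ _ j z hj, hbu y i w (hkJ i hi), Function.update_of_ne (hkJ i hi).symm]
  refine ⟨p', al', q', ax', ?_, ?_⟩
  · constructor
    · -- dir
      intro y hy i hi w hw
      have hx := hbJ y hy
      obtain ⟨hF, hF0⟩ := h.axis (b y) hx k hk
      by_cases hik : i = k
      · have key : ∀ w : V k, (S k).Adj (y k) w → X.dir (p' y) k (al' y k w) := by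
          intro w hw
          rw [alk, hp']
          exact ⟨hF.o _ _ hw, hF.mv _ _ hw, hF.ty _ _ hw⟩
        subst hik
        exact key w hw
      · have hiJ := hmem i hi hik
        obtain ⟨hC, hC0⟩ := HC y hy i hiJ w hw
        rw [alJ y i w hiJ, hp']
        refine conn_dir hX hp (hS k).connected hC (x0 k) i ?_ (y k)
        rw [hC0, hF0]
        refine h.dir (b y) hx i hiJ w ?_
        rw [hbi y i hik]
        exact hw
    · -- t
      intro y hy i hi w hw
      have hx := hbJ y hy
      obtain ⟨hF, hF0⟩ := h.axis (b y) hx k hk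
      by_cases hik : i = k
      · have key : ∀ w : V k, (S k).Adj (y k) w → X.t (al' y k w) = p' (Function.update y k w) := by
          intro w hw
          rw [alk, pk]
          exact hF.t _ _ hw
        subst hik
        exact key w hw
      · have hiJ := hmem i hi hik
        obtain ⟨hC, hC0⟩ := HC y hy i hiJ w hw
        rw [alJ y i w hiJ, pJ y i w hiJ]
        exact hC.t (y k)
    · -- inv
      intro y hy i hi w hw
      have hx := hbJ y hy
      obtain ⟨hF, hF0⟩ := h.axis (b y) hx k hk
      by_cases hik : i = k
      · have key : ∀ w : V k, (S k).Adj (y k) w →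
            al' (Function.update y k w) k (y k) = X.i (al' y k w) := by
          intro w hw
          rw [alkk, alk]
          exact hF.inv _ _ hw
        subst hik
        exact key w hw
      · have hiJ := hmem i hi hik
        obtain ⟨hC, hC0⟩ := HC y hy i hiJ w hw
        have hxw : (S i).Adj (b y i) w := by rw [hbi y i hik]; exact hw
        rw [alJJ y i w i (y i) hiJ hiJ, alJ y i w hiJ]
        have hx' := hJu (b y) hx i w hiJ
        have hw' : (S i).Adj (Function.update (b y) i w i) (y i) := by
          rw [Function.update_self]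
          exact hw.symm
        obtain ⟨hC', hC0'⟩ := hB (Function.update (b y) i w) i (y i) hx' hiJ hw'
        have hback : Function.update (Function.update (b y) i w) i (y i) = b y := by
          rw [Function.update_idem, ← hbi y i hik, Function.update_eq_self]
        rw [hback] at hC'
        have hu := conn_uniq hX (hS k).connected hC' (conn_symm hX hC) (x0 k) (by
          rw [hC0', hC0]
          have hinv := h.inv (b y) hx i hiJ w hxw
          rw [hbi y i hik] at hinv
          exact hinv)
        exact congrFun hu (y k)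
    · -- inj
      intro y hy i hi w z hw hz he
      have hx := hbJ y hy
      obtain ⟨hF, hF0⟩ := h.axis (b y) hx k hk
      by_cases hik : i = k
      · have key : ∀ w z : V k, (S k).Adj (y k) w → (S k).Adj (y k) z →
            X.eqv (al' y k w) (al' y k z) → w = z := by
          intro w z hw hz he
          rw [alk, alk] at he
          exact hF.inj _ _ _ hw hz he
        subst hik
        exact key w z hw hz he
      · have hiJ := hmem i hi hik
        obtain ⟨hC, hC0⟩ := HC y hy i hiJ w hw
        obtain ⟨hD, hD0⟩ := HC y hy i hiJ z hz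
        rw [alJ y i w hiJ, alJ y i z hiJ] at he
        have he' := conn_eqv hX (hS k).connected hF.inv hC hD (y k) (x0 k) he
        rw [hC0, hD0] at he'
        refine h.inj (b y) hx i hiJ w z ?_ ?_ he'
        · rw [hbi y i hik]
          exact hw
        · rw [hbi y i hik]
          exact hz
    · -- sur
      intro y hy i hi a ha
      have hx := hbJ y hy
      obtain ⟨hF, hF0⟩ := h.axis (b y) hx k hk
      by_cases hik : i = k
      · have key : X.dir (p' y) k a → ∃ w, (S k).Adj (y k) w ∧ X.eqv (al' y k w) a := by
          intro ha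
          rw [hp'] at ha
          obtain ⟨w, hw, he⟩ := hF.sur _ _ ha
          refine ⟨w, hw, ?_⟩
          rw [alk]
          exact he
        subst hik
        exact key ha
      · have hiJ := hmem i hi hik
        rw [hp'] at ha
        obtain ⟨c, hc, hc'⟩ := conn_sur hX hp (hS k) hF (x0 k) (y k) i hik a ha
        rw [hF0] at hc
        obtain ⟨w, hw, he⟩ := h.sur (b y) hx i hiJ c hc
        rw [hbi y i hik] at hw
        obtain ⟨hC, hC0⟩ := HC y hy i hiJ w hw
        refine ⟨w, hw, ?_⟩
        rw [alJ y i w hiJ]
        refine hc' _ _ _ hC ?_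
        rw [hC0]
        exact he
    · -- sq
      have kj : ∀ y, (∀ i, i ∉ insert k J → y i = x0 i) → ∀ j ∈ J, ∀ (w : V k) (z : V j),
          (S k).Adj (y k) w → (S j).Adj (y j) z →
          X.sq (al' y k w) (al' (Function.update y k w) j z) (al' y j z)
            (al' (Function.update y j z) k w) := by
        intro y hy j hj w z hw hz
        obtain ⟨hC, hC0⟩ := HC y hy j hj z hz
        rw [alk, alkJ y w j z hj, alJ y j z hj, alJk y j z w hj]
        exact hC.sq _ _ hw
      intro y hy i hi j hj w z hij hw hz
      have hx := hbJ y hy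
      by_cases hik : i = k
      · have hjJ : j ∈ J := hmem j hj (fun hh => hij (hik.trans hh.symm))
        subst hik
        exact kj y hy j hjJ w z hw hz
      · by_cases hjk : j = k
        · have hiJ := hmem i hi hik
          subst hjk
          exact hX.sqs _ _ _ _ (kj y hy i hiJ z w hz hw)
        · have hiJ := hmem i hi hik
          have hjJ := hmem j hj hjk
          obtain ⟨hC, hC0⟩ := HC y hy i hiJ w hw
          obtain ⟨hD, hD0⟩ := HC y hy j hjJ z hz
          have hxw : (S i).Adj (b y i) w := by rw [hbi y i hik]; exact hw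
          have hxz : (S j).Adj (b y j) z := by rw [hbi y j hjk]; exact hz
          have hxi := hJu (b y) hx i w hiJ
          have hxj := hJu (b y) hx j z hjJ
          have hz' : (S j).Adj (Function.update (b y) i w j) z := by
            rw [Function.update_of_ne hij.symm]
            exact hxz
          have hw' : (S i).Adj (Function.update (b y) j z i) w := by
            rw [Function.update_of_ne hij]
            exact hxw
          obtain ⟨hE, hE0⟩ := hB (Function.update (b y) i w) j z hxi hjJ hz'
          obtain ⟨hG, hG0⟩ := hB (Function.update (b y) j z) i w hxj hiJ hw'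
          have hcomm : Function.update (Function.update (b y) j z) i w =
              Function.update (Function.update (b y) i w) j z := Function.update_comm hij.symm z w (b y)
          obtain ⟨β', hβ0, hβ1, hβ2⟩ := conn_cube hX (hS k) hC hD hE (x0 k)
            (al (Function.update (b y) j z) i w) (by
              rw [hC0, hD0, hE0]
              exact h.sq (b y) hx i hiJ j hjJ w z hij hxw hxz)
          rw [hcomm] at hG
          have hu := conn_uniq hX (hS k).connected hβ1 hG (x0 k) (hβ0.trans hG0.symm)
          rw [alJ y i w hiJ, alJJ y i w j z hiJ hjJ, alJ y j z hjJ, alJJ y j z i w hjJ hiJ, ← hu]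
          exact hβ2 (y k)
    · -- axis
      intro y hy l hl
      have hx := hbJ y hy
      obtain ⟨h1, h2, h3, h4⟩ := hN (b y) l hx hl
      rw [hq', hax', hp']
      exact h3 (y k)
    · -- conn
      intro y hy l hl i hi w hw
      have hx := hbJ y hy
      obtain ⟨h1, h2, h3, h4⟩ := hN (b y) l hx hl
      have hlJ : l ∉ J := fun hh => hl (Finset.mem_insert_of_mem hh)
      by_cases hik : i = k
      · have key : ∀ w : V k, (S k).Adj (y k) w → ∃ β, Conn X (S l) (q' y l) (ax' y l)
            (q' (Function.update y k w) l) (ax' (Function.update y k w) l) β ∧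
            β (x0 l) = al' y k w := by
          intro w hw
          rw [hq', hax', hq', hax', hbk, Function.update_self, alk]
          exact h4 _ _ hw
        subst hik
        exact key w hw
      · have hiJ := hmem i hi hik
        obtain ⟨hC, hC0⟩ := HC y hy i hiJ w hw
        have hxw : (S i).Adj (b y i) w := by rw [hbi y i hik]; exact hw
        have hx' := hJu (b y) hx i w hiJ
        obtain ⟨g1, g2, g3, g4⟩ := hN (Function.update (b y) i w) l hx' hl
        rw [hq', hax', hq', hax', hbu y i w hik, Function.update_of_ne (Ne.symm hik), alJ y i w hiJ]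
        refine strip_family hX (hS k) (hS l) hC (x0 k) (x0 l) h4 g4 ?_ (y k)
        rw [h1, h2, g1, g2, hC0]
        exact h.conn (b y) hx l hlJ i hiJ w hxw
  · rw [hp', hb, Function.update_eq_self]
    exact (h.axis x0 (fun _ _ => rfl) k hk).2

end

end LatF
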