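import Pool.Agent.Lib.MP_32d917_al.FDefs
import Pool.Agent.Lib.MP_32d917_al.F.GJS

/-!
# labelled products exist

Induction over `J` with `gj_step`, starting with `J = ∅`, `p = fun _ => p0`, `al` anything (for instance `fun x i y => al i (x i) y`), `q = fun _ => q`, `ax = fun _ => al`; for `J = univ` a `GJ` is a `GLab` (dir gives mv, ty, o).
-/

set_option autoImplicit false

namespace LatF

open LatIso LatN

section

variable {ι P A : Type} {X : FD ι P A}

theorem glab_exists [Fintype ι] [DecidableEq ι] (hX : Valid0 X) (hp : ∀ a k, X.pm a k = k)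
    {V : ι → Type} {S : ∀ i, SimpleGraph (V i)} (hS : ∀ i, (S i).IsTree) (x0 : ∀ i, V i) (p0 : P)
    (q : ∀ i, V i → P) (al : ∀ i, V i → V i → A) (hq : ∀ i, FH X i (S i) (q i) (al i))
    (h0 : ∀ i, q i (x0 i) = p0) : ∃ L : GLab X S, L.p x0 = p0 := by
  have key : ∀ J : Finset ι, ∃ p' al' q' ax', GJ X S x0 J p' al' q' ax' ∧ p' x0 = p0 := by
    intro J
    induction J using Finset.induction_on with
    | empty =>
      refine ⟨fun _ => p0, fun x i y => al i (x i) y, fun _ k => q k, fun _ k => al k, ?_, rfl⟩
      constructor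
      · intro x _ i hi
        exact absurd hi (Finset.notMem_empty i)
      · intro x _ i hi
        exact absurd hi (Finset.notMem_empty i)
      · intro x _ i hi
        exact absurd hi (Finset.notMem_empty i)
      · intro x _ i hi
        exact absurd hi (Finset.notMem_empty i)
      · intro x _ i hi
        exact absurd hi (Finset.notMem_empty i)
      · intro x _ i hi
        exact absurd hi (Finset.notMem_empty i)
      · intro x _ k _
        exact ⟨hq k, h0 k⟩
      · intro x _ k _ i hi
        exact absurd hi (Finset.notMem_empty i)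
    | insert k J hk ih =>
      obtain ⟨p', al', q', ax', h1, h2⟩ := ih
      obtain ⟨p2, al2, q2, ax2, h3, h4⟩ := gj_step hX hp hS h1 k hk
      exact ⟨p2, al2, q2, ax2, h3, h4.trans h2⟩
  obtain ⟨p', al', q', ax', h, hp0⟩ := key Finset.univ
  have hv : ∀ x : ∀ i, V i, ∀ i, i ∉ (Finset.univ : Finset ι) → x i = x0 i :=
    fun x i hi => absurd (Finset.mem_univ i) hi
  exact ⟨{
    p := p'
    al := al'
    dir := fun x i y hy => h.dir x (hv x) i (Finset.mem_univ i) y hy
    t := fun x i y hy => h.t x (hv x) i (Finset.mem_univ i) y hy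
    inv := fun x i y hy => h.inv x (hv x) i (Finset.mem_univ i) y hy
    inj := fun x i y z hy hz => h.inj x (hv x) i (Finset.mem_univ i) y z hy hz
    sur := fun x i a ha => h.sur x (hv x) i (Finset.mem_univ i) a ha
    sq := fun x i y j z hij hy hz =>
      h.sq x (hv x) i (Finset.mem_univ i) j (Finset.mem_univ j) y z hij hy hz }, hp0⟩

end

end LatF
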