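import Pool.Agent.Lib.MP_32d917_al.FDefs
import Pool.Agent.Lib.MP_32d917_al.F.FVAL

/-!
# frames of a labelled product

`F := {f : (∀ i, V i) × A // ¬ mv f.2 ∧ o f.2 = L.p f.1}`, `pt (x, s) = x`, `lam _ k = k`, `p (x, s) = t s`. act: for `(x, s)` and `a` with `o a = t s` let `c = ml s a` (origin `p x`). If `a` is stationary: `(x, c)`. If `a` is moving: `L.sur x (ty a) c` (`ty c = ty a` by `mly`, `pm = id`) gives
`y` and a stationary `s'` with `c = mr (al x i y) s'`; the result is `(update x i y, s')`; `y` is unique (inj: the class) and `s'` is unique (`mr a s = mr a s'` implies `s = s'`, by `val_imr`/`val_mli` type cancellation). It is convenient to describe `act` by its defining property and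
to prove that property determines it. For `o a ≠ p f` put `act f a = f`.
Axioms. act_p: `t c = t a`. act_lam: `pm = id`. act_e: `ml s (e _) = s` (`mrs`, `val_mre`). act_i (moving): from `ml s a = mr (al x y) s'` get `ml s' (i a) = mr (al y x) s` (apply `i`, `val_iml`, `val_imr`, multiply by `s'` on the left and `s` on the right, `mlr`, `L.inv`). act_ml: `ml (ml s s₁) a = ml s (ml s₁ a)`.
st, mo: clear (`Stp`). onto: `(x, e (p x))`. sur: same point: `a = ml (i s) s'`; adjacent point: `a = ml (i s) (mr (al x i y) s')`. inj: cancellation; a stationary and a moving arrow lead to different points.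
Squares: let `f = (x, s)`, `a`, `b`, `c`, `d` with `SqT`, `i = ty a`, `j = ty c`. Write `ml s a = mr (al x i y) s₁`, `ml s₁ b = mr (al (update x i y) j z) s₂`, `ml s c = mr (al x j z') s₃`, `ml s₃ d = mr (al (update x j z') i y') s₄`. `L.sq` for `y`, `z`: `sq (al x i y) (al _ j z) (al x j z) (al _ i y)`. Multiply it: by `sqm` with
`s₁`, `val_sqm'` with `s₃`, `val_sqn` with `s₂`, `sql` with `i s`: get `sq a b c (..)` in case `z' = z`, `y' = y`, `s₄ = s₂`: this is `sq_of` (the frames at the end agree so `y = y'`, `z = z'`, `s₂ = s₄`). act_sq: given `sq a b c d`: let `c₁ = ml (i s) (mr (al x j z) s₃')`...: compare with the square just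
constructed from `L.sq`: it has the form `sq a b c₂ d₂` with `c₂` leading to `update x j z`; by `squ` `c = mr c₂ σ`, `d = ml (i σ) d₂`; so `act (act f c) d = act (act f c₂) d₂ = act (act f a) b`.
-/

set_option autoImplicit false

namespace LatF

open LatIso LatN

section

variable {ι P A : Type} {X : FD ι P A}

section aux

variable [DecidableEq ι] {V : ι → Type} {S : ∀ i, SimpleGraph (V i)}

/-- the frames -/
private abbrev GLF_F (L : GLab X S) : Type :=
  {f : (∀ i, V i) × A // ¬ X.mv f.2 ∧ X.o f.2 = L.p f.1}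

/-- `a` leads from `f` to `f'` -/
private def GLF_R (L : GLab X S) (f : GLF_F L) (a : A) (f' : GLF_F L) : Prop :=
  (f'.1.1 = f.1.1 ∧ a = X.ml (X.i f.1.2) f'.1.2) ∨
  ∃ i y, (S i).Adj (f.1.1 i) y ∧ f'.1.1 = Function.update f.1.1 i y ∧
    a = X.ml (X.i f.1.2) (X.mr (L.al f.1.1 i y) f'.1.2)

private theorem GLF_lc (h : Valid0 X) {L : GLab X S} (f : GLF_F L) {b : A}
    (hb : X.o b = L.p f.1.1) : X.lc (X.i f.1.2) b :=
  ⟨fun hm => f.2.1 ((h.mi _).1 hm), by rw [h.ti, f.2.2, hb]⟩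

private theorem GLF_rc {L : GLab X S} (f f' : GLF_F L) {i : ι} {y : V i}
    (ha : (S i).Adj (f.1.1 i) y) (hx : f'.1.1 = Function.update f.1.1 i y) :
    X.rc (L.al f.1.1 i y) f'.1.2 :=
  ⟨f'.2.1, by rw [f'.2.2, hx, L.t _ _ _ ha]⟩

private theorem GLF_o (h : Valid0 X) {L : GLab X S} {f f' : GLF_F L} {a : A}
    (hR : GLF_R L f a f') : X.o a = X.t f.1.2 := by
  rcases hR with ⟨hx, rfl⟩ | ⟨i, y, ha, hx, rfl⟩
  · rw [h.mlo _ _ (GLF_lc h f (by rw [f'.2.2, hx])), h.oi]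
  · rw [h.mlo _ _ (GLF_lc h f (by
      rw [val_mro h (GLF_rc f f' ha hx)]
      exact (L.dir _ _ _ ha).1)), h.oi]

private theorem GLF_t (h : Valid0 X) {L : GLab X S} {f f' : GLF_F L} {a : A}
    (hR : GLF_R L f a f') : X.t a = X.t f'.1.2 := by
  rcases hR with ⟨hx, rfl⟩ | ⟨i, y, ha, hx, rfl⟩
  · rw [h.mlt _ _ (GLF_lc h f (by rw [f'.2.2, hx]))]
  · have hrc := GLF_rc f f' ha hx
    rw [h.mlt _ _ (GLF_lc h f (by
      rw [val_mro h hrc]
      exact (L.dir _ _ _ ha).1)), val_mrt h hrc]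

/-- stationary arrows -/
private theorem GLF_st (h : Valid0 X) {L : GLab X S} {f f' : GLF_F L} {a : A}
    (hR : GLF_R L f a f') (hm : ¬ X.mv a) :
    f'.1.1 = f.1.1 ∧ a = X.ml (X.i f.1.2) f'.1.2 := by
  rcases hR with hR | ⟨i, y, ha, hx, rfl⟩
  · exact hR
  · have hrc := GLF_rc f f' ha hx
    exfalso
    apply hm
    rw [h.mlm _ _ (GLF_lc h f (by
      rw [val_mro h hrc]
      exact (L.dir _ _ _ ha).1)), val_mrm h hrc]
    exact (L.dir _ _ _ ha).2.1

/-- moving arrows -/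
private theorem GLF_mv (h : Valid0 X) (hp : ∀ a k, X.pm a k = k) {L : GLab X S} {f f' : GLF_F L}
    {a : A} (hR : GLF_R L f a f') (hm : X.mv a) :
    ∃ y, (S (X.ty a)).Adj (f.1.1 (X.ty a)) y ∧ f'.1.1 = Function.update f.1.1 (X.ty a) y ∧
      a = X.ml (X.i f.1.2) (X.mr (L.al f.1.1 (X.ty a) y) f'.1.2) := by
  rcases hR with ⟨hx, he⟩ | ⟨i, y, ha, hx, he⟩
  · exfalso
    rw [he, h.mlm _ _ (GLF_lc h f (by rw [f'.2.2, hx]))] at hm
    exact f'.2.1 hm
  · have hrc := GLF_rc f f' ha hx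
    obtain ⟨d1, d2, d3⟩ := L.dir _ _ _ ha
    have hty : X.ty a = i := by
      have h1 := h.mly (X.i f.1.2) (X.mr (L.al f.1.1 i y) f'.1.2)
        (GLF_lc h f (by rw [val_mro h hrc, d1])) ((val_mrm h hrc).2 d2)
      rw [hp, val_mry h hrc d2, d3] at h1
      rw [he]
      exact h1
    obtain rfl := hty
    exact ⟨y, ha, hx, he⟩

private theorem GLF_mv' (h : Valid0 X) (hp : ∀ a k, X.pm a k = k) {L : GLab X S}
    {f f' : GLF_F L} {a : A} (hR : GLF_R L f a f') (hm : X.mv a) {i : ι} (hi : X.ty a = i) :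
    ∃ y, (S i).Adj (f.1.1 i) y ∧ f'.1.1 = Function.update f.1.1 i y ∧
      a = X.ml (X.i f.1.2) (X.mr (L.al f.1.1 i y) f'.1.2) := by
  subst hi
  exact GLF_mv h hp hR hm

private theorem GLF_ex (h : Valid0 X) (hp : ∀ a k, X.pm a k = k) {L : GLab X S} (f : GLF_F L)
    {a : A} (ha : X.o a = X.t f.1.2) : ∃ f', GLF_R L f a f' := by
  have hlc : X.lc f.1.2 a := ⟨f.2.1, ha.symm⟩
  have ho : X.o (X.ml f.1.2 a) = L.p f.1.1 := by rw [h.mlo _ _ hlc, f.2.2]
  by_cases hm : X.mv a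
  · have hty : X.ty (X.ml f.1.2 a) = X.ty a := by
      have h1 := h.mly _ _ hlc hm
      rwa [hp] at h1
    obtain ⟨y, hy, s', hrc, hc⟩ := L.sur f.1.1 (X.ty a) (X.ml f.1.2 a)
      ⟨ho, (h.mlm _ _ hlc).2 hm, hty⟩
    refine ⟨⟨(Function.update f.1.1 (X.ty a) y, s'), hrc.1, ?_⟩, Or.inr ⟨X.ty a, y, hy, rfl, ?_⟩⟩
    · show X.o s' = L.p (Function.update f.1.1 (X.ty a) y)
      rw [hrc.2, L.t _ _ _ hy]
    · show a = X.ml (X.i f.1.2) (X.mr (L.al f.1.1 (X.ty a) y) s')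
      rw [← hc, val_mli h hlc]
  · refine ⟨⟨(f.1.1, X.ml f.1.2 a), fun hmm => hm ((h.mlm _ _ hlc).1 hmm), ho⟩,
      Or.inl ⟨rfl, ?_⟩⟩
    show a = X.ml (X.i f.1.2) (X.ml f.1.2 a)
    rw [val_mli h hlc]

/-- cancellation on the left -/
private theorem GLF_cancl (h : Valid0 X) {s b b' : A} (hb : X.lc s b) (hb' : X.lc s b')
    (he : X.ml s b = X.ml s b') : b = b' := by
  rw [← val_mli h hb, he, val_mli h hb']

/-- cancellation on the right -/
private theorem GLF_cancr (h : Valid0 X) {a s s' : A} (hs : X.rc a s) (hs' : X.rc a s')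
    (he : X.mr a s = X.mr a s') : s = s' := by
  have ht : X.t s = X.t s' := by rw [← val_mrt h hs, ← val_mrt h hs', he]
  have h1 : X.rc s' (X.i s) := ⟨fun hm => hs.1 ((h.mi s).1 hm), by rw [h.oi, ht]⟩
  have h1' : X.rc s (X.i s) := ⟨fun hm => hs.1 ((h.mi s).1 hm), h.oi s⟩
  have hlc : X.lc s' (X.i s) := ⟨hs'.1, by rw [h.oi, ht]⟩
  have h2 : X.mr a (X.ml s' (X.i s)) = a := by
    rw [← val_mra h hs' h1, ← he, val_mri h hs]
  have h3 : X.rc a (X.ml s' (X.i s)) :=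
    ⟨fun hm => hs.1 ((h.mi s).1 ((h.mlm _ _ hlc).1 hm)), by rw [h.mlo _ _ hlc, hs'.2]⟩
  have h4 := val_mrf h h3 h2
  have h5 := val_mri h h1
  rw [h.ii, h.mrs _ _ hs'.1 h1, h4] at h5
  have h6 : X.rc (X.e (X.t a)) s := ⟨hs.1, by rw [h.te, hs.2]⟩
  rw [h.mrs _ _ (h.me _) h6, ← hs.2, h.mle] at h5
  exact h5

/-- the end is determined by the arrow -/
private theorem GLF_uniq (h : Valid0 X) (hp : ∀ a k, X.pm a k = k) {L : GLab X S}
    {f f' f'' : GLF_F L} {a : A} (hR : GLF_R L f a f') (hR' : GLF_R L f a f'') : f' = f'' := by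
  by_cases hm : X.mv a
  · obtain ⟨y, ha, hx, he⟩ := GLF_mv h hp hR hm
    obtain ⟨y', ha', hx', he'⟩ := GLF_mv h hp hR' hm
    have hrc := GLF_rc f f' ha hx
    have hrc' := GLF_rc f f'' ha' hx'
    have h1 : X.mr (L.al f.1.1 (X.ty a) y) f'.1.2 = X.mr (L.al f.1.1 (X.ty a) y') f''.1.2 := by
      refine GLF_cancl h (GLF_lc h f ?_) (GLF_lc h f ?_) (he.symm.trans he')
      · rw [val_mro h hrc]
        exact (L.dir _ _ _ ha).1
      · rw [val_mro h hrc']
        exact (L.dir _ _ _ ha').1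
    have hy : y = y' := by
      refine L.inj _ _ _ _ ha ha' ?_
      obtain ⟨-, e2, e3⟩ := val_eqv h
      refine e3 _ (X.mr (L.al f.1.1 (X.ty a) y) f'.1.2) _ ⟨_, hrc, rfl⟩ (e2 _ _ ?_)
      rw [h1]
      exact ⟨_, hrc', rfl⟩
    subst hy
    have hs := GLF_cancr h hrc hrc' h1
    exact Subtype.ext (Prod.ext (hx.trans hx'.symm) hs)
  · obtain ⟨hx, he⟩ := GLF_st h hR hm
    obtain ⟨hx', he'⟩ := GLF_st h hR' hm
    have hs : f'.1.2 = f''.1.2 := by
      refine GLF_cancl h (GLF_lc h f ?_) (GLF_lc h f ?_) (he.symm.trans he')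
      · rw [f'.2.2, hx]
      · rw [f''.2.2, hx']
    exact Subtype.ext (Prod.ext (hx.trans hx'.symm) hs)

private theorem GLF_upd {x : ∀ i, V i} {i i' : ι} {y : V i} {y' : V i'} (ha : (S i).Adj (x i) y)
    (he : Function.update x i y = Function.update x i' y') : i = i' := by
  by_contra hne
  have h1 := congrFun he i
  rw [Function.update_self, Function.update_of_ne hne] at h1
  rw [h1] at ha
  exact (S i).loopless.irrefl _ ha

private theorem GLF_updne {x : ∀ i, V i} {i : ι} {y : V i} (ha : (S i).Adj (x i) y) :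
    Function.update x i y ≠ x := by
  intro he
  have h1 := congrFun he i
  rw [Function.update_self] at h1
  rw [h1] at ha
  exact (S i).loopless.irrefl _ ha

/-- the arrow is determined by its ends -/
private theorem GLF_inj {L : GLab X S} {f f' : GLF_F L} {a b : A} (hR : GLF_R L f a f')
    (hR' : GLF_R L f b f') : a = b := by
  rcases hR with ⟨hx, he⟩ | ⟨i, y, ha, hx, he⟩
  · rcases hR' with ⟨hx', he'⟩ | ⟨i', y', ha', hx', he'⟩
    · rw [he, he']
    · exact absurd (hx'.symm.trans hx) (GLF_updne ha')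
  · rcases hR' with ⟨hx', he'⟩ | ⟨i', y', ha', hx', he'⟩
    · exact absurd (hx.symm.trans hx') (GLF_updne ha)
    · have h1 := hx.symm.trans hx'
      obtain rfl := GLF_upd ha h1
      have h2 := congrFun h1 i
      rw [Function.update_self, Function.update_self] at h2
      subst h2
      rw [he, he']

private theorem GLF_unit (h : Valid0 X) {L : GLab X S} (f : GLF_F L) :
    GLF_R L f (X.e (X.t f.1.2)) f := by
  left
  refine ⟨rfl, ?_⟩
  have h1 := h.mli (X.i f.1.2) (fun hm => f.2.1 ((h.mi _).1 hm))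
  rw [h.ii, h.oi] at h1
  exact h1.symm

private theorem GLF_symm (h : Valid0 X) {L : GLab X S} {f f' : GLF_F L} {a : A}
    (hR : GLF_R L f a f') : GLF_R L f' (X.i a) f := by
  rcases hR with ⟨hx, rfl⟩ | ⟨i, y, ha, hx, rfl⟩
  · left
    refine ⟨hx.symm, ?_⟩
    rw [val_iml h (GLF_lc h f (by rw [f'.2.2, hx])), h.ii]
    exact h.mrs _ _ (fun hm => f'.2.1 ((h.mi _).1 hm))
      ⟨f.2.1, by rw [h.ti, f.2.2, f'.2.2, hx]⟩
  · right
    have hrc := GLF_rc f f' ha hx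
    have d1 := (L.dir _ _ _ ha).1
    refine ⟨i, f.1.1 i, ?_, ?_, ?_⟩
    · rw [hx, Function.update_self]
      exact ha.symm
    · rw [hx, Function.update_idem, Function.update_eq_self]
    · have hinv : L.al f'.1.1 i (f.1.1 i) = X.i (L.al f.1.1 i y) := by
        rw [hx]
        exact L.inv _ _ _ ha
      rw [hinv, val_iml h (GLF_lc h f (by rw [val_mro h hrc, d1])), h.ii, val_imr h hrc]
      refine (h.mlr _ _ _ (fval_lc h hrc) ⟨f.2.1, ?_⟩).symm
      rw [h.ti, d1, f.2.2]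

private theorem GLF_comp (h : Valid0 X) {L : GLab X S} {f f₁ f₂ : GLF_F L} {σ a : A}
    (hR : GLF_R L f σ f₁) (hm : ¬ X.mv σ) (hR' : GLF_R L f₁ a f₂) :
    GLF_R L f (X.ml σ a) f₂ := by
  obtain ⟨hx, he⟩ := GLF_st h hR hm
  have key : ∀ b, X.o b = L.p f₁.1.1 →
      X.ml σ (X.ml (X.i f₁.1.2) b) = X.ml (X.i f.1.2) b := by
    intro b hb
    have h1 : X.lc (X.i f.1.2) f₁.1.2 := GLF_lc h f (by rw [f₁.2.2, hx])
    have h2 : X.lc (X.i f₁.1.2) b := GLF_lc h f₁ hb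
    have h3 : X.lc f₁.1.2 (X.ml (X.i f₁.1.2) b) := ⟨f₁.2.1, by rw [h.mlo _ _ h2, h.oi]⟩
    have h4 := val_mli h h2
    rw [h.ii] at h4
    rw [he, ← h.mla _ _ _ h1 h3, h4]
  rcases hR' with ⟨hx', he'⟩ | ⟨i, y, ha, hx', he'⟩
  · left
    refine ⟨hx'.trans hx, ?_⟩
    rw [he', key _ (by rw [f₂.2.2, hx'])]
  · right
    have hrc := GLF_rc f₁ f₂ ha hx'
    have h1 := key (X.mr (L.al f₁.1.1 i y) f₂.1.2) (by
      rw [val_mro h hrc]
      exact (L.dir _ _ _ ha).1)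
    rw [he', h1]
    rw [hx] at ha hx' ⊢
    exact ⟨i, y, ha, hx', rfl⟩

/-- the square of four frames -/
private theorem GLF_sq (h : Valid0 X) {L : GLab X S} {f f₁ f₂ f₃ : GLF_F L} {i j : ι}
    (hij : i ≠ j) {y : V i} {z : V j} (hy : (S i).Adj (f.1.1 i) y) (hz : (S j).Adj (f.1.1 j) z)
    (h1 : f₁.1.1 = Function.update f.1.1 i y) (h3 : f₃.1.1 = Function.update f.1.1 j z)
    (h2 : f₂.1.1 = Function.update f₁.1.1 j z) :
    X.sq (X.ml (X.i f.1.2) (X.mr (L.al f.1.1 i y) f₁.1.2))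
      (X.ml (X.i f₁.1.2) (X.mr (L.al f₁.1.1 j z) f₂.1.2))
      (X.ml (X.i f.1.2) (X.mr (L.al f.1.1 j z) f₃.1.2))
      (X.ml (X.i f₃.1.2) (X.mr (L.al f₃.1.1 i y) f₂.1.2)) := by
  have hz1 : (S j).Adj (f₁.1.1 j) z := by
    rw [h1, Function.update_of_ne hij.symm]
    exact hz
  have hy3 : (S i).Adj (f₃.1.1 i) y := by
    rw [h3, Function.update_of_ne hij]
    exact hy
  have h2' : f₂.1.1 = Function.update f₃.1.1 i y := by
    rw [h2, h1, h3, Function.update_comm hij]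
  have r1 := GLF_rc f f₁ hy h1
  have r3 := GLF_rc f f₃ hz h3
  have r2 := GLF_rc f₁ f₂ hz1 h2
  have r2' := GLF_rc f₃ f₂ hy3 h2'
  have s0 := L.sq f.1.1 i y j z hij hy hz
  rw [← h1, ← h3] at s0
  have s1 := h.sqm _ _ _ _ _ s0 r1
  have s2 := val_sqm' h s1 r3
  have l1 : X.lc (X.i f₁.1.2) (L.al f₁.1.1 j z) := GLF_lc h f₁ (L.dir _ _ _ hz1).1
  have l3 : X.lc (X.i f₃.1.2) (L.al f₃.1.1 i y) := GLF_lc h f₃ (L.dir _ _ _ hy3).1
  have s3 := val_sqn h s2 (s := f₂.1.2) ⟨f₂.2.1, by rw [h.mlt _ _ l1, r2.2]⟩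
  rw [← h.mlr _ _ _ l1 r2, ← h.mlr _ _ _ l3 r2'] at s3
  exact h.sql _ _ _ _ (X.i f.1.2) s3 (GLF_lc h f (by
    rw [val_mro h r1]
    exact (L.dir _ _ _ hy).1))

end aux

/-- frames -/
theorem glab_lf [DecidableEq ι] (hX : Valid0 X) (hp : ∀ a k, X.pm a k = k) {V : ι → Type}
    {S : ∀ i, SimpleGraph (V i)} (L : GLab X S) :
    ∃ (F : Type) (L' : LF X S F), ∀ x, ∃ f, L'.pt f = x ∧ L'.p f = L.p x := by
  classical
  obtain ⟨act, hact⟩ : ∃ act : GLF_F L → A → GLF_F L, ∀ f a, X.o a = X.t f.1.2 →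
      GLF_R L f a (act f a) := by
    refine ⟨fun f a => if h : X.o a = X.t f.1.2 then (GLF_ex hX hp f h).choose else f,
      fun f a h => ?_⟩
    dsimp only
    rw [dif_pos h]
    exact (GLF_ex hX hp f h).choose_spec
  have huniq : ∀ {f f' : GLF_F L} {a : A}, GLF_R L f a f' → act f a = f' := fun {f f' a} hR =>
    GLF_uniq hX hp (hact f a (GLF_o hX hR)) hR
  have hml : ∀ (f : GLF_F L) (s a : A), X.o s = X.t f.1.2 → X.lc s a →
      act f (X.ml s a) = act (act f s) a := by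
    intro f s a hs hlc
    have h1 := hact f s hs
    have h2 := GLF_t hX h1
    exact huniq (GLF_comp hX h1 hlc.1 (hact (act f s) a (by rw [← h2, hlc.2])))
  have hi : ∀ (f : GLF_F L) (a : A), X.o a = X.t f.1.2 → act (act f a) (X.i a) = f :=
    fun f a ha => huniq (GLF_symm hX (hact f a ha))
  have hmr : ∀ (f : GLF_F L) (c σ : A), X.o c = X.t f.1.2 → X.rc c σ →
      act f (X.mr c σ) = act (act f c) σ := by
    intro f c σ hc hσ
    have h1 := hact f c hc
    have h2 := GLF_t hX h1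
    have hσo : X.o σ = X.t (act f c).1.2 := by rw [hσ.2, h2]
    have h3 := hact (act f c) σ hσo
    have h4 := GLF_t hX h3
    have h5 : X.o (X.i σ) = X.t (act (act f c) σ).1.2 := by rw [hX.oi, h4]
    have h6 := hml (act (act f c) σ) (X.i σ) (X.i c) h5 (fval_lc hX hσ)
    rw [hi _ _ hσo, hi _ _ hc] at h6
    have h7 := hi (act (act f c) σ) (X.ml (X.i σ) (X.i c))
      (by rw [hX.mlo _ _ (fval_lc hX hσ), h5])
    rw [h6] at h7
    exact h7
  refine ⟨GLF_F L,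
    { pt := fun f => f.1.1
      lam := fun _ k => k
      p := fun f => X.t f.1.2
      act := act
      bij := fun _ => Function.bijective_id
      onto := fun x => ⟨⟨(x, X.e (L.p x)), hX.me _, hX.oe _⟩, rfl⟩
      act_p := fun f a ha => (GLF_t hX (hact f a ha)).symm
      act_lam := fun f a _ k => hp a k
      act_e := fun f => huniq (GLF_unit hX f)
      act_i := hi
      act_ml := hml
      act_sq := ?_
      sq_of := ?_
      st := fun f a ha hm => (GLF_st hX (hact f a ha) hm).1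
      mo := ?_
      sur := ?_
      inj := ?_ }, fun x => ⟨⟨(x, X.e (L.p x)), hX.me _, hX.oe _⟩, rfl, hX.te _⟩⟩
  · -- act_sq
    intro f a b c d ha hsq
    have hT := hX.sqT _ _ _ _ hsq
    have hty : X.ty b = X.ty c := by rw [hT.tyb, hp]
    have R1 := hact f a ha
    have hb : X.o b = X.t (act f a).1.2 := by rw [← GLF_t hX R1, hT.tab]
    have R2 := hact (act f a) b hb
    obtain ⟨y, hy, hx1, he1⟩ := GLF_mv hX hp R1 hT.ma
    obtain ⟨z, hz, hx2, he2⟩ := GLF_mv hX hp R2 hT.mb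
    obtain ⟨f₁, hf₁⟩ : ∃ f₁, f₁ = act f a := ⟨_, rfl⟩
    obtain ⟨f₂, hf₂⟩ : ∃ f₂, f₂ = act (act f a) b := ⟨_, rfl⟩
    rw [← hf₁] at hx1 he1 hz hx2 he2 hb R1 R2
    rw [← hf₁] at hf₂
    rw [← hf₁, ← hf₂]
    rw [← hf₂] at hx2 he2 R2
    have hij : X.ty a ≠ X.ty b := by
      rw [hty]
      exact hT.ne
    have hz0 : (S (X.ty b)).Adj (f.1.1 (X.ty b)) z := by
      rw [hx1, Function.update_of_ne hij.symm] at hz
      exact hz
    obtain ⟨f₃, hf₃⟩ : ∃ f₃ : GLF_F L, f₃ = ⟨(Function.update f.1.1 (X.ty b) z,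
      X.e (L.p (Function.update f.1.1 (X.ty b) z))), hX.me _, hX.oe _⟩ := ⟨_, rfl⟩
    have hx3 : f₃.1.1 = Function.update f.1.1 (X.ty b) z := by rw [hf₃]
    have hsq2 := GLF_sq hX hij hy hz0 hx1 hx3 hx2
    rw [← he1, ← he2] at hsq2
    have hy3 : (S (X.ty a)).Adj (f₃.1.1 (X.ty a)) y := by
      rw [hx3, Function.update_of_ne hij]
      exact hy
    have hx2' : f₂.1.1 = Function.update f₃.1.1 (X.ty a) y := by
      rw [hx2, hx1, hx3, Function.update_comm hij]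
    have Rc : GLF_R L f (X.ml (X.i f.1.2) (X.mr (L.al f.1.1 (X.ty b) z) f₃.1.2)) f₃ :=
      Or.inr ⟨_, _, hz0, hx3, rfl⟩
    have Rd : GLF_R L f₃ (X.ml (X.i f₃.1.2) (X.mr (L.al f₃.1.1 (X.ty a) y) f₂.1.2)) f₂ :=
      Or.inr ⟨_, _, hy3, hx2', rfl⟩
    obtain ⟨c₂, hc₂⟩ : ∃ c₂, c₂ = X.ml (X.i f.1.2) (X.mr (L.al f.1.1 (X.ty b) z) f₃.1.2) :=
      ⟨_, rfl⟩
    obtain ⟨d₂, hd₂⟩ : ∃ d₂, d₂ = X.ml (X.i f₃.1.2) (X.mr (L.al f₃.1.1 (X.ty a) y) f₂.1.2) :=
      ⟨_, rfl⟩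
    rw [← hc₂] at Rc
    rw [← hd₂] at Rd
    rw [← hc₂, ← hd₂] at hsq2
    obtain ⟨σ, hσ, hcσ, hdσ⟩ := hX.squ _ _ _ _ _ _ hsq2 hsq
    have hT2 := hX.sqT _ _ _ _ hsq2
    have hco : X.o c₂ = X.t f.1.2 := GLF_o hX Rc
    have e1 : act f c₂ = f₃ := huniq Rc
    have e2 : act f c = act f₃ σ := by rw [hcσ, hmr f c₂ σ hco hσ, e1]
    have hσo : X.o σ = X.t f₃.1.2 := by rw [hσ.2, GLF_t hX Rc]
    have e3 := hi f₃ σ hσo
    have hσt : X.t σ = X.t (act f₃ σ).1.2 := GLF_t hX (hact f₃ σ hσo)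
    have hlc : X.lc (X.i σ) d₂ := ⟨fun hm => hσ.1 ((hX.mi _).1 hm), by
      rw [hX.ti, hσ.2, hT2.tcd]⟩
    rw [e2, hdσ, hml (act f₃ σ) (X.i σ) d₂ (by rw [hX.oi, hσt]) hlc, e3]
    exact (huniq Rd).symm
  · -- sq_of
    intro f a b c d ha hT he
    have hty : X.ty b = X.ty c := by rw [hT.tyb, hp]
    have htd : X.ty d = X.ty a := by rw [hT.tyd, hp]
    have R1 := hact f a ha
    have hb : X.o b = X.t (act f a).1.2 := by rw [← GLF_t hX R1, hT.tab]
    have R2 := hact (act f a) b hb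
    have hc : X.o c = X.t f.1.2 := by rw [← hT.oac, ha]
    have R3 := hact f c hc
    have hd : X.o d = X.t (act f c).1.2 := by rw [← GLF_t hX R3, hT.tcd]
    have R4 := hact (act f c) d hd
    rw [← he] at R4
    obtain ⟨y, hy, hx1, he1⟩ := GLF_mv hX hp R1 hT.ma
    obtain ⟨z, hz, hx2, he2⟩ := GLF_mv' hX hp R2 hT.mb hty
    obtain ⟨z', hz', hx3, he3⟩ := GLF_mv hX hp R3 hT.mc
    obtain ⟨y', hy', hx4, he4⟩ := GLF_mv' hX hp R4 hT.md htd
    obtain ⟨f₁, hf₁⟩ : ∃ f₁, f₁ = act f a := ⟨_, rfl⟩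
    obtain ⟨f₂, hf₂⟩ : ∃ f₂, f₂ = act (act f a) b := ⟨_, rfl⟩
    obtain ⟨f₃, hf₃⟩ : ∃ f₃, f₃ = act f c := ⟨_, rfl⟩
    rw [← hf₂, ← hf₁] at hx2 he2
    rw [← hf₁] at hx1 he1 hz
    rw [← hf₃] at hx3 he3 hy'
    rw [← hf₂, ← hf₃] at hx4 he4
    have hij := hT.ne
    have hzz : z = z' := by
      have h1 := congrFun hx2 (X.ty c)
      rw [Function.update_self, hx4, Function.update_of_ne hij.symm, hx3,
        Function.update_self] at h1
      exact h1.symm
    have hyy : y = y' := by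
      have h1 := congrFun hx4 (X.ty a)
      rw [Function.update_self, hx2, Function.update_of_ne hij, hx1, Function.update_self] at h1
      exact h1
    have hsq := GLF_sq hX hij hy hz' hx1 hx3 (by rw [hx2, hzz])
    rw [← he1, ← he3] at hsq
    rw [hzz] at he2
    rw [← hyy] at he4
    rw [← he2, ← he4] at hsq
    exact hsq
  · -- mo
    intro f a ha hm
    obtain ⟨y, hy, hx, -⟩ := GLF_mv hX hp (hact f a ha) hm
    refine ⟨?_, fun j hj => ?_⟩
    · show (S (X.ty a)).Adj (f.1.1 (X.ty a)) ((act f a).1.1 (X.ty a))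
      rw [hx, Function.update_self]
      exact hy
    · show (act f a).1.1 j = f.1.1 j
      rw [hx, Function.update_of_ne hj]
  · -- sur
    intro f f' hff
    rcases hff with hx | ⟨i, hadj, hx⟩
    · have hR : GLF_R L f (X.ml (X.i f.1.2) f'.1.2) f' := Or.inl ⟨hx, rfl⟩
      exact ⟨_, GLF_o hX hR, huniq hR⟩
    · have hx' : f'.1.1 = Function.update f.1.1 i (f'.1.1 i) := by
        funext j
        by_cases hj : j = i
        · subst hj
          rw [Function.update_self]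
        · rw [Function.update_of_ne hj]
          exact hx j hj
      have hR : GLF_R L f (X.ml (X.i f.1.2) (X.mr (L.al f.1.1 i (f'.1.1 i)) f'.1.2)) f' :=
        Or.inr ⟨i, f'.1.1 i, hadj, hx', rfl⟩
      exact ⟨_, GLF_o hX hR, huniq hR⟩
  · -- inj
    intro f a b ha hb he
    have h1 := hact f a ha
    rw [he] at h1
    exact GLF_inj h1 (hact f b hb)

end

end LatF
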