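import Pool.Agent.Lib.MP_32d917_al.FDefs
import Pool.Agent.Lib.MP_32d917_al.F.FVAL

/-!
# the data with trivial label changes

For valid `X` and finite `ι` all maps `X.pm a` are bijective (injective by `pi`), so the `dif` in `unf` is always positive; write `λ_a` for the second component `a.2` and `π_a` for the permutation `pm a`: `t (a, λ) = (t a, λ * π_a⁻¹)`, `i (a, λ) = (i a, λ * π_a⁻¹)`. First lemma: `unf_t`, `unf_i`, and
`(λ * π_a⁻¹) (pm a k) = λ k`. Then all the axioms of `Valid0` follow from those of `X`; second components: `pi`, `mlp`, `sqp`. E.g. squ: from the `squ` of `X` get `s`; take `(s, (t c).2)`. `mr (a, λ) (s, μ) = (mr a s, λ)` if composable. unf_lf: `p f = (L.p f).1`, `lam f k = L.lam f ((L.p f).2 k)`,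
`act f a = L.act f (a, (L.p f).2)`, same `pt`. sq_of: the ends of the two paths are equal frames, so their labels agree: this gives `tbd` in `SqT` for `unf X`. sur: an arrow `(a, μ)` starting at `f` has `μ = (L.p f).2`.
-/

set_option autoImplicit false

namespace LatF

open LatIso LatN

section

variable {ι P A : Type} {X : FD ι P A}

/-- the permutation of the labels -/
def unfP (hX : Valid0 X) (a : A) : Equiv.Perm ι where
  toFun := X.pm a
  invFun := X.pm (X.i a)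
  left_inv := hX.pi a
  right_inv k := by
    have h := hX.pi (X.i a) k
    rw [hX.ii] at h
    exact h

theorem unfP_app (hX : Valid0 X) (a : A) (k : ι) : unfP hX a k = X.pm a k := rfl

theorem unfP_i (hX : Valid0 X) (a : A) : unfP hX (X.i a) = (unfP hX a)⁻¹ := by
  apply Equiv.ext
  intro k
  rfl

theorem unfP_e (hX : Valid0 X) (p : P) : unfP hX (X.e p) = 1 := by
  apply Equiv.ext
  intro k
  exact hX.pe p k

theorem unfP_ml (hX : Valid0 X) {s a : A} (h : X.lc s a) :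
    unfP hX (X.ml s a) = unfP hX a * unfP hX s := by
  apply Equiv.ext
  intro k
  exact hX.mlp s a k h

theorem unfP_mr (hX : Valid0 X) {a s : A} (h : X.rc a s) :
    unfP hX (X.mr a s) = unfP hX s * unfP hX a := by
  apply Equiv.ext
  intro k
  exact val_mrp hX h k

theorem unfP_sq (hX : Valid0 X) {a b c d : A} (h : X.sq a b c d) :
    unfP hX b * unfP hX a = unfP hX d * unfP hX c := by
  apply Equiv.ext
  intro k
  exact hX.sqp a b c d h k

theorem unfP_bij (hX : Valid0 X) (a : A) : Function.Bijective (X.pm a) := (unfP hX a).bijective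

theorem unf_t (hX : Valid0 X) (a : A × Equiv.Perm ι) :
    (unf X).t a = (X.t a.1, a.2 * (unfP hX a.1)⁻¹) := by
  unfold unf
  simp only
  rw [dif_pos (unfP_bij hX a.1)]
  congr 3
  exact Equiv.ext fun k => rfl

theorem unf_i (hX : Valid0 X) (a : A × Equiv.Perm ι) :
    (unf X).i a = (X.i a.1, a.2 * (unfP hX a.1)⁻¹) := by
  unfold unf
  simp only
  rw [dif_pos (unfP_bij hX a.1)]
  congr 3
  exact Equiv.ext fun k => rfl

theorem unf_o (a : A × Equiv.Perm ι) : (unf X).o a = (X.o a.1, a.2) := rfl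

theorem unf_ml (s a : A × Equiv.Perm ι) : (unf X).ml s a = (X.ml s.1 a.1, s.2) := rfl

theorem unf_lc (hX : Valid0 X) (s a : A × Equiv.Perm ι) :
    (unf X).lc s a ↔ X.lc s.1 a.1 ∧ a.2 = s.2 * (unfP hX s.1)⁻¹ := by
  constructor
  · rintro ⟨h1, h2⟩
    rw [unf_t hX, unf_o] at h2
    exact ⟨⟨h1, (Prod.ext_iff.1 h2).1⟩, (Prod.ext_iff.1 h2).2.symm⟩
  · rintro ⟨⟨h1, h2⟩, h3⟩
    refine ⟨h1, ?_⟩
    rw [unf_t hX, unf_o, h2, h3]

theorem unf_rc (hX : Valid0 X) (a s : A × Equiv.Perm ι) :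
    (unf X).rc a s ↔ X.rc a.1 s.1 ∧ s.2 = a.2 * (unfP hX a.1)⁻¹ := by
  constructor
  · rintro ⟨h1, h2⟩
    rw [unf_t hX, unf_o] at h2
    exact ⟨⟨h1, (Prod.ext_iff.1 h2).1⟩, (Prod.ext_iff.1 h2).2⟩
  · rintro ⟨⟨h1, h2⟩, h3⟩
    refine ⟨h1, ?_⟩
    rw [unf_t hX, unf_o, h2, h3]

theorem unf_mr (hX : Valid0 X) (a s : A × Equiv.Perm ι) (h : (unf X).rc a s) :
    (unf X).mr a s = (X.mr a.1 s.1, a.2) := by
  obtain ⟨h1, h2⟩ := (unf_rc hX a s).1 h
  have h3 := fval_lc hX h1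
  unfold FD.mr
  rw [unf_i hX s, unf_i hX a, unf_ml, unf_i hX]
  simp only
  rw [unfP_ml hX h3, unfP_i, unfP_i, h2]
  apply Prod.ext
  · rfl
  · simp only
    group

theorem unf_sq (hX : Valid0 X) (a b c d : A × Equiv.Perm ι) :
    (unf X).sq a b c d ↔ X.sq a.1 b.1 c.1 d.1 ∧ c.2 = a.2 ∧ b.2 = a.2 * (unfP hX a.1)⁻¹ ∧
      d.2 = a.2 * (unfP hX c.1)⁻¹ := by
  constructor
  · rintro ⟨h1, h2, h3, h4⟩
    refine ⟨h1, h2.symm, ?_, ?_⟩
    · apply Equiv.ext
      intro k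
      obtain ⟨k', rfl⟩ := (unfP hX a.1).surjective k
      show b.2 (X.pm a.1 k') = a.2 ((unfP hX a.1).symm (unfP hX a.1 k'))
      rw [h3, Equiv.symm_apply_apply]
    · apply Equiv.ext
      intro k
      obtain ⟨k', rfl⟩ := (unfP hX c.1).surjective k
      show d.2 (X.pm c.1 k') = a.2 ((unfP hX c.1).symm (unfP hX c.1 k'))
      rw [h4, Equiv.symm_apply_apply, h2]
  · rintro ⟨h1, h2, h3, h4⟩
    refine ⟨h1, h2.symm, fun k => ?_, fun k => ?_⟩
    · rw [h3]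
      show a.2 ((unfP hX a.1).symm (unfP hX a.1 k)) = a.2 k
      rw [Equiv.symm_apply_apply]
    · rw [h4, h2]
      show a.2 ((unfP hX c.1).symm (unfP hX c.1 k)) = a.2 k
      rw [Equiv.symm_apply_apply]

theorem unf_app (hX : Valid0 X) (μ : Equiv.Perm ι) (a : A) (k : ι) :
    (μ * (unfP hX a)⁻¹) (X.pm a k) = μ k := by
  show μ ((unfP hX a).symm (unfP hX a k)) = μ k
  rw [Equiv.symm_apply_apply]

theorem unf_sqT (hX : Valid0 X) {a b c d : A × Equiv.Perm ι} (h : (unf X).sq a b c d) :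
    SqT (unf X) a b c d := by
  obtain ⟨h1, h2, h3, h4⟩ := (unf_sq hX a b c d).1 h
  have hT := hX.sqT _ _ _ _ h1
  refine ⟨hT.ma, hT.mb, hT.mc, hT.md, ?_, ?_, ?_, ?_, ?_, ?_, ?_⟩
  · rw [unf_o, unf_o, hT.oac, h2]
  · rw [unf_t hX, unf_o, hT.tab, h3]
  · rw [unf_t hX, unf_o, hT.tcd, h4, h2]
  · rw [unf_t hX, unf_t hX, hT.tbd, h3, h4]
    apply Prod.ext
    · rfl
    · show a.2 * (unfP hX a.1)⁻¹ * (unfP hX b.1)⁻¹ = a.2 * (unfP hX c.1)⁻¹ * (unfP hX d.1)⁻¹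
      rw [mul_assoc, mul_assoc, ← mul_inv_rev, ← mul_inv_rev, unfP_sq hX h1]
  · show a.2 (X.ty a.1) ≠ c.2 (X.ty c.1)
    rw [h2]
    exact fun h5 => hT.ne (a.2.injective h5)
  · show b.2 (X.ty b.1) = c.2 (X.ty c.1)
    rw [h3, hT.tyb, unf_app, h2]
  · show d.2 (X.ty d.1) = a.2 (X.ty a.1)
    rw [h4, hT.tyd, unf_app]

theorem unf_valid' (hX : Valid0 X) : Valid0 (unf X) where
  oe p := by
    show (X.o (X.e p.1), p.2) = p
    rw [hX.oe]
  te p := by
    rw [unf_t hX]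
    show (X.t (X.e p.1), p.2 * (unfP hX (X.e p.1))⁻¹) = p
    rw [hX.te, unfP_e, inv_one, mul_one]
  me p := hX.me p.1
  pe p k := rfl
  oi a := by
    rw [unf_i hX, unf_t hX, unf_o, hX.oi]
  ti a := by
    rw [unf_i hX, unf_t hX, unf_o]
    simp only
    rw [hX.ti, unfP_i, inv_inv, inv_mul_cancel_right]
  ii a := by
    rw [unf_i hX, unf_i hX]
    simp only
    rw [hX.ii, unfP_i, inv_inv, inv_mul_cancel_right]
  mi a := by
    rw [unf_i hX]
    exact hX.mi a.1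
  tyi a ha := by
    rw [unf_i hX]
    show (a.2 * (unfP hX a.1)⁻¹) (X.ty (X.i a.1)) = a.2 (X.ty a.1)
    rw [hX.tyi a.1 ha, unf_app]
  pi a k := rfl
  mlo s a h := by
    obtain ⟨h1, h2⟩ := (unf_lc hX s a).1 h
    rw [unf_ml, unf_o, unf_o]
    simp only
    rw [hX.mlo _ _ h1]
  mlt s a h := by
    obtain ⟨h1, h2⟩ := (unf_lc hX s a).1 h
    rw [unf_ml, unf_t hX, unf_t hX]
    simp only
    rw [hX.mlt _ _ h1, unfP_ml hX h1, h2, mul_inv_rev, mul_assoc]
  mlm s a h := hX.mlm _ _ ((unf_lc hX s a).1 h).1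
  mly s a h ha := by
    obtain ⟨h1, h2⟩ := (unf_lc hX s a).1 h
    show s.2 (X.ty (X.ml s.1 a.1)) = a.2 (X.ty a.1)
    rw [h2, ← hX.mly _ _ h1 ha, unf_app]
  mlp s a k h := rfl
  mle a := by
    show (X.ml (X.e (X.o a.1)) a.1, a.2) = a
    rw [hX.mle]
  mla s s' a h h' := by
    obtain ⟨h1, h2⟩ := (unf_lc hX s s').1 h
    obtain ⟨h3, h4⟩ := (unf_lc hX s' a).1 h'
    show (X.ml s.1 (X.ml s'.1 a.1), s.2) = (X.ml (X.ml s.1 s'.1) a.1, s.2)
    rw [hX.mla _ _ _ h1 h3]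
  mli s h := by
    rw [unf_i hX]
    show (X.ml s.1 (X.i s.1), s.2) = (X.e (X.o s.1), s.2)
    rw [hX.mli _ h]
  mlr s a s' h h' := by
    obtain ⟨h1, h2⟩ := (unf_lc hX s a).1 h
    obtain ⟨h3, h4⟩ := (unf_rc hX a s').1 h'
    have h5 : (unf X).rc ((unf X).ml s a) s' := by
      rw [unf_rc hX]
      refine ⟨⟨h3.1, ?_⟩, ?_⟩
      · rw [unf_ml]
        simp only
        rw [hX.mlt _ _ h1, h3.2]
      · rw [unf_ml]
        simp only
        rw [unfP_ml hX h1, h4, h2, mul_inv_rev, mul_assoc]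
    rw [unf_mr hX _ _ h', unf_mr hX _ _ h5, unf_ml, unf_ml]
    simp only
    rw [hX.mlr _ _ _ h1 h3]
  mrs s s' h h' := by
    obtain ⟨h3, h4⟩ := (unf_rc hX s s').1 h'
    rw [unf_mr hX _ _ h', unf_ml, hX.mrs _ _ h h3]
  mlf s a h h' := by
    obtain ⟨h1, h2⟩ := (unf_lc hX s a).1 h
    rw [unf_ml] at h'
    have h3 := (Prod.ext_iff.1 h').1
    have h4 := (Prod.ext_iff.1 h').2
    simp only at h3 h4
    apply Prod.ext
    · exact hX.mlf _ _ h1 h3
    · exact h4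
  sqT a b c d h := unf_sqT hX h
  sqp a b c d h k := rfl
  sqs a b c d h := ⟨hX.sqs _ _ _ _ h.1, h.2.1.symm, h.2.2.2, h.2.2.1⟩
  sqr a b c d h := by
    obtain ⟨h1, h2, h3, h4⟩ := (unf_sq hX a b c d).1 h
    rw [unf_sq hX, unf_i hX, unf_i hX]
    simp only
    refine ⟨hX.sqr _ _ _ _ h1, h3, ?_, ?_⟩
    · rw [unfP_i, inv_inv, inv_mul_cancel_right, h2]
    · rw [h4, mul_assoc, mul_assoc, ← mul_inv_rev, ← mul_inv_rev, unfP_sq hX h1]
  sql a b c d s h h' := by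
    obtain ⟨h1, h2, h3, h4⟩ := (unf_sq hX a b c d).1 h
    obtain ⟨h5, h6⟩ := (unf_lc hX s a).1 h'
    have h7 : X.lc s.1 c.1 := ⟨h5.1, by rw [h5.2, (hX.sqT _ _ _ _ h1).oac]⟩
    rw [unf_sq hX, unf_ml, unf_ml]
    simp only
    refine ⟨hX.sql _ _ _ _ _ h1 h5, trivial, ?_, ?_⟩
    · rw [h3, h6, unfP_ml hX h5, mul_inv_rev, mul_assoc]
    · rw [h4, h6, unfP_ml hX h7, mul_inv_rev, mul_assoc]
  sqm a b c d s h h' := by
    obtain ⟨h1, h2, h3, h4⟩ := (unf_sq hX a b c d).1 h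
    obtain ⟨h5, h6⟩ := (unf_rc hX a s).1 h'
    rw [unf_sq hX, unf_mr hX _ _ h', unf_ml, unf_i hX]
    simp only
    refine ⟨hX.sqm _ _ _ _ _ h1 h5, h2, ?_, h4⟩
    rw [h6, unfP_mr hX h5, mul_inv_rev, mul_assoc]
  sqe a b ha hb h h' := by
    rw [unf_t hX, unf_o] at h
    have h1 := (Prod.ext_iff.1 h).1
    have h2 := (Prod.ext_iff.1 h).2
    simp only at h1 h2
    have h3 : X.ty b.1 ≠ X.pm a.1 (X.ty a.1) := by
      intro h4
      apply h'
      show b.2 (X.ty b.1) = a.2 (X.ty a.1)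
      rw [← h2, h4, unf_app]
    obtain ⟨c, d, h4⟩ := hX.sqe _ _ ha hb h1 h3
    refine ⟨(c, a.2), (d, a.2 * (unfP hX c)⁻¹), ?_⟩
    rw [unf_sq hX]
    exact ⟨h4, rfl, h2.symm, rfl⟩
  squ a b c d c' d' h h' := by
    obtain ⟨h1, h2, h3, h4⟩ := (unf_sq hX a b c d).1 h
    obtain ⟨g1, g2, g3, g4⟩ := (unf_sq hX a b c' d').1 h'
    obtain ⟨s, k1, k2, k3⟩ := hX.squ _ _ _ _ _ _ h1 g1
    have hr : (unf X).rc c (s, c.2 * (unfP hX c.1)⁻¹) := by
      rw [unf_rc hX]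
      exact ⟨k1, rfl⟩
    refine ⟨(s, c.2 * (unfP hX c.1)⁻¹), hr, ?_, ?_⟩
    · rw [unf_mr hX _ _ hr]
      apply Prod.ext
      · exact k2
      · show c'.2 = c.2
        rw [g2, h2]
    · rw [unf_i hX, unf_ml]
      apply Prod.ext
      · exact k3
      · show d'.2 = c.2 * (unfP hX c.1)⁻¹ * (unfP hX s)⁻¹
        rw [g4, k2, unfP_mr hX k1, mul_inv_rev, h2, mul_assoc]
  cube a b b₁ a₁ c c₁ a₂ c' c₁' a₃ b' h1 h2 h3 h4 := by
    obtain ⟨p1, p2, p3, p4⟩ := (unf_sq hX _ _ _ _).1 h1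
    obtain ⟨q1, q2, q3, q4⟩ := (unf_sq hX _ _ _ _).1 h2
    obtain ⟨r1, r2, r3, r4⟩ := (unf_sq hX _ _ _ _).1 h3
    obtain ⟨s1, s2, s3, s4⟩ := (unf_sq hX _ _ _ _).1 h4
    obtain ⟨b₁', u1, u2⟩ := hX.cube _ _ _ _ _ _ _ _ _ _ _ p1 q1 r1 s1
    refine ⟨(b₁', c₁.2 * (unfP hX c₁.1)⁻¹), ?_, ?_⟩
    · rw [unf_sq hX]
      simp only
      refine ⟨u1, ?_, ?_, ?_⟩
      · rw [q3, p3]
      · rw [r3, p4, p3, mul_assoc, mul_assoc, ← mul_inv_rev, ← mul_inv_rev, unfP_sq hX p1]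
      · rw [q3, p3]
    · rw [unf_sq hX]
      simp only
      refine ⟨u2, ?_, ?_, ?_⟩
      · rw [s4, q4, p2]
      · rw [q3, q4, mul_assoc, mul_assoc, ← mul_inv_rev, ← mul_inv_rev, unfP_sq hX q1]
      · rw [r4, p4, q4, mul_assoc, mul_assoc, ← mul_inv_rev, ← mul_inv_rev, unfP_sq hX s1]

theorem unf_valid [Finite ι] (hX : Valid0 X) : Valid0 (unf X) := unf_valid' hX

theorem unf_pm (a : A × Equiv.Perm ι) (k : ι) : (unf X).pm a k = k := rfl

theorem unf_lf [Finite ι] (hX : Valid0 X) {V : ι → Type} {S : ∀ i, SimpleGraph (V i)} {F : Type}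
    (L : LF (unf X) S F) : ∃ L' : LF X S F, ∀ f, L'.p f = (L.p f).1 := by
  have ho : ∀ f a, X.o a = (L.p f).1 → (unf X).o (a, (L.p f).2) = L.p f := by
    intro f a h
    rw [unf_o]
    exact Prod.ext h rfl
  have hp : ∀ f a, X.o a = (L.p f).1 → L.p (L.act f (a, (L.p f).2)) =
      (X.t a, (L.p f).2 * (unfP hX a)⁻¹) := by
    intro f a h
    rw [L.act_p f _ (ho f a h), unf_t hX]
  refine ⟨{ pt := L.pt, lam := fun f k => L.lam f ((L.p f).2 k), p := fun f => (L.p f).1,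
            act := fun f a => L.act f (a, (L.p f).2), bij := ?_, onto := L.onto, act_p := ?_,
            act_lam := ?_, act_e := ?_, act_i := ?_, act_ml := ?_, act_sq := ?_, sq_of := ?_,
            st := ?_, mo := ?_, sur := ?_, inj := ?_ }, fun f => rfl⟩
  · intro f
    exact (L.bij f).comp (L.p f).2.bijective
  · intro f a h
    rw [hp f a h]
  · intro f a h k
    rw [hp f a h]
    simp only
    rw [unf_app]
    exact L.act_lam f (a, (L.p f).2) (ho f a h) ((L.p f).2 k)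
  · intro f
    exact L.act_e f
  · intro f a h
    rw [hp f a h]
    simp only
    have h1 := L.act_i f (a, (L.p f).2) (ho f a h)
    rw [unf_i hX] at h1
    exact h1
  · intro f s a h h'
    rw [hp f s h]
    simp only
    have h1 := L.act_ml f (s, (L.p f).2) (a, (L.p f).2 * (unfP hX s)⁻¹) (ho f s h)
      ((unf_lc hX _ _).2 ⟨h', rfl⟩)
    rw [unf_ml] at h1
    exact h1
  · intro f a b c d h h'
    have hc : X.o c = (L.p f).1 := by
      rw [← h]
      exact (hX.sqT _ _ _ _ h').oac.symm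
    rw [hp f a h, hp f c hc]
    simp only
    exact L.act_sq f (a, (L.p f).2) (b, (L.p f).2 * (unfP hX a)⁻¹) (c, (L.p f).2)
      (d, (L.p f).2 * (unfP hX c)⁻¹) (ho f a h) ((unf_sq hX _ _ _ _).2 ⟨h', rfl, rfl, rfl⟩)
  · intro f a b c d h hT h'
    have hc : X.o c = (L.p f).1 := by
      rw [← h]
      exact hT.oac.symm
    rw [hp f a h, hp f c hc] at h'
    simp only at h'
    have hb : (unf X).o (b, (L.p f).2 * (unfP hX a)⁻¹) = L.p (L.act f (a, (L.p f).2)) := by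
      rw [hp f a h, unf_o]
      simp only
      rw [hT.tab]
    have hd : (unf X).o (d, (L.p f).2 * (unfP hX c)⁻¹) = L.p (L.act f (c, (L.p f).2)) := by
      rw [hp f c hc, unf_o]
      simp only
      rw [hT.tcd]
    have h2 := L.sq_of f (a, (L.p f).2) (b, (L.p f).2 * (unfP hX a)⁻¹) (c, (L.p f).2)
      (d, (L.p f).2 * (unfP hX c)⁻¹) (ho f a h) ?_ h'
    · exact h2.1
    · refine ⟨hT.ma, hT.mb, hT.mc, hT.md, ?_, ?_, ?_, ?_, ?_, ?_, ?_⟩
      · rw [unf_o, unf_o]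
        simp only
        rw [hT.oac]
      · rw [unf_t hX, unf_o]
        simp only
        rw [hT.tab]
      · rw [unf_t hX, unf_o]
        simp only
        rw [hT.tcd]
      · rw [← L.act_p _ _ hb, ← L.act_p _ _ hd, h']
      · show (L.p f).2 (X.ty a) ≠ (L.p f).2 (X.ty c)
        exact fun h5 => hT.ne ((L.p f).2.injective h5)
      · show ((L.p f).2 * (unfP hX a)⁻¹) (X.ty b) = (L.p f).2 (X.ty c)
        rw [hT.tyb, unf_app]
      · show ((L.p f).2 * (unfP hX c)⁻¹) (X.ty d) = (L.p f).2 (X.ty a)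
        rw [hT.tyd, unf_app]
  · intro f a h hm
    exact L.st f _ (ho f a h) hm
  · intro f a h hm
    exact L.mo f _ (ho f a h) hm
  · intro f f' h
    obtain ⟨⟨a, μ⟩, h1, h2⟩ := L.sur f f' h
    rw [unf_o] at h1
    have h3 := (Prod.ext_iff.1 h1).1
    have h4 := (Prod.ext_iff.1 h1).2
    simp only at h3 h4
    refine ⟨a, h3, ?_⟩
    rw [← h4]
    exact h2
  · intro f a b h h' h''
    have h1 := L.inj f (a, (L.p f).2) (b, (L.p f).2) (ho f a h) (ho f b h') h''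
    exact (Prod.ext_iff.1 h1).1

end

end LatF
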