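import Pool.Agent.Lib.MP_32d917_al.FDefs
import Pool.Agent.Lib.MP_32d917_al.F.FUC
import Pool.Agent.Lib.MP_32d917_al.F.GLE
import Pool.Agent.Lib.MP_32d917_al.F.GLF
import Pool.Agent.Lib.MP_32d917_al.F.UNF

/-!
# framed products exist

Work with `Y = unf X` (valid, `pm = id`), base object `(p0, 1)`. For every `k : ι` `fuc_exists` gives the tree of direction `k`; `glab_exists`, `glab_lf` (classical DecidableEq), then `unf_lf`; the base frame has object `(p0, 1)`.
-/

set_option autoImplicit false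

namespace LatF

open LatIso LatN

section

variable {ι P A : Type} {X : FD ι P A}

theorem lf_exists [Fintype ι] [Nonempty A] (hX : Valid0 X) (p0 : P) :
    ∃ (V : ι → Type) (S : ∀ i, SimpleGraph (V i)) (F : Type), (∀ i, (S i).IsTree) ∧
      ∃ L : LF X S F, ∃ f, L.p f = p0 := by
  classical
  have hY := unf_valid hX
  have hp : ∀ a k, (unf X).pm a k = k := unf_pm
  have key : ∀ k : ι, ∃ (V : Type) (S : SimpleGraph V) (v0 : V) (q : V → P × Equiv.Perm ι)
      (al : V → V → A × Equiv.Perm ι), S.IsTree ∧ q v0 = (p0, 1) ∧ FH (unf X) k S q al :=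
    fun k => fuc_exists hY hp k (p0, 1)
  choose V S x0 q al hS hq hF using key
  obtain ⟨L1, hL1⟩ := glab_exists hY hp hS x0 (p0, 1) q al hF hq
  obtain ⟨F, L2, hL2⟩ := glab_lf hY hp L1
  obtain ⟨f, hf1, hf2⟩ := hL2 x0
  obtain ⟨L3, hL3⟩ := unf_lf hX L2
  exact ⟨V, S, F, hS, L3, f, by rw [hL3, hf2, hL1]⟩

end

end LatF
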