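import Pool.Agent.Lib.MP_32d917_al.RE
import Pool.Agent.Lib.MP_32d917_al.PRES2
import Pool.Agent.Lib.MP_32d917_al.N.NCert
import Pool.Agent.Lib.MP_32d917_al.F.FCOMM
import Pool.Agent.Lib.MP_32d917_al.F.FNIEL
import Pool.Agent.Lib.MP_32d917_al.F.SLF
import Pool.Agent.Lib.MP_32d917_al.F.FTR1
import Pool.Agent.Lib.MP_32d917_al.F.FTR2
import Pool.Agent.Lib.MP_32d917_al.F.FRED
import Pool.Agent.Lib.MP_32d917_al.F.FSUBD
import Pool.Agent.Lib.MP_32d917_al.F.FDG
import Pool.Agent.Lib.MP_32d917_al.F.FISO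
import Pool.Agent.Lib.MP_32d917_al.F.FAUT
import Pool.Agent.Lib.MP_32d917_al.F.FQC
import Pool.Agent.Lib.MP_32d917_al.F.FQUOT
import Pool.Agent.Lib.MP_32d917_al.F.FCON
import Pool.Agent.Lib.MP_32d917_al.F.LFE
import Pool.Agent.Lib.MP_32d917_al.F.FGA
import Pool.Agent.Lib.MP_32d917_al.F.FGB
import Pool.Agent.Lib.MP_32d917_al.F.FLEG
import Pool.Agent.Lib.MP_32d917_al.F.FRS
import Pool.Agent.Lib.MP_32d917_al.F.FRC
import Pool.Agent.Lib.MP_32d917_al.F.FBND
import Pool.Agent.Lib.MP_32d917_al.F.CA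
import Pool.Agent.Lib.MP_32d917_al.F.CISO
import Pool.Agent.Lib.MP_32d917_al.F.CGOOD
import Pool.Agent.Lib.MP_32d917_al.F.CCLO
import Pool.Agent.Lib.MP_32d917_al.F.CSPAN
import Pool.Agent.Lib.MP_32d917_al.F.CPRES

/-!
# Certificates of isomorphism and of non-isomorphism
-/

set_option autoImplicit false

namespace LatF

open LatIso LatN

/-! ### Rigidity -/

theorem slides_flat {G : Type} [Group G] {V ι : Type} [Fintype ι] [MulAction G V] [MulAction G ι]
    {κ : V → ι} {S S' : SimpleGraph V} (L : FLat0 G κ S)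
    (hs : Relation.ReflTransGen (Slide G) S S') : FLat0 G κ S' := by
  induction hs with
  | refl => exact L
  | tail _ h ih => exact slide_flat ih h

theorem frig {G : Type} [Group G] {V V' ι ι' : Type} [Fintype ι] [Fintype ι'] [MulAction G V]
    [MulAction G V'] [MulAction G ι] [MulAction G ι'] {κ : V → ι} {κ' : V' → ι'}
    {S : SimpleGraph V} {S' : SimpleGraph V'} (L : FLat G κ S) (L' : FLat G κ' S')
    (hS : Red G S) (hS' : Red G S') :
    ∃ S₁ : SimpleGraph V, Relation.ReflTransGen (Slide G) S S₁ ∧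
      ∀ (ι₀ P A : Type) (X : FD ι₀ P A), IsCov G κ' S' X → IsCov G κ S₁ X := by
  obtain ⟨Φ, σ, h1, h2, h3⟩ := fcomm L L' hS hS'
  refine ⟨S'.comap Φ, fniel L.b (flat_transport Φ σ h1 h2 h3 L'.b), ?_⟩
  intro ι₀ P A X hX
  exact cov_transport Φ σ h1 h2 h3 hX

/-! ### Codes of groups -/

/-- `x` is a code of good data for the group presented by `P` -/
def CodeFor (P : Pres) (x : Code) : Prop := Good (dec x) ∧ HasCov P.Grp (dec x)

theorem fin_surj_aux {V : Type} {n : ℕ} (s : Equiv.Perm (Fin n)) (k : Fin n) :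
    ∃ l, s l = k := s.surjective k

/-- components of a forest with quotient `X` are finite in number -/
theorem fintype_of_cov {G : Type} [Group G] {ι P A : Type} [Finite ι] {V ι' : Type}
    [MulAction G V] [MulAction G ι'] {κ : V → ι'} {S : SimpleGraph V} {X : FD ι P A}
    (hP : Nonempty P) (h : IsCov G κ S X) : Finite ι' := by
  obtain ⟨_, _, _, F, _, L, hL⟩ := h
  obtain ⟨p⟩ := hP
  obtain ⟨f, _⟩ := hL.onto p
  exact Finite.of_surjective (L.lam f) (L.bij f).2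

/-- `HasCov` in terms of the fundamental group -/
theorem hasCov_iff {G : Type} [Group G] {ι P A : Type} [Fintype ι] [Finite P]
    [Nonempty A] {X : FD ι P A} (hX : Valid X) {p0 : P} {δ : P → A} {r : P → ℕ}
    (hs : Span X p0 δ r) : HasCov G X ↔ Nonempty (G ≃* Gam X p0 δ) := by
  constructor
  · rintro ⟨V, ι', _, _, κ, S, h⟩
    haveI := fintype_of_cov ⟨p0⟩ h
    haveI := Fintype.ofFinite ι'
    exact cov_gam h hs
  · rintro ⟨e⟩
    obtain ⟨V, S, F, hS, L, hL⟩ := lf_exists hX.v0 p0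
    have hon := lf_onto hX.v0 L hs hL
    obtain ⟨K, _, hK⟩ := lf_cov hX hS L hon
    have hK' := hK
    obtain ⟨V', ι', _, _, κ, S', h⟩ := hK'
    haveI := fintype_of_cov ⟨p0⟩ h
    haveI := Fintype.ofFinite ι'
    obtain ⟨e'⟩ := cov_gam h hs
    exact hasCov_transport (e.trans e'.symm) hK

theorem hasCov_unique {G G' : Type} [Group G] [Group G'] {ι P A : Type} [Fintype ι]
    [Finite P] [Nonempty A] {X : FD ι P A} (hX : Good X) (h : HasCov G X)
    (h' : HasCov G' X) : Nonempty (G ≃* G') := by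
  obtain ⟨p0, δ, r, hs⟩ := hX.span
  obtain ⟨e⟩ := (hasCov_iff hX.valid hs).1 h
  obtain ⟨e'⟩ := (hasCov_iff hX.valid hs).1 h'
  exact ⟨e.trans e'.symm⟩

theorem codeFor_iff (P : Pres) (x : Code) (f : Code × ℕ × ℕ → Pres)
    (hf : ∀ (x : Code) (p d : ℕ), Nonempty ((f (x, p, d)).Grp ≃*
      Gam (dec x) (fm x.1.2.1 p) (fun q => dig x.1.2.2 d q))) :
    CodeFor P x ↔ Good (dec x) ∧ ∃ y : ℕ × ℕ × List ℕ,
      Span (dec x) (fm x.1.2.1 y.1) (fun q => dig x.1.2.2 y.2.1 q) (fun q => y.2.2.getD q 0) ∧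
      Nonempty (P.Grp ≃* (f (x, y.1, y.2.1)).Grp) := by
  constructor
  · rintro ⟨hg, hc⟩
    refine ⟨hg, ?_⟩
    obtain ⟨p0, δ, r, hs⟩ := hg.span
    obtain ⟨d, hd⟩ := dig_surj x.1.2.2 x.1.2.1 δ
    obtain ⟨l, hl⟩ := list_rank r
    have hp := fm_surj x.1.2.1 p0
    rw [← hp, ← hd, ← hl] at hs
    obtain ⟨e⟩ := (hasCov_iff hg.valid hs).1 hc
    obtain ⟨e'⟩ := hf x p0 d
    exact ⟨((p0 : ℕ), d, l), hs, ⟨e.trans e'.symm⟩⟩
  · rintro ⟨hg, ⟨p, d, l⟩, hs, ⟨e⟩⟩
    obtain ⟨e'⟩ := hf x p d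
    exact ⟨hg, (hasCov_iff hg.valid hs).2 ⟨e.trans e'⟩⟩

theorem codeFor_re : REPred (fun x : Pres × Code => CodeFor x.1 x.2) := by
  obtain ⟨f, hf, hf'⟩ := cgam_pres
  have h1 : REPred (fun x : (Pres × Code) × (ℕ × ℕ × List ℕ) =>
      Span (dec x.1.2) (fm x.1.2.1.2.1 x.2.1) (fun q => dig x.1.2.1.2.2 x.2.2.1 q)
        (fun q => x.2.2.2.getD q 0)) := by
    refine re_of_prim ?_
    exact cspan_p.comp (f := fun x : (Pres × Code) × (ℕ × ℕ × List ℕ) =>
      (x.1.2, x.2.1, x.2.2.1, x.2.2.2)) (by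
        exact Primrec.pair (Primrec.snd.comp Primrec.fst) (Primrec.pair
          (Primrec.fst.comp Primrec.snd) (Primrec.pair (Primrec.fst.comp (Primrec.snd.comp
          Primrec.snd)) (Primrec.snd.comp (Primrec.snd.comp Primrec.snd)))))
  have h2 : REPred (fun x : (Pres × Code) × (ℕ × ℕ × List ℕ) =>
      Nonempty (x.1.1.Grp ≃* (f (x.1.2, x.2.1, x.2.2.1)).Grp)) := by
    refine re_comp iso_re (f := fun x : (Pres × Code) × (ℕ × ℕ × List ℕ) =>
      (x.1.1, f (x.1.2, x.2.1, x.2.2.1))) ?_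
    refine Primrec.to_comp ?_
    exact Primrec.pair (Primrec.fst.comp Primrec.fst) (hf.comp (Primrec.pair
      (Primrec.snd.comp Primrec.fst) (Primrec.pair (Primrec.fst.comp Primrec.snd)
      (Primrec.fst.comp (Primrec.snd.comp Primrec.snd)))))
  have h3 : REPred (fun x : Pres × Code => Good (dec x.2)) :=
    re_comp cgood_re (f := fun x : Pres × Code => x.2) Primrec.snd.to_comp
  have h4 := re_and h3 (re_exists (p := fun (x : Pres × Code) (y : ℕ × ℕ × List ℕ) =>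
    Span (dec x.2) (fm x.2.1.2.1 y.1) (fun q => dig x.2.1.2.2 y.2.1 q)
      (fun q => y.2.2.getD q 0) ∧
      Nonempty (x.1.Grp ≃* (f (x.2, y.1, y.2.1)).Grp)) (re_and h1 h2))
  refine h4.of_eq ?_
  intro x
  exact (codeFor_iff x.1 x.2 f hf').symm

/-- certificate of non-isomorphism -/
def NoCert (P Q : Pres) : Prop :=
  ∃ z : Code × Code × List Code, CodeFor P z.1 ∧ CodeFor Q z.2.1 ∧ Closed z.2.2 ∧ z.1 ∈ z.2.2 ∧
    ∀ t ∈ z.2.2, ¬ Iso (dec t) (dec z.2.1)

theorem mem_code_p : PrimrecPred (fun x : Code × List Code => x.1 ∈ x.2) := by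
  have h1 : PrimrecRel (fun (t : Code) (x : Code) => t = x) := Primrec.eq
  refine PrimrecPred.of_eq (h1.exists_mem_list.comp Primrec.snd Primrec.fst) ?_
  intro x
  simp

theorem noCert_re : REPred (fun x : Pres × Pres => NoCert x.1 x.2) := by
  have hP : Primrec (fun x : (Pres × Pres) × (Code × Code × List Code) => (x.1.1, x.2.1)) :=
    Primrec.pair (Primrec.fst.comp Primrec.fst) (Primrec.fst.comp Primrec.snd)
  have hQ : Primrec (fun x : (Pres × Pres) × (Code × Code × List Code) => (x.1.2, x.2.2.1)) :=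
    Primrec.pair (Primrec.snd.comp Primrec.fst) (Primrec.fst.comp (Primrec.snd.comp Primrec.snd))
  have hl : Primrec (fun x : (Pres × Pres) × (Code × Code × List Code) => x.2.2.2) :=
    Primrec.snd.comp (Primrec.snd.comp Primrec.snd)
  have hz : Primrec (fun x : (Pres × Pres) × (Code × Code × List Code) => x.2.1) :=
    Primrec.fst.comp Primrec.snd
  have h1 := re_comp codeFor_re hP.to_comp
  have h2 := re_comp codeFor_re hQ.to_comp
  have h3 : REPred (fun x : (Pres × Pres) × (Code × Code × List Code) => Closed x.2.2.2) :=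
    re_comp cclosed_re hl.to_comp
  have h4 : PrimrecPred (fun x : (Pres × Pres) × (Code × Code × List Code) =>
      x.2.1 ∈ x.2.2.2) := mem_code_p.comp (Primrec.pair hz hl)
  have h5 : REPred (fun x : (Pres × Pres) × (Code × Code × List Code) =>
      ∀ t ∈ x.2.2.2, ¬ Iso (dec t) (dec x.2.2.1)) := by
    refine re_forall_mem hl ?_
    refine re_comp cniso_re (f := fun x : ((Pres × Pres) × (Code × Code × List Code)) × Code =>
      (x.2, x.1.2.2.1)) ?_
    exact (Primrec.pair Primrec.snd (Primrec.fst.comp (Primrec.snd.comp (Primrec.snd.comp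
      Primrec.fst)))).to_comp
  have h := re_exists (p := fun (x : Pres × Pres) (z : Code × Code × List Code) =>
    CodeFor x.1 z.1 ∧ CodeFor x.2 z.2.1 ∧ Closed z.2.2 ∧ z.1 ∈ z.2.2 ∧
      ∀ t ∈ z.2.2, ¬ Iso (dec t) (dec z.2.1))
    (re_and h1 (re_and h2 (re_and h3 (re_and (re_of_prim h4) h5))))
  exact h

/-- closed lists are closed under chains of slides -/
theorem closed_chain {l : List Code} (hl : Closed l) {G : Type} [Group G] {V ι' : Type}
    [Fintype ι'] [MulAction G V] [MulAction G ι'] {κ : V → ι'} {S S' : SimpleGraph V}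
    (L : FLat0 G κ S) (hs : Relation.ReflTransGen (Slide G) S S')
    (h : ∃ x ∈ l, IsCov G κ S (dec x)) : ∃ x ∈ l, IsCov G κ S' (dec x) := by
  induction hs with
  | refl => exact h
  | @tail S₁ S₂ h1 h2 ih =>
    obtain ⟨x, hx, hc⟩ := ih
    have L1 : FLat0 G κ S₁ := slides_flat L h1
    have L2 : FLat0 G κ S₂ := slide_flat L1 h2
    obtain ⟨_, _, hv, F, _, Λ, hΛ⟩ := hc
    obtain ⟨a, b, hab, hsl⟩ := legal_of_slide hv L1 hΛ h2
    obtain ⟨m, w, hm, φ₁, φ₂, hr⟩ := hl x hx a b hab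
    exact ⟨_, hm, res_sound hv L1 L2 hΛ hab hsl hr⟩

theorem noCert_sound (P Q : Pres) (h : NoCert P Q) : ¬ Nonempty (P.Grp ≃* Q.Grp) := by
  rintro ⟨e⟩
  obtain ⟨⟨x, y, l⟩, ⟨gx, cx⟩, ⟨gy, cy⟩, hl, hx, hno⟩ := h
  simp only at gx cx gy cy hl hx hno
  have cy' : HasCov P.Grp (dec y) := hasCov_transport e cy
  obtain ⟨V, ι', _, _, κ, S, cX⟩ := cx
  obtain ⟨V', ι'', _, _, κ', S', cY⟩ := cy'
  haveI := fintype_of_cov ⟨0⟩ cX
  haveI := Fintype.ofFinite ι'
  haveI := fintype_of_cov ⟨0⟩ cY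
  haveI := Fintype.ofFinite ι''
  obtain ⟨L, rS⟩ := flat_of_good cX gx
  obtain ⟨L', rS'⟩ := flat_of_good cY gy
  obtain ⟨S₁, h1, h2⟩ := frig L L' rS rS'
  obtain ⟨t, ht, hc⟩ := closed_chain hl L.b h1 ⟨x, hx, cX⟩
  exact hno t ht (cov_iso hc (h2 _ _ _ _ cY))

/-- every group in the class has a code -/
theorem codeFor_exists (P : Pres) (hP : IsForestLattice P.Grp) :
    ∃ (x : Code) (V : Type) (_ : MulAction P.Grp V) (_ : MulAction P.Grp (Fin (x.1.1 + 1)))
      (κ : V → Fin (x.1.1 + 1)) (S : SimpleGraph V), InBox x ∧ CodeFor P x ∧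
      FLat0 P.Grp κ S ∧ IsCov P.Grp κ S (dec x) := by
  obtain ⟨n, V, _, _, κ, S, L⟩ := fsubd hP
  obtain ⟨n, V, _, _, κ, S, L, rS⟩ := fred_exists L
  obtain ⟨nP, nA, X, hX⟩ := fquot_exists L.b
  obtain ⟨w, h1, h2⟩ := dec_surj (n, nP, nA) X
  refine ⟨((n, nP, nA), w), V, _, _, κ, S, h1, ⟨?_, ?_⟩, L.b, ?_⟩
  · rw [h2]
    exact fgood_of_flat L rS hX
  · rw [h2]
    exact ⟨V, _, _, _, κ, S, hX⟩
  · rw [h2]
    exact hX

theorem noCert_complete (P Q : Pres) (hP : IsForestLattice P.Grp) (hQ : IsForestLattice Q.Grp)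
    (h : ¬ Nonempty (P.Grp ≃* Q.Grp)) : NoCert P Q := by
  classical
  obtain ⟨x, V, _, _, κ, S, bx, cx, L, hx⟩ := codeFor_exists P hP
  obtain ⟨y, _, _, _, _, _, _, cy, _, _⟩ := codeFor_exists Q hQ
  obtain ⟨N, hN⟩ := cov_bound (ι := Fin (x.1.1 + 1)) (nP := x.1.2.1) L
  -- the set of all reachable codes
  let Z : Set Code := {z | InBox z ∧ z.1.2.2 ≤ N ∧ ∃ (w m : ℕ) (S₁ : SimpleGraph V),
    z = ((x.1.1, x.1.2.1, m), w) ∧ Relation.ReflTransGen (Slide P.Grp) S S₁ ∧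
      IsCov P.Grp κ S₁ (dec ((x.1.1, x.1.2.1, m), w))}
  have hZ : Z.Finite := by
    have h1 : Z ⊆ ⋃ m ∈ Set.Iic N, (fun w : ℕ => (((x.1.1, x.1.2.1, m), w) : Code)) ''
        (Set.Iio (bse (x.1.1, x.1.2.1, m) ^ (9 * bse (x.1.1, x.1.2.1, m) ^ 4))) := by
      rintro z ⟨hb, hn, w, m, S₁, rfl, _, _⟩
      simp only [Set.mem_iUnion, Set.mem_image, Set.mem_Iio, Set.mem_Iic]
      exact ⟨m, hn, w, hb, rfl⟩
    refine Set.Finite.subset ?_ h1
    refine Set.Finite.biUnion (Set.finite_Iic N) ?_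
    intro m _
    exact (Set.finite_Iio _).image _
  refine ⟨(x, y, hZ.toFinset.toList), cx, cy, ?_, ?_, ?_⟩
  · intro z hz a b hab
    simp only [Finset.mem_toList, Set.Finite.mem_toFinset] at hz ⊢
    obtain ⟨hb, hn, w, m, S₁, rfl, hs, hc⟩ := hz
    have L1 : FLat0 P.Grp κ S₁ := slides_flat L hs
    obtain ⟨_, _, hv, F, _, Λ, hΛ⟩ := hc
    obtain ⟨S₂, h1, h2⟩ := slide_of_legal hv L1 hΛ hab
    have L2 : FLat0 P.Grp κ S₂ := slide_flat L1 h1
    let R : Frm P.Grp κ (Fin (x.1.1 + 1)) (Fin (x.1.2.1 + 1)) F :=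
      { pt := Λ.pt
        lam := Λ.lam
        p := Λ.p
        bij := Λ.bij
        onto := Λ.onto
        gp := hΛ.gp
        gpt := hΛ.gpt
        glam := hΛ.glam
        free := hΛ.free
        trans := hΛ.trans
        ponto := hΛ.onto
        same := by
          intro f f' hff
          obtain ⟨s, hs1, hs2⟩ := Λ.sur f f' (Or.inl hff.symm)
          have hst : ¬ (dec ((x.1.1, x.1.2.1, m), w)).mv s := by
            intro hm
            have h3 := (Λ.mo f s hs1 hm).1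
            rw [hs2, hff] at h3
            exact (SimpleGraph.irrefl _ h3)
          rw [← hs2, Λ.act_p f s hs1, hv.loop s hst, hs1] }
    obtain ⟨m', Y, Λ', hY, hΛ', e1, e2, e3⟩ := fqc L2 R
    obtain ⟨w', hw', hd⟩ := dec_surj (x.1.1, x.1.2.1, m') Y
    obtain ⟨φ₁, φ₂, hr⟩ := res_of_cov hv hY L1 L2 hΛ hab h2 hΛ' e1 e2 e3
    have hcY : IsCov P.Grp κ S₂ Y := ⟨L2.forest, L2.act, hY, F, _, Λ', hΛ'⟩
    refine ⟨m', w', ⟨hw', hN S₂ (hs.tail h1) m' Y hcY, w', m', S₂, rfl, hs.tail h1, ?_⟩,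
      φ₁, φ₂, ?_⟩
    · rw [hd]
      exact hcY
    · show Res (dec ((x.1.1, x.1.2.1, m), w)) (dec ((x.1.1, x.1.2.1, m'), w')) a b φ₁ φ₂
      rw [hd]
      exact hr
  · simp only [Finset.mem_toList, Set.Finite.mem_toFinset]
    refine ⟨bx, hN S .refl x.1.2.2 _ hx, x.2, x.1.2.2, S, rfl, .refl, hx⟩
  · intro z hz hiso
    simp only [Finset.mem_toList, Set.Finite.mem_toFinset] at hz
    obtain ⟨hb, hn, w, m, S₁, rfl, hs, hc⟩ := hz
    have h1 : HasCov P.Grp (dec y) := hasCov_iso cy.1.valid hiso ⟨V, _, _, _, κ, S₁, hc⟩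
    exact h (hasCov_unique cy.1 h1 cy.2)

/-- The isomorphism problem is solvable for groups acting properly and cocompactly on finite
products of trees. -/
theorem ffinal : ∃ f : Pres × Pres →. Bool, Partrec f ∧ ∀ P Q : Pres,
    IsForestLattice P.Grp → IsForestLattice Q.Grp →
      ∃ b ∈ f (P, Q), (b = true ↔ Nonempty (P.Grp ≃* Q.Grp)) := by
  obtain ⟨f, hf, h1, h2, h3⟩ := par_search iso_re noCert_re
  refine ⟨f, hf, fun P Q hP hQ => ?_⟩
  have g2 : true ∈ f (P, Q) → Nonempty (P.Grp ≃* Q.Grp) := fun h => h2 (P, Q) h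
  have g3 : false ∈ f (P, Q) → NoCert P Q := fun h => h3 (P, Q) h
  have hd : (f (P, Q)).Dom := by
    apply h1
    by_cases h : Nonempty (P.Grp ≃* Q.Grp)
    · exact Or.inl h
    · exact Or.inr (noCert_complete P Q hP hQ h)
  refine ⟨(f (P, Q)).get hd, Part.get_mem hd, ?_⟩
  have hm := Part.get_mem hd
  rcases hb : (f (P, Q)).get hd with _ | _
  · rw [hb] at hm
    have h4 := noCert_sound P Q (g3 hm)
    exact ⟨fun h => by simp at h, fun h => absurd h h4⟩
  · rw [hb] at hm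
    exact ⟨fun _ => g2 hm, fun _ => rfl⟩

end LatF
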