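import Pool.Agent.Lib.MP_32d917_al.FDefs
import Pool.Agent.Lib.MP_32d917_al.F.FVAL

/-!
# the data are determined by the action

Frames over the same point have the same object; choose frames `z q` of `L` and `z' q` of `L'` over
the same point, this gives an equivariant bijection `φ` between the frames, over the points; arrows
correspond to pairs of frames over equal or adjacent points.
-/

set_option autoImplicit false

namespace LatF

open LatIso LatN

section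

variable {ι P A ι₁ P₁ A₁ : Type} {X : FD ι P A} {Y : FD ι₁ P₁ A₁} {G : Type} [Group G]
  {V ι' : Type} [MulAction G V] [MulAction G ι'] {κ : V → ι'} {S : SimpleGraph V}

theorem fiso_mv {F : Type} {L : LF X (comp κ S) F} {f : F} {a : A} (h : X.o a = L.p f) :
    X.mv a ↔ L.pt (L.act f a) ≠ L.pt f := by
  constructor
  · intro hm he
    have h1 := (L.mo f a h hm).1
    rw [he] at h1
    exact h1.ne rfl
  · intro hn
    by_contra hm
    exact hn (L.st f a h hm)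

theorem fiso_same {F : Type} [MulAction G F] (hX : Valid X) {L : LF X (comp κ S) F}
    (hL : Cov G L) {f f' : F} {g : G}
    (h : ∀ i, g • (L.pt f i).1 = (L.pt f' (g • i)).1) : L.p f = L.p f' := by
  have h1 : L.pt (g • f) = L.pt f' := by
    funext j
    apply Subtype.ext
    have h2 := hL.gpt g f (g⁻¹ • j)
    have h3 := h (g⁻¹ • j)
    rw [smul_inv_smul] at h2 h3
    rw [h2, h3]
  obtain ⟨a, ha, hb⟩ := L.sur (g • f) f' (Or.inl h1.symm)
  have h4 : ¬ X.mv a := by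
    rw [fiso_mv ha, hb]
    exact fun hn => hn h1.symm
  rw [← hL.gp g f, ← ha, ← hX.loop a h4, ← L.act_p _ _ ha, hb]

/-- a map of frames and arrows -/
structure FIm {F F' : Type} (L : LF X (comp κ S) F) (L' : LF Y (comp κ S) F') (u : P → P₁)
    (φ : F → F') (w : A → A₁) : Prop where
  hp : ∀ f, L'.p (φ f) = u (L.p f)
  hpt : ∀ f, L'.pt (φ f) = L.pt f
  wo : ∀ a, Y.o (w a) = u (X.o a)
  wa : ∀ f a, X.o a = L.p f → L'.act (φ f) (w a) = φ (L.act f a)

section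

variable {F F' : Type} {L : LF X (comp κ S) F} {L' : LF Y (comp κ S) F'} {u : P → P₁}
  {φ : F → F'} {w : A → A₁}

theorem FIm.o' (I : FIm L L' u φ w) {f : F} {a : A} (h : X.o a = L.p f) :
    Y.o (w a) = L'.p (φ f) := by rw [I.wo, I.hp, h]

theorem FIm.t' (I : FIm L L' u φ w) (ho : ∀ q : P, ∃ f : F, L.p f = q) (a : A) :
    Y.t (w a) = u (X.t a) := by
  obtain ⟨f, hf⟩ := ho (X.o a)
  rw [← L'.act_p _ _ (I.o' hf.symm), I.wa f a hf.symm, I.hp, L.act_p _ _ hf.symm]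

theorem FIm.mv' (I : FIm L L' u φ w) (ho : ∀ q : P, ∃ f : F, L.p f = q) (a : A) :
    Y.mv (w a) ↔ X.mv a := by
  obtain ⟨f, hf⟩ := ho (X.o a)
  rw [fiso_mv (I.o' hf.symm), fiso_mv hf.symm, I.wa f a hf.symm, I.hpt, I.hpt]

theorem FIm.lam' (I : FIm L L' u φ w) (ho : ∀ q : P, ∃ f : F, L.p f = q) {f : F} {a : A}
    (h : X.o a = L.p f) (hm : X.mv a) : L'.lam (φ f) (Y.ty (w a)) = L.lam f (X.ty a) := by
  by_contra hne
  have h1 := L.mo f a h hm
  have h2 := L'.mo (φ f) (w a) (I.o' h) ((I.mv' ho a).2 hm)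
  rw [I.wa f a h, I.hpt, I.hpt] at h2
  have h3 := h2.2 _ (Ne.symm hne)
  exact h1.1.ne h3.symm

theorem FIm.e' (I : FIm L L' u φ w) (hX : Valid0 X) (hY : Valid0 Y)
    (ho : ∀ q : P, ∃ f : F, L.p f = q) (p : P) : Y.e (u p) = w (X.e p) := by
  obtain ⟨f, hf⟩ := ho p
  apply L'.inj (φ f)
  · rw [hY.oe, I.hp, hf]
  · rw [I.wo, hX.oe, I.hp, hf]
  · rw [I.wa f _ (by rw [hX.oe, hf]), ← hf, L.act_e, ← I.hp, L'.act_e]

theorem FIm.i' (I : FIm L L' u φ w) (hX : Valid0 X) (hY : Valid0 Y)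
    (ho : ∀ q : P, ∃ f : F, L.p f = q) (a : A) : Y.i (w a) = w (X.i a) := by
  obtain ⟨f, hf⟩ := ho (X.o a)
  have h1 : X.o (X.i a) = L.p (L.act f a) := by rw [hX.oi, L.act_p _ _ hf.symm]
  apply L'.inj (φ (L.act f a))
  · rw [hY.oi, ← I.wa f a hf.symm, L'.act_p _ _ (I.o' hf.symm)]
  · exact I.o' h1
  · rw [I.wa _ _ h1, L.act_i _ _ hf.symm, ← I.wa f a hf.symm, L'.act_i _ _ (I.o' hf.symm)]

theorem FIm.ml' (I : FIm L L' u φ w) (hX : Valid0 X) (hY : Valid0 Y)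
    (ho : ∀ q : P, ∃ f : F, L.p f = q) {s a : A} (h : X.lc s a) :
    Y.ml (w s) (w a) = w (X.ml s a) := by
  obtain ⟨f, hf⟩ := ho (X.o s)
  have hl : Y.lc (w s) (w a) := ⟨fun hm => h.1 ((I.mv' ho s).1 hm), by
    rw [I.t' ho, I.wo, h.2]⟩
  have h1 : X.o (X.ml s a) = L.p f := by rw [hX.mlo _ _ h, hf]
  have h2 : X.o a = L.p (L.act f s) := by rw [L.act_p _ _ hf.symm, h.2]
  apply L'.inj (φ f)
  · rw [hY.mlo _ _ hl]
    exact I.o' hf.symm
  · exact I.o' h1
  · rw [L'.act_ml _ _ _ (I.o' hf.symm) hl, I.wa _ _ hf.symm, I.wa _ _ h2, I.wa _ _ h1,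
      L.act_ml _ _ _ hf.symm h]

theorem FIm.sq' (I : FIm L L' u φ w) (hX : Valid0 X)
    (ho : ∀ q : P, ∃ f : F, L.p f = q) {a b c d : A} (h : X.sq a b c d) :
    Y.sq (w a) (w b) (w c) (w d) := by
  obtain ⟨f, hf⟩ := ho (X.o a)
  have hT := hX.sqT _ _ _ _ h
  have hc : X.o c = L.p f := by rw [← hT.oac, hf]
  have hb : X.o b = L.p (L.act f a) := by rw [L.act_p _ _ hf.symm, hT.tab]
  have hd : X.o d = L.p (L.act f c) := by rw [L.act_p _ _ hc, hT.tcd]
  have la := I.lam' ho hf.symm hT.ma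
  have lc := I.lam' ho hc hT.mc
  have lb := I.lam' ho hb hT.mb
  have ld := I.lam' ho hd hT.md
  refine L'.sq_of (φ f) _ _ _ _ (I.o' hf.symm) ?_ ?_
  · refine ⟨(I.mv' ho a).2 hT.ma, (I.mv' ho b).2 hT.mb, (I.mv' ho c).2 hT.mc,
      (I.mv' ho d).2 hT.md, ?_, ?_, ?_, ?_, ?_, ?_, ?_⟩
    · rw [I.wo, I.wo, hT.oac]
    · rw [I.t' ho, I.wo, hT.tab]
    · rw [I.t' ho, I.wo, hT.tcd]
    · rw [I.t' ho, I.t' ho, hT.tbd]
    · intro he
      apply hT.ne
      apply (L.bij f).1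
      rw [← la, ← lc, he]
    · apply (L'.bij (φ (L.act f a))).1
      rw [lb, hT.tyb, L.act_lam _ _ hf.symm, ← I.wa f a hf.symm,
        L'.act_lam _ _ (I.o' hf.symm), lc]
    · apply (L'.bij (φ (L.act f c))).1
      rw [ld, hT.tyd, L.act_lam _ _ hc, ← I.wa f c hc, L'.act_lam _ _ (I.o' hc), la]
  · rw [I.wa _ _ hf.symm, I.wa _ _ hb, I.wa _ _ hc, I.wa _ _ hd,
      L.act_sq _ _ _ _ _ hf.symm h]

theorem FIm.inv' (I : FIm L L' u φ w) {u' : P₁ → P} {φ' : F' → F} {w' : A₁ → A}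
    (I' : FIm L' L u' φ' w') (hu : ∀ q, u' (u q) = q) (hφ : ∀ f, φ' (φ f) = f)
    (ho : ∀ q : P, ∃ f : F, L.p f = q) (a : A) : w' (w a) = a := by
  obtain ⟨f, hf⟩ := ho (X.o a)
  apply L.inj f
  · rw [I'.wo, I.wo, hu, hf]
  · exact hf.symm
  · have h1 := I'.wa (φ f) (w a) (I.o' hf.symm)
    rw [hφ, I.wa f a hf.symm, hφ] at h1
    exact h1

end

theorem fiso_w {F F' : Type} [MulAction G F] [MulAction G F'] {L : LF X (comp κ S) F}
    {L' : LF Y (comp κ S) F'} (hL : Cov G L) (hL' : Cov G L') {u : P → P₁} {φ : F → F'}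
    (hp : ∀ f, L'.p (φ f) = u (L.p f)) (hφ : ∀ (g : G) f, φ (g • f) = g • φ f)
    (hpt : ∀ f, L'.pt (φ f) = L.pt f) : ∃ w : A → A₁, FIm L L' u φ w := by
  have key : ∀ a : A, ∃ b : A₁, Y.o b = u (X.o a) ∧
      ∀ f, X.o a = L.p f → L'.act (φ f) b = φ (L.act f a) := by
    intro a
    obtain ⟨f0, hf0⟩ := hL.onto (X.o a)
    have h1 : L'.pt (φ (L.act f0 a)) = L'.pt (φ f0) ∨
        ∃ i, Stp (comp κ S) i (L'.pt (φ f0)) (L'.pt (φ (L.act f0 a))) := by
      rw [hpt, hpt]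
      by_cases hm : X.mv a
      · exact Or.inr ⟨_, L.mo f0 a hf0.symm hm⟩
      · exact Or.inl (L.st f0 a hf0.symm hm)
    obtain ⟨b, hb, hb'⟩ := L'.sur _ _ h1
    refine ⟨b, by rw [hb, hp, hf0], fun f hf => ?_⟩
    obtain ⟨g, rfl⟩ := hL.trans f0 f (by rw [hf0, hf])
    rw [hφ, hL'.gact _ _ _ hb, hb', ← hφ, hL.gact _ _ _ hf0.symm]
  choose w hw1 hw2 using key
  exact ⟨w, hp, hpt, hw1, fun f a h => hw2 a f h⟩

theorem fiso_gpt {F F' : Type} [MulAction G F] [MulAction G F'] {L : LF X (comp κ S) F}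
    {L' : LF Y (comp κ S) F'} (hL : Cov G L) (hL' : Cov G L') {f : F} {f' : F'}
    (h : L'.pt f' = L.pt f) (g : G) : L'.pt (g • f') = L.pt (g • f) := by
  funext j
  apply Subtype.ext
  have h1 := hL.gpt g f (g⁻¹ • j)
  have h2 := hL'.gpt g f' (g⁻¹ • j)
  rw [smul_inv_smul] at h1 h2
  rw [h1, h2, h]

theorem cov_iso (h : IsCov G κ S X) (h' : IsCov G κ S Y) : Iso X Y := by
  obtain ⟨-, -, hX, F, _, L, hL⟩ := h
  obtain ⟨-, -, hY, F', _, L', hL'⟩ := h'
  choose z hz using hL.onto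
  have hz1 : ∀ q, ∃ f', L'.pt f' = L.pt (z q) := fun q => L'.onto _
  choose z' hz' using hz1
  have hc1 : ∀ f : F, ∃ g : G, g • z (L.p f) = f := fun f => hL.trans _ _ (hz _)
  choose c hc using hc1
  have hfree : ∀ (g h : G) (x : F), g • x = h • x → g = h := by
    intro g h x hx
    have h1 : (h⁻¹ * g) • x = x := by rw [mul_smul, hx, inv_smul_smul]
    have h2 := hL.free _ _ h1
    rw [inv_mul_eq_one] at h2
    exact h2.symm
  have hfree' : ∀ (g h : G) (x : F'), g • x = h • x → g = h := by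
    intro g h x hx
    have h1 : (h⁻¹ * g) • x = x := by rw [mul_smul, hx, inv_smul_smul]
    have h2 := hL'.free _ _ h1
    rw [inv_mul_eq_one] at h2
    exact h2.symm
  let u : P → P₁ := fun q => L'.p (z' q)
  let φ : F → F' := fun f => c f • z' (L.p f)
  have hφp : ∀ f, L'.p (φ f) = u (L.p f) := fun f => hL'.gp _ _
  have hφpt : ∀ f, L'.pt (φ f) = L.pt f := by
    intro f
    have h1 := fiso_gpt hL hL' (hz' (L.p f)) (c f)
    rw [hc] at h1
    exact h1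
  have hcg : ∀ (g : G) f, c (g • f) = g * c f := by
    intro g f
    apply hfree _ _ (z (L.p f))
    have h1 := hc (g • f)
    rw [hL.gp] at h1
    rw [h1, mul_smul, hc]
  have hφg : ∀ (g : G) f, φ (g • f) = g • φ f := by
    intro g f
    change c (g • f) • z' (L.p (g • f)) = g • c f • z' (L.p f)
    rw [hcg, hL.gp, mul_smul]
  have hφz : ∀ q, φ (z q) = z' q := by
    intro q
    have h1 : c (z q) = 1 := by
      have h2 := hc (z q)
      rw [hz] at h2
      exact hL.free _ _ h2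
    change c (z q) • z' (L.p (z q)) = z' q
    rw [h1, one_smul, hz]
  have huinj : Function.Injective u := by
    intro q1 q2 he
    obtain ⟨g, hg⟩ := hL'.trans (z' q1) (z' q2) he
    have h1 : L.p (z q1) = L.p (z q2) := by
      refine fiso_same hX hL (g := g) ?_
      intro i
      rw [← hz', ← hz', ← hg, hL'.gpt]
    rwa [hz, hz] at h1
  have husur : Function.Surjective u := by
    intro q'
    obtain ⟨f', hf'⟩ := hL'.onto q'
    obtain ⟨f, hf⟩ := L.onto (L'.pt f')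
    refine ⟨L.p f, ?_⟩
    rw [← hφp, ← hf']
    refine fiso_same hY hL' (g := (1 : G)) ?_
    intro i
    rw [one_smul, one_smul, hφpt, hf]
  have hφinj : Function.Injective φ := by
    intro f1 f2 he
    have h1 : L.p f1 = L.p f2 := by
      apply huinj
      rw [← hφp, ← hφp, he]
    have h2 : c f1 = c f2 := by
      apply hfree' _ _ (z' (L.p f1))
      have h3 : c f1 • z' (L.p f1) = c f2 • z' (L.p f2) := he
      rw [h3, h1]
    rw [← hc f1, ← hc f2, h1, h2]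
  have hφsur : Function.Surjective φ := by
    intro f'
    obtain ⟨q, hq⟩ := husur (L'.p f')
    obtain ⟨g, hg⟩ := hL'.trans (z' q) f' hq
    exact ⟨g • z q, by rw [hφg, hφz, hg]⟩
  -- the inverses
  obtain ⟨u', hu1, hu2⟩ : ∃ u' : P₁ → P, (∀ q, u' (u q) = q) ∧ ∀ q, u (u' q) = q :=
    ⟨(Equiv.ofBijective u ⟨huinj, husur⟩).symm,
      fun q => Equiv.ofBijective_symm_apply_apply u ⟨huinj, husur⟩ q,
      fun q => Equiv.ofBijective_apply_symm_apply u ⟨huinj, husur⟩ q⟩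
  obtain ⟨φ', hφ1, hφ2⟩ : ∃ φ' : F' → F, (∀ q, φ' (φ q) = q) ∧ ∀ q, φ (φ' q) = q :=
    ⟨(Equiv.ofBijective φ ⟨hφinj, hφsur⟩).symm,
      fun q => Equiv.ofBijective_symm_apply_apply φ ⟨hφinj, hφsur⟩ q,
      fun q => Equiv.ofBijective_apply_symm_apply φ ⟨hφinj, hφsur⟩ q⟩
  obtain ⟨w, I⟩ := fiso_w hL hL' hφp hφg hφpt
  obtain ⟨w', I'⟩ := fiso_w (u := u') (φ := φ') hL' hL
    (by
      intro f'
      have h1 := hφp (φ' f')
      rw [hφ2] at h1
      rw [h1, hu1])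
    (by
      intro g f'
      apply hφinj
      rw [hφ2, hφg, hφ2])
    (by
      intro f'
      have h1 := hφpt (φ' f')
      rw [hφ2] at h1
      exact h1.symm)
  have hw1 : ∀ a, w' (w a) = a := I.inv' I' hu1 hφ1 hL.onto
  have hw2 : ∀ a, w (w' a) = a := I'.inv' I hu2 hφ2 hL'.onto
  let σ : P → (ι ≃ ι₁) := fun q => (Equiv.ofBijective _ (L.bij (z q))).trans
    (Equiv.ofBijective _ (L'.bij (φ (z q)))).symm
  have hσz : ∀ q k, L'.lam (φ (z q)) (σ q k) = L.lam (z q) k := fun q k =>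
    Equiv.ofBijective_apply_symm_apply (L'.lam (φ (z q))) (L'.bij (φ (z q))) _
  have hσ : ∀ f k, L'.lam (φ f) (σ (L.p f) k) = L.lam f k := by
    intro f k
    obtain ⟨g, hg⟩ := hL.trans (z (L.p f)) f (hz _)
    have h1 := hσz (L.p f) k
    have h2 : L'.lam (g • φ (z (L.p f))) (σ (L.p f) k) = L.lam (g • z (L.p f)) k := by
      rw [hL'.glam, h1, hL.glam]
    rw [← hφg, hg] at h2
    exact h2
  refine ⟨⟨u, u', hu1, hu2⟩, ⟨w, w', hw1, hw2⟩, σ, ?_, ?_, ?_, ?_, ?_, ?_, ?_, ?_, ?_⟩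
  · exact fun a => I.wo a
  · exact fun a => I.t' hL.onto a
  · exact fun p => I.e' hX.v0 hY.v0 hL.onto p
  · exact fun a => I.i' hX.v0 hY.v0 hL.onto a
  · exact fun a => I.mv' hL.onto a
  · intro a hm
    change Y.ty (w a) = σ (X.o a) (X.ty a)
    apply (L'.bij (φ (z (X.o a)))).1
    rw [hσz, I.lam' hL.onto (hz (X.o a)).symm hm]
  · intro a k
    change Y.pm (w a) (σ (X.o a) k) = σ (X.t a) (X.pm a k)
    have h1 : X.o a = L.p (z (X.o a)) := (hz _).symm
    have h2 : L.p (L.act (z (X.o a)) a) = X.t a := L.act_p _ _ h1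
    apply (L'.bij (φ (L.act (z (X.o a)) a))).1
    have h3 := hσ (L.act (z (X.o a)) a) (X.pm a k)
    rw [h2] at h3
    rw [h3, L.act_lam _ _ h1, ← I.wa _ _ h1, L'.act_lam _ _ (I.o' h1), hσz]
  · intro s a hsa
    exact I.ml' hX.v0 hY.v0 hL.onto hsa
  · intro a b c d
    change Y.sq (w a) (w b) (w c) (w d) ↔ X.sq a b c d
    constructor
    · intro hs
      have h1 := I'.sq' hY.v0 hL'.onto hs
      rwa [hw1, hw1, hw1, hw1] at h1
    · exact fun hs => I.sq' hX.v0 hL.onto hs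

end

end LatF
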